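import Pool.Agent.H60.NH.Def3

/-!
# [H60 NH NCONT] Elementary properties of the averages

`AA f k x = p2 k ^ (n-1) ∫_{ball x (8/p2 k)} f`. Continuity in `x`: `f` is integrable, and
`∫_{ball x r} f = ∫ 1_{ball x r}(y) f(y) dy`; as `x' → x` the indicators converge for all `y` outside the
sphere `|y - x| = r`, a null set (`n >= 1`), dominated by `|f|` (`continuous_of_dominated` at a point:
`tendsto_integral_of_dominated_convergence`). Nonnegativity; `aa <= AA` (larger ball, `f >= 0`);
`AA <= 8^(n-1) ε` from `Mor.bound`; `NN` is a finite sum. `Ninf` is a countable sum of measurable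
functions with values in `ℝ≥0∞`. `NN_le_Ninf`: finite partial sums (`ENNReal.sum_le_tsum`,
`ENNReal.ofReal_sum_of_nonneg`). `NN_tendsto`: if `c < Ninf f x` then `c < ofReal (NN f K 0 x)` for some `K`
(`ENNReal.tsum_eq_iSup_nat` or `lt_tsum`), and `NN` is monotone in `K`.
`AA_supp`: for `‖x‖ >= 72` the ball `ball x (8/p2 k)` does not meet `ball 0 64`.
-/

set_option autoImplicit false

namespace H60NH

open MeasureTheory Metric Set Filter Topology
open scoped ENNReal NNReal ContDiff

private theorem ncont_p2 (k : ℕ) : 0 < p2 k := by unfold p2; positivity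

private theorem ncont_ball_int {n : ℕ} {f : E n → ℝ} (hf : Integrable f) (r : ℝ) (hr : 0 < r) :
    Continuous (fun x : E n => ∫ y in ball x r, f y) := by
  have h1 : (fun x : E n => ∫ y in ball x r, f y) =
      fun x => ∫ y, (ball x r).indicator f y := by
    funext x'
    exact (integral_indicator measurableSet_ball).symm
  rw [h1, continuous_iff_continuousAt]
  intro x
  apply tendsto_integral_filter_of_dominated_convergence (fun y => ‖f y‖)
  · exact Eventually.of_forall fun x' => hf.aestronglyMeasurable.indicator measurableSet_ball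
  · exact Eventually.of_forall fun x' => ae_of_all _ fun y => norm_indicator_le_norm_self _ _
  · exact hf.norm
  · have hs : volume (sphere x r) = 0 := Measure.addHaar_sphere_of_ne_zero _ _ hr.ne'
    filter_upwards [measure_eq_zero_iff_ae_notMem.1 hs] with y hy
    have hc : ContinuousAt (fun x' : E n => dist y x') x :=
      (continuous_const.dist continuous_id).continuousAt
    rcases lt_trichotomy (dist y x) r with h | h | h
    · have h2 : ∀ᶠ x' in 𝓝 x, dist y x' < r := hc.eventually_lt continuousAt_const h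
      apply tendsto_nhds_of_eventually_eq
      filter_upwards [h2] with x' hx'
      rw [indicator_of_mem (mem_ball.2 hx'), indicator_of_mem (mem_ball.2 h)]
    · exact absurd (mem_sphere.2 h) hy
    · have h2 : ∀ᶠ x' in 𝓝 x, r < dist y x' := continuousAt_const.eventually_lt hc h
      apply tendsto_nhds_of_eventually_eq
      filter_upwards [h2] with x' hx'
      rw [indicator_of_notMem (fun h3 => absurd (mem_ball.1 h3) (not_lt.2 hx'.le)),
        indicator_of_notMem (fun h3 => absurd (mem_ball.1 h3) (not_lt.2 h.le))]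

theorem AA_cont {n : ℕ} (hn : 1 ≤ n) {f : E n → ℝ} (hf : Integrable f) (k : ℕ) :
    Continuous (AA f k) ∧ Continuous (aa f k) := by
  have hp := ncont_p2 k
  exact ⟨continuous_const.mul (ncont_ball_int hf _ (div_pos (by norm_num) hp)),
    continuous_const.mul (ncont_ball_int hf _ (div_pos (by norm_num) hp))⟩

theorem AA_nonneg {n : ℕ} {f : E n → ℝ} {ε : ℝ} (hf : Mor f ε) (k : ℕ) (x : E n) :
    0 ≤ AA f k x ∧ 0 ≤ aa f k x ∧ aa f k x ≤ AA f k x ∧ AA f k x ≤ 8 ^ (n - 1) * ε := by
  have hp := ncont_p2 k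
  refine ⟨?_, ?_, ?_, ?_⟩
  · exact mul_nonneg (by positivity) (integral_nonneg hf.nonneg)
  · exact mul_nonneg (by positivity) (integral_nonneg hf.nonneg)
  · apply mul_le_mul_of_nonneg_left _ (by positivity)
    apply setIntegral_mono_set hf.int.integrableOn (ae_of_all _ hf.nonneg)
    apply Eventually.of_forall
    exact ball_subset_ball (by gcongr; norm_num)
  · unfold AA
    have h1 := hf.bound x (8 / p2 k) (div_pos (by norm_num) hp)
    calc p2 k ^ (n - 1) * ∫ y in ball x (8 / p2 k), f y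
        ≤ p2 k ^ (n - 1) * (ε * (8 / p2 k) ^ (n - 1)) :=
          mul_le_mul_of_nonneg_left h1 (by positivity)
      _ = 8 ^ (n - 1) * ε := by
          rw [div_pow]
          field_simp

theorem NN_cont {n : ℕ} (hn : 1 ≤ n) {f : E n → ℝ} (hf : Integrable f) (K k : ℕ) :
    Continuous (NN f K k) := by
  unfold NN
  exact continuous_finset_sum _ (fun j _ => (AA_cont hn hf j).1)

theorem NN_nonneg {n : ℕ} {f : E n → ℝ} {ε : ℝ} (hf : Mor f ε) (K k : ℕ) (x : E n) :
    0 ≤ NN f K k x :=
  Finset.sum_nonneg (fun j _ => (AA_nonneg hf j x).1)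

theorem NN_mono {n : ℕ} {f : E n → ℝ} {ε : ℝ} (hf : Mor f ε) {K K' k k' : ℕ} (hK : K ≤ K')
    (hk : k' ≤ k) (x : E n) : NN f K k x ≤ NN f K' k' x :=
  Finset.sum_le_sum_of_subset_of_nonneg (Finset.Ico_subset_Ico hk hK)
    (fun j _ _ => (AA_nonneg hf j x).1)

theorem NN_le {n : ℕ} {f : E n → ℝ} {ε : ℝ} (hf : Mor f ε) (K k : ℕ) (x : E n) :
    NN f K k x ≤ K * (8 ^ (n - 1) * ε) := by
  have h0 : 0 ≤ (8 : ℝ) ^ (n - 1) * ε := mul_nonneg (by positivity) hf.eps
  calc NN f K k x ≤ NN f K 0 x := NN_mono hf le_rfl (Nat.zero_le _) x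
    _ ≤ ∑ _j ∈ Finset.Ico 0 K, (8 ^ (n - 1) * ε) :=
        Finset.sum_le_sum (fun j _ => (AA_nonneg hf j x).2.2.2)
    _ = K * (8 ^ (n - 1) * ε) := by
        rw [Finset.sum_const, Nat.card_Ico, nsmul_eq_mul]
        simp

theorem Ninf_meas {n : ℕ} (hn : 1 ≤ n) {f : E n → ℝ} (hf : Integrable f) :
    Measurable (Ninf f) := by
  unfold Ninf
  exact Measurable.ennreal_tsum (fun j => ((AA_cont hn hf j).1.measurable).ennreal_ofReal)

private theorem ncont_ofReal {n : ℕ} {f : E n → ℝ} {ε : ℝ} (hf : Mor f ε) (K : ℕ) (x : E n) :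
    ENNReal.ofReal (NN f K 0 x) = ∑ j ∈ Finset.range K, ENNReal.ofReal (AA f j x) := by
  unfold NN
  rw [ENNReal.ofReal_sum_of_nonneg (fun j _ => (AA_nonneg hf j x).1), Nat.Ico_zero_eq_range]

theorem NN_le_Ninf {n : ℕ} {f : E n → ℝ} {ε : ℝ} (hf : Mor f ε) (K : ℕ) (x : E n) :
    ENNReal.ofReal (NN f K 0 x) ≤ Ninf f x := by
  rw [ncont_ofReal hf]
  exact ENNReal.sum_le_tsum _

theorem NN_eventually {n : ℕ} {f : E n → ℝ} {ε : ℝ} (hf : Mor f ε) (c : ℝ) (hc : 0 ≤ c) (x : E n)
    (hx : ENNReal.ofReal c < Ninf f x) : ∀ᶠ K in atTop, c < NN f K 0 x := by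
  have h1 : Tendsto (fun K => ∑ j ∈ Finset.range K, ENNReal.ofReal (AA f j x)) atTop
      (𝓝 (Ninf f x)) := ENNReal.tendsto_nat_tsum _
  filter_upwards [h1.eventually_const_lt hx] with K hK
  rw [← ncont_ofReal hf] at hK
  by_contra h2
  exact absurd (ENNReal.ofReal_le_ofReal (not_lt.1 h2)) (not_le.2 hK)

theorem AA_supp {n : ℕ} {f : E n → ℝ} {ε : ℝ} (hf : Mor f ε) (k : ℕ) (x : E n)
    (hx : 72 ≤ ‖x‖) : AA f k x = 0 := by
  unfold AA
  have h1 : ∫ y in ball x (8 / p2 k), f y = 0 := by
    apply setIntegral_eq_zero_of_forall_eq_zero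
    intro y hy
    apply hf.supp
    rw [mem_ball_zero_iff, not_lt]
    have h2 : ‖x‖ ≤ ‖y‖ + dist y x := by
      rw [dist_eq_norm, ← norm_neg (y - x)]
      have := norm_add_le y (-(y - x))
      simpa using this
    have h3 : dist y x < 8 / p2 k := mem_ball.1 hy
    have h4 : 8 / p2 k ≤ 8 := by
      apply div_le_self (by norm_num)
      unfold p2
      exact one_le_pow₀ (by norm_num)
    linarith
  rw [h1, mul_zero]

end H60NH
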