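import Pool.Agent.H60.NH.NCont

/-!
# [H60 NH NINT] Integrals over balls of integrals over balls

`vb n` is the volume of the unit ball of `R^n`, `volume (ball x r) = ofReal (vb n * r^n)`
(`Measure.addHaar_ball`, `EuclideanSpace.volume_ball`; `0 < vb n`).
`int_ball_ball`: Tonelli, `∫_{w ∈ ball x r} ∫_{y ∈ ball w ρ} f(y) = ∫_y f(y) |{w ∈ ball x r : |w - y| < ρ}|`, the
inner measure is at most `vb n ρ^n` and vanishes unless `y ∈ ball x (r + ρ)`.
`ball_double`: with `I = ∫_{w ∈ ball x (3r)} ∫_{ball w r} g`: `I <= vb n (3r)^n T`, and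
`I = ∫ g(y) |ball y r ∩ ball x (3r)| >= vb n r^n ∫_{ball x (2r)} g` (for `y ∈ ball x (2r)`,
`ball y r ⊆ ball x (3r)`).
-/

set_option autoImplicit false

namespace H60NH

open MeasureTheory Metric Set Filter Topology
open scoped ENNReal NNReal ContDiff

/-- The volume of the unit ball. -/
noncomputable def vb (n : ℕ) : ℝ := (volume (ball (0 : E n) 1)).toReal

theorem vb_pos (n : ℕ) : 0 < vb n := by
  unfold vb
  exact ENNReal.toReal_pos (measure_ball_pos volume _ one_pos).ne' measure_ball_lt_top.ne

theorem vol_ball {n : ℕ} (x : E n) (r : ℝ) (hr : 0 < r) :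
    volume (ball x r) = ENNReal.ofReal (vb n * r ^ n) := by
  rw [Measure.addHaar_ball_of_pos volume x hr, finrank_euclideanSpace_fin,
    ENNReal.ofReal_mul (vb_pos n).le, mul_comm]
  congr 1
  unfold vb
  rw [ENNReal.ofReal_toReal measure_ball_lt_top.ne]

/-- Tonelli for balls of balls (used in NMOM) -/
theorem nint_ball {n : ℕ} (F : E n → ℝ≥0∞) (hF : AEMeasurable F) (x : E n) (r ρ : ℝ) :
    ∫⁻ w in ball x r, ∫⁻ y in ball w ρ, F y = ∫⁻ y, F y * volume (ball x r ∩ ball y ρ) := by
  set S : Set (E n × E n) := {p | dist p.1 x < r ∧ dist p.2 p.1 < ρ} with hS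
  have hSo : IsOpen S := by
    have h1 : IsOpen {p : E n × E n | dist p.1 x < r} :=
      isOpen_lt (continuous_fst.dist continuous_const) continuous_const
    have h2 : IsOpen {p : E n × E n | dist p.2 p.1 < ρ} :=
      isOpen_lt (continuous_snd.dist continuous_fst) continuous_const
    exact h1.inter h2
  have hm : AEMeasurable (Function.uncurry fun w y => S.indicator (fun p => F p.2) (w, y))
      (volume.prod volume) := by
    have h1 : AEMeasurable (fun p : E n × E n => F p.2) (volume.prod volume) :=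
      hF.comp_quasiMeasurePreserving Measure.quasiMeasurePreserving_snd
    exact h1.indicator hSo.measurableSet
  have h1 : ∀ w, (ball x r).indicator (fun w => ∫⁻ y in ball w ρ, F y) w =
      ∫⁻ y, S.indicator (fun p => F p.2) (w, y) := by
    intro w
    by_cases hw : w ∈ ball x r
    · rw [indicator_of_mem hw, ← lintegral_indicator measurableSet_ball]
      refine lintegral_congr fun y => ?_
      by_cases hy : y ∈ ball w ρ
      · rw [indicator_of_mem hy, indicator_of_mem (show (w, y) ∈ S from ⟨hw, hy⟩)]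
      · rw [indicator_of_notMem hy, indicator_of_notMem (show (w, y) ∉ S from fun h => hy h.2)]
    · rw [indicator_of_notMem hw]
      have : (fun y => S.indicator (fun p => F p.2) (w, y)) = fun _ => 0 := by
        funext y
        rw [indicator_of_notMem (show (w, y) ∉ S from fun h => hw h.1)]
      rw [this, lintegral_zero]
  rw [← lintegral_indicator measurableSet_ball]
  simp_rw [h1]
  rw [lintegral_lintegral_swap hm]
  refine lintegral_congr fun y => ?_
  have h2 : (fun w => S.indicator (fun p => F p.2) (w, y)) =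
      (ball x r ∩ ball y ρ).indicator fun _ => F y := by
    funext w
    by_cases hw : w ∈ ball x r ∩ ball y ρ
    · rw [indicator_of_mem hw, indicator_of_mem (show (w, y) ∈ S from
        ⟨hw.1, by rw [dist_comm]; exact hw.2⟩)]
    · rw [indicator_of_notMem hw, indicator_of_notMem (show (w, y) ∉ S from
        fun h => hw ⟨h.1, by rw [mem_ball, dist_comm]; exact h.2⟩)]
  rw [h2, lintegral_indicator (measurableSet_ball.inter measurableSet_ball), lintegral_const,
    Measure.restrict_apply_univ]

theorem nint_ball_le {n : ℕ} (f : E n → ℝ) (hf : Integrable f) (h0 : ∀ x, 0 ≤ f x) (x : E n)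
    (r ρ : ℝ) (hρ : 0 < ρ) :
    ∫⁻ w in ball x r, ENNReal.ofReal (∫ y in ball w ρ, f y) ≤
      ENNReal.ofReal (vb n * ρ ^ n * ∫ y in ball x (r + ρ), f y) := by
  have hvb := vb_pos n
  have e1 : ∀ w, ENNReal.ofReal (∫ y in ball w ρ, f y) =
      ∫⁻ y in ball w ρ, ENNReal.ofReal (f y) := fun w =>
    ofReal_integral_eq_lintegral_ofReal hf.integrableOn (Filter.Eventually.of_forall h0)
  simp_rw [e1]
  rw [nint_ball _ hf.1.aemeasurable.ennreal_ofReal, ENNReal.ofReal_mul (by positivity),
    ofReal_integral_eq_lintegral_ofReal hf.integrableOn (Filter.Eventually.of_forall h0),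
    ← lintegral_indicator measurableSet_ball]
  rw [← lintegral_const_mul' _ _ ENNReal.ofReal_ne_top]
  refine lintegral_mono fun y => ?_
  by_cases hy : y ∈ ball x (r + ρ)
  · rw [indicator_of_mem hy, mul_comm]
    refine mul_le_mul_left ?_ _
    rw [← vol_ball y ρ hρ]
    exact measure_mono inter_subset_right
  · rw [indicator_of_notMem hy, mul_zero]
    have : ball x r ∩ ball y ρ = ∅ := by
      ext w
      simp only [mem_inter_iff, mem_ball, mem_empty_iff_false, iff_false, not_and]
      intro h1 h2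
      apply hy
      rw [mem_ball]
      calc dist y x ≤ dist y w + dist w x := dist_triangle _ _ _
        _ < r + ρ := by rw [dist_comm y w]; linarith
    rw [this, measure_empty, mul_zero]

theorem int_ball_ball {n : ℕ} (f : E n → ℝ) (hf : Integrable f) (h0 : ∀ x, 0 ≤ f x) (x : E n)
    (r ρ : ℝ) (hr : 0 < r) (hρ : 0 < ρ) :
    ∫ w in ball x r, (∫ y in ball w ρ, f y) ≤ vb n * ρ ^ n * ∫ y in ball x (r + ρ), f y := by
  have hvb := vb_pos n
  have hR : 0 ≤ vb n * ρ ^ n * ∫ y in ball x (r + ρ), f y :=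
    mul_nonneg (by positivity) (integral_nonneg fun _ => h0 _)
  by_cases hg : IntegrableOn (fun w => ∫ y in ball w ρ, f y) (ball x r)
  · have hnn : ∀ w, 0 ≤ ∫ y in ball w ρ, f y := fun w => integral_nonneg fun _ => h0 _
    rw [← ENNReal.ofReal_le_ofReal_iff hR,
      ofReal_integral_eq_lintegral_ofReal hg (Filter.Eventually.of_forall hnn)]
    exact nint_ball_le f hf h0 x r ρ hρ
  · rw [integral_undef hg]
    exact hR

theorem nint_cont {n : ℕ} {g : E n → ℝ} (hg : Continuous g) (w : E n) (s : ℝ) :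
    IntegrableOn g (ball w s) :=
  (hg.locallyIntegrable.integrableOn_isCompact (isCompact_closedBall w s)).mono_set
    ball_subset_closedBall

theorem nint_avg_le {n : ℕ} (g : E n → ℝ) (hg : Continuous g) (h0 : ∀ x, 0 ≤ g x) (x : E n)
    (r₁ r₂ ρ : ℝ) (hρ : 0 < ρ) (h12 : r₁ + ρ ≤ r₂) :
    ENNReal.ofReal (vb n * ρ ^ n * ∫ y in ball x r₁, g y) ≤
      ∫⁻ w in ball x r₂, ∫⁻ y in ball w ρ, ENNReal.ofReal (g y) := by
  have hvb := vb_pos n
  have hmeas : AEMeasurable (fun y => ENNReal.ofReal (g y)) (volume : Measure (E n)) :=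
    hg.measurable.ennreal_ofReal.aemeasurable
  rw [nint_ball _ hmeas, ENNReal.ofReal_mul (by positivity),
    ofReal_integral_eq_lintegral_ofReal (nint_cont hg x _) (Filter.Eventually.of_forall h0),
    ← lintegral_indicator measurableSet_ball, ← lintegral_const_mul' _ _ ENNReal.ofReal_ne_top]
  refine lintegral_mono fun y => ?_
  by_cases hy : y ∈ ball x r₁
  · rw [indicator_of_mem hy, mul_comm]
    refine mul_le_mul_right ?_ _
    rw [← vol_ball y ρ hρ]
    refine measure_mono fun w hw => ⟨?_, hw⟩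
    rw [mem_ball] at hy hw ⊢
    calc dist w x ≤ dist w y + dist y x := dist_triangle _ _ _
      _ < r₂ := by linarith
  · rw [indicator_of_notMem hy, mul_zero]
    exact bot_le

theorem ball_double {n : ℕ} (g : E n → ℝ) (hg : Continuous g) (h0 : ∀ x, 0 ≤ g x)
    (r T : ℝ) (hr : 0 < r) (hT : ∀ w : E n, ∫ y in ball w r, g y ≤ T) (x : E n) :
    ∫ y in ball x (2 * r), g y ≤ 3 ^ n * T := by
  have hvb := vb_pos n
  have hT0 : 0 ≤ T := (integral_nonneg fun _ => h0 _).trans (hT x)
  have e1 : ∀ w, ∫⁻ y in ball w r, ENNReal.ofReal (g y) ≤ ENNReal.ofReal T := fun w => by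
    rw [← ofReal_integral_eq_lintegral_ofReal (nint_cont hg w r) (Filter.Eventually.of_forall h0)]
    exact ENNReal.ofReal_le_ofReal (hT w)
  have e2 : ∫⁻ w in ball x (3 * r), ∫⁻ y in ball w r, ENNReal.ofReal (g y) ≤
      ENNReal.ofReal (vb n * (3 * r) ^ n * T) := by
    calc ∫⁻ w in ball x (3 * r), ∫⁻ y in ball w r, ENNReal.ofReal (g y) ≤
          ∫⁻ _ in ball x (3 * r), ENNReal.ofReal T := lintegral_mono fun w => e1 w
      _ = ENNReal.ofReal (vb n * (3 * r) ^ n * T) := by
          rw [lintegral_const, Measure.restrict_apply_univ, vol_ball x _ (by positivity),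
            ENNReal.ofReal_mul (p := vb n * (3 * r) ^ n) (by positivity), mul_comm]
  have e4 := (nint_avg_le g hg h0 x (2 * r) (3 * r) r hr (by linarith)).trans e2
  rw [ENNReal.ofReal_le_ofReal_iff (by positivity)] at e4
  have e5 : vb n * (3 * r) ^ n * T = vb n * r ^ n * (3 ^ n * T) := by
    rw [mul_pow]; ring
  rw [e5] at e4
  exact le_of_mul_le_mul_left e4 (by positivity)

end H60NH
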