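import Pool.Agent.H60.NH.Def

/-!
# [H60 NH NTEL] Telescoping sums

`S_k = ∑_{j ∈ Ico k K} a_j`, `S_k - S_{k+1} = a_k`, `S_K = 0`.
`tel_sum`: `κ a_k e^{-κ S_k} <= e^{-κ S_k} (e^{κ a_k} - 1) = e^{-κ S_{k+1}} - e^{-κ S_k}`
(`Real.add_one_le_exp`); sum over `k < K`: at most `e^{-κ S_K} = 1`.
`pow_tel`: `S_k^{q+1} - S_{k+1}^{q+1} <= (q+1)(S_k - S_{k+1}) S_k^q` (factorisation of `a^{q+1} - b^{q+1}`,
`0 <= b <= a`); sum over `Ico k K` (induction on `K - k`).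
-/

set_option autoImplicit false

namespace H60NH

open MeasureTheory Metric Set Filter Topology
open scoped ENNReal NNReal ContDiff

private theorem ntel_S (a : ℕ → ℝ) {k K : ℕ} (h : k < K) :
    ∑ j ∈ Finset.Ico k K, a j = a k + ∑ j ∈ Finset.Ico (k + 1) K, a j := by
  rw [← Finset.sum_eq_sum_Ico_succ_bot h]

theorem tel_sum (a : ℕ → ℝ) (ha : ∀ k, 0 ≤ a k) (κ : ℝ) (hκ : 0 < κ) (K : ℕ) :
    ∑ k ∈ Finset.range K, a k * Real.exp (-(κ * ∑ j ∈ Finset.Ico k K, a j)) ≤ 1 / κ := by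
  have h1 : ∀ k ∈ Finset.range K, a k * Real.exp (-(κ * ∑ j ∈ Finset.Ico k K, a j)) ≤
      (1 / κ) * (Real.exp (-(κ * ∑ j ∈ Finset.Ico (k + 1) K, a j)) -
        Real.exp (-(κ * ∑ j ∈ Finset.Ico k K, a j))) := by
    intro k hk
    have hS := ntel_S a (Finset.mem_range.1 hk)
    obtain ⟨S, hSd⟩ : ∃ S, S = ∑ j ∈ Finset.Ico (k + 1) K, a j := ⟨_, rfl⟩
    rw [hS, ← hSd]
    have e1 : Real.exp (-(κ * S)) = Real.exp (κ * a k) * Real.exp (-(κ * (a k + S))) := by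
      rw [← Real.exp_add]; congr 1; ring
    rw [e1]
    have h2 := Real.add_one_le_exp (κ * a k)
    have h3 := Real.exp_pos (-(κ * (a k + S)))
    rw [div_mul_eq_mul_div, one_mul, le_div_iff₀ hκ]
    nlinarith
  refine (Finset.sum_le_sum h1).trans ?_
  rw [← Finset.mul_sum,
    Finset.sum_range_sub (fun k => Real.exp (-(κ * ∑ j ∈ Finset.Ico k K, a j)))]
  have h4 := Real.exp_pos (-(κ * ∑ j ∈ Finset.Ico 0 K, a j))
  simp only [Finset.Ico_self, Finset.sum_empty, mul_zero, neg_zero, Real.exp_zero]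
  have h5 : 0 < 1 / κ := by positivity
  nlinarith

private theorem ntel_pow (q : ℕ) {x y : ℝ} (hy : 0 ≤ y) (hyx : y ≤ x) :
    x ^ (q + 1) - y ^ (q + 1) ≤ (q + 1) * (x - y) * x ^ q := by
  have hx : 0 ≤ x := hy.trans hyx
  induction q with
  | zero => simp
  | succ q ih =>
    have e1 : x ^ (q + 1 + 1) - y ^ (q + 1 + 1) =
        x * (x ^ (q + 1) - y ^ (q + 1)) + (x - y) * y ^ (q + 1) := by ring
    rw [e1]
    have h1 : x * (x ^ (q + 1) - y ^ (q + 1)) ≤ x * ((q + 1) * (x - y) * x ^ q) :=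
      mul_le_mul_of_nonneg_left ih hx
    have h2 : (x - y) * y ^ (q + 1) ≤ (x - y) * x ^ (q + 1) :=
      mul_le_mul_of_nonneg_left (pow_le_pow_left₀ hy hyx _) (sub_nonneg.2 hyx)
    calc _ ≤ x * ((q + 1) * (x - y) * x ^ q) + (x - y) * x ^ (q + 1) := add_le_add h1 h2
      _ = (((q + 1 : ℕ) : ℝ) + 1) * (x - y) * x ^ (q + 1) := by push_cast; ring

theorem pow_tel (a : ℕ → ℝ) (ha : ∀ k, 0 ≤ a k) (q K k : ℕ) :
    (∑ j ∈ Finset.Ico k K, a j) ^ (q + 1) ≤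
      (q + 1) * ∑ j ∈ Finset.Ico k K, a j * (∑ i ∈ Finset.Ico j K, a i) ^ q := by
  obtain ⟨d, hd⟩ : ∃ d, d = K - k := ⟨_, rfl⟩
  induction d generalizing k with
  | zero =>
    have h : K ≤ k := by omega
    rw [Finset.Ico_eq_empty_of_le h, Finset.sum_empty, Finset.sum_empty]
    simp
  | succ d ih =>
    have h : k < K := by omega
    have h1 := ih (k + 1) (by omega)
    have hS := ntel_S a h
    have hS' := ntel_S (fun j => a j * (∑ i ∈ Finset.Ico j K, a i) ^ q) h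
    have hn : 0 ≤ ∑ j ∈ Finset.Ico (k + 1) K, a j := Finset.sum_nonneg fun j _ => ha j
    have h2 := ntel_pow q hn (by rw [hS]; linarith [ha k] :
      ∑ j ∈ Finset.Ico (k + 1) K, a j ≤ ∑ j ∈ Finset.Ico k K, a j)
    rw [hS', mul_add]
    have e2 : (∑ j ∈ Finset.Ico k K, a j) - (∑ j ∈ Finset.Ico (k + 1) K, a j) = a k := by
      rw [hS]; ring
    rw [e2] at h2
    nlinarith

end H60NH
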