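import Pool.Agent.H60.NH.NInt
import Pool.Agent.H60.NH.NTel

/-!
# [H60 NH NMOM] Moments of `N_k`

Induction on `q`; `C₀ = max(vb n, 2 · 99^n, 1)`.
`q = 0`: the volume of the ball, `vb n / p2 k ^ n`.
`q + 1`: by `pow_tel`, `NN_k^{q+1} <= (q+1) ∑_{j ∈ Ico k K} AA_j NN_j^q` pointwise. Fix `j ∈ Ico k K`, `ρ = 1/p2 j`,
`A9(w) = p2 j ^ (n-1) ∫_{ball w (9ρ)} f`. If `|y - w| < ρ` then `AA_j(y) <= A9(w)`. So
`∫_{ball x (1/p2 k)} AA_j NN_j^q = (vb n ρ^n)⁻¹ ∫_{y ∈ ball x (1/p2 k)} ∫_{w ∈ ball y ρ} AA_j(y) NN_j(y)^q dw dy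
<= (vb n ρ^n)⁻¹ ∫_{w ∈ ball x (2/p2 k)} A9(w) (∫_{y ∈ ball w ρ} NN_j(y)^q dy) dw`
`<= (vb n)⁻¹ C₀ q! (C₀ε)^q ∫_{ball x (2/p2 k)} A9` (induction hypothesis at `w`, level `j`;
`1/p2 k + ρ <= 2/p2 k`), and by `int_ball_ball` and `Mor.bound`
`∫_{ball x (2/p2 k)} A9 <= p2 j ^ (n-1) vb n (9ρ)^n ∫_{ball x (11/p2 k)} f <= vb n 9^n (p2 j)⁻¹ ε (11/p2 k)^(n-1)`.
`∑_{j >= k} (p2 j)⁻¹ <= 2/p2 k`. Total: `(q+1) C₀ q! (C₀ε)^q · 2 · 9^n 11^(n-1) ε / p2 k ^ n`.
All functions are continuous (`NCont`), so measurability and integrability on balls are clear.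
-/

set_option autoImplicit false

namespace H60NH

open MeasureTheory Metric Set Filter Topology
open scoped ENNReal NNReal ContDiff

private theorem pp2 (k : ℕ) : 0 < p2 k := by unfold p2; positivity

private theorem p2m {j k : ℕ} (h : k ≤ j) : p2 k ≤ p2 j := by
  unfold p2
  exact pow_le_pow_right₀ (by norm_num) h

private theorem geo (k K : ℕ) : ∑ j ∈ Finset.Ico k K, 1 / p2 j ≤ 2 / p2 k := by
  have hk := pp2 k
  rcases Nat.lt_or_ge K k with h | h
  · rw [Finset.Ico_eq_empty (by omega), Finset.sum_empty]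
    positivity
  · have key : ∑ j ∈ Finset.Ico k K, 1 / p2 j ≤ 2 / p2 k - 2 / p2 K := by
      induction K, h using Nat.le_induction with
      | base => simp
      | succ K hK ih =>
        rw [Finset.sum_Ico_succ_top hK]
        have e : 2 / p2 (K + 1) = 1 / p2 K := by
          have := pp2 K
          unfold p2 at this ⊢
          rw [pow_succ]
          field_simp
        rw [e]
        have e2 : 2 / p2 K = 1 / p2 K + 1 / p2 K := by ring
        rw [e2] at ih
        linarith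
    have : 0 < 2 / p2 K := div_pos (by norm_num) (pp2 K)
    linarith

private theorem lev {n : ℕ} (hn : 1 ≤ n) {f : E n → ℝ} {ε : ℝ} (hf : Mor f ε) (q K j k : ℕ)
    (hkj : k ≤ j) (D : ℝ) (hD : 0 ≤ D)
    (ih : ∀ w : E n, ∫ y in ball w (1 / p2 j), NN f K j y ^ q ≤ D / p2 j ^ n) (x : E n) :
    ∫ y in ball x (1 / p2 k), AA f j y * NN f K j y ^ q ≤
      D * (9 ^ n * 11 ^ (n - 1)) * ε / p2 k ^ (n - 1) * (1 / p2 j) := by
  have hvb := vb_pos n
  have hj := pp2 j
  have hk := pp2 k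
  have hε := hf.eps
  have hmono : 1 / p2 j ≤ 1 / p2 k := one_div_le_one_div_of_le hk (p2m hkj)
  have hcont : Continuous fun y => AA f j y * NN f K j y ^ q :=
    (AA_cont hn hf.int j).1.mul ((NN_cont hn hf.int K j).pow q)
  have h0 : ∀ y, 0 ≤ AA f j y * NN f K j y ^ q := fun y =>
    mul_nonneg (AA_nonneg hf j y).1 (pow_nonneg (NN_nonneg hf K j y) q)
  have h12 : 1 / p2 k + 1 / p2 j ≤ 2 / p2 k := by
    have : 2 / p2 k = 1 / p2 k + 1 / p2 k := by ring
    rw [this]
    linarith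
  have a1 := nint_avg_le _ hcont h0 x (1 / p2 k) (2 / p2 k) (1 / p2 j) (by positivity) h12
  set c : ℝ := D / p2 j ^ n * p2 j ^ (n - 1) with hc
  have hc0 : 0 ≤ c := by positivity
  have a2 : ∀ w : E n, ∫⁻ y in ball w (1 / p2 j), ENNReal.ofReal (AA f j y * NN f K j y ^ q) ≤
      ENNReal.ofReal c * ENNReal.ofReal (∫ z in ball w (9 / p2 j), f z) := by
    intro w
    have hI0 : 0 ≤ ∫ z in ball w (9 / p2 j), f z := integral_nonneg fun _ => hf.nonneg _
    rw [← ofReal_integral_eq_lintegral_ofReal (nint_cont hcont w _)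
      (Filter.Eventually.of_forall h0), ← ENNReal.ofReal_mul hc0]
    refine ENNReal.ofReal_le_ofReal ?_
    have b1 : ∫ y in ball w (1 / p2 j), AA f j y * NN f K j y ^ q ≤
        ∫ y in ball w (1 / p2 j), (p2 j ^ (n - 1) * ∫ z in ball w (9 / p2 j), f z) *
          NN f K j y ^ q := by
      refine setIntegral_mono_on (nint_cont hcont w _)
        (nint_cont (((NN_cont hn hf.int K j).pow q).const_mul _) w _) measurableSet_ball ?_
      intro y hy
      refine mul_le_mul_of_nonneg_right ?_ (pow_nonneg (NN_nonneg hf K j y) q)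
      unfold AA
      refine mul_le_mul_of_nonneg_left ?_ (by positivity)
      refine setIntegral_mono_set hf.int.integrableOn
        (Filter.Eventually.of_forall fun _ => hf.nonneg _) ?_
      refine HasSubset.Subset.eventuallyLE ?_
      refine ball_subset_ball' ?_
      rw [mem_ball] at hy
      have e9 : 9 / p2 j = 8 / p2 j + 1 / p2 j := by ring
      rw [e9]
      linarith
    refine b1.trans ?_
    rw [integral_const_mul]
    calc (p2 j ^ (n - 1) * ∫ z in ball w (9 / p2 j), f z) *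
          ∫ y in ball w (1 / p2 j), NN f K j y ^ q ≤
          (p2 j ^ (n - 1) * ∫ z in ball w (9 / p2 j), f z) * (D / p2 j ^ n) :=
          mul_le_mul_of_nonneg_left (ih w) (by positivity)
      _ = c * ∫ z in ball w (9 / p2 j), f z := by rw [hc]; ring
  have a3 : ∫⁻ w in ball x (2 / p2 k), ∫⁻ y in ball w (1 / p2 j),
      ENNReal.ofReal (AA f j y * NN f K j y ^ q) ≤
      ENNReal.ofReal (c * (vb n * (9 / p2 j) ^ n * (ε * (11 / p2 k) ^ (n - 1)))) := by
    calc ∫⁻ w in ball x (2 / p2 k), ∫⁻ y in ball w (1 / p2 j),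
          ENNReal.ofReal (AA f j y * NN f K j y ^ q) ≤
          ∫⁻ w in ball x (2 / p2 k),
            ENNReal.ofReal c * ENNReal.ofReal (∫ z in ball w (9 / p2 j), f z) :=
          lintegral_mono fun w => a2 w
      _ = ENNReal.ofReal c * ∫⁻ w in ball x (2 / p2 k),
            ENNReal.ofReal (∫ z in ball w (9 / p2 j), f z) :=
          lintegral_const_mul' _ _ ENNReal.ofReal_ne_top
      _ ≤ ENNReal.ofReal c * ENNReal.ofReal
            (vb n * (9 / p2 j) ^ n * ∫ y in ball x (2 / p2 k + 9 / p2 j), f y) :=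
          mul_le_mul_right (nint_ball_le f hf.int hf.nonneg x _ _ (by positivity)) _
      _ = ENNReal.ofReal (c * (vb n * (9 / p2 j) ^ n *
            ∫ y in ball x (2 / p2 k + 9 / p2 j), f y)) := (ENNReal.ofReal_mul hc0).symm
      _ ≤ _ := by
          refine ENNReal.ofReal_le_ofReal (mul_le_mul_of_nonneg_left ?_ hc0)
          refine mul_le_mul_of_nonneg_left ?_ (by positivity)
          refine (setIntegral_mono_set hf.int.integrableOn
            (Filter.Eventually.of_forall fun _ => hf.nonneg _)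
            (HasSubset.Subset.eventuallyLE (ball_subset_ball
              (show 2 / p2 k + 9 / p2 j ≤ 11 / p2 k from ?_)))).trans
            (hf.bound x (11 / p2 k) (by positivity))
          have e1 : 9 / p2 j = 9 * (1 / p2 j) := by ring
          have e2 : 11 / p2 k = 2 / p2 k + 9 * (1 / p2 k) := by ring
          rw [e1, e2]
          linarith
  have a4 := a1.trans a3
  rw [ENNReal.ofReal_le_ofReal_iff (by positivity)] at a4
  have e3 : c * (vb n * (9 / p2 j) ^ n * (ε * (11 / p2 k) ^ (n - 1))) =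
      vb n * (1 / p2 j) ^ n * (D * (9 ^ n * 11 ^ (n - 1)) * ε / p2 k ^ (n - 1) * (1 / p2 j)) := by
    obtain ⟨m, rfl⟩ : ∃ m, n = m + 1 := ⟨n - 1, by omega⟩
    rw [hc]
    simp only [Nat.add_sub_cancel, div_pow, one_pow]
    field_simp
    ring
  rw [e3] at a4
  exact le_of_mul_le_mul_left a4 (by positivity)

theorem NN_moment (n : ℕ) (hn : 1 ≤ n) : ∃ C₀ : ℝ, 1 ≤ C₀ ∧ ∀ (f : E n → ℝ) (ε : ℝ), Mor f ε →
    ∀ (q K k : ℕ) (x : E n),
      ∫ y in ball x (1 / p2 k), NN f K k y ^ q ≤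
        C₀ * (q.factorial * (C₀ * ε) ^ q) / p2 k ^ n := by
  have hvb := vb_pos n
  set C : ℝ := max (vb n) (2 * (9 ^ n * 11 ^ (n - 1))) with hC
  have hC1 : vb n ≤ C := le_max_left _ _
  have hC2 : 2 * (9 ^ n * 11 ^ (n - 1)) ≤ C := le_max_right _ _
  have hC3 : 1 ≤ C := by
    have h1 : (1:ℝ) ≤ 9 ^ n := one_le_pow₀ (by norm_num)
    have h2 : (1:ℝ) ≤ 11 ^ (n-1) := one_le_pow₀ (by norm_num)
    nlinarith
  have hC0 : 0 ≤ C := by linarith
  refine ⟨C, hC3, fun f ε hf q => ?_⟩
  have hε := hf.eps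
  induction q with
  | zero =>
    intro K k x
    have hk := pp2 k
    simp only [pow_zero, Nat.factorial_zero, Nat.cast_one, mul_one]
    rw [setIntegral_const, smul_eq_mul, mul_one, measureReal_def, vol_ball x _ (by positivity),
      ENNReal.toReal_ofReal (by positivity), div_pow, one_pow, mul_one_div]
    exact div_le_div_of_nonneg_right hC1 (by positivity)
  | succ q ih =>
    intro K k x
    have hk := pp2 k
    set D : ℝ := C * (q.factorial * (C * ε) ^ q) with hD
    have hD0 : 0 ≤ D := by positivity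
    have s1 : ∫ y in ball x (1 / p2 k), NN f K k y ^ (q + 1) ≤
        ∫ y in ball x (1 / p2 k), (q + 1 : ℝ) *
          ∑ j ∈ Finset.Ico k K, AA f j y * NN f K j y ^ q := by
      refine setIntegral_mono (nint_cont ((NN_cont hn hf.int K k).pow (q + 1)) x _)
        (nint_cont (Continuous.const_mul (continuous_finsetSum _ fun j _ =>
          (AA_cont hn hf.int j).1.mul ((NN_cont hn hf.int K j).pow q)) _) x _) ?_
      intro y
      exact pow_tel (fun j => AA f j y) (fun j => (AA_nonneg hf j y).1) q K k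
    refine s1.trans ?_
    have s0 : ∫ y in ball x (1 / p2 k), ∑ j ∈ Finset.Ico k K, AA f j y * NN f K j y ^ q =
        ∑ j ∈ Finset.Ico k K, ∫ y in ball x (1 / p2 k), AA f j y * NN f K j y ^ q :=
      integral_finsetSum _ fun j _ =>
        nint_cont (g := fun y => AA f j y * NN f K j y ^ q)
          ((AA_cont hn hf.int j).1.mul ((NN_cont hn hf.int K j).pow q)) x _
    rw [integral_const_mul, s0]
    have s2 : ∑ j ∈ Finset.Ico k K, ∫ y in ball x (1 / p2 k), AA f j y * NN f K j y ^ q ≤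
        ∑ j ∈ Finset.Ico k K, D * (9 ^ n * 11 ^ (n - 1)) * ε / p2 k ^ (n - 1) * (1 / p2 j) :=
      Finset.sum_le_sum fun j hj => lev hn hf q K j k (Finset.mem_Ico.1 hj).1 D hD0
        (fun w => ih K j w) x
    rw [← Finset.mul_sum] at s2
    have s3 : D * (9 ^ n * 11 ^ (n - 1)) * ε / p2 k ^ (n - 1) *
        ∑ j ∈ Finset.Ico k K, 1 / p2 j ≤
        D * (9 ^ n * 11 ^ (n - 1)) * ε / p2 k ^ (n - 1) * (2 / p2 k) :=
      mul_le_mul_of_nonneg_left (geo k K) (by positivity)
    have s4 : D * (9 ^ n * 11 ^ (n - 1)) * ε / p2 k ^ (n - 1) * (2 / p2 k) ≤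
        C * (D * ε) / p2 k ^ n := by
      have e : D * (9 ^ n * 11 ^ (n - 1)) * ε / p2 k ^ (n - 1) * (2 / p2 k) =
          2 * (9 ^ n * 11 ^ (n - 1)) * (D * ε) / p2 k ^ n := by
        obtain ⟨m, rfl⟩ : ∃ m, n = m + 1 := ⟨n - 1, by omega⟩
        simp only [Nat.add_sub_cancel]
        rw [pow_succ (p2 k)]
        field_simp
      rw [e]
      refine div_le_div_of_nonneg_right ?_ (by positivity)
      exact mul_le_mul_of_nonneg_right hC2 (by positivity)
    calc (q + 1 : ℝ) * ∑ j ∈ Finset.Ico k K,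
          ∫ y in ball x (1 / p2 k), AA f j y * NN f K j y ^ q ≤
          (q + 1 : ℝ) * (C * (D * ε) / p2 k ^ n) :=
          mul_le_mul_of_nonneg_left (s2.trans (s3.trans s4)) (by positivity)
      _ = C * ((q + 1).factorial * (C * ε) ^ (q + 1)) / p2 k ^ n := by
          rw [hD, Nat.factorial_succ]
          push_cast
          ring

end H60NH
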