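import Pool.Agent.H60.NH.NCont

/-!
# [H60 NH NR1A] The norms of the two functions in the absorption

`D = ∫ f^n`, `X = ∫ χ^n f^(n-2) pg^2`, `0 <= pg <= f`, `0 <= χ <= 1`, `n' = n/(n-1)`.
`J = χ^(n-1) f^(n-2) pg`: `J^{n'} = (χ^n f^(n-2) pg^2)^{n'/2} · (χ^n f^n)^{1 - n'/2}`: check the powers: `χ`:
`(n-1) n' = n`; `pg`: `n'`; `f`: `(n-2) n' = (n-2) n'/2 + n (1 - n'/2)`, as `n - n n'/2 = (n-2)n'/2`
(`n' (n-1) = n`). Hölder with the exponents `2/n'` and `2/(2-n')` (if `n = 2`, `n' = 2`, trivial):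
`∫ J^{n'} <= X^{n'/2} D^{1-n'/2}`, and the power `1/n' = (n-1)/n` gives `X^{1/2} D^{1/n' - 1/2}`,
`1/n' - 1/2 = 1/2 - 1/n`.
`F = χ pg`: `F^n <= χ^n f^(n-2) pg^2`.
-/

set_option autoImplicit false

namespace H60NH

open MeasureTheory Metric Set Filter Topology
open scoped ENNReal NNReal ContDiff

/-- Hölder's inequality for the product of powers of two integrable functions. -/
theorem hold_w {α : Type*} [MeasurableSpace α] {ν : Measure α} {a b : α → ℝ} (ha : Integrable a ν)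
    (hb : Integrable b ν) (ha0 : ∀ x, 0 ≤ a x) (hb0 : ∀ x, 0 ≤ b x) {t : ℝ} (ht0 : 0 < t) (ht1 : t < 1) :
    ∫ x, a x ^ (1 - t) * b x ^ t ∂ν ≤ (∫ x, a x ∂ν) ^ (1 - t) * (∫ x, b x ∂ν) ^ t := by
  have hs0 : 0 < 1 - t := by linarith
  have hpq : (1 / (1 - t)).HolderConjugate (1 / t) := by
    rw [Real.holderConjugate_iff]
    refine ⟨by rw [lt_div_iff₀ hs0]; linarith, ?_⟩
    rw [one_div, one_div, inv_inv, inv_inv]
    ring
  have hA : ∀ x, (a x ^ (1 - t)) ^ (1 - t)⁻¹ = a x := by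
    intro x
    rw [← Real.rpow_mul (ha0 x), mul_inv_cancel₀ hs0.ne', Real.rpow_one]
  have hB : ∀ x, (b x ^ t) ^ t⁻¹ = b x := by
    intro x
    rw [← Real.rpow_mul (hb0 x), mul_inv_cancel₀ ht0.ne', Real.rpow_one]
  have hmem : ∀ {g : α → ℝ} {s : ℝ}, Integrable g ν → (∀ x, 0 ≤ g x) → 0 < s →
      MemLp (fun x => g x ^ s) (ENNReal.ofReal (1 / s)) ν := by
    intro g s hg hg0 hs
    have hmeas : AEStronglyMeasurable (fun x => g x ^ s) ν :=
      (hg.aestronglyMeasurable.aemeasurable.pow_const s).aestronglyMeasurable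
    have h1 : 0 < 1 / s := by positivity
    rw [← integrable_norm_rpow_iff hmeas (by simpa using h1) ENNReal.ofReal_ne_top]
    refine hg.congr (Filter.Eventually.of_forall fun x => ?_)
    dsimp only
    rw [Real.norm_of_nonneg (Real.rpow_nonneg (hg0 x) _), ENNReal.toReal_ofReal h1.le,
      ← Real.rpow_mul (hg0 x), mul_one_div_cancel hs.ne', Real.rpow_one]
  have h := integral_mul_le_Lp_mul_Lq_of_nonneg hpq (f := fun x => a x ^ (1 - t))
    (g := fun x => b x ^ t) (μ := ν)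
    (Filter.Eventually.of_forall fun x => Real.rpow_nonneg (ha0 x) _)
    (Filter.Eventually.of_forall fun x => Real.rpow_nonneg (hb0 x) _)
    (hmem ha ha0 hs0) (hmem hb hb0 ht0)
  simp only [hA, hB, one_div, inv_inv] at h
  exact h

theorem JF_aux {n : ℕ} {f : E n → ℝ} {ε : ℝ} (hf : Mor f ε) (χ pg : E n → ℝ)
    (hn : 2 ≤ n) (hχm : Measurable χ) (hχ0 : ∀ x, 0 ≤ χ x) (hχ1 : ∀ x, χ x ≤ 1)
    (hpm : Measurable pg) (hp0 : ∀ x, 0 ≤ pg x) (hpf : ∀ x, pg x ≤ f x) :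
    Integrable (fun x => χ x ^ n * f x ^ (n - 2) * pg x ^ 2) ∧
      Integrable (fun x => χ x ^ n * f x ^ n) ∧
      ∫ x, χ x ^ n * f x ^ n ≤ ∫ x, f x ^ n := by
  have h2 : ∀ x, f x ^ n = f x ^ (n - 2) * f x ^ 2 := by
    intro x
    rw [← pow_add]
    congr 1
    omega
  have hχn : ∀ x, χ x ^ n ≤ 1 := fun x => pow_le_one₀ (hχ0 x) (hχ1 x)
  have hle : ∀ x, χ x ^ n * f x ^ n ≤ f x ^ n := fun x =>
    mul_le_of_le_one_left (pow_nonneg (hf.nonneg x) _) (hχn x)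
  have hint2 : Integrable (fun x => χ x ^ n * f x ^ n) := by
    refine hf.intn.mono ((hχm.pow_const n).mul (hf.meas.pow_const n)).aestronglyMeasurable ?_
    refine Filter.Eventually.of_forall fun x => ?_
    rw [Real.norm_of_nonneg (mul_nonneg (pow_nonneg (hχ0 x) _) (pow_nonneg (hf.nonneg x) _)),
      Real.norm_of_nonneg (pow_nonneg (hf.nonneg x) _)]
    exact hle x
  refine ⟨?_, hint2, integral_mono hint2 hf.intn hle⟩
  refine hint2.mono (((hχm.pow_const n).mul (hf.meas.pow_const _)).mul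
    (hpm.pow_const 2)).aestronglyMeasurable ?_
  refine Filter.Eventually.of_forall fun x => ?_
  have h3 : 0 ≤ χ x ^ n * f x ^ (n - 2) := mul_nonneg (pow_nonneg (hχ0 x) _) (pow_nonneg (hf.nonneg x) _)
  rw [Real.norm_of_nonneg (mul_nonneg h3 (sq_nonneg _)),
    Real.norm_of_nonneg (mul_nonneg (pow_nonneg (hχ0 x) _) (pow_nonneg (hf.nonneg x) _)), h2 x, ← mul_assoc]
  exact mul_le_mul_of_nonneg_left (pow_le_pow_left₀ (hp0 x) (hpf x) 2) h3

theorem J_norm {n : ℕ} (hn : 2 ≤ n) {f : E n → ℝ} {ε : ℝ} (hf : Mor f ε) (χ pg : E n → ℝ)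
    (hχm : Measurable χ) (hχ0 : ∀ x, 0 ≤ χ x) (hχ1 : ∀ x, χ x ≤ 1)
    (hpm : Measurable pg) (hp0 : ∀ x, 0 ≤ pg x) (hpf : ∀ x, pg x ≤ f x) :
    Integrable (fun x => (χ x ^ (n - 1) * f x ^ (n - 2) * pg x) ^ ((n : ℝ) / (n - 1))) ∧
    (∫ x, (χ x ^ (n - 1) * f x ^ (n - 2) * pg x) ^ ((n : ℝ) / (n - 1))) ^ (((n : ℝ) - 1) / n) ≤
      (∫ x, χ x ^ n * f x ^ (n - 2) * pg x ^ 2) ^ ((1 : ℝ) / 2) *
        (∫ x, f x ^ n) ^ ((1 : ℝ) / 2 - 1 / n) := by
  obtain ⟨hX, hY, hYD⟩ := JF_aux hf χ pg hn hχm hχ0 hχ1 hpm hp0 hpf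
  have hnR : (2 : ℝ) ≤ n := by exact_mod_cast hn
  have hn1 : (0 : ℝ) < (n : ℝ) - 1 := by linarith
  have hn0 : (0 : ℝ) < (n : ℝ) := by linarith
  have hX0 : ∀ x, 0 ≤ χ x ^ n * f x ^ (n - 2) * pg x ^ 2 := fun x =>
    mul_nonneg (mul_nonneg (pow_nonneg (hχ0 x) _) (pow_nonneg (hf.nonneg x) _)) (sq_nonneg _)
  have hY0 : ∀ x, 0 ≤ χ x ^ n * f x ^ n := fun x =>
    mul_nonneg (pow_nonneg (hχ0 x) _) (pow_nonneg (hf.nonneg x) _)
  have hJ0 : ∀ x, 0 ≤ χ x ^ (n - 1) * f x ^ (n - 2) * pg x := fun x =>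
    mul_nonneg (mul_nonneg (pow_nonneg (hχ0 x) _) (pow_nonneg (hf.nonneg x) _)) (hp0 x)
  -- the exponent
  obtain ⟨t, ht⟩ : ∃ t : ℝ, t = 1 - (n : ℝ) / (n - 1) / 2 := ⟨_, rfl⟩
  have ht0 : 0 ≤ t := by
    rw [ht]
    have : (n : ℝ) / (n - 1) ≤ 2 := by
      rw [div_le_iff₀ hn1]
      linarith
    linarith
  have ht1 : t < 1 := by
    rw [ht]
    have : 0 < (n : ℝ) / (n - 1) := by positivity
    linarith
  -- pointwise identity
  have hpt : ∀ x, (χ x ^ (n - 1) * f x ^ (n - 2) * pg x) ^ ((n : ℝ) / (n - 1)) =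
      (χ x ^ n * f x ^ (n - 2) * pg x ^ 2) ^ (1 - t) * (χ x ^ n * f x ^ n) ^ t := by
    intro x
    have hc := hχ0 x
    have hfx := hf.nonneg x
    have hp := hp0 x
    have h1t : 1 - t = (n : ℝ) / (n - 1) / 2 := by rw [ht]; ring
    have h1t0 : 0 ≤ 1 - t := by linarith
    rw [Real.mul_rpow (by positivity) hp, Real.mul_rpow (by positivity) (by positivity),
      Real.mul_rpow (by positivity) (by positivity), Real.mul_rpow (by positivity) (by positivity),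
      Real.mul_rpow (by positivity) (by positivity)]
    rw [← Real.rpow_natCast (χ x) (n - 1), ← Real.rpow_natCast (χ x) n, ← Real.rpow_natCast (f x) (n - 2),
      ← Real.rpow_natCast (f x) n, ← Real.rpow_natCast (pg x) 2]
    rw [← Real.rpow_mul hc, ← Real.rpow_mul hc, ← Real.rpow_mul hc, ← Real.rpow_mul hfx,
      ← Real.rpow_mul hfx, ← Real.rpow_mul hfx, ← Real.rpow_mul hp]
    have e1 : χ x ^ (((n - 1 : ℕ) : ℝ) * ((n : ℝ) / (n - 1))) = χ x ^ ((n : ℝ) * (1 - t)) * χ x ^ ((n : ℝ) * t) := by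
      rw [← Real.rpow_add_of_nonneg hc (by positivity) (by positivity)]
      congr 1
      rw [Nat.cast_sub (by omega)]
      push_cast
      field_simp
      ring
    have e2 : f x ^ (((n - 2 : ℕ) : ℝ) * ((n : ℝ) / (n - 1))) =
        f x ^ (((n - 2 : ℕ) : ℝ) * (1 - t)) * f x ^ ((n : ℝ) * t) := by
      rw [← Real.rpow_add_of_nonneg hfx (by positivity) (by positivity)]
      congr 1
      rw [Nat.cast_sub hn, ht]
      push_cast
      field_simp
      ring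
    have e3 : pg x ^ ((n : ℝ) / (n - 1)) = pg x ^ (((2 : ℕ) : ℝ) * (1 - t)) := by
      congr 1
      rw [h1t]
      push_cast
      ring
    rw [e1, e2, e3]
    ring
  constructor
  · refine hf.intn.mono ?_ ?_
    · exact (((hχm.pow_const _).mul (hf.meas.pow_const _)).mul hpm).pow_const _ |>.aestronglyMeasurable
    · refine Filter.Eventually.of_forall fun x => ?_
      rw [Real.norm_of_nonneg (Real.rpow_nonneg (hJ0 x) _), Real.norm_of_nonneg (pow_nonneg (hf.nonneg x) _)]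
      have h1 : χ x ^ (n - 1) * f x ^ (n - 2) * pg x ≤ f x ^ (n - 1) := by
        have h3 : f x ^ (n - 1) = 1 * f x ^ (n - 2) * f x := by
          rw [one_mul, ← pow_succ]
          congr 1
          omega
        rw [h3]
        have := pow_nonneg (hf.nonneg x) (n - 2)
        have := hf.nonneg x
        exact mul_le_mul (mul_le_mul_of_nonneg_right (pow_le_one₀ (hχ0 x) (hχ1 x)) (by positivity))
          (hpf x) (hp0 x) (by positivity)
      calc (χ x ^ (n - 1) * f x ^ (n - 2) * pg x) ^ ((n : ℝ) / (n - 1))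
          ≤ (f x ^ (n - 1)) ^ ((n : ℝ) / (n - 1)) := Real.rpow_le_rpow (hJ0 x) h1 (by positivity)
        _ = f x ^ n := by
            rw [← Real.rpow_natCast (f x) (n - 1), ← Real.rpow_mul (hf.nonneg x),
              ← Real.rpow_natCast (f x) n]
            congr 1
            rw [Nat.cast_sub (by omega)]
            push_cast
            field_simp
  · have hI : ∫ x, (χ x ^ (n - 1) * f x ^ (n - 2) * pg x) ^ ((n : ℝ) / (n - 1)) ≤
        (∫ x, χ x ^ n * f x ^ (n - 2) * pg x ^ 2) ^ (1 - t) * (∫ x, χ x ^ n * f x ^ n) ^ t := by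
      simp_rw [hpt]
      rcases ht0.eq_or_lt with h0 | h0
      · rw [← h0]
        simp
      · exact hold_w hX hY hX0 hY0 h0 ht1
    have hX1 : 0 ≤ ∫ x, χ x ^ n * f x ^ (n - 2) * pg x ^ 2 := integral_nonneg hX0
    have hY1 : 0 ≤ ∫ x, χ x ^ n * f x ^ n := integral_nonneg hY0
    have hD1 : 0 ≤ ∫ x, f x ^ n := integral_nonneg fun x => pow_nonneg (hf.nonneg x) _
    have hI2 : ∫ x, (χ x ^ (n - 1) * f x ^ (n - 2) * pg x) ^ ((n : ℝ) / (n - 1)) ≤
        (∫ x, χ x ^ n * f x ^ (n - 2) * pg x ^ 2) ^ (1 - t) * (∫ x, f x ^ n) ^ t :=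
      hI.trans (mul_le_mul_of_nonneg_left (Real.rpow_le_rpow hY1 hYD ht0) (Real.rpow_nonneg hX1 _))
    have hI0 : 0 ≤ ∫ x, (χ x ^ (n - 1) * f x ^ (n - 2) * pg x) ^ ((n : ℝ) / (n - 1)) :=
      integral_nonneg fun x => Real.rpow_nonneg (hJ0 x) _
    refine (Real.rpow_le_rpow hI0 hI2 (by positivity)).trans (le_of_eq ?_)
    rw [Real.mul_rpow (Real.rpow_nonneg hX1 _) (Real.rpow_nonneg hD1 _), ← Real.rpow_mul hX1,
      ← Real.rpow_mul hD1]
    congr 2
    · rw [ht]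
      field_simp
      ring
    · rw [ht]
      field_simp
      ring

theorem F_norm {n : ℕ} (hn : 2 ≤ n) {f : E n → ℝ} {ε : ℝ} (hf : Mor f ε) (χ pg : E n → ℝ)
    (hχm : Measurable χ) (hχ0 : ∀ x, 0 ≤ χ x) (hχ1 : ∀ x, χ x ≤ 1)
    (hpm : Measurable pg) (hp0 : ∀ x, 0 ≤ pg x) (hpf : ∀ x, pg x ≤ f x) :
    Integrable (fun x => χ x * pg x) ∧ Integrable (fun x => (χ x * pg x) ^ n) ∧
    ∫ x, (χ x * pg x) ^ n ≤ ∫ x, χ x ^ n * f x ^ (n - 2) * pg x ^ 2 := by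
  obtain ⟨hX, hY, hYD⟩ := JF_aux hf χ pg hn hχm hχ0 hχ1 hpm hp0 hpf
  have hle : ∀ x, (χ x * pg x) ^ n ≤ χ x ^ n * f x ^ (n - 2) * pg x ^ 2 := by
    intro x
    have h1 : pg x ^ n = pg x ^ (n - 2) * pg x ^ 2 := by
      rw [← pow_add]
      congr 1
      omega
    rw [mul_pow, h1, mul_assoc]
    refine mul_le_mul_of_nonneg_left ?_ (pow_nonneg (hχ0 x) _)
    exact mul_le_mul_of_nonneg_right (pow_le_pow_left₀ (hp0 x) (hpf x) _) (sq_nonneg _)
  have h0 : ∀ x, 0 ≤ χ x * pg x := fun x => mul_nonneg (hχ0 x) (hp0 x)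
  have hint : Integrable (fun x => (χ x * pg x) ^ n) := by
    refine hX.mono ((hχm.mul hpm).pow_const n).aestronglyMeasurable ?_
    refine Filter.Eventually.of_forall fun x => ?_
    rw [Real.norm_of_nonneg (pow_nonneg (h0 x) _), Real.norm_of_nonneg ((pow_nonneg (h0 x) _).trans (hle x))]
    exact hle x
  refine ⟨?_, hint, integral_mono hint hX hle⟩
  refine hf.int.mono (hχm.mul hpm).aestronglyMeasurable ?_
  refine Filter.Eventually.of_forall fun x => ?_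
  rw [Real.norm_of_nonneg (h0 x), Real.norm_of_nonneg (hf.nonneg x)]
  calc χ x * pg x ≤ 1 * f x := mul_le_mul (hχ1 x) (hpf x) (hp0 x) zero_le_one
    _ = f x := one_mul _

end H60NH
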