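import Pool.Agent.H60.NH.MDer

/-!
# [H60 NH MBD] Bounds for the mollified maps

From `ubar_der` and `ubar_diff` (`MDer`): the kernels are bounded by `p2 k ^ n * M` and vanish unless
`‖x - y‖ < 1 / (2 p2 k)`, in particular for `y ∉ ball x (1 / p2 k)`; `‖G y i‖ <= gn (G y)`.
`norm_integral_le_integral_norm`, then `∫ ‖kernel‖ ‖G‖ <= p2 k ^ n M ∫_{ball x (1/p2 k)} gn (G y)`
(`setIntegral` as the integral of an indicator, `integral_mono_of_nonneg`). In the second statement
there are `n` terms and the factor `(p2 k)⁻¹ p2 k ^ n = p2 k ^ (n-1)`.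
`gn_le`, `le_gn`: `‖a i‖ <= gn a <= ∑ ‖a i‖`.
-/

set_option autoImplicit false

namespace H60NH

open MeasureTheory Metric Set Filter Topology
open scoped ENNReal NNReal ContDiff

theorem le_gn {n m : ℕ} (a : Fin n → E m) (i : Fin n) : ‖a i‖ ≤ gn a := by
  unfold gn
  refine Real.le_sqrt_of_sq_le ?_
  exact Finset.single_le_sum (f := fun i => ‖a i‖ ^ 2) (fun j _ => sq_nonneg _)
    (Finset.mem_univ i)

theorem gn_le {n m : ℕ} (a : Fin n → E m) : gn a ≤ ∑ i, ‖a i‖ := by
  unfold gn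
  have h0 : 0 ≤ ∑ i, ‖a i‖ := Finset.sum_nonneg fun i _ => norm_nonneg _
  refine Real.sqrt_le_iff.2 ⟨h0, ?_⟩
  rw [pow_two, Finset.sum_mul]
  refine Finset.sum_le_sum fun i _ => ?_
  rw [pow_two]
  refine mul_le_mul_of_nonneg_left ?_ (norm_nonneg _)
  exact Finset.single_le_sum (f := fun i => ‖a i‖) (fun j _ => norm_nonneg _)
    (Finset.mem_univ i)

private theorem mbd_ker {n m : ℕ} {f : E n → ℝ} {M : ℝ} (hb : ∀ x, |f x| ≤ M)
    (hs : ∀ x, 1 / 2 ≤ ‖x‖ → f x = 0) {G : E n → Fin n → E m}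
    (hf : Integrable (fun x => gn (G x))) (k : ℕ) (x : E n) (i : Fin n) :
    ‖∫ y, (p2 k ^ n * f (p2 k • (x - y))) • G y i‖ ≤
      M * (p2 k ^ n * ∫ y in ball x (1 / p2 k), gn (G y)) := by
  have hp : 0 < p2 k := by unfold p2; positivity
  have hM : 0 ≤ M := (abs_nonneg _).trans (hb 0)
  have hI : Integrable ((ball x (1 / p2 k)).indicator
      (fun y => M * (p2 k ^ n * gn (G y)))) :=
    ((hf.const_mul _).const_mul _).indicator measurableSet_ball
  calc ‖∫ y, (p2 k ^ n * f (p2 k • (x - y))) • G y i‖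
      ≤ ∫ y, ‖(p2 k ^ n * f (p2 k • (x - y))) • G y i‖ := norm_integral_le_integral_norm _
    _ ≤ ∫ y, (ball x (1 / p2 k)).indicator (fun y => M * (p2 k ^ n * gn (G y))) y := by
        refine integral_mono_of_nonneg (Eventually.of_forall fun y => norm_nonneg _) hI
          (Eventually.of_forall fun y => ?_)
        change ‖(p2 k ^ n * f (p2 k • (x - y))) • G y i‖ ≤
          (ball x (1 / p2 k)).indicator (fun y => M * (p2 k ^ n * gn (G y))) y
        by_cases hy : y ∈ ball x (1 / p2 k)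
        · rw [indicator_of_mem hy, norm_smul, norm_mul, Real.norm_of_nonneg (by positivity),
            Real.norm_eq_abs]
          calc p2 k ^ n * |f (p2 k • (x - y))| * ‖G y i‖
              ≤ p2 k ^ n * M * gn (G y) := by
                refine mul_le_mul (mul_le_mul_of_nonneg_left (hb _) (by positivity))
                  (le_gn _ _) (norm_nonneg _) (by positivity)
            _ = M * (p2 k ^ n * gn (G y)) := by ring
        · rw [indicator_of_notMem hy]
          have h1 : f (p2 k • (x - y)) = 0 := by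
            apply hs
            rw [norm_smul, Real.norm_of_nonneg hp.le]
            rw [mem_ball, dist_comm, dist_eq_norm, not_lt, div_le_iff₀ hp] at hy
            linarith
          rw [h1, mul_zero, zero_smul, norm_zero]
    _ = M * (p2 k ^ n * ∫ y in ball x (1 / p2 k), gn (G y)) := by
        rw [integral_indicator measurableSet_ball, integral_const_mul, integral_const_mul]

theorem ubar_der_bd {n m : ℕ} {φ : E n → ℝ} {Θ : Fin n → E n → ℝ} {M : ℝ} (hφ : Moll φ Θ M)
    {R : ℝ} {u : E n → E m} {G : E n → Fin n → E m} (hG : IsWeakGrad (ball 0 R) u G)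
    (hu : Integrable u) (hu0 : ∀ x, x ∉ ball (0 : E n) R → u x = 0)
    (hG0 : ∀ x, x ∉ ball (0 : E n) R → ∀ i, G x i = 0)
    (hf : Integrable (fun x => gn (G x))) (k : ℕ) (x : E n)
    (hx : ‖x‖ + 1 / p2 k < R) (i : Fin n) :
    ‖fderiv ℝ (ubar φ u k) x (ev i)‖ ≤
      M * (p2 k ^ n * ∫ y in ball x (1 / p2 k), gn (G y)) := by
  rw [ubar_der hφ hG hu hu0 hG0 k x hx i]
  exact mbd_ker hφ.bd hφ.supp hf k x i

theorem ubar_diff_bd {n m : ℕ} (hn : 1 ≤ n) {φ : E n → ℝ} {Θ : Fin n → E n → ℝ} {M : ℝ}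
    (hφ : Moll φ Θ M)
    {R : ℝ} {u : E n → E m} {G : E n → Fin n → E m} (hG : IsWeakGrad (ball 0 R) u G)
    (hu : Integrable u) (hu0 : ∀ x, x ∉ ball (0 : E n) R → u x = 0)
    (hG0 : ∀ x, x ∉ ball (0 : E n) R → ∀ i, G x i = 0)
    (hf : Integrable (fun x => gn (G x))) (k : ℕ) (x : E n)
    (hx : ‖x‖ + 1 / p2 k < R) :
    ‖ubar φ u (k + 1) x - ubar φ u k x‖ ≤
      n * M * (p2 k ^ (n - 1) * ∫ y in ball x (1 / p2 k), gn (G y)) := by
  have hp : 0 < p2 k := by unfold p2; positivity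
  rw [ubar_diff hn hφ hG hu hu0 hG0 k x hx, norm_smul, norm_inv, Real.norm_of_nonneg hp.le]
  calc (p2 k)⁻¹ * ‖∑ j, ∫ y, (p2 k ^ n * Θ j (p2 k • (x - y))) • G y j‖
      ≤ (p2 k)⁻¹ * ∑ j : Fin n, M * (p2 k ^ n * ∫ y in ball x (1 / p2 k), gn (G y)) := by
        refine mul_le_mul_of_nonneg_left ?_ (by positivity)
        refine (norm_sum_le _ _).trans (Finset.sum_le_sum fun j _ => ?_)
        exact mbd_ker (hφ.bdT j) (hφ.suppT j) hf k x j
    _ = n * M * (p2 k ^ (n - 1) * ∫ y in ball x (1 / p2 k), gn (G y)) := by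
        rw [Finset.sum_const, Finset.card_univ, Fintype.card_fin, nsmul_eq_mul]
        obtain ⟨d, rfl⟩ : ∃ d, n = d + 1 := ⟨n - 1, by omega⟩
        rw [Nat.add_sub_cancel, pow_succ]
        field_simp

end H60NH
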