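import Pool.Agent.H60.NH.Def3

/-!
# [H60 NH MSMOOTH] The mollified maps are smooth

`ubar φ u k` is the convolution of the integrable map `u` with the smooth compactly supported kernel
`x ↦ p2 k ^ n * φ (p2 k • x)`: `HasCompactSupport.contDiff_convolution_left` (or `_right`), after
rewriting the integral as a `convolution` (`ContinuousLinearMap.lsmul ℝ ℝ`).
`ubar_fderiv`: derivative under the integral:
`fderiv (ubar φ u k) x h = ∫ y, (p2 k ^ (n+1) * fderiv φ (p2 k • (x - y)) h) • u y`.
-/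

set_option autoImplicit false

namespace H60NH

open MeasureTheory Metric Set Filter Topology
open scoped ENNReal NNReal ContDiff

/-- The scaled kernel. -/
private noncomputable def msmK {n : ℕ} (φ : E n → ℝ) (k : ℕ) (x : E n) : ℝ :=
  p2 k ^ n * φ (p2 k • x)

private theorem msm_p2 (k : ℕ) : 0 < p2 k := by unfold p2; positivity

private theorem msm_contDiff {n : ℕ} {φ : E n → ℝ} {Θ : Fin n → E n → ℝ} {M : ℝ}
    (hφ : Moll φ Θ M) (k : ℕ) : ContDiff ℝ ∞ (msmK φ k) := by
  unfold msmK
  have h : ContDiff ℝ ∞ (fun x : E n => p2 k • x) := contDiff_const_smul _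
  exact contDiff_const.mul (hφ.smooth.comp h)

private theorem msm_supp {n : ℕ} {φ : E n → ℝ} {Θ : Fin n → E n → ℝ} {M : ℝ}
    (hφ : Moll φ Θ M) (k : ℕ) : HasCompactSupport (msmK φ k) := by
  apply HasCompactSupport.intro (isCompact_closedBall (0 : E n) (1 / p2 k))
  intro x hx
  have hp := msm_p2 k
  rw [mem_closedBall, not_le, dist_zero_right, div_lt_iff₀ hp] at hx
  unfold msmK
  rw [hφ.supp (p2 k • x) (by
    rw [norm_smul, Real.norm_of_nonneg hp.le]
    nlinarith [hx]), mul_zero]

private theorem msm_conv {n m : ℕ} (φ : E n → ℝ) (u : E n → E m) (k : ℕ) :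
    ubar φ u k = MeasureTheory.convolution (msmK φ k) u (ContinuousLinearMap.lsmul ℝ ℝ) volume := by
  funext x
  rw [MeasureTheory.convolution_lsmul_swap]
  rfl

theorem ubar_smooth {n m : ℕ} {φ : E n → ℝ} {Θ : Fin n → E n → ℝ} {M : ℝ} (hφ : Moll φ Θ M)
    (u : E n → E m) (hu : Integrable u) (k : ℕ) : ContDiff ℝ ∞ (ubar φ u k) := by
  rw [msm_conv]
  exact (msm_supp hφ k).contDiff_convolution_left _ (msm_contDiff hφ k) hu.locallyIntegrable

theorem ubar_fderiv {n m : ℕ} {φ : E n → ℝ} {Θ : Fin n → E n → ℝ} {M : ℝ} (hφ : Moll φ Θ M)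
    (u : E n → E m) (hu : Integrable u) (k : ℕ) (x h : E n) :
    fderiv ℝ (ubar φ u k) x h =
      ∫ y, (p2 k ^ (n + 1) * fderiv ℝ φ (p2 k • (x - y)) h) • u y := by
  have hK := msm_contDiff hφ k
  have hK1 : ContDiff ℝ 1 (msmK φ k) := hK.of_le (by exact_mod_cast le_top)
  have h1 := (msm_supp hφ k).hasFDerivAt_convolution_left (μ := (volume : Measure (E n)))
    (ContinuousLinearMap.lsmul ℝ ℝ) hK1 (hu.locallyIntegrable) x
  have hK' : Continuous (fderiv ℝ (msmK φ k)) := hK1.continuous_fderiv one_ne_zero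
  have h2 := ((msm_supp hφ k).fderiv ℝ).convolutionExists_left (μ := (volume : Measure (E n)))
    ((ContinuousLinearMap.lsmul ℝ ℝ : ℝ →L[ℝ] E m →L[ℝ] E m).precompL (E n)) hK'
    (hu.locallyIntegrable) x
  have h3 : ∀ z : E n, fderiv ℝ (msmK φ k) z h = p2 k ^ (n + 1) * fderiv ℝ φ (p2 k • z) h := by
    intro z
    have hd : DifferentiableAt ℝ φ (p2 k • z) :=
      (hφ.smooth.differentiable (by simp)).differentiableAt
    have hs : HasFDerivAt (fun x : E n => p2 k • x) (p2 k • ContinuousLinearMap.id ℝ (E n)) z :=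
      (hasFDerivAt_id z).const_smul (p2 k)
    have hc : HasFDerivAt (msmK φ k)
        (p2 k ^ n • ((fderiv ℝ φ (p2 k • z)).comp (p2 k • ContinuousLinearMap.id ℝ (E n)))) z :=
      (hd.hasFDerivAt.comp z hs).const_mul (p2 k ^ n)
    rw [hc.fderiv]
    simp only [ContinuousLinearMap.smul_apply, ContinuousLinearMap.comp_apply,
      ContinuousLinearMap.id_apply, map_smul, smul_eq_mul]
    ring
  rw [msm_conv, h1.fderiv, MeasureTheory.convolution_def, ContinuousLinearMap.integral_apply h2]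
  rw [← integral_sub_left_eq_self _ volume x]
  congr 1
  funext y
  rw [ContinuousLinearMap.precompL_apply, ContinuousLinearMap.lsmul_apply, h3, sub_sub_cancel]

end H60NH
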