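import Pool.Agent.H60.NH.MSmooth

/-!
# [H60 NH MCONV] The mollifications converge almost everywhere

`u` integrable (or locally integrable). For almost every `x` (Lebesgue points; Mathlib:
`Besicovitch.ae_tendsto_...` / `IsUnifLocDoublingMeasure.vitaliFamily`,
`VitaliFamily.ae_tendsto_average_norm_sub` or
`IsUnifLocDoublingMeasure.ae_tendsto_average_norm_sub`) the averages of `‖u y - u x‖` over the balls
`closedBall x r` tend to `0` as `r → 0`. Since `∫ p2 k ^ n φ(p2 k (x - y)) dy = 1` (change of variables),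
`‖ubar φ u k x - u x‖ = ‖∫ p2 k ^ n φ(p2 k(x-y)) (u y - u x) dy‖ <= M p2 k ^ n ∫_{closedBall x (1/p2 k)} ‖u y - u x‖`,
which is a constant times the average over `closedBall x (1/p2 k)`.
-/

set_option autoImplicit false

namespace H60NH

open MeasureTheory Metric Set Filter Topology
open scoped ENNReal NNReal ContDiff

private theorem mconv_p2 (k : ℕ) : 0 < p2 k := by unfold p2; positivity

private theorem mconv_int {n : ℕ} {φ : E n → ℝ} {Θ : Fin n → E n → ℝ} {M : ℝ} (hφ : Moll φ Θ M)
    (k : ℕ) (x : E n) : Integrable (fun y => p2 k ^ n * φ (p2 k • (x - y))) := by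
  have h1 : Integrable φ := by
    by_contra h
    have := hφ.int
    rw [integral_undef h] at this
    exact zero_ne_one this
  have h2 : Integrable (fun y => φ (p2 k • y)) := h1.comp_smul (mconv_p2 k).ne'
  have h3 : Integrable (fun y => φ (p2 k • (x - y))) := h2.comp_sub_left x
  exact h3.const_mul _

theorem kernel_int {n : ℕ} {φ : E n → ℝ} {Θ : Fin n → E n → ℝ} {M : ℝ} (hφ : Moll φ Θ M)
    (k : ℕ) (x : E n) : ∫ y, p2 k ^ n * φ (p2 k • (x - y)) = 1 := by
  have hp := mconv_p2 k
  rw [integral_const_mul, integral_sub_left_eq_self (fun y => φ (p2 k • y)) volume x,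
    Measure.integral_comp_smul, hφ.int, finrank_euclideanSpace, Fintype.card_fin, smul_eq_mul,
    mul_one, abs_of_pos (by positivity)]
  exact mul_inv_cancel₀ (by positivity)

theorem ubar_ae {n m : ℕ} {φ : E n → ℝ} {Θ : Fin n → E n → ℝ} {M : ℝ} (hφ : Moll φ Θ M)
    (u : E n → E m) (hu : Integrable u) :
    ∀ᵐ x, Tendsto (fun k => ubar φ u k x) atTop (𝓝 (u x)) := by
  filter_upwards [IsUnifLocDoublingMeasure.ae_tendsto_average_norm_sub
    (μ := (volume : Measure (E n))) hu.locallyIntegrable 1] with x hx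
  have hp := mconv_p2
  have hM : 0 ≤ M := zero_le_one.trans hφ.one_le
  have hδ0 : Tendsto (fun k : ℕ => 1 / p2 k) atTop (𝓝 0) := by
    have h1 : (fun k : ℕ => 1 / p2 k) = fun k => ((1 : ℝ) / 2) ^ k := by
      funext k
      unfold p2
      rw [div_pow, one_pow]
    rw [h1]
    exact tendsto_pow_atTop_nhds_zero_of_lt_one (by norm_num) (by norm_num)
  have hδ : Tendsto (fun k : ℕ => 1 / p2 k) atTop (𝓝[>] 0) := by
    rw [tendsto_nhdsWithin_iff]
    exact ⟨hδ0, Eventually.of_forall fun k => div_pos one_pos (hp k)⟩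
  have h1 := hx (fun _ : ℕ => x) (fun k => 1 / p2 k) hδ
    (Eventually.of_forall fun k => mem_closedBall_self (by have := hp k; positivity))
  set V : ℝ := (volume (closedBall (0 : E n) 1)).toReal with hV
  have h2 : Tendsto (fun k : ℕ => (M * V) * ⨍ y in closedBall x (1 / p2 k), ‖u y - u x‖)
      atTop (𝓝 0) := by
    simpa using h1.const_mul (M * V)
  rw [tendsto_iff_norm_sub_tendsto_zero]
  refine squeeze_zero (fun k => norm_nonneg _) (fun k => ?_) h2
  have hpk := hp k
  have hker := mconv_int hφ k x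
  have hb : ∀ y, ‖p2 k ^ n * φ (p2 k • (x - y))‖ ≤ p2 k ^ n * M := by
    intro y
    rw [norm_mul, Real.norm_of_nonneg (by positivity)]
    exact mul_le_mul_of_nonneg_left (hφ.bd _) (by positivity)
  have hi1 : Integrable (fun y => (p2 k ^ n * φ (p2 k • (x - y))) • u y) :=
    hu.bdd_smul (p2 k ^ n * M) hker.aestronglyMeasurable (ae_of_all _ hb)
  have hi2 : Integrable (fun y => (p2 k ^ n * φ (p2 k • (x - y))) • u x) := hker.smul_const _
  have hdiff : (fun y => (p2 k ^ n * φ (p2 k • (x - y))) • (u y - u x)) =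
      fun y => (p2 k ^ n * φ (p2 k • (x - y))) • u y - (p2 k ^ n * φ (p2 k • (x - y))) • u x :=
    funext fun y => smul_sub _ _ _
  have h3 : ubar φ u k x - u x = ∫ y, (p2 k ^ n * φ (p2 k • (x - y))) • (u y - u x) := by
    have h4 : ∫ y, (p2 k ^ n * φ (p2 k • (x - y))) • u x = u x := by
      rw [integral_smul_const, kernel_int hφ, one_smul]
    rw [hdiff, integral_sub hi1 hi2, h4]
    rfl
  rw [h3]
  have hsupp : ∀ y, y ∉ closedBall x (1 / p2 k) →
      ‖(p2 k ^ n * φ (p2 k • (x - y))) • (u y - u x)‖ = 0 := by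
    intro y hy
    rw [mem_closedBall, not_le, dist_comm, dist_eq_norm, div_lt_iff₀ hpk] at hy
    rw [hφ.supp (p2 k • (x - y)) (by
      rw [norm_smul, Real.norm_of_nonneg hpk.le]
      nlinarith [hy])]
    simp
  have hint : IntegrableOn (fun y => ‖u y - u x‖) (closedBall x (1 / p2 k)) :=
    (hu.integrableOn.sub (integrableOn_const measure_closedBall_lt_top.ne)).norm
  have hvol : volume.real (closedBall x (1 / p2 k)) = (1 / p2 k) ^ n * V := by
    rw [Measure.real, Measure.addHaar_closedBall' _ _ (by positivity), finrank_euclideanSpace,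
      Fintype.card_fin, ENNReal.toReal_mul, ENNReal.toReal_ofReal (by positivity)]
  have hVpos : 0 < V := by
    rw [hV]
    exact ENNReal.toReal_pos (measure_closedBall_pos _ _ one_pos).ne'
      measure_closedBall_lt_top.ne
  have hv : (1 / p2 k) ^ n * V ≠ 0 := by positivity
  calc ‖∫ y, (p2 k ^ n * φ (p2 k • (x - y))) • (u y - u x)‖
      ≤ ∫ y, ‖(p2 k ^ n * φ (p2 k • (x - y))) • (u y - u x)‖ := norm_integral_le_integral_norm _
    _ = ∫ y in closedBall x (1 / p2 k), ‖(p2 k ^ n * φ (p2 k • (x - y))) • (u y - u x)‖ :=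
        (setIntegral_eq_integral_of_forall_compl_eq_zero hsupp).symm
    _ ≤ ∫ y in closedBall x (1 / p2 k), (p2 k ^ n * M) * ‖u y - u x‖ := by
        apply setIntegral_mono
        · have h5 : Integrable (fun y => (p2 k ^ n * φ (p2 k • (x - y))) • (u y - u x)) := by
            rw [hdiff]
            exact hi1.sub hi2
          exact h5.norm.integrableOn
        · exact hint.const_mul _
        · intro y
          simp only [norm_smul]
          exact mul_le_mul_of_nonneg_right (by simpa [norm_mul] using hb y) (norm_nonneg _)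
    _ = (p2 k ^ n * M) * ∫ y in closedBall x (1 / p2 k), ‖u y - u x‖ := integral_const_mul _ _
    _ = (M * V) * ⨍ y in closedBall x (1 / p2 k), ‖u y - u x‖ := by
        have h6 : ((1 / p2 k) ^ n * V)⁻¹ = p2 k ^ n * V⁻¹ := by
          rw [mul_inv, one_div, inv_pow, inv_inv]
        rw [setAverage_eq, hvol, smul_eq_mul, h6]
        field_simp

end H60NH
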