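import Pool.Agent.H60.NH.SolBase
import Pool.Agent.H60.NH.MBd
import Pool.Agent.H60.NH.MConv
import Pool.Agent.H60.NH.NInt

/-!
# [H60 NH CONT] Decay implies continuity

Let `φ` be a mollifier (`hφ`), `f = gn ∘ G`. Fix `z ∈ ball 0 1` and `R, q, C₁` as in the hypothesis; decrease `R`:
`ball z (2R) ⊆ ball 0 1`. For `y ∈ ball z R` and `1/p2 k <= R`: by `ubar_diff_bd` (`R = 1` there, `‖y‖ + 1/p2 k < 1`)
and Hölder, `‖ubar (k+1) y - ubar k y‖ <= n M p2^(n-1) ∫_{ball y (1/p2 k)} f <= C (xs f y (1/p2 k))^(1/s)`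
(exponent of `p2 k`: `(n-1) - n(1-1/s) - 1/(2s) = 0`). With `j` the largest integer with `1/p2 k <= q^j R` this is
at most `C (C₁/2^j)^(1/s)`, which is summable over `k` (geometric: `j >= c k - C`). So `ubar k` converges
uniformly on `ball z R`, the limit is continuous there (`ubar k` smooth), and equals `u` a.e. (`ubar_ae`).
Define `v x = limUnder atTop (fun k => ubar φ u k x)`; it is continuous at every point of `ball 0 1` and
`v = u` a.e. in the ball.
-/

set_option autoImplicit false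

namespace H60NH

open MeasureTheory Metric Set Filter Topology
open scoped ENNReal NNReal ContDiff

private theorem cont_p2 (k : ℕ) : 0 < p2 k := by unfold p2; positivity

/-- `f ≤ λ + λ^(1-s) f^s` -/
private theorem cont_pt {s l a : ℝ} (hs : 1 ≤ s) (hl : 0 < l) (ha : 0 ≤ a) :
    a ≤ l + l ^ (1 - s) * a ^ s := by
  have h0 : 0 ≤ l ^ (1 - s) * a ^ s := by positivity
  rcases le_or_gt a l with h | h
  · linarith
  · have ha0 : 0 < a := hl.trans h
    have h1 : a ^ (1 - s) ≤ l ^ (1 - s) :=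
      Real.rpow_le_rpow_of_nonpos hl h.le (by linarith)
    have h2 : a ^ (1 - s) * a ^ s = a := by
      rw [← Real.rpow_add ha0]
      have : 1 - s + s = 1 := by ring
      rw [this, Real.rpow_one]
    have h3 : a ^ (1 - s) * a ^ s ≤ l ^ (1 - s) * a ^ s :=
      mul_le_mul_of_nonneg_right h1 (by positivity)
    linarith

private theorem cont_rpow_int {n : ℕ} (hn : 2 ≤ n) {f : E n → ℝ} (hf : Base f) :
    Integrable (fun x => f x ^ sn n) := by
  have hn' : (2 : ℝ) ≤ n := by exact_mod_cast hn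
  refine Integrable.mono' (hf.int.add hf.intn) ?_ ?_
  · exact (hf.meas.pow_const _).aestronglyMeasurable
  · refine ae_of_all _ fun x => ?_
    have h0 := hf.nonneg x
    rw [Real.norm_of_nonneg (by positivity)]
    show f x ^ sn n ≤ f x + f x ^ n
    unfold sn
    rcases le_or_gt (f x) 1 with h | h
    · have h1 : f x ^ ((n : ℝ) - 1 / 2) ≤ f x := by
        rcases h0.eq_or_lt with h2 | h2
        · rw [← h2, Real.zero_rpow (by linarith)]
        · calc f x ^ ((n : ℝ) - 1 / 2) ≤ f x ^ (1 : ℝ) :=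
                Real.rpow_le_rpow_of_exponent_ge h2 h (by linarith)
            _ = f x := Real.rpow_one _
      have h2 : 0 ≤ f x ^ n := by positivity
      linarith
    · have h1 : f x ^ ((n : ℝ) - 1 / 2) ≤ f x ^ (n : ℝ) :=
        Real.rpow_le_rpow_of_exponent_le h.le (by linarith)
      rw [Real.rpow_natCast] at h1
      linarith

/-- the scaled average of `f` in terms of `xs` -/
private theorem cont_avg {n : ℕ} (hn : 2 ≤ n) {f : E n → ℝ} (hf : Base f) (y : E n) {t a : ℝ}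
    (ht : 0 < t) (ha : 0 < a) :
    ∫ x in ball y t, f x ≤ t ^ (n - 1) * (a * vb n + a ^ (1 - sn n) * xs f y t) := by
  have hn' : (2 : ℝ) ≤ n := by exact_mod_cast hn
  have hs : 1 ≤ sn n := by unfold sn; linarith
  have hl : 0 < a / t := by positivity
  have hint := cont_rpow_int hn hf
  have h1 : ∫ x in ball y t, f x ≤ ∫ x in ball y t, (a / t + (a / t) ^ (1 - sn n) * f x ^ sn n) := by
    refine setIntegral_mono hf.int.integrableOn ?_ fun x => cont_pt hs hl (hf.nonneg x)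
    exact (integrableOn_const measure_ball_lt_top.ne).add (hint.integrableOn.const_mul _)
  have h2 : ∫ x in ball y t, (a / t + (a / t) ^ (1 - sn n) * f x ^ sn n) =
      (a / t) * (vb n * t ^ n) + (a / t) ^ (1 - sn n) * ∫ x in ball y t, f x ^ sn n := by
    have hc : Integrable (fun _ : E n => a / t) (volume.restrict (ball y t)) :=
      integrableOn_const measure_ball_lt_top.ne
    have hc2 : Integrable (fun x : E n => (a / t) ^ (1 - sn n) * f x ^ sn n)
        (volume.restrict (ball y t)) := hint.integrableOn.const_mul _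
    rw [integral_add hc hc2, integral_const_mul, setIntegral_const, Measure.real, vol_ball y t ht,
      ENNReal.toReal_ofReal (mul_nonneg (vb_pos n).le (by positivity)), smul_eq_mul]
    ring
  have h3 : ∫ x in ball y t, f x ^ sn n = xs f y t * Real.sqrt t := by
    unfold xs
    rw [div_mul_cancel₀]
    exact (Real.sqrt_pos.2 ht).ne'
  have h4 : t ^ n = t ^ (n - 1) * t := by
    rw [← pow_succ]
    congr 1
    omega
  have h5 : (a / t) ^ (1 - sn n) * Real.sqrt t = a ^ (1 - sn n) * t ^ (n - 1) := by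
    rw [Real.div_rpow ha.le ht.le, Real.sqrt_eq_rpow, div_mul_eq_mul_div, div_eq_iff (by positivity),
      mul_assoc]
    congr 1
    rw [← Real.rpow_natCast, ← Real.rpow_add ht]
    congr 1
    rw [Nat.cast_sub (by omega)]
    unfold sn
    push_cast
    ring
  calc ∫ x in ball y t, f x ≤ _ := h1
    _ = _ := h2
    _ = a * vb n * t ^ (n - 1) + ((a / t) ^ (1 - sn n) * Real.sqrt t) * xs f y t := by
        rw [h3, h4]
        field_simp
    _ = _ := by
        rw [h5]
        ring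

/-- summability of a geometric sequence with repeated terms -/
private theorem cont_summ {θ : ℝ} (h0 : 0 < θ) (h1 : θ < 1) {m0 : ℕ} (hm : 1 ≤ m0) :
    Summable fun i : ℕ => θ ^ (i / m0) := by
  have hm' : (m0 : ℝ) ≠ 0 := by exact_mod_cast (by omega : m0 ≠ 0)
  set η : ℝ := θ ^ ((m0 : ℝ)⁻¹) with hη
  have hη0 : 0 < η := Real.rpow_pos_of_pos h0 _
  have hη1 : η < 1 := Real.rpow_lt_one h0.le h1 (by positivity)
  have hηm : η ^ m0 = θ := by
    rw [hη, ← Real.rpow_natCast, ← Real.rpow_mul h0.le, inv_mul_cancel₀ hm', Real.rpow_one]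
  refine Summable.of_nonneg_of_le (fun i => by positivity) (fun i => ?_)
    ((summable_geometric_of_lt_one hη0.le hη1).mul_left θ⁻¹)
  have h2 : i ≤ m0 * (i / m0 + 1) := by
    have := Nat.div_add_mod i m0
    have := Nat.mod_lt i (by omega : 0 < m0)
    rw [Nat.mul_add]
    omega
  have h3 : η ^ (m0 * (i / m0 + 1)) ≤ η ^ i := pow_le_pow_of_le_one hη0.le hη1.le h2
  rw [pow_mul, hηm, pow_succ] at h3
  rw [inv_mul_eq_div, le_div_iff₀ h0]
  exact h3

theorem cont_of_decay {n m : ℕ} (hn : 2 ≤ n) {φ : E n → ℝ} {Θ : Fin n → E n → ℝ} {M : ℝ}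
    (hφ : Moll φ Θ M) {N : Set (E m)} {π : E m → E m} (u : E n → E m) (G : E n → Fin n → E m)
    (hS : Sol N π 1 u G)
    (hd : ∀ z ∈ ball (0 : E n) 1, ∃ R q C₁ : ℝ, 0 < R ∧ 0 < q ∧ q < 1 ∧ 0 ≤ C₁ ∧
      ∀ j : ℕ, ∀ y ∈ ball z R, ∀ t : ℝ, 0 < t → t ≤ q ^ j * R →
        xs (fun x => gn (G x)) y t ≤ C₁ / 2 ^ j) :
    ∃ v : E n → E m, ContinuousOn v (ball (0 : E n) 1) ∧
      v =ᵐ[volume.restrict (ball (0 : E n) 1)] u := by
  have hbase := sol_base hn hS
  obtain ⟨hu, -, -, -, hfi, -⟩ := sol_int (by omega : 1 ≤ n) hS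
  have hM : 0 ≤ M := zero_le_one.trans hφ.one_le
  have hn' : (2 : ℝ) ≤ n := by exact_mod_cast hn
  have hvb := vb_pos n
  refine ⟨fun x => limUnder atTop (fun k => ubar φ u k x), ?_, ?_⟩
  swap
  · refine ae_restrict_of_ae ?_
    filter_upwards [ubar_ae hφ u hu] with x hx
    exact hx.limUnder_eq
  intro z hz
  refine ContinuousAt.continuousWithinAt ?_
  obtain ⟨R, q, C₁, hR, hq0, hq1, hC₁, hdec⟩ := hd z hz
  rw [mem_ball_zero_iff] at hz
  obtain ⟨R', hR'd⟩ : ∃ R' : ℝ, R' = min R ((1 - ‖z‖) / 4) := ⟨_, rfl⟩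
  have hR'0 : 0 < R' := by
    rw [hR'd]
    exact lt_min hR (by linarith)
  have hR'R : R' ≤ R := by rw [hR'd]; exact min_le_left _ _
  have hR'z : R' ≤ (1 - ‖z‖) / 4 := by rw [hR'd]; exact min_le_right _ _
  -- scales
  have hp2inv : ∀ k : ℕ, 1 / p2 k = (1 / 2 : ℝ) ^ k := fun k => by
    unfold p2
    rw [div_pow, one_pow]
  obtain ⟨k0, hk0⟩ : ∃ k0 : ℕ, (1 / 2 : ℝ) ^ k0 < R' := exists_pow_lt_of_lt_one hR'0 (by norm_num)
  obtain ⟨m1, hm1⟩ : ∃ m1 : ℕ, (1 / 2 : ℝ) ^ m1 < q := exists_pow_lt_of_lt_one hq0 (by norm_num)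
  obtain ⟨m0, hm0⟩ : ∃ m0 : ℕ, m0 = m1 + 1 := ⟨_, rfl⟩
  have hm0q : (1 / 2 : ℝ) ^ m0 ≤ q := by
    refine le_trans ?_ hm1.le
    rw [hm0]
    exact pow_le_pow_of_le_one (by norm_num) (by norm_num) (by omega)
  -- the ratio
  have hs1 : 0 < sn n - 1 := by unfold sn; linarith
  obtain ⟨ρ, hρ⟩ : ∃ ρ : ℝ, ρ = (3 / 4 : ℝ) ^ ((sn n - 1)⁻¹) := ⟨_, rfl⟩
  have hρ0 : 0 < ρ := by rw [hρ]; exact Real.rpow_pos_of_pos (by norm_num) _
  have hρ1 : ρ < 1 := by
    rw [hρ]
    exact Real.rpow_lt_one (by norm_num) (by norm_num) (inv_pos.2 hs1)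
  have hρs : ρ ^ (1 - sn n) = 4 / 3 := by
    rw [hρ, ← Real.rpow_mul (by norm_num)]
    have h1 : (sn n - 1)⁻¹ * (1 - sn n) = -1 := by
      rw [← neg_sub (sn n) 1, mul_neg, inv_mul_cancel₀ hs1.ne']
    rw [h1, Real.rpow_neg_one]
    norm_num
  obtain ⟨θ, hθ⟩ : ∃ θ : ℝ, θ = max ρ (2 / 3) := ⟨_, rfl⟩
  have hθ0 : 0 < θ := by rw [hθ]; exact lt_max_of_lt_left hρ0
  have hθ1 : θ < 1 := by rw [hθ]; exact max_lt hρ1 (by norm_num)
  obtain ⟨D, hD⟩ : ∃ D : ℝ, D = n * M * (vb n + C₁) := ⟨_, rfl⟩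
  -- the increments
  have hinc : ∀ i : ℕ, ∀ y ∈ ball z R',
      ‖ubar φ u (k0 + i + 1) y - ubar φ u (k0 + i) y‖ ≤ D * θ ^ (i / m0) := by
    intro i y hy
    have hy' := hy
    rw [mem_ball, dist_eq_norm] at hy'
    obtain ⟨k, hk⟩ : ∃ k, k = k0 + i := ⟨_, rfl⟩
    rw [← hk]
    have hpk := cont_p2 k
    have ht0 : 0 < 1 / p2 k := by positivity
    obtain ⟨j, hj⟩ : ∃ j, j = i / m0 := ⟨_, rfl⟩
    rw [← hj]
    have hij : m0 * j ≤ i := by rw [hj]; exact Nat.mul_div_le i m0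
    have ht1 : 1 / p2 k ≤ q ^ j * R' := by
      rw [hp2inv, hk]
      calc (1 / 2 : ℝ) ^ (k0 + i) ≤ (1 / 2 : ℝ) ^ (k0 + m0 * j) :=
            pow_le_pow_of_le_one (by norm_num) (by norm_num) (by omega)
        _ = ((1 / 2 : ℝ) ^ m0) ^ j * (1 / 2 : ℝ) ^ k0 := by rw [pow_add, pow_mul, mul_comm]
        _ ≤ q ^ j * R' := by
            refine mul_le_mul (pow_le_pow_left₀ (by positivity) hm0q _) hk0.le (by positivity)
              (by positivity)
    have hqj : q ^ j ≤ 1 := pow_le_one₀ hq0.le hq1.le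
    have hk1 : 1 / p2 k ≤ R' := ht1.trans (by nlinarith)
    have hyk : ‖y‖ + 1 / p2 k < 1 := by
      have h1 : ‖y‖ ≤ ‖y - z‖ + ‖z‖ := by
        have := norm_add_le (y - z) z
        rwa [sub_add_cancel] at this
      linarith
    have hxs : xs (fun x => gn (G x)) y (1 / p2 k) ≤ C₁ / 2 ^ j :=
      hdec j y (ball_subset_ball hR'R hy) _ ht0 (ht1.trans (by gcongr))
    have h1 := ubar_diff_bd (by omega : 1 ≤ n) hφ hS.wg hu hS.out_u hS.out_G hfi k y hyk
    have h2 := cont_avg hn hbase y ht0 (pow_pos hρ0 j)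
    have h3 : p2 k ^ (n - 1) * (1 / p2 k) ^ (n - 1) = 1 := by
      rw [← mul_pow, mul_one_div_cancel hpk.ne', one_pow]
    have h4 : p2 k ^ (n - 1) * ∫ x in ball y (1 / p2 k), gn (G x) ≤
        ρ ^ j * vb n + (ρ ^ j) ^ (1 - sn n) * xs (fun x => gn (G x)) y (1 / p2 k) := by
      calc p2 k ^ (n - 1) * ∫ x in ball y (1 / p2 k), gn (G x) ≤
          p2 k ^ (n - 1) * ((1 / p2 k) ^ (n - 1) * (ρ ^ j * vb n +
            (ρ ^ j) ^ (1 - sn n) * xs (fun x => gn (G x)) y (1 / p2 k))) :=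
            mul_le_mul_of_nonneg_left h2 (by positivity)
        _ = _ := by rw [← mul_assoc, h3, one_mul]
    have h5 : (ρ ^ j) ^ (1 - sn n) = (4 / 3 : ℝ) ^ j := by
      rw [← hρs, ← Real.rpow_natCast, ← Real.rpow_natCast, ← Real.rpow_mul hρ0.le,
        ← Real.rpow_mul hρ0.le, mul_comm]
    have h6 : p2 k ^ (n - 1) * ∫ x in ball y (1 / p2 k), gn (G x) ≤ (vb n + C₁) * θ ^ j := by
      rw [h5] at h4
      refine h4.trans ?_
      have e1 : ρ ^ j ≤ θ ^ j := pow_le_pow_left₀ hρ0.le (by rw [hθ]; exact le_max_left _ _) _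
      have e2 : (4 / 3 : ℝ) ^ j * xs (fun x => gn (G x)) y (1 / p2 k) ≤ C₁ * θ ^ j := by
        calc (4 / 3 : ℝ) ^ j * xs (fun x => gn (G x)) y (1 / p2 k) ≤ (4 / 3 : ℝ) ^ j *
              (C₁ / 2 ^ j) := mul_le_mul_of_nonneg_left hxs (by positivity)
          _ = C₁ * (2 / 3 : ℝ) ^ j := by
              have : (2 / 3 : ℝ) ^ j = (4 / 3 : ℝ) ^ j / 2 ^ j := by
                rw [← div_pow]
                norm_num
              rw [this]
              ring
          _ ≤ C₁ * θ ^ j := by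
              refine mul_le_mul_of_nonneg_left (pow_le_pow_left₀ (by norm_num)
                (by rw [hθ]; exact le_max_right _ _) _) hC₁
      have e3 : ρ ^ j * vb n ≤ vb n * θ ^ j := by
        rw [mul_comm]
        exact mul_le_mul_of_nonneg_left e1 hvb.le
      linarith
    calc ‖ubar φ u (k + 1) y - ubar φ u k y‖ ≤ _ := h1
      _ ≤ n * M * ((vb n + C₁) * θ ^ j) := mul_le_mul_of_nonneg_left h6 (by positivity)
      _ = D * θ ^ j := by rw [hD]; ring
  have hsum : Summable fun i : ℕ => D * θ ^ (i / m0) :=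
    (cont_summ hθ0 hθ1 (by omega)).mul_left D
  have hcont : ContinuousOn (fun y => ubar φ u k0 y +
      ∑' i : ℕ, (ubar φ u (k0 + i + 1) y - ubar φ u (k0 + i) y)) (ball z R') := by
    refine ContinuousOn.add ((ubar_smooth hφ u hu k0).continuous.continuousOn) ?_
    refine continuousOn_tsum (fun i => ?_) hsum hinc
    exact ((ubar_smooth hφ u hu _).continuous.sub (ubar_smooth hφ u hu _).continuous).continuousOn
  have heq : ∀ y ∈ ball z R', limUnder atTop (fun k => ubar φ u k y) = ubar φ u k0 y +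
      ∑' i : ℕ, (ubar φ u (k0 + i + 1) y - ubar φ u (k0 + i) y) := by
    intro y hy
    have h1 : Summable fun i : ℕ => (ubar φ u (k0 + i + 1) y - ubar φ u (k0 + i) y) :=
      Summable.of_norm_bounded hsum fun i => hinc i y hy
    have h2 := h1.hasSum.tendsto_sum_nat
    have h3 : ∀ K : ℕ, ∑ i ∈ Finset.range K, (ubar φ u (k0 + i + 1) y - ubar φ u (k0 + i) y) =
        ubar φ u (k0 + K) y - ubar φ u k0 y := by
      intro K
      have := Finset.sum_range_sub (fun i => ubar φ u (k0 + i) y) K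
      exact this
    simp_rw [h3] at h2
    have h4 := h2.const_add (ubar φ u k0 y)
    have h5 : (fun K : ℕ => ubar φ u k0 y + (ubar φ u (k0 + K) y - ubar φ u k0 y)) =
        fun K : ℕ => ubar φ u (K + k0) y := by
      funext K
      rw [add_sub_cancel, add_comm k0 K]
    rw [h5] at h4
    exact ((tendsto_add_atTop_iff_nat (f := fun k => ubar φ u k y) k0).1 h4).limUnder_eq
  have hnhds : ball z R' ∈ 𝓝 z := ball_mem_nhds z hR'0
  refine (hcont.continuousAt hnhds).congr ?_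
  filter_upwards [hnhds] with y hy
  exact (heq y hy).symm

end H60NH
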