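import Pool.Agent.H60.NH.Def3

/-!
# [H60 NH CUTEX] A cutoff function exists

A smooth bump function `χ` equal to `1` on `closedBall 0 (1/2)`, with support in `ball 0 (3/4)`, values
in `[0,1]` (`ContDiffBump`). `χ` has compact support, so `‖fderiv χ‖` is bounded by some `L >= 1`
(continuous with compact support), which gives `lip` (mean value inequality) and `der`.
`der0`: outside `ball 0 1` a neighbourhood of `x` misses the support (`tsupport ⊆ closedBall 0 (3/4)`); in
`ball 0 (1/2)` `χ` is locally constant.
-/

set_option autoImplicit false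

namespace H60NH

open MeasureTheory Metric Set Filter Topology
open scoped ENNReal NNReal ContDiff

theorem exists_cut (n : ℕ) : ∃ (χ : E n → ℝ) (L : ℝ), Cut χ L := by
  obtain ⟨b, hb1, hb2⟩ : ∃ b : ContDiffBump (0 : E n), b.rIn = 1 / 2 ∧ b.rOut = 3 / 4 :=
    ⟨⟨1 / 2, 3 / 4, by norm_num, by norm_num⟩, rfl, rfl⟩
  have hsm : ContDiff ℝ ∞ (fun x => b x) := b.contDiff
  have hfc : Continuous (fderiv ℝ (fun x => b x)) := hsm.continuous_fderiv (by simp)
  have hcs : HasCompactSupport (fun x => b x) := b.hasCompactSupport
  obtain ⟨L0, hL0⟩ := hfc.bounded_above_of_compact_support (hcs.fderiv ℝ)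
  have hdiff : Differentiable ℝ (fun x => b x) := hsm.differentiable (by simp)
  have hL : ∀ x, ‖fderiv ℝ (fun x => b x) x‖ ≤ max L0 1 := fun x => (hL0 x).trans (le_max_left _ _)
  have htsupp : tsupport (fun x => b x) = closedBall 0 (3 / 4) := by
    have := b.tsupport_eq
    rw [hb2] at this
    exact this
  refine ⟨fun x => b x, max L0 1, ?_⟩
  refine ⟨hsm, fun x => b.nonneg, fun x => b.le_one, ?_, ?_, ?_, ?_, ?_, le_max_right _ _⟩
  · intro x hx
    refine b.one_of_mem_closedBall ?_
    rw [hb1]
    exact ball_subset_closedBall hx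
  · rw [htsupp]
    exact closedBall_subset_ball (by norm_num)
  · intro x y
    have h1 := Convex.norm_image_sub_le_of_norm_fderiv_le (𝕜 := ℝ) (f := fun x => b x)
      (s := univ) (C := max L0 1) (x := y) (y := x)
      (fun z _ => hdiff z) (fun z _ => hL z) convex_univ (mem_univ _) (mem_univ _)
    rwa [Real.norm_eq_abs] at h1
  · intro x h
    have h1 := (fderiv ℝ (fun x => b x) x).le_opNorm h
    rw [Real.norm_eq_abs] at h1
    exact h1.trans (mul_le_mul_of_nonneg_right (hL x) (norm_nonneg h))
  · intro x hx
    rw [Set.mem_sdiff, not_and_or, not_not] at hx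
    rcases hx with h1 | h1
    · refine image_eq_zero_of_notMem_tsupport (f := fderiv ℝ (fun x => b x)) ?_
      intro h2
      have h3 : x ∈ tsupport (fun x => b x) := tsupport_fderiv_subset ℝ h2
      rw [htsupp] at h3
      exact h1 (closedBall_subset_ball (by norm_num) h3)
    · have h2 : (fun x => b x) =ᶠ[𝓝 x] fun _ => (1 : ℝ) := by
        filter_upwards [isOpen_ball.mem_nhds h1] with y hy
        refine b.one_of_mem_closedBall ?_
        rw [hb1]
        exact ball_subset_closedBall hy
      rw [h2.fderiv_eq]
      simp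

end H60NH
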