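import Mathlib

/-!
MP_d943ab_an (weakly n-harmonic maps into compact manifolds, n = 3, 4): definitions.
-/

set_option autoImplicit false

namespace H60NH

open MeasureTheory Metric Set Filter Topology
open scoped ENNReal NNReal ContDiff

/-- Euclidean space `R^n`. -/
abbrev E (n : ℕ) := EuclideanSpace ℝ (Fin n)

/-- The standard basis vectors of `R^n`. -/
noncomputable def ev {n : ℕ} (i : Fin n) : E n := EuclideanSpace.single i (1 : ℝ)

/-- The norm `|a| = (sum_i |a_i|^2)^(1/2)` of a gradient `a = (a_1, ..., a_n)`, `a_i ∈ R^m`. -/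
noncomputable def gn {n m : ℕ} (a : Fin n → E m) : ℝ := Real.sqrt (∑ i, ‖a i‖ ^ 2)

/-- `N` is a compact subset of `R^m` with a smooth nearest point projection `π` defined on its
`δ`-neighbourhood (the compact smooth submanifolds without boundary of `R^m` are such sets). -/
structure IsTarget {m : ℕ} (N : Set (E m)) (δ : ℝ) (π : E m → E m) : Prop where
  compact : IsCompact N
  nonempty : N.Nonempty
  pos : 0 < δ
  mem : ∀ y, infDist y N < δ → π y ∈ N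
  dist_eq : ∀ y, infDist y N < δ → dist y (π y) = infDist y N
  smooth : ContDiffOn ℝ ∞ π {y | infDist y N < δ}

/-- `v ∈ W^{1,n}(Ω, R^m)` with weak partial derivatives `G x i` (`i = 1..n`). -/
structure IsWeakGrad {n m : ℕ} (Ω : Set (E n)) (v : E n → E m) (G : E n → Fin n → E m) :
    Prop where
  mem_v : MemLp v n (volume.restrict Ω)
  mem_G : ∀ i, MemLp (fun x => G x i) n (volume.restrict Ω)
  eq : ∀ ψ : E n → ℝ, ContDiff ℝ ∞ ψ → HasCompactSupport ψ → tsupport ψ ⊆ Ω → ∀ i,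
    ∫ x in Ω, (fderiv ℝ ψ x (ev i)) • v x = - ∫ x in Ω, ψ x • G x i

open Classical in
/-- The `n`-energy `E_n[v] = (1/n) ∫_Ω |∇v|^n` of `v ∈ W^{1,n}(Ω, R^m)`
(and `0` if `v` is not in this space). -/
noncomputable def energy {n m : ℕ} (Ω : Set (E n)) (v : E n → E m) : ℝ :=
  if h : ∃ G : E n → Fin n → E m, IsWeakGrad Ω v G then
    (1 / (n : ℝ)) * ∫ x in Ω, gn (h.choose x) ^ n
  else 0

/-- `u ∈ W^{1,n}(B^n, N)` is weakly `n`-harmonic: `E_n` is stationary at `u` along the variations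
`π ∘ (u + t φ)` for all smooth `φ` with compact support in the unit ball. -/
structure IsWeaklyNHarmonic {n m : ℕ} (N : Set (E m)) (π : E m → E m) (u : E n → E m) :
    Prop where
  sobolev : ∃ G : E n → Fin n → E m, IsWeakGrad (ball 0 1) u G
  mem : ∀ᵐ x ∂(volume.restrict (ball (0 : E n) 1)), u x ∈ N
  crit : ∀ φ : E n → E m, ContDiff ℝ ∞ φ → HasCompactSupport φ → tsupport φ ⊆ ball 0 1 →
    HasDerivAt (fun t : ℝ => energy (ball (0 : E n) 1) (fun x => π (u x + t • φ x))) 0 0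

/-- Second derivative of `π` at `y` as a bilinear map. -/
noncomputable def D2 {m : ℕ} (π : E m → E m) (y : E m) : E m →L[ℝ] E m →L[ℝ] E m :=
  fderiv ℝ (fderiv ℝ π) y

/-- Area of the parallelogram. -/
noncomputable def wedge {m : ℕ} (a b : E m) : ℝ :=
  Real.sqrt (‖a‖ ^ 2 * ‖b‖ ^ 2 - (inner ℝ a b) ^ 2)

/-- Length of the component of `(a, 0)` orthogonal to the unit vector
`(b, sqrt (1 - |b|^2))` of `R^{m+1}`. -/
noncomputable def perp {m : ℕ} (a b : E m) : ℝ :=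
  Real.sqrt (‖a‖ ^ 2 - (inner ℝ a b) ^ 2)

/-- All facts on the target that are used later. -/
structure TC {m : ℕ} (N : Set (E m)) (π : E m → E m) (δ C : ℝ) : Prop where
  compact : IsCompact N
  nonempty : N.Nonempty
  pos : 0 < δ
  one_le : 1 ≤ C
  smooth : ContDiffOn ℝ ∞ π {y | infDist y N < 4 * δ}
  mem : ∀ y, infDist y N < 4 * δ → π y ∈ N
  dist_eq : ∀ y, infDist y N < 4 * δ → ‖y - π y‖ = infDist y N
  fixed : ∀ y ∈ N, π y = y
  /-- `Dπ(y)` is symmetric. -/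
  symm1 : ∀ y, infDist y N < 4 * δ → ∀ a b, inner ℝ (fderiv ℝ π y a) b = inner ℝ a (fderiv ℝ π y b)
  /-- `Dπ(π(y)) Dπ(y) = Dπ(y)`. -/
  idem : ∀ y, infDist y N < 4 * δ → ∀ a, fderiv ℝ π (π y) (fderiv ℝ π y a) = fderiv ℝ π y a
  symm2 : ∀ y, infDist y N < 4 * δ → ∀ a b, D2 π y a b = D2 π y b a
  symm3 : ∀ y, infDist y N < 4 * δ → ∀ a b c, inner ℝ (D2 π y a b) c = inner ℝ b (D2 π y a c)
  /-- derivative of `Dπ(P)^2 = Dπ(P)` along a tangent vector. -/
  idem2 : ∀ y ∈ N, ∀ a b, fderiv ℝ π y a = a →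
    D2 π y a (fderiv ℝ π y b) + fderiv ℝ π y (D2 π y a b) = D2 π y a b
  bd1 : ∀ y, infDist y N < 4 * δ → ‖fderiv ℝ π y‖ ≤ C
  bd2 : ∀ y, infDist y N < 4 * δ → ‖D2 π y‖ ≤ C
  lip0 : ∀ y y', infDist y N < 2 * δ → ‖y - y'‖ < 2 * δ → ‖π y - π y'‖ ≤ C * ‖y - y'‖
  lip1 : ∀ y y', infDist y N < 2 * δ → ‖y - y'‖ < 2 * δ →
    ‖fderiv ℝ π y - fderiv ℝ π y'‖ ≤ C * ‖y - y'‖
  lip2 : ∀ y y', infDist y N < 2 * δ → ‖y - y'‖ < 2 * δ →
    ‖D2 π y - D2 π y'‖ ≤ C * ‖y - y'‖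
  bdN : ∀ y ∈ N, ‖y‖ ≤ C

/-- Solutions on the ball of radius `R`: measurable, in `W^{1,n}`, with values in `N`, with tangent
derivatives, satisfying the Euler-Lagrange system tested with `C^1` maps of compact support; both
maps are set to zero outside the ball. -/
structure Sol {n m : ℕ} (N : Set (E m)) (π : E m → E m) (R : ℝ)
    (u : E n → E m) (G : E n → Fin n → E m) : Prop where
  meas_u : Measurable u
  meas_G : ∀ i, Measurable (fun x => G x i)
  wg : IsWeakGrad (ball 0 R) u G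
  memN : ∀ᵐ x ∂(volume.restrict (ball (0 : E n) R)), u x ∈ N
  tan : ∀ᵐ x ∂(volume.restrict (ball (0 : E n) R)), ∀ i, fderiv ℝ π (u x) (G x i) = G x i
  out_u : ∀ x, x ∉ ball (0 : E n) R → u x = 0
  out_G : ∀ x, x ∉ ball (0 : E n) R → ∀ i, G x i = 0
  el : ∀ Y : E n → E m, ContDiff ℝ 1 Y → HasCompactSupport Y → tsupport Y ⊆ ball 0 R →
    ∫ x, gn (G x) ^ (n - 2) * (∑ i, (inner ℝ (G x i) (fderiv ℝ Y x (ev i))
      + inner ℝ (D2 π (u x) (G x i) (G x i)) (Y x))) = 0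

/-- `2^k` as a real number. -/
noncomputable def p2 (k : ℕ) : ℝ := (2 : ℝ) ^ k

/-- Averaged gradient at scale `2^-k`: `2^{k(n-1)} ∫_{B(x, 8 2^-k)} f`. -/
noncomputable def AA {n : ℕ} (f : E n → ℝ) (k : ℕ) (x : E n) : ℝ :=
  p2 k ^ (n - 1) * ∫ y in ball x (8 / p2 k), f y

/-- The same with the ball of radius `4 2^-k`. -/
noncomputable def aa {n : ℕ} (f : E n → ℝ) (k : ℕ) (x : E n) : ℝ :=
  p2 k ^ (n - 1) * ∫ y in ball x (4 / p2 k), f y

/-- `N_k(x) = sum_{k <= j < K} A_j(x)`. -/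
noncomputable def NN {n : ℕ} (f : E n → ℝ) (K k : ℕ) (x : E n) : ℝ :=
  ∑ j ∈ Finset.Ico k K, AA f j x

/-- `N_0(x) = sum_{j >= 0} A_j(x)`, possibly infinite. -/
noncomputable def Ninf {n : ℕ} (f : E n → ℝ) (x : E n) : ℝ≥0∞ :=
  ∑' j : ℕ, ENNReal.ofReal (AA f j x)

/-- Nonnegative, measurable, in `L^n`, vanishing outside the ball of radius 64, with the Morrey
bound `∫_{B(y,r)} f <= ε r^{n-1}`. -/
structure Mor {n : ℕ} (f : E n → ℝ) (ε : ℝ) : Prop where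
  meas : Measurable f
  nonneg : ∀ x, 0 ≤ f x
  int : Integrable f
  intn : Integrable (fun x => f x ^ n)
  supp : ∀ x, x ∉ ball (0 : E n) 64 → f x = 0
  eps : 0 ≤ ε
  bound : ∀ y : E n, ∀ r : ℝ, 0 < r → ∫ x in ball y r, f x ≤ ε * r ^ (n - 1)

end H60NH
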