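import Pool.Agent.H60.NH.Def

/-!
Definitions for the gauge (one step of the transport along the segment from `U` to `W`).
-/

set_option autoImplicit false

namespace H60NH

open MeasureTheory Metric Set Filter Topology
open scoped ENNReal NNReal ContDiff

/-- The antisymmetric source of the error. -/
noncomputable def Om {m : ℕ} (π : E m → E m) (P z p B : E m) : E m :=
  (inner ℝ p B) • z - (inner ℝ z B) • p + D2 π P z (D2 π P p B) - D2 π P p (D2 π P z B)

/-- The segment from `U x` to `W x`. -/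
noncomputable def gam {n m : ℕ} (U W : E n → E m) (x : E n) (s : ℝ) : E m :=
  U x + s • (W x - U x)

/-- The velocity of `π` of the segment. -/
noncomputable def zz {n m : ℕ} (π : E m → E m) (U W : E n → E m) (x : E n) (s : ℝ) : E m :=
  fderiv ℝ π (gam U W x s) (W x - U x)

/-- The derivative in the direction `h` of `x ↦ π (gam x s)`. -/
noncomputable def pp {n m : ℕ} (π : E m → E m) (U W : E n → E m) (x h : E n) (s : ℝ) : E m :=
  fderiv ℝ π (gam U W x s) (fderiv ℝ U x h + s • (fderiv ℝ W x h - fderiv ℝ U x h))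

/-- The coefficient of the linear ODE: `(B, μ) ↦ (μ z + D2 π P z B, <z, B>)`. -/
noncomputable def MM {m : ℕ} (π : E m → E m) (P z : E m) : (E m × ℝ) →L[ℝ] (E m × ℝ) :=
  (((D2 π P z).comp (ContinuousLinearMap.fst ℝ (E m) ℝ)) +
    (ContinuousLinearMap.snd ℝ (E m) ℝ).smulRight z).prod
    ((innerSL ℝ z).comp (ContinuousLinearMap.fst ℝ (E m) ℝ))

/-- The gauge `(B, μ)` over the map `U` on the open set `Ω`. -/
structure Gauge {n m : ℕ} (π : E m → E m) (Ω : Set (E n)) (U : E n → E m)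
    (B : E n → E m) (μ : E n → ℝ) : Prop where
  cB : ContDiffOn ℝ 1 B Ω
  cμ : ContDiffOn ℝ 1 μ Ω
  tan : ∀ x ∈ Ω, fderiv ℝ π (π (U x)) (B x) = B x
  norm : ∀ x ∈ Ω, μ x ^ 2 = 1 + ‖B x‖ ^ 2
  pos : ∀ x ∈ Ω, 0 < μ x

/-- The derivative of `π ∘ U` at `x` in the direction `h`. -/
noncomputable def pU {n m : ℕ} (π : E m → E m) (U : E n → E m) (x h : E n) : E m :=
  fderiv ℝ (fun y => π (U y)) x h

noncomputable def calE {n m : ℕ} (π : E m → E m) (U B : E n → E m) (μ : E n → ℝ) (x h : E n) :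
    E m :=
  fderiv ℝ B x h - μ x • pU π U x h - D2 π (π (U x)) (pU π U x h) (B x)

noncomputable def cale {n m : ℕ} (π : E m → E m) (U B : E n → E m) (μ : E n → ℝ) (x h : E n) : ℝ :=
  fderiv ℝ μ x h - inner ℝ (pU π U x h) (B x)

/-- The size of the error, relative to `μ`. -/
noncomputable def rr {n m : ℕ} (π : E m → E m) (U B : E n → E m) (μ : E n → ℝ) (x h : E n) : ℝ :=
  (‖calE π U B μ x h‖ + |cale π U B μ x h|) / μ x

/-- The conclusion of one transport step. -/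
def StepOK {n m : ℕ} (π : E m → E m) (C₁ : ℝ) (Ω : Set (E n)) (U W B₀ B₁ : E n → E m)
    (μ₀ μ₁ : E n → ℝ) : Prop :=
  ∀ x ∈ Ω, ‖B₁ x - B₀ x‖ ≤ C₁ * ‖W x - U x‖ * μ₀ x ∧
    |μ₁ x - μ₀ x| ≤ C₁ * ‖W x - U x‖ * μ₀ x ∧
    ∀ (h : E n) (S : ℝ), (∀ s ∈ Icc (0:ℝ) 1, wedge (zz π U W x s) (pp π U W x h s) ≤ S) →
      rr π W B₁ μ₁ x h ≤ Real.exp (C₁ * ‖W x - U x‖) * (rr π U B₀ μ₀ x h + C₁ * S)

end H60NH
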