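import Pool.Agent.H60.NH.Def2

/-!
Definitions: mollification, gauge data over the mollified maps.
-/

set_option autoImplicit false

namespace H60NH

open MeasureTheory Metric Set Filter Topology
open scoped ENNReal NNReal ContDiff

/-- A mollifier `φ` supported in `|x| <= 1/2` and a vector field `Θ` with
`div Θ (x) = 2^n φ(2x) - φ(x)`. -/
structure Moll {n : ℕ} (φ : E n → ℝ) (Θ : Fin n → E n → ℝ) (M : ℝ) : Prop where
  smooth : ContDiff ℝ ∞ φ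
  nonneg : ∀ x, 0 ≤ φ x
  int : ∫ x, φ x = 1
  supp : ∀ x, 1 / 2 ≤ ‖x‖ → φ x = 0
  smoothT : ∀ j, ContDiff ℝ ∞ (Θ j)
  suppT : ∀ j x, 1 / 2 ≤ ‖x‖ → Θ j x = 0
  div : ∀ x, ∑ j, fderiv ℝ (Θ j) x (ev j) = 2 ^ n * φ ((2:ℝ) • x) - φ x
  bd : ∀ x, |φ x| ≤ M
  bdT : ∀ j x, |Θ j x| ≤ M
  one_le : 1 ≤ M

/-- The mollification of `u` at scale `2^-k`. -/
noncomputable def ubar {n m : ℕ} (φ : E n → ℝ) (u : E n → E m) (k : ℕ) (x : E n) : E m :=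
  ∫ y, (p2 k ^ n * φ (p2 k • (x - y))) • u y

/-- The field `b = B/μ`. -/
noncomputable def nb {n m : ℕ} (B : E n → E m) (μ : E n → ℝ) (x : E n) : E m := (μ x)⁻¹ • B x

/-- `|∂u_⊥|` : the length of the part of the gradient orthogonal to `(b, β)`, on the ball of
radius 4, and zero outside this ball. -/
noncomputable def PG {n m : ℕ} (G : E n → Fin n → E m) (b : E n → E m) (x : E n) : ℝ :=
  (ball (0 : E n) 4).indicator (fun y => Real.sqrt (∑ i, perp (G y i) (b y) ^ 2)) x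

/-- The bound for the error of the gauge. -/
noncomputable def TT {n : ℕ} (f pg : E n → ℝ) (ε c : ℝ) (K : ℕ) (x : E n) : ℝ :=
  ε * AA f 0 x * Real.exp (c * NN f K 0 x) +
    ∑ k ∈ Finset.range K, Real.exp (c * NN f K k x) * aa f k x *
      (p2 k ^ n * ∫ y in ball x (1 / p2 k), (pg y + f y * (ε + NN f K k y)))

/-- Gauges over the mollified maps `ubar φ u k` on the ball of radius 4, with the basic bounds;
`f = |∇u|`. -/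
structure GD {n m : ℕ} (N : Set (E m)) (π : E m → E m) (δ : ℝ) (φ : E n → ℝ) (u : E n → E m)
    (f : E n → ℝ) (ε C₂ : ℝ) (B : ℕ → E n → E m) (μ : ℕ → E n → ℝ) : Prop where
  one_le : 1 ≤ C₂
  gauge : ∀ k, Gauge π (ball 0 4) (ubar φ u k) (B k) (μ k)
  step : ∀ k, StepOK π C₂ (ball 0 4) (ubar φ u k) (ubar φ u (k + 1)) (B k) (B (k + 1))
    (μ k) (μ (k + 1))
  smooth : ∀ k, ContDiff ℝ ∞ (ubar φ u k)
  tube : ∀ k, ∀ x ∈ ball (0 : E n) 4, infDist (ubar φ u k x) N ≤ C₂ * aa f k x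
  tube' : ∀ k, ∀ x ∈ ball (0 : E n) 4, infDist (ubar φ u k x) N < δ
  dif : ∀ k, ∀ x ∈ ball (0 : E n) 4, ‖ubar φ u (k + 1) x - ubar φ u k x‖ ≤ C₂ * aa f k x
  dif' : ∀ k, ∀ x ∈ ball (0 : E n) 4, C₂ * ‖ubar φ u (k + 1) x - ubar φ u k x‖ ≤ 1 / 2
  dif'' : ∀ k, ∀ x ∈ ball (0 : E n) 4, ‖ubar φ u (k + 1) x - ubar φ u k x‖ < δ
  der : ∀ k, ∀ x ∈ ball (0 : E n) 4, ∀ i,
    ‖fderiv ℝ (ubar φ u k) x (ev i)‖ ≤ C₂ * p2 k * aa f k x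
  init_b : ∀ x ∈ ball (0 : E n) 2, ‖nb (B 0) (μ 0) x‖ ≤ C₂ * AA f 0 x
  init_r : ∀ x ∈ ball (0 : E n) 4, ∀ i,
    rr π (ubar φ u 0) (B 0) (μ 0) x (ev i) ≤ C₂ * ε * AA f 0 x

/-- A cutoff function: `1` on `B_{1/2}`, supported in `B_1`. -/
structure Cut {n : ℕ} (χ : E n → ℝ) (L : ℝ) : Prop where
  smooth : ContDiff ℝ ∞ χ
  nonneg : ∀ x, 0 ≤ χ x
  le_one : ∀ x, χ x ≤ 1
  one : ∀ x ∈ ball (0 : E n) (1 / 2), χ x = 1
  supp : tsupport χ ⊆ ball (0 : E n) 1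
  lip : ∀ x y, |χ x - χ y| ≤ L * ‖x - y‖
  der : ∀ x h, |fderiv ℝ χ x h| ≤ L * ‖h‖
  der0 : ∀ x, x ∉ ball (0 : E n) 1 \ ball (0 : E n) (1 / 2) → fderiv ℝ χ x = 0
  one_le : 1 ≤ L

/-- The exponent `s = n - 1/2`. -/
noncomputable def sn (n : ℕ) : ℝ := (n : ℝ) - 1 / 2

/-- `(∫ f^s)^(1/s)`. -/
noncomputable def As {n : ℕ} (f : E n → ℝ) : ℝ := (∫ x, f x ^ sn n) ^ (1 / sn n)

/-- The scale invariant quantity `ρ^(-1/2) ∫_{B(y,ρ)} f^(n-1/2)`. -/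
noncomputable def xs {n : ℕ} (f : E n → ℝ) (y : E n) (ρ : ℝ) : ℝ :=
  (∫ x in ball y ρ, f x ^ sn n) / Real.sqrt ρ

end H60NH
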