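import Pool.Agent.H60.NH.Def3

/-!
Definitions: rescaled maps.
-/

set_option autoImplicit false

namespace H60NH

open MeasureTheory Metric Set Filter Topology
open scoped ENNReal NNReal ContDiff

/-- `u(x₀ + ρ x)` on the ball of radius 64. -/
noncomputable def scU {n m : ℕ} (u : E n → E m) (x₀ : E n) (ρ : ℝ) (x : E n) : E m :=
  (ball (0 : E n) 64).indicator (fun y => u (x₀ + ρ • y)) x

/-- `ρ G(x₀ + ρ x)` on the ball of radius 64. -/
noncomputable def scG {n m : ℕ} (G : E n → Fin n → E m) (x₀ : E n) (ρ : ℝ) (x : E n)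
    (i : Fin n) : E m :=
  (ball (0 : E n) 64).indicator (fun y => ρ • G (x₀ + ρ • y) i) x

/-- `ρ f(x₀ + ρ x)` on the ball of radius 64. -/
noncomputable def scF {n : ℕ} (f : E n → ℝ) (x₀ : E n) (ρ : ℝ) (x : E n) : ℝ :=
  (ball (0 : E n) 64).indicator (fun y => ρ * f (x₀ + ρ • y)) x

/-- The good set at the scale `r`, in the original coordinates. -/
def goodS {n : ℕ} (f : E n → ℝ) (x₀ : E n) (r c₀ : ℝ) : Set (E n) :=
  {z | Ninf (scF f x₀ r) (r⁻¹ • (z - x₀)) ≤ ENNReal.ofReal c₀}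

/-- The base functions: `f = |∇u|` on the unit ball. -/
structure Base {n : ℕ} (f : E n → ℝ) : Prop where
  meas : Measurable f
  nonneg : ∀ x, 0 ≤ f x
  int : Integrable f
  intn : Integrable (fun x => f x ^ n)
  supp : ∀ x, x ∉ ball (0 : E n) 1 → f x = 0

end H60NH
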