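import Pool.Agent.H60.NH.Def
import Pool.Agent.H60.NH.MConv

/-!
# [H60 NH EC1] From smooth to `C^1` test maps

Let `Y` be `C^1` with compact support in `ball 0 1`. `Y_k = ubar φ Y k` (`exists_moll`; `ubar` of an integrable map) is
smooth, supported in `{x : dist(x, tsupport Y) <= 1/p2 k}`, a compact subset of `ball 0 1` for large `k`, and
`Y_k → Y`, `fderiv Y_k → fderiv Y` uniformly (uniform continuity of `Y`, `DY`; `fderiv (ubar Y) = ` the average
of `fderiv Y`: `HasCompactSupport.hasFDerivAt_convolution..` or differentiate under the integral after the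
substitution `ubar φ Y k x = ∫ φ(y) Y(x - (p2 k)⁻¹ y) dy`). The integrand for `Y_k - Y` is bounded by
`C gn(G)^(n-1) sup‖D(Y_k - Y)‖ + C gn(G)^n sup‖Y_k - Y‖` a.e. in the ball, so the integrals converge.
-/

set_option autoImplicit false

namespace H60NH

open MeasureTheory Metric Set Filter Topology
open scoped ENNReal NNReal ContDiff

private theorem ec1_D2 {n m : ℕ} {N : Set (E m)} {π : E m → E m} {δ C : ℝ}
    (hT : TC N π δ C) {μ : Measure (E n)} {u : E n → E m} (hum : AEStronglyMeasurable u μ)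
    (hu : ∀ᵐ x ∂μ, u x ∈ N) : AEStronglyMeasurable (fun x => D2 π (u x)) μ := by
  have hopen : IsOpen {y : E m | infDist y N < 4 * δ} :=
    isOpen_lt (continuous_infDist_pt N) continuous_const
  have hc : ContinuousOn (D2 π) {y : E m | infDist y N < 4 * δ} := by
    have h1 : ContDiffOn ℝ 1 (fderiv ℝ π) {y : E m | infDist y N < 4 * δ} :=
      hT.smooth.fderiv_of_isOpen (m := 1) hopen (by
        rw [one_add_one_eq_two]
        exact WithTop.coe_le_coe.2 le_top)
    exact (h1.fderiv_of_isOpen (m := 0) hopen (by norm_num)).continuousOn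
  have hm : Measurable ({y : E m | infDist y N < 4 * δ}.indicator (D2 π)) := by
    classical
    rw [← Set.piecewise_eq_indicator]
    exact ContinuousOn.measurable_piecewise hc continuousOn_const hopen.measurableSet
  have h1 : AEStronglyMeasurable
      (fun x => {y : E m | infDist y N < 4 * δ}.indicator (D2 π) (u x)) μ :=
    (hm.comp_aemeasurable hum.aemeasurable).aestronglyMeasurable
  refine h1.congr ?_
  filter_upwards [hu] with x hx
  rw [Set.indicator_of_mem]
  show infDist (u x) N < 4 * δ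
  rw [infDist_zero_of_mem hx]
  linarith [hT.pos]

theorem el_C1 {n m : ℕ} (hn : 2 ≤ n) {N : Set (E m)} {π : E m → E m} {δ C : ℝ}
    (hT : TC N π δ C) {u : E n → E m} {G : E n → Fin n → E m} (h : IsWeakGrad (ball 0 1) u G)
    (hu : ∀ᵐ x ∂(volume.restrict (ball (0 : E n) 1)), u x ∈ N)
    (hs : ∀ φ : E n → E m, ContDiff ℝ ∞ φ → HasCompactSupport φ → tsupport φ ⊆ ball 0 1 →
      ∫ x in ball (0 : E n) 1, gn (G x) ^ (n - 2) * (∑ i, (inner ℝ (G x i) (fderiv ℝ φ x (ev i))
        + inner ℝ (D2 π (u x) (G x i) (G x i)) (φ x))) = 0)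
    (Y : E n → E m) (hY : ContDiff ℝ 1 Y) (hYc : HasCompactSupport Y)
    (hYs : tsupport Y ⊆ ball 0 1) :
    ∫ x in ball (0 : E n) 1, gn (G x) ^ (n - 2) * (∑ i, (inner ℝ (G x i) (fderiv ℝ Y x (ev i))
        + inner ℝ (D2 π (u x) (G x i) (G x i)) (Y x))) = 0 := by
  -- the mollifiers
  let φ : ℕ → ContDiffBump (0 : E n) := fun k =>
    { rIn := 1 / (2 * ((k : ℝ) + 1))
      rOut := 1 / ((k : ℝ) + 1)
      rIn_pos := by positivity
      rIn_lt_rOut := by
        apply one_div_lt_one_div_of_lt (by positivity)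
        have : (0 : ℝ) < (k : ℝ) + 1 := by positivity
        linarith }
  have hφ : Tendsto (fun k => (φ k).rOut) atTop (𝓝 0) := tendsto_one_div_add_atTop_nhds_zero_nat
  let Z : ℕ → E n → E m := fun k =>
    MeasureTheory.convolution ((φ k).normed volume) Y (ContinuousLinearMap.lsmul ℝ ℝ) volume
  have hYcont : Continuous Y := hY.continuous
  have hdY : Continuous (fderiv ℝ Y) := hY.continuous_fderiv one_ne_zero
  have hdYc : HasCompactSupport (fderiv ℝ Y) := hYc.fderiv ℝ
  have hYint : Integrable Y := hYcont.integrable_of_hasCompactSupport hYc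
  have hZs : ∀ k, ContDiff ℝ ∞ (Z k) := fun k =>
    (φ k).hasCompactSupport_normed.contDiff_convolution_left _ ((φ k).contDiff_normed)
      hYint.locallyIntegrable
  have hφl : ∀ k, LocallyIntegrable ((φ k).normed (volume : Measure (E n))) volume := fun k =>
    (φ k).integrable_normed.locallyIntegrable
  have hZd : ∀ k x h, fderiv ℝ (Z k) x h = MeasureTheory.convolution ((φ k).normed volume)
      (fun a => fderiv ℝ Y a h) (ContinuousLinearMap.lsmul ℝ ℝ) volume x := by
    intro k x h
    have h1 := hYc.hasFDerivAt_convolution_right (μ := (volume : Measure (E n)))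
      (ContinuousLinearMap.lsmul ℝ ℝ) (hφl k) hY x
    rw [h1.fderiv]
    exact convolution_precompR_apply (ContinuousLinearMap.lsmul ℝ ℝ) (hφl k) hdYc hdY x h
  -- pointwise convergence
  have hZt : ∀ x, Tendsto (fun k => Z k x) atTop (𝓝 (Y x)) := fun x =>
    ContDiffBump.convolution_tendsto_right_of_continuous hφ hYcont x
  have hdZt : ∀ x h, Tendsto (fun k => fderiv ℝ (Z k) x h) atTop (𝓝 (fderiv ℝ Y x h)) := by
    intro x h
    simp_rw [hZd]
    exact ContDiffBump.convolution_tendsto_right_of_continuous hφ (hdY.clm_apply continuous_const) x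
  -- bounds
  obtain ⟨A₀, hA₀⟩ := hYc.exists_bound_of_continuous hYcont
  obtain ⟨A₁, hA₁⟩ := hdYc.exists_bound_of_continuous hdY
  have hA₀0 : 0 ≤ A₀ := (norm_nonneg _).trans (hA₀ 0)
  have hA₁0 : 0 ≤ A₁ := (norm_nonneg _).trans (hA₁ 0)
  have hZb : ∀ k x, ‖Z k x‖ ≤ A₀ := by
    intro k x
    have h1 := dist_convolution_le (μ := (volume : Measure (E n))) (x₀ := x) (z₀ := (0 : E m))
      (g := Y) (f := (φ k).normed volume) (R := (φ k).rOut) hA₀0
      ((φ k).support_normed_eq).subset (φ k).nonneg_normed (φ k).integral_normed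
      hYcont.aestronglyMeasurable (fun z _ => by
        rw [dist_zero_right]
        exact hA₀ z)
    rw [dist_zero_right] at h1
    exact h1
  have hdZb : ∀ k x i, ‖fderiv ℝ (Z k) x (ev i)‖ ≤ A₁ := by
    intro k x i
    have hev : ‖(ev i : E n)‖ = 1 := by
      unfold ev
      rw [EuclideanSpace.norm_single, norm_one]
    have h1 := dist_convolution_le (μ := (volume : Measure (E n))) (x₀ := x) (z₀ := (0 : E m))
      (g := fun a => fderiv ℝ Y a (ev i)) (f := (φ k).normed volume) (R := (φ k).rOut) hA₁0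
      ((φ k).support_normed_eq).subset (φ k).nonneg_normed (φ k).integral_normed
      (hdY.clm_apply continuous_const).aestronglyMeasurable (fun z _ => by
        rw [dist_zero_right]
        have h2 := (fderiv ℝ Y z).le_opNorm (ev i)
        rw [hev, mul_one] at h2
        exact h2.trans (hA₁ z))
    rw [dist_zero_right, ← hZd] at h1
    exact h1
  -- supports
  obtain ⟨ρ, hρ, hρs⟩ := IsCompact.exists_cthickening_subset_open hYc isOpen_ball hYs
  have hsupp : ∀ k, (φ k).rOut ≤ ρ → HasCompactSupport (Z k) ∧ tsupport (Z k) ⊆ ball 0 1 := by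
    intro k hk
    have h1 : Function.support (Z k) ⊆ Metric.cthickening ρ (tsupport Y) := by
      refine (support_convolution_subset _).trans ?_
      rintro _ ⟨a, ha, b, hb, rfl⟩
      have ha' : ‖a‖ < (φ k).rOut := by
        rw [(φ k).support_normed_eq] at ha
        exact mem_ball_zero_iff.1 ha
      refine Metric.mem_cthickening_of_dist_le (a + b) b ρ _ (subset_tsupport Y hb) ?_
      rw [dist_eq_norm, add_sub_cancel_right]
      exact ha'.le.trans hk
    have h2 : tsupport (Z k) ⊆ Metric.cthickening ρ (tsupport Y) :=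
      closure_minimal h1 Metric.isClosed_cthickening
    refine ⟨?_, h2.trans hρs⟩
    exact IsCompact.of_isClosed_subset
      (Metric.isCompact_of_isClosed_isBounded Metric.isClosed_cthickening
        ((Metric.isBounded_ball).subset hρs)) (isClosed_tsupport _) h2
  -- the integrands
  set μ := volume.restrict (ball (0 : E n) 1) with hμ
  haveI : IsFiniteMeasure μ := ⟨by
    rw [hμ, Measure.restrict_apply_univ]
    exact measure_ball_lt_top⟩
  have hGm : ∀ i, AEStronglyMeasurable (fun x => G x i) μ := fun i =>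
    (h.mem_G i).aestronglyMeasurable
  have hgm : AEStronglyMeasurable (fun x => gn (G x)) μ := by
    unfold gn
    refine Real.continuous_sqrt.comp_aestronglyMeasurable ?_
    exact Finset.aestronglyMeasurable_fun_sum _ fun i _ => (hGm i).norm.pow 2
  have hDm : AEStronglyMeasurable (fun x => D2 π (u x)) μ :=
    ec1_D2 hT h.mem_v.aestronglyMeasurable hu
  have hFm : ∀ k, AEStronglyMeasurable (fun x => gn (G x) ^ (n - 2) *
      (∑ i, (inner ℝ (G x i) (fderiv ℝ (Z k) x (ev i))
        + inner ℝ (D2 π (u x) (G x i) (G x i)) (Z k x)))) μ := by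
    intro k
    have hdc : Continuous (fderiv ℝ (Z k)) := (hZs k).continuous_fderiv (by simp)
    refine (hgm.pow _).mul (Finset.aestronglyMeasurable_fun_sum _ fun i _ => ?_)
    refine ((hGm i).inner (hdc.clm_apply continuous_const).aestronglyMeasurable).add ?_
    refine AEStronglyMeasurable.inner ?_ (hZs k).continuous.aestronglyMeasurable
    have hc1 : Continuous (Function.uncurry
        fun (T : E m →L[ℝ] E m →L[ℝ] E m) (v : E m) => T v) :=
      isBoundedBilinearMap_apply.continuous
    have hc2 : Continuous (Function.uncurry fun (T : E m →L[ℝ] E m) (v : E m) => T v) :=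
      isBoundedBilinearMap_apply.continuous
    exact hc2.comp_aestronglyMeasurable₂ (hc1.comp_aestronglyMeasurable₂ hDm (hGm i)) (hGm i)
  have hgn0 : ∀ x, 0 ≤ gn (G x) := fun x => Real.sqrt_nonneg _
  have hGi : ∀ x i, ‖G x i‖ ≤ gn (G x) := by
    intro x i
    refine Real.le_sqrt_of_sq_le ?_
    exact Finset.single_le_sum (f := fun i => ‖G x i‖ ^ 2) (fun i _ => sq_nonneg _)
      (Finset.mem_univ i)
  have hgint : Integrable (fun x => gn (G x) ^ n) μ := by
    have h1 : Integrable (fun x => (∑ i, ‖G x i‖) ^ n) μ := by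
      have h2 : MemLp (fun x => ∑ i, ‖G x i‖) n μ :=
        memLp_finset_sum _ fun i _ => (h.mem_G i).norm
      have h3 := h2.integrable_norm_pow (by omega)
      refine h3.congr (Eventually.of_forall fun x => ?_)
      show ‖∑ i, ‖G x i‖‖ ^ n = _
      rw [Real.norm_of_nonneg (Finset.sum_nonneg fun i _ => norm_nonneg _)]
    refine h1.mono (hgm.pow n) (Eventually.of_forall fun x => ?_)
    rw [Real.norm_of_nonneg (pow_nonneg (hgn0 x) n), Real.norm_of_nonneg
      (pow_nonneg (Finset.sum_nonneg fun i _ => norm_nonneg _) n)]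
    refine pow_le_pow_left₀ (hgn0 x) ?_ n
    unfold gn
    refine (Real.sqrt_le_left (Finset.sum_nonneg fun i _ => norm_nonneg _)).2 ?_
    exact Finset.sum_sq_le_sq_sum_of_nonneg fun i _ => norm_nonneg _
  have hbound : ∀ k, ∀ᵐ x ∂μ, ‖gn (G x) ^ (n - 2) *
      (∑ i, (inner ℝ (G x i) (fderiv ℝ (Z k) x (ev i))
        + inner ℝ (D2 π (u x) (G x i) (G x i)) (Z k x)))‖ ≤
      n * A₁ * (1 + gn (G x) ^ n) + n * (C * A₀) * gn (G x) ^ n := by
    intro k
    filter_upwards [hu] with x hx
    have hD : ‖D2 π (u x)‖ ≤ C := hT.bd2 _ (by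
      rw [infDist_zero_of_mem hx]
      linarith [hT.pos])
    have hg0 := hgn0 x
    have hterm : ∀ i, |inner ℝ (G x i) (fderiv ℝ (Z k) x (ev i))
        + inner ℝ (D2 π (u x) (G x i) (G x i)) (Z k x)| ≤
        gn (G x) * A₁ + C * gn (G x) ^ 2 * A₀ := by
      intro i
      have h1 : |inner ℝ (G x i) (fderiv ℝ (Z k) x (ev i))| ≤ gn (G x) * A₁ :=
        (abs_real_inner_le_norm _ _).trans
          (mul_le_mul (hGi x i) (hdZb k x i) (norm_nonneg _) hg0)
      have h2 : ‖D2 π (u x) (G x i) (G x i)‖ ≤ C * gn (G x) ^ 2 := by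
        calc ‖D2 π (u x) (G x i) (G x i)‖ ≤ ‖D2 π (u x)‖ * ‖G x i‖ * ‖G x i‖ :=
              (D2 π (u x)).le_opNorm₂ _ _
          _ ≤ C * gn (G x) * gn (G x) := by
            have hC0 : 0 ≤ C := zero_le_one.trans hT.one_le
            gcongr
            · exact hGi x i
            · exact hGi x i
          _ = C * gn (G x) ^ 2 := by ring
      have h3 : |inner ℝ (D2 π (u x) (G x i) (G x i)) (Z k x)| ≤ C * gn (G x) ^ 2 * A₀ :=
        (abs_real_inner_le_norm _ _).trans
          (mul_le_mul h2 (hZb k x) (norm_nonneg _) ((norm_nonneg _).trans h2))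
      exact (abs_add_le _ _).trans (add_le_add h1 h3)
    have hsum : |∑ i, (inner ℝ (G x i) (fderiv ℝ (Z k) x (ev i))
        + inner ℝ (D2 π (u x) (G x i) (G x i)) (Z k x))| ≤
        n * (gn (G x) * A₁ + C * gn (G x) ^ 2 * A₀) := by
      refine (Finset.abs_sum_le_sum_abs _ _).trans ?_
      refine (Finset.sum_le_sum fun i _ => hterm i).trans ?_
      rw [Finset.sum_const, Finset.card_univ, Fintype.card_fin, nsmul_eq_mul]
    rw [Real.norm_eq_abs, abs_mul, abs_of_nonneg (pow_nonneg hg0 _)]
    have hp1 : gn (G x) ^ (n - 2) * gn (G x) ≤ 1 + gn (G x) ^ n := by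
      rw [← pow_succ]
      rcases le_total (gn (G x)) 1 with h1 | h1
      · have h2 : gn (G x) ^ (n - 2 + 1) ≤ 1 := pow_le_one₀ hg0 h1
        have h3 := pow_nonneg hg0 n
        linarith
      · have h2 : gn (G x) ^ (n - 2 + 1) ≤ gn (G x) ^ n := pow_le_pow_right₀ h1 (by omega)
        linarith
    have hp2 : gn (G x) ^ (n - 2) * gn (G x) ^ 2 = gn (G x) ^ n := by
      rw [← pow_add]
      congr 1
      omega
    calc gn (G x) ^ (n - 2) * |∑ i, (inner ℝ (G x i) (fderiv ℝ (Z k) x (ev i))
        + inner ℝ (D2 π (u x) (G x i) (G x i)) (Z k x))| ≤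
        gn (G x) ^ (n - 2) * (n * (gn (G x) * A₁ + C * gn (G x) ^ 2 * A₀)) :=
          mul_le_mul_of_nonneg_left hsum (pow_nonneg hg0 _)
      _ = n * A₁ * (gn (G x) ^ (n - 2) * gn (G x)) +
          n * (C * A₀) * (gn (G x) ^ (n - 2) * gn (G x) ^ 2) := by ring
      _ ≤ _ := by
        rw [hp2]
        have h1 : (0 : ℝ) ≤ n * A₁ := by positivity
        have h2 := mul_le_mul_of_nonneg_left hp1 h1
        linarith
  have hbi : Integrable (fun x => n * A₁ * (1 + gn (G x) ^ n) + n * (C * A₀) * gn (G x) ^ n) μ :=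
    (((integrable_const 1).add hgint).const_mul _).add (hgint.const_mul _)
  have hlim := tendsto_integral_of_dominated_convergence (μ := μ)
    (F := fun k x => gn (G x) ^ (n - 2) *
      (∑ i, (inner ℝ (G x i) (fderiv ℝ (Z k) x (ev i))
        + inner ℝ (D2 π (u x) (G x i) (G x i)) (Z k x))))
    (f := fun x => gn (G x) ^ (n - 2) * (∑ i, (inner ℝ (G x i) (fderiv ℝ Y x (ev i))
        + inner ℝ (D2 π (u x) (G x i) (G x i)) (Y x))))
    _ hFm hbi hbound (Eventually.of_forall fun x => by
      refine Tendsto.const_mul _ (tendsto_finset_sum _ fun i _ => ?_)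
      exact (tendsto_const_nhds.inner (hdZt x (ev i))).add
        (tendsto_const_nhds.inner (hZt x)))
  have hzero : ∀ᶠ k in atTop, ∫ x, gn (G x) ^ (n - 2) *
      (∑ i, (inner ℝ (G x i) (fderiv ℝ (Z k) x (ev i))
        + inner ℝ (D2 π (u x) (G x i) (G x i)) (Z k x))) ∂μ = 0 := by
    filter_upwards [hφ.eventually (gt_mem_nhds hρ)] with k hk
    obtain ⟨h1, h2⟩ := hsupp k (le_of_lt hk)
    exact hs (Z k) (hZs k) h1 h2
  have hlim0 : Tendsto (fun k => ∫ x, gn (G x) ^ (n - 2) *
      (∑ i, (inner ℝ (G x i) (fderiv ℝ (Z k) x (ev i))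
        + inner ℝ (D2 π (u x) (G x i) (G x i)) (Z k x))) ∂μ) atTop (𝓝 0) :=
    tendsto_const_nhds.congr' (hzero.mono fun k hk => hk.symm)
  exact tendsto_nhds_unique hlim hlim0

end H60NH
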