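import Pool.Agent.H60.NH.Def

/-!
# [H60 NH EUNIQ] Uniqueness of the weak gradient, the energy

`Ω` open. For every `i`, `∫_Ω ψ • (G x i - G' x i) = 0` for all smooth `ψ` with compact support in `Ω`; both are
locally integrable on `Ω` (`L^n`, `n >= 1`), so `G · i = G' · i` a.e. in `Ω`
(`IsOpen.ae_eq_zero_of_integral_contDiff_smul_eq_zero`).
`energy_eq`: unfold `energy`, the chosen gradient agrees a.e. with `G`.
`weakGrad_congr`: a weak gradient may be changed on null sets.
-/

set_option autoImplicit false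

namespace H60NH

open MeasureTheory Metric Set Filter Topology
open scoped ENNReal NNReal ContDiff

theorem weakGrad_unique {n m : ℕ} (hn : 1 ≤ n) {Ω : Set (E n)} (hΩ : IsOpen Ω) {v : E n → E m}
    {G G' : E n → Fin n → E m} (h : IsWeakGrad Ω v G) (h' : IsWeakGrad Ω v G') :
    ∀ᵐ x ∂(volume.restrict Ω), ∀ i, G x i = G' x i := by
  rw [ae_all_iff]
  intro i
  have hn1 : (1 : ℝ≥0∞) ≤ (n : ℝ≥0∞) := by exact_mod_cast hn
  have hG : LocallyIntegrableOn (fun x => G x i) Ω :=
    locallyIntegrableOn_of_locallyIntegrable_restrict ((h.mem_G i).locallyIntegrable hn1)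
  have hG' : LocallyIntegrableOn (fun x => G' x i) Ω :=
    locallyIntegrableOn_of_locallyIntegrable_restrict ((h'.mem_G i).locallyIntegrable hn1)
  have h1 := hΩ.ae_eq_zero_of_integral_contDiff_smul_eq_zero (hG.sub hG') (μ := volume) ?_
  · rw [ae_restrict_iff' hΩ.measurableSet]
    filter_upwards [h1] with x hx hxΩ
    exact sub_eq_zero.1 (hx hxΩ)
  · intro ψ hψ1 hψ2 hψ3
    have e1 := h.eq ψ hψ1 hψ2 hψ3 i
    have e2 := h'.eq ψ hψ1 hψ2 hψ3 i
    have hint : ∀ {F : E n → E m}, LocallyIntegrableOn F Ω →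
        Integrable (fun x => ψ x • F x) := by
      intro F hF
      have h2 : IntegrableOn F (tsupport ψ) := hF.integrableOn_compact_subset hψ3 hψ2
      have h3 : IntegrableOn (fun x => ψ x • F x) (tsupport ψ) :=
        h2.continuousOn_smul hψ1.continuous.continuousOn hψ2
      refine (integrableOn_iff_integrable_of_support_subset ?_).1 h3
      intro x hx
      apply subset_tsupport
      rw [Function.mem_support] at hx ⊢
      intro h0
      exact hx (by rw [h0, zero_smul])
    have hset : ∀ F : E n → E m, ∫ x in Ω, ψ x • F x = ∫ x, ψ x • F x := by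
      intro F
      refine setIntegral_eq_integral_of_forall_compl_eq_zero fun x hx => ?_
      rw [image_eq_zero_of_notMem_tsupport (fun h => hx (hψ3 h)), zero_smul]
    have e0 : ∫ x, ψ x • ((fun x => G x i) - fun x => G' x i) x =
        ∫ x, (ψ x • G x i - ψ x • G' x i) := by
      refine integral_congr_ae (Eventually.of_forall fun x => ?_)
      exact smul_sub _ _ _
    rw [e0, integral_sub (hint hG) (hint hG'), ← hset, ← hset]
    have e3 := e1.symm.trans e2
    rw [neg_inj] at e3
    rw [e3, sub_self]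

theorem energy_eq {n m : ℕ} (hn : 1 ≤ n) {Ω : Set (E n)} (hΩ : IsOpen Ω) {v : E n → E m}
    {G : E n → Fin n → E m} (h : IsWeakGrad Ω v G) :
    energy Ω v = (1 / (n : ℝ)) * ∫ x in Ω, gn (G x) ^ n := by
  have hex : ∃ G : E n → Fin n → E m, IsWeakGrad Ω v G := ⟨G, h⟩
  unfold energy
  rw [dif_pos hex]
  congr 1
  have h1 := weakGrad_unique hn hΩ hex.choose_spec h
  refine integral_congr_ae ?_
  filter_upwards [h1] with x hx
  have h2 : hex.choose x = G x := funext hx
  change gn (hex.choose x) ^ n = gn (G x) ^ n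
  rw [h2]

theorem weakGrad_congr {n m : ℕ} {Ω : Set (E n)} {v v' : E n → E m}
    {G G' : E n → Fin n → E m} (h : IsWeakGrad Ω v G) (hv : v =ᵐ[volume.restrict Ω] v')
    (hG : ∀ᵐ x ∂(volume.restrict Ω), ∀ i, G x i = G' x i) : IsWeakGrad Ω v' G' := by
  refine ⟨h.mem_v.ae_eq hv, fun i => (h.mem_G i).ae_eq ?_, fun ψ h1 h2 h3 i => ?_⟩
  · filter_upwards [hG] with x hx
    exact hx i
  · have e1 : ∫ x in Ω, (fderiv ℝ ψ x (ev i)) • v' x = ∫ x in Ω, (fderiv ℝ ψ x (ev i)) • v x := by
      refine integral_congr_ae ?_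
      filter_upwards [hv] with x hx
      rw [hx]
    have e2 : ∫ x in Ω, ψ x • G' x i = ∫ x in Ω, ψ x • G x i := by
      refine integral_congr_ae ?_
      filter_upwards [hG] with x hx
      rw [hx i]
    rw [e1, e2]
    exact h.eq ψ h1 h2 h3 i

end H60NH
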