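import Pool.Agent.H60.NH.MSmooth

/-!
# [H60 NH MDER] Derivatives and differences of the mollified maps

`u, G` vanish outside `ball 0 R`, `‖x‖ + 1/p2 k < R`.
* `ubar_der`: the function `ψ(y) = p2 k ^ n * φ (p2 k • (x - y))` is smooth with support in
`closedBall x (1/(2 p2 k)) ⊆ ball 0 R`, and `∂_i ψ(y) = - p2 k ^ (n+1) (∂_i φ)(p2 k (x - y))`; the weak
gradient identity `∫ ∂_iψ u = -∫ ψ G_i` and `ubar_fderiv` give
`∂_i ubar(x) = ∫ ψ(y) G_i(y) dy`. (Integrals over `ball 0 R` and over the whole space agree, as `u`, `G`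
vanish outside.)
* `ubar_diff`: `ψ_j(y) = p2 k ^ (n-1) Θ_j(p2 k (x - y))`: `∑_j ∂_j ψ_j(y) = - p2 k ^ n (div Θ)(p2 k(x-y))
= - p2 k ^ n (2^n φ(2 p2 k (x-y)) - φ(p2 k (x - y)))`; sum of the identities for `ψ_j` over `j`:
`-(ubar (k+1) x - ubar k x) = - ∑_j ∫ ψ_j G_j`. (Written below with the factor
`(p2 k)⁻¹ * p2 k ^ n = p2 k ^ (n-1)` for `n >= 1`; `n = 0` is excluded.)
-/

set_option autoImplicit false

namespace H60NH

open MeasureTheory Metric Set Filter Topology
open scoped ENNReal NNReal ContDiff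

private theorem mder_p2 (k : ℕ) : 0 < p2 k := by unfold p2; positivity

/-- the test function `y ↦ c f(p2 k (x - y))` -/
private theorem mder_test {n : ℕ} {f : E n → ℝ} (hf : ContDiff ℝ ∞ f)
    (hs : ∀ x, 1 / 2 ≤ ‖x‖ → f x = 0) (c : ℝ) (k : ℕ) (x : E n) {R : ℝ} (hx : ‖x‖ + 1 / p2 k < R) :
    ContDiff ℝ ∞ (fun y => c * f (p2 k • (x - y))) ∧
      HasCompactSupport (fun y => c * f (p2 k • (x - y))) ∧
      tsupport (fun y => c * f (p2 k • (x - y))) ⊆ ball 0 R ∧
      ∀ y h, fderiv ℝ (fun y => c * f (p2 k • (x - y))) y h =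
        - (c * p2 k * fderiv ℝ f (p2 k • (x - y)) h) := by
  have hp := mder_p2 k
  have hsub : Function.support (fun y => c * f (p2 k • (x - y))) ⊆ closedBall x (1 / (2 * p2 k)) := by
    intro y hy
    rw [Function.mem_support] at hy
    rw [mem_closedBall, dist_comm, dist_eq_norm]
    by_contra hcon
    rw [not_le] at hcon
    apply hy
    rw [hs, mul_zero]
    rw [norm_smul, Real.norm_of_nonneg hp.le]
    rw [div_lt_iff₀ (by positivity)] at hcon
    linarith
  have hts : tsupport (fun y => c * f (p2 k • (x - y))) ⊆ closedBall x (1 / (2 * p2 k)) :=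
    closure_minimal hsub isClosed_closedBall
  refine ⟨?_, ?_, ?_, ?_⟩
  · exact contDiff_const.mul (hf.comp ((contDiff_const.sub contDiff_id).const_smul (p2 k)))
  · exact HasCompactSupport.of_support_subset_isCompact (isCompact_closedBall _ _) hsub
  · refine hts.trans ?_
    intro y hy
    rw [mem_closedBall, dist_eq_norm] at hy
    rw [mem_ball_zero_iff]
    have h1 : ‖y‖ ≤ ‖y - x‖ + ‖x‖ := by
      have := norm_add_le (y - x) x
      rwa [sub_add_cancel] at this
    have h2 : 1 / (2 * p2 k) ≤ 1 / p2 k := one_div_le_one_div_of_le hp (by linarith)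
    linarith
  · intro y h
    have hd : HasFDerivAt (fun y : E n => p2 k • (x - y)) (p2 k • (-(ContinuousLinearMap.id ℝ (E n)))) y := by
      have h1 : HasFDerivAt (fun y : E n => x - y) (-(ContinuousLinearMap.id ℝ (E n))) y :=
        (hasFDerivAt_id y).const_sub x
      exact h1.const_smul (p2 k)
    have hfd : HasFDerivAt f (fderiv ℝ f (p2 k • (x - y))) (p2 k • (x - y)) :=
      (hf.differentiable (by simp)).differentiableAt.hasFDerivAt
    have h2 := (hfd.comp y hd).const_mul c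
    have h3 : fderiv ℝ (fun y => c * f (p2 k • (x - y))) y = c • ((fderiv ℝ f (p2 k • (x - y))).comp
        (p2 k • (-(ContinuousLinearMap.id ℝ (E n))))) := h2.fderiv
    rw [h3]
    simp
    ring

private theorem mder_full {n m : ℕ} {R : ℝ} {v : E n → E m} (a : E n → ℝ)
    (h0 : ∀ x, x ∉ ball (0 : E n) R → v x = 0) :
    ∫ y in ball (0 : E n) R, a y • v y = ∫ y, a y • v y := by
  apply setIntegral_eq_integral_of_forall_compl_eq_zero
  intro y hy
  rw [h0 y hy, smul_zero]

theorem ubar_der {n m : ℕ} {φ : E n → ℝ} {Θ : Fin n → E n → ℝ} {M : ℝ} (hφ : Moll φ Θ M)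
    {R : ℝ} {u : E n → E m} {G : E n → Fin n → E m} (hG : IsWeakGrad (ball 0 R) u G)
    (hu : Integrable u) (hu0 : ∀ x, x ∉ ball (0 : E n) R → u x = 0)
    (hG0 : ∀ x, x ∉ ball (0 : E n) R → ∀ i, G x i = 0) (k : ℕ) (x : E n)
    (hx : ‖x‖ + 1 / p2 k < R) (i : Fin n) :
    fderiv ℝ (ubar φ u k) x (ev i) = ∫ y, (p2 k ^ n * φ (p2 k • (x - y))) • G y i := by
  obtain ⟨h1, h2, h3, h4⟩ := mder_test hφ.smooth hφ.supp (p2 k ^ n) k x hx
  have h5 := hG.eq _ h1 h2 h3 i
  rw [mder_full _ hu0, mder_full (v := fun y => G y i) _ (fun x hx => hG0 x hx i)] at h5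
  rw [ubar_fderiv hφ u hu k x (ev i)]
  have h6 : ∫ y, (fderiv ℝ (fun y => p2 k ^ n * φ (p2 k • (x - y))) y (ev i)) • u y =
      - ∫ y, (p2 k ^ (n + 1) * fderiv ℝ φ (p2 k • (x - y)) (ev i)) • u y := by
    rw [← integral_neg]
    congr 1
    funext y
    rw [h4 y (ev i), ← neg_smul]
    exact congrArg (fun c : ℝ => c • u y) (by ring)
  rw [h6] at h5
  exact neg_injective h5

theorem ubar_diff {n m : ℕ} (hn : 1 ≤ n) {φ : E n → ℝ} {Θ : Fin n → E n → ℝ} {M : ℝ}
    (hφ : Moll φ Θ M)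
    {R : ℝ} {u : E n → E m} {G : E n → Fin n → E m} (hG : IsWeakGrad (ball 0 R) u G)
    (hu : Integrable u) (hu0 : ∀ x, x ∉ ball (0 : E n) R → u x = 0)
    (hG0 : ∀ x, x ∉ ball (0 : E n) R → ∀ i, G x i = 0) (k : ℕ) (x : E n)
    (hx : ‖x‖ + 1 / p2 k < R) :
    ubar φ u (k + 1) x - ubar φ u k x =
      (p2 k)⁻¹ • ∑ j, ∫ y, (p2 k ^ n * Θ j (p2 k • (x - y))) • G y j := by
  have hp := mder_p2 k
  have htest := fun j => mder_test (hφ.smoothT j) (hφ.suppT j) (p2 k ^ n) k x hx
  -- the identity for each `j`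
  have hj : ∀ j, ∫ y, (p2 k ^ (n + 1) * fderiv ℝ (Θ j) (p2 k • (x - y)) (ev j)) • u y =
      ∫ y, (p2 k ^ n * Θ j (p2 k • (x - y))) • G y j := by
    intro j
    obtain ⟨h1, h2, h3, h4⟩ := htest j
    have h5 := hG.eq _ h1 h2 h3 j
    rw [mder_full _ hu0, mder_full (v := fun y => G y j) _ (fun x hx => hG0 x hx j)] at h5
    have h6 : ∫ y, (fderiv ℝ (fun y => p2 k ^ n * Θ j (p2 k • (x - y))) y (ev j)) • u y =
        - ∫ y, (p2 k ^ (n + 1) * fderiv ℝ (Θ j) (p2 k • (x - y)) (ev j)) • u y := by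
      rw [← integral_neg]
      congr 1
      funext y
      rw [h4 y (ev j), ← neg_smul]
      exact congrArg (fun c : ℝ => c • u y) (by ring)
    rw [h6] at h5
    exact neg_injective h5
  -- integrability
  have hint : ∀ j, Integrable
      (fun y => (p2 k ^ (n + 1) * fderiv ℝ (Θ j) (p2 k • (x - y)) (ev j)) • u y) := by
    intro j
    obtain ⟨h1, h2, h3, h4⟩ := htest j
    have hc : Continuous (fun y => fderiv ℝ (fun y => p2 k ^ n * Θ j (p2 k • (x - y))) y (ev j)) :=
      (h1.continuous_fderiv (by simp)).clm_apply continuous_const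
    have hcs : HasCompactSupport
        (fun y => fderiv ℝ (fun y => p2 k ^ n * Θ j (p2 k • (x - y))) y (ev j)) :=
      h2.fderiv_apply (𝕜 := ℝ) (ev j)
    obtain ⟨C, hC⟩ := hcs.exists_bound_of_continuous hc
    have h7 : Integrable
        (fun y => (fderiv ℝ (fun y => p2 k ^ n * Θ j (p2 k • (x - y))) y (ev j)) • u y) :=
      hu.bdd_smul C hc.aestronglyMeasurable (Eventually.of_forall hC)
    have h8 := h7.neg
    refine h8.congr (Eventually.of_forall fun y => ?_)
    show -((fderiv ℝ (fun y => p2 k ^ n * Θ j (p2 k • (x - y))) y (ev j)) • u y) = _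
    rw [h4 y (ev j), ← neg_smul]
    congr 1
    ring
  have hφi : ∀ k, Integrable (fun y => (p2 k ^ n * φ (p2 k • (x - y))) • u y) := by
    intro k
    have hpk := mder_p2 k
    refine Integrable.bdd_smul (φ := fun y => p2 k ^ n * φ (p2 k • (x - y))) hu (p2 k ^ n * M) ?_ ?_
    · exact (continuous_const.mul (hφ.smooth.continuous.comp
        ((continuous_const.sub continuous_id).const_smul (p2 k)))).aestronglyMeasurable
    · apply Eventually.of_forall
      intro y
      rw [norm_mul, Real.norm_of_nonneg (by positivity)]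
      exact mul_le_mul_of_nonneg_left (hφ.bd _) (by positivity)
  have hsum : ∑ j, ∫ y, (p2 k ^ (n + 1) * fderiv ℝ (Θ j) (p2 k • (x - y)) (ev j)) • u y =
      p2 k • (ubar φ u (k + 1) x - ubar φ u k x) := by
    rw [← integral_finsetSum _ fun j _ => hint j]
    unfold ubar
    rw [← integral_sub (hφi (k + 1)) (hφi k), ← integral_smul]
    congr 1
    funext y
    have e1 : p2 (k + 1) = 2 * p2 k := by
      unfold p2
      ring
    have e2 : p2 (k + 1) • (x - y) = (2 : ℝ) • (p2 k • (x - y)) := by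
      rw [smul_smul, e1]
    have e3 : ∑ j, (p2 k ^ (n + 1) * fderiv ℝ (Θ j) (p2 k • (x - y)) (ev j)) • u y =
        (p2 k ^ (n + 1) * (2 ^ n * φ ((2 : ℝ) • (p2 k • (x - y))) - φ (p2 k • (x - y)))) • u y := by
      rw [← Finset.sum_smul, ← Finset.mul_sum, hφ.div]
    have e4 : p2 k • ((p2 (k + 1) ^ n * φ (p2 (k + 1) • (x - y))) • u y -
        (p2 k ^ n * φ (p2 k • (x - y))) • u y) =
        (p2 k * (p2 (k + 1) ^ n * φ (p2 (k + 1) • (x - y)) -
          p2 k ^ n * φ (p2 k • (x - y)))) • u y := by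
      rw [← sub_smul, smul_smul]
    rw [e3, e4, e2, e1]
    exact congrArg (fun c : ℝ => c • u y) (by ring)
  have hfin : ∑ j, ∫ y, (p2 k ^ n * Θ j (p2 k • (x - y))) • G y j =
      p2 k • (ubar φ u (k + 1) x - ubar φ u k x) := by
    rw [← hsum]
    exact Finset.sum_congr rfl fun j _ => (hj j).symm
  rw [hfin, smul_smul, inv_mul_cancel₀ hp.ne', one_smul]

end H60NH
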