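import Pool.Agent.H60.NH.Def3

/-!
# [H60 NH MEXIST] Existence of the mollifier and of the vector field

Take `φ` smooth, nonnegative, with `∫ φ = 1`, vanishing for `‖x‖ >= 1/2` (a normalised `ContDiffBump`
with radii `1/4 < 1/2`: `ContDiffBump.normed`). Put, for the real number `s ∈ [1/2, 1]`,
`h(x) = ∫_{1/2}^1 s^{-n-1} φ(x/s) ds`, `Θ_j(x) = x_j h(x)`. `h` is smooth (parametric integral of a
smooth function over a compact interval; e.g. `contDiff` of `x ↦ ∫ s in a..b, F (x, s)` for smooth `F`;
to have `F` smooth on all of `E n × ℝ` multiply by nothing but substitute `s = 1/t`: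
`h(x) = ∫_1^2 t^{n-1} φ(t x) dt`, whose integrand is smooth on `E n × ℝ`), and `h(x) = 0` if
`‖x‖ >= 1/2` (`‖t x‖ >= 1/2` for `t >= 1`). Divergence:
`sum_j ∂_j (x_j h) = n h + x·∇h = ∫_1^2 (n t^{n-1} φ(tx) + t^n x·∇φ(tx)) dt = ∫_1^2 d/dt (t^n φ(tx)) dt
= 2^n φ(2x) - φ(x)`. `M` = max of the bounds of the continuous compactly supported functions
`φ, Θ_j`, and `1`.
-/

set_option autoImplicit false

namespace H60NH

open MeasureTheory Metric Set Filter Topology
open scoped ENNReal NNReal ContDiff

private theorem mex_deriv {X Y : Type} [NormedAddCommGroup X] [NormedSpace ℝ X]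
    [FiniteDimensional ℝ X] [NormedAddCommGroup Y] [NormedSpace ℝ Y] (a b : ℝ) (F : X × ℝ → Y)
    (hF : ContDiff ℝ 1 F) (x₀ : X) :
    HasFDerivAt (fun x => ∫ t in a..b, F (x, t))
      (∫ t in a..b, (fderiv ℝ F (x₀, t)).comp (ContinuousLinearMap.inl ℝ X ℝ)) x₀ := by
  have hc : Continuous F := hF.continuous
  have hF' : Continuous (fderiv ℝ F) := hF.continuous_fderiv one_ne_zero
  have hG : Continuous (fun p : X × ℝ => (fderiv ℝ F p).comp (ContinuousLinearMap.inl ℝ X ℝ)) :=
    hF'.clm_comp continuous_const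
  have hpr : ProperSpace X := FiniteDimensional.proper_rclike ℝ X
  have hK : IsCompact (closedBall x₀ 1 ×ˢ uIcc a b) :=
    (isCompact_closedBall x₀ 1).prod isCompact_uIcc
  obtain ⟨C, hC⟩ := hK.exists_bound_of_continuousOn hG.continuousOn
  apply intervalIntegral.hasFDerivAt_integral_of_dominated_of_fderiv_le
    (F := fun x t => F (x, t))
    (F' := fun x t => (fderiv ℝ F (x, t)).comp (ContinuousLinearMap.inl ℝ X ℝ))
    (s := closedBall x₀ 1) (bound := fun _ => C) (closedBall_mem_nhds x₀ one_pos)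
  · exact Eventually.of_forall fun x =>
      (hc.comp (Continuous.prodMk_right x)).aestronglyMeasurable
  · exact (hc.comp (Continuous.prodMk_right x₀)).intervalIntegrable a b
  · exact (hG.comp (Continuous.prodMk_right x₀)).aestronglyMeasurable
  · exact ae_of_all _ fun t ht x hx => hC (x, t) ⟨hx, uIoc_subset_uIcc ht⟩
  · exact intervalIntegrable_const
  · refine ae_of_all _ fun t ht x hx => ?_
    have h1 : HasFDerivAt F (fderiv ℝ F (x, t)) (x, t) :=
      (hF.differentiable one_ne_zero).differentiableAt.hasFDerivAt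
    exact h1.comp x (hasFDerivAt_prodMk_left x t)

private theorem mex_contDiff_nat {X : Type} [NormedAddCommGroup X] [NormedSpace ℝ X]
    [FiniteDimensional ℝ X] (a b : ℝ) (k : ℕ) : ∀ {Y : Type} [NormedAddCommGroup Y]
    [NormedSpace ℝ Y] (F : X × ℝ → Y) (_ : ContDiff ℝ k F),
      ContDiff ℝ k (fun x => ∫ t in a..b, F (x, t)) := by
  induction k with
  | zero =>
    intro Y _ _ F hF
    have h0 : Continuous F := hF.continuous
    have : Continuous (fun x => ∫ t in a..b, F (x, t)) :=
      intervalIntegral.continuous_parametric_intervalIntegral_of_continuous'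
        (f := fun x t => F (x, t)) h0 a b
    exact contDiff_zero.2 this
  | succ k ih =>
    intro Y _ _ F hF
    have hF' : ContDiff ℝ ((k : WithTop ℕ∞) + 1) F := by exact_mod_cast hF
    have h1 : ContDiff ℝ 1 F := hF'.of_le le_add_self
    have hd := mex_deriv a b F h1
    have h2 : fderiv ℝ (fun x => ∫ t in a..b, F (x, t)) = fun x =>
        ∫ t in a..b, (fderiv ℝ F (x, t)).comp (ContinuousLinearMap.inl ℝ X ℝ) :=
      funext fun x => (hd x).fderiv
    have h3 : ContDiff ℝ k (fun p : X × ℝ =>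
        (fderiv ℝ F p).comp (ContinuousLinearMap.inl ℝ X ℝ)) :=
      (hF'.fderiv_right le_rfl).clm_comp contDiff_const
    have h4 : ContDiff ℝ ((k : WithTop ℕ∞) + 1) (fun x => ∫ t in a..b, F (x, t)) := by
      rw [contDiff_succ_iff_fderiv]
      refine ⟨fun x => (hd x).differentiableAt, fun h => ?_, ?_⟩
      · exact absurd h (by simp)
      · rw [h2]
        exact ih _ h3
    exact_mod_cast h4

private theorem mex_contDiff {X Y : Type} [NormedAddCommGroup X] [NormedSpace ℝ X]
    [FiniteDimensional ℝ X] [NormedAddCommGroup Y] [NormedSpace ℝ Y] (a b : ℝ) (F : X × ℝ → Y)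
    (hF : ContDiff ℝ ∞ F) : ContDiff ℝ ∞ (fun x => ∫ t in a..b, F (x, t)) := by
  rw [contDiff_infty]
  intro k
  exact mex_contDiff_nat a b k F (hF.of_le (by exact_mod_cast le_top))

private theorem mex_bump (n : ℕ) : ∃ φ : E n → ℝ, ContDiff ℝ ∞ φ ∧ (∀ x, 0 ≤ φ x) ∧
    (∫ x, φ x = 1) ∧ (∀ x, 1 / 2 ≤ ‖x‖ → φ x = 0) := by
  let f : ContDiffBump (0 : E n) := ⟨1 / 4, 1 / 2, by norm_num, by norm_num⟩
  refine ⟨f.normed volume, f.contDiff_normed, f.nonneg_normed, f.integral_normed, ?_⟩
  intro x hx
  have h1 : Function.support (f.normed (volume : Measure (E n))) = ball 0 f.rOut :=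
    f.support_normed_eq
  by_contra h2
  have h3 : x ∈ Function.support (f.normed (volume : Measure (E n))) := h2
  rw [h1, mem_ball_zero_iff] at h3
  have h4 : f.rOut = 1 / 2 := rfl
  rw [h4] at h3
  linarith

private theorem mex_bound {n : ℕ} (g : E n → ℝ) (hg : ContDiff ℝ ∞ g)
    (h0 : ∀ x, 1 / 2 ≤ ‖x‖ → g x = 0) : ∃ C, ∀ x, |g x| ≤ C := by
  have hs : HasCompactSupport g := by
    apply HasCompactSupport.intro (isCompact_closedBall (0 : E n) (1 / 2))
    intro x hx
    rw [mem_closedBall_zero_iff, not_le] at hx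
    exact h0 x hx.le
  obtain ⟨C, hC⟩ := hg.continuous.bounded_above_of_compact_support hs
  exact ⟨C, hC⟩

private theorem mex_pack {n : ℕ} (φ : E n → ℝ) (Θ : Fin n → E n → ℝ) (h1 : ContDiff ℝ ∞ φ)
    (h2 : ∀ x, 0 ≤ φ x) (h3 : ∫ x, φ x = 1) (h4 : ∀ x, 1 / 2 ≤ ‖x‖ → φ x = 0)
    (h5 : ∀ j, ContDiff ℝ ∞ (Θ j)) (h6 : ∀ j x, 1 / 2 ≤ ‖x‖ → Θ j x = 0)
    (h7 : ∀ x, ∑ j, fderiv ℝ (Θ j) x (ev j) = 2 ^ n * φ ((2:ℝ) • x) - φ x) :
    ∃ (φ : E n → ℝ) (Θ : Fin n → E n → ℝ) (M : ℝ), Moll φ Θ M := by
  obtain ⟨C, hC⟩ := mex_bound φ h1 h4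
  choose D hD using fun j => mex_bound (Θ j) (h5 j) (h6 j)
  have hs : 0 ≤ ∑ j, |D j| := Finset.sum_nonneg fun j _ => abs_nonneg _
  refine ⟨φ, Θ, 1 + |C| + ∑ j, |D j|, h1, h2, h3, h4, h5, h6, h7, fun x => ?_, fun j x => ?_, ?_⟩
  · have := hC x
    have := le_abs_self C
    linarith
  · have h8 := hD j x
    have h9 : |D j| ≤ ∑ j, |D j| :=
      Finset.single_le_sum (f := fun j => |D j|) (fun j _ => abs_nonneg _) (Finset.mem_univ j)
    have h10 := le_abs_self (D j)
    have h11 := abs_nonneg C
    linarith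
  · have h11 := abs_nonneg C
    linarith

theorem exists_moll (n : ℕ) : ∃ (φ : E n → ℝ) (Θ : Fin n → E n → ℝ) (M : ℝ), Moll φ Θ M := by
  obtain ⟨φ, h1, h2, h3, h4⟩ := mex_bump n
  rcases n with _ | m
  · apply mex_pack φ (fun _ _ => 0) h1 h2 h3 h4 (fun j => contDiff_const) (fun _ _ _ => rfl)
    intro x
    have : (2 : ℝ) • x = x := Subsingleton.elim _ _
    rw [this]
    simp
  · set F : E (m + 1) × ℝ → ℝ := fun p => p.2 ^ m * φ (p.2 • p.1) with hFdef
    have hF : ContDiff ℝ ∞ F :=
      (contDiff_snd.pow m).mul (h1.comp (contDiff_snd.smul contDiff_fst))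
    have hF1 : ContDiff ℝ 1 F := hF.of_le (by exact_mod_cast le_top)
    set h : E (m + 1) → ℝ := fun x => ∫ t in (1:ℝ)..2, F (x, t) with hh
    have hsm : ContDiff ℝ ∞ h := mex_contDiff 1 2 F hF
    have hd := fun x => mex_deriv 1 2 F hF1 x
    have hproj : ∀ j : Fin (m + 1), ContDiff ℝ ∞ (fun x : E (m + 1) => x j) := fun j =>
      (EuclideanSpace.proj (𝕜 := ℝ) j).contDiff
    have hφ1 : ContDiff ℝ 1 φ := h1.of_le (by exact_mod_cast le_top)
    have hφd : ∀ z, HasFDerivAt φ (fderiv ℝ φ z) z := fun z =>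
      (hφ1.differentiable one_ne_zero).differentiableAt.hasFDerivAt
    have hφc : Continuous (fderiv ℝ φ) := hφ1.continuous_fderiv one_ne_zero
    apply mex_pack φ (fun j x => x j * h x) h1 h2 h3 h4 (fun j => (hproj j).mul hsm)
    · intro j x hx
      have : h x = 0 := by
        rw [hh]
        apply intervalIntegral.integral_zero_ae
        refine ae_of_all _ fun t ht => ?_
        rw [uIoc_of_le (by norm_num)] at ht
        have h5 : 1 / 2 ≤ ‖t • x‖ := by
          rw [norm_smul, Real.norm_of_nonneg (by linarith [ht.1])]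
          nlinarith [ht.1, norm_nonneg x]
        rw [hFdef]
        simp only
        rw [h4 _ h5, mul_zero]
      simp only
      rw [this, mul_zero]
    · intro x
      have hder : ∀ t : ℝ, (fderiv ℝ F (x, t)).comp (ContinuousLinearMap.inl ℝ (E (m + 1)) ℝ) x =
          t ^ (m + 1) * fderiv ℝ φ (t • x) x := by
        intro t
        have e1 : HasFDerivAt (fun y => F (y, t))
            ((fderiv ℝ F (x, t)).comp (ContinuousLinearMap.inl ℝ (E (m + 1)) ℝ)) x := by
          have h6 : HasFDerivAt F (fderiv ℝ F (x, t)) (x, t) :=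
            (hF1.differentiable one_ne_zero).differentiableAt.hasFDerivAt
          have h7 := HasFDerivAt.comp (f := fun y : E (m + 1) => (y, t)) x h6
            (hasFDerivAt_prodMk_left x t)
          exact h7
        have hs : HasFDerivAt (fun y : E (m + 1) => t • y)
            (t • ContinuousLinearMap.id ℝ (E (m + 1))) x := (hasFDerivAt_id x).const_smul t
        have e2 : HasFDerivAt (fun y => F (y, t))
            (t ^ m • ((fderiv ℝ φ (t • x)).comp (t • ContinuousLinearMap.id ℝ (E (m + 1))))) x :=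
          ((hφd (t • x)).comp x hs).const_mul (t ^ m)
        rw [e1.unique e2]
        simp only [ContinuousLinearMap.smul_apply, ContinuousLinearMap.comp_apply,
          ContinuousLinearMap.id_apply, map_smul, smul_eq_mul]
        ring
      have hint : IntervalIntegrable (fun t =>
          (fderiv ℝ F (x, t)).comp (ContinuousLinearMap.inl ℝ (E (m + 1)) ℝ)) volume 1 2 := by
        apply Continuous.intervalIntegrable
        exact ((hF1.continuous_fderiv one_ne_zero).comp
          (Continuous.prodMk_right x)).clm_comp continuous_const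
      have hx : ∑ j, x j • (ev j : E (m + 1)) = x := by
        ext i
        simp [ev, Pi.single_apply]
      have hjj : ∀ j, fderiv ℝ (fun x : E (m + 1) => x j * h x) x (ev j) =
          x j * fderiv ℝ h x (ev j) + h x := by
        intro j
        have p1 : HasFDerivAt (fun x : E (m + 1) => x j) (EuclideanSpace.proj (𝕜 := ℝ) j) x :=
          (EuclideanSpace.proj (𝕜 := ℝ) j).hasFDerivAt
        have p2 : HasFDerivAt (fun x : E (m + 1) => x j * h x)
            (x j • (∫ t in (1:ℝ)..2,
              (fderiv ℝ F (x, t)).comp (ContinuousLinearMap.inl ℝ (E (m + 1)) ℝ)) +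
              h x • (EuclideanSpace.proj (𝕜 := ℝ) j : E (m + 1) →L[ℝ] ℝ)) x := p1.mul (hd x)
        have p3 : fderiv ℝ h x = (∫ t in (1:ℝ)..2,
          (fderiv ℝ F (x, t)).comp (ContinuousLinearMap.inl ℝ (E (m + 1)) ℝ)) := (hd x).fderiv
        rw [p3]
        rw [HasFDerivAt.fderiv p2]
        simp [ev]
      rw [Finset.sum_congr rfl fun j _ => hjj j, Finset.sum_add_distrib]
      have hsum : ∑ j, x j * fderiv ℝ h x (ev j) = fderiv ℝ h x x := by
        conv_rhs => rw [← hx]
        rw [map_sum, hx]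
        apply Finset.sum_congr rfl
        intro j _
        rw [map_smul, smul_eq_mul]
      rw [hsum, Finset.sum_const, Finset.card_univ, Fintype.card_fin, nsmul_eq_mul, (hd x).fderiv,
        ContinuousLinearMap.intervalIntegral_apply hint]
      have hfx : h x = ∫ t in (1:ℝ)..2, t ^ m * φ (t • x) := rfl
      have c1 : Continuous (fun t : ℝ => t ^ (m + 1) * fderiv ℝ φ (t • x) x) :=
        (continuous_pow _).mul ((hφc.comp (continuous_id.smul continuous_const)).clm_apply
          continuous_const)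
      have c2 : Continuous (fun t : ℝ => t ^ m * φ (t • x)) :=
        (continuous_pow _).mul (h1.continuous.comp (continuous_id.smul continuous_const))
      rw [intervalIntegral.integral_congr (g := fun t => t ^ (m + 1) * fderiv ℝ φ (t • x) x)
        (fun t _ => hder t), hfx, ← intervalIntegral.integral_const_mul,
        ← intervalIntegral.integral_add (c1.intervalIntegrable _ _)
          ((c2.const_mul _).intervalIntegrable _ _)]
      have hD : ∀ t ∈ uIcc (1:ℝ) 2, HasDerivAt (fun t : ℝ => t ^ (m + 1) * φ (t • x))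
          (t ^ (m + 1) * fderiv ℝ φ (t • x) x + ((m + 1 : ℕ) : ℝ) * (t ^ m * φ (t • x))) t := by
        intro t _
        have q1 : HasDerivAt (fun t : ℝ => t • x) x t := by
          simpa using (hasDerivAt_id t).smul_const x
        have q2 : HasDerivAt (fun t : ℝ => t ^ (m + 1) * φ (t • x))
            (((m + 1 : ℕ) : ℝ) * t ^ (m + 1 - 1) * φ (t • x) +
              t ^ (m + 1) * fderiv ℝ φ (t • x) x) t :=
          (hasDerivAt_pow (m + 1) t).mul ((hφd (t • x)).comp_hasDerivAt t q1)
        refine q2.congr_deriv ?_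
        rw [Nat.add_sub_cancel]
        ring
      rw [intervalIntegral.integral_eq_sub_of_hasDerivAt hD
        ((c1.add (c2.const_mul _)).intervalIntegrable _ _)]
      simp

end H60NH
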