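import Pool.Agent.H60.NH.MLp
import Pool.Agent.H60.NH.MDer
import Pool.Agent.H60.NH.EUniq
import Pool.Agent.H60.NH.MExist

/-!
# [H60 NH ECHAIN] The chain rule for smooth functions with compact support

`F : E m → E m` smooth with compact support, `(v, G)` a weak gradient pair on `Ω = ball 0 1`. Claim: `F ∘ v` has the
weak gradient `DF(v) G_i`. `mem_v`: bounded and a.e. strongly measurable on a set of finite measure;
`mem_G`: `‖DF(v) G_i‖ <= C ‖G_i‖`. Identity for `ψ`: replace `v, G` by zero outside `Ω` (`weakGrad_congr`); `v, G_i` are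
then integrable on the space. Let `v_k = ubar φ v k` (`exists_moll`). `tsupport ψ` is a compact subset of
the open ball, so for large `k` every `x ∈ tsupport ψ` satisfies `‖x‖ + 1/p2 k < 1`, and
`fderiv v_k x (ev i) = ubar φ (G · i) k x` (`ubar_der`). Integration by parts for the smooth `F ∘ v_k`
(`integral_mul_fderiv_eq_neg_fderiv_mul_of_integrable` or a vector version componentwise; `ψ` has compact support):
`∫ ∂_iψ F(v_k) = - ∫ ψ DF(v_k) (fderiv v_k (ev i))`. Limit `k → ∞`: left side by dominated convergence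
(`ubar_ae`, `F` bounded continuous); right side: `ψ DF(v_k)(ubar (G_i) k - G_i) → 0` in `L^1`
(`ubar_Lp` and Hölder on the support, `DF` bounded), `ψ (DF(v_k) - DF(v)) G_i → 0` by dominated convergence.
-/

set_option autoImplicit false

namespace H60NH

open MeasureTheory Metric Set Filter Topology
open scoped ENNReal NNReal ContDiff

theorem echain_rad {n : ℕ} {ψ : E n → ℝ} (hψc : HasCompactSupport ψ)
    (hψs : tsupport ψ ⊆ ball 0 1) :
    ∀ᶠ k in atTop, ∀ x ∈ tsupport ψ, ‖x‖ + 1 / p2 k < 1 := by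
  have h1 : Tendsto (fun k => 1 / p2 k) atTop (𝓝 0) := by
    have h2 := tendsto_pow_atTop_nhds_zero_of_lt_one (r := (1 / 2 : ℝ)) (by norm_num) (by norm_num)
    refine h2.congr fun k => ?_
    unfold p2
    rw [one_div_pow]
  rcases (tsupport ψ).eq_empty_or_nonempty with h0 | h0
  · filter_upwards with k x hx
    rw [h0] at hx
    exact absurd hx (notMem_empty x)
  · obtain ⟨x0, hx0, hmax⟩ := (show IsCompact (tsupport ψ) from hψc).exists_isMaxOn h0
      continuous_norm.continuousOn
    have h3 : ‖x0‖ < 1 := by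
      have h4 := hψs hx0
      rwa [mem_ball_zero_iff] at h4
    have h5 : ∀ᶠ k in atTop, 1 / p2 k < 1 - ‖x0‖ := h1.eventually_lt_const (by linarith)
    filter_upwards [h5] with k hk x hx
    have h6 : ‖x‖ ≤ ‖x0‖ := hmax hx
    linarith

theorem echain_id {n m : ℕ} {φ : E n → ℝ} {Θ : Fin n → E n → ℝ} {M : ℝ} (hφ : Moll φ Θ M)
    (F : E m → E m) (hF : ContDiff ℝ ∞ F) {v : E n → E m} {G : E n → Fin n → E m}
    (h : IsWeakGrad (ball 0 1) v G) (hvI : Integrable v)
    (hv0 : ∀ x, x ∉ ball (0 : E n) 1 → v x = 0)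
    (hG0 : ∀ x, x ∉ ball (0 : E n) 1 → ∀ i, G x i = 0)
    {ψ : E n → ℝ} (hψ : ContDiff ℝ ∞ ψ) (hψc : HasCompactSupport ψ) (k : ℕ)
    (hk : ∀ x ∈ tsupport ψ, ‖x‖ + 1 / p2 k < 1) (i : Fin n) :
    ∫ x, (fderiv ℝ ψ x (ev i)) • F (ubar φ v k x) =
      - ∫ x, ψ x • fderiv ℝ F (ubar φ v k x) (ubar φ (fun x => G x i) k x) := by
  have hu : ContDiff ℝ ∞ (ubar φ v k) := ubar_smooth hφ v hvI k
  have hFu : ContDiff ℝ ∞ (fun x => F (ubar φ v k x)) := hF.comp hu
  have hne : (∞ : WithTop ℕ∞) ≠ 0 := by simp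
  have c1 : Continuous (fun x => fderiv ℝ ψ x (ev i)) :=
    (hψ.continuous_fderiv hne).clm_apply continuous_const
  have c2 : Continuous (fun x => fderiv ℝ (fun x => F (ubar φ v k x)) x (ev i)) :=
    (hFu.continuous_fderiv hne).clm_apply continuous_const
  have s1 : HasCompactSupport (fun x => fderiv ℝ ψ x (ev i)) := by
    refine (hψc.fderiv ℝ).mono ?_
    intro x hx
    rw [Function.mem_support] at hx ⊢
    intro h0
    apply hx
    rw [h0]
    rfl
  have key := integral_smul_fderiv_eq_neg_fderiv_smul_of_integrable (𝕜 := ℝ)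
    (μ := (volume : Measure (E n))) (f := ψ) (g := fun x => F (ubar φ v k x)) (v := ev i)
    ((c1.smul hFu.continuous).integrable_of_hasCompactSupport s1.smul_right)
    ((hψ.continuous.smul c2).integrable_of_hasCompactSupport hψc.smul_right)
    ((hψ.continuous.smul hFu.continuous).integrable_of_hasCompactSupport hψc.smul_right)
    (fun x _ => hψ.differentiable hne x) (fun x _ => hFu.differentiable hne x)
  have e1 : ∫ x, ψ x • fderiv ℝ (fun x => F (ubar φ v k x)) x (ev i) =
      ∫ x, ψ x • fderiv ℝ F (ubar φ v k x) (ubar φ (fun x => G x i) k x) := by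
    refine integral_congr_ae (Eventually.of_forall fun x => ?_)
    by_cases hx : x ∈ tsupport ψ
    · have e2 : fderiv ℝ (fun x => F (ubar φ v k x)) x =
          (fderiv ℝ F (ubar φ v k x)).comp (fderiv ℝ (ubar φ v k) x) :=
        fderiv_comp x (hF.differentiable hne _) (hu.differentiable hne x)
      have e3 := ubar_der hφ h hvI hv0 hG0 k x (hk x hx) i
      show ψ x • fderiv ℝ (fun x => F (ubar φ v k x)) x (ev i) = _
      rw [e2, ContinuousLinearMap.comp_apply, e3]
      rfl
    · show ψ x • _ = ψ x • _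
      rw [image_eq_zero_of_notMem_tsupport hx, zero_smul, zero_smul]
  rw [← e1, key, neg_neg]

theorem echain_pt {n : ℕ} (hn : 1 ≤ n) {t η : ℝ} (ht : 0 ≤ t) (hη : 0 < η) :
    t ≤ η + (η ^ (n - 1))⁻¹ * t ^ n := by
  have h1 : 0 ≤ (η ^ (n - 1))⁻¹ * t ^ n := by positivity
  rcases le_total t η with h | h
  · linarith
  · have h2 : η ^ (n - 1) ≤ t ^ (n - 1) := pow_le_pow_left₀ hη.le h _
    have h3 : t ^ n = t * t ^ (n - 1) := by
      rw [← pow_succ']
      congr 1
      omega
    have h4 : t ≤ (η ^ (n - 1))⁻¹ * t ^ n := by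
      rw [le_inv_mul_iff₀ (pow_pos hη _), h3, mul_comm]
      exact mul_le_mul_of_nonneg_left h2 ht
    linarith

theorem echain_L1 {n m : ℕ} (hn : 1 ≤ n) {gk : ℕ → E n → E m} {g : E n → E m}
    (h1 : ∀ k, MemLp (gk k) n) (hg : MemLp g n)
    (h : Tendsto (fun k => ∫ x, ‖gk k x - g x‖ ^ n) atTop (𝓝 0)) :
    Tendsto (fun k => ∫ x in ball (0 : E n) 1, ‖gk k x - g x‖) atTop (𝓝 0) := by
  have hfin : IsFiniteMeasure (volume.restrict (ball (0 : E n) 1)) := by
    constructor
    rw [Measure.restrict_apply_univ]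
    exact measure_ball_lt_top
  obtain ⟨V, hV⟩ : ∃ V : ℝ, V = (volume.restrict (ball (0 : E n) 1)).real univ := ⟨_, rfl⟩
  have hV0 : 0 ≤ V := by rw [hV]; exact measureReal_nonneg
  have hI : ∀ k, Integrable (fun x => ‖gk k x - g x‖ ^ n) := fun k =>
    ((h1 k).sub hg).integrable_norm_pow (by omega)
  have hI1 : ∀ k, Integrable (fun x => ‖gk k x - g x‖) (volume.restrict (ball (0 : E n) 1)) := by
    intro k
    have h2 : MemLp (fun x => gk k x - g x) n (volume.restrict (ball (0 : E n) 1)) :=
      ((h1 k).sub hg).restrict _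
    exact (h2.integrable (by exact_mod_cast hn)).norm
  have hle : ∀ (η : ℝ), 0 < η → ∀ k, ∫ x in ball (0 : E n) 1, ‖gk k x - g x‖ ≤
      η * V + (η ^ (n - 1))⁻¹ * ∫ x, ‖gk k x - g x‖ ^ n := by
    intro η hη k
    calc ∫ x in ball (0 : E n) 1, ‖gk k x - g x‖
        ≤ ∫ x in ball (0 : E n) 1, (η + (η ^ (n - 1))⁻¹ * ‖gk k x - g x‖ ^ n) := by
          refine integral_mono (hI1 k) ?_ fun x => echain_pt hn (norm_nonneg _) hη
          exact (integrable_const η).add ((hI k).restrict.const_mul _)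
      _ = η * V + (η ^ (n - 1))⁻¹ * ∫ x in ball (0 : E n) 1, ‖gk k x - g x‖ ^ n := by
          rw [integral_add (integrable_const η) ((hI k).restrict.const_mul _), integral_const,
            integral_const_mul, ← hV, smul_eq_mul, mul_comm V η]
      _ ≤ η * V + (η ^ (n - 1))⁻¹ * ∫ x, ‖gk k x - g x‖ ^ n := by
          have h3 : ∫ x in ball (0 : E n) 1, ‖gk k x - g x‖ ^ n ≤ ∫ x, ‖gk k x - g x‖ ^ n :=
            setIntegral_le_integral (hI k) (Eventually.of_forall fun x => by positivity)
          have h4 : 0 ≤ (η ^ (n - 1))⁻¹ := by positivity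
          have h5 := mul_le_mul_of_nonneg_left h3 h4
          linarith
  rw [Metric.tendsto_atTop]
  intro ε hε
  obtain ⟨η, hη, hη2⟩ : ∃ η : ℝ, 0 < η ∧ η * V ≤ ε / 2 := by
    refine ⟨ε / (2 * (V + 1)), by positivity, ?_⟩
    rw [div_mul_eq_mul_div, div_le_iff₀ (by positivity)]
    nlinarith
  have h6 : ∀ᶠ k in atTop, ∫ x, ‖gk k x - g x‖ ^ n < η ^ (n - 1) * (ε / 2) :=
    h.eventually_lt_const (by positivity)
  obtain ⟨N, hN⟩ := eventually_atTop.1 h6
  refine ⟨N, fun k hk => ?_⟩
  have h7 := hle η hη k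
  have h8 : (η ^ (n - 1))⁻¹ * ∫ x, ‖gk k x - g x‖ ^ n < ε / 2 := by
    rw [inv_mul_lt_iff₀ (by positivity)]
    exact hN k hk
  have h9 : 0 ≤ ∫ x in ball (0 : E n) 1, ‖gk k x - g x‖ :=
    integral_nonneg fun x => norm_nonneg _
  rw [Real.dist_eq, sub_zero, abs_of_nonneg h9]
  linarith

theorem echain_core {n m : ℕ} (hn : 1 ≤ n) (F : E m → E m) (hF : ContDiff ℝ ∞ F)
    (hFc : HasCompactSupport F) {v : E n → E m} {G : E n → Fin n → E m}
    (h : IsWeakGrad (ball 0 1) v G) (hv0 : ∀ x, x ∉ ball (0 : E n) 1 → v x = 0)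
    (hG0 : ∀ x, x ∉ ball (0 : E n) 1 → ∀ i, G x i = 0) :
    IsWeakGrad (ball 0 1) (fun x => F (v x)) (fun x i => fderiv ℝ F (v x) (G x i)) := by
  have hne : (∞ : WithTop ℕ∞) ≠ 0 := by simp
  have hF1 : Continuous F := hF.continuous
  have hF2 : Continuous (fderiv ℝ F) := hF.continuous_fderiv hne
  obtain ⟨C0, hC0⟩ := hF1.bounded_above_of_compact_support hFc
  obtain ⟨C1, hC1⟩ := hF2.bounded_above_of_compact_support (hFc.fderiv ℝ)
  have hC1' : 0 ≤ C1 := (norm_nonneg _).trans (hC1 0)
  have hfin : IsFiniteMeasure (volume.restrict (ball (0 : E n) 1)) := by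
    constructor
    rw [Measure.restrict_apply_univ]
    exact measure_ball_lt_top
  have hn1 : (1 : ℝ≥0∞) ≤ (n : ℝ≥0∞) := by exact_mod_cast hn
  have hvm : AEStronglyMeasurable v (volume.restrict (ball (0 : E n) 1)) := h.mem_v.1
  have hGm : ∀ i, AEStronglyMeasurable (fun x => G x i) (volume.restrict (ball (0 : E n) 1)) :=
    fun i => (h.mem_G i).1
  have happ : Continuous (fun p : (E m →L[ℝ] E m) × E m => p.1 p.2) :=
    continuous_fst.clm_apply continuous_snd
  have hDm : ∀ i, AEStronglyMeasurable (fun x => fderiv ℝ F (v x) (G x i))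
      (volume.restrict (ball (0 : E n) 1)) := fun i =>
    happ.comp_aestronglyMeasurable ((hF2.comp_aestronglyMeasurable hvm).prodMk (hGm i))
  have hvind : (ball (0 : E n) 1).indicator v = v := by
    rw [indicator_eq_self]
    intro x hx
    by_contra h1
    exact hx (hv0 x h1)
  have hGind : ∀ i, (ball (0 : E n) 1).indicator (fun x => G x i) = fun x => G x i := by
    intro i
    rw [indicator_eq_self]
    intro x hx
    by_contra h1
    exact hx (hG0 x h1 i)
  have hvI : Integrable v := by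
    rw [← hvind, integrable_indicator_iff measurableSet_ball]
    exact h.mem_v.integrable hn1
  have hGI : ∀ i, Integrable (fun x => G x i) := by
    intro i
    rw [← hGind i, integrable_indicator_iff measurableSet_ball]
    exact (h.mem_G i).integrable hn1
  have hGL : ∀ i, MemLp (fun x => G x i) n := by
    intro i
    rw [← hGind i, memLp_indicator_iff_restrict measurableSet_ball]
    exact h.mem_G i
  obtain ⟨φ, Θ, M, hφ⟩ := exists_moll n
  refine ⟨MemLp.of_bound (hF1.comp_aestronglyMeasurable hvm) C0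
      (Eventually.of_forall fun x => hC0 _), fun i => ?_, ?_⟩
  · refine (h.mem_G i).of_le_mul (c := C1) (hDm i) (Eventually.of_forall fun x => ?_)
    exact (ContinuousLinearMap.le_opNorm _ _).trans
      (mul_le_mul_of_nonneg_right (hC1 _) (norm_nonneg _))
  intro ψ hψ hψc hψs i
  have hψ0 : ∀ x, x ∉ ball (0 : E n) 1 → ψ x = 0 := fun x hx =>
    image_eq_zero_of_notMem_tsupport fun h1 => hx (hψs h1)
  have hdψ0 : ∀ x, x ∉ ball (0 : E n) 1 → fderiv ℝ ψ x = 0 := by
    intro x hx
    by_contra h1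
    exact hx (hψs (support_fderiv_subset ℝ h1))
  obtain ⟨P0, hP0⟩ := hψ.continuous.bounded_above_of_compact_support hψc
  have hP0' : 0 ≤ P0 := (norm_nonneg _).trans (hP0 0)
  have c1 : Continuous (fun x => fderiv ℝ ψ x (ev i)) :=
    (hψ.continuous_fderiv hne).clm_apply continuous_const
  have s1 : HasCompactSupport (fun x => fderiv ℝ ψ x (ev i)) := by
    refine (hψc.fderiv ℝ).mono ?_
    intro x hx
    rw [Function.mem_support] at hx ⊢
    intro h0
    apply hx
    rw [h0]
    rfl
  have hAE := ubar_ae hφ v hvI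
  obtain ⟨hL1, hL2⟩ := ubar_Lp hn hφ (fun x => G x i) (hGI i) (hGL i)
  -- the left side
  have hleft : Tendsto (fun k => ∫ x, (fderiv ℝ ψ x (ev i)) • F (ubar φ v k x)) atTop
      (𝓝 (∫ x, (fderiv ℝ ψ x (ev i)) • F (v x))) := by
    refine tendsto_integral_of_dominated_convergence
      (fun x => ‖fderiv ℝ ψ x (ev i)‖ * C0) ?_ ?_ ?_ ?_
    · intro k
      exact (c1.smul (hF1.comp (ubar_smooth hφ v hvI k).continuous)).aestronglyMeasurable
    · exact ((c1.integrable_of_hasCompactSupport s1).norm).mul_const _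
    · intro k
      refine Eventually.of_forall fun x => ?_
      rw [norm_smul]
      exact mul_le_mul_of_nonneg_left (hC0 _) (norm_nonneg _)
    · filter_upwards [hAE] with x hx
      exact ((hF1.tendsto _).comp hx).const_smul _
  -- the right side
  have hr1 : Tendsto (fun k => ∫ x in ball (0 : E n) 1,
      ψ x • fderiv ℝ F (ubar φ v k x) (G x i)) atTop
      (𝓝 (∫ x in ball (0 : E n) 1, ψ x • fderiv ℝ F (v x) (G x i))) := by
    refine tendsto_integral_of_dominated_convergence
      (fun x => P0 * (C1 * ‖G x i‖)) ?_ ?_ ?_ ?_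
    · intro k
      exact hψ.continuous.aestronglyMeasurable.smul (happ.comp_aestronglyMeasurable
        ((hF2.comp (ubar_smooth hφ v hvI k).continuous).aestronglyMeasurable.prodMk (hGm i)))
    · exact (((h.mem_G i).integrable hn1).norm.const_mul _).const_mul _
    · intro k
      refine Eventually.of_forall fun x => ?_
      rw [norm_smul]
      refine mul_le_mul (hP0 x) ?_ (norm_nonneg _) hP0'
      exact (ContinuousLinearMap.le_opNorm _ _).trans
        (mul_le_mul_of_nonneg_right (hC1 _) (norm_nonneg _))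
    · filter_upwards [ae_restrict_of_ae hAE] with x hx
      have h2 : Tendsto (fun k => fderiv ℝ F (ubar φ v k x)) atTop (𝓝 (fderiv ℝ F (v x))) :=
        (hF2.tendsto _).comp hx
      have h6 : Tendsto (fun k => fderiv ℝ F (ubar φ v k x) (G x i)) atTop
          (𝓝 (fderiv ℝ F (v x) (G x i))) :=
        (happ.tendsto (fderiv ℝ F (v x), G x i)).comp (h2.prodMk_nhds tendsto_const_nhds)
      exact h6.const_smul _
  have hr2 : Tendsto (fun k => ∫ x in ball (0 : E n) 1,
      ψ x • fderiv ℝ F (ubar φ v k x) (ubar φ (fun x => G x i) k x - G x i)) atTop (𝓝 0) := by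
    have h3 := (echain_L1 hn hL2 (hGL i) hL1).const_mul (P0 * C1)
    rw [mul_zero] at h3
    refine squeeze_zero_norm (fun k => ?_) h3
    have hI1 : Integrable (fun x => ‖ubar φ (fun x => G x i) k x - G x i‖)
        (volume.restrict (ball (0 : E n) 1)) := by
      have h2 : MemLp (fun x => ubar φ (fun x => G x i) k x - G x i) n
          (volume.restrict (ball (0 : E n) 1)) := ((hL2 k).sub (hGL i)).restrict _
      exact (h2.integrable hn1).norm
    rw [← integral_const_mul]
    refine norm_integral_le_of_norm_le (hI1.const_mul _) (Eventually.of_forall fun x => ?_)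
    rw [norm_smul, mul_assoc]
    refine mul_le_mul (hP0 x) ?_ (norm_nonneg _) hP0'
    exact (ContinuousLinearMap.le_opNorm _ _).trans
      (mul_le_mul_of_nonneg_right (hC1 _) (norm_nonneg _))
  have hright : Tendsto (fun k => - ∫ x, ψ x • fderiv ℝ F (ubar φ v k x)
      (ubar φ (fun x => G x i) k x)) atTop
      (𝓝 (- ∫ x in ball (0 : E n) 1, ψ x • fderiv ℝ F (v x) (G x i))) := by
    refine Tendsto.neg ?_
    have h4 := hr2.add hr1
    rw [zero_add] at h4
    refine h4.congr fun k => ?_
    have hI2 : Integrable (fun x => ψ x • fderiv ℝ F (ubar φ v k x)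
        (ubar φ (fun x => G x i) k x - G x i)) (volume.restrict (ball (0 : E n) 1)) := by
      have h2 : MemLp (fun x => ubar φ (fun x => G x i) k x - G x i) n
          (volume.restrict (ball (0 : E n) 1)) := ((hL2 k).sub (hGL i)).restrict _
      have h2' := h2.integrable hn1
      refine (h2'.norm.const_mul (P0 * C1)).mono' ?_ (Eventually.of_forall fun x => ?_)
      · exact hψ.continuous.aestronglyMeasurable.smul (happ.comp_aestronglyMeasurable
          ((hF2.comp (ubar_smooth hφ v hvI k).continuous).aestronglyMeasurable.prodMk h2'.1))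
      · rw [norm_smul, mul_assoc]
        refine mul_le_mul (hP0 x) ?_ (norm_nonneg _) hP0'
        exact (ContinuousLinearMap.le_opNorm _ _).trans
          (mul_le_mul_of_nonneg_right (hC1 _) (norm_nonneg _))
    have hI3 : Integrable (fun x => ψ x • fderiv ℝ F (ubar φ v k x) (G x i))
        (volume.restrict (ball (0 : E n) 1)) := by
      have h2' := (h.mem_G i).integrable hn1
      refine (h2'.norm.const_mul (P0 * C1)).mono' ?_ (Eventually.of_forall fun x => ?_)
      · exact hψ.continuous.aestronglyMeasurable.smul (happ.comp_aestronglyMeasurable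
          ((hF2.comp (ubar_smooth hφ v hvI k).continuous).aestronglyMeasurable.prodMk h2'.1))
      · rw [norm_smul, mul_assoc]
        refine mul_le_mul (hP0 x) ?_ (norm_nonneg _) hP0'
        exact (ContinuousLinearMap.le_opNorm _ _).trans
          (mul_le_mul_of_nonneg_right (hC1 _) (norm_nonneg _))
    rw [← integral_add hI2 hI3]
    have h7 : ∫ x, ψ x • fderiv ℝ F (ubar φ v k x) (ubar φ (fun x => G x i) k x) =
        ∫ x in ball (0 : E n) 1, ψ x • fderiv ℝ F (ubar φ v k x)
          (ubar φ (fun x => G x i) k x) := by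
      refine (setIntegral_eq_integral_of_forall_compl_eq_zero (fun x hx => ?_)).symm
      rw [hψ0 x hx, zero_smul]
    rw [h7]
    refine integral_congr_ae (Eventually.of_forall fun x => ?_)
    show ψ x • fderiv ℝ F (ubar φ v k x) (ubar φ (fun x => G x i) k x - G x i) +
      ψ x • fderiv ℝ F (ubar φ v k x) (G x i) =
      ψ x • fderiv ℝ F (ubar φ v k x) (ubar φ (fun x => G x i) k x)
    rw [← smul_add, ← map_add, sub_add_cancel]
  have hev : ∀ᶠ k in atTop, ∫ x, (fderiv ℝ ψ x (ev i)) • F (ubar φ v k x) =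
      - ∫ x, ψ x • fderiv ℝ F (ubar φ v k x) (ubar φ (fun x => G x i) k x) := by
    filter_upwards [echain_rad hψc hψs] with k hk
    exact echain_id hφ F hF h hvI hv0 hG0 hψ hψc k hk i
  have h5 := tendsto_nhds_unique (hleft.congr' hev) hright
  rw [setIntegral_eq_integral_of_forall_compl_eq_zero (s := ball (0 : E n) 1)
    (fun x hx => by rw [hdψ0 x hx]; simp)]
  exact h5

theorem chain_compact {n m : ℕ} (hn : 1 ≤ n) (F : E m → E m) (hF : ContDiff ℝ ∞ F)
    (hFc : HasCompactSupport F) {v : E n → E m} {G : E n → Fin n → E m}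
    (h : IsWeakGrad (ball 0 1) v G) :
    IsWeakGrad (ball 0 1) (fun x => F (v x)) (fun x i => fderiv ℝ F (v x) (G x i)) := by
  have hev : ∀ᵐ x ∂(volume.restrict (ball (0 : E n) 1)), x ∈ ball (0 : E n) 1 :=
    ae_restrict_mem measurableSet_ball
  obtain ⟨v', hv'⟩ : ∃ v' : E n → E m, v' = (ball (0 : E n) 1).indicator v := ⟨_, rfl⟩
  obtain ⟨G', hG'⟩ : ∃ G' : E n → Fin n → E m, G' = (ball (0 : E n) 1).indicator G := ⟨_, rfl⟩
  have h1 : ∀ x ∈ ball (0 : E n) 1, v' x = v x := fun x hx => by
    rw [hv', indicator_of_mem hx]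
  have h2 : ∀ x ∈ ball (0 : E n) 1, G' x = G x := fun x hx => by
    rw [hG', indicator_of_mem hx]
  have h3 : IsWeakGrad (ball 0 1) v' G' := by
    refine weakGrad_congr h ?_ ?_
    · filter_upwards [hev] with x hx
      exact (h1 x hx).symm
    · filter_upwards [hev] with x hx i
      rw [h2 x hx]
  have h4 := echain_core hn F hF hFc h3 (fun x hx => by rw [hv', indicator_of_notMem hx])
    (fun x hx i => by rw [hG', indicator_of_notMem hx]; rfl)
  refine weakGrad_congr h4 ?_ ?_
  · filter_upwards [hev] with x hx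
    show F (v' x) = F (v x)
    rw [h1 x hx]
  · filter_upwards [hev] with x hx i
    show fderiv ℝ F (v' x) (G' x i) = fderiv ℝ F (v x) (G x i)
    rw [h1 x hx, h2 x hx]

end H60NH
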