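import Pool.Agent.H60.NH.Def

/-!
# [H60 NH EGN] Derivative of `(1/n) |H_t|^n`

`n >= 2`. `gn H ^ n = (∑ ‖H_i‖²)^(n/2)`. If `H_t` is differentiable at `t` with derivative `H'`, then
`(1/n) gn(H_t)^n` has the derivative `gn(H)^(n-2) ∑ <H_i, H'_i>`: for `gn H ≠ 0` by the chain rule; if `gn H = 0` at `t`, then
`gn(H_{t+h})^n = O(|h|^n)`, `n >= 2`: if `n = 2` compute directly (`gn^2 = ∑‖H_i‖²`), for `n > 2` the derivative is `0`.
`gn_inner`: `|∑ <a_i, b_i>| <= gn a · gn b` (Cauchy-Schwarz).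
-/

set_option autoImplicit false

namespace H60NH

open MeasureTheory Metric Set Filter Topology
open scoped ENNReal NNReal ContDiff

private theorem egn_pow {n : ℕ} (c : Fin n → ℝ) (hc : ∀ i, 0 ≤ c i) (k : ℕ) :
    Real.sqrt (∑ i, c i) ^ k = (∑ i, c i) ^ ((k : ℝ) / 2) := by
  have h0 : 0 ≤ ∑ i, c i := Finset.sum_nonneg fun i _ => hc i
  rw [Real.sqrt_eq_rpow, ← Real.rpow_natCast, ← Real.rpow_mul h0]
  congr 1
  ring

theorem gn_inner {n m : ℕ} (a b : Fin n → E m) : |∑ i, inner ℝ (a i) (b i)| ≤ gn a * gn b := by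
  calc |∑ i, inner ℝ (a i) (b i)| ≤ ∑ i, |inner ℝ (a i) (b i)| := Finset.abs_sum_le_sum_abs _ _
    _ ≤ ∑ i, ‖a i‖ * ‖b i‖ := Finset.sum_le_sum fun i _ => abs_real_inner_le_norm _ _
    _ ≤ gn a * gn b := Real.sum_mul_le_sqrt_mul_sqrt _ _ _

theorem gn_deriv {n m : ℕ} (hn : 2 ≤ n) (H : ℝ → Fin n → E m) (H' : Fin n → E m) (t : ℝ)
    (hH : ∀ i, HasDerivAt (fun s => H s i) (H' i) t) :
    HasDerivAt (fun s => (1 / (n : ℝ)) * gn (H s) ^ n)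
      (gn (H t) ^ (n - 2) * ∑ i, inner ℝ (H t i) (H' i)) t := by
  have hn0 : (n : ℝ) ≠ 0 := by
    have : n ≠ 0 := by omega
    exact_mod_cast this
  have hn2 : (2 : ℝ) ≤ n := by exact_mod_cast hn
  have h1 : HasDerivAt (fun s => ∑ i, ‖H s i‖ ^ 2) (∑ i, 2 * inner ℝ (H t i) (H' i)) t :=
    HasDerivAt.fun_sum fun i _ => (hH i).norm_sq
  have h2 := (h1.rpow_const (p := (n : ℝ) / 2) (Or.inr (by linarith))).const_mul (1 / (n : ℝ))
  have h3 : (fun s => (1 / (n : ℝ)) * gn (H s) ^ n) =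
      fun s => (1 / (n : ℝ)) * (∑ i, ‖H s i‖ ^ 2) ^ ((n : ℝ) / 2) := by
    funext s
    congr 1
    exact egn_pow (fun i => ‖H s i‖ ^ 2) (fun i => sq_nonneg _) n
  have h4 : gn (H t) ^ (n - 2) * ∑ i, inner ℝ (H t i) (H' i) =
      1 / (n : ℝ) * ((∑ i, 2 * inner ℝ (H t i) (H' i)) * ((n : ℝ) / 2) *
        (∑ i, ‖H t i‖ ^ 2) ^ ((n : ℝ) / 2 - 1)) := by
    have h5 : gn (H t) ^ (n - 2) = (∑ i, ‖H t i‖ ^ 2) ^ ((n : ℝ) / 2 - 1) := by
      have h6 := egn_pow (fun i => ‖H t i‖ ^ 2) (fun i => sq_nonneg _) (n - 2)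
      have h7 : ((n - 2 : ℕ) : ℝ) / 2 = (n : ℝ) / 2 - 1 := by
        rw [Nat.cast_sub hn]
        push_cast
        ring
      rw [h7] at h6
      exact h6
    rw [h5, ← Finset.mul_sum]
    field_simp
  rw [h3, h4]
  exact h2

end H60NH
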