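import Pool.Agent.H60.NH.EPi
import Pool.Agent.H60.NH.EGn

/-!
# [H60 NH EDER] The derivative of the energy

`n >= 2`. Let `t₀ > 0` with `t₀ sup ‖φ‖ < δ`. For `|t| < t₀`: `energy (ball 0 1) (π ∘ (u + tφ)) = (1/n) ∫ gn (H_t x)^n`,
`H_t x i = Dπ(u + tφ)(G_i + t ∂_iφ)` (`chain_pi`, `energy_eq`). For a.e. `x` (`u x ∈ N`) `t ↦ H_t x i` is differentiable with derivative
`H'_t = D2π(u+tφ)(φ)(G_i + t∂_iφ) + Dπ(u+tφ) ∂_iφ`, `‖H'_t‖ <= C (1 + |G|)` with `C` depending on `φ`, and by `gn_deriv`,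
`gn_inner` the derivative of the integrand is bounded by `gn(H_t)^(n-1) gn(H'_t) <= C (1 + gn G)^n`, integrable.
`hasDerivAt_integral_of_dominated_loc_of_deriv_le` at `t = 0`: the derivative is
`∫ gn(H_0)^(n-2) ∑ <H_0 i, H'_0 i>`, `H_0 i = Dπ(u) G_i = G_i` (`tan_ae`), and
`<G_i, D2π(u)(φ)(G_i)> = <D2π(u)(G_i)(φ), G_i> = <φ, D2π(u)(G_i)(G_i)>` (`symm2`, `symm3`),
`<G_i, Dπ(u)∂_iφ> = <Dπ(u) G_i, ∂_iφ> = <G_i, ∂_iφ>` (`symm1`).
By uniqueness of the derivative the integral is `0` if the derivative of the energy at `0` is `0`.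
-/

set_option autoImplicit false

namespace H60NH

open MeasureTheory Metric Set Filter Topology
open scoped ENNReal NNReal ContDiff

theorem ed_norm_le_gn {n m : ℕ} (a : Fin n → E m) (i : Fin n) : ‖a i‖ ≤ gn a := by
  unfold gn
  refine Real.le_sqrt_of_sq_le ?_
  exact Finset.single_le_sum (f := fun i => ‖a i‖ ^ 2) (fun j _ => sq_nonneg _)
    (Finset.mem_univ i)

theorem ed_gn_nonneg {n m : ℕ} (a : Fin n → E m) : 0 ≤ gn a := Real.sqrt_nonneg _

theorem ed_gn_le {n m : ℕ} (a : Fin n → E m) {K : ℝ} (hK : 0 ≤ K) (h : ∀ i, ‖a i‖ ≤ K) :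
    gn a ≤ n * K := by
  unfold gn
  refine Real.sqrt_le_iff.2 ⟨by positivity, ?_⟩
  calc ∑ i, ‖a i‖ ^ 2 ≤ ∑ _i : Fin n, K ^ 2 :=
        Finset.sum_le_sum fun i _ => pow_le_pow_left₀ (norm_nonneg _) (h i) 2
    _ = n * K ^ 2 := by simp
    _ ≤ (n * K) ^ 2 := by
        rcases Nat.eq_zero_or_pos n with h0 | h0
        · subst h0; simp
        · have h1 : (1 : ℝ) ≤ n := by exact_mod_cast h0
          have h2 : (n : ℝ) * K ^ 2 ≤ n * (n * K ^ 2) := by
            refine mul_le_mul_of_nonneg_left ?_ (by positivity)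
            nlinarith [sq_nonneg K]
          calc (n : ℝ) * K ^ 2 ≤ n * (n * K ^ 2) := h2
            _ = (n * K) ^ 2 := by ring

theorem ed_gn_sum {n m : ℕ} (a : Fin n → E m) : gn a ≤ ∑ i, ‖a i‖ := by
  unfold gn
  refine Real.sqrt_le_iff.2 ⟨Finset.sum_nonneg fun i _ => norm_nonneg _, ?_⟩
  exact Finset.sum_sq_le_sq_sum_of_nonneg fun i _ => norm_nonneg _

theorem ed_gn_memLp {n m : ℕ} {μ : Measure (E n)} {G : E n → Fin n → E m}
    (h : ∀ i, MemLp (fun x => G x i) n μ) : MemLp (fun x => gn (G x)) n μ := by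
  have h1 : MemLp (fun x => ∑ i, ‖G x i‖) n μ :=
    memLp_finsetSum Finset.univ fun i _ => (h i).norm
  refine h1.mono ?_ ?_
  · unfold gn
    have h2 : AEMeasurable (fun x => ∑ i, ‖G x i‖ ^ 2) μ :=
      Finset.aemeasurable_fun_sum Finset.univ fun i _ =>
        ((h i).aestronglyMeasurable.norm.aemeasurable.pow_const 2)
    exact (Real.continuous_sqrt.measurable.comp_aemeasurable h2).aestronglyMeasurable
  · refine Eventually.of_forall fun x => ?_
    rw [Real.norm_of_nonneg (ed_gn_nonneg _),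
      Real.norm_of_nonneg (Finset.sum_nonneg fun i _ => norm_nonneg _)]
    exact ed_gn_sum _

theorem ed_apply_meas {F G : Type*} [NormedAddCommGroup F] [NormedSpace ℝ F]
    [NormedAddCommGroup G] [NormedSpace ℝ G] {α : Type*} [MeasurableSpace α] {μ : Measure α}
    {A : α → F →L[ℝ] G} {v : α → F} (hA : AEStronglyMeasurable A μ)
    (hv : AEStronglyMeasurable v μ) : AEStronglyMeasurable (fun x => A x (v x)) μ :=
  ContinuousLinearMap.aestronglyMeasurable_comp₂ (ContinuousLinearMap.id ℝ (F →L[ℝ] G)) hA hv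

/-- bounds for a smooth test map -/
theorem ed_test_bound {n m : ℕ} (φ : E n → E m) (hφ : ContDiff ℝ ∞ φ)
    (hc : HasCompactSupport φ) :
    ∃ M : ℝ, 1 ≤ M ∧ (∀ x, ‖φ x‖ ≤ M) ∧ ∀ x i, ‖fderiv ℝ φ x (ev i)‖ ≤ M := by
  obtain ⟨M₀, h0⟩ := hc.exists_bound_of_continuous hφ.continuous
  obtain ⟨M₁, h1⟩ := (hc.fderiv (𝕜 := ℝ)).exists_bound_of_continuous
    (hφ.continuous_fderiv (by simp))
  refine ⟨max 1 (max M₀ M₁), le_max_left _ _, fun x => (h0 x).trans ?_, fun x i => ?_⟩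
  · exact (le_max_left _ _).trans (le_max_right _ _)
  · calc ‖fderiv ℝ φ x (ev i)‖ ≤ ‖fderiv ℝ φ x‖ * ‖(ev i : E n)‖ :=
          ContinuousLinearMap.le_opNorm _ _
      _ = ‖fderiv ℝ φ x‖ := by
          have : ‖(ev i : E n)‖ = 1 := by
            unfold ev
            simp
          rw [this, mul_one]
      _ ≤ M₁ := h1 x
      _ ≤ max 1 (max M₀ M₁) := (le_max_right _ _).trans (le_max_right _ _)

theorem ed_open {m : ℕ} (N : Set (E m)) (r : ℝ) : IsOpen {y : E m | infDist y N < r} :=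
  isOpen_lt (continuous_infDist_pt N) continuous_const

theorem ed_near {m : ℕ} {N : Set (E m)} {y w : E m} (hy : y ∈ N) {δ : ℝ} (hw : ‖w‖ < δ) :
    infDist (y + w) N < δ := by
  refine (infDist_le_dist_of_mem hy).trans_lt ?_
  rw [dist_eq_norm, add_sub_cancel_left]
  exact hw

theorem ed_hasFDeriv {m : ℕ} {N : Set (E m)} {π : E m → E m} {δ C : ℝ} (hT : TC N π δ C)
    {y : E m} (hy : infDist y N < 4 * δ) :
    HasFDerivAt (fderiv ℝ π) (D2 π y) y := by
  have h1 : ContDiffAt ℝ ∞ π y := hT.smooth.contDiffAt ((ed_open N (4 * δ)).mem_nhds hy)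
  have h2 : ContDiffAt ℝ 1 (fderiv ℝ π) y := h1.fderiv_right (by norm_cast)
  exact (h2.differentiableAt (by norm_num)).hasFDerivAt

theorem el_smooth {n m : ℕ} (hn : 2 ≤ n) {N : Set (E m)} {π : E m → E m} {δ C : ℝ}
    (hT : TC N π δ C) {u : E n → E m} {G : E n → Fin n → E m} (h : IsWeakGrad (ball 0 1) u G)
    (hu : ∀ᵐ x ∂(volume.restrict (ball (0 : E n) 1)), u x ∈ N) (φ : E n → E m)
    (hφ : ContDiff ℝ ∞ φ) (hc : HasCompactSupport φ)
    (hd : HasDerivAt (fun t : ℝ => energy (ball (0 : E n) 1) (fun x => π (u x + t • φ x))) 0 0) :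
    ∫ x in ball (0 : E n) 1, gn (G x) ^ (n - 2) * (∑ i, (inner ℝ (G x i) (fderiv ℝ φ x (ev i))
      + inner ℝ (D2 π (u x) (G x i) (G x i)) (φ x))) = 0 := by
  have hn1 : 1 ≤ n := by omega
  have hδ := hT.pos
  have hC1 := hT.one_le
  obtain ⟨M, hM1, hM0, hM⟩ := ed_test_bound φ hφ hc
  set μ := volume.restrict (ball (0 : E n) 1) with hμ
  have : IsFiniteMeasure μ := by
    rw [hμ]
    exact ⟨by rw [Measure.restrict_apply_univ]; exact measure_ball_lt_top⟩
  obtain ⟨t₀, ht₀, ht₁, ht₂⟩ : ∃ t₀ : ℝ, 0 < t₀ ∧ t₀ ≤ 1 ∧ t₀ * M < δ := by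
    refine ⟨min 1 (δ / (2 * M)), lt_min one_pos (by positivity), min_le_left _ _, ?_⟩
    have h1 : min 1 (δ / (2 * M)) * M ≤ δ / (2 * M) * M :=
      mul_le_mul_of_nonneg_right (min_le_right _ _) (by linarith)
    have h2 : δ / (2 * M) * M = δ / 2 := by field_simp
    linarith
  have hsmall : ∀ t ∈ ball (0 : ℝ) t₀, ∀ x, ‖t • φ x‖ < δ := by
    intro t ht x
    rw [mem_ball_zero_iff] at ht
    rw [norm_smul]
    calc ‖t‖ * ‖φ x‖ ≤ ‖t‖ * M := mul_le_mul_of_nonneg_left (hM0 x) (norm_nonneg _)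
      _ ≤ t₀ * M := mul_le_mul_of_nonneg_right ht.le (by linarith)
      _ < δ := ht₂
  -- the family
  let H : ℝ → E n → Fin n → E m := fun t x i =>
    fderiv ℝ π (u x + t • φ x) (G x i + t • fderiv ℝ φ x (ev i))
  let H' : ℝ → E n → Fin n → E m := fun t x i =>
    D2 π (u x + t • φ x) (φ x) (G x i + t • fderiv ℝ φ x (ev i)) +
      fderiv ℝ π (u x + t • φ x) (fderiv ℝ φ x (ev i))
  let F : ℝ → E n → ℝ := fun t x => (1 / (n : ℝ)) * gn (H t x) ^ n
  let F' : ℝ → E n → ℝ := fun t x =>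
    gn (H t x) ^ (n - 2) * ∑ i, inner ℝ (H t x i) (H' t x i)
  have hwg : ∀ t ∈ ball (0 : ℝ) t₀, IsWeakGrad (ball 0 1) (fun x => π (u x + t • φ x)) (H t) :=
    fun t ht => chain_pi hn1 hT h hu φ hφ hc t (hsmall t ht)
  have hint : ∀ t ∈ ball (0 : ℝ) t₀, Integrable (F t) μ := by
    intro t ht
    have h1 := (ed_gn_memLp (hwg t ht).mem_G).integrable_norm_pow (by omega)
    have h2 : (fun x => ‖gn (H t x)‖ ^ n) = fun x => gn (H t x) ^ n := by
      funext x
      rw [Real.norm_of_nonneg (ed_gn_nonneg _)]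
    rw [h2] at h1
    exact h1.const_mul _
  have hen : ∀ t ∈ ball (0 : ℝ) t₀,
      energy (ball (0 : E n) 1) (fun x => π (u x + t • φ x)) = ∫ x, F t x ∂μ := by
    intro t ht
    rw [energy_eq hn1 isOpen_ball (hwg t ht), ← integral_const_mul]
  have h0mem : (0 : ℝ) ∈ ball (0 : ℝ) t₀ := mem_ball_self ht₀
  -- pointwise derivative
  have hder : ∀ᵐ x ∂μ, ∀ t ∈ ball (0 : ℝ) t₀, HasDerivAt (F · x) (F' t x) t := by
    filter_upwards [hu] with x hx t ht
    refine gn_deriv hn (fun s => H s x) (H' t x) t fun i => ?_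
    have hy : infDist (u x + t • φ x) N < 4 * δ :=
      (ed_near hx (hsmall t ht x)).trans (by linarith)
    have h1 : HasDerivAt (fun s : ℝ => u x + s • φ x) (φ x) t := by
      have := (hasDerivAt_id t).smul_const (φ x)
      simpa using this.const_add (u x)
    have h2 : HasDerivAt (fun s : ℝ => fderiv ℝ π (u x + s • φ x))
        (D2 π (u x + t • φ x) (φ x)) t :=
      HasFDerivAt.comp_hasDerivAt t (ed_hasFDeriv hT hy) h1
    have h3 : HasDerivAt (fun s : ℝ => G x i + s • fderiv ℝ φ x (ev i))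
        (fderiv ℝ φ x (ev i)) t := by
      have := (hasDerivAt_id t).smul_const (fderiv ℝ φ x (ev i))
      simpa using this.const_add (G x i)
    exact h2.clm_apply h3
  -- bound
  let K : ℝ := n * (C * M)
  have hK0 : 0 ≤ K := by positivity
  have hbd : ∀ᵐ x ∂μ, ∀ t ∈ ball (0 : ℝ) t₀, ‖F' t x‖ ≤ ‖K * (gn (G x) + (M + 1))‖ ^ n := by
    filter_upwards [hu] with x hx t ht
    have hy : infDist (u x + t • φ x) N < 4 * δ :=
      (ed_near hx (hsmall t ht x)).trans (by linarith)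
    have hg0 := ed_gn_nonneg (G x)
    have htt : |t| ≤ 1 := by
      rw [mem_ball_zero_iff, Real.norm_eq_abs] at ht
      linarith
    have hv : ∀ i, ‖G x i + t • fderiv ℝ φ x (ev i)‖ ≤ gn (G x) + M := by
      intro i
      calc ‖G x i + t • fderiv ℝ φ x (ev i)‖ ≤ ‖G x i‖ + ‖t • fderiv ℝ φ x (ev i)‖ :=
            norm_add_le _ _
        _ ≤ gn (G x) + M := by
            refine add_le_add (ed_norm_le_gn _ _) ?_
            rw [norm_smul, Real.norm_eq_abs]
            calc |t| * ‖fderiv ℝ φ x (ev i)‖ ≤ 1 * M :=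
                  mul_le_mul htt (hM x i) (norm_nonneg _) zero_le_one
              _ = M := one_mul _
    have hb1 := hT.bd1 _ hy
    have hb2 := hT.bd2 _ hy
    have hH : ∀ i, ‖H t x i‖ ≤ C * (gn (G x) + M) := fun i =>
      (ContinuousLinearMap.le_opNorm _ _).trans
        (mul_le_mul hb1 (hv i) (norm_nonneg _) (by linarith))
    have hH' : ∀ i, ‖H' t x i‖ ≤ C * M * (gn (G x) + (M + 1)) := by
      intro i
      have e1 : ‖D2 π (u x + t • φ x) (φ x) (G x i + t • fderiv ℝ φ x (ev i))‖ ≤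
          C * M * (gn (G x) + M) := by
        calc ‖D2 π (u x + t • φ x) (φ x) (G x i + t • fderiv ℝ φ x (ev i))‖
            ≤ ‖D2 π (u x + t • φ x) (φ x)‖ * ‖G x i + t • fderiv ℝ φ x (ev i)‖ :=
              ContinuousLinearMap.le_opNorm _ _
          _ ≤ (C * M) * (gn (G x) + M) := by
              refine mul_le_mul ?_ (hv i) (norm_nonneg _) (by positivity)
              exact (ContinuousLinearMap.le_opNorm _ _).trans
                (mul_le_mul hb2 (hM0 x) (norm_nonneg _) (by linarith))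
      have e2 : ‖fderiv ℝ π (u x + t • φ x) (fderiv ℝ φ x (ev i))‖ ≤ C * M :=
        (ContinuousLinearMap.le_opNorm _ _).trans
          (mul_le_mul hb1 (hM x i) (norm_nonneg _) (by linarith))
      calc ‖H' t x i‖ ≤ _ := norm_add_le _ _
        _ ≤ C * M * (gn (G x) + M) + C * M := add_le_add e1 e2
        _ = C * M * (gn (G x) + (M + 1)) := by ring
    have g1 : gn (H t x) ≤ K * (gn (G x) + (M + 1)) := by
      have hCM : C ≤ C * M := le_mul_of_one_le_right (by linarith) hM1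
      calc gn (H t x) ≤ n * (C * M * (gn (G x) + (M + 1))) := by
            refine ed_gn_le _ (by positivity) fun i => (hH i).trans ?_
            exact mul_le_mul hCM (by linarith) (by positivity) (by positivity)
        _ = K * (gn (G x) + (M + 1)) := by ring
    have g2 : gn (H' t x) ≤ K * (gn (G x) + (M + 1)) := by
      calc gn (H' t x) ≤ n * (C * M * (gn (G x) + (M + 1))) :=
            ed_gn_le _ (by positivity) hH'
        _ = K * (gn (G x) + (M + 1)) := by ring
    have hb0 : 0 ≤ K * (gn (G x) + (M + 1)) := by positivity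
    rw [Real.norm_of_nonneg hb0]
    calc ‖F' t x‖ = gn (H t x) ^ (n - 2) * |∑ i, inner ℝ (H t x i) (H' t x i)| := by
          rw [norm_mul, norm_pow, Real.norm_of_nonneg (ed_gn_nonneg _), Real.norm_eq_abs]
      _ ≤ gn (H t x) ^ (n - 2) * (gn (H t x) * gn (H' t x)) :=
          mul_le_mul_of_nonneg_left (gn_inner _ _) (pow_nonneg (ed_gn_nonneg _) _)
      _ ≤ (K * (gn (G x) + (M + 1))) ^ (n - 2) *
            ((K * (gn (G x) + (M + 1))) * (K * (gn (G x) + (M + 1)))) := by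
          refine mul_le_mul (pow_le_pow_left₀ (ed_gn_nonneg _) g1 _) ?_
            (mul_nonneg (ed_gn_nonneg _) (ed_gn_nonneg _)) (pow_nonneg hb0 _)
          exact mul_le_mul g1 g2 (ed_gn_nonneg _) hb0
      _ = (K * (gn (G x) + (M + 1))) ^ n := by
          rw [← pow_two, ← pow_add]
          congr 1
          omega
  have hbi : Integrable (fun x => ‖K * (gn (G x) + (M + 1))‖ ^ n) μ := by
    have h1 : MemLp (fun x => K * (gn (G x) + (M + 1))) n μ :=
      ((ed_gn_memLp h.mem_G).add (memLp_const (M + 1))).const_mul K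
    exact h1.integrable_norm_pow (by omega)
  -- measurability
  have hmu : AEMeasurable u μ := h.mem_v.aestronglyMeasurable.aemeasurable
  have hmD1 : AEStronglyMeasurable (fun x => fderiv ℝ π (u x)) μ :=
    ((measurable_fderiv ℝ π).comp_aemeasurable hmu).aestronglyMeasurable
  have hmD2 : AEStronglyMeasurable (fun x => D2 π (u x)) μ :=
    ((measurable_fderiv ℝ (fderiv ℝ π)).comp_aemeasurable hmu).aestronglyMeasurable
  have hmφ : AEStronglyMeasurable φ μ := hφ.continuous.aestronglyMeasurable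
  have hmdφ : ∀ i, AEStronglyMeasurable (fun x => fderiv ℝ φ x (ev i)) μ := fun i =>
    ((hφ.continuous_fderiv (by simp)).clm_apply continuous_const).aestronglyMeasurable
  have hmF' : AEStronglyMeasurable (F' 0) μ := by
    have hH0 : ∀ i, AEStronglyMeasurable (fun x => H 0 x i) μ := fun i =>
      (hwg 0 h0mem).mem_G i |>.aestronglyMeasurable
    have hH0' : ∀ i, AEStronglyMeasurable (fun x => H' 0 x i) μ := by
      intro i
      have e1 : (fun x => H' 0 x i) = fun x => D2 π (u x) (φ x) (G x i) +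
          fderiv ℝ π (u x) (fderiv ℝ φ x (ev i)) := by
        funext x
        show D2 π (u x + (0 : ℝ) • φ x) (φ x) (G x i + (0 : ℝ) • fderiv ℝ φ x (ev i)) +
          fderiv ℝ π (u x + (0 : ℝ) • φ x) (fderiv ℝ φ x (ev i)) = _
        rw [zero_smul, zero_smul, add_zero, add_zero]
      rw [e1]
      have e2 : AEStronglyMeasurable (fun x => fderiv ℝ π (u x) (fderiv ℝ φ x (ev i))) μ :=
        ed_apply_meas hmD1 (hmdφ i)
      have e3 : AEStronglyMeasurable (fun x => D2 π (u x) (φ x)) μ :=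
        ed_apply_meas (F := E m) (G := E m →L[ℝ] E m) hmD2 hmφ
      have e4 : AEStronglyMeasurable (fun x => D2 π (u x) (φ x) (G x i)) μ :=
        ed_apply_meas (F := E m) (G := E m) e3 (h.mem_G i).aestronglyMeasurable
      exact e4.add e2
    refine AEStronglyMeasurable.mul ?_ ?_
    · exact ((ed_gn_memLp (hwg 0 h0mem).mem_G).aestronglyMeasurable).pow _
    · refine Finset.aestronglyMeasurable_fun_sum Finset.univ fun i _ => ?_
      exact (hH0 i).inner (hH0' i)
  have hmain := hasDerivAt_integral_of_dominated_loc_of_deriv_le (μ := μ) (F := F) (F' := F')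
    (x₀ := (0 : ℝ)) (s := ball (0 : ℝ) t₀)
    (bound := fun x => ‖K * (gn (G x) + (M + 1))‖ ^ n) (ball_mem_nhds _ ht₀)
    (by
      filter_upwards [ball_mem_nhds (0 : ℝ) ht₀] with t ht
      exact (hint t ht).aestronglyMeasurable)
    (hint 0 h0mem) hmF' hbd hbi hder
  have heq : (fun t : ℝ => energy (ball (0 : E n) 1) (fun x => π (u x + t • φ x))) =ᶠ[𝓝 0]
      fun t => ∫ x, F t x ∂μ := by
    filter_upwards [ball_mem_nhds (0 : ℝ) ht₀] with t ht
    exact hen t ht
  have hz : ∫ x, F' 0 x ∂μ = 0 :=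
    (hmain.2.congr_of_eventuallyEq heq).unique hd
  rw [← hz]
  refine integral_congr_ae ?_
  filter_upwards [hu, tan_ae hn1 hT h hu] with x hx htan
  have hy : infDist (u x) N < 4 * δ := by
    rw [infDist_zero_of_mem hx]
    linarith
  have hHx : H 0 x = G x := by
    funext i
    show fderiv ℝ π (u x + (0 : ℝ) • φ x) (G x i + (0 : ℝ) • fderiv ℝ φ x (ev i)) = _
    rw [zero_smul, zero_smul, add_zero, add_zero]
    exact htan i
  show _ = gn (H 0 x) ^ (n - 2) * ∑ i, inner ℝ (H 0 x i) (H' 0 x i)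
  rw [hHx]
  congr 1
  refine Finset.sum_congr rfl fun i _ => ?_
  show _ = inner ℝ (G x i) (D2 π (u x + (0 : ℝ) • φ x) (φ x)
    (G x i + (0 : ℝ) • fderiv ℝ φ x (ev i)) +
      fderiv ℝ π (u x + (0 : ℝ) • φ x) (fderiv ℝ φ x (ev i)))
  rw [zero_smul, zero_smul, add_zero, add_zero, inner_add_right]
  have e1 : inner ℝ (G x i) (D2 π (u x) (φ x) (G x i)) =
      inner ℝ (D2 π (u x) (G x i) (G x i)) (φ x) := by
    rw [hT.symm2 _ hy, real_inner_comm, hT.symm3 _ hy, real_inner_comm]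
  have e2 : inner ℝ (G x i) (fderiv ℝ π (u x) (fderiv ℝ φ x (ev i))) =
      inner ℝ (G x i) (fderiv ℝ φ x (ev i)) := by
    rw [← hT.symm1 _ hy, htan i]
  rw [e1, e2, add_comm]

end H60NH
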