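import Pool.Agent.H60.NH.Def

/-!
# [H60 NH TIDEM] `π` is a retraction, `Dπ(π y) Dπ(y) = Dπ(y)`, and its derivative

1. `pi_fixed`: for `y ∈ N`, `infDist y N = 0 < δ`, so `dist y (π y) = 0`.
2. `pi_pi`: for `infDist y N < δ`, `π y ∈ N`, so `π (π y) = π y`.
3. `dpi_idem`: differentiate `π ∘ π = π` (an identity on the open set `{infDist · N < δ}`, all of
whose values `π y` have `infDist = 0`) by the chain rule.
4. `dpi_idem2`: for `y ∈ N` differentiate the identity `Dπ(π z) (Dπ(z) b) = Dπ(z) b` (item 3, valid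
for all `z` near `y`) in `z` at `z = y` in the direction `a`: with `π y = y`,
`D2 π y (Dπ(y) a) (Dπ(y) b) + Dπ(y) (D2 π y a b) = D2 π y a b`; and `Dπ(y) a = a`.
Here `D2 π y = fderiv ℝ (fderiv ℝ π) y`.
5. `d2_symm`: symmetry of second derivatives of the smooth map `π` at `y`
(e.g. `ContDiffAt.isSymmSndFDerivAt` or `second_derivative_symmetric`).
-/

set_option autoImplicit false

namespace H60NH

open MeasureTheory Metric Set Filter Topology
open scoped ENNReal NNReal ContDiff

theorem nbhd_open {m : ℕ} (N : Set (E m)) (δ : ℝ) : IsOpen {y : E m | infDist y N < δ} :=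
  isOpen_lt (continuous_infDist_pt N) continuous_const

theorem pi_smoothAt {m : ℕ} {N : Set (E m)} {δ : ℝ} {π : E m → E m} (hN : IsTarget N δ π)
    (y : E m) (hy : infDist y N < δ) : ContDiffAt ℝ ∞ π y :=
  hN.smooth.contDiffAt ((nbhd_open N δ).mem_nhds hy)

theorem infDist_mem_lt {m : ℕ} {N : Set (E m)} {δ : ℝ} {π : E m → E m} (hN : IsTarget N δ π)
    (y : E m) (hy : y ∈ N) : infDist y N < δ := by
  rw [infDist_zero_of_mem hy]
  exact hN.pos

theorem pi_fixed {m : ℕ} {N : Set (E m)} {δ : ℝ} {π : E m → E m} (hN : IsTarget N δ π)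
    (y : E m) (hy : y ∈ N) : π y = y := by
  have h1 := hN.dist_eq y (infDist_mem_lt hN y hy)
  rw [infDist_zero_of_mem hy, dist_eq_zero] at h1
  exact h1.symm

theorem dpi_idem {m : ℕ} {N : Set (E m)} {δ : ℝ} {π : E m → E m} (hN : IsTarget N δ π)
    (y : E m) (hy : infDist y N < δ) (a : E m) :
    fderiv ℝ π (π y) (fderiv ℝ π y a) = fderiv ℝ π y a := by
  have h1 : HasFDerivAt π (fderiv ℝ π y) y :=
    ((pi_smoothAt hN y hy).differentiableAt (by simp)).hasFDerivAt
  have h2 : HasFDerivAt π (fderiv ℝ π (π y)) (π y) :=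
    ((pi_smoothAt hN (π y) (infDist_mem_lt hN _ (hN.mem y hy))).differentiableAt
      (by simp)).hasFDerivAt
  have h3 := h2.comp y h1
  have h4 : π ∘ π =ᶠ[𝓝 y] π := by
    filter_upwards [(nbhd_open N δ).mem_nhds hy] with z hz
    exact pi_fixed hN (π z) (hN.mem z hz)
  have h5 := h3.congr_of_eventuallyEq h4.symm
  have h6 := h5.unique h1
  exact congrArg (fun L => L a) h6

theorem dpi_idem2 {m : ℕ} {N : Set (E m)} {δ : ℝ} {π : E m → E m} (hN : IsTarget N δ π)
    (y : E m) (hy : y ∈ N) (a b : E m) (ha : fderiv ℝ π y a = a) :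
    D2 π y a (fderiv ℝ π y b) + fderiv ℝ π y (D2 π y a b) = D2 π y a b := by
  have hy' := infDist_mem_lt hN y hy
  have hyy := pi_fixed hN y hy
  have hs := pi_smoothAt hN y hy'
  have h1 : HasFDerivAt π (fderiv ℝ π y) y := (hs.differentiableAt (by simp)).hasFDerivAt
  have h2 : HasFDerivAt (fderiv ℝ π) (D2 π y) y :=
    ((hs.fderiv_right (m := 1) (by norm_cast)).differentiableAt (by simp)).hasFDerivAt
  have h2' : HasFDerivAt (fderiv ℝ π) (D2 π y) (π y) := by rw [hyy]; exact h2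
  have h3 : HasFDerivAt (fun z => fderiv ℝ π (π z)) ((D2 π y).comp (fderiv ℝ π y)) y :=
    h2'.comp y h1
  have h4 : HasFDerivAt (fun z => fderiv ℝ π z b) ((D2 π y).flip b) y :=
    (h2.clm_apply (hasFDerivAt_const b y)).congr_fderiv (by ext v; simp)
  have h5 := h3.clm_apply h4
  have h6 : (fun z => fderiv ℝ π (π z) (fderiv ℝ π z b)) =ᶠ[𝓝 y] fun z => fderiv ℝ π z b := by
    filter_upwards [(nbhd_open N δ).mem_nhds hy'] with z hz
    exact dpi_idem hN z hz b
  have h7 := (h5.congr_of_eventuallyEq h6.symm).unique h4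
  have h8 := congrArg (fun L => L a) h7
  have h9 : (((fderiv ℝ π (π y)).comp ((D2 π y).flip b)) +
      ((D2 π y).comp (fderiv ℝ π y)).flip ((fderiv ℝ π y) b)) a =
      fderiv ℝ π y (D2 π y a b) + D2 π y a (fderiv ℝ π y b) := by
    rw [hyy]
    change fderiv ℝ π y (D2 π y a b) + D2 π y (fderiv ℝ π y a) (fderiv ℝ π y b) = _
    rw [ha]
  rw [add_comm, ← h9]
  exact h8

theorem d2_symm {m : ℕ} {N : Set (E m)} {δ : ℝ} {π : E m → E m} (hN : IsTarget N δ π)
    (y : E m) (hy : infDist y N < δ) (a b : E m) : D2 π y a b = D2 π y b a := by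
  have hs := pi_smoothAt hN y hy
  have h1 := hs.isSymmSndFDerivAt (by
    rw [minSmoothness_of_isRCLikeNormedField]
    exact WithTop.coe_le_coe.2 le_top)
  exact h1 a b

end H60NH
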