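import Pool.Agent.H60.NH.TSym
import Pool.Agent.H60.NH.TIdem

/-!
# [H60 NH TTC] The constants of the target

Take `δ₁ = δ / 8`. The set `{y | infDist y N <= δ/2}` is compact (closed, bounded as `N` is
compact), contained in the open set `{infDist < δ}` on which `π` is smooth, so `‖fderiv π‖`,
`‖D2 π‖ = ‖fderiv (fderiv π)‖` and `‖fderiv (fderiv (fderiv π))‖` are continuous, hence bounded, on
it; let `C >= 1` be a bound for all three and for `‖y‖`, `y ∈ N`.
* `smooth, mem, dist_eq, fixed, symm1 (TSYM), idem, symm2, idem2 (TIDEM)` are restrictions of known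
facts, as `4 δ₁ < δ`.
* `symm3`: differentiate `<Dπ(z) b, c> = <b, Dπ(z) c>` (all `z` near `y`) at `y` in the direction `a`.
* `lip0, lip1, lip2`: if `infDist y N < 2 δ₁` and `‖y - y'‖ < 2 δ₁`, the segment from `y` to `y'`
stays in `{infDist < 4 δ₁}` (`infDist` is 1-Lipschitz), in which `π`, `fderiv π`, `D2 π` have
derivatives bounded by `C`; mean value inequality on the segment
(`Convex.norm_image_sub_le_of_norm_fderiv_le` on `ball y (2 δ₁)`).
-/

set_option autoImplicit false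

namespace H60NH

open MeasureTheory Metric Set Filter Topology
open scoped ENNReal NNReal ContDiff

private theorem TTc_lip {F F' : Type*} [NormedAddCommGroup F] [NormedSpace ℝ F]
    [NormedAddCommGroup F'] [NormedSpace ℝ F'] {N : Set F} {δ r C : ℝ} {f : F → F'}
    (hf : ContDiffOn ℝ ∞ f {y | infDist y N < δ}) (hr : 4 * r < δ)
    (hb : ∀ y, infDist y N < 4 * r → ‖fderiv ℝ f y‖ ≤ C) (y y' : F) (hy : infDist y N < 2 * r)
    (hyy : ‖y - y'‖ < 2 * r) : ‖f y - f y'‖ ≤ C * ‖y - y'‖ := by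
  have hopen : IsOpen {y : F | infDist y N < δ} :=
    isOpen_lt (continuous_infDist_pt N) continuous_const
  have hsub : ∀ z ∈ ball y (2 * r), infDist z N < 4 * r := by
    intro z hz
    have h1 := infDist_le_infDist_add_dist (s := N) (x := z) (y := y)
    have h2 : dist z y < 2 * r := hz
    linarith
  have hd : ∀ z ∈ ball y (2 * r), DifferentiableAt ℝ f z := by
    intro z hz
    have h1 : z ∈ {y : F | infDist y N < δ} := lt_trans (hsub z hz) hr
    exact (hf.contDiffAt (hopen.mem_nhds h1)).differentiableAt (by simp)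
  have h0 : 0 < 2 * r := lt_of_le_of_lt (norm_nonneg _) hyy
  refine Convex.norm_image_sub_le_of_norm_fderiv_le (𝕜 := ℝ) hd
    (fun z hz => hb z (hsub z hz)) (convex_ball y (2 * r)) (x := y') (y := y) ?_
    (mem_ball_self h0)
  rw [mem_ball, dist_comm, dist_eq_norm]
  exact hyy

private theorem TTc_bd {F F' : Type*} [NormedAddCommGroup F] [ProperSpace F]
    [NormedAddCommGroup F'] {N : Set F} (hN : IsCompact N) (hne : N.Nonempty) {δ r : ℝ}
    {f : F → F'} (hf : ContinuousOn f {y | infDist y N < δ}) (hr : 4 * r < δ) :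
    ∃ C : ℝ, ∀ y, infDist y N < 4 * r → ‖f y‖ ≤ C := by
  have hc : IsCompact {y : F | infDist y N ≤ 4 * r} := by
    refine hN.cthickening (r := 4 * r) |>.of_isClosed_subset
      (isClosed_le (continuous_infDist_pt N) continuous_const) ?_
    intro y hy
    show infEDist y N ≤ ENNReal.ofReal (4 * r)
    rw [← ENNReal.ofReal_toReal (infEDist_ne_top hne (x := y))]
    exact ENNReal.ofReal_le_ofReal hy
  obtain ⟨C, hC⟩ := hc.exists_bound_of_continuousOn
    (hf.mono (fun y (hy : infDist y N ≤ 4 * r) => lt_of_le_of_lt hy hr))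
  exact ⟨C, fun y hy => hC y hy.le⟩

private theorem TTc_symm {F : Type*} [NormedAddCommGroup F] [InnerProductSpace ℝ F]
    {T : Set F} (hT : IsOpen T) {A : F → F →L[ℝ] F} (hA : ∀ y ∈ T, DifferentiableAt ℝ A y)
    (hs : ∀ y ∈ T, ∀ a b, inner ℝ (A y a) b = inner ℝ a (A y b)) (y : F) (hy : y ∈ T)
    (a b c : F) : inner ℝ (fderiv ℝ A y a b) c = inner ℝ b (fderiv ℝ A y a c) := by
  let L : (F →L[ℝ] F) →L[ℝ] ℝ := (innerSL ℝ c).comp (ContinuousLinearMap.apply ℝ F b) -
    (innerSL ℝ b).comp (ContinuousLinearMap.apply ℝ F c)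
  have hL : ∀ M : F →L[ℝ] F, L M = inner ℝ c (M b) - inner ℝ b (M c) := fun M => rfl
  have h1 : HasFDerivAt (fun z => L (A z)) (L.comp (fderiv ℝ A y)) y :=
    L.hasFDerivAt.comp y (hA y hy).hasFDerivAt
  have h2 : (fun z => L (A z)) =ᶠ[𝓝 y] fun _ => (0 : ℝ) := by
    filter_upwards [hT.mem_nhds hy] with z hz
    rw [hL, real_inner_comm, hs z hz b c, sub_self]
  have h3 : HasFDerivAt (fun z => L (A z)) (0 : F →L[ℝ] ℝ) y :=
    (hasFDerivAt_const (0 : ℝ) y).congr_of_eventuallyEq h2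
  have h4 : L (fderiv ℝ A y a) = 0 := by
    have h5 := congrArg (fun M : F →L[ℝ] ℝ => M a) (h1.unique h3)
    exact h5
  rw [hL] at h4
  rw [real_inner_comm]
  linarith

private theorem TTc_lip2 {F F' : Type*} [NormedAddCommGroup F] [NormedSpace ℝ F]
    [ProperSpace F] [NormedAddCommGroup F'] [NormedSpace ℝ F'] {N : Set F} (hN : IsCompact N)
    (hne : N.Nonempty) {δ r : ℝ} {f : F → F'}
    (hf : ContDiffOn ℝ ∞ f {y | infDist y N < δ}) (hr : 4 * r < δ) :
    ∃ C : ℝ, ∀ y y' : F, infDist y N < 2 * r → ‖y - y'‖ < 2 * r →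
      ‖f y - f y'‖ ≤ C * ‖y - y'‖ := by
  have hopen : IsOpen {y : F | infDist y N < δ} :=
    isOpen_lt (continuous_infDist_pt N) continuous_const
  have h1 : ContDiffOn ℝ ∞ (fderiv ℝ f) {y : F | infDist y N < δ} :=
    hf.fderiv_of_isOpen hopen (by simp)
  obtain ⟨C, hC⟩ := TTc_bd hN hne h1.continuousOn hr
  exact ⟨C, fun y y' hy hyy => TTc_lip hf hr hC y y' hy hyy⟩

private theorem TTc_consts {F : Type*} [NormedAddCommGroup F] [InnerProductSpace ℝ F]
    [ProperSpace F] {N : Set F} (hN : IsCompact N) (hne : N.Nonempty) {δ r : ℝ} {π : F → F}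
    (h0 : ContDiffOn ℝ ∞ π {y | infDist y N < δ}) (hr : 4 * r < δ) :
    ContDiffOn ℝ ∞ (fderiv ℝ π) {y : F | infDist y N < δ} ∧
    ∃ C : ℝ, 1 ≤ C ∧ (∀ y, infDist y N < 4 * r → ‖fderiv ℝ π y‖ ≤ C) ∧
      (∀ y, infDist y N < 4 * r → ‖fderiv ℝ (fderiv ℝ π) y‖ ≤ C) ∧
      (∀ y y', infDist y N < 2 * r → ‖y - y'‖ < 2 * r → ‖π y - π y'‖ ≤ C * ‖y - y'‖) ∧
      (∀ y y', infDist y N < 2 * r → ‖y - y'‖ < 2 * r →
        ‖fderiv ℝ π y - fderiv ℝ π y'‖ ≤ C * ‖y - y'‖) ∧
      (∀ y y', infDist y N < 2 * r → ‖y - y'‖ < 2 * r →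
        ‖fderiv ℝ (fderiv ℝ π) y - fderiv ℝ (fderiv ℝ π) y'‖ ≤ C * ‖y - y'‖) ∧
      (∀ y ∈ N, ‖y‖ ≤ C) := by
  have hopen : IsOpen {y : F | infDist y N < δ} :=
    isOpen_lt (continuous_infDist_pt N) continuous_const
  have h1 : ContDiffOn ℝ ∞ (fderiv ℝ π) {y : F | infDist y N < δ} :=
    h0.fderiv_of_isOpen hopen (by simp)
  have h2 : ContDiffOn ℝ ∞ (fderiv ℝ (fderiv ℝ π)) {y : F | infDist y N < δ} :=
    h1.fderiv_of_isOpen hopen (by simp)
  obtain ⟨C1, hC1⟩ := TTc_bd hN hne h1.continuousOn hr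
  obtain ⟨C2, hC2⟩ := TTc_bd hN hne h2.continuousOn hr
  obtain ⟨C3, hC3⟩ := TTc_lip2 hN hne h2 hr
  obtain ⟨C4, hC4⟩ := hN.exists_bound_of_continuousOn (f := fun y : F => y)
    continuousOn_id
  obtain ⟨C, hC⟩ : ∃ C : ℝ, 1 ≤ C ∧ C1 ≤ C ∧ C2 ≤ C ∧ C3 ≤ C ∧ C4 ≤ C :=
    ⟨max 1 (max C1 (max C2 (max C3 C4))), by simp, by simp, by simp, by simp, by simp⟩
  obtain ⟨hc0, hc1, hc2, hc3, hc4⟩ := hC
  have b1 : ∀ y, infDist y N < 4 * r → ‖fderiv ℝ π y‖ ≤ C :=
    fun y hy => (hC1 y hy).trans hc1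
  have b2 : ∀ y, infDist y N < 4 * r → ‖fderiv ℝ (fderiv ℝ π) y‖ ≤ C :=
    fun y hy => (hC2 y hy).trans hc2
  exact ⟨h1, C, hc0, b1, b2, fun y y' hy hyy => TTc_lip h0 hr b1 y y' hy hyy,
    fun y y' hy hyy => TTc_lip h1 hr b2 y y' hy hyy,
    fun y y' hy hyy => (hC3 y y' hy hyy).trans
      (mul_le_mul_of_nonneg_right hc3 (norm_nonneg _)),
    fun y hy => (hC4 y hy).trans hc4⟩

theorem exists_TC {m : ℕ} {N : Set (E m)} {δ : ℝ} {π : E m → E m} (hN : IsTarget N δ π) :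
    ∃ δ₁ C : ℝ, 4 * δ₁ ≤ δ ∧ TC N π δ₁ C := by
  have hδ := hN.pos
  have hr : 4 * (δ / 8) < δ := by linarith
  have hopen : IsOpen {y : E m | infDist y N < δ} :=
    isOpen_lt (continuous_infDist_pt N) continuous_const
  have hle : ∀ y : E m, infDist y N < 4 * (δ / 8) → infDist y N < δ :=
    fun y hy => lt_trans hy hr
  have h0 := hN.smooth
  obtain ⟨h1, C, hc0, b1, b2, l0, l1, l2, b4⟩ := TTc_consts hN.compact hN.nonempty h0 hr
  refine ⟨δ / 8, C, hr.le, ?_⟩
  exact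
    { compact := hN.compact
      nonempty := hN.nonempty
      pos := by linarith
      one_le := hc0
      smooth := h0.mono (fun y hy => hle y hy)
      mem := fun y hy => hN.mem y (hle y hy)
      dist_eq := fun y hy => by rw [← dist_eq_norm]; exact hN.dist_eq y (hle y hy)
      fixed := fun y hy => pi_fixed hN y hy
      symm1 := fun y hy a b => dpi_symm hN y (hle y hy) a b
      idem := fun y hy a => dpi_idem hN y (hle y hy) a
      symm2 := fun y hy a b => d2_symm hN y (hle y hy) a b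
      symm3 := fun y hy a b c => TTc_symm hopen
        (fun z hz => (h1.contDiffAt (hopen.mem_nhds hz)).differentiableAt (by simp))
        (fun z hz a b => dpi_symm hN z hz a b) y (hle y hy) a b c
      idem2 := fun y hy a b ha => dpi_idem2 hN y hy a b ha
      bd1 := b1
      bd2 := b2
      lip0 := l0
      lip1 := l1
      lip2 := l2
      bdN := b4 }

end H60NH
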