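import Pool.Agent.H60.NH.EChain
import Pool.Agent.H60.NH.TTc

/-!
# [H60 NH EPI] The chain rule for the projection

1. `ext_pi`: smooth cutoff `ρ : E m → [0,1]`, `ρ = 1` on the closed set `{infDist · N <= 2 δ}`, `ρ = 0` on the closed
set `{infDist · N >= 3 δ}` (`exists_contMDiff_zero_iff_one_iff_of_isClosed` or
`exists_contDiff_...` partitions of unity); `F = ρ • π` (and `0` where `infDist >= 3 δ`) is smooth, compactly
supported (`N` bounded), and equals `π` on `{infDist < 2δ}`, an open set, so the derivatives agree there too.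
2. `u + tφ` has the weak gradient `G_i + t ∂_iφ` (integration by parts for the smooth `φ`).
3. For a.e. `x ∈ ball 0 1`, `u x ∈ N`, so `infDist (u x + t φ x) N < δ`: `π` and `F` agree near this point, hence
`F(u + tφ) = π(u + tφ)` and the gradients agree a.e. (`chain_compact`, `weakGrad_congr`).
4. `tan_ae`: `t = 0`: `π ∘ u = u` a.e. (`fixed`), so `G_i` and `Dπ(u) G_i` are both weak gradients of `u`
(`weakGrad_unique`).
-/

set_option autoImplicit false

namespace H60NH

open MeasureTheory Metric Set Filter Topology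
open scoped ENNReal NNReal ContDiff

theorem ext_pi {m : ℕ} {N : Set (E m)} {π : E m → E m} {δ C : ℝ} (hT : TC N π δ C) :
    ∃ F : E m → E m, ContDiff ℝ ∞ F ∧ HasCompactSupport F ∧
      ∀ y, infDist y N < 2 * δ → F y = π y := by
  have hδ := hT.pos
  have hcont : Continuous fun y : E m => infDist y N := continuous_infDist_pt N
  have hs : IsClosed {y : E m | 3 * δ ≤ infDist y N} := isClosed_le continuous_const hcont
  have ht : IsClosed {y : E m | infDist y N ≤ 2 * δ} := isClosed_le hcont continuous_const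
  have hd : Disjoint {y : E m | 3 * δ ≤ infDist y N} {y : E m | infDist y N ≤ 2 * δ} := by
    rw [Set.disjoint_left]
    intro y h1 h2
    simp only [Set.mem_ofPred_eq] at h1 h2
    linarith
  obtain ⟨f, hf0, hf1, _⟩ := exists_contMDiffMap_zero_one_of_isClosed (n := (⊤ : ℕ∞))
    (modelWithCornersSelf ℝ (E m)) hs ht hd
  have hf : ContDiff ℝ ∞ (f : E m → ℝ) := f.contMDiff.contDiff
  have hz : ∀ y, 3 * δ ≤ infDist y N → f y = 0 := fun y hy => hf0 hy
  refine ⟨fun y => f y • π y, ?_, ?_, ?_⟩
  · rw [contDiff_iff_contDiffAt]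
    intro y
    rcases lt_or_ge (infDist y N) (4 * δ) with h | h
    · have hopen : IsOpen {y : E m | infDist y N < 4 * δ} := isOpen_lt hcont continuous_const
      exact hf.contDiffAt.smul (hT.smooth.contDiffAt (hopen.mem_nhds h))
    · have hopen : IsOpen {y : E m | 3 * δ < infDist y N} := isOpen_lt continuous_const hcont
      have hy : y ∈ {y : E m | 3 * δ < infDist y N} := by
        simp only [Set.mem_ofPred_eq]
        linarith
      have h1 : (fun y => f y • π y) =ᶠ[𝓝 y] fun _ => 0 := by
        filter_upwards [hopen.mem_nhds hy] with z hz'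
        rw [hz z (le_of_lt hz'), zero_smul]
      exact (contDiffAt_const (c := (0 : E m))).congr_of_eventuallyEq h1
  · refine HasCompactSupport.intro (isCompact_closedBall (0 : E m) (C + 3 * δ)) fun y hy => ?_
    rw [mem_closedBall_zero_iff, not_le] at hy
    rw [hz y ?_, zero_smul]
    rw [le_infDist hT.nonempty]
    intro z hz'
    have h1 := hT.bdN z hz'
    rw [dist_eq_norm]
    have h2 := norm_sub_norm_le y z
    linarith
  · intro y hy
    have h1 : f y = 1 := hf1 (le_of_lt hy)
    show f y • π y = π y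
    rw [h1, one_smul]

theorem epi_shift {n m : ℕ} (hn : 1 ≤ n) {u : E n → E m} {G : E n → Fin n → E m}
    (h : IsWeakGrad (ball 0 1) u G) (φ : E n → E m)
    (hφ : ContDiff ℝ ∞ φ) (hc : HasCompactSupport φ) (t : ℝ) :
    IsWeakGrad (ball 0 1) (fun x => u x + t • φ x)
      (fun x i => G x i + t • fderiv ℝ φ x (ev i)) := by
  have hφc : Continuous φ := hφ.continuous
  have hdc : ∀ i, Continuous fun x => fderiv ℝ φ x (ev i) := fun i =>
    (hφ.continuous_fderiv (by simp)).clm_apply continuous_const
  have hdcs : ∀ i, HasCompactSupport fun x => fderiv ℝ φ x (ev i) := fun i =>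
    hc.fderiv_apply ℝ (ev i)
  refine ⟨?_, fun i => ?_, fun ψ hψ hψc hψs i => ?_⟩
  · exact h.mem_v.add (((hφc.memLp_of_hasCompactSupport hc).restrict _).const_smul t)
  · exact (h.mem_G i).add ((((hdc i).memLp_of_hasCompactSupport (hdcs i)).restrict _).const_smul t)
  · have hψd : Continuous fun x => fderiv ℝ ψ x (ev i) :=
      (hψ.continuous_fderiv (by simp)).clm_apply continuous_const
    have hψdc : HasCompactSupport fun x => fderiv ℝ ψ x (ev i) := hψc.fderiv_apply ℝ (ev i)
    have hI1 : Integrable (fun x => fderiv ℝ ψ x (ev i) • φ x) :=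
      (hψd.smul hφc).integrable_of_hasCompactSupport hψdc.smul_right
    have hI2 : Integrable (fun x => ψ x • fderiv ℝ φ x (ev i)) :=
      (hψ.continuous.smul (hdc i)).integrable_of_hasCompactSupport hψc.smul_right
    have hI3 : Integrable (fun x => ψ x • φ x) :=
      (hψ.continuous.smul hφc).integrable_of_hasCompactSupport hψc.smul_right
    have hparts := integral_smul_fderiv_eq_neg_fderiv_smul_of_integrable (v := ev i)
      hI1 hI2 hI3 (fun x _ => (hψ.differentiable (by simp)) x)
      (fun x _ => (hφ.differentiable (by simp)) x)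
    have hz1 : ∀ x, x ∉ ball (0 : E n) 1 → ψ x = 0 := fun x hx =>
      image_eq_zero_of_notMem_tsupport fun h' => hx (hψs h')
    have hz2 : ∀ x, x ∉ ball (0 : E n) 1 → fderiv ℝ ψ x (ev i) = 0 := by
      intro x hx
      have h1 : x ∉ tsupport ψ := fun h' => hx (hψs h')
      have h2 : fderiv ℝ ψ x = 0 := by
        by_contra h3
        exact h1 (support_fderiv_subset ℝ h3)
      rw [h2]
      rfl
    have hparts' : ∫ x in ball (0 : E n) 1, (fderiv ℝ ψ x (ev i)) • φ x =
        - ∫ x in ball (0 : E n) 1, ψ x • fderiv ℝ φ x (ev i) := by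
      rw [setIntegral_eq_integral_of_forall_compl_eq_zero (fun x hx => by rw [hz2 x hx, zero_smul]),
        setIntegral_eq_integral_of_forall_compl_eq_zero (fun x hx => by rw [hz1 x hx, zero_smul]),
        hparts, neg_neg]
    have hn' : (1 : ℝ≥0∞) ≤ (n : ℝ≥0∞) := by exact_mod_cast hn
    have hfin : IsFiniteMeasure (volume.restrict (ball (0 : E n) 1)) :=
      isFiniteMeasure_restrict.mpr measure_ball_lt_top.ne
    have hu1 : Integrable u (volume.restrict (ball (0 : E n) 1)) := h.mem_v.integrable hn'
    have hG1 : Integrable (fun x => G x i) (volume.restrict (ball (0 : E n) 1)) :=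
      (h.mem_G i).integrable hn'
    have hJ1 : Integrable (fun x => fderiv ℝ ψ x (ev i) • u x)
        (volume.restrict (ball (0 : E n) 1)) :=
      hu1.smul_of_top_right ((hψd.memLp_of_hasCompactSupport hψdc).restrict _)
    have hJ2 : Integrable (fun x => ψ x • G x i) (volume.restrict (ball (0 : E n) 1)) :=
      hG1.smul_of_top_right ((hψ.continuous.memLp_of_hasCompactSupport hψc).restrict _)
    have hA : ∫ x in ball (0 : E n) 1, (fderiv ℝ ψ x (ev i)) • (u x + t • φ x) =
        (∫ x in ball (0 : E n) 1, (fderiv ℝ ψ x (ev i)) • u x) +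
          t • ∫ x in ball (0 : E n) 1, (fderiv ℝ ψ x (ev i)) • φ x := by
      have hK : Integrable (fun x => t • fderiv ℝ ψ x (ev i) • φ x)
        (volume.restrict (ball (0 : E n) 1)) := hI1.restrict.smul t
      rw [← integral_smul, ← integral_add hJ1 hK]
      refine integral_congr_ae (Filter.Eventually.of_forall fun x => ?_)
      simp only [smul_add, smul_smul, mul_comm]
    have hB : ∫ x in ball (0 : E n) 1, ψ x • (G x i + t • fderiv ℝ φ x (ev i)) =
        (∫ x in ball (0 : E n) 1, ψ x • G x i) +
          t • ∫ x in ball (0 : E n) 1, ψ x • fderiv ℝ φ x (ev i) := by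
      have hK : Integrable (fun x => t • ψ x • fderiv ℝ φ x (ev i))
        (volume.restrict (ball (0 : E n) 1)) := hI2.restrict.smul t
      rw [← integral_smul, ← integral_add hJ2 hK]
      refine integral_congr_ae (Filter.Eventually.of_forall fun x => ?_)
      simp only [smul_add, smul_smul, mul_comm]
    rw [hA, hB, h.eq ψ hψ hψc hψs i, hparts']
    module

theorem chain_pi {n m : ℕ} (hn : 1 ≤ n) {N : Set (E m)} {π : E m → E m} {δ C : ℝ}
    (hT : TC N π δ C) {u : E n → E m} {G : E n → Fin n → E m} (h : IsWeakGrad (ball 0 1) u G)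
    (hu : ∀ᵐ x ∂(volume.restrict (ball (0 : E n) 1)), u x ∈ N) (φ : E n → E m)
    (hφ : ContDiff ℝ ∞ φ) (hc : HasCompactSupport φ) (t : ℝ) (ht : ∀ x, ‖t • φ x‖ < δ) :
    IsWeakGrad (ball 0 1) (fun x => π (u x + t • φ x))
      (fun x i => fderiv ℝ π (u x + t • φ x) (G x i + t • fderiv ℝ φ x (ev i))) := by
  obtain ⟨F, hF, hFc, hFe⟩ := ext_pi hT
  have hδ := hT.pos
  have h1 := chain_compact hn F hF hFc (epi_shift hn h φ hφ hc t)
  have hopen : IsOpen {y : E m | infDist y N < 2 * δ} :=
    isOpen_lt (continuous_infDist_pt N) continuous_const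
  have h2 : ∀ x, u x ∈ N → infDist (u x + t • φ x) N < 2 * δ := by
    intro x hx
    have h3 : infDist (u x + t • φ x) N ≤ dist (u x + t • φ x) (u x) := infDist_le_dist_of_mem hx
    rw [dist_eq_norm, add_sub_cancel_left] at h3
    have h4 := ht x
    linarith
  refine weakGrad_congr h1 ?_ ?_
  · filter_upwards [hu] with x hx
    exact hFe _ (h2 x hx)
  · filter_upwards [hu] with x hx
    intro i
    have h5 : F =ᶠ[𝓝 (u x + t • φ x)] π := by
      filter_upwards [hopen.mem_nhds (h2 x hx)] with y hy
      exact hFe y hy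
    rw [h5.fderiv_eq]

theorem tan_ae {n m : ℕ} (hn : 1 ≤ n) {N : Set (E m)} {π : E m → E m} {δ C : ℝ}
    (hT : TC N π δ C) {u : E n → E m} {G : E n → Fin n → E m} (h : IsWeakGrad (ball 0 1) u G)
    (hu : ∀ᵐ x ∂(volume.restrict (ball (0 : E n) 1)), u x ∈ N) :
    ∀ᵐ x ∂(volume.restrict (ball (0 : E n) 1)), ∀ i, fderiv ℝ π (u x) (G x i) = G x i := by
  have h1 := chain_pi hn hT h hu (fun _ => 0) contDiff_const
    (HasCompactSupport.intro isCompact_empty fun _ _ => rfl) 0
    (fun x => by simpa using hT.pos)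
  have h2 : IsWeakGrad (ball 0 1) u (fun x i => fderiv ℝ π (u x) (G x i)) := by
    refine weakGrad_congr h1 ?_ ?_
    · filter_upwards [hu] with x hx
      simp only [smul_zero, add_zero]
      exact hT.fixed _ hx
    · refine Filter.Eventually.of_forall fun x i => ?_
      simp
  exact weakGrad_unique hn isOpen_ball h2 h

end H60NH
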