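import Pool.Agent.H60.NH.EDer
import Pool.Agent.H60.NH.EC1

/-!
# [H60 NH ESOL] Weakly `n`-harmonic maps are solutions

`G` from `sobolev`. Take measurable representatives of `u` and of the `G · i` (a.e. strongly measurable with
respect to the restricted measure), and set them to zero outside `ball 0 1`: `u'`, `G'`; they agree a.e. in the
ball with `u`, `G`. `wg`: `weakGrad_congr`; `memN`; `tan`: `tan_ae`; `el`: for `Y` with support in `ball 0 1`: the
integral over the whole space is the one over the ball (the integrand vanishes outside), `el_C1`, `el_smooth`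
(with `u'`, `G'`; the energies of `π ∘ (u + tφ)` and of `π ∘ (u' + tφ)` agree, because `energy` depends only on the
a.e. class: `IsWeakGrad` does (`weakGrad_congr`), and `energy_eq`; or apply `el_smooth` to `u` and then change the
representatives under the integral).
-/

set_option autoImplicit false

namespace H60NH

open MeasureTheory Metric Set Filter Topology
open scoped ENNReal NNReal ContDiff

theorem exists_sol {n m : ℕ} (hn : 2 ≤ n) {N : Set (E m)} {π : E m → E m} {δ C : ℝ}
    (hT : TC N π δ C) (u : E n → E m) (hu : IsWeaklyNHarmonic N π u) :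
    ∃ (u' : E n → E m) (G' : E n → Fin n → E m), Sol N π 1 u' G' ∧
      u' =ᵐ[volume.restrict (ball (0 : E n) 1)] u := by
  classical
  obtain ⟨G, hG⟩ := hu.sobolev
  have hms : MeasurableSet (ball (0 : E n) 1) := measurableSet_ball
  have hmu := hG.mem_v.aestronglyMeasurable
  have hmG : ∀ i, AEStronglyMeasurable (fun x => G x i) (volume.restrict (ball (0 : E n) 1)) :=
    fun i => (hG.mem_G i).aestronglyMeasurable
  let u0 : E n → E m := hmu.mk u
  let G0 : Fin n → E n → E m := fun i => (hmG i).mk (fun x => G x i)
  let u' : E n → E m := (ball (0 : E n) 1).indicator u0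
  let G' : E n → Fin n → E m := fun x i => (ball (0 : E n) 1).indicator (G0 i) x
  have hu' : u =ᵐ[volume.restrict (ball (0 : E n) 1)] u' := by
    filter_upwards [hmu.ae_eq_mk, ae_restrict_mem hms] with x h1 h2
    show u x = (ball (0 : E n) 1).indicator u0 x
    rw [Set.indicator_of_mem h2]
    exact h1
  have hG' : ∀ᵐ x ∂(volume.restrict (ball (0 : E n) 1)), ∀ i, G x i = G' x i := by
    have h0 : ∀ᵐ x ∂(volume.restrict (ball (0 : E n) 1)), ∀ i, G x i = G0 i x :=
      ae_all_iff.2 fun i => (hmG i).ae_eq_mk
    filter_upwards [h0, ae_restrict_mem hms] with x h1 h2 i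
    show G x i = (ball (0 : E n) 1).indicator (G0 i) x
    rw [Set.indicator_of_mem h2]
    exact h1 i
  have hwg : IsWeakGrad (ball 0 1) u' G' := weakGrad_congr hG hu' hG'
  have hmem' : ∀ᵐ x ∂(volume.restrict (ball (0 : E n) 1)), u' x ∈ N := by
    filter_upwards [hu', hu.mem] with x h1 h2
    rw [← h1]
    exact h2
  refine ⟨u', G', ⟨?_, ?_, hwg, hmem', ?_, ?_, ?_, ?_⟩, hu'.symm⟩
  · exact hmu.stronglyMeasurable_mk.measurable.indicator hms
  · intro i
    exact (hmG i).stronglyMeasurable_mk.measurable.indicator hms
  · exact tan_ae (by omega) hT hwg hmem'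
  · intro x hx
    exact Set.indicator_of_notMem hx _
  · intro x hx i
    exact Set.indicator_of_notMem hx _
  · intro Y hY hYc hYs
    have h1 := el_C1 hn hT hG hu.mem
      (fun φ hφ hφc hφs => el_smooth hn hT hG hu.mem φ hφ hφc (hu.crit φ hφ hφc hφs)) Y hY hYc hYs
    rw [← setIntegral_eq_integral_of_forall_compl_eq_zero (s := ball (0 : E n) 1), ← h1]
    · refine integral_congr_ae ?_
      filter_upwards [hu', hG'] with x e1 e2
      have e3 : G' x = G x := funext fun i => (e2 i).symm
      show gn (G' x) ^ (n - 2) * (∑ i, (inner ℝ (G' x i) (fderiv ℝ Y x (ev i))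
        + inner ℝ (D2 π (u' x) (G' x i) (G' x i)) (Y x))) = _
      rw [e3, ← e1]
    · intro x hx
      have e0 : ∀ i, G' x i = 0 := fun i => Set.indicator_of_notMem hx _
      have e4 : ∑ i, (inner ℝ (G' x i) (fderiv ℝ Y x (ev i))
        + inner ℝ (D2 π (u' x) (G' x i) (G' x i)) (Y x)) = 0 := by
        refine Finset.sum_eq_zero fun i _ => ?_
        rw [e0 i, inner_zero_left, map_zero]
        simp
      rw [e4, mul_zero]

end H60NH
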