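import Pool.Agent.H60.NH.Def3

/-!
# [H60 NH FFIELD] The test field

`Y x = χ x ^ n • b x`, `tsupport χ ⊆ ball 0 1`, `b` of class `C^1` on `ball 0 4`. At a point `x ∈ ball 0 4` (an open
set) `Y` is a product of `C^1` maps; at a point outside `tsupport χ` it vanishes in a neighbourhood; these two
open sets cover the space: `Y` is `C^1`. `tsupport Y ⊆ tsupport χ ⊆ ball 0 1 ⊆ ball 0 64`, a closed subset of
the bounded set: compact. The derivative in `ball 0 4`: product rule. (`n >= 1`; `fderiv (χ^n) = n χ^(n-1) fderiv χ`.)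
-/

set_option autoImplicit false

namespace H60NH

open MeasureTheory Metric Set Filter Topology
open scoped ENNReal NNReal ContDiff

theorem test_field {n m : ℕ} (hn : 1 ≤ n) {χ : E n → ℝ} {L : ℝ} (hχ : Cut χ L) (b : E n → E m)
    (hb : ContDiffOn ℝ 1 b (ball 0 4)) :
    ContDiff ℝ 1 (fun x => χ x ^ n • b x) ∧ HasCompactSupport (fun x => χ x ^ n • b x) ∧
    tsupport (fun x => χ x ^ n • b x) ⊆ ball (0 : E n) 1 ∧
    ∀ x ∈ ball (0 : E n) 4, ∀ h : E n, fderiv ℝ (fun x => χ x ^ n • b x) x h =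
      χ x ^ n • fderiv ℝ b x h + ((n : ℝ) * χ x ^ (n - 1) * fderiv ℝ χ x h) • b x := by
  have hsupp : Function.support (fun x => χ x ^ n • b x) ⊆ tsupport χ := by
    intro x hx
    apply subset_tsupport χ
    rw [Function.mem_support] at hx ⊢
    intro h0
    apply hx
    rw [h0, zero_pow (by omega), zero_smul]
  have hcs : HasCompactSupport χ :=
    Metric.isCompact_of_isClosed_isBounded (isClosed_tsupport χ)
      (Metric.isBounded_ball.subset hχ.supp)
  have hb1 : ball (0 : E n) 1 ⊆ ball (0 : E n) 4 := ball_subset_ball (by norm_num)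
  have hbd : ∀ x ∈ ball (0 : E n) 4, ContDiffAt ℝ 1 b x := fun x hx =>
    (hb x hx).contDiffAt (isOpen_ball.mem_nhds hx)
  have hχ1 : ContDiff ℝ 1 χ := hχ.smooth.of_le (by exact_mod_cast le_top)
  refine ⟨?_, ?_, ?_, ?_⟩
  · rw [contDiff_iff_contDiffAt]
    intro x
    by_cases hx : x ∈ ball (0 : E n) 4
    · exact (hχ1.contDiffAt.pow n).smul (hbd x hx)
    · have hx' : x ∉ tsupport χ := fun h => hx (hb1 (hχ.supp h))
      have h0 : χ =ᶠ[𝓝 x] 0 := notMem_tsupport_iff_eventuallyEq.1 hx'
      have h1 : (fun x => χ x ^ n • b x) =ᶠ[𝓝 x] fun _ => (0 : E m) := by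
        filter_upwards [h0] with y hy
        rw [hy, Pi.zero_apply, zero_pow (by omega), zero_smul]
      exact contDiffAt_const.congr_of_eventuallyEq h1
  · exact hcs.mono' hsupp
  · exact (closure_minimal hsupp (isClosed_tsupport χ)).trans hχ.supp
  · intro x hx h
    have h1 : HasFDerivAt (fun x => χ x ^ n) (((n : ℝ) * χ x ^ (n - 1)) • fderiv ℝ χ x) x := by
      have := ((hχ1.differentiable one_ne_zero) x).hasFDerivAt.pow n
      simpa using this
    have h2 : HasFDerivAt b (fderiv ℝ b x) x :=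
      ((hbd x hx).differentiableAt one_ne_zero).hasFDerivAt
    have h3 : HasFDerivAt (fun x => χ x ^ n • b x)
        (χ x ^ n • fderiv ℝ b x + (((n : ℝ) * χ x ^ (n - 1)) • fderiv ℝ χ x).smulRight (b x)) x :=
      h1.smul h2
    rw [h3.fderiv]
    simp

end H60NH
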