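import Pool.Agent.H60.NH.PUnit
import Pool.Agent.H60.NH.NCont

/-!
# [H60 NH PMEAS] Measurability of `PG`

`nb (B K) (μ K)` is continuous on `ball 0 4` (`nb_smooth`), `G · i` is measurable, so
`y ↦ sqrt (∑ perp (G y i) (nb y)^2)` is measurable on the open set `ball 0 4`; `PG` is its indicator
(replace `nb` by its indicator, which is measurable). `0 <= PG <= gn (G ·)`: `perp a b <= ‖a‖`.
`PG_sq`: on `ball 0 4`: `PG ^ 2 = ∑ (‖G_i‖^2 - <G_i, b>^2)` for `‖b‖ <= 1` (`perp_sq`); so if moreover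
`‖b‖ <= 1/2` then `(3/4) gn ^ 2 <= PG ^ 2` (Cauchy-Schwarz).
-/

set_option autoImplicit false

namespace H60NH

open MeasureTheory Metric Set Filter Topology
open scoped ENNReal NNReal ContDiff

private theorem pmeas_perp_sq {m : ℕ} {a b : E m} (hb : ‖b‖ ≤ 1) :
    perp a b ^ 2 = ‖a‖ ^ 2 - (inner ℝ a b) ^ 2 := by
  unfold perp
  refine Real.sq_sqrt ?_
  have h1 := abs_real_inner_le_norm a b
  have h2 : |inner ℝ a b| ≤ ‖a‖ :=
    h1.trans (mul_le_of_le_one_right (norm_nonneg _) hb)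
  have h3 : (inner ℝ a b) ^ 2 ≤ ‖a‖ ^ 2 := by
    rw [← sq_abs (inner ℝ a b)]
    exact pow_le_pow_left₀ (abs_nonneg _) h2 2
  linarith

private theorem pmeas_perp_le {m : ℕ} (a b : E m) : perp a b ^ 2 ≤ ‖a‖ ^ 2 := by
  have h1 : perp a b ≤ ‖a‖ := by
    unfold perp
    refine Real.sqrt_le_iff.2 ⟨norm_nonneg _, ?_⟩
    have := sq_nonneg (inner ℝ a b)
    linarith
  exact pow_le_pow_left₀ (Real.sqrt_nonneg _) h1 2

theorem PG_meas {n m : ℕ} {G : E n → Fin n → E m} (hG : ∀ i, Measurable (fun x => G x i))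
    (b : E n → E m) (hb : ContinuousOn b (ball (0 : E n) 4)) : Measurable (PG G b) := by
  classical
  have h1 : Measurable ((ball (0 : E n) 4).piecewise b (fun _ => (0 : E m))) :=
    hb.measurable_piecewise continuousOn_const measurableSet_ball
  have h2 : PG G b = (ball (0 : E n) 4).indicator (fun y => Real.sqrt (∑ i, perp (G y i)
      ((ball (0 : E n) 4).piecewise b (fun _ => (0 : E m)) y) ^ 2)) := by
    funext x
    unfold PG
    by_cases hx : x ∈ ball (0 : E n) 4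
    · rw [indicator_of_mem hx, indicator_of_mem hx, piecewise_eq_of_mem _ _ _ hx]
    · rw [indicator_of_notMem hx, indicator_of_notMem hx]
  rw [h2]
  refine Measurable.indicator ?_ measurableSet_ball
  refine Measurable.sqrt ?_
  refine Finset.measurable_sum _ fun i _ => ?_
  unfold perp
  exact (((hG i).norm.pow_const 2).sub (((hG i).inner h1).pow_const 2)).sqrt.pow_const 2

theorem PG_bd {n m : ℕ} (G : E n → Fin n → E m) (b : E n → E m) (x : E n) :
    0 ≤ PG G b x ∧ PG G b x ≤ gn (G x) := by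
  unfold PG
  refine ⟨indicator_nonneg (fun _ _ => Real.sqrt_nonneg _) x, ?_⟩
  by_cases hx : x ∈ ball (0 : E n) 4
  · rw [indicator_of_mem hx]
    unfold gn
    exact Real.sqrt_le_sqrt (Finset.sum_le_sum fun i _ => pmeas_perp_le _ _)
  · rw [indicator_of_notMem hx]
    exact Real.sqrt_nonneg _

theorem PG_sq {n m : ℕ} (G : E n → Fin n → E m) (b : E n → E m) (x : E n)
    (hx : x ∈ ball (0 : E n) 4) (hb : ‖b x‖ ≤ 1) :
    PG G b x ^ 2 = ∑ i, (‖G x i‖ ^ 2 - (inner ℝ (G x i) (b x)) ^ 2) := by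
  unfold PG
  rw [indicator_of_mem hx, Real.sq_sqrt (Finset.sum_nonneg fun i _ => sq_nonneg _)]
  exact Finset.sum_congr rfl fun i _ => pmeas_perp_sq hb

theorem PG_low {n m : ℕ} (G : E n → Fin n → E m) (b : E n → E m) (x : E n)
    (hx : x ∈ ball (0 : E n) 4) (hb : ‖b x‖ ≤ 1 / 2) :
    3 / 4 * gn (G x) ^ 2 ≤ PG G b x ^ 2 := by
  rw [PG_sq G b x hx (hb.trans (by norm_num))]
  unfold gn
  rw [Real.sq_sqrt (Finset.sum_nonneg fun i _ => sq_nonneg _), Finset.mul_sum]
  refine Finset.sum_le_sum fun i _ => ?_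
  have h1 := abs_real_inner_le_norm (G x i) (b x)
  have h2 : |inner ℝ (G x i) (b x)| ≤ ‖G x i‖ * (1 / 2) :=
    h1.trans (mul_le_mul_of_nonneg_left hb (norm_nonneg _))
  have h3 : (inner ℝ (G x i) (b x)) ^ 2 ≤ (‖G x i‖ * (1 / 2)) ^ 2 := by
    rw [← sq_abs (inner ℝ (G x i) (b x))]
    exact pow_le_pow_left₀ (abs_nonneg _) h2 2
  nlinarith

end H60NH
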