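import Pool.Agent.H60.NH.GDer
import Pool.Agent.H60.NH.Def3

/-!
# [H60 NH PUNIT] The unit vectors `(b, β)`

From `Gauge` at `x`: `μ > 0`, `μ^2 = 1 + |B|^2`, `b = μ⁻¹ B`, `β = μ⁻¹`: `|b|^2 + β^2 = (|B|^2 + 1)/μ^2 = 1`;
`Dπ(P) b = b` by linearity. `nb B μ` is `C^1` on the open set (`μ ≠ 0`). `nb_der_bd`: `nb_deriv` writes
`fderiv (nb B μ) x h = p - <p,b> b + D2 π P p b + err` with `p = pU π U x h`; `‖err‖` : the bound
`|<a, err>| <= 2 perp a b rr <= 2 ‖a‖ rr` with `a = err` gives `‖err‖ <= 2 rr`; so the norm is at most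
`(2 + C) ‖p‖ + 2 rr`. And `fderiv (fun y => (μ y)⁻¹) x h = - μ⁻² (cale + <p,B>)`, of absolute value at
most `rr + ‖p‖` (`μ >= 1`, `|B| <= μ`).
`‖pU π U x h‖ <= C ‖fderiv U x h‖` (chain rule, `bd1`).
-/

set_option autoImplicit false

namespace H60NH

open MeasureTheory Metric Set Filter Topology
open scoped ENNReal NNReal ContDiff

private theorem perp_le' {m : ℕ} (a b : E m) : perp a b ≤ ‖a‖ := by
  unfold perp
  rw [Real.sqrt_le_left (norm_nonneg a)]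
  linarith [sq_nonneg (inner ℝ a b)]

theorem nb_unit {n m : ℕ} {π : E m → E m} {Ω : Set (E n)} {U B : E n → E m} {μ : E n → ℝ}
    (hG : Gauge π Ω U B μ) (x : E n) (hx : x ∈ Ω) :
    ‖nb B μ x‖ ^ 2 + ((μ x)⁻¹) ^ 2 = 1 ∧ ‖nb B μ x‖ ≤ 1 ∧
      fderiv ℝ π (π (U x)) (nb B μ x) = nb B μ x := by
  have hμ0 : 0 < μ x := hG.pos x hx
  have hμ2 : μ x ^ 2 = 1 + ‖B x‖ ^ 2 := hG.norm x hx
  have h1 : ‖nb B μ x‖ ^ 2 + ((μ x)⁻¹) ^ 2 = 1 := by
    unfold nb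
    rw [norm_smul, norm_inv, Real.norm_of_nonneg hμ0.le, mul_pow, inv_pow]
    field_simp
    linarith
  refine ⟨h1, ?_, ?_⟩
  · have h2 : ‖nb B μ x‖ ^ 2 ≤ 1 := by nlinarith [sq_nonneg (μ x)⁻¹]
    nlinarith [norm_nonneg (nb B μ x)]
  · unfold nb
    rw [map_smul, hG.tan x hx]

theorem nb_smooth {n m : ℕ} {π : E m → E m} {Ω : Set (E n)} {U B : E n → E m} {μ : E n → ℝ}
    (hG : Gauge π Ω U B μ) :
    ContDiffOn ℝ 1 (nb B μ) Ω ∧ ContDiffOn ℝ 1 (fun y => (μ y)⁻¹) Ω := by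
  have h1 : ContDiffOn ℝ 1 (fun y => (μ y)⁻¹) Ω := hG.cμ.inv fun x hx => (hG.pos x hx).ne'
  exact ⟨h1.smul hG.cB, h1⟩

theorem pU_bd {n m : ℕ} {N : Set (E m)} {π : E m → E m} {δ C : ℝ} (hT : TC N π δ C)
    {Ω : Set (E n)} (hΩ : IsOpen Ω) {U : E n → E m} (hU : ContDiffOn ℝ ∞ U Ω)
    (hN : ∀ x ∈ Ω, infDist (U x) N < δ) (x : E n) (hx : x ∈ Ω) (h : E n) :
    pU π U x h = fderiv ℝ π (U x) (fderiv ℝ U x h) ∧ ‖pU π U x h‖ ≤ C * ‖fderiv ℝ U x h‖ := by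
  have hδ := hT.pos
  have hnx : Ω ∈ 𝓝 x := hΩ.mem_nhds hx
  have hU4 : infDist (U x) N < 4 * δ := by have := hN x hx; linarith
  have hUd : DifferentiableAt ℝ U x := (hU.differentiableOn (by simp)).differentiableAt hnx
  have hopen : IsOpen {y : E m | infDist y N < 4 * δ} :=
    isOpen_lt (continuous_infDist_pt N) continuous_const
  have hπd : DifferentiableAt ℝ π (U x) :=
    (hT.smooth.differentiableOn (by simp)).differentiableAt (hopen.mem_nhds hU4)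
  have hpe : pU π U x h = fderiv ℝ π (U x) (fderiv ℝ U x h) := by
    have h1 := fderiv_comp x hπd hUd
    have h2 : pU π U x h = fderiv ℝ (π ∘ U) x h := rfl
    rw [h2, h1]
    rfl
  refine ⟨hpe, ?_⟩
  rw [hpe]
  exact (ContinuousLinearMap.le_opNorm _ _).trans
    (mul_le_mul_of_nonneg_right (hT.bd1 _ hU4) (norm_nonneg _))

theorem nb_der_bd {n m : ℕ} {N : Set (E m)} {π : E m → E m} {δ C : ℝ} (hT : TC N π δ C)
    {Ω : Set (E n)} (hΩ : IsOpen Ω) {U B : E n → E m} {μ : E n → ℝ} (hU : ContDiffOn ℝ ∞ U Ω)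
    (hN : ∀ x ∈ Ω, infDist (U x) N < δ) (hG : Gauge π Ω U B μ) (x : E n) (hx : x ∈ Ω) (h : E n) :
    ‖fderiv ℝ (nb B μ) x h‖ + |fderiv ℝ (fun y => (μ y)⁻¹) x h| ≤
      (3 + C) * C * ‖fderiv ℝ U x h‖ + 3 * rr π U B μ x h := by
  have hδ := hT.pos
  have hnx : Ω ∈ 𝓝 x := hΩ.mem_nhds hx
  have hU4 : infDist (U x) N < 4 * δ := by have := hN x hx; linarith
  have hPN : π (U x) ∈ N := hT.mem _ hU4
  have hP4 : infDist (π (U x)) N < 4 * δ := by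
    rw [infDist_zero_of_mem hPN]; linarith
  have hμ0 : 0 < μ x := hG.pos x hx
  have hμ2 : μ x ^ 2 = 1 + ‖B x‖ ^ 2 := hG.norm x hx
  have hμ1 : 1 ≤ μ x := by nlinarith [sq_nonneg ‖B x‖]
  have hBμ : ‖B x‖ ≤ μ x := by nlinarith [norm_nonneg (B x)]
  have hi0 : 0 < (μ x)⁻¹ := inv_pos.2 hμ0
  have hi1 : (μ x)⁻¹ ≤ 1 := inv_le_one_of_one_le₀ hμ1
  have hμd : DifferentiableAt ℝ μ x := (hG.cμ.differentiableOn one_ne_zero).differentiableAt hnx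
  have hC := hT.one_le
  obtain ⟨-, hbn, -⟩ := nb_unit hG x hx
  obtain ⟨-, hp⟩ := pU_bd hT hΩ hU hN x hx h
  set p := pU π U x h with hpdef
  have hrr : rr π U B μ x h = (μ x)⁻¹ * (‖calE π U B μ x h‖ + |cale π U B μ x h|) := by
    rw [rr, div_eq_inv_mul]
  have hrr0 : 0 ≤ rr π U B μ x h := by
    rw [hrr]
    positivity
  -- the first term
  obtain ⟨err, he1, he2⟩ := nb_deriv hT hΩ U B μ hU hN hG x hx h
  have he : ‖err‖ ≤ 2 * rr π U B μ x h := by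
    have h1 := he2 err
    rw [real_inner_self_eq_norm_sq, abs_of_nonneg (sq_nonneg _)] at h1
    have h2 := perp_le' err ((μ x)⁻¹ • B x)
    have h3 : ‖err‖ ^ 2 ≤ 2 * ‖err‖ * rr π U B μ x h :=
      h1.trans (mul_le_mul_of_nonneg_right (by linarith) hrr0)
    rcases (norm_nonneg err).eq_or_lt with h0 | h0
    · rw [← h0]
      positivity
    · nlinarith
  have hfirst : ‖fderiv ℝ (nb B μ) x h‖ ≤ (2 + C) * ‖p‖ + 2 * rr π U B μ x h := by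
    have e1 : fderiv ℝ (nb B μ) x h = p - (inner ℝ p (nb B μ x)) • nb B μ x
        + D2 π (π (U x)) p (nb B μ x) + err := he1
    rw [e1]
    have n1 : ‖(inner ℝ p (nb B μ x)) • nb B μ x‖ ≤ ‖p‖ := by
      rw [norm_smul, Real.norm_eq_abs]
      have h1 := abs_real_inner_le_norm p (nb B μ x)
      have h2 : ‖p‖ * ‖nb B μ x‖ ≤ ‖p‖ := mul_le_of_le_one_right (norm_nonneg p) hbn
      calc |inner ℝ p (nb B μ x)| * ‖nb B μ x‖ ≤ ‖p‖ * 1 :=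
            mul_le_mul (h1.trans h2) hbn (norm_nonneg _) (norm_nonneg _)
        _ = ‖p‖ := mul_one _
    have n2 : ‖D2 π (π (U x)) p (nb B μ x)‖ ≤ C * ‖p‖ := by
      calc ‖D2 π (π (U x)) p (nb B μ x)‖ ≤ ‖D2 π (π (U x))‖ * ‖p‖ * ‖nb B μ x‖ :=
            ContinuousLinearMap.le_opNorm₂ _ _ _
        _ ≤ C * ‖p‖ * 1 := by
            refine mul_le_mul (mul_le_mul_of_nonneg_right (hT.bd2 _ hP4) (norm_nonneg _)) hbn
              (norm_nonneg _) (by positivity)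
        _ = C * ‖p‖ := mul_one _
    calc ‖p - (inner ℝ p (nb B μ x)) • nb B μ x + D2 π (π (U x)) p (nb B μ x) + err‖
        ≤ ‖p - (inner ℝ p (nb B μ x)) • nb B μ x + D2 π (π (U x)) p (nb B μ x)‖ + ‖err‖ :=
          norm_add_le _ _
      _ ≤ ‖p - (inner ℝ p (nb B μ x)) • nb B μ x‖ + ‖D2 π (π (U x)) p (nb B μ x)‖ + ‖err‖ := by
          gcongr
          exact norm_add_le _ _
      _ ≤ ‖p‖ + ‖(inner ℝ p (nb B μ x)) • nb B μ x‖ + ‖D2 π (π (U x)) p (nb B μ x)‖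
            + ‖err‖ := by
          gcongr
          exact norm_sub_le _ _
      _ ≤ ‖p‖ + ‖p‖ + C * ‖p‖ + 2 * rr π U B μ x h := by gcongr
      _ = (2 + C) * ‖p‖ + 2 * rr π U B μ x h := by ring
  -- the second term
  have hsecond : |fderiv ℝ (fun y => (μ y)⁻¹) x h| ≤ ‖p‖ + rr π U B μ x h := by
    have d0 : HasFDerivAt (fun y => (μ y)⁻¹) (-(μ x ^ 2)⁻¹ • fderiv ℝ μ x) x :=
      (hasDerivAt_inv hμ0.ne').comp_hasFDerivAt x hμd.hasFDerivAt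
    have e0 : fderiv ℝ (fun y => (μ y)⁻¹) x h = -((μ x ^ 2)⁻¹) * fderiv ℝ μ x h := by
      rw [d0.fderiv]
      rfl
    have hDμ : fderiv ℝ μ x h = cale π U B μ x h + inner ℝ p (B x) := by
      rw [cale]
      ring
    rw [e0, hDμ, abs_mul, abs_neg, abs_of_nonneg (by positivity : 0 ≤ (μ x ^ 2)⁻¹)]
    have h1 : |cale π U B μ x h + inner ℝ p (B x)| ≤ |cale π U B μ x h| + ‖p‖ * μ x := by
      refine (abs_add_le _ _).trans ?_
      gcongr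
      exact (abs_real_inner_le_norm p (B x)).trans
        (mul_le_mul_of_nonneg_left hBμ (norm_nonneg _))
    have h2 : (μ x ^ 2)⁻¹ = (μ x)⁻¹ * (μ x)⁻¹ := by rw [← mul_inv, sq]
    have h3 : (μ x)⁻¹ * μ x = 1 := inv_mul_cancel₀ hμ0.ne'
    have h4 : (μ x)⁻¹ * |cale π U B μ x h| ≤ rr π U B μ x h := by
      rw [hrr]
      gcongr
      linarith [norm_nonneg (calE π U B μ x h)]
    calc (μ x ^ 2)⁻¹ * |cale π U B μ x h + inner ℝ p (B x)|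
        ≤ (μ x ^ 2)⁻¹ * (|cale π U B μ x h| + ‖p‖ * μ x) := by gcongr
      _ = (μ x)⁻¹ * ((μ x)⁻¹ * |cale π U B μ x h|) + (μ x)⁻¹ * ‖p‖ * ((μ x)⁻¹ * μ x) := by
          rw [h2]
          ring
      _ ≤ 1 * rr π U B μ x h + 1 * ‖p‖ * 1 := by
          rw [h3]
          gcongr
      _ = ‖p‖ + rr π U B μ x h := by ring
  calc ‖fderiv ℝ (nb B μ) x h‖ + |fderiv ℝ (fun y => (μ y)⁻¹) x h|
      ≤ ((2 + C) * ‖p‖ + 2 * rr π U B μ x h) + (‖p‖ + rr π U B μ x h) :=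
        add_le_add hfirst hsecond
    _ = (3 + C) * ‖p‖ + 3 * rr π U B μ x h := by ring
    _ ≤ (3 + C) * (C * ‖fderiv ℝ U x h‖) + 3 * rr π U B μ x h := by gcongr
    _ = (3 + C) * C * ‖fderiv ℝ U x h‖ + 3 * rr π U B μ x h := by ring

end H60NH
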