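import Pool.Agent.H60.NH.GDer
import Pool.Agent.H60.NH.PUnit
import Pool.Agent.H60.NH.PMeas

/-!
# [H60 NH FPT] The pointwise inequality for the test field

Fix `x` in the ball, `u = u x ∈ N`, `G_i` tangent at `u`: `Dπ(u) G_i = G_i`; `P = π (U x) ∈ N`, `b = nb B μ x`
(`|b| <= 1`, `Dπ(P) b = b`), `p_i = pU π U x (ev i)`, `d_i = p_i - G_i`, `err_i` from `nb_deriv`, so
`D(nb)(ev i) = p_i - <p_i,b> b + D2 π P p_i b + err_i`. Then
`∑ (<G_i, D(nb)(ev i)> + <D2 π u G_i G_i, b>) = ∑ (|G_i|^2 - <G_i,b>^2)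
  + ∑ (<G_i,d_i> - <d_i,b><G_i,b>)                                  [>= - 2 ∑ |G_i||d_i|]
  + ∑ <G_i, D2 π P d_i b>                                           [>= - C ∑ |G_i||d_i|]
  + ∑ <G_i, (D2 π P - D2 π u) G_i b>                                [>= - (C + C/δ) |P-u| ∑ |G_i|^2]
  + 2 ∑ <D2 π u G_i G_i, b>      (symm2, symm3)
  + ∑ <G_i, err_i>                                                  [>= - 2 PG ∑ rr_i].
`‖D2 π P - D2 π u‖ <= C ‖P - u‖` if `‖P-u‖ < 2 δ` (`lip2`), else `<= 2C <= (C/δ)‖P - u‖`.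
`ν = D2 π u G_i G_i` satisfies `Dπ(u) ν = 0` (`idem2` with `a = b = G_i`), so
`<ν, b> = <ν, b - Dπ(u) b> = <ν, (Dπ(P) - Dπ(u)) b>`, and `‖Dπ(P) - Dπ(u)‖ <= (C + C/δ)‖P - u‖` in the
same way; `‖ν‖ <= C |G_i|^2`. `∑|G_i||d_i| <= gn G ∑ |d_i|`, `∑ |G_i|^2 = (gn G)^2`, and
`perp G_i b <= PG`. So the sum is at least
`PG^2 - C₄ (gn G) ∑|d_i| - C₄ (gn G)^2 |P - u| - 2 PG ∑ rr_i` with `C₄ = 2 + C + (1 + 2C)(C + C/δ)`.
-/

set_option autoImplicit false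

namespace H60NH

open MeasureTheory Metric Set Filter Topology
open scoped ENNReal NNReal ContDiff

private theorem fpt_lip {m : ℕ} {F : Type*} [SeminormedAddCommGroup F] {C δ : ℝ} (hδ : 0 < δ)
    (hC : 1 ≤ C) (Q : E m → F) (P v : E m) (h1 : ‖P - v‖ < 2 * δ → ‖Q P - Q v‖ ≤ C * ‖P - v‖)
    (hP : ‖Q P‖ ≤ C) (hv : ‖Q v‖ ≤ C) : ‖Q P - Q v‖ ≤ (C + C / δ) * ‖P - v‖ := by
  have h0 : 0 ≤ ‖P - v‖ := norm_nonneg _
  have hCd : 0 < C / δ := div_pos (by linarith) hδ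
  by_cases h : ‖P - v‖ < 2 * δ
  · have := h1 h
    nlinarith
  · have h2 : ‖Q P - Q v‖ ≤ 2 * C := (norm_sub_le _ _).trans (by linarith)
    have h3 : C / δ * (2 * δ) ≤ C / δ * ‖P - v‖ :=
      mul_le_mul_of_nonneg_left (not_lt.1 h) hCd.le
    have h4 : C / δ * (2 * δ) = 2 * C := by field_simp
    nlinarith

private theorem fpt_one {m : ℕ} {N : Set (E m)} {π : E m → E m} {δ C : ℝ} (hT : TC N π δ C)
    (P v g p b e : E m) (hP : P ∈ N) (hv : v ∈ N) (hg : fderiv ℝ π v g = g)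
    (hb : ‖b‖ ≤ 1) (hPb : fderiv ℝ π P b = b) :
    (‖g‖ ^ 2 - inner ℝ g b ^ 2) - (2 + C) * (‖g‖ * ‖p - g‖) -
      (1 + 2 * C) * (C + C / δ) * (‖g‖ ^ 2 * ‖P - v‖) + inner ℝ g e ≤
    inner ℝ g (p - (inner ℝ p b) • b + D2 π P p b + e) + inner ℝ (D2 π v g g) b := by
  have hδ := hT.pos
  have hC := hT.one_le
  have hPi : infDist P N = 0 := infDist_zero_of_mem hP
  have hvi : infDist v N = 0 := infDist_zero_of_mem hv
  have hP4 : infDist P N < 4 * δ := by rw [hPi]; linarith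
  have hv4 : infDist v N < 4 * δ := by rw [hvi]; linarith
  have hP2 : infDist P N < 2 * δ := by rw [hPi]; linarith
  obtain ⟨d, hd⟩ : ∃ d, d = p - g := ⟨_, rfl⟩
  have hp : p = g + d := by rw [hd]; abel
  have hL2 : ‖D2 π P - D2 π v‖ ≤ (C + C / δ) * ‖P - v‖ :=
    fpt_lip hδ hC (D2 π) P v (hT.lip2 P v hP2) (hT.bd2 P hP4) (hT.bd2 v hv4)
  have hL1 : ‖fderiv ℝ π P - fderiv ℝ π v‖ ≤ (C + C / δ) * ‖P - v‖ :=
    fpt_lip hδ hC (fderiv ℝ π) P v (hT.lip1 P v hP2) (hT.bd1 P hP4) (hT.bd1 v hv4)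
  have hK : 0 ≤ (C + C / δ) * ‖P - v‖ := by
    have := div_pos (show 0 < C by linarith) hδ
    exact mul_nonneg (by linarith) (norm_nonneg _)
  have hg0 : 0 ≤ ‖g‖ := norm_nonneg g
  have hd0 : 0 ≤ ‖d‖ := norm_nonneg d
  have hb0 : 0 ≤ ‖b‖ := norm_nonneg b
  -- expansion
  have e1 : inner ℝ g (D2 π v g b) = inner ℝ (D2 π v g g) b := (hT.symm3 v hv4 g g b).symm
  have e2 : inner ℝ g (D2 π P g b) = inner ℝ g ((D2 π P - D2 π v) g b) +
      inner ℝ g (D2 π v g b) := by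
    rw [← inner_add_right]
    congr 1
    simp
  have e3 : D2 π P p b = D2 π P g b + D2 π P d b := by
    rw [hp, map_add]
    rfl
  have hν0 : fderiv ℝ π v (D2 π v g g) = 0 := by
    have := hT.idem2 v hv g g hg
    rw [hg] at this
    exact left_eq_add.1 this.symm
  have e4 : inner ℝ (D2 π v g g) b =
      inner ℝ (D2 π v g g) ((fderiv ℝ π P - fderiv ℝ π v) b) := by
    have h1 : inner ℝ (D2 π v g g) (fderiv ℝ π v b) = 0 := by
      rw [← hT.symm1 v hv4, hν0, inner_zero_left]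
    rw [ContinuousLinearMap.sub_apply, inner_sub_right, h1, hPb, sub_zero]
  have expand : inner ℝ g (p - (inner ℝ p b) • b + D2 π P p b + e) + inner ℝ (D2 π v g g) b =
      (‖g‖ ^ 2 - inner ℝ g b ^ 2) + (inner ℝ g d - inner ℝ d b * inner ℝ g b) +
      inner ℝ g (D2 π P d b) + inner ℝ g ((D2 π P - D2 π v) g b) +
      2 * inner ℝ (D2 π v g g) b + inner ℝ g e := by
    rw [e3, inner_add_right, inner_add_right, inner_add_right, inner_sub_right, inner_smul_right,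
      e2, e1, hp, inner_add_right, inner_add_left, real_inner_self_eq_norm_sq]
    ring
  have b1 : -(‖g‖ * ‖d‖) ≤ inner ℝ g d := by
    have := abs_real_inner_le_norm g d
    exact (abs_le.1 this).1
  have b2 : inner ℝ d b * inner ℝ g b ≤ ‖g‖ * ‖d‖ := by
    have h1 := abs_real_inner_le_norm d b
    have h2 := abs_real_inner_le_norm g b
    have h3 : |inner ℝ d b * inner ℝ g b| ≤ (‖d‖ * ‖b‖) * (‖g‖ * ‖b‖) := by
      rw [abs_mul]
      exact mul_le_mul h1 h2 (abs_nonneg _) (by positivity)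
    have h4 : (‖d‖ * ‖b‖) * (‖g‖ * ‖b‖) ≤ ‖g‖ * ‖d‖ := by
      have h5 : ‖d‖ * ‖b‖ ≤ ‖d‖ := mul_le_of_le_one_right hd0 hb
      have h6 : ‖g‖ * ‖b‖ ≤ ‖g‖ := mul_le_of_le_one_right hg0 hb
      calc (‖d‖ * ‖b‖) * (‖g‖ * ‖b‖) ≤ ‖d‖ * ‖g‖ := mul_le_mul h5 h6 (by positivity) hd0
        _ = ‖g‖ * ‖d‖ := mul_comm _ _
    exact (le_abs_self _).trans (h3.trans h4)
  have b3 : -(C * (‖g‖ * ‖d‖)) ≤ inner ℝ g (D2 π P d b) := by
    have h1 := abs_real_inner_le_norm g (D2 π P d b)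
    have h2 : ‖D2 π P d b‖ ≤ C * ‖d‖ * 1 := by
      refine (ContinuousLinearMap.le_opNorm₂ (D2 π P) d b).trans ?_
      refine mul_le_mul (mul_le_mul_of_nonneg_right (hT.bd2 P hP4) hd0) hb hb0 (by positivity)
    have h3 : ‖g‖ * ‖D2 π P d b‖ ≤ ‖g‖ * (C * ‖d‖ * 1) := mul_le_mul_of_nonneg_left h2 hg0
    have h4 := (abs_le.1 h1).1
    nlinarith
  have b4 : -((C + C / δ) * ‖P - v‖ * ‖g‖ ^ 2) ≤ inner ℝ g ((D2 π P - D2 π v) g b) := by
    have h1 := abs_real_inner_le_norm g ((D2 π P - D2 π v) g b)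
    have h2 : ‖(D2 π P - D2 π v) g b‖ ≤ (C + C / δ) * ‖P - v‖ * ‖g‖ * 1 := by
      refine (ContinuousLinearMap.le_opNorm₂ (D2 π P - D2 π v) g b).trans ?_
      refine mul_le_mul (mul_le_mul_of_nonneg_right hL2 hg0) hb hb0 (mul_nonneg hK hg0)
    have h3 : ‖g‖ * ‖(D2 π P - D2 π v) g b‖ ≤ ‖g‖ * ((C + C / δ) * ‖P - v‖ * ‖g‖ * 1) :=
      mul_le_mul_of_nonneg_left h2 hg0
    have h4 := (abs_le.1 h1).1
    nlinarith
  have b5 : -(C * ((C + C / δ) * ‖P - v‖) * ‖g‖ ^ 2) ≤ inner ℝ (D2 π v g g) b := by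
    rw [e4]
    have h1 := abs_real_inner_le_norm (D2 π v g g) ((fderiv ℝ π P - fderiv ℝ π v) b)
    have h2 : ‖D2 π v g g‖ ≤ C * ‖g‖ * ‖g‖ := by
      refine (ContinuousLinearMap.le_opNorm₂ (D2 π v) g g).trans ?_
      exact mul_le_mul_of_nonneg_right (mul_le_mul_of_nonneg_right (hT.bd2 v hv4) hg0) hg0
    have h3 : ‖(fderiv ℝ π P - fderiv ℝ π v) b‖ ≤ (C + C / δ) * ‖P - v‖ := by
      refine (ContinuousLinearMap.le_opNorm _ b).trans ?_
      calc ‖fderiv ℝ π P - fderiv ℝ π v‖ * ‖b‖ ≤ ((C + C / δ) * ‖P - v‖) * 1 :=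
            mul_le_mul hL1 hb hb0 hK
        _ = _ := mul_one _
    have h4 : ‖D2 π v g g‖ * ‖(fderiv ℝ π P - fderiv ℝ π v) b‖ ≤
        (C * ‖g‖ * ‖g‖) * ((C + C / δ) * ‖P - v‖) :=
      mul_le_mul h2 h3 (norm_nonneg _) (by positivity)
    have h5 := (abs_le.1 h1).1
    nlinarith
  rw [expand, ← hd]
  nlinarith

theorem test_pt {n m : ℕ} {N : Set (E m)} {π : E m → E m} {δ C : ℝ} (hT : TC N π δ C)
    {U B : E n → E m} {μ : E n → ℝ} (hU : ContDiffOn ℝ ∞ U (ball 0 4))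
    (hN : ∀ x ∈ ball (0 : E n) 4, infDist (U x) N < δ) (hG : Gauge π (ball 0 4) U B μ)
    (G : E n → Fin n → E m) (x : E n) (hx : x ∈ ball (0 : E n) 4) (v : E m) (hv : v ∈ N)
    (ht : ∀ i, fderiv ℝ π v (G x i) = G x i) :
    PG G (nb B μ) x ^ 2 ≤
      ∑ i, (inner ℝ (G x i) (fderiv ℝ (nb B μ) x (ev i))
        + inner ℝ (D2 π v (G x i) (G x i)) (nb B μ x))
      + (2 + C + (1 + 2 * C) * (C + C / δ)) * (gn (G x) * ∑ i, ‖pU π U x (ev i) - G x i‖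
        + gn (G x) ^ 2 * ‖π (U x) - v‖)
      + 2 * PG G (nb B μ) x * ∑ i, rr π U B μ x (ev i) := by
  have hδ := hT.pos
  have hC := hT.one_le
  have hu := nb_unit hG x hx
  have hP : π (U x) ∈ N := hT.mem _ (by have := hN x hx; linarith)
  have hrr : ∀ h : E n, 0 ≤ rr π U B μ x h := fun h =>
    div_nonneg (by positivity) (hG.pos x hx).le
  have hPG := PG_bd G (nb B μ) x
  have hgn : gn (G x) ^ 2 = ∑ i, ‖G x i‖ ^ 2 := by
    rw [gn, Real.sq_sqrt (Finset.sum_nonneg fun i _ => sq_nonneg _)]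
  have hgn0 : 0 ≤ gn (G x) := Real.sqrt_nonneg _
  have hgi : ∀ i, ‖G x i‖ ≤ gn (G x) := by
    intro i
    rw [gn]
    apply Real.le_sqrt_of_sq_le
    exact Finset.single_le_sum (f := fun i => ‖G x i‖ ^ 2) (fun i _ => sq_nonneg _)
      (Finset.mem_univ i)
  have hperp : ∀ i, perp (G x i) (nb B μ x) ≤ PG G (nb B μ) x := by
    intro i
    rw [PG, indicator_of_mem hx]
    apply Real.le_sqrt_of_sq_le
    exact Finset.single_le_sum (f := fun i => perp (G x i) (nb B μ x) ^ 2)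
      (fun i _ => sq_nonneg _) (Finset.mem_univ i)
  have hterm : ∀ i, (‖G x i‖ ^ 2 - inner ℝ (G x i) (nb B μ x) ^ 2)
      - (2 + C) * (gn (G x) * ‖pU π U x (ev i) - G x i‖)
      - (1 + 2 * C) * (C + C / δ) * (‖G x i‖ ^ 2 * ‖π (U x) - v‖)
      - 2 * PG G (nb B μ) x * rr π U B μ x (ev i) ≤
      inner ℝ (G x i) (fderiv ℝ (nb B μ) x (ev i))
        + inner ℝ (D2 π v (G x i) (G x i)) (nb B μ x) := by
    intro i
    obtain ⟨err, he1, he2⟩ := nb_deriv hT isOpen_ball U B μ hU hN hG x hx (ev i)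
    have he1' : fderiv ℝ (nb B μ) x (ev i) =
        pU π U x (ev i) - (inner ℝ (pU π U x (ev i)) (nb B μ x)) • (nb B μ x)
          + D2 π (π (U x)) (pU π U x (ev i)) (nb B μ x) + err := he1
    have h1 := fpt_one hT (π (U x)) v (G x i) (pU π U x (ev i)) (nb B μ x) err hP hv (ht i)
      hu.2.1 hu.2.2
    have h2 : -(2 * PG G (nb B μ) x * rr π U B μ x (ev i)) ≤ inner ℝ (G x i) err := by
      have h3 : |inner ℝ (G x i) err| ≤ 2 * perp (G x i) (nb B μ x) * rr π U B μ x (ev i) :=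
        he2 (G x i)
      have h4 : 2 * perp (G x i) (nb B μ x) * rr π U B μ x (ev i) ≤
          2 * PG G (nb B μ) x * rr π U B μ x (ev i) :=
        mul_le_mul_of_nonneg_right (by linarith [hperp i]) (hrr _)
      have h5 := (abs_le.1 h3).1
      linarith
    have h6 : (2 + C) * (‖G x i‖ * ‖pU π U x (ev i) - G x i‖) ≤
        (2 + C) * (gn (G x) * ‖pU π U x (ev i) - G x i‖) :=
      mul_le_mul_of_nonneg_left (mul_le_mul_of_nonneg_right (hgi i) (norm_nonneg _))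
        (by linarith)
    rw [he1']
    linarith
  have hsum := Finset.sum_le_sum fun i (_ : i ∈ Finset.univ) => hterm i
  rw [Finset.sum_sub_distrib, Finset.sum_sub_distrib, Finset.sum_sub_distrib,
    ← PG_sq G (nb B μ) x hx hu.2.1, ← Finset.mul_sum, ← Finset.mul_sum, ← Finset.mul_sum,
    ← Finset.mul_sum, ← Finset.sum_mul, ← hgn] at hsum
  have hS : 0 ≤ ∑ i, ‖pU π U x (ev i) - G x i‖ := Finset.sum_nonneg fun i _ => norm_nonneg _
  have hA : 0 ≤ gn (G x) * ∑ i, ‖pU π U x (ev i) - G x i‖ := mul_nonneg hgn0 hS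
  have hB : 0 ≤ gn (G x) ^ 2 * ‖π (U x) - v‖ := by positivity
  have hK : 0 ≤ (1 + 2 * C) * (C + C / δ) := by positivity
  have hKA := mul_nonneg hK hA
  have hKB : 0 ≤ (2 + C) * (gn (G x) ^ 2 * ‖π (U x) - v‖) := mul_nonneg (by linarith) hB
  nlinarith

end H60NH
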