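import Pool.Agent.H60.NH.Def3

/-!
# [H60 NH MSOL] Integrability for solutions

`u ∈ L^n(ball 0 64)` (field `wg.mem_v`), zero outside the ball: it is integrable on the whole space
(`MemLp` on a set of finite measure, exponent `n >= 1`), similarly `G · i`; `gn (G x) <= ∑ ‖G x i‖`.
`gn (G x) ^ n` is integrable, as `gn (G ·)` is in `L^n`.
-/

set_option autoImplicit false

namespace H60NH

open MeasureTheory Metric Set Filter Topology
open scoped ENNReal NNReal ContDiff

private theorem msol_ext {n m : ℕ} {R : ℝ} {p : ℝ≥0∞} {u : E n → E m}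
    (hu : MemLp u p (volume.restrict (ball (0 : E n) R)))
    (h0 : ∀ x, x ∉ ball (0 : E n) R → u x = 0) : MemLp u p := by
  have h1 : (ball (0 : E n) R).indicator u = u := by
    apply Set.indicator_eq_self.2
    intro x hx
    by_contra hcon
    exact hx (h0 x hcon)
  rw [← h1, memLp_indicator_iff_restrict measurableSet_ball]
  exact hu

private theorem msol_int {n m : ℕ} (hn : 1 ≤ n) {R : ℝ} {u : E n → E m}
    (hu : MemLp u n (volume.restrict (ball (0 : E n) R)))
    (h0 : ∀ x, x ∉ ball (0 : E n) R → u x = 0) : Integrable u := by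
  have : IsFiniteMeasure (volume.restrict (ball (0 : E n) R)) :=
    ⟨by rw [Measure.restrict_apply_univ]; exact measure_ball_lt_top⟩
  have h1 : MemLp u 1 (volume.restrict (ball (0 : E n) R)) :=
    hu.mono_exponent (by exact_mod_cast hn)
  exact memLp_one_iff_integrable.1 (msol_ext h1 h0)

theorem sol_int {n m : ℕ} (hn : 1 ≤ n) {N : Set (E m)} {π : E m → E m} {R : ℝ} {u : E n → E m}
    {G : E n → Fin n → E m} (hS : Sol N π R u G) :
    Integrable u ∧ (∀ i, Integrable (fun x => G x i)) ∧ (∀ i, MemLp (fun x => G x i) n) ∧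
      Measurable (fun x => gn (G x)) ∧ Integrable (fun x => gn (G x)) ∧
      Integrable (fun x => gn (G x) ^ n) := by
  have hGi : ∀ i, Integrable (fun x => G x i) := fun i =>
    msol_int hn (hS.wg.mem_G i) (fun x hx => hS.out_G x hx i)
  have hGL : ∀ i, MemLp (fun x => G x i) n := fun i =>
    msol_ext (hS.wg.mem_G i) (fun x hx => hS.out_G x hx i)
  have hmeas : Measurable (fun x => gn (G x)) := by
    unfold gn
    apply Measurable.sqrt
    apply Finset.measurable_sum
    intro i _
    exact (hS.meas_G i).norm.pow_const 2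
  have hle : ∀ x, gn (G x) ≤ ∑ i, ‖G x i‖ := by
    intro x
    unfold gn
    rw [Real.sqrt_le_left (Finset.sum_nonneg fun i _ => norm_nonneg _)]
    exact Finset.sum_sq_le_sq_sum_of_nonneg fun i _ => norm_nonneg _
  have hgn0 : ∀ x, 0 ≤ gn (G x) := fun x => Real.sqrt_nonneg _
  have hsumI : Integrable (fun x => ∑ i, ‖G x i‖) := integrable_finsetSum _ fun i _ => (hGi i).norm
  have hsumL : MemLp (fun x => ∑ i, ‖G x i‖) n := memLp_finsetSum _ fun i _ => (hGL i).norm
  have hgL : MemLp (fun x => gn (G x)) n := by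
    apply hsumL.mono hmeas.aestronglyMeasurable
    apply Eventually.of_forall
    intro x
    rw [Real.norm_of_nonneg (hgn0 x),
      Real.norm_of_nonneg (Finset.sum_nonneg fun i _ => norm_nonneg _)]
    exact hle x
  refine ⟨msol_int hn hS.wg.mem_v hS.out_u, hGi, hGL, hmeas, ?_, ?_⟩
  · apply hsumI.mono' hmeas.aestronglyMeasurable
    apply Eventually.of_forall
    intro x
    rw [Real.norm_of_nonneg (hgn0 x)]
    exact hle x
  · have hn0 : (n : ℝ≥0∞) ≠ 0 := by
      exact_mod_cast (by omega : n ≠ 0)
    have h2 := hgL.integrable_norm_rpow hn0 (ENNReal.natCast_ne_top n)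
    have h3 : (fun x => gn (G x) ^ n) = fun x => ‖gn (G x)‖ ^ (n : ℝ≥0∞).toReal := by
      funext x
      rw [Real.norm_of_nonneg (hgn0 x)]
      simp
    rw [h3]
    exact h2

end H60NH
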