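import Pool.Agent.H60.NH.FPt
import Pool.Agent.H60.NH.MErr
import Pool.Agent.H60.NH.FField
import Pool.Agent.H60.NH.MSol

/-!
# [H60 NH FTEST] The test inequality

`χ` a cutoff (`Cut χ L`), `f = gn ∘ G`, `b = nb (B K) (μ K)`, `Y = χ^n b` (`test_field`, `nb_smooth`): `Sol.el` applies:
`∫ f^(n-2) ∑ (<G_i, ∂_i Y> + <D2 π u G_i G_i, Y>) = 0`, where
`∂_i Y = n χ^(n-1) (∂_i χ) b + χ^n ∂_i b` in `ball 0 4` and `Y = 0`, `DY = 0` outside `ball 0 1`. Multiply `test_pt` (for
a.e. `x` in the ball: `memN`, `tan`) by `χ^n f^(n-2)` and integrate; the term with `∂_i χ` is at most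
`n χ^(n-1) f^(n-2) ∑ |G_i| L ‖b‖ <= n² L f^(n-1) ‖b‖`, supported in `ball 0 1 \ ball 0 (1/2)` (`der0`).
Integrability: `f^n`, `f^(n-1)` are integrable (`f^(n-1) <= f + f^n`), `‖b‖ <= 1`, `Y` and `DY` bounded; the error
terms: `err_int`; `∑ rr_i` is bounded on `closedBall 0 1` (continuous on `ball 0 4`), so
`χ^n f^(n-2) PG ∑ rr_i` is integrable (`PG <= f`).
-/

set_option autoImplicit false

namespace H60NH

open MeasureTheory Metric Set Filter Topology
open scoped ENNReal NNReal ContDiff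

private theorem ftest_gn {n m : ℕ} (a : Fin n → E m) : 0 ≤ gn a ∧ (∀ i, ‖a i‖ ≤ gn a) := by
  refine ⟨Real.sqrt_nonneg _, fun i => ?_⟩
  unfold gn
  apply Real.le_sqrt_of_sq_le
  exact Finset.single_le_sum (f := fun i => ‖a i‖ ^ 2) (fun j _ => by positivity)
    (Finset.mem_univ i)

private theorem ftest_ev {n : ℕ} (i : Fin n) : ‖(ev i : E n)‖ = 1 := by
  unfold ev
  simp

private theorem ftest_pow {n : ℕ} (hn : 2 ≤ n) {f : E n → ℝ} (hm : Measurable f)
    (h0 : ∀ x, 0 ≤ f x) (hi : Integrable f) (hin : Integrable (fun x => f x ^ n)) :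
    Integrable (fun x => f x ^ (n - 1)) := by
  refine (hi.add hin).mono' (hm.pow_const _).aestronglyMeasurable (ae_of_all _ fun x => ?_)
  rw [Real.norm_eq_abs, abs_of_nonneg (pow_nonneg (h0 x) _)]
  change f x ^ (n - 1) ≤ f x + f x ^ n
  rcases le_total (f x) 1 with h | h
  · have h1 : f x ^ (n - 1) ≤ f x ^ 1 := pow_le_pow_of_le_one (h0 x) h (by omega)
    rw [pow_one] at h1
    have := pow_nonneg (h0 x) n
    linarith
  · have h1 : f x ^ (n - 1) ≤ f x ^ n := pow_le_pow_right₀ h (by omega)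
    have := h0 x
    linarith

/-- the error `rr` is continuous on `ball 0 4` -/
private theorem ftest_rr {n m : ℕ} {N : Set (E m)} {π : E m → E m} {δ C : ℝ} (hT : TC N π δ C)
    {U B : E n → E m} {μ : E n → ℝ} (hU : ContDiff ℝ ∞ U)
    (hN : ∀ x ∈ ball (0 : E n) 4, infDist (U x) N < δ) (hG : Gauge π (ball 0 4) U B μ) (h : E n) :
    ContinuousOn (fun x => rr π U B μ x h) (ball 0 4) := by
  have hδ := hT.pos
  have hO : IsOpen {y : E m | infDist y N < 4 * δ} :=
    isOpen_lt (continuous_infDist_pt N) continuous_const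
  have hD1 : ContDiffOn ℝ ∞ (fderiv ℝ π) {y | infDist y N < 4 * δ} :=
    hT.smooth.fderiv_of_isOpen hO (by norm_cast)
  have hD2 : ContinuousOn (D2 π) {y | infDist y N < 4 * δ} :=
    hD1.continuousOn_fderiv_of_isOpen hO (by norm_cast)
  have hmaps : MapsTo U (ball (0 : E n) 4) {y | infDist y N < 4 * δ} := by
    intro x hx
    have := hN x hx
    change infDist (U x) N < 4 * δ
    linarith
  have hπU : ContDiffOn ℝ ∞ (fun y => π (U y)) (ball (0 : E n) 4) :=
    hT.smooth.comp hU.contDiffOn hmaps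
  have hmaps2 : MapsTo (fun y => π (U y)) (ball (0 : E n) 4) {y | infDist y N < 4 * δ} := by
    intro x hx
    have h1 := hT.mem (U x) (hmaps hx)
    change infDist (π (U x)) N < 4 * δ
    rw [infDist_zero_of_mem h1]
    linarith
  have c1 : ContinuousOn (fun x => pU π U x h) (ball (0 : E n) 4) := by
    unfold pU
    exact (hπU.continuousOn_fderiv_of_isOpen isOpen_ball (by norm_cast)).clm_apply
      continuousOn_const
  have c2 : ContinuousOn (fun x => D2 π (π (U x))) (ball (0 : E n) 4) :=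
    hD2.comp hπU.continuousOn hmaps2
  have cB : ContinuousOn B (ball (0 : E n) 4) := hG.cB.continuousOn
  have cμ : ContinuousOn μ (ball (0 : E n) 4) := hG.cμ.continuousOn
  have c3 : ContinuousOn (fun x => fderiv ℝ B x h) (ball (0 : E n) 4) :=
    (hG.cB.continuousOn_fderiv_of_isOpen isOpen_ball le_rfl).clm_apply continuousOn_const
  have c4 : ContinuousOn (fun x => fderiv ℝ μ x h) (ball (0 : E n) 4) :=
    (hG.cμ.continuousOn_fderiv_of_isOpen isOpen_ball le_rfl).clm_apply continuousOn_const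
  have c5 : ContinuousOn (fun x => calE π U B μ x h) (ball (0 : E n) 4) := by
    unfold calE
    exact (c3.sub (cμ.smul c1)).sub ((c2.clm_apply c1).clm_apply cB)
  have c6 : ContinuousOn (fun x => cale π U B μ x h) (ball (0 : E n) 4) := by
    unfold cale
    exact c4.sub (c1.inner (𝕜 := ℝ) cB)
  unfold rr
  exact (c5.norm.add c6.abs).div cμ (fun x hx => (hG.pos x hx).ne')

/-- the integrand of the Euler-Lagrange system is integrable -/
private theorem ftest_int {n m : ℕ} (hn : 2 ≤ n) {N : Set (E m)} {π : E m → E m} {δ C : ℝ}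
    (hT : TC N π δ C) (u : E n → E m) (G : E n → Fin n → E m) (hS : Sol N π 64 u G)
    (Y : E n → E m) (hY : ContDiff ℝ 1 Y) (hYc : HasCompactSupport Y) :
    Integrable (fun x => gn (G x) ^ (n - 2) * (∑ i, (inner ℝ (G x i) (fderiv ℝ Y x (ev i))
      + inner ℝ (D2 π (u x) (G x i) (G x i)) (Y x)))) (volume.restrict (ball (0 : E n) 64)) := by
  obtain ⟨_, _, _, hgm, hgi, hgn⟩ := sol_int (by omega : 1 ≤ n) hS
  have hg1 := ftest_pow hn hgm (fun x => (ftest_gn (G x)).1) hgi hgn
  obtain ⟨D₂, hD₂⟩ := hYc.exists_bound_of_continuous hY.continuous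
  have hcd : Continuous (fderiv ℝ Y) := hY.continuous_fderiv one_ne_zero
  obtain ⟨D₁, hD₁⟩ := (hYc.fderiv ℝ).exists_bound_of_continuous hcd
  have hC0 : 0 ≤ C := zero_le_one.trans hT.one_le
  have hD₁0 : 0 ≤ D₁ := (norm_nonneg _).trans (hD₁ 0)
  have hD₂0 : 0 ≤ D₂ := (norm_nonneg _).trans (hD₂ 0)
  refine Integrable.mono' (((hg1.const_mul (n * D₁)).add (hgn.const_mul (n * (C * D₂)))).restrict)
    ?_ ?_
  · apply AEStronglyMeasurable.mul
    · exact (hgm.pow_const _).aestronglyMeasurable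
    · refine Finset.aestronglyMeasurable_fun_sum _ fun i _ => ?_
      have hGi : AEStronglyMeasurable (fun x => G x i) (volume.restrict (ball (0 : E n) 64)) :=
        (hS.meas_G i).aestronglyMeasurable
      refine AEStronglyMeasurable.add ?_ ?_
      · exact hGi.inner (hcd.clm_apply continuous_const).aestronglyMeasurable
      · refine AEStronglyMeasurable.inner ?_ hY.continuous.aestronglyMeasurable
        have h1 : Measurable (fun x => D2 π (u x)) :=
          (measurable_fderiv ℝ (fderiv ℝ π)).comp hS.meas_u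
        have h2 : AEStronglyMeasurable (fun x => D2 π (u x))
            (volume.restrict (ball (0 : E n) 64)) := h1.aestronglyMeasurable
        have hc1 : Continuous (fun p : (E m →L[ℝ] E m →L[ℝ] E m) × E m => p.1 p.2) :=
          isBoundedBilinearMap_apply.continuous
        have hc2 : Continuous (fun p : (E m →L[ℝ] E m) × E m => p.1 p.2) :=
          isBoundedBilinearMap_apply.continuous
        exact hc2.comp_aestronglyMeasurable
          ((hc1.comp_aestronglyMeasurable (h2.prodMk hGi)).prodMk hGi)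
  · filter_upwards [hS.memN] with x hx
    have hδ := hT.pos
    have hbd : ‖D2 π (u x)‖ ≤ C := hT.bd2 (u x) (by
      rw [infDist_zero_of_mem hx]
      linarith)
    obtain ⟨hg0, hgi'⟩ := ftest_gn (G x)
    rw [norm_mul, Real.norm_eq_abs, abs_of_nonneg (pow_nonneg hg0 _)]
    have h4 : ‖∑ i, (inner ℝ (G x i) (fderiv ℝ Y x (ev i))
      + inner ℝ (D2 π (u x) (G x i) (G x i)) (Y x))‖ ≤
        n * (gn (G x) * D₁ + C * gn (G x) * gn (G x) * D₂) := by
      calc _ ≤ ∑ i, ‖(inner ℝ (G x i) (fderiv ℝ Y x (ev i))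
          + inner ℝ (D2 π (u x) (G x i) (G x i)) (Y x))‖ := norm_sum_le _ _
        _ ≤ ∑ _i : Fin n, (gn (G x) * D₁ + C * gn (G x) * gn (G x) * D₂) := by
            refine Finset.sum_le_sum fun i _ => (norm_add_le _ _).trans (add_le_add ?_ ?_)
            · refine (norm_inner_le_norm _ _).trans (mul_le_mul (hgi' i) ?_ (norm_nonneg _) hg0)
              refine (ContinuousLinearMap.le_opNorm _ _).trans ?_
              rw [ftest_ev, mul_one]
              exact hD₁ x
            · refine (norm_inner_le_norm _ _).trans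
                (mul_le_mul ?_ (hD₂ x) (norm_nonneg _) (by positivity))
              refine (ContinuousLinearMap.le_opNorm _ _).trans ?_
              refine mul_le_mul ?_ (hgi' i) (norm_nonneg _) (by positivity)
              refine (ContinuousLinearMap.le_opNorm _ _).trans ?_
              exact mul_le_mul hbd (hgi' i) (norm_nonneg _) hC0
        _ = _ := by
            rw [Finset.sum_const, Finset.card_univ, Fintype.card_fin, nsmul_eq_mul]
    obtain ⟨k, rfl⟩ : ∃ k, n = k + 2 := ⟨n - 2, by omega⟩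
    calc gn (G x) ^ (k + 2 - 2) * ‖∑ i, (inner ℝ (G x i) (fderiv ℝ Y x (ev i))
          + inner ℝ (D2 π (u x) (G x i) (G x i)) (Y x))‖
        ≤ gn (G x) ^ (k + 2 - 2) * (((k + 2 : ℕ) : ℝ) *
          (gn (G x) * D₁ + C * gn (G x) * gn (G x) * D₂)) :=
          mul_le_mul_of_nonneg_left h4 (pow_nonneg hg0 _)
      _ = ((k + 2 : ℕ) : ℝ) * D₁ * gn (G x) ^ (k + 2 - 1) +
          ((k + 2 : ℕ) : ℝ) * (C * D₂) * gn (G x) ^ (k + 2) := by
          rw [show k + 2 - 2 = k by omega, show k + 2 - 1 = k + 1 by omega]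
          ring

theorem test_ineq {n m : ℕ} (hn : 2 ≤ n) {φ : E n → ℝ} {Θ : Fin n → E n → ℝ} {M : ℝ}
    (hφ : Moll φ Θ M) {N : Set (E m)} {π : E m → E m} {δ C : ℝ} (hT : TC N π δ C)
    {χ : E n → ℝ} {L : ℝ} (hχ : Cut χ L)
    (u : E n → E m) (G : E n → Fin n → E m) (ε C₂ : ℝ)
    (B : ℕ → E n → E m) (μ : ℕ → E n → ℝ) (hS : Sol N π 64 u G)
    (hf : Mor (fun x => gn (G x)) ε)
    (hG : GD N π δ φ u (fun x => gn (G x)) ε C₂ B μ) (K : ℕ) :
    ∫ x, χ x ^ n * gn (G x) ^ (n - 2) * PG G (nb (B K) (μ K)) x ^ 2 ≤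
      n ^ 2 * L * (∫ x in ball (0 : E n) 1 \ ball (0 : E n) (1 / 2),
        gn (G x) ^ (n - 1) * ‖nb (B K) (μ K) x‖)
      + 2 * (∫ x, χ x ^ n * gn (G x) ^ (n - 2) * PG G (nb (B K) (μ K)) x *
          ∑ i, rr π (ubar φ u K) (B K) (μ K) x (ev i))
      + (2 + C + (1 + 2 * C) * (C + C / δ)) *
        ((∫ x in ball (0 : E n) 1,
            gn (G x) ^ (n - 1) * ∑ i, ‖pU π (ubar φ u K) x (ev i) - G x i‖)
          + ∫ x in ball (0 : E n) 1, gn (G x) ^ n * ‖π (ubar φ u K x) - u x‖) := by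
  classical
  have hδ := hT.pos
  have hC1 := hT.one_le
  have hC0 : 0 ≤ C := zero_le_one.trans hC1
  set b : E n → E m := nb (B K) (μ K) with hb
  set U : E n → E m := ubar φ u K with hUdef
  have hgau := hG.gauge K
  have hbs : ContDiffOn ℝ 1 b (ball 0 4) := (nb_smooth hgau).1
  obtain ⟨hY1, hYc, hYs, hYd⟩ := test_field (by omega : 1 ≤ n) hχ b hbs
  set Y : E n → E m := fun x => χ x ^ n • b x with hYdef
  obtain ⟨_, _, _, hgm, hgi, hgn⟩ := sol_int (by omega : 1 ≤ n) hS
  have hg1 := ftest_pow hn hgm (fun x => (ftest_gn (G x)).1) hgi hgn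
  have hb14 : ball (0 : E n) 1 ⊆ ball (0 : E n) 4 := ball_subset_ball (by norm_num)
  have hb164 : ball (0 : E n) 1 ⊆ ball (0 : E n) 64 := ball_subset_ball (by norm_num)
  have hel := hS.el Y hY1 hYc (hYs.trans hb164)
  set Φ : E n → ℝ := fun x => gn (G x) ^ (n - 2) *
    (∑ i, (inner ℝ (G x i) (fderiv ℝ Y x (ev i)) + inner ℝ (D2 π (u x) (G x i) (G x i)) (Y x)))
    with hΦ
  have hYout : ∀ x, x ∉ ball (0 : E n) 1 → Y x = 0 ∧ fderiv ℝ Y x = 0 := by
    intro x hx
    have h1 : x ∉ tsupport Y := fun h => hx (hYs h)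
    exact ⟨image_eq_zero_of_notMem_tsupport h1, by
      have h2 : Y =ᶠ[𝓝 x] fun _ => 0 := notMem_tsupport_iff_eventuallyEq.1 h1
      rw [h2.fderiv_eq]
      exact fderiv_const_apply _⟩
  have hΦout : ∀ x, x ∉ ball (0 : E n) 1 → Φ x = 0 := by
    intro x hx
    obtain ⟨h1, h2⟩ := hYout x hx
    simp only [hΦ]
    rw [h1, h2]
    simp
  have hΦ1 : ∫ x in ball (0 : E n) 1, Φ x = 0 := by
    rw [setIntegral_eq_integral_of_forall_compl_eq_zero hΦout]
    exact hel
  have hΦi : Integrable Φ (volume.restrict (ball (0 : E n) 1)) :=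
    (ftest_int hn hT u G hS Y hY1 hYc).mono_measure (Measure.restrict_mono hb164 le_rfl)
  obtain ⟨he1, he2⟩ := err_int hn hφ hT hS hG.tube' K
  -- continuity and bounds of `b` and `rr`
  have hbc : ContinuousOn b (ball 0 4) := hbs.continuousOn
  have hb1 : ∀ x ∈ ball (0 : E n) 4, ‖b x‖ ≤ 1 := fun x hx => (nb_unit hgau x hx).2.1
  have hrc : ContinuousOn (fun x => ∑ i, rr π U (B K) (μ K) x (ev i)) (ball 0 4) :=
    continuousOn_finsetSum _ fun i _ =>
      ftest_rr hT (hG.smooth K) (hG.tube' K) hgau (ev i)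
  have hrr0 : ∀ x ∈ ball (0 : E n) 4, 0 ≤ ∑ i, rr π U (B K) (μ K) x (ev i) := fun x hx =>
    Finset.sum_nonneg fun i _ => div_nonneg (by positivity) (hgau.pos x hx).le
  obtain ⟨S, hSb⟩ : ∃ S : ℝ, ∀ x ∈ closedBall (0 : E n) 1,
      ‖∑ i, rr π U (B K) (μ K) x (ev i)‖ ≤ S :=
    (isCompact_closedBall (0 : E n) 1).exists_bound_of_continuousOn
      (hrc.mono (closedBall_subset_ball (by norm_num)))
  have hS0 : 0 ≤ S := (norm_nonneg _).trans (hSb 0 (mem_closedBall_self zero_le_one))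
  have hPm := PG_meas hS.meas_G b hbc
  have hχc : Continuous χ := hχ.smooth.continuous
  -- the term with `rr`
  set Ψ : E n → ℝ := fun x => χ x ^ n * gn (G x) ^ (n - 2) * PG G b x *
          ∑ i, rr π U (B K) (μ K) x (ev i) with hΨ
  have hχ1 : ∀ x, 0 ≤ χ x ^ n ∧ χ x ^ n ≤ 1 := fun x =>
    ⟨pow_nonneg (hχ.nonneg x) _, pow_le_one₀ (hχ.nonneg x) (hχ.le_one x)⟩
  have hpow1 : ∀ x, gn (G x) ^ (n - 2) * gn (G x) = gn (G x) ^ (n - 1) := by
    intro x
    rw [← pow_succ]
    congr 1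
    omega
  have hpow2 : ∀ x, gn (G x) ^ (n - 2) * gn (G x) ^ 2 = gn (G x) ^ n := by
    intro x
    rw [← pow_add]
    congr 1
    omega
  have hΨi : Integrable Ψ (volume.restrict (ball (0 : E n) 1)) := by
    refine Integrable.mono' ((hg1.const_mul S).restrict) ?_ ?_
    · refine AEStronglyMeasurable.mul ?_ ?_
      · exact (((hχc.measurable.pow_const _).mul (hgm.pow_const _)).mul hPm).aestronglyMeasurable
      · exact (hrc.mono hb14).aestronglyMeasurable measurableSet_ball
    · filter_upwards [ae_restrict_mem measurableSet_ball] with x hx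
      obtain ⟨hg0, _⟩ := ftest_gn (G x)
      obtain ⟨hP0, hP1⟩ := PG_bd G b x
      simp only [hΨ]
      rw [norm_mul, norm_mul, norm_mul, Real.norm_eq_abs, Real.norm_eq_abs, Real.norm_eq_abs,
        abs_of_nonneg (hχ1 x).1, abs_of_nonneg (pow_nonneg hg0 _), abs_of_nonneg hP0]
      have h1 := hSb x (ball_subset_closedBall hx)
      calc χ x ^ n * gn (G x) ^ (n - 2) * PG G b x * ‖∑ i, rr π U (B K) (μ K) x (ev i)‖
          ≤ 1 * gn (G x) ^ (n - 2) * gn (G x) * S := by
            have h2 := (hχ1 x).2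
            have h3 := (hχ1 x).1
            gcongr
        _ = S * gn (G x) ^ (n - 1) := by
            rw [one_mul, hpow1, mul_comm]
  -- the term with the cutoff
  set ann : Set (E n) := ball (0 : E n) 1 \ ball (0 : E n) (1 / 2) with hann
  have hannm : MeasurableSet ann := measurableSet_ball.diff measurableSet_ball
  have hann1 : ann ⊆ ball (0 : E n) 1 := Set.sdiff_subset
  set Rf : E n → ℝ := ann.indicator (fun x => gn (G x) ^ (n - 1) * ‖b x‖) with hRf
  have hRi0 : Integrable (fun x => gn (G x) ^ (n - 1) * ‖b x‖)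
      (volume.restrict (ball (0 : E n) 1)) := by
    refine Integrable.mono' (hg1.restrict) ?_ ?_
    · exact (hgm.pow_const _).aestronglyMeasurable.mul
        ((hbc.mono hb14).norm.aestronglyMeasurable measurableSet_ball)
    · filter_upwards [ae_restrict_mem measurableSet_ball] with x hx
      obtain ⟨hg0, _⟩ := ftest_gn (G x)
      rw [norm_mul, norm_norm, Real.norm_eq_abs, abs_of_nonneg (pow_nonneg hg0 _)]
      exact mul_le_of_le_one_right (pow_nonneg hg0 _) (hb1 x (hb14 hx))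
  have hRi : Integrable Rf (volume.restrict (ball (0 : E n) 1)) := hRi0.indicator hannm
  have hR1 : ∫ x in ball (0 : E n) 1, Rf x = ∫ x in ann, gn (G x) ^ (n - 1) * ‖b x‖ := by
    rw [hRf, setIntegral_indicator hannm, inter_eq_self_of_subset_right hann1]
  -- constants
  set C₄ : ℝ := 2 + C + (1 + 2 * C) * (C + C / δ) with hC₄
  have hC₄0 : 0 ≤ C₄ := by positivity
  set e1 : E n → ℝ := fun x => gn (G x) ^ (n - 1) * ∑ i, ‖pU π U x (ev i) - G x i‖ with he1d
  set e2 : E n → ℝ := fun x => gn (G x) ^ n * ‖π (U x) - u x‖ with he2d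
  have hmain : ∀ᵐ x ∂(volume.restrict (ball (0 : E n) 1)),
      χ x ^ n * gn (G x) ^ (n - 2) * PG G b x ^ 2 ≤
        Φ x + n ^ 2 * L * Rf x + 2 * Ψ x + C₄ * (e1 x + e2 x) := by
    have hm1 : ∀ᵐ x ∂(volume.restrict (ball (0 : E n) 1)), u x ∈ N :=
      ae_restrict_of_ae_restrict_of_subset hb164 hS.memN
    have hm2 : ∀ᵐ x ∂(volume.restrict (ball (0 : E n) 1)),
        ∀ i, fderiv ℝ π (u x) (G x i) = G x i :=
      ae_restrict_of_ae_restrict_of_subset hb164 hS.tan
    filter_upwards [hm1, hm2, ae_restrict_mem measurableSet_ball] with x hx1 hx2 hx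
    obtain ⟨hg0, hgi'⟩ := ftest_gn (G x)
    obtain ⟨hc0, hc1⟩ := hχ1 x
    have hL := hχ.one_le
    have hx4 := hb14 hx
    have hpt := test_pt hT (hG.smooth K).contDiffOn (hG.tube' K) hgau G x hx4 (u x) hx1 hx2
    -- the test field
    have hT1 : χ x ^ n * ∑ i, (inner ℝ (G x i) (fderiv ℝ b x (ev i))
        + inner ℝ (D2 π (u x) (G x i) (G x i)) (b x)) +
        ∑ i, ((n : ℝ) * χ x ^ (n - 1) * fderiv ℝ χ x (ev i)) * inner ℝ (G x i) (b x) =
        ∑ i, (inner ℝ (G x i) (fderiv ℝ Y x (ev i)) +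
          inner ℝ (D2 π (u x) (G x i) (G x i)) (Y x)) := by
      rw [Finset.mul_sum, ← Finset.sum_add_distrib]
      refine Finset.sum_congr rfl fun i _ => ?_
      rw [hYd x hx4 (ev i), inner_add_right, inner_smul_right, inner_smul_right]
      simp only [hYdef]
      rw [inner_smul_right]
      ring
    have hT2 : -(n ^ 2 * L * (if x ∈ ann then gn (G x) * ‖b x‖ else 0)) ≤
        ∑ i, ((n : ℝ) * χ x ^ (n - 1) * fderiv ℝ χ x (ev i)) * inner ℝ (G x i) (b x) := by
      by_cases hxa : x ∈ ann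
      · rw [if_pos hxa]
        have h1 : ∀ i, -((n : ℝ) * L * (gn (G x) * ‖b x‖)) ≤
            ((n : ℝ) * χ x ^ (n - 1) * fderiv ℝ χ x (ev i)) * inner ℝ (G x i) (b x) := by
          intro i
          apply neg_le_of_abs_le
          rw [abs_mul, abs_mul, abs_mul, Nat.abs_cast]
          have h2 : |fderiv ℝ χ x (ev i)| ≤ L := by
            have := hχ.der x (ev i)
            rwa [ftest_ev, mul_one] at this
          have h3 : |χ x ^ (n - 1)| ≤ 1 := by
            rw [abs_of_nonneg (pow_nonneg (hχ.nonneg x) _)]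
            exact pow_le_one₀ (hχ.nonneg x) (hχ.le_one x)
          have h4 : |inner ℝ (G x i) (b x)| ≤ gn (G x) * ‖b x‖ :=
            (abs_real_inner_le_norm _ _).trans
              (mul_le_mul_of_nonneg_right (hgi' i) (norm_nonneg _))
          calc (n : ℝ) * |χ x ^ (n - 1)| * |fderiv ℝ χ x (ev i)| * |inner ℝ (G x i) (b x)|
              ≤ (n : ℝ) * 1 * L * (gn (G x) * ‖b x‖) := by gcongr
            _ = (n : ℝ) * L * (gn (G x) * ‖b x‖) := by ring
        calc -((n : ℝ) ^ 2 * L * (gn (G x) * ‖b x‖))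
            = ∑ _i : Fin n, -((n : ℝ) * L * (gn (G x) * ‖b x‖)) := by
              rw [Finset.sum_const, Finset.card_univ, Fintype.card_fin, nsmul_eq_mul]
              ring
          _ ≤ _ := Finset.sum_le_sum fun i _ => h1 i
      · rw [if_neg hxa]
        have h1 : fderiv ℝ χ x = 0 := hχ.der0 x hxa
        rw [h1]
        simp
    have hRx : gn (G x) ^ (n - 2) * (if x ∈ ann then gn (G x) * ‖b x‖ else 0) = Rf x := by
      rw [hRf]
      by_cases hxa : x ∈ ann
      · rw [if_pos hxa, indicator_of_mem hxa, ← mul_assoc, hpow1]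
      · rw [if_neg hxa, indicator_of_notMem hxa, mul_zero]
    have hgp : 0 ≤ gn (G x) ^ (n - 2) := pow_nonneg hg0 _
    set A : ℝ := ∑ i, (inner ℝ (G x i) (fderiv ℝ b x (ev i))
        + inner ℝ (D2 π (u x) (G x i) (G x i)) (b x)) with hA
    set Sd : ℝ := ∑ i, ‖pU π U x (ev i) - G x i‖ with hSd
    have hSd0 : 0 ≤ Sd := Finset.sum_nonneg fun i _ => norm_nonneg _
    have step1 : χ x ^ n * gn (G x) ^ (n - 2) * PG G b x ^ 2 ≤
        χ x ^ n * gn (G x) ^ (n - 2) * (A + C₄ * (gn (G x) * Sd + gn (G x) ^ 2 * ‖π (U x) - u x‖)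
          + 2 * PG G b x * ∑ i, rr π U (B K) (μ K) x (ev i)) :=
      mul_le_mul_of_nonneg_left hpt (mul_nonneg hc0 hgp)
    have step2 : χ x ^ n * gn (G x) ^ (n - 2) *
        (A + C₄ * (gn (G x) * Sd + gn (G x) ^ 2 * ‖π (U x) - u x‖)
          + 2 * PG G b x * ∑ i, rr π U (B K) (μ K) x (ev i)) =
        gn (G x) ^ (n - 2) * (χ x ^ n * A) +
        χ x ^ n * (C₄ * ((gn (G x) ^ (n - 2) * gn (G x)) * Sd +
          (gn (G x) ^ (n - 2) * gn (G x) ^ 2) * ‖π (U x) - u x‖)) + 2 * Ψ x := by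
      simp only [hΨ]
      ring
    rw [hpow1, hpow2] at step2
    have step3 : χ x ^ n * (C₄ * (gn (G x) ^ (n - 1) * Sd + gn (G x) ^ n * ‖π (U x) - u x‖)) ≤
        C₄ * (e1 x + e2 x) := by
      have h1 : 0 ≤ C₄ * (gn (G x) ^ (n - 1) * Sd + gn (G x) ^ n * ‖π (U x) - u x‖) := by
        positivity
      exact mul_le_of_le_one_left h1 hc1
    have step4 : gn (G x) ^ (n - 2) * (χ x ^ n * A) ≤ Φ x + n ^ 2 * L * Rf x := by
      have h1 : χ x ^ n * A ≤ ∑ i, (inner ℝ (G x i) (fderiv ℝ Y x (ev i)) +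
          inner ℝ (D2 π (u x) (G x i) (G x i)) (Y x)) +
          n ^ 2 * L * (if x ∈ ann then gn (G x) * ‖b x‖ else 0) := by
        linarith
      have h2 := mul_le_mul_of_nonneg_left h1 hgp
      rw [mul_add] at h2
      have h3 : gn (G x) ^ (n - 2) * (n ^ 2 * L * (if x ∈ ann then gn (G x) * ‖b x‖ else 0)) =
          n ^ 2 * L * Rf x := by
        rw [← hRx]
        ring
      rw [h3] at h2
      exact h2
    linarith
  have hnn : 0 ≤ᵐ[volume.restrict (ball (0 : E n) 1)]
      fun x => χ x ^ n * gn (G x) ^ (n - 2) * PG G b x ^ 2 := by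
    refine ae_of_all _ fun x => ?_
    have h1 := (ftest_gn (G x)).1
    have h2 := (hχ1 x).1
    positivity
  have hRHSi : Integrable (fun x => Φ x + n ^ 2 * L * Rf x + 2 * Ψ x + C₄ * (e1 x + e2 x))
      (volume.restrict (ball (0 : E n) 1)) :=
    ((hΦi.add (hRi.const_mul _)).add (hΨi.const_mul _)).add ((he2.add he1).const_mul _)
  have hfin := integral_mono_of_nonneg hnn hRHSi hmain
  have hl : ∫ x, χ x ^ n * gn (G x) ^ (n - 2) * PG G b x ^ 2 =
      ∫ x in ball (0 : E n) 1, χ x ^ n * gn (G x) ^ (n - 2) * PG G b x ^ 2 := by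
    rw [setIntegral_eq_integral_of_forall_compl_eq_zero]
    intro x hx
    have h1 : χ x = 0 := image_eq_zero_of_notMem_tsupport (fun h => hx (hχ.supp h))
    rw [h1, zero_pow (by omega), zero_mul, zero_mul]
  have hr : ∫ x, Ψ x = ∫ x in ball (0 : E n) 1, Ψ x := by
    rw [setIntegral_eq_integral_of_forall_compl_eq_zero]
    intro x hx
    have h1 : χ x = 0 := image_eq_zero_of_notMem_tsupport (fun h => hx (hχ.supp h))
    simp only [hΨ]
    rw [h1, zero_pow (by omega), zero_mul, zero_mul, zero_mul]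
  rw [hl, hr, ← hR1]
  refine hfin.trans (le_of_eq ?_)
  have i1 : Integrable (fun x => Φ x + n ^ 2 * L * Rf x) (volume.restrict (ball (0 : E n) 1)) :=
    hΦi.add (hRi.const_mul _)
  have i2 : Integrable (fun x => Φ x + n ^ 2 * L * Rf x + 2 * Ψ x)
      (volume.restrict (ball (0 : E n) 1)) := i1.add (hΨi.const_mul _)
  have i3 : Integrable (fun x => C₄ * (e1 x + e2 x)) (volume.restrict (ball (0 : E n) 1)) :=
    (he2.add he1).const_mul _
  rw [integral_add i2 i3, integral_add i1 (hΨi.const_mul _),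
    integral_add hΦi (hRi.const_mul _), integral_const_mul, integral_const_mul,
    integral_const_mul, integral_add he2 he1, hΦ1]
  ring

end H60NH
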