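import Pool.Agent.H60.NH.ScInt
import Pool.Agent.H60.NH.NInt

/-!
# [H60 NH SCMOR] The Morrey bound for the rescaled functions

`g = scF f x₀ ρ`, `s = sn n`. Let `y`, `R > 0`. If `ball y R` does not meet `ball 0 64` the integral is `0`.
If `R >= 64`: `∫_{ball y R} g <= ∫ g <= (vb n 64^n)^(1-1/s) (∫ g^s)^(1/s) = C (8 xs f x₀ (64ρ))^(1/s) <= C lam^(1/s)`
and `R^(n-1) >= 1`. If `R < 64` choose `y' ∈ ball y R ∩ ball 0 64`; `ball y R ⊆ ball y' (2R)` and, by Hölder
and the change of variables,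
`∫_{ball y' (2R)} g <= (vb n (2R)^n)^(1-1/s) (∫_{ball y' (2R)} g^s)^(1/s)`,
`∫_{ball y' (2R)} g^s <= ρ^(-1/2) ∫_{ball (x₀+ρy') (2Rρ)} f^s = √(2R) xs f (x₀ + ρ y') (2Rρ) <= √(2R) lam`,
since `x₀ + ρ y' ∈ ball x₀ (64ρ)`, `2Rρ <= 128ρ`. The exponent of `R`: `n(1 - 1/s) + 1/(2s) = n - (n-1/2)/s = n - 1`.
-/

set_option autoImplicit false

namespace H60NH

open MeasureTheory Metric Set Filter Topology
open scoped ENNReal NNReal ContDiff

private theorem scm_mem {n : ℕ} (x₀ y x : E n) (ρ r : ℝ) (hρ : 0 < ρ) :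
    x₀ + ρ • x ∈ ball (x₀ + ρ • y) (r * ρ) ↔ x ∈ ball y r := by
  rw [mem_ball, mem_ball, dist_eq_norm, dist_eq_norm, add_sub_add_left_eq_sub, ← smul_sub,
    norm_smul, Real.norm_of_nonneg hρ.le, mul_comm r, mul_lt_mul_iff_right₀ hρ]

private theorem scm_cv {n : ℕ} (F : E n → ℝ) (x₀ y : E n) (ρ r : ℝ) (hρ : 0 < ρ) :
    ∫ x in ball y r, F (x₀ + ρ • x) = (ρ ^ n)⁻¹ * ∫ z in ball (x₀ + ρ • y) (r * ρ), F z := by
  rw [← integral_indicator measurableSet_ball, ← integral_indicator measurableSet_ball]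
  have h1 : ∀ x : E n, (ball y r).indicator (fun x => F (x₀ + ρ • x)) x =
      (fun w => (ball (x₀ + ρ • y) (r * ρ)).indicator F (x₀ + w)) (ρ • x) := by
    intro x
    dsimp only
    by_cases hx : x ∈ ball y r
    · rw [Set.indicator_of_mem hx, Set.indicator_of_mem ((scm_mem x₀ y x ρ r hρ).2 hx)]
    · rw [Set.indicator_of_notMem hx, Set.indicator_of_notMem]
      intro h
      exact hx ((scm_mem x₀ y x ρ r hρ).1 h)
  simp_rw [h1]
  rw [Measure.integral_comp_smul (volume : Measure (E n))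
      (fun w => (ball (x₀ + ρ • y) (r * ρ)).indicator F (x₀ + w)) ρ,
    integral_add_left_eq_self (fun w => (ball (x₀ + ρ • y) (r * ρ)).indicator F w) x₀,
    finrank_euclideanSpace_fin, abs_of_pos (by positivity), smul_eq_mul]

private theorem scm_int {n : ℕ} {F : E n → ℝ} (hF : Integrable F) (x₀ : E n) {ρ : ℝ}
    (hρ : 0 < ρ) : Integrable (fun x => F (x₀ + ρ • x)) :=
  (hF.comp_add_left x₀).comp_smul hρ.ne'

private theorem scm_main {n : ℕ} (hn : 2 ≤ n) {f : E n → ℝ} (hf : Base f) (x₀ y : E n)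
    (ρ r lam : ℝ) (hρ : 0 < ρ) (hr : 0 < r) (hx : xs f (x₀ + ρ • y) (r * ρ) ≤ lam) :
    ∫ x in ball y r, ρ * f (x₀ + ρ • x) ≤
      vb n ^ (1 - 1 / sn n) * r ^ (n - 1) * lam ^ (1 / sn n) := by
  obtain ⟨hs1, -⟩ := sn_bd' hn
  have hs0 : 0 < sn n := zero_lt_one.trans hs1
  have hvb := vb_pos n
  have hfin : IsFiniteMeasure (volume.restrict (ball y r)) :=
    isFiniteMeasure_restrict.mpr measure_ball_lt_top.ne
  have hG0 : ∀ x, 0 ≤ ρ * f (x₀ + ρ • x) := fun x => mul_nonneg hρ.le (hf.nonneg _)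
  have hGm : Measurable (fun x => ρ * f (x₀ + ρ • x)) :=
    (hf.meas.comp ((measurable_const_smul ρ).const_add x₀)).const_mul ρ
  have hGs : Integrable (fun x => (ρ * f (x₀ + ρ • x)) ^ sn n) := by
    have h1 := (scm_int (base_s_int hn hf) x₀ hρ).const_mul (ρ ^ sn n)
    refine h1.congr (Filter.Eventually.of_forall fun x => ?_)
    dsimp only
    rw [Real.mul_rpow hρ.le (hf.nonneg _)]
  have hpq : (sn n).HolderConjugate (Real.conjExponent (sn n)) :=
    Real.HolderConjugate.conjExponent hs1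
  have hmem : MemLp (fun x => ρ * f (x₀ + ρ • x)) (ENNReal.ofReal (sn n))
      (volume.restrict (ball y r)) := by
    rw [← integrable_norm_rpow_iff hGm.aestronglyMeasurable (by simpa using hs0)
      ENNReal.ofReal_ne_top, ENNReal.toReal_ofReal hs0.le]
    refine (hGs.restrict (s := ball y r)).congr (Filter.Eventually.of_forall fun x => ?_)
    dsimp only
    rw [Real.norm_of_nonneg (hG0 x)]
  have h := integral_mul_le_Lp_mul_Lq_of_nonneg (μ := volume.restrict (ball y r)) hpq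
    (f := fun x => ρ * f (x₀ + ρ • x)) (g := fun _ => (1 : ℝ))
    (Filter.Eventually.of_forall hG0)
    (Filter.Eventually.of_forall fun x => zero_le_one) hmem (memLp_const 1)
  simp only [mul_one, Real.one_rpow, integral_const, smul_eq_mul, MeasurableSet.univ,
    measureReal_restrict_apply, Set.univ_inter] at h
  have hvol : volume.real (ball y r) = vb n * r ^ n := by
    rw [Measure.real, vol_ball y r hr, ENNReal.toReal_ofReal (by positivity)]
  have hI : ∫ x in ball y r, (ρ * f (x₀ + ρ • x)) ^ sn n =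
      Real.sqrt r * xs f (x₀ + ρ • y) (r * ρ) := by
    have h1 : ∫ x in ball y r, (ρ * f (x₀ + ρ • x)) ^ sn n =
        ∫ x in ball y r, ρ ^ sn n * (fun z => f z ^ sn n) (x₀ + ρ • x) := by
      apply setIntegral_congr_fun measurableSet_ball
      intro x _
      dsimp only
      rw [Real.mul_rpow hρ.le (hf.nonneg _)]
    rw [h1, integral_const_mul, scm_cv (fun z => f z ^ sn n) x₀ y ρ r hρ]
    unfold xs
    have h2 : ρ ^ sn n = ρ ^ n / Real.sqrt ρ := by
      rw [Real.sqrt_eq_rpow, ← Real.rpow_natCast ρ n, ← Real.rpow_sub hρ]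
      rfl
    have h3 : 0 < Real.sqrt ρ := Real.sqrt_pos.2 hρ
    have h4 : 0 < Real.sqrt r := Real.sqrt_pos.2 hr
    rw [h2, Real.sqrt_mul hr.le]
    field_simp
  have hI0 : 0 ≤ ∫ x in ball y r, (ρ * f (x₀ + ρ • x)) ^ sn n :=
    integral_nonneg fun x => Real.rpow_nonneg (hG0 x) _
  have hlam : 0 ≤ lam := by
    have h1 : 0 ≤ xs f (x₀ + ρ • y) (r * ρ) :=
      div_nonneg (integral_nonneg fun x => Real.rpow_nonneg (hf.nonneg x) _) (Real.sqrt_nonneg _)
    exact h1.trans hx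
  have hq : 1 / Real.conjExponent (sn n) = 1 - 1 / sn n := by
    unfold Real.conjExponent
    rw [one_div_div]
    field_simp
  rw [hvol, hq] at h
  refine h.trans ?_
  have h5 : (∫ x in ball y r, (ρ * f (x₀ + ρ • x)) ^ sn n) ^ (1 / sn n) ≤
      (Real.sqrt r) ^ (1 / sn n) * lam ^ (1 / sn n) := by
    rw [← Real.mul_rpow (Real.sqrt_nonneg _) hlam]
    refine Real.rpow_le_rpow hI0 ?_ (by positivity)
    rw [hI]
    exact mul_le_mul_of_nonneg_left hx (Real.sqrt_nonneg _)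
  have h6 : (vb n * r ^ n) ^ (1 - 1 / sn n) * (Real.sqrt r) ^ (1 / sn n) =
      vb n ^ (1 - 1 / sn n) * r ^ (n - 1) := by
    rw [Real.mul_rpow hvb.le (by positivity), mul_assoc]
    refine congrArg (fun z => vb n ^ (1 - 1 / sn n) * z) ?_
    rw [Real.sqrt_eq_rpow, ← Real.rpow_natCast r n, ← Real.rpow_mul hr.le,
      ← Real.rpow_mul hr.le, ← Real.rpow_add hr, ← Real.rpow_natCast r (n - 1)]
    congr 1
    rw [Nat.cast_sub (by omega)]
    have h7 : (n : ℝ) = sn n + 1 / 2 := by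
      unfold sn
      ring
    rw [Nat.cast_one, h7]
    have h8 : sn n ≠ 0 := hs0.ne'
    generalize sn n = t at h8
    field_simp
    ring
  calc (∫ x in ball y r, (ρ * f (x₀ + ρ • x)) ^ sn n) ^ (1 / sn n) *
        (vb n * r ^ n) ^ (1 - 1 / sn n)
      ≤ ((Real.sqrt r) ^ (1 / sn n) * lam ^ (1 / sn n)) * (vb n * r ^ n) ^ (1 - 1 / sn n) :=
        mul_le_mul_of_nonneg_right h5 (Real.rpow_nonneg (by positivity) _)
    _ = ((vb n * r ^ n) ^ (1 - 1 / sn n) * (Real.sqrt r) ^ (1 / sn n)) * lam ^ (1 / sn n) := by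
        ring
    _ = vb n ^ (1 - 1 / sn n) * r ^ (n - 1) * lam ^ (1 / sn n) := by rw [h6]

theorem sc_mor (n : ℕ) (hn : 2 ≤ n) : ∃ C₀ : ℝ, 1 ≤ C₀ ∧ ∀ (f : E n → ℝ), Base f →
    ∀ (x₀ : E n) (ρ lam : ℝ), 0 < ρ → 0 ≤ lam →
      (∀ y ∈ ball x₀ (64 * ρ), ∀ t : ℝ, 0 < t → t ≤ 128 * ρ → xs f y t ≤ lam) →
      Mor (scF f x₀ ρ) (C₀ * lam ^ (1 / sn n)) := by
  have hvb := vb_pos n
  have hV : 0 ≤ vb n ^ (1 - 1 / sn n) := Real.rpow_nonneg hvb.le _
  refine ⟨1 + vb n ^ (1 - 1 / sn n) * 2 ^ (n - 1), ?_, ?_⟩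
  · have h1 : 0 ≤ vb n ^ (1 - 1 / sn n) * 2 ^ (n - 1) := mul_nonneg hV (by positivity)
    linarith
  intro f hf x₀ ρ lam hρ hlam hxs
  have hG0 : ∀ x, 0 ≤ ρ * f (x₀ + ρ • x) := fun x => mul_nonneg hρ.le (hf.nonneg _)
  have hGi : Integrable (fun x => ρ * f (x₀ + ρ • x)) := (scm_int hf.int x₀ hρ).const_mul ρ
  have hGm : Measurable (fun x => ρ * f (x₀ + ρ • x)) :=
    (hf.meas.comp ((measurable_const_smul ρ).const_add x₀)).const_mul ρ
  have hgle : ∀ x, scF f x₀ ρ x ≤ ρ * f (x₀ + ρ • x) := fun x =>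
    indicator_le_self' (fun _ _ => hG0 _) x
  have hg0 : ∀ x, 0 ≤ scF f x₀ ρ x := fun x => indicator_nonneg (fun _ _ => hG0 _) x
  have hgi : Integrable (scF f x₀ ρ) := hGi.indicator measurableSet_ball
  have hL : 0 ≤ lam ^ (1 / sn n) := Real.rpow_nonneg hlam _
  refine ⟨hGm.indicator measurableSet_ball, hg0, hgi, ?_, fun x hx => scF_out f x₀ ρ hx,
    mul_nonneg (by positivity) hL, ?_⟩
  · have h1 : Integrable (fun x => ρ ^ n * f (x₀ + ρ • x) ^ n) :=
      (scm_int hf.intn x₀ hρ).const_mul (ρ ^ n)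
    have h2 := h1.indicator (measurableSet_ball (x := (0 : E n)) (ε := 64))
    refine h2.congr (Filter.Eventually.of_forall fun x => ?_)
    by_cases hx : x ∈ ball (0 : E n) 64
    · change (ball (0 : E n) 64).indicator _ x = (scF f x₀ ρ x) ^ n
      rw [indicator_of_mem hx, scF_in f x₀ ρ le_rfl hx, mul_pow]
    · change (ball (0 : E n) 64).indicator _ x = (scF f x₀ ρ x) ^ n
      rw [indicator_of_notMem hx, scF_out f x₀ ρ hx, zero_pow (by omega)]
  intro y R hR
  have hC : vb n ^ (1 - 1 / sn n) ≤ 1 + vb n ^ (1 - 1 / sn n) * 2 ^ (n - 1) := by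
    have h1 : (1 : ℝ) ≤ 2 ^ (n - 1) := one_le_pow₀ (by norm_num)
    have h2 := mul_le_mul_of_nonneg_left h1 hV
    linarith
  by_cases hR64 : 64 ≤ R
  · have h1 : ∫ x in ball y R, scF f x₀ ρ x ≤ ∫ x, scF f x₀ ρ x :=
      setIntegral_le_integral hgi (Filter.Eventually.of_forall hg0)
    have h2 : ∫ x, scF f x₀ ρ x = ∫ x in ball (0 : E n) 64, ρ * f (x₀ + ρ • x) :=
      integral_indicator measurableSet_ball
    have h3 := scm_main hn hf x₀ 0 ρ 64 lam hρ (by norm_num)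
      (by
        rw [smul_zero, add_zero]
        exact hxs x₀ (mem_ball_self (by positivity)) _ (by positivity)
          (mul_le_mul_of_nonneg_right (by norm_num) hρ.le))
    rw [← h2] at h3
    refine (h1.trans h3).trans ?_
    calc vb n ^ (1 - 1 / sn n) * 64 ^ (n - 1) * lam ^ (1 / sn n)
        ≤ (1 + vb n ^ (1 - 1 / sn n) * 2 ^ (n - 1)) * R ^ (n - 1) * lam ^ (1 / sn n) := by
          refine mul_le_mul_of_nonneg_right ?_ hL
          exact mul_le_mul hC (pow_le_pow_left₀ (by norm_num) hR64 _) (by positivity)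
            (hV.trans hC)
      _ = (1 + vb n ^ (1 - 1 / sn n) * 2 ^ (n - 1)) * lam ^ (1 / sn n) * R ^ (n - 1) := by
          ring
  · rw [not_le] at hR64
    have hnn : 0 ≤ (1 + vb n ^ (1 - 1 / sn n) * 2 ^ (n - 1)) * lam ^ (1 / sn n) *
        R ^ (n - 1) :=
      mul_nonneg (mul_nonneg (hV.trans hC) hL) (by positivity)
    by_cases hne : (ball y R ∩ ball (0 : E n) 64).Nonempty
    · obtain ⟨y', hy1, hy2⟩ := hne
      have hsub : ball y R ⊆ ball y' (2 * R) := by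
        intro x hx
        rw [mem_ball] at hx hy1 ⊢
        have h1 := dist_triangle x y y'
        rw [dist_comm y y'] at h1
        linarith
      have h1 : ∫ x in ball y R, scF f x₀ ρ x ≤ ∫ x in ball y R, ρ * f (x₀ + ρ • x) :=
        integral_mono hgi.integrableOn hGi.integrableOn hgle
      have h2 : ∫ x in ball y R, ρ * f (x₀ + ρ • x) ≤
          ∫ x in ball y' (2 * R), ρ * f (x₀ + ρ • x) :=
        setIntegral_mono_set hGi.integrableOn (Filter.Eventually.of_forall hG0)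
          (Filter.Eventually.of_forall hsub)
      have h3 := scm_main hn hf x₀ y' ρ (2 * R) lam hρ (by positivity)
        (hxs _ ((sc_mem x₀ y' ρ 64 hρ).2 hy2) _ (by positivity)
          (mul_le_mul_of_nonneg_right (by linarith) hρ.le))
      refine ((h1.trans h2).trans h3).trans ?_
      rw [mul_pow]
      have h4 : vb n ^ (1 - 1 / sn n) * 2 ^ (n - 1) ≤
          1 + vb n ^ (1 - 1 / sn n) * 2 ^ (n - 1) := by linarith
      calc vb n ^ (1 - 1 / sn n) * (2 ^ (n - 1) * R ^ (n - 1)) * lam ^ (1 / sn n)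
          = (vb n ^ (1 - 1 / sn n) * 2 ^ (n - 1)) * (lam ^ (1 / sn n) * R ^ (n - 1)) := by ring
        _ ≤ (1 + vb n ^ (1 - 1 / sn n) * 2 ^ (n - 1)) * (lam ^ (1 / sn n) * R ^ (n - 1)) :=
            mul_le_mul_of_nonneg_right h4 (mul_nonneg hL (by positivity))
        _ = (1 + vb n ^ (1 - 1 / sn n) * 2 ^ (n - 1)) * lam ^ (1 / sn n) * R ^ (n - 1) := by
            ring
    · have h1 : ∫ x in ball y R, scF f x₀ ρ x = 0 := by
        rw [setIntegral_congr_fun (g := fun _ => (0 : ℝ)) measurableSet_ball (fun x hx =>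
          scF_out f x₀ ρ (fun hx2 => hne ⟨x, hx, hx2⟩)), integral_zero]
      rw [h1]
      exact hnn

end H60NH
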