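import Pool.Agent.H60.NH.SolBase
import Pool.Agent.H60.NH.ScMor

/-! # Lemmas for the iteration of the windows (from `Iter.lean`) -/

set_option autoImplicit false

namespace H60NH

open MeasureTheory Metric Set Filter Topology
open scoped ENNReal NNReal ContDiff

/-- Hölder on a ball -/
theorem iter_holder {n : ℕ} (hn : 1 ≤ n) {f : E n → ℝ} (hf : Base f) (y : E n) (t : ℝ) :
    ∫ x in ball y t, f x ^ sn n ≤ (∫ x in ball y t, f x ^ n) ^ (sn n / n) *
      ((volume (ball y t)).toReal) ^ (1 / (2 * (n : ℝ))) := by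
  have hn1 : (1 : ℝ) ≤ n := by exact_mod_cast hn
  have hs : 0 < sn n := by unfold sn; linarith
  have hsn : sn n < n := by unfold sn; linarith
  have hfin : IsFiniteMeasure (volume.restrict (ball y t)) :=
    isFiniteMeasure_restrict.mpr measure_ball_lt_top.ne
  have hpq : ((n : ℝ) / sn n).HolderConjugate (2 * (n : ℝ)) := by
    rw [Real.holderConjugate_iff]
    refine ⟨(one_lt_div hs).mpr hsn, ?_⟩
    rw [inv_div]
    have h2 : sn n = n - 1 / 2 := rfl
    rw [h2]
    field_simp
    ring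
  have hkey : ∀ x, ‖f x ^ sn n‖ ^ ((n : ℝ) / sn n) = f x ^ n := by
    intro x
    rw [Real.norm_of_nonneg (Real.rpow_nonneg (hf.nonneg x) _), ← Real.rpow_mul (hf.nonneg x),
      mul_div_cancel₀ _ hs.ne', Real.rpow_natCast]
  have hmeas : AEStronglyMeasurable (fun x => f x ^ sn n) (volume.restrict (ball y t)) :=
    (hf.meas.pow_const _).aestronglyMeasurable
  have hp0 : ENNReal.ofReal ((n : ℝ) / sn n) ≠ 0 := by
    rw [ne_eq, ENNReal.ofReal_eq_zero, not_le]
    positivity
  have hmem : MemLp (fun x => f x ^ sn n) (ENNReal.ofReal ((n : ℝ) / sn n))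
      (volume.restrict (ball y t)) := by
    rw [← integrable_norm_rpow_iff hmeas hp0 ENNReal.ofReal_ne_top,
      ENNReal.toReal_ofReal (by positivity)]
    simp only [hkey]
    exact hf.intn.restrict
  have h := integral_mul_le_Lp_mul_Lq_of_nonneg (μ := volume.restrict (ball y t)) hpq
    (f := fun x => f x ^ sn n) (g := fun _ => (1 : ℝ))
    (Filter.Eventually.of_forall fun x => Real.rpow_nonneg (hf.nonneg x) _)
    (Filter.Eventually.of_forall fun x => zero_le_one) hmem (memLp_const 1)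
  simp only [mul_one, Real.one_rpow, integral_const, smul_eq_mul, MeasurableSet.univ,
    measureReal_restrict_apply, Set.univ_inter] at h
  have h3 : ∫ x in ball y t, (f x ^ sn n) ^ ((n : ℝ) / sn n) = ∫ x in ball y t, f x ^ n := by
    refine integral_congr_ae (Filter.Eventually.of_forall fun x => ?_)
    have := hkey x
    rwa [Real.norm_of_nonneg (Real.rpow_nonneg (hf.nonneg x) _)] at this
  rw [h3, one_div_div] at h
  exact h

theorem iter_vol {n : ℕ} (y : E n) {t : ℝ} (ht : 0 < t) :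
    (volume (ball y t)).toReal = t ^ n * (volume (ball (0 : E n) 1)).toReal := by
  rw [Measure.addHaar_ball_of_pos _ _ ht, ENNReal.toReal_mul, finrank_euclideanSpace_fin,
    ENNReal.toReal_ofReal (by positivity)]

/-- the scale invariant quantity is bounded by the energy -/
theorem iter_xs {n : ℕ} (hn : 1 ≤ n) {f : E n → ℝ} (hf : Base f) (y : E n) {t : ℝ} (ht : 0 < t) :
    xs f y t ≤ (∫ x in ball y t, f x ^ n) ^ (sn n / n) *
      ((volume (ball (0 : E n) 1)).toReal) ^ (1 / (2 * (n : ℝ))) := by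
  have hn1 : (1 : ℝ) ≤ n := by exact_mod_cast hn
  have h1 := iter_holder hn hf y t
  rw [iter_vol y ht, Real.mul_rpow (by positivity) ENNReal.toReal_nonneg] at h1
  have h2 : (t ^ n) ^ (1 / (2 * (n : ℝ))) = Real.sqrt t := by
    rw [← Real.rpow_natCast t n, ← Real.rpow_mul ht.le, Real.sqrt_eq_rpow]
    congr 1
    field_simp
  rw [h2] at h1
  unfold xs
  rw [div_le_iff₀ (Real.sqrt_pos.mpr ht)]
  calc ∫ x in ball y t, f x ^ sn n ≤ _ := h1
    _ = _ := by ring

/-- absolute continuity of the energy, uniformly in the centre -/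
theorem iter_small {n : ℕ} (hn : 1 ≤ n) {f : E n → ℝ} (hf : Base f) {ε : ℝ} (hε : 0 < ε) :
    ∃ R₁ : ℝ, 0 < R₁ ∧ ∀ (y : E n) (R : ℝ), R ≤ R₁ → ∫ x in ball y R, f x ^ n ≤ ε := by
  have hfin : ∫⁻ x, ENNReal.ofReal (f x ^ n) ≠ ⊤ := hf.intn.lintegral_lt_top.ne
  obtain ⟨δ, hδ, hd⟩ := exists_pos_setLIntegral_lt_of_measure_lt hfin
    (ε := ENNReal.ofReal ε) (by rw [ne_eq, ENNReal.ofReal_eq_zero, not_le]; exact hε)
  have hV : volume (ball (0 : E n) 1) ≠ ⊤ := measure_ball_lt_top.ne
  have hc : Tendsto (fun R : ℝ => ENNReal.ofReal (R ^ n) * volume (ball (0 : E n) 1))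
      (𝓝[>] 0) (𝓝 (ENNReal.ofReal ((0 : ℝ) ^ n) * volume (ball (0 : E n) 1))) := by
    refine ENNReal.Tendsto.mul_const ?_ (Or.inr hV)
    refine Tendsto.mono_left ?_ nhdsWithin_le_nhds
    exact (ENNReal.continuous_ofReal.comp (continuous_pow n)).tendsto 0
  rw [zero_pow (by omega), ENNReal.ofReal_zero, zero_mul] at hc
  have h1 : ∀ᶠ R in 𝓝[>] (0 : ℝ), ENNReal.ofReal (R ^ n) * volume (ball (0 : E n) 1) < δ :=
    hc.eventually (gt_mem_nhds hδ)
  obtain ⟨R₁, hR, hR0⟩ := (h1.and self_mem_nhdsWithin).exists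
  have hR0' : 0 < R₁ := hR0
  refine ⟨R₁, hR0', fun y R hRR => ?_⟩
  have h2 : volume (ball y R) < δ := by
    refine lt_of_le_of_lt (measure_mono (ball_subset_ball hRR)) ?_
    rw [Measure.addHaar_ball_of_pos _ _ hR0', finrank_euclideanSpace_fin]
    exact hR
  have h3 := hd _ h2
  rw [integral_eq_lintegral_of_nonneg_ae
    (Filter.Eventually.of_forall fun x => pow_nonneg (hf.nonneg x) n)
    hf.intn.aestronglyMeasurable.restrict]
  exact ENNReal.toReal_le_of_le_ofReal hε.le h3.le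

end H60NH
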