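import Pool.Agent.H60.NH.Def2

/-!
# [H60 NH GCONS] Consequences of the step estimates along a chain

`b_j = (μ_j)⁻¹ B_j`, `β_j = (μ_j)⁻¹`, `Δ_j = ‖V (j+1) x - V j x‖`, `x ∈ Ω`, `C₁ Δ_j <= 1/2`.
From `Gauge`: `μ_j >= 1`, `‖B_j‖ <= μ_j`. `μ_{j+1} >= μ_j - C₁ Δ_j μ_j >= μ_j / 2`.
`b_{j+1} - b_j = (B_{j+1} - B_j)/μ_{j+1} + B_j (μ_j - μ_{j+1})/(μ_j μ_{j+1})`, of norm at most
`2 C₁ Δ_j + 2 C₁ Δ_j`; `|β_{j+1} - β_j| = |μ_j - μ_{j+1}|/(μ_j μ_{j+1}) <= 2 C₁ Δ_j`.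
Sum (`norm_sub_le` telescoping, induction on `k`). `chain_rr`: induction on `k >= j`:
`rr_{k+1} <= e^{C₁Δ_k}(rr_k + C₁ S_k)`; the new factor is absorbed in the exponentials of the old
terms, and the new term is `C₁ e^{C₁ Δ_k} S_k`.
-/

set_option autoImplicit false

namespace H60NH

open MeasureTheory Metric Set Filter Topology
open scoped ENNReal NNReal ContDiff

private lemma chain_step {m : ℕ} {C D μ₀ μ₁ : ℝ} (hC : 1 ≤ C) (hD : 0 ≤ D)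
    (hCD : C * D ≤ 1 / 2) {B₀ B₁ : E m} (hn : μ₀ ^ 2 = 1 + ‖B₀‖ ^ 2) (hp : 0 < μ₀)
    (h1 : ‖B₁ - B₀‖ ≤ C * D * μ₀) (h2 : |μ₁ - μ₀| ≤ C * D * μ₀) :
    ‖μ₁⁻¹ • B₁ - μ₀⁻¹ • B₀‖ + |μ₁⁻¹ - μ₀⁻¹| ≤ 8 * C * D := by
  have hμ0 : 1 ≤ μ₀ := by nlinarith [sq_nonneg ‖B₀‖]
  have hB0 : ‖B₀‖ ≤ μ₀ := by
    refine le_of_sq_le_sq ?_ hp.le
    rw [hn]
    linarith
  have hμ1 : μ₀ / 2 ≤ μ₁ := by
    have h3 := (abs_le.1 h2).1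
    nlinarith
  have hμ1p : 0 < μ₁ := by linarith
  have hCD0 : 0 ≤ C * D := mul_nonneg (by linarith) hD
  have h4 : μ₁⁻¹ * μ₀ ≤ 2 := by
    rw [inv_mul_le_iff₀ hμ1p]
    linarith
  have h5 : |μ₁⁻¹ - μ₀⁻¹| * μ₀ ≤ 2 * (C * D) := by
    have h6 : μ₁⁻¹ - μ₀⁻¹ = -(μ₁ - μ₀) * (μ₁⁻¹ * μ₀⁻¹) := by
      field_simp
      ring
    rw [h6, abs_mul, abs_neg, abs_of_pos (by positivity : 0 < μ₁⁻¹ * μ₀⁻¹)]
    have h7 : |μ₁ - μ₀| * (μ₁⁻¹ * μ₀⁻¹) * μ₀ = |μ₁ - μ₀| * μ₁⁻¹ := by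
      field_simp
    rw [h7]
    calc |μ₁ - μ₀| * μ₁⁻¹ ≤ C * D * μ₀ * μ₁⁻¹ :=
          mul_le_mul_of_nonneg_right h2 (inv_pos.2 hμ1p).le
      _ = C * D * (μ₁⁻¹ * μ₀) := by ring
      _ ≤ C * D * 2 := mul_le_mul_of_nonneg_left h4 hCD0
      _ = 2 * (C * D) := by ring
  have h8 : |μ₁⁻¹ - μ₀⁻¹| ≤ 2 * (C * D) :=
    (le_mul_of_one_le_right (abs_nonneg _) hμ0).trans h5
  have h9 : ‖μ₁⁻¹ • B₁ - μ₀⁻¹ • B₀‖ ≤ 4 * (C * D) := by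
    have h10 : μ₁⁻¹ • B₁ - μ₀⁻¹ • B₀ = μ₁⁻¹ • (B₁ - B₀) + (μ₁⁻¹ - μ₀⁻¹) • B₀ := by
      rw [smul_sub, sub_smul]
      abel
    rw [h10]
    refine (norm_add_le _ _).trans ?_
    rw [norm_smul, norm_smul, Real.norm_eq_abs, Real.norm_eq_abs, abs_of_pos (inv_pos.2 hμ1p)]
    have h11 : μ₁⁻¹ * ‖B₁ - B₀‖ ≤ 2 * (C * D) := by
      calc μ₁⁻¹ * ‖B₁ - B₀‖ ≤ μ₁⁻¹ * (C * D * μ₀) :=
            mul_le_mul_of_nonneg_left h1 (inv_pos.2 hμ1p).le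
        _ = C * D * (μ₁⁻¹ * μ₀) := by ring
        _ ≤ C * D * 2 := mul_le_mul_of_nonneg_left h4 hCD0
        _ = 2 * (C * D) := by ring
    have h12 : |μ₁⁻¹ - μ₀⁻¹| * ‖B₀‖ ≤ 2 * (C * D) :=
      (mul_le_mul_of_nonneg_left hB0 (abs_nonneg _)).trans h5
    linarith
  nlinarith

theorem chain_b {n m : ℕ} {π : E m → E m} {C₁ : ℝ} (hC₁ : 1 ≤ C₁) {Ω : Set (E n)}
    (V B : ℕ → E n → E m) (μ : ℕ → E n → ℝ) (hG : ∀ j, Gauge π Ω (V j) (B j) (μ j))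
    (hS : ∀ j, StepOK π C₁ Ω (V j) (V (j + 1)) (B j) (B (j + 1)) (μ j) (μ (j + 1)))
    (x : E n) (hx : x ∈ Ω) (hΔ : ∀ j, C₁ * ‖V (j + 1) x - V j x‖ ≤ 1 / 2) (j k : ℕ) (hjk : j ≤ k) :
    ‖(μ k x)⁻¹ • B k x - (μ j x)⁻¹ • B j x‖ + |(μ k x)⁻¹ - (μ j x)⁻¹|
      ≤ 8 * C₁ * ∑ i ∈ Finset.Ico j k, ‖V (i + 1) x - V i x‖ := by
  induction k, hjk using Nat.le_induction with
  | base => simp
  | succ k hjk ih =>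
    rw [Finset.sum_Ico_succ_top hjk]
    have hSk := hS k x hx
    have h1 := chain_step hC₁ (norm_nonneg (V (k + 1) x - V k x)) (hΔ k) ((hG k).norm x hx)
      ((hG k).pos x hx) hSk.1 hSk.2.1
    have h2 : ‖(μ (k + 1) x)⁻¹ • B (k + 1) x - (μ j x)⁻¹ • B j x‖ ≤
        ‖(μ (k + 1) x)⁻¹ • B (k + 1) x - (μ k x)⁻¹ • B k x‖ +
          ‖(μ k x)⁻¹ • B k x - (μ j x)⁻¹ • B j x‖ := norm_sub_le_norm_sub_add_norm_sub _ _ _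
    have h3 : |(μ (k + 1) x)⁻¹ - (μ j x)⁻¹| ≤
        |(μ (k + 1) x)⁻¹ - (μ k x)⁻¹| + |(μ k x)⁻¹ - (μ j x)⁻¹| := abs_sub_le _ _ _
    rw [mul_add]
    linarith

theorem chain_rr {n m : ℕ} {π : E m → E m} {C₁ : ℝ} (hC₁ : 1 ≤ C₁) {Ω : Set (E n)}
    (V B : ℕ → E n → E m) (μ : ℕ → E n → ℝ)
    (hS : ∀ j, StepOK π C₁ Ω (V j) (V (j + 1)) (B j) (B (j + 1)) (μ j) (μ (j + 1)))
    (x : E n) (hx : x ∈ Ω) (h : E n) (S : ℕ → ℝ) (hS0 : ∀ i, 0 ≤ S i)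
    (hw : ∀ i, ∀ s ∈ Icc (0:ℝ) 1,
      wedge (zz π (V i) (V (i + 1)) x s) (pp π (V i) (V (i + 1)) x h s) ≤ S i)
    (j k : ℕ) (hjk : j ≤ k) :
    rr π (V k) (B k) (μ k) x h ≤
      Real.exp (C₁ * ∑ i ∈ Finset.Ico j k, ‖V (i + 1) x - V i x‖) * rr π (V j) (B j) (μ j) x h
      + C₁ * ∑ i ∈ Finset.Ico j k,
        Real.exp (C₁ * ∑ l ∈ Finset.Ico i k, ‖V (l + 1) x - V l x‖) * S i := by
  induction k, hjk using Nat.le_induction with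
  | base => simp
  | succ k hjk ih =>
    have h1 := (hS k x hx).2.2 h (S k) (hw k)
    refine h1.trans ?_
    have h2 : Real.exp (C₁ * ‖V (k + 1) x - V k x‖) * (rr π (V k) (B k) (μ k) x h + C₁ * S k) ≤
        Real.exp (C₁ * ‖V (k + 1) x - V k x‖) *
          (Real.exp (C₁ * ∑ i ∈ Finset.Ico j k, ‖V (i + 1) x - V i x‖) *
            rr π (V j) (B j) (μ j) x h
          + C₁ * ∑ i ∈ Finset.Ico j k,
            Real.exp (C₁ * ∑ l ∈ Finset.Ico i k, ‖V (l + 1) x - V l x‖) * S i + C₁ * S k) := by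
      have := Real.exp_pos (C₁ * ‖V (k + 1) x - V k x‖)
      gcongr
    refine h2.trans (le_of_eq ?_)
    rw [Finset.sum_Ico_succ_top hjk, Finset.sum_Ico_succ_top hjk]
    have h3 : ∀ i ∈ Finset.Ico j k,
        Real.exp (C₁ * ∑ l ∈ Finset.Ico i (k + 1), ‖V (l + 1) x - V l x‖) * S i =
        Real.exp (C₁ * ‖V (k + 1) x - V k x‖) *
          (Real.exp (C₁ * ∑ l ∈ Finset.Ico i k, ‖V (l + 1) x - V l x‖) * S i) := by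
      intro i hi
      rw [Finset.sum_Ico_succ_top (Finset.mem_Ico.1 hi).2.le, mul_add, Real.exp_add]
      ring
    rw [Finset.sum_congr rfl h3, ← Finset.mul_sum, Finset.sum_Ico_succ_top le_rfl,
      Finset.Ico_self, Finset.sum_empty, zero_add, mul_add C₁ (∑ i ∈ Finset.Ico j k,
        ‖V (i + 1) x - V i x‖), Real.exp_add]
    ring

end H60NH
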