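import Pool.Agent.H60.NH.Def2

/-!
# [H60 NH LPERP] `perp · b` is a seminorm, also under integrals; pairing with orthogonal errors

`perp a b = sqrt (|a|^2 - <a,b>^2)`. For `|b| <= 1` let `β = sqrt (1 - |b|^2)` and consider the linear
map `L a = (a - <a,b> b, -<a,b> β)` into `WithLp 2 (E m × ℝ)`:
`|L a|^2 = |a|^2 - 2<a,b>^2 + <a,b>^2 |b|^2 + <a,b>^2 β^2 = |a|^2 - <a,b>^2`.
So `perp a b = ‖L a‖` and `perp_add, perp_smul, perp_le_norm` are clear; `perp_integral`: `L` is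
continuous linear, `L (∫ F) = ∫ L F`, `‖∫ L F‖ <= ∫ ‖L F‖` (if `F` is not integrable, `∫ F = 0`).
`pair_perp`: if `<b, e> + β c = 0` and `|b|^2 + β^2 = 1` then, in `E m × ℝ`, `(e, c)` is orthogonal to
`V = (b, β)`, so `<a, e> = <(a,0), (e,c)> = <(a,0) - <a,b> V, (e,c)>` and
`|(a,0) - <a,b> V| = perp a b`; hence `|<a,e>| <= perp a b * sqrt (|e|^2 + c^2) <= perp a b (|e| + |c|)`.
-/

set_option autoImplicit false

namespace H60NH

open MeasureTheory Metric Set Filter Topology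
open scoped ENNReal NNReal ContDiff

section Gen

variable {F : Type*} [NormedAddCommGroup F] [InnerProductSpace ℝ F]

theorem gen_key (a b : F) (β : ℝ) (h : ‖b‖ ^ 2 + β ^ 2 = 1) :
    ‖a - (inner ℝ a b) • b‖ ^ 2 + (inner ℝ a b * β) ^ 2 = ‖a‖ ^ 2 - (inner ℝ a b) ^ 2 := by
  rw [norm_sub_sq_real, norm_smul, inner_smul_right, Real.norm_eq_abs, mul_pow, sq_abs]
  linear_combination (inner ℝ a b) ^ 2 * h

theorem gen_nonneg (a b : F) (hb : ‖b‖ ≤ 1) : 0 ≤ ‖a‖ ^ 2 - (inner ℝ a b) ^ 2 := by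
  have h1 := abs_real_inner_le_norm a b
  have h2 : |inner ℝ a b| ≤ ‖a‖ :=
    h1.trans (mul_le_of_le_one_right (norm_nonneg a) hb)
  have h3 : (inner ℝ a b) ^ 2 ≤ ‖a‖ ^ 2 := by
    rw [← sq_abs (inner ℝ a b)]
    exact pow_le_pow_left₀ (abs_nonneg _) h2 2
  linarith

/-- the linear map with norm `perp` -/
noncomputable def genL (b : F) (β : ℝ) : F →L[ℝ] WithLp 2 (F × ℝ) :=
  (WithLp.prodContinuousLinearEquiv 2 ℝ F ℝ).symm.toContinuousLinearMap.comp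
    ((ContinuousLinearMap.id ℝ F - (innerSL ℝ b).smulRight b).prod (-β • innerSL ℝ b))

theorem genL_norm (a b : F) (β : ℝ) (h : ‖b‖ ^ 2 + β ^ 2 = 1) :
    ‖genL b β a‖ = Real.sqrt (‖a‖ ^ 2 - (inner ℝ a b) ^ 2) := by
  rw [← gen_key a b β h, WithLp.prod_norm_eq_of_L2]
  congr 1
  have h1 : (genL b β a).fst = a - (inner ℝ a b) • b := by
    rw [real_inner_comm]
    rfl
  have h2 : (genL b β a).snd = -(inner ℝ a b * β) := by
    rw [real_inner_comm]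
    change -β * (inner ℝ b a) = _
    ring
  rw [h1, h2, norm_neg, Real.norm_eq_abs, sq_abs]

theorem gen_add (a a' b : F) (hb : ‖b‖ ≤ 1) :
    Real.sqrt (‖a + a'‖ ^ 2 - (inner ℝ (a + a') b) ^ 2) ≤
      Real.sqrt (‖a‖ ^ 2 - (inner ℝ a b) ^ 2) + Real.sqrt (‖a'‖ ^ 2 - (inner ℝ a' b) ^ 2) := by
  have hβ : ‖b‖ ^ 2 + Real.sqrt (1 - ‖b‖ ^ 2) ^ 2 = 1 := by
    rw [Real.sq_sqrt (by nlinarith [norm_nonneg b])]
    ring
  rw [← genL_norm _ b _ hβ, ← genL_norm _ b _ hβ, ← genL_norm _ b _ hβ, map_add]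
  exact norm_add_le _ _

theorem gen_pair (a b e : F) (β c : ℝ) (h1 : ‖b‖ ^ 2 + β ^ 2 = 1)
    (h2 : inner ℝ b e + β * c = 0) :
    |inner ℝ a e| ≤ Real.sqrt (‖a‖ ^ 2 - (inner ℝ a b) ^ 2) * (‖e‖ + |c|) := by
  have h3 := gen_key a b β h1
  have h4 : ‖a - (inner ℝ a b) • b‖ ≤ Real.sqrt (‖a‖ ^ 2 - (inner ℝ a b) ^ 2) := by
    apply Real.le_sqrt_of_sq_le
    rw [← h3]
    nlinarith [sq_nonneg (inner ℝ a b * β)]
  have h5 : |inner ℝ a b * β| ≤ Real.sqrt (‖a‖ ^ 2 - (inner ℝ a b) ^ 2) := by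
    apply Real.le_sqrt_of_sq_le
    rw [← h3, sq_abs]
    nlinarith [sq_nonneg ‖a - (inner ℝ a b) • b‖]
  have h6 : inner ℝ a e = inner ℝ (a - (inner ℝ a b) • b) e - (inner ℝ a b * β) * c := by
    rw [inner_sub_left, real_inner_smul_left]
    linear_combination (inner ℝ a b) * h2
  rw [h6]
  refine (abs_sub _ _).trans ?_
  rw [mul_add, abs_mul (inner ℝ a b * β) c]
  refine add_le_add ?_ (mul_le_mul_of_nonneg_right h5 (abs_nonneg _))
  exact (abs_real_inner_le_norm _ _).trans (mul_le_mul_of_nonneg_right h4 (norm_nonneg _))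

end Gen

theorem perp_nonneg {m : ℕ} (a b : E m) : 0 ≤ perp a b := Real.sqrt_nonneg _

theorem perp_sq {m : ℕ} (a b : E m) (hb : ‖b‖ ≤ 1) :
    perp a b ^ 2 = ‖a‖ ^ 2 - (inner ℝ a b) ^ 2 := by
  rw [perp, Real.sq_sqrt (gen_nonneg a b hb)]

theorem perp_le_norm {m : ℕ} (a b : E m) : perp a b ≤ ‖a‖ := by
  rw [perp]
  apply Real.sqrt_le_iff.2
  exact ⟨norm_nonneg a, by nlinarith [sq_nonneg (inner ℝ a b)]⟩

theorem perp_add {m : ℕ} (a a' b : E m) (hb : ‖b‖ ≤ 1) :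
    perp (a + a') b ≤ perp a b + perp a' b := by
  exact gen_add a a' b hb

theorem perp_smul {m : ℕ} (c : ℝ) (a b : E m) : perp (c • a) b = |c| * perp a b := by
  rw [perp, perp, norm_smul, real_inner_smul_left, mul_pow, mul_pow, Real.norm_eq_abs, sq_abs,
    ← mul_sub, Real.sqrt_mul (sq_nonneg c), Real.sqrt_sq_eq_abs]

theorem perp_integral {m : ℕ} {X : Type*} [MeasurableSpace X] (ν : Measure X) (F : X → E m)
    (b : E m) (hb : ‖b‖ ≤ 1) : perp (∫ x, F x ∂ν) b ≤ ∫ x, perp (F x) b ∂ν := by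
  have hβ : ‖b‖ ^ 2 + Real.sqrt (1 - ‖b‖ ^ 2) ^ 2 = 1 := by
    rw [Real.sq_sqrt (by nlinarith [norm_nonneg b])]
    ring
  have hp : ∀ a : E m, perp a b = ‖genL b (Real.sqrt (1 - ‖b‖ ^ 2)) a‖ := fun a =>
    (genL_norm a b _ hβ).symm
  by_cases hF : Integrable F ν
  · simp only [hp]
    rw [← ContinuousLinearMap.integral_comp_comm _ hF]
    exact norm_integral_le_integral_norm _
  · rw [integral_undef hF, hp, map_zero, norm_zero]
    exact integral_nonneg fun x => perp_nonneg _ _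

theorem pair_perp {m : ℕ} (a b e : E m) (β c : ℝ) (h1 : ‖b‖ ^ 2 + β ^ 2 = 1)
    (h2 : inner ℝ b e + β * c = 0) : |inner ℝ a e| ≤ perp a b * (‖e‖ + |c|) := by
  exact gen_pair a b e β c h1 h2

end H60NH
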