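import Pool.Agent.H60.NH.Def2
import Pool.Agent.H60.NH.LPerp

/-!
# [H60 NH GDER] The derivative of the test field `b = μ⁻¹ B`

`x ∈ Ω`, `P = π (U x) ∈ N`, `p = pU π U x h = Dπ(U x)(DU(x) h)`, so `Dπ(P) p = p` (`idem`, `π P = P`).
`Dπ(P) B = B` gives, with `idem2` (`a = p`, `b = B`): `Dπ(P)(D2 π P p B) = 0`, so
`<B, D2 π P p B> = <Dπ(P) B, D2 π P p B> = <B, Dπ(P) (D2 π P p B)> = 0` (`symm1`).
Differentiate `μ^2 = 1 + |B|^2` (near `x`): `μ Dμ h = <B, DB h>`; insert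
`DB h = calE + μ p + D2 π P p B`, `Dμ h = cale + <p,B>`: `<B, calE> = μ cale`. (1)
`D(μ⁻¹ B) h = μ⁻¹ DB h - μ⁻² (Dμ h) B`
`= p - <p,b> b + D2 π P p b + err`, `err = μ⁻¹ (calE - cale b)`, `b = μ⁻¹ B`, `β = μ⁻¹`.
With `c = - cale μ⁻²`: `<b, err> + β c = μ⁻¹(<b,calE> - cale |b|^2) - cale μ⁻³ = 0` by (1) and
`|b|^2 + β^2 = 1`. `pair_perp` gives `|<a, err>| <= perp a b (‖err‖ + |c|)`, and
`‖err‖ <= μ⁻¹ (‖calE‖ + |cale|) = rr`, `|c| <= μ⁻¹ |cale| <= rr` (`μ >= 1`).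
-/

set_option autoImplicit false

namespace H60NH

open MeasureTheory Metric Set Filter Topology
open scoped ENNReal NNReal ContDiff

theorem nb_deriv {n m : ℕ} {N : Set (E m)} {π : E m → E m} {δ C : ℝ} (hT : TC N π δ C)
    {Ω : Set (E n)} (hΩ : IsOpen Ω) (U B : E n → E m) (μ : E n → ℝ) (hU : ContDiffOn ℝ ∞ U Ω)
    (hN : ∀ x ∈ Ω, infDist (U x) N < δ) (hG : Gauge π Ω U B μ) (x : E n) (hx : x ∈ Ω) (h : E n) :
    ∃ err : E m,
      fderiv ℝ (fun y => (μ y)⁻¹ • B y) x h =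
        pU π U x h - (inner ℝ (pU π U x h) ((μ x)⁻¹ • B x)) • ((μ x)⁻¹ • B x)
          + D2 π (π (U x)) (pU π U x h) ((μ x)⁻¹ • B x) + err ∧
      ∀ a : E m, |inner ℝ a err| ≤ 2 * perp a ((μ x)⁻¹ • B x) * rr π U B μ x h := by
  have hδ := hT.pos
  have hnx : Ω ∈ 𝓝 x := hΩ.mem_nhds hx
  have hU4 : infDist (U x) N < 4 * δ := by have := hN x hx; linarith
  have hPN : π (U x) ∈ N := hT.mem _ hU4
  have hP4 : infDist (π (U x)) N < 4 * δ := by
    rw [infDist_zero_of_mem hPN]; linarith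
  have hμ0 : 0 < μ x := hG.pos x hx
  have hμ2 : μ x ^ 2 = 1 + ‖B x‖ ^ 2 := hG.norm x hx
  have hμ1 : 1 ≤ μ x := by nlinarith [sq_nonneg ‖B x‖]
  have hB : DifferentiableAt ℝ B x := (hG.cB.differentiableOn one_ne_zero).differentiableAt hnx
  have hμd : DifferentiableAt ℝ μ x := (hG.cμ.differentiableOn one_ne_zero).differentiableAt hnx
  have hUd : DifferentiableAt ℝ U x := (hU.differentiableOn (by simp)).differentiableAt hnx
  have hopen : IsOpen {y : E m | infDist y N < 4 * δ} :=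
    isOpen_lt (continuous_infDist_pt N) continuous_const
  have hπd : DifferentiableAt ℝ π (U x) :=
    (hT.smooth.differentiableOn (by simp)).differentiableAt (hopen.mem_nhds hU4)
  set p := pU π U x h with hp
  have hpe : p = fderiv ℝ π (U x) (fderiv ℝ U x h) := by
    have h1 := fderiv_comp x hπd hUd
    have h2 : p = fderiv ℝ (π ∘ U) x h := rfl
    rw [h2, h1]
    rfl
  have hPp : fderiv ℝ π (π (U x)) p = p := by
    rw [hpe]
    exact hT.idem _ hU4 _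
  have hPB : fderiv ℝ π (π (U x)) (B x) = B x := hG.tan x hx
  have hz : fderiv ℝ π (π (U x)) (D2 π (π (U x)) p (B x)) = 0 := by
    have := hT.idem2 _ hPN p (B x) hPp
    rw [hPB] at this
    exact left_eq_add.1 this.symm
  have hBz : inner ℝ (B x) (D2 π (π (U x)) p (B x)) = 0 := by
    conv_lhs => rw [← hPB]
    rw [hPB]
    have h1 := hT.symm1 _ hP4 (B x) (D2 π (π (U x)) p (B x))
    rw [hPB, hz, inner_zero_right] at h1
    exact h1
  set b := (μ x)⁻¹ • B x with hb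
  have hBb : B x = μ x • b := by rw [hb, smul_smul, mul_inv_cancel₀ hμ0.ne', one_smul]
  have hb1 : ‖b‖ ^ 2 + (μ x)⁻¹ ^ 2 = 1 := by
    rw [hb, norm_smul, norm_inv, Real.norm_of_nonneg hμ0.le, mul_pow, inv_pow]
    field_simp
    linarith
  have hbn : ‖b‖ ≤ 1 := by
    have : ‖b‖ ^ 2 ≤ 1 := by nlinarith [sq_nonneg (μ x)⁻¹]
    nlinarith [norm_nonneg b]
  set cE := calE π U B μ x h with hcE
  set ce := cale π U B μ x h with hce
  have hDB : fderiv ℝ B x h = cE + μ x • p + D2 π (π (U x)) p (B x) := by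
    rw [hcE, calE]
    abel
  have hDμ : fderiv ℝ μ x h = ce + inner ℝ p (B x) := by
    rw [hce, cale]
    ring
  -- (1)
  have h1 : μ x * fderiv ℝ μ x h = inner ℝ (B x) (fderiv ℝ B x h) := by
    have d1 : HasFDerivAt (fun y => μ y ^ 2) _ x := hμd.hasFDerivAt.pow 2
    have d2 : HasFDerivAt (fun y => 1 + ‖B y‖ ^ 2) _ x := (hB.hasFDerivAt.norm_sq).const_add 1
    have d3 : HasFDerivAt (fun y => μ y ^ 2) _ x := d2.congr_of_eventuallyEq (by
      filter_upwards [hnx] with y hy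
      exact hG.norm y hy)
    have d4 := congrArg (fun L => L h) (d1.unique d3)
    simp only [Nat.cast_ofNat, ContinuousLinearMap.smul_apply, Nat.reduceSub, pow_one,
      ContinuousLinearMap.comp_apply, innerSL_apply_apply, smul_eq_mul, nsmul_eq_mul] at d4
    linarith
  have h1' : inner ℝ (B x) cE = μ x * ce := by
    rw [hDB, hDμ, inner_add_right, inner_add_right, hBz, inner_smul_right,
      real_inner_comm p (B x)] at h1
    linarith
  have hbE : inner ℝ b cE = ce := by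
    rw [hb, real_inner_smul_left, h1', inv_mul_cancel_left₀ hμ0.ne']
  refine ⟨(μ x)⁻¹ • (cE - ce • b), ?_, ?_⟩
  · have d0 : HasFDerivAt (fun y => (μ y)⁻¹) (-(μ x ^ 2)⁻¹ • fderiv ℝ μ x) x :=
      (hasDerivAt_inv hμ0.ne').comp_hasFDerivAt x hμd.hasFDerivAt
    have d1 : HasFDerivAt (fun y => (μ y)⁻¹ • B y) _ x := d0.smul hB.hasFDerivAt
    rw [d1.fderiv]
    have e1 : ∀ L : E n →L[ℝ] ℝ, ((μ x)⁻¹ • fderiv ℝ B x + L.smulRight (B x)) h =
        (μ x)⁻¹ • fderiv ℝ B x h + L h • B x := fun L => rfl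
    rw [e1]
    simp only [ContinuousLinearMap.smul_apply, ContinuousLinearMap.neg_apply, smul_eq_mul]
    rw [hDB, hDμ, hBb, inner_smul_right, map_smul]
    have e2 : (μ x)⁻¹ * μ x = 1 := inv_mul_cancel₀ hμ0.ne'
    simp only [smul_add, smul_sub, smul_smul, e2, one_smul]
    have e3 : -((μ x ^ 2)⁻¹) * (ce + μ x * inner ℝ p b) * μ x =
        -((μ x)⁻¹ * ce) - inner ℝ p b := by
      field_simp
      ring
    rw [e3]
    module
  · intro a
    have h2 : inner ℝ b ((μ x)⁻¹ • (cE - ce • b)) + (μ x)⁻¹ * (-ce * ((μ x)⁻¹) ^ 2) = 0 := by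
      rw [inner_smul_right, inner_sub_right, inner_smul_right, hbE, real_inner_self_eq_norm_sq]
      have : ‖b‖ ^ 2 = 1 - (μ x)⁻¹ ^ 2 := by linarith
      rw [this]
      ring
    have h3 := pair_perp a b ((μ x)⁻¹ • (cE - ce • b)) (μ x)⁻¹ (-ce * ((μ x)⁻¹) ^ 2) hb1 h2
    have hi0 : 0 < (μ x)⁻¹ := inv_pos.2 hμ0
    have hi1 : (μ x)⁻¹ ≤ 1 := inv_le_one_of_one_le₀ hμ1
    have hrr : rr π U B μ x h = (μ x)⁻¹ * (‖cE‖ + |ce|) := by
      rw [rr, div_eq_inv_mul]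
    have h4 : ‖(μ x)⁻¹ • (cE - ce • b)‖ ≤ rr π U B μ x h := by
      rw [norm_smul, Real.norm_of_nonneg hi0.le, hrr]
      refine mul_le_mul_of_nonneg_left ?_ hi0.le
      refine (norm_sub_le _ _).trans ?_
      rw [norm_smul, Real.norm_eq_abs]
      have := mul_le_of_le_one_right (abs_nonneg ce) hbn
      linarith
    have h5 : |(-ce * ((μ x)⁻¹) ^ 2)| ≤ rr π U B μ x h := by
      rw [abs_mul, abs_neg, abs_of_nonneg (sq_nonneg (μ x)⁻¹), hrr]
      have h6 : (μ x)⁻¹ ^ 2 ≤ (μ x)⁻¹ := by nlinarith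
      have h7 : |ce| * (μ x)⁻¹ ^ 2 ≤ |ce| * (μ x)⁻¹ := mul_le_mul_of_nonneg_left h6 (abs_nonneg _)
      have h8 : 0 ≤ (μ x)⁻¹ * ‖cE‖ := by positivity
      linarith
    have h9 := perp_nonneg a b
    calc |inner ℝ a ((μ x)⁻¹ • (cE - ce • b))| ≤ _ := h3
      _ ≤ perp a b * (rr π U B μ x h + rr π U B μ x h) :=
          mul_le_mul_of_nonneg_left (add_le_add h4 h5) h9
      _ = 2 * perp a b * rr π U B μ x h := by ring

end H60NH
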