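import Pool.Agent.H60.NH.LPerp

/-!
# [H60 NH LCHANGE] Change of the direction

Let `V = (b, β)`, `V' = (b', β')` be unit vectors of `E m × ℝ`, `P' ∈ N`, `Dπ(P') b' = b'`,
`‖y - P'‖ < 2 δ`. Then
`perp (Dπ(y) a) b <= 4 C (perp a b' + ‖a‖ (‖b - b'‖ + |β - β'| + ‖y - P'‖))`.
Proof. Write `A = Dπ(y)`, `c = <a, b'>` and `r = (r₁, r₂) = (a, 0) - c V' = (a - c b', - c β')`, so
`|r| = perp a b'`, in particular `|r₁| <= perp a b'`, `|c| <= |a|`. Then `A a = c A b' + A r₁`, so by the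
seminorm property `perp (A a) b <= |c| perp (A b') b + perp (A r₁) b`, and
`perp (A r₁) b <= ‖A r₁‖ <= C |r₁| <= C perp a b'` (`bd1`: `infDist y N <= ‖y - P'‖ < 2δ`).
`A b' = b' + (A - Dπ(P')) b'`, `‖(A - Dπ(P')) b'‖ <= C ‖y - P'‖` (`lip1` with `P'`, and `|b'| <= 1`);
`perp b' b`: `perp b' b ^2 = |b'|^2 - <b',b>^2`. The vector `(b',0) - <b',b> V`
`= (b' - <b',b> b, - <b',b> β)` has norm `perp b' b`. This is not small by itself when `β' ≠ 0`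
(`(b', 0)` is not `V'`), so the splitting must be done as follows instead: `(A a, 0) = (A a - c b', -c β') + c V'`
and `(I - V V^T) V' = (I - V V^T)(V' - V)` has norm at most `|V' - V| <= ‖b - b'‖ + |β - β'|`; and
`(A a - c b', -c β') = (A (a - c b'), -c β') + c (A b' - b', 0)`, whose norm is at most
`(C |r₁| + |r₂|) + |c| C ‖y - P'‖ <= 2 C perp a b' + C |a| ‖y - P'‖`; `perp (A a) b` is the norm of
`(I - V V^T)(A a, 0)`. (So work in `WithLp 2 (E m × ℝ)`, or with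
`perp w b = ‖(I - V V^T)(w, 0)‖`.)

`perp_change'`: if `‖y - P'‖ < 2 δ` this is `perp_change`; otherwise `‖y - P'‖ >= 2 δ` and
`perp (Dπ(y) a) b <= ‖Dπ(y) a‖ <= C ‖a‖ <= (C/δ) ‖a‖ ‖y - P'‖`.
-/

set_option autoImplicit false

namespace H60NH

open MeasureTheory Metric Set Filter Topology
open scoped ENNReal NNReal ContDiff

section Gen

variable {F : Type*} [NormedAddCommGroup F] [InnerProductSpace ℝ F]

theorem gen_perp_le (w b : F) (β t : ℝ) (h : ‖b‖ ^ 2 + β ^ 2 = 1) :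
    Real.sqrt (‖w‖ ^ 2 - (inner ℝ w b) ^ 2) ≤ ‖w - t • b‖ + |t * β| := by
  apply Real.sqrt_le_iff.2
  refine ⟨by positivity, ?_⟩
  have h1 : ‖w‖ ^ 2 - (inner ℝ w b) ^ 2 ≤ ‖w - t • b‖ ^ 2 + (t * β) ^ 2 := by
    rw [norm_sub_sq_real, norm_smul, inner_smul_right, Real.norm_eq_abs, mul_pow, sq_abs]
    nlinarith [sq_nonneg (inner ℝ w b - t)]
  have h2 : (t * β) ^ 2 = |t * β| ^ 2 := (sq_abs _).symm
  nlinarith [mul_nonneg (norm_nonneg (w - t • b)) (abs_nonneg (t * β))]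

theorem gen_change (A : F →L[ℝ] F) (a b b' : F) (β β' C d : ℝ) (hC : 1 ≤ C) (hd : 0 ≤ d)
    (hb : ‖b‖ ^ 2 + β ^ 2 = 1) (hb' : ‖b'‖ ^ 2 + β' ^ 2 = 1) (hA : ‖A‖ ≤ C)
    (hAb : ‖A b' - b'‖ ≤ C * d) :
    Real.sqrt (‖A a‖ ^ 2 - (inner ℝ (A a) b) ^ 2) ≤
      4 * C * (Real.sqrt (‖a‖ ^ 2 - (inner ℝ a b') ^ 2) + ‖a‖ * (‖b - b'‖ + |β - β'| + d)) := by
  have hb1 : ‖b'‖ ≤ 1 := by
    nlinarith [norm_nonneg b', sq_nonneg β']
  obtain ⟨c, hc⟩ : ∃ c : ℝ, c = inner ℝ a b' := ⟨_, rfl⟩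
  have hca : |c| ≤ ‖a‖ := by
    rw [hc]
    exact (abs_real_inner_le_norm _ _).trans (mul_le_of_le_one_right (norm_nonneg _) hb1)
  have hkey := gen_key a b' β' hb'
  obtain ⟨q, hq⟩ : ∃ q : ℝ, q = Real.sqrt (‖a‖ ^ 2 - (inner ℝ a b') ^ 2) := ⟨_, rfl⟩
  have hq0 : 0 ≤ q := by rw [hq]; exact Real.sqrt_nonneg _
  have h4 : ‖a - c • b'‖ ≤ q := by
    rw [hq, hc]
    apply Real.le_sqrt_of_sq_le
    rw [← hkey]
    nlinarith [sq_nonneg (inner ℝ a b' * β')]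
  have h5 : |c * β'| ≤ q := by
    rw [hq, hc]
    apply Real.le_sqrt_of_sq_le
    rw [← hkey, sq_abs]
    nlinarith [sq_nonneg ‖a - (inner ℝ a b') • b'‖]
  rw [← hq]
  have h6 := gen_perp_le (A a) b β c hb
  have h7 : A a - c • b = A (a - c • b') + c • (A b' - b') - c • (b - b') := by
    rw [map_sub, map_smul]
    module
  have h8 : ‖A (a - c • b')‖ ≤ C * q :=
    (A.le_opNorm _).trans (mul_le_mul hA h4 (norm_nonneg _) (by linarith))
  have h9 : ‖c • (A b' - b')‖ ≤ ‖a‖ * (C * d) := by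
    rw [norm_smul, Real.norm_eq_abs]
    exact mul_le_mul hca hAb (norm_nonneg _) (norm_nonneg _)
  have h10 : ‖c • (b - b')‖ ≤ ‖a‖ * ‖b - b'‖ := by
    rw [norm_smul, Real.norm_eq_abs]
    exact mul_le_mul_of_nonneg_right hca (norm_nonneg _)
  have h11 : ‖A a - c • b‖ ≤ C * q + ‖a‖ * (C * d) + ‖a‖ * ‖b - b'‖ := by
    rw [h7]
    exact (norm_sub_le _ _).trans (add_le_add ((norm_add_le _ _).trans (add_le_add h8 h9)) h10)
  have h12 : |c * β| ≤ q + ‖a‖ * |β - β'| := by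
    have h13 : c * β = c * β' + c * (β - β') := by ring
    rw [h13]
    refine (abs_add_le _ _).trans (add_le_add h5 ?_)
    rw [abs_mul]
    exact mul_le_mul_of_nonneg_right hca (abs_nonneg _)
  have h14 : ‖a‖ * ‖b - b'‖ ≤ C * (‖a‖ * ‖b - b'‖) :=
    le_mul_of_one_le_left (by positivity) hC
  have h15 : ‖a‖ * |β - β'| ≤ C * (‖a‖ * |β - β'|) :=
    le_mul_of_one_le_left (by positivity) hC
  have h16 : q ≤ C * q := le_mul_of_one_le_left hq0 hC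
  have h17 : 0 ≤ C * (‖a‖ * d) := by positivity
  have h18 : 0 ≤ C * (‖a‖ * ‖b - b'‖) := by positivity
  have h19 : 0 ≤ C * (‖a‖ * |β - β'|) := by positivity
  nlinarith

end Gen

theorem perp_change {m : ℕ} {N : Set (E m)} {π : E m → E m} {δ C : ℝ} (hT : TC N π δ C)
    (y P' a b b' : E m) (β β' : ℝ) (hP' : P' ∈ N) (hy : ‖y - P'‖ < 2 * δ)
    (hb : ‖b‖ ^ 2 + β ^ 2 = 1) (hb' : ‖b'‖ ^ 2 + β' ^ 2 = 1) (ht : fderiv ℝ π P' b' = b') :
    perp (fderiv ℝ π y a) b ≤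
      4 * C * (perp a b' + ‖a‖ * (‖b - b'‖ + |β - β'| + ‖y - P'‖)) := by
  have hy4 : infDist y N < 4 * δ := by
    have h1 := infDist_le_dist_of_mem hP' (x := y)
    rw [dist_eq_norm] at h1
    have := hT.pos
    linarith
  have hP0 : infDist P' N < 2 * δ := by
    rw [infDist_zero_of_mem hP']
    have := hT.pos
    linarith
  have hb1 : ‖b'‖ ≤ 1 := by
    nlinarith [norm_nonneg b', sq_nonneg β']
  have hAb : ‖fderiv ℝ π y b' - b'‖ ≤ C * ‖y - P'‖ := by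
    have h1 := hT.lip1 P' y hP0 (by rwa [norm_sub_rev])
    have h2 : fderiv ℝ π y b' - b' = -((fderiv ℝ π P' - fderiv ℝ π y) b') := by
      rw [sub_apply, ht]
      abel
    rw [h2, norm_neg, norm_sub_rev y P']
    refine (ContinuousLinearMap.le_opNorm _ _).trans ?_
    calc ‖fderiv ℝ π P' - fderiv ℝ π y‖ * ‖b'‖ ≤ ‖fderiv ℝ π P' - fderiv ℝ π y‖ * 1 :=
          mul_le_mul_of_nonneg_left hb1 (norm_nonneg _)
      _ ≤ C * ‖P' - y‖ := by rw [mul_one]; exact h1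
  exact gen_change (fderiv ℝ π y) a b b' β β' C ‖y - P'‖ hT.one_le (norm_nonneg _) hb hb'
    (hT.bd1 y hy4) hAb

theorem perp_change' {m : ℕ} {N : Set (E m)} {π : E m → E m} {δ C : ℝ} (hT : TC N π δ C)
    (y P' a b b' : E m) (β β' : ℝ) (hP' : P' ∈ N) (hy : infDist y N < 4 * δ)
    (hb : ‖b‖ ^ 2 + β ^ 2 = 1) (hb' : ‖b'‖ ^ 2 + β' ^ 2 = 1) (ht : fderiv ℝ π P' b' = b') :
    perp (fderiv ℝ π y a) b ≤
      (4 * C + C / δ) * (perp a b' + ‖a‖ * (‖b - b'‖ + |β - β'| + ‖y - P'‖)) := by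
  have hC := hT.one_le
  have hδ := hT.pos
  have hp0 : 0 ≤ perp a b' := perp_nonneg a b'
  have hX : 0 ≤ perp a b' + ‖a‖ * (‖b - b'‖ + |β - β'| + ‖y - P'‖) := by positivity
  by_cases h : ‖y - P'‖ < 2 * δ
  · refine (perp_change hT y P' a b b' β β' hP' h hb hb' ht).trans ?_
    have h1 : 0 ≤ C / δ := by positivity
    nlinarith
  · push Not at h
    have h1 : perp (fderiv ℝ π y a) b ≤ C * ‖a‖ :=
      (perp_le_norm _ _).trans (((fderiv ℝ π y).le_opNorm a).trans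
        (mul_le_mul_of_nonneg_right (hT.bd1 y hy) (norm_nonneg a)))
    have h2 : C * ‖a‖ ≤ C / δ * (‖a‖ * ‖y - P'‖) := by
      have h3 : C / δ * (‖a‖ * ‖y - P'‖) = C * ‖a‖ * (‖y - P'‖ / δ) := by
        field_simp
      rw [h3]
      refine le_mul_of_one_le_right (by positivity) ?_
      rw [one_le_div hδ]
      linarith
    have h4 : ‖a‖ * ‖y - P'‖ ≤ perp a b' + ‖a‖ * (‖b - b'‖ + |β - β'| + ‖y - P'‖) := by
      have h5 : 0 ≤ ‖a‖ * (‖b - b'‖ + |β - β'|) := by positivity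
      nlinarith
    have h6 : 0 ≤ C / δ := by positivity
    have h7 := mul_le_mul_of_nonneg_left h4 h6
    have h8 : 0 ≤ 4 * C * (perp a b' + ‖a‖ * (‖b - b'‖ + |β - β'| + ‖y - P'‖)) := by positivity
    rw [add_mul]
    linarith

end H60NH
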