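import Pool.Agent.H60.NH.Def2
import Pool.Agent.H60.NH.LPerp

/-!
# [H60 NH LWEDGE] The source is bounded by the area of the parallelogram

`wedge z p = sqrt (|z|^2 |p|^2 - <z,p>^2)`.
1. `om_bound`: if `z = 0` both sides vanish (`Om π P 0 p B = 0`). Otherwise put
`p' = p - (<z,p>/|z|^2) z`; `Om π P z p B` is linear in `p` and vanishes for `p = z`, so it equals
`Om π P z p' B`, whose norm is at most `(2 + 2 C^2) |z| |p'| |B|` (Cauchy-Schwarz, `‖D2 π P‖ <= C`),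
and `|z| |p'| = wedge z p`. Here `C >= 1`, so `2 + 2C^2 <= 4 C^2`.
2. `wedge_le`: for `|b| <= 1`, `wedge z p <= 2 (perp z b |p| + |z| perp p b)`.
Case A: `|<p,b>| < |p|/2`: then `perp p b >= (sqrt 3/2)|p| >= |p|/2` and
`wedge z p <= |z||p| <= 2 |z| perp p b`.
Case B: `|<p,b>| >= |p|/2`, `p ≠ 0` (if `p = 0` everything is zero): let `t = <z,b>/<p,b>`,
`v = z - t p`; `<v, b> = 0`, and `wedge z p = wedge v p <= |v| |p|`. `|v| = perp v b`, and `perp · b`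
is a seminorm (it is the norm of `(a - <a,b> b, -<a,b> β)`, `β^2 = 1 - |b|^2`), so
`|v| <= perp z b + |t| perp p b`, `|t| <= 2|z|/|p|` (as `|<z,b>| <= |z|`).
-/

set_option autoImplicit false

namespace H60NH

open MeasureTheory Metric Set Filter Topology
open scoped ENNReal NNReal ContDiff

section Gen

variable {F : Type*} [NormedAddCommGroup F] [InnerProductSpace ℝ F]

theorem gen_wedge_le (z p : F) :
    Real.sqrt (‖z‖ ^ 2 * ‖p‖ ^ 2 - (inner ℝ z p) ^ 2) ≤ ‖z‖ * ‖p‖ := by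
  apply Real.sqrt_le_iff.2
  exact ⟨by positivity, by nlinarith [sq_nonneg (inner ℝ z p)]⟩

theorem gen_wedge_sub (z p : F) (t : ℝ) :
    ‖z - t • p‖ ^ 2 * ‖p‖ ^ 2 - (inner ℝ (z - t • p) p) ^ 2 =
      ‖z‖ ^ 2 * ‖p‖ ^ 2 - (inner ℝ z p) ^ 2 := by
  rw [norm_sub_sq_real, norm_smul, inner_smul_right, inner_sub_left, real_inner_smul_left,
    real_inner_self_eq_norm_sq, Real.norm_eq_abs, mul_pow, sq_abs]
  ring

theorem gen_wedge (z p b : F) (hb : ‖b‖ ≤ 1) :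
    Real.sqrt (‖z‖ ^ 2 * ‖p‖ ^ 2 - (inner ℝ z p) ^ 2) ≤
      2 * (Real.sqrt (‖z‖ ^ 2 - (inner ℝ z b) ^ 2) * ‖p‖ +
        ‖z‖ * Real.sqrt (‖p‖ ^ 2 - (inner ℝ p b) ^ 2)) := by
  have hz := norm_nonneg z
  have hp := norm_nonneg p
  by_cases hA : |inner ℝ p b| < ‖p‖ / 2
  · have h1 : ‖p‖ / 2 ≤ Real.sqrt (‖p‖ ^ 2 - (inner ℝ p b) ^ 2) := by
      apply Real.le_sqrt_of_sq_le
      have h2 : (inner ℝ p b) ^ 2 ≤ (‖p‖ / 2) ^ 2 := by
        rw [← sq_abs]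
        exact pow_le_pow_left₀ (abs_nonneg _) hA.le 2
      nlinarith
    have h3 := gen_wedge_le z p
    have h4 : 0 ≤ Real.sqrt (‖z‖ ^ 2 - (inner ℝ z b) ^ 2) * ‖p‖ := by positivity
    nlinarith [mul_le_mul_of_nonneg_left h1 hz]
  · push Not at hA
    by_cases hp0 : p = 0
    · subst hp0
      simp
    · have hpp : 0 < ‖p‖ := norm_pos_iff.2 hp0
      have hpb : inner ℝ p b ≠ 0 := by
        intro h
        rw [h, abs_zero] at hA
        linarith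
      obtain ⟨t, ht⟩ : ∃ t : ℝ, t = inner ℝ z b / inner ℝ p b := ⟨_, rfl⟩
      have htp : t * inner ℝ p b = inner ℝ z b := by rw [ht, div_mul_cancel₀ _ hpb]
      have hv : inner ℝ (z - t • p) b = 0 := by
        rw [inner_sub_left, real_inner_smul_left, htp, sub_self]
      have h1 : Real.sqrt (‖z‖ ^ 2 * ‖p‖ ^ 2 - (inner ℝ z p) ^ 2) ≤ ‖z - t • p‖ * ‖p‖ := by
        rw [← gen_wedge_sub z p t]
        exact gen_wedge_le _ _
      have h2 : ‖z - t • p‖ = Real.sqrt (‖z + (-t) • p‖ ^ 2 - (inner ℝ (z + (-t) • p) b) ^ 2) := by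
        rw [neg_smul, ← sub_eq_add_neg, hv]
        rw [zero_pow two_ne_zero, sub_zero, Real.sqrt_sq (norm_nonneg _)]
      have h3 := gen_add z ((-t) • p) b hb
      rw [← h2, norm_smul, real_inner_smul_left, mul_pow, mul_pow, Real.norm_eq_abs, sq_abs,
        ← mul_sub, Real.sqrt_mul (sq_nonneg _), Real.sqrt_sq_eq_abs, abs_neg] at h3
      have h4 : |t| * ‖p‖ ≤ 2 * ‖z‖ := by
        have h5 : |t| * |inner ℝ p b| ≤ ‖z‖ := by
          rw [← abs_mul, htp]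
          exact (abs_real_inner_le_norm _ _).trans (mul_le_of_le_one_right hz hb)
        nlinarith [mul_le_mul_of_nonneg_left hA (abs_nonneg t)]
      have h6 := Real.sqrt_nonneg (‖p‖ ^ 2 - (inner ℝ p b) ^ 2)
      have h7 := Real.sqrt_nonneg (‖z‖ ^ 2 - (inner ℝ z b) ^ 2)
      calc Real.sqrt (‖z‖ ^ 2 * ‖p‖ ^ 2 - (inner ℝ z p) ^ 2) ≤ ‖z - t • p‖ * ‖p‖ := h1
        _ ≤ (Real.sqrt (‖z‖ ^ 2 - (inner ℝ z b) ^ 2) +
            |t| * Real.sqrt (‖p‖ ^ 2 - (inner ℝ p b) ^ 2)) * ‖p‖ :=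
            mul_le_mul_of_nonneg_right h3 hp
        _ = Real.sqrt (‖z‖ ^ 2 - (inner ℝ z b) ^ 2) * ‖p‖ +
            (|t| * ‖p‖) * Real.sqrt (‖p‖ ^ 2 - (inner ℝ p b) ^ 2) := by ring
        _ ≤ Real.sqrt (‖z‖ ^ 2 - (inner ℝ z b) ^ 2) * ‖p‖ +
            (2 * ‖z‖) * Real.sqrt (‖p‖ ^ 2 - (inner ℝ p b) ^ 2) := by
            gcongr
        _ ≤ _ := by nlinarith [mul_nonneg h7 hp]

/-- the bilinear form of `Om` with an abstract `D` -/
theorem gen_om (D : F →L[ℝ] F →L[ℝ] F) (C : ℝ) (hC : 1 ≤ C) (hD : ‖D‖ ≤ C) (z p B : F) :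
    ‖(inner ℝ p B) • z - (inner ℝ z B) • p + D z (D p B) - D p (D z B)‖ ≤
      4 * C ^ 2 * Real.sqrt (‖z‖ ^ 2 * ‖p‖ ^ 2 - (inner ℝ z p) ^ 2) * ‖B‖ := by
  by_cases hz0 : z = 0
  · subst hz0
    simp
  · have hz : 0 < ‖z‖ := norm_pos_iff.2 hz0
    obtain ⟨t, ht⟩ : ∃ t : ℝ, t = inner ℝ z p / ‖z‖ ^ 2 := ⟨_, rfl⟩
    have htz : t * ‖z‖ ^ 2 = inner ℝ z p := by
      rw [ht, div_mul_cancel₀ _ (by positivity)]
    have hq : (inner ℝ p B) • z - (inner ℝ z B) • p + D z (D p B) - D p (D z B) =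
        (inner ℝ (p - t • z) B) • z - (inner ℝ z B) • (p - t • z) + D z (D (p - t • z) B) -
          D (p - t • z) (D z B) := by
      rw [inner_sub_left, real_inner_smul_left, map_sub, map_smul, sub_smul, smul_sub]
      simp only [sub_apply, smul_apply, map_sub, map_smul]
      module
    rw [hq]
    have hD' : ∀ x y : F, ‖D x y‖ ≤ C * ‖x‖ * ‖y‖ := by
      intro x y
      refine (D.le_opNorm₂ x y).trans ?_
      gcongr
    have hw : ‖z‖ * ‖p - t • z‖ = Real.sqrt (‖z‖ ^ 2 * ‖p‖ ^ 2 - (inner ℝ z p) ^ 2) := by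
      rw [← Real.sqrt_sq (by positivity : 0 ≤ ‖z‖ * ‖p - t • z‖)]
      congr 1
      rw [mul_pow, norm_sub_sq_real, norm_smul, inner_smul_right, Real.norm_eq_abs, mul_pow, sq_abs,
        real_inner_comm z p, ← htz]
      ring
    rw [← hw]
    have h1 : ‖(inner ℝ (p - t • z) B) • z‖ ≤ ‖p - t • z‖ * ‖B‖ * ‖z‖ := by
      rw [norm_smul, Real.norm_eq_abs]
      exact mul_le_mul_of_nonneg_right (abs_real_inner_le_norm _ _) (norm_nonneg _)
    have h2 : ‖(inner ℝ z B) • (p - t • z)‖ ≤ ‖z‖ * ‖B‖ * ‖p - t • z‖ := by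
      rw [norm_smul, Real.norm_eq_abs]
      exact mul_le_mul_of_nonneg_right (abs_real_inner_le_norm _ _) (norm_nonneg _)
    have h3 : ‖D z (D (p - t • z) B)‖ ≤ C * ‖z‖ * (C * ‖p - t • z‖ * ‖B‖) := by
      refine (hD' _ _).trans ?_
      exact mul_le_mul_of_nonneg_left (hD' _ _) (by positivity)
    have h4 : ‖D (p - t • z) (D z B)‖ ≤ C * ‖p - t • z‖ * (C * ‖z‖ * ‖B‖) := by
      refine (hD' _ _).trans ?_
      exact mul_le_mul_of_nonneg_left (hD' _ _) (by positivity)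
    have h5 : (1 : ℝ) ≤ C ^ 2 := one_le_pow₀ hC
    have h6 : 0 ≤ ‖z‖ * ‖p - t • z‖ * ‖B‖ := by positivity
    calc _ ≤ ‖(inner ℝ (p - t • z) B) • z‖ + ‖(inner ℝ z B) • (p - t • z)‖ +
          ‖D z (D (p - t • z) B)‖ + ‖D (p - t • z) (D z B)‖ :=
          (norm_sub_le _ _).trans (add_le_add ((norm_add_le _ _).trans
            (add_le_add (norm_sub_le _ _) le_rfl)) le_rfl)
      _ ≤ 4 * C ^ 2 * (‖z‖ * ‖p - t • z‖) * ‖B‖ := by nlinarith

end Gen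

theorem om_bound {m : ℕ} {N : Set (E m)} {π : E m → E m} {δ C : ℝ} (hT : TC N π δ C)
    (P : E m) (hP : infDist P N < 4 * δ) (z p B : E m) :
    ‖Om π P z p B‖ ≤ 4 * C ^ 2 * wedge z p * ‖B‖ := by
  exact gen_om (D2 π P) C hT.one_le (hT.bd2 P hP) z p B

theorem wedge_le {m : ℕ} (z p b : E m) (hb : ‖b‖ ≤ 1) :
    wedge z p ≤ 2 * (perp z b * ‖p‖ + ‖z‖ * perp p b) := by
  exact gen_wedge z p b hb

theorem wedge_le_mul {m : ℕ} (z p : E m) : wedge z p ≤ ‖z‖ * ‖p‖ := by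
  exact gen_wedge_le z p

end H60NH
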