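import Pool.Agent.H60.NH.MBd
import Pool.Agent.H60.NH.MConv

/-!
# [H60 NH MDIST] Distance of the mollified maps to the target

Let `x ∈ ball 0 32`, `ρ = 1 / p2 k`, `I = ∫_{ball x (4ρ)} f`, `f = gn ∘ G`, so `aa f k x = p2 k ^ (n-1) I`.
1. For `y ∈ ball x ρ`: `‖ubar k x - ubar k y‖ <= C p2 k ^ (n-1) I`: mean value inequality on the convex
set `ball x ρ`, where `‖fderiv (ubar k) z (ev i)‖ <= M p2 k ^ n ∫_{ball z ρ} f <= M p2 k ^ n I`
(`ubar_der_bd`), so `‖fderiv (ubar k) z‖ <= n M p2 k ^ n I`, and `‖x - y‖ < ρ`.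
2. For a.e. `y ∈ ball x ρ`, `u y = ubar k y + ∑_{j >= k} (ubar (j+1) y - ubar j y)` (`ubar_ae`), so
`‖u y - ubar k y‖ <= liminf_J ∑_{k <= j < J} n M p2 j ^ (n-1) ∫_{ball y (1/p2 j)} f` (`ubar_diff_bd`).
3. Tonelli: `∫_{y ∈ ball x ρ} ∫_{ball y (1/p2 j)} f <= V (1/p2 j)^n I` (`V` the volume of the unit ball;
`ball y (1/p2 j) ⊆ ball x (2ρ)`), so `∫_{ball x ρ} ‖u y - ubar k y‖ dy <= ∑_{j >= k} n M V (p2 j)⁻¹ I
<= 2 n M V ρ I` (Fatou or monotone convergence for the sum of nonnegative terms).
4. `infDist (ubar k x) N <= ‖ubar k x - u y‖` for a.e. `y ∈ ball x ρ` (`u y ∈ N`); average over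
`ball x ρ` (volume `V ρ^n`): `infDist <= n M p2 k ^ (n-1) I + 2 n M ρ^(1-n) I`. The constant is
`C = 3 n M` (`n >= 1`).
-/

set_option autoImplicit false

namespace H60NH

open MeasureTheory Metric Set Filter Topology
open scoped ENNReal NNReal ContDiff

private theorem mdist_p2 (k : ℕ) : 0 < p2 k := by unfold p2; positivity

private theorem mdist_S {n : ℕ} (r : ℝ) :
    MeasurableSet {p : E n × E n | dist p.2 p.1 < r} :=
  (isOpen_lt (continuous_snd.dist continuous_fst) continuous_const).measurableSet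

private theorem mdist_meas {n : ℕ} (F' : E n → ℝ≥0∞) (hF : Measurable F') (r : ℝ) :
    Measurable fun w : E n => ∫⁻ y in ball w r, F' y := by
  have h1 : (fun w : E n => ∫⁻ y in ball w r, F' y) = fun w =>
      ∫⁻ y, {p : E n × E n | dist p.2 p.1 < r}.indicator (fun p => F' p.2) (w, y) := by
    funext w
    rw [← lintegral_indicator measurableSet_ball]
    rfl
  rw [h1]
  exact ((hF.comp measurable_snd).indicator (mdist_S r)).lintegral_prod_right'

private theorem mdist_tonelli {n : ℕ} (F : E n → ℝ≥0∞) (hF : Measurable F) (x : E n) (ρ r : ℝ) :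
    ∫⁻ y in ball x ρ, ∫⁻ z in ball y r, F z ≤
      volume (ball (0 : E n) r) * ∫⁻ z in ball x (ρ + r), F z := by
  set S : Set (E n × E n) := {p : E n × E n | dist p.2 p.1 < r ∧ p.1 ∈ ball x ρ} with hSdef
  have hS2 : MeasurableSet S :=
    (mdist_S r).inter (measurableSet_ball.preimage measurable_fst)
  have hmem : ∀ y z : E n, (y, z) ∈ S ↔ dist z y < r ∧ y ∈ ball x ρ := fun y z => Iff.rfl
  set H : E n → E n → ℝ≥0∞ := fun y z => S.indicator (fun p => F p.2) (y, z) with hH
  have h1 : ∫⁻ y in ball x ρ, ∫⁻ z in ball y r, F z = ∫⁻ y, ∫⁻ z, H y z := by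
    rw [← lintegral_indicator measurableSet_ball]
    apply lintegral_congr
    intro y
    by_cases hy : y ∈ ball x ρ
    · rw [indicator_of_mem hy, ← lintegral_indicator measurableSet_ball]
      apply lintegral_congr
      intro z
      by_cases hz : z ∈ ball y r
      · rw [indicator_of_mem hz, hH]
        simp only
        rw [indicator_of_mem ((hmem y z).2 ⟨hz, hy⟩)]
      · rw [indicator_of_notMem hz, hH]
        simp only
        rw [indicator_of_notMem (fun h => hz ((hmem y z).1 h).1)]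
    · rw [indicator_of_notMem hy]
      have : H y = fun _ => 0 := by
        funext z
        exact indicator_of_notMem (fun h => hy ((hmem y z).1 h).2) _
      rw [this, lintegral_zero]
  have hswap : ∫⁻ y, ∫⁻ z, H y z = ∫⁻ z, ∫⁻ y, H y z := by
    apply lintegral_lintegral_swap
    have : Function.uncurry H = S.indicator (fun p => F p.2) := by
      funext p
      rfl
    rw [this]
    exact ((hF.comp measurable_snd).indicator hS2).aemeasurable
  rw [h1, hswap]
  have h2 : ∀ z : E n, ∫⁻ y, H y z ≤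
      (ball x (ρ + r)).indicator (fun z => volume (ball (0 : E n) r) * F z) z := by
    intro z
    by_cases hz : z ∈ ball x (ρ + r)
    · rw [indicator_of_mem hz]
      calc ∫⁻ y, H y z ≤ ∫⁻ y, (ball z r).indicator (fun _ => F z) y := by
            apply lintegral_mono
            intro y
            rw [hH]
            simp only
            by_cases h : dist z y < r ∧ y ∈ ball x ρ
            · rw [indicator_of_mem ((hmem y z).2 h),
                indicator_of_mem (show y ∈ ball z r by rw [mem_ball, dist_comm]; exact h.1)]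
            · rw [indicator_of_notMem (fun h2 => h ((hmem y z).1 h2))]
              exact zero_le
        _ = volume (ball (0 : E n) r) * F z := by
            rw [lintegral_indicator measurableSet_ball, setLIntegral_const, mul_comm,
              Measure.addHaar_ball_center]
    · rw [indicator_of_notMem hz]
      apply le_of_eq
      have : (fun y => H y z) = fun _ => 0 := by
        funext y
        apply indicator_of_notMem
        intro h3
        obtain ⟨h3, h4⟩ := (hmem y z).1 h3
        apply hz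
        rw [mem_ball] at h4 ⊢
        have := dist_triangle z y x
        linarith
      rw [this, lintegral_zero]
  calc _ ≤ ∫⁻ z, (ball x (ρ + r)).indicator (fun z => volume (ball (0 : E n) r) * F z) z :=
        lintegral_mono h2
    _ = _ := by
        rw [lintegral_indicator measurableSet_ball, lintegral_const_mul _ hF]

private theorem mdist_op {n m : ℕ} (L : E n →L[ℝ] E m) : ‖L‖ ≤ ∑ i, ‖L (ev i)‖ := by
  apply ContinuousLinearMap.opNorm_le_bound _ (Finset.sum_nonneg fun i _ => norm_nonneg _)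
  intro h
  have h1 : h = ∑ i, h i • (ev i : E n) := by
    ext j
    simp [ev, Finset.sum_apply, Pi.single_apply]
  have h2 : L h = ∑ i, h i • L (ev i) := by
    conv_lhs => rw [h1]
    rw [map_sum]
    simp
  rw [h2, Finset.sum_mul]
  refine (norm_sum_le _ _).trans (Finset.sum_le_sum fun i _ => ?_)
  rw [norm_smul, mul_comm]
  exact mul_le_mul_of_nonneg_left (PiLp.norm_apply_le h i) (norm_nonneg _)

theorem ubar_dist {n m : ℕ} (hn : 1 ≤ n) {φ : E n → ℝ} {Θ : Fin n → E n → ℝ} {M : ℝ}
    (hφ : Moll φ Θ M) {N : Set (E m)} {π : E m → E m} {u : E n → E m}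
    {G : E n → Fin n → E m} (hS : Sol N π 64 u G) (hu : Integrable u)
    (hf : Integrable (fun x => gn (G x))) (k : ℕ) (x : E n) (hx : x ∈ ball (0 : E n) 32) :
    infDist (ubar φ u k x) N ≤ 3 * n * M * aa (fun y => gn (G y)) k x := by
  set f : E n → ℝ := fun y => gn (G y) with hfdef
  have hf0 : ∀ y, 0 ≤ f y := fun y => Real.sqrt_nonneg _
  have hfm : Measurable f := by
    rw [hfdef]
    unfold gn
    exact (Finset.measurable_sum _ fun i _ => (hS.meas_G i).norm.pow_const 2).sqrt
  have hM : 0 ≤ M := zero_le_one.trans hφ.one_le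
  have hp := mdist_p2
  have hp1 : ∀ j, 1 ≤ p2 j := fun j => one_le_pow₀ (by norm_num)
  set ρ : ℝ := 1 / p2 k with hρ
  have hρ0 : 0 < ρ := div_pos one_pos (hp k)
  have hρ1 : ρ ≤ 1 := by
    rw [hρ, div_le_one (hp k)]
    exact hp1 k
  set I : ℝ := ∫ y in ball x (4 * ρ), f y with hI
  have hI0 : 0 ≤ I := setIntegral_nonneg measurableSet_ball fun y _ => hf0 y
  have haa : aa f k x = p2 k ^ (n - 1) * I := by
    unfold aa
    rw [hI, hρ]
    congr 4
    ring
  have hIlint : ∫⁻ y in ball x (4 * ρ), ENNReal.ofReal (f y) = ENNReal.ofReal I := by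
    rw [hI, ofReal_integral_eq_lintegral_ofReal hf.integrableOn (ae_of_all _ hf0)]
  have hx32 : ‖x‖ < 32 := by simpa using hx
  -- points near x
  have hball : ∀ y ∈ ball x ρ, ‖y‖ < 33 := by
    intro y hy
    rw [mem_ball, dist_eq_norm] at hy
    have h1 : ‖y‖ ≤ ‖y - x‖ + ‖x‖ := by
      have := norm_add_le (y - x) x
      rwa [sub_add_cancel] at this
    linarith
  have hR : ∀ y ∈ ball x ρ, ∀ j, ‖y‖ + 1 / p2 j < 64 := by
    intro y hy j
    have h1 := hball y hy
    have h2 : 1 / p2 j ≤ 1 := by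
      rw [div_le_one (hp j)]
      exact hp1 j
    linarith
  have hsub : ∀ y ∈ ball x ρ, ∀ r, r ≤ 3 * ρ → ball y r ⊆ ball x (4 * ρ) := by
    intro y hy r hr z hz
    rw [mem_ball] at hy hz ⊢
    have := dist_triangle z y x
    linarith
  -- step 1
  have hder : ∀ z ∈ ball x ρ, ‖fderiv ℝ (ubar φ u k) z‖ ≤ n * (M * (p2 k ^ n * I)) := by
    intro z hz
    refine (mdist_op _).trans ?_
    have h1 : ∀ i ∈ Finset.univ, ‖fderiv ℝ (ubar φ u k) z (ev i)‖ ≤ M * (p2 k ^ n * I) := by
      intro i _
      refine (ubar_der_bd hφ hS.wg hu hS.out_u hS.out_G hf k z (hR z hz k) i).trans ?_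
      have hpk := hp k
      refine mul_le_mul_of_nonneg_left (mul_le_mul_of_nonneg_left ?_ (by positivity)) hM
      exact setIntegral_mono_set hf.integrableOn (ae_of_all _ hf0)
        (Filter.Eventually.of_forall (hsub z hz (1 / p2 k) (by linarith)))
    refine (Finset.sum_le_sum h1).trans (le_of_eq ?_)
    rw [Finset.sum_const, Finset.card_univ, Fintype.card_fin, nsmul_eq_mul]
  have hstep1 : ∀ y ∈ ball x ρ, ‖ubar φ u k x - ubar φ u k y‖ ≤
      n * M * (p2 k ^ (n - 1) * I) := by
    intro y hy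
    have hxx : x ∈ ball x ρ := mem_ball_self hρ0
    have h1 := (convex_ball x ρ).norm_image_sub_le_of_norm_fderiv_le (𝕜 := ℝ)
      (f := ubar φ u k) (C := n * (M * (p2 k ^ n * I)))
      (fun z _ => ((ubar_smooth hφ u hu k).differentiable (by simp)).differentiableAt)
      hder hy hxx
    refine h1.trans ?_
    have h2 : ‖x - y‖ ≤ ρ := by
      rw [← dist_eq_norm, dist_comm]
      exact (mem_ball.1 hy).le
    have hpk := hp k
    refine (mul_le_mul_of_nonneg_left h2 (by positivity)).trans (le_of_eq ?_)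
    have h3 : p2 k ^ n = p2 k ^ (n - 1) * p2 k := by
      rw [← pow_succ]
      congr 1
      omega
    rw [h3, hρ]
    field_simp
  -- step 2
  set cst : ℕ → ℝ := fun j => n * M * p2 j ^ (n - 1) with hcst
  have hcst0 : ∀ j, 0 ≤ cst j := by
    intro j
    have := hp j
    rw [hcst]
    positivity
  set Gj : ℕ → E n → ℝ≥0∞ := fun j y => ∫⁻ z in ball y (1 / p2 j), ENNReal.ofReal (f z) with hGj
  have hGm : ∀ j, Measurable (Gj j) := fun j => mdist_meas _ hfm.ennreal_ofReal _
  have hdiff : ∀ y ∈ ball x ρ, ∀ j, ‖ubar φ u (j + 1) y - ubar φ u j y‖ₑ ≤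
      ENNReal.ofReal (cst j) * Gj j y := by
    intro y hy j
    have h1 := ubar_diff_bd hn hφ hS.wg hu hS.out_u hS.out_G hf j y (hR y hy j)
    rw [← ofReal_norm, hGj]
    simp only
    rw [← ofReal_integral_eq_lintegral_ofReal hf.integrableOn (ae_of_all _ hf0),
      ← ENNReal.ofReal_mul (hcst0 j)]
    apply ENNReal.ofReal_le_ofReal
    refine h1.trans (le_of_eq ?_)
    rw [hcst]
    ring
  have htel : ∀ y ∈ ball x ρ, ∀ J, ‖ubar φ u (k + J) y - ubar φ u k y‖ₑ ≤
      ∑ j ∈ Finset.range J, ENNReal.ofReal (cst (k + j)) * Gj (k + j) y := by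
    intro y hy J
    induction J with
    | zero => simp
    | succ J ih =>
      rw [Finset.sum_range_succ]
      have h1 : ubar φ u (k + (J + 1)) y - ubar φ u k y =
          (ubar φ u (k + J) y - ubar φ u k y) +
            (ubar φ u (k + J + 1) y - ubar φ u (k + J) y) := by
        rw [← add_assoc]
        abel
      rw [h1]
      exact (enorm_add_le _ _).trans (add_le_add ih (hdiff y hy (k + J)))
  have hae : ∀ᵐ y ∂(volume.restrict (ball x ρ)), ‖u y - ubar φ u k y‖ₑ ≤
      ∑' j, ENNReal.ofReal (cst (k + j)) * Gj (k + j) y := by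
    filter_upwards [ae_restrict_of_ae (ubar_ae hφ u hu), ae_restrict_mem measurableSet_ball]
      with y hy1 hy2
    have h1 : Tendsto (fun J => ‖ubar φ u (k + J) y - ubar φ u k y‖ₑ) atTop
        (𝓝 ‖u y - ubar φ u k y‖ₑ) := by
      have h2 : Tendsto (fun J => ubar φ u (k + J) y) atTop (𝓝 (u y)) := by
        have h3 : Tendsto (fun J => k + J) atTop atTop := by
          simpa [add_comm] using tendsto_add_atTop_nat k
        exact hy1.comp h3
      exact (h2.sub_const _).enorm
    refine le_of_tendsto' h1 fun J => (htel y hy2 J).trans ?_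
    exact ENNReal.sum_le_tsum _
  -- step 3
  have hVr : ∀ r : ℝ, 0 < r → volume (ball (0 : E n) r) =
      ENNReal.ofReal (r ^ n) * volume (ball (0 : E n) 1) := by
    intro r hr
    rw [Measure.addHaar_ball_of_pos _ _ hr, finrank_euclideanSpace, Fintype.card_fin]
  set V : ℝ≥0∞ := volume (ball (0 : E n) 1) with hV
  have hV0 : V ≠ 0 := (measure_ball_pos _ _ one_pos).ne'
  have hVt : V ≠ ⊤ := measure_ball_lt_top.ne
  have hGint : ∀ j, k ≤ j → ∫⁻ y in ball x ρ, Gj j y ≤
      ENNReal.ofReal ((1 / p2 j) ^ n) * V * ENNReal.ofReal I := by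
    intro j hj
    have hpj := hp j
    have h1 : 1 / p2 j ≤ ρ := by
      rw [hρ]
      apply one_div_le_one_div_of_le (hp k)
      exact pow_le_pow_right₀ (by norm_num) hj
    refine (mdist_tonelli _ hfm.ennreal_ofReal x ρ (1 / p2 j)).trans ?_
    rw [hVr _ (by positivity), ← hIlint]
    refine mul_le_mul_right ?_ _
    apply lintegral_mono_set
    apply ball_subset_ball
    linarith
  have hsum : ∫⁻ y in ball x ρ, ‖u y - ubar φ u k y‖ₑ ≤
      ENNReal.ofReal (2 * n * M * ρ * I) * V := by
    refine (lintegral_mono_ae hae).trans ?_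
    rw [lintegral_tsum (fun j => ((hGm (k + j)).const_mul _).aemeasurable)]
    have h1 : ∀ j, ∫⁻ y in ball x ρ, ENNReal.ofReal (cst (k + j)) * Gj (k + j) y ≤
        ENNReal.ofReal (n * M * ρ * I * (1 / 2) ^ j) * V := by
      intro j
      rw [lintegral_const_mul _ (hGm (k + j))]
      refine (mul_le_mul_right (hGint (k + j) (by omega)) _).trans ?_
      have hpj := hp (k + j)
      rw [mul_comm (ENNReal.ofReal ((1 / p2 (k + j)) ^ n)) V, mul_assoc, ← mul_assoc,
        mul_comm (ENNReal.ofReal (cst (k + j))) V, mul_assoc,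
        ← ENNReal.ofReal_mul (by positivity), ← ENNReal.ofReal_mul (hcst0 _), mul_comm V]
      refine mul_le_mul_left (ENNReal.ofReal_le_ofReal (le_of_eq ?_)) _
      have h3 : (1 / p2 (k + j)) ^ n = (1 / p2 (k + j)) ^ (n - 1) * (1 / p2 (k + j)) := by
        rw [← pow_succ]
        congr 1
        omega
      have h4 : p2 (k + j) = p2 k * 2 ^ j := by
        unfold p2
        rw [pow_add]
      have h5 : p2 (k + j) ^ (n - 1) * (1 / p2 (k + j)) ^ (n - 1) = 1 := by
        rw [← mul_pow, mul_one_div_cancel hpj.ne', one_pow]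
      have h6 : (1 : ℝ) / p2 (k + j) = ρ * (1 / 2) ^ j := by
        rw [h4, hρ, one_div_pow, div_mul_div_comm, one_mul]
      calc cst (k + j) * ((1 / p2 (k + j)) ^ n * I)
          = n * M * (p2 (k + j) ^ (n - 1) * (1 / p2 (k + j)) ^ (n - 1)) * (1 / p2 (k + j)) * I := by
            rw [h3, hcst]
            ring
        _ = n * M * ρ * I * (1 / 2) ^ j := by
            rw [h5, h6]
            ring
    refine (ENNReal.tsum_le_tsum h1).trans ?_
    rw [ENNReal.tsum_mul_right]
    refine mul_le_mul_left ?_ _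
    have hc : 0 ≤ n * M * ρ * I := by positivity
    simp_rw [ENNReal.ofReal_mul hc]
    rw [ENNReal.tsum_mul_left]
    rw [← ENNReal.ofReal_tsum_of_nonneg (fun j => by positivity)
      (summable_geometric_of_lt_one (by norm_num) (by norm_num)),
      tsum_geometric_of_lt_one (by norm_num) (by norm_num), ← ENNReal.ofReal_mul hc]
    apply ENNReal.ofReal_le_ofReal
    apply le_of_eq
    ring
  -- step 4
  have hN : ∀ᵐ y ∂(volume.restrict (ball x ρ)), u y ∈ N := by
    have h1 : ball x ρ ⊆ ball (0 : E n) 64 := by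
      intro y hy
      rw [mem_ball_zero_iff]
      linarith [hball y hy]
    exact ae_mono (Measure.restrict_mono h1 le_rfl) hS.memN
  set A : ℝ := n * M * (p2 k ^ (n - 1) * I) with hA
  have hpk := hp k
  have hA0 : 0 ≤ A := by positivity
  have hpt : ∀ᵐ y ∂(volume.restrict (ball x ρ)), ENNReal.ofReal (infDist (ubar φ u k x) N) ≤
      ENNReal.ofReal A + ‖u y - ubar φ u k y‖ₑ := by
    filter_upwards [hN, ae_restrict_mem measurableSet_ball] with y hy1 hy2
    rw [← ofReal_norm, ← ENNReal.ofReal_add hA0 (norm_nonneg _)]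
    apply ENNReal.ofReal_le_ofReal
    refine (infDist_le_dist_of_mem hy1).trans ?_
    rw [dist_eq_norm]
    have h1 : ubar φ u k x - u y = (ubar φ u k x - ubar φ u k y) - (u y - ubar φ u k y) := by
      abel
    rw [h1]
    exact (norm_sub_le _ _).trans (add_le_add (hstep1 y hy2) le_rfl)
  have hvol : volume (ball x ρ) = ENNReal.ofReal (ρ ^ n) * V := by
    rw [Measure.addHaar_ball_center, hVr ρ hρ0]
  have hmain : ENNReal.ofReal (infDist (ubar φ u k x) N) * (ENNReal.ofReal (ρ ^ n) * V) ≤
      ENNReal.ofReal (A * ρ ^ n + 2 * n * M * ρ * I) * V := by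
    calc ENNReal.ofReal (infDist (ubar φ u k x) N) * (ENNReal.ofReal (ρ ^ n) * V)
        = ∫⁻ _ in ball x ρ, ENNReal.ofReal (infDist (ubar φ u k x) N) := by
          rw [setLIntegral_const, hvol]
      _ ≤ ∫⁻ y in ball x ρ, (ENNReal.ofReal A + ‖u y - ubar φ u k y‖ₑ) :=
          lintegral_mono_ae hpt
      _ = ENNReal.ofReal A * (ENNReal.ofReal (ρ ^ n) * V) +
            ∫⁻ y in ball x ρ, ‖u y - ubar φ u k y‖ₑ := by
          rw [lintegral_add_left measurable_const, setLIntegral_const, hvol]
      _ ≤ ENNReal.ofReal A * (ENNReal.ofReal (ρ ^ n) * V) +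
            ENNReal.ofReal (2 * n * M * ρ * I) * V := add_le_add le_rfl hsum
      _ = _ := by
          rw [ENNReal.ofReal_add (by positivity) (by positivity), ENNReal.ofReal_mul hA0]
          ring
  rw [← mul_assoc, ENNReal.mul_le_mul_iff_left hV0 hVt, ← ENNReal.ofReal_mul infDist_nonneg,
    ENNReal.ofReal_le_ofReal_iff (by positivity)] at hmain
  have h3 : ρ ^ n = ρ ^ (n - 1) * ρ := by
    rw [← pow_succ]
    congr 1
    omega
  have h5 : p2 k ^ (n - 1) * ρ ^ (n - 1) = 1 := by
    rw [← mul_pow, hρ, mul_one_div_cancel hpk.ne', one_pow]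
  have h6 : A * ρ ^ n + 2 * n * M * ρ * I = (3 * n * M * (p2 k ^ (n - 1) * I)) * ρ ^ n := by
    have h7 : 2 * n * M * ρ * I = 2 * n * M * (p2 k ^ (n - 1) * I) * ρ ^ n := by
      rw [h3]
      calc 2 * (n : ℝ) * M * ρ * I = 2 * n * M * ρ * I * (p2 k ^ (n - 1) * ρ ^ (n - 1)) := by
            rw [h5, mul_one]
        _ = _ := by ring
    rw [h7, hA]
    ring
  rw [h6] at hmain
  rw [haa]
  exact le_of_mul_le_mul_right hmain (by positivity)

end H60NH
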