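import Pool.Agent.H60.NH.MLp
import Pool.Agent.H60.NH.MDer
import Pool.Agent.H60.NH.MSol

/-!
# [H60 NH MLN] Convergence of the gradients of the mollified maps

For `x ∈ ball 0 8` and all `k`: `‖x‖ + 1/p2 k <= 9 < 64`, so `ubar_der` gives
`fderiv (ubar φ u k) x (ev i) = ubar φ (G · i) k x`, and `ubar_Lp` applies to `g = G · i`
(`sol_int`: integrable and in `L^n`). Restrict the integral to `ball 0 8`.
-/

set_option autoImplicit false

namespace H60NH

open MeasureTheory Metric Set Filter Topology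
open scoped ENNReal NNReal ContDiff

theorem der_Ln {n m : ℕ} (hn : 1 ≤ n) {φ : E n → ℝ} {Θ : Fin n → E n → ℝ} {M : ℝ}
    (hφ : Moll φ Θ M) {N : Set (E m)} {π : E m → E m} {u : E n → E m}
    {G : E n → Fin n → E m} (hS : Sol N π 64 u G) (i : Fin n) :
    Tendsto (fun k => ∫ x in ball (0 : E n) 8, ‖fderiv ℝ (ubar φ u k) x (ev i) - G x i‖ ^ n)
      atTop (𝓝 0) ∧
      ∀ k, Integrable (fun x => ‖fderiv ℝ (ubar φ u k) x (ev i) - G x i‖ ^ n)
        (volume.restrict (ball (0 : E n) 8)) := by
  obtain ⟨hu, hGi, hGL, -, -, -⟩ := sol_int hn hS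
  obtain ⟨hlim, hmem⟩ := ubar_Lp hn hφ (fun x => G x i) (hGi i) (hGL i)
  have hn0 : (n : ℝ≥0∞) ≠ 0 := by
    exact_mod_cast (by omega : n ≠ 0)
  have hint : ∀ k, Integrable (fun x => ‖ubar φ (fun x => G x i) k x - G x i‖ ^ n) := by
    intro k
    have h1 : MemLp (fun x => ubar φ (fun x => G x i) k x - G x i) n := (hmem k).sub (hGL i)
    have h2 := h1.integrable_norm_rpow hn0 (ENNReal.natCast_ne_top n)
    simpa using h2
  have heq : ∀ k, ∀ x ∈ ball (0 : E n) 8,
      ‖fderiv ℝ (ubar φ u k) x (ev i) - G x i‖ ^ n =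
        ‖ubar φ (fun x => G x i) k x - G x i‖ ^ n := by
    intro k x hx
    have h1 : ‖x‖ + 1 / p2 k < 64 := by
      have h2 : ‖x‖ < 8 := by simpa using hx
      have h3 : 1 / p2 k ≤ 1 := by
        unfold p2
        rw [div_le_one (by positivity)]
        exact one_le_pow₀ (by norm_num)
      linarith
    have h4 := ubar_der hφ hS.wg hu hS.out_u hS.out_G k x h1 i
    rw [h4]
    rfl
  have hae : ∀ k, (fun x => ‖fderiv ℝ (ubar φ u k) x (ev i) - G x i‖ ^ n)
      =ᵐ[volume.restrict (ball (0 : E n) 8)]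
      fun x => ‖ubar φ (fun x => G x i) k x - G x i‖ ^ n := by
    intro k
    filter_upwards [ae_restrict_mem measurableSet_ball] with x hx
    exact heq k x hx
  constructor
  · have hle : ∀ k, ∫ x in ball (0 : E n) 8, ‖fderiv ℝ (ubar φ u k) x (ev i) - G x i‖ ^ n ≤
        ∫ x, ‖ubar φ (fun x => G x i) k x - G x i‖ ^ n := by
      intro k
      rw [integral_congr_ae (hae k)]
      exact setIntegral_le_integral (hint k) (Eventually.of_forall fun x => by positivity)
    refine squeeze_zero (fun k => ?_) hle hlim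
    exact integral_nonneg fun x => by positivity
  · intro k
    exact ((hint k).restrict (s := ball (0 : E n) 8)).congr (hae k).symm

end H60NH
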