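import Pool.Agent.H60.NH.MConv

/-!
# [H60 NH MLP] Mollifications converge in `L^n`

`g ∈ L^n(R^n)` (and integrable, so that `ubar φ g k` is defined everywhere), `n >= 1`.
1. Contraction: `∫ ‖ubar φ g k x‖^n dx <= ∫ ‖g‖^n`: Jensen's inequality for the probability density
`y ↦ p2 k ^ n φ (p2 k (x - y))` (`kernel_int`), then Tonelli (`∫ p2 k ^ n φ(p2 k (x-y)) dx = 1`).
2. For `g` continuous with compact support the convergence is uniform with uniformly bounded
supports, so it holds in `L^n`.
3. General `g`: approximate in `L^n` by continuous compactly supported functions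
(`MemLp.exists_hasCompactSupport_eLpNorm_sub_le`), triangle inequality for `eLpNorm`; `ubar` is linear.
-/

set_option autoImplicit false

namespace H60NH

open MeasureTheory Metric Set Filter Topology
open scoped ENNReal NNReal ContDiff Convolution

private theorem mlp_p2 (k : ℕ) : 0 < p2 k := by unfold p2; positivity

/-- the kernel -/
private noncomputable def mlpK {n : ℕ} (φ : E n → ℝ) (k : ℕ) (z : E n) : ℝ := p2 k ^ n * φ (p2 k • z)

section
variable {n m : ℕ} {φ : E n → ℝ} {Θ : Fin n → E n → ℝ} {M : ℝ}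

private theorem mlpK_nonneg (hφ : Moll φ Θ M) (k : ℕ) (z : E n) : 0 ≤ mlpK φ k z := by
  have := mlp_p2 k
  exact mul_nonneg (by positivity) (hφ.nonneg _)

private theorem mlpK_cont (hφ : Moll φ Θ M) (k : ℕ) : Continuous (mlpK φ k) :=
  continuous_const.mul (hφ.smooth.continuous.comp (continuous_id.const_smul (p2 k)))

private theorem mlpK_le (hφ : Moll φ Θ M) (k : ℕ) (z : E n) : ‖mlpK φ k z‖ ≤ p2 k ^ n * M := by
  have := mlp_p2 k
  unfold mlpK
  rw [norm_mul, Real.norm_of_nonneg (by positivity)]
  exact mul_le_mul_of_nonneg_left (hφ.bd _) (by positivity)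

private theorem mlpK_int' (hφ : Moll φ Θ M) (k : ℕ) : Integrable (mlpK φ k) := by
  have h1 : Integrable φ := by
    by_contra h
    have := hφ.int
    rw [integral_undef h] at this
    exact zero_ne_one this
  exact (h1.comp_smul (mlp_p2 k).ne').const_mul _

private theorem mlpK_int (hφ : Moll φ Θ M) (k : ℕ) : ∫ z, mlpK φ k z = 1 := by
  have hp := mlp_p2 k
  unfold mlpK
  rw [integral_const_mul, Measure.integral_comp_smul, hφ.int, finrank_euclideanSpace,
    Fintype.card_fin, smul_eq_mul, mul_one, abs_of_pos (by positivity)]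
  exact mul_inv_cancel₀ (by positivity)

/-- the averaged power -/
private noncomputable def mlpH (φ : E n → ℝ) (H : E n → ℝ) (k : ℕ) (x : E n) : ℝ :=
  ∫ y, mlpK φ k (x - y) * H y

private theorem mlpH_conv (H : E n → ℝ) (k : ℕ) :
    mlpH φ H k = (H ⋆[ContinuousLinearMap.mul ℝ ℝ, volume] mlpK φ k) := by
  funext x
  unfold mlpH
  rw [convolution_def]
  congr 1
  funext y
  simp [mul_comm]

private theorem mlpH_integrable (hφ : Moll φ Θ M) {H : E n → ℝ} (hH : Integrable H) (k : ℕ) :
    Integrable (mlpH φ H k) := by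
  rw [mlpH_conv]
  exact hH.integrable_convolution _ (mlpK_int' hφ k)

private theorem mlpH_integral (hφ : Moll φ Θ M) {H : E n → ℝ} (hH : Integrable H) (k : ℕ) :
    ∫ x, mlpH φ H k x = ∫ x, H x := by
  rw [mlpH_conv, integral_convolution _ hH (mlpK_int' hφ k), mlpK_int hφ k]
  simp

private theorem mlp_kerI (hφ : Moll φ Θ M) {H : E n → ℝ} (hH : Integrable H) (k : ℕ) (x : E n) :
    Integrable (fun y => mlpK φ k (x - y) * H y) := by
  have h1 : AEStronglyMeasurable (fun y => mlpK φ k (x - y)) volume :=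
    ((mlpK_cont hφ k).comp (continuous_const.sub continuous_id)).aestronglyMeasurable
  exact hH.bdd_mul (c := p2 k ^ n * M) h1 (Eventually.of_forall fun y => mlpK_le hφ k _)

/-- Jensen -/
private theorem mlp_jensen (hφ : Moll φ Θ M) (g : E n → E m) (hg : Integrable g) (N : ℕ)
    (hgN : Integrable (fun x => ‖g x‖ ^ N)) (k : ℕ) (x : E n) :
    ‖ubar φ g k x‖ ^ N ≤ mlpH φ (fun y => ‖g y‖ ^ N) k x := by
  have hK0 := mlpK_nonneg hφ k
  have hker : Integrable (fun y => mlpK φ k (x - y)) := (mlpK_int' hφ k).comp_sub_left x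
  have hker1 : ∫ y, mlpK φ k (x - y) = 1 := by
    rw [integral_sub_left_eq_self (fun y => mlpK φ k y) volume x, mlpK_int hφ k]
  set c : ℝ := ∫ y, mlpK φ k (x - y) * ‖g y‖ with hc
  have hc0 : 0 ≤ c := integral_nonneg fun y => mul_nonneg (hK0 _) (norm_nonneg _)
  have h1 : ‖ubar φ g k x‖ ≤ c := by
    unfold ubar
    refine (norm_integral_le_integral_norm _).trans (le_of_eq ?_)
    rw [hc]
    congr 1
    funext y
    rw [norm_smul, Real.norm_of_nonneg]
    · rfl
    · exact hK0 (x - y)
  have h2 : ‖ubar φ g k x‖ ^ N ≤ c ^ N := pow_le_pow_left₀ (norm_nonneg _) h1 N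
  refine h2.trans ?_
  -- tangent line
  have htan : ∀ t : ℝ, 0 ≤ t → c ^ N + N * c ^ (N - 1) * (t - c) ≤ t ^ N := by
    intro t ht
    rcases Nat.eq_zero_or_pos N with hN | hN
    · simp [hN]
    rcases eq_or_lt_of_le hc0 with hc' | hc'
    · rw [← hc', zero_pow (by omega)]
      rcases Nat.lt_or_ge 1 N with h3 | h3
      · rw [zero_pow (by omega : N - 1 ≠ 0)]
        simp
        positivity
      · have : N = 1 := by omega
        rw [this]
        simp
    · have h3 := one_add_mul_le_pow (a := t / c - 1) (by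
        have : 0 ≤ t / c := by positivity
        linarith) N
      have h4 : 1 + (t / c - 1) = t / c := by ring
      rw [h4, div_pow, le_div_iff₀ (by positivity)] at h3
      refine le_trans (le_of_eq ?_) h3
      have h5 : c ^ N = c ^ (N - 1) * c := by
        rw [← pow_succ]
        congr 1
        omega
      rw [h5]
      field_simp
  have hi1 : Integrable (fun y => mlpK φ k (x - y) * ‖g y‖) := mlp_kerI hφ hg.norm k x
  have hi2 : Integrable (fun y => mlpK φ k (x - y) * ‖g y‖ ^ N) := mlp_kerI hφ hgN k x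
  have h6 : ∫ y, (mlpK φ k (x - y) * (c ^ N + N * c ^ (N - 1) * (‖g y‖ - c))) ≤
      ∫ y, mlpK φ k (x - y) * ‖g y‖ ^ N := by
    apply integral_mono _ hi2
    · intro y
      exact mul_le_mul_of_nonneg_left (htan _ (norm_nonneg _)) (hK0 _)
    · have h7 : (fun y => mlpK φ k (x - y) * (c ^ N + N * c ^ (N - 1) * (‖g y‖ - c))) =
          fun y => (c ^ N - N * c ^ (N - 1) * c) * mlpK φ k (x - y) +
            N * c ^ (N - 1) * (mlpK φ k (x - y) * ‖g y‖) := by
        funext y
        ring
      rw [h7]
      exact (hker.const_mul _).add (hi1.const_mul _)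
  refine le_trans (le_of_eq ?_) h6
  have h7 : (fun y => mlpK φ k (x - y) * (c ^ N + N * c ^ (N - 1) * (‖g y‖ - c))) =
      fun y => (c ^ N - N * c ^ (N - 1) * c) * mlpK φ k (x - y) +
        N * c ^ (N - 1) * (mlpK φ k (x - y) * ‖g y‖) := by
    funext y
    ring
  rw [h7, integral_add (hker.const_mul _) (hi1.const_mul _), integral_const_mul,
    integral_const_mul, hker1, ← hc]
  ring

/-- a.e. convergence for scalar functions -/
private theorem mlpH_ae (hφ : Moll φ Θ M) {H : E n → ℝ} (hH : Integrable H) :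
    ∀ᵐ x, Tendsto (fun k => mlpH φ H k x) atTop (𝓝 (H x)) := by
  set e : E 1 := EuclideanSpace.single 0 1 with he
  have hu : Integrable (fun y => H y • e) := hH.smul_const e
  filter_upwards [ubar_ae hφ (fun y => H y • e) hu] with x hx
  have h1 : ∀ k, ubar φ (fun y => H y • e) k x = mlpH φ H k x • e := by
    intro k
    unfold ubar mlpH
    rw [← integral_smul_const]
    congr 1
    funext y
    rw [smul_smul]
    rfl
  simp_rw [h1] at hx
  have h2 : Continuous fun v : E 1 => v 0 := by fun_prop
  have h3 := (h2.tendsto _).comp hx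
  have h4 : ∀ c : ℝ, (c • e) 0 = c := by
    intro c
    simp [he]
  simp only [Function.comp_def, h4] at h3
  exact h3

end

theorem ubar_Lp {n m : ℕ} (hn : 1 ≤ n) {φ : E n → ℝ} {Θ : Fin n → E n → ℝ} {M : ℝ}
    (hφ : Moll φ Θ M) (g : E n → E m) (hg : Integrable g) (hgn : MemLp g n) :
    Tendsto (fun k => ∫ x, ‖ubar φ g k x - g x‖ ^ n) atTop (𝓝 0) ∧
      ∀ k, MemLp (ubar φ g k) n := by
  have hn0 : (n : ℝ≥0∞) ≠ 0 := by
    exact_mod_cast (by omega : n ≠ 0)
  set H : E n → ℝ := fun x => ‖g x‖ ^ n with hHdef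
  have hH : Integrable H := by
    have h2 := hgn.integrable_norm_rpow hn0 (ENNReal.natCast_ne_top n)
    simpa using h2
  have hH0 : ∀ x, 0 ≤ H x := fun x => pow_nonneg (norm_nonneg _) n
  have hcont : ∀ k, Continuous (ubar φ g k) := fun k => (ubar_smooth hφ g hg k).continuous
  have hjen : ∀ k x, ‖ubar φ g k x‖ ^ n ≤ mlpH φ H k x := fun k x => mlp_jensen hφ g hg n hH k x
  have hmem : ∀ k, MemLp (ubar φ g k) n := by
    intro k
    rw [← integrable_norm_rpow_iff (hcont k).aestronglyMeasurable hn0 (ENNReal.natCast_ne_top n)]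
    have h1 : Integrable (fun x => ‖ubar φ g k x‖ ^ n) := by
      apply (mlpH_integrable hφ hH k).mono' ((hcont k).norm.pow n).aestronglyMeasurable
      apply Eventually.of_forall
      intro x
      show ‖‖ubar φ g k x‖ ^ n‖ ≤ mlpH φ H k x
      rw [Real.norm_of_nonneg (pow_nonneg (norm_nonneg _) n)]
      exact hjen k x
    simpa using h1
  refine ⟨?_, hmem⟩
  have hsub : ∀ k, Integrable (fun x => ‖ubar φ g k x - g x‖ ^ n) := by
    intro k
    have h1 : MemLp (fun x => ubar φ g k x - g x) n := (hmem k).sub hgn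
    have h2 := h1.integrable_norm_rpow hn0 (ENNReal.natCast_ne_top n)
    simpa using h2
  -- pointwise bound
  have hpt : ∀ k x, ‖ubar φ g k x - g x‖ ^ n ≤ 2 ^ n * H x + 2 ^ n * |mlpH φ H k x - H x| := by
    intro k x
    have h1 : ‖ubar φ g k x - g x‖ ≤ ‖ubar φ g k x‖ + ‖g x‖ := norm_sub_le _ _
    have h2 : ‖ubar φ g k x - g x‖ ^ n ≤ (‖ubar φ g k x‖ + ‖g x‖) ^ n :=
      pow_le_pow_left₀ (norm_nonneg _) h1 n
    have h3 := add_pow_le (norm_nonneg (ubar φ g k x)) (norm_nonneg (g x)) n
    have h4 := hjen k x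
    have h5 : mlpH φ H k x ≤ H x + |mlpH φ H k x - H x| := by
      have := le_abs_self (mlpH φ H k x - H x)
      linarith
    have h6 : (2 : ℝ) ^ (n - 1) * (‖ubar φ g k x‖ ^ n + ‖g x‖ ^ n) ≤
        2 ^ (n - 1) * (2 * H x + |mlpH φ H k x - H x|) := by
      apply mul_le_mul_of_nonneg_left _ (by positivity)
      have : ‖g x‖ ^ n = H x := rfl
      linarith
    have h7 : (2 : ℝ) ^ n = 2 ^ (n - 1) * 2 := by
      rw [← pow_succ]
      congr 1
      omega
    have h8 : 0 ≤ (2 : ℝ) ^ (n - 1) * |mlpH φ H k x - H x| := by positivity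
    rw [h7]
    nlinarith
  have hh0 : ∀ k x, 0 ≤ mlpH φ H k x := fun k x =>
    integral_nonneg fun y => mul_nonneg (mlpK_nonneg hφ k _) (hH0 y)
  have hhI := fun k => mlpH_integrable hφ hH k
  have hae := mlpH_ae hφ hH
  -- Scheffé
  have hsch : Tendsto (fun k => ∫ x, |mlpH φ H k x - H x|) atTop (𝓝 0) := by
    have h1 : ∀ k, ∫ x, |mlpH φ H k x - H x| = 2 * ∫ x, max (H x - mlpH φ H k x) 0 := by
      intro k
      have h2 : ∀ x, |mlpH φ H k x - H x| =
          (mlpH φ H k x - H x) + 2 * max (H x - mlpH φ H k x) 0 := by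
        intro x
        rcases le_total (mlpH φ H k x) (H x) with h | h
        · rw [abs_of_nonpos (by linarith), max_eq_left (by linarith)]
          ring
        · rw [abs_of_nonneg (by linarith), max_eq_right (by linarith)]
          ring
      simp_rw [h2]
      have h3 : Integrable (fun x => max (H x - mlpH φ H k x) 0) := (hH.sub (hhI k)).pos_part
      have h3' : Integrable (fun x => mlpH φ H k x - H x) := (hhI k).sub hH
      rw [integral_add h3' (h3.const_mul 2), integral_sub (hhI k) hH,
        mlpH_integral hφ hH k, sub_self, zero_add, integral_const_mul]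
    simp_rw [h1]
    have h4 : Tendsto (fun k => ∫ x, max (H x - mlpH φ H k x) 0) atTop (𝓝 (∫ _x : E n, (0 : ℝ))) := by
      apply tendsto_integral_of_dominated_convergence H
      · intro k
        exact ((hH.sub (hhI k)).pos_part).aestronglyMeasurable
      · exact hH
      · intro k
        apply Eventually.of_forall
        intro x
        rw [Real.norm_of_nonneg (le_max_right _ _)]
        exact max_le (by linarith [hh0 k x]) (hH0 x)
      · filter_upwards [hae] with x hx
        have h5 : Tendsto (fun k => max (H x - mlpH φ H k x) 0) atTop (𝓝 (max (H x - H x) 0)) :=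
          (tendsto_const_nhds.sub hx).max tendsto_const_nhds
        simpa using h5
    rw [integral_zero] at h4
    simpa using h4.const_mul 2
  -- the truncated part
  have hmin : Tendsto (fun k => ∫ x, min (‖ubar φ g k x - g x‖ ^ n) (2 ^ n * H x)) atTop
      (𝓝 (∫ _x : E n, (0 : ℝ))) := by
    apply tendsto_integral_of_dominated_convergence (fun x => 2 ^ n * H x)
    · intro k
      exact (hsub k).aestronglyMeasurable.inf (hH.const_mul _).aestronglyMeasurable
    · exact hH.const_mul _
    · intro k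
      apply Eventually.of_forall
      intro x
      have h1 : 0 ≤ 2 ^ n * H x := mul_nonneg (by positivity) (hH0 x)
      rw [Real.norm_of_nonneg (le_min (by positivity) h1)]
      exact min_le_right _ _
    · filter_upwards [ubar_ae hφ g hg] with x hx
      have h1 : Tendsto (fun k => ‖ubar φ g k x - g x‖ ^ n) atTop (𝓝 0) := by
        have h2 : Tendsto (fun k => ubar φ g k x - g x) atTop (𝓝 0) := by
          have := hx.sub_const (g x)
          rwa [sub_self] at this
        have h3 := (h2.norm).pow n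
        rwa [norm_zero, zero_pow (by omega)] at h3
      refine squeeze_zero (fun k => le_min (by positivity)
        (mul_nonneg (by positivity) (hH0 x))) (fun k => min_le_left _ _) h1
  rw [integral_zero] at hmin
  have hminI : ∀ k, Integrable (fun x => min (‖ubar φ g k x - g x‖ ^ n) (2 ^ n * H x)) := fun k =>
    (hsub k).inf (hH.const_mul _)
  have habsI : ∀ k, Integrable (fun x => |mlpH φ H k x - H x|) := fun k => ((hhI k).sub hH).abs
  have hle : ∀ k, ∫ x, ‖ubar φ g k x - g x‖ ^ n ≤
      (∫ x, min (‖ubar φ g k x - g x‖ ^ n) (2 ^ n * H x)) +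
        2 ^ n * ∫ x, |mlpH φ H k x - H x| := by
    intro k
    rw [← integral_const_mul, ← integral_add (hminI k) ((habsI k).const_mul _)]
    apply integral_mono (hsub k) ((hminI k).add ((habsI k).const_mul _))
    intro x
    have h1 := hpt k x
    have h2 : 0 ≤ (2 : ℝ) ^ n * |mlpH φ H k x - H x| := by positivity
    show ‖ubar φ g k x - g x‖ ^ n ≤ min (‖ubar φ g k x - g x‖ ^ n) (2 ^ n * H x) +
      2 ^ n * |mlpH φ H k x - H x|
    rcases le_total (‖ubar φ g k x - g x‖ ^ n) (2 ^ n * H x) with h3 | h3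
    · rw [min_eq_left h3]
      linarith
    · rw [min_eq_right h3]
      linarith
  have hlim : Tendsto (fun k => (∫ x, min (‖ubar φ g k x - g x‖ ^ n) (2 ^ n * H x)) +
        2 ^ n * ∫ x, |mlpH φ H k x - H x|) atTop (𝓝 0) := by
    simpa using hmin.add (hsch.const_mul (2 ^ n))
  exact squeeze_zero (fun k => integral_nonneg fun x => by positivity) hle hlim

end H60NH
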