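import Pool.Agent.H60.NH.NInt

/-!
# [H60 NH NAVG] Inserting an average over `w`, and removing it

`A5(w) = p2 k ^ (n-1) ∫_{ball w (5/p2 k)} f`, `r = 1/p2 k`, `c = vb n`.
`avg_in`: for every `x`: `1 = (c r^n)⁻¹ ∫⁻ 1_{w ∈ ball x r} dw`. For `w ∈ ball x r`: `aa f k x <= A5 w`
(`ball x (4r) ⊆ ball w (5r)`), `ball x r ⊆ ball w (2r)`, `x ∈ ball w (2r)`. Tonelli
(`lintegral_lintegral_swap`): the left side is
`∫⁻_x J'(x) aa(x) (p2^n ∫⁻_{y ∈ ball x r} F'(y)) (c r^n)⁻¹ ∫⁻_{w ∈ ball x r} 1
<= c⁻¹ ∫⁻_w A5(w) (p2^n ∫⁻_{x ∈ ball w (2r)} J'(x)) (p2^n ∫⁻_{y ∈ ball w (2r)} F'(y))`.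
`avg_out`: Tonelli and `A5(w) <= AA f k y` for `|w - y| < 2r` (`5 + 2 <= 8`):
`∫⁻_w A5(w) p2^n ∫⁻_{y ∈ ball w (2r)} h(y) = ∫⁻_y h(y) p2^n ∫⁻_{w ∈ ball y (2r)} A5(w)
<= ∫⁻_y h(y) p2^n c (2r)^n AA(y)`.
-/

set_option autoImplicit false

namespace H60NH

open MeasureTheory Metric Set Filter Topology
open scoped ENNReal NNReal ContDiff

/-- The average with the radius `5 2^-k`. -/
noncomputable def A5 {n : ℕ} (f : E n → ℝ) (k : ℕ) (x : E n) : ℝ :=
  p2 k ^ (n - 1) * ∫ y in ball x (5 / p2 k), f y

private theorem navg_p2 (k : ℕ) : 0 < p2 k := by unfold p2; positivity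

private theorem navg_ball_int {n : ℕ} {f : E n → ℝ} (hf : Integrable f) (r : ℝ) (hr : 0 < r) :
    Continuous (fun x : E n => ∫ y in ball x r, f y) := by
  have h1 : (fun x : E n => ∫ y in ball x r, f y) =
      fun x => ∫ y, (ball x r).indicator f y := by
    funext x'
    exact (integral_indicator measurableSet_ball).symm
  rw [h1, continuous_iff_continuousAt]
  intro x
  apply tendsto_integral_filter_of_dominated_convergence (fun y => ‖f y‖)
  · exact Eventually.of_forall fun x' => hf.aestronglyMeasurable.indicator measurableSet_ball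
  · exact Eventually.of_forall fun x' => ae_of_all _ fun y => norm_indicator_le_norm_self _ _
  · exact hf.norm
  · have hs : volume (sphere x r) = 0 := Measure.addHaar_sphere_of_ne_zero _ _ hr.ne'
    filter_upwards [measure_eq_zero_iff_ae_notMem.1 hs] with y hy
    have hc : ContinuousAt (fun x' : E n => dist y x') x :=
      (continuous_const.dist continuous_id).continuousAt
    rcases lt_trichotomy (dist y x) r with h | h | h
    · have h2 : ∀ᶠ x' in 𝓝 x, dist y x' < r := hc.eventually_lt continuousAt_const h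
      apply tendsto_nhds_of_eventually_eq
      filter_upwards [h2] with x' hx'
      rw [indicator_of_mem (mem_ball.2 hx'), indicator_of_mem (mem_ball.2 h)]
    · exact absurd (mem_sphere.2 h) hy
    · have h2 : ∀ᶠ x' in 𝓝 x, r < dist y x' := continuousAt_const.eventually_lt hc h
      apply tendsto_nhds_of_eventually_eq
      filter_upwards [h2] with x' hx'
      rw [indicator_of_notMem (fun h3 => absurd (mem_ball.1 h3) (not_lt.2 hx'.le)),
        indicator_of_notMem (fun h3 => absurd (mem_ball.1 h3) (not_lt.2 h.le))]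

theorem A5_meas {n : ℕ} (hn : 1 ≤ n) {f : E n → ℝ} (hf : Integrable f) (k : ℕ) :
    Measurable (A5 f k) :=
  (continuous_const.mul (navg_ball_int hf _ (div_pos (by norm_num) (navg_p2 k)))).measurable

private theorem navg_mono {n : ℕ} {f : E n → ℝ} {ε : ℝ} (hf : Mor f ε) (k : ℕ) {x w : E n}
    {a b : ℝ} (h : ball x a ⊆ ball w b) :
    p2 k ^ (n - 1) * ∫ y in ball x a, f y ≤ p2 k ^ (n - 1) * ∫ y in ball w b, f y := by
  have hp := navg_p2 k
  refine mul_le_mul_of_nonneg_left ?_ (by positivity)
  exact setIntegral_mono_set hf.int.integrableOn (Filter.Eventually.of_forall hf.nonneg)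
    (Filter.Eventually.of_forall h)

private theorem navg_S {n : ℕ} (r : ℝ) :
    MeasurableSet {p : E n × E n | dist p.2 p.1 < r} :=
  (isOpen_lt (continuous_snd.dist continuous_fst) continuous_const).measurableSet

private theorem navg_lint_meas {n : ℕ} (F' : E n → ℝ≥0∞) (hF : Measurable F') (r : ℝ) :
    Measurable fun w : E n => ∫⁻ y in ball w r, F' y := by
  have h1 : (fun w : E n => ∫⁻ y in ball w r, F' y) = fun w =>
      ∫⁻ y, {p : E n × E n | dist p.2 p.1 < r}.indicator (fun p => F' p.2) (w, y) := by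
    funext w
    rw [← lintegral_indicator measurableSet_ball]
    rfl
  rw [h1]
  exact ((hF.comp measurable_snd).indicator (navg_S r)).lintegral_prod_right'

theorem avg_in {n : ℕ} (hn : 1 ≤ n) {f : E n → ℝ} {ε : ℝ} (hf : Mor f ε) (k : ℕ)
    (J' F' : E n → ℝ≥0∞) (hJ : Measurable J') (hF : Measurable F') :
    ∫⁻ x, J' x * ENNReal.ofReal (aa f k x) *
        (ENNReal.ofReal (p2 k ^ n) * ∫⁻ y in ball x (1 / p2 k), F' y) ≤
      ENNReal.ofReal (1 / vb n) * ∫⁻ w, ENNReal.ofReal (A5 f k w) *
        ((ENNReal.ofReal (p2 k ^ n) * ∫⁻ x in ball w (2 / p2 k), J' x) *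
          (ENNReal.ofReal (p2 k ^ n) * ∫⁻ y in ball w (2 / p2 k), F' y)) := by
  have hp := navg_p2 k
  have hvb := vb_pos n
  set r : ℝ := 1 / p2 k with hr
  have hr0 : 0 < r := by positivity
  have h2r : 2 / p2 k = 2 * r := by rw [hr]; ring
  have h4r : 4 / p2 k = 4 * r := by rw [hr]; ring
  have h5r : 5 / p2 k = 5 * r := by rw [hr]; ring
  rw [h2r]
  set P : ℝ≥0∞ := ENNReal.ofReal (p2 k ^ n) with hP
  have hone : ∀ x : E n, ENNReal.ofReal (1 / vb n) * (P * volume (ball x r)) = 1 := by
    intro x
    rw [vol_ball x r hr0, hP, ← ENNReal.ofReal_mul (by positivity),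
      ← ENNReal.ofReal_mul (by positivity), ← ENNReal.ofReal_one]
    congr 1
    rw [hr]
    field_simp
    rw [← mul_pow, mul_one_div_cancel hp.ne', one_pow]
  -- the kernel
  set S : Set (E n × E n) := {p | dist p.2 p.1 < r} with hS
  let K : E n → E n → ℝ≥0∞ := fun x w => S.indicator
    (fun p => J' p.1 * ((P * ENNReal.ofReal (A5 f k p.2)) *
      (P * ∫⁻ y in ball p.2 (2 * r), F' y))) (x, w)
  have hKm : Measurable (Function.uncurry K) := by
    refine Measurable.indicator ?_ (navg_S r)
    refine (hJ.comp measurable_fst).mul (Measurable.mul ?_ ?_)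
    · exact measurable_const.mul
        (ENNReal.measurable_ofReal.comp ((A5_meas hn hf.int k).comp measurable_snd))
    · exact measurable_const.mul ((navg_lint_meas F' hF (2 * r)).comp measurable_snd)
  have h1 : ∀ x, J' x * ENNReal.ofReal (aa f k x) * (P * ∫⁻ y in ball x r, F' y) ≤
      ENNReal.ofReal (1 / vb n) * ∫⁻ w, K x w := by
    intro x
    have h2 : ∫⁻ _ in ball x r, J' x * ((P * ENNReal.ofReal (aa f k x)) *
        (P * ∫⁻ y in ball x r, F' y)) ≤ ∫⁻ w, K x w := by
      rw [← lintegral_indicator measurableSet_ball]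
      refine lintegral_mono fun w => ?_
      by_cases hw : w ∈ ball x r
      · rw [indicator_of_mem hw]
        have hK : K x w = J' x * ((P * ENNReal.ofReal (A5 f k w)) *
            (P * ∫⁻ y in ball w (2 * r), F' y)) :=
          indicator_of_mem (show (x, w) ∈ S from hw) _
        rw [hK]
        have hw' : dist w x < r := hw
        gcongr
        · unfold aa A5
          rw [h4r, h5r]
          refine navg_mono hf k fun z hz => ?_
          rw [mem_ball] at hz ⊢
          calc dist z w ≤ dist z x + dist x w := dist_triangle _ _ _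
            _ < 5 * r := by rw [dist_comm x w]; linarith
        · intro z hz
          rw [mem_ball] at hz ⊢
          calc dist z w ≤ dist z x + dist x w := dist_triangle _ _ _
            _ < 2 * r := by rw [dist_comm x w]; linarith
      · rw [indicator_of_notMem hw]
        exact bot_le
    calc J' x * ENNReal.ofReal (aa f k x) * (P * ∫⁻ y in ball x r, F' y)
        = (ENNReal.ofReal (1 / vb n) * (P * volume (ball x r))) *
          (J' x * ENNReal.ofReal (aa f k x) * (P * ∫⁻ y in ball x r, F' y)) := by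
          rw [hone x, one_mul]
      _ = ENNReal.ofReal (1 / vb n) * ∫⁻ _ in ball x r, J' x *
          ((P * ENNReal.ofReal (aa f k x)) * (P * ∫⁻ y in ball x r, F' y)) := by
          rw [lintegral_const, Measure.restrict_apply_univ]
          ring
      _ ≤ ENNReal.ofReal (1 / vb n) * ∫⁻ w, K x w := by gcongr
  calc ∫⁻ x, J' x * ENNReal.ofReal (aa f k x) * (P * ∫⁻ y in ball x r, F' y)
      ≤ ∫⁻ x, ENNReal.ofReal (1 / vb n) * ∫⁻ w, K x w := lintegral_mono h1
    _ = ENNReal.ofReal (1 / vb n) * ∫⁻ x, ∫⁻ w, K x w :=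
        lintegral_const_mul' _ _ ENNReal.ofReal_ne_top
    _ = ENNReal.ofReal (1 / vb n) * ∫⁻ w, ∫⁻ x, K x w := by
        rw [lintegral_lintegral_swap hKm.aemeasurable]
    _ ≤ ENNReal.ofReal (1 / vb n) * ∫⁻ w, ENNReal.ofReal (A5 f k w) *
        ((P * ∫⁻ x in ball w (2 * r), J' x) * (P * ∫⁻ y in ball w (2 * r), F' y)) := by
        refine mul_le_mul_right (lintegral_mono fun w => ?_) _
        have h3 : ∀ x, K x w = (ball w r).indicator (fun x => J' x *
            ((P * ENNReal.ofReal (A5 f k w)) * (P * ∫⁻ y in ball w (2 * r), F' y))) x := by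
          intro x
          by_cases hx : x ∈ ball w r
          · rw [indicator_of_mem hx]
            exact indicator_of_mem (show (x, w) ∈ S by
              rw [hS, mem_ofPred_eq, dist_comm]; exact hx) _
          · rw [indicator_of_notMem hx]
            exact indicator_of_notMem (show (x, w) ∉ S from fun h => hx (by
              rw [hS, mem_ofPred_eq, dist_comm] at h; exact h)) _
        simp_rw [h3]
        rw [lintegral_indicator measurableSet_ball, lintegral_mul_const _ hJ]
        have h4 : ∫⁻ x in ball w r, J' x ≤ ∫⁻ x in ball w (2 * r), J' x :=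
          lintegral_mono_set (ball_subset_ball (by linarith))
        calc (∫⁻ x in ball w r, J' x) *
              ((P * ENNReal.ofReal (A5 f k w)) * (P * ∫⁻ y in ball w (2 * r), F' y))
            ≤ (∫⁻ x in ball w (2 * r), J' x) *
              ((P * ENNReal.ofReal (A5 f k w)) * (P * ∫⁻ y in ball w (2 * r), F' y)) := by
              gcongr
          _ = _ := by ring

theorem avg_out {n : ℕ} (hn : 1 ≤ n) {f : E n → ℝ} {ε : ℝ} (hf : Mor f ε) (k : ℕ)
    (h : E n → ℝ≥0∞) (hh : Measurable h) :
    ∫⁻ w, ENNReal.ofReal (A5 f k w) *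
        (ENNReal.ofReal (p2 k ^ n) * ∫⁻ y in ball w (2 / p2 k), h y) ≤
      ENNReal.ofReal (2 ^ n * vb n) * ∫⁻ y, h y * ENNReal.ofReal (AA f k y) := by
  have hp := navg_p2 k
  have hvb := vb_pos n
  set r : ℝ := 1 / p2 k with hr
  have hr0 : 0 < r := by positivity
  have h2r : 2 / p2 k = 2 * r := by rw [hr]; ring
  have h5r : 5 / p2 k = 5 * r := by rw [hr]; ring
  have h8r : 8 / p2 k = 8 * r := by rw [hr]; ring
  rw [h2r]
  set P : ℝ≥0∞ := ENNReal.ofReal (p2 k ^ n) with hP
  set S : Set (E n × E n) := {p | dist p.2 p.1 < 2 * r} with hS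
  let K : E n → E n → ℝ≥0∞ := fun w y => S.indicator
    (fun p => (P * ENNReal.ofReal (A5 f k p.1)) * h p.2) (w, y)
  have hKm : Measurable (Function.uncurry K) := by
    refine Measurable.indicator ?_ (navg_S (2 * r))
    refine Measurable.mul ?_ (hh.comp measurable_snd)
    exact measurable_const.mul
      (ENNReal.measurable_ofReal.comp ((A5_meas hn hf.int k).comp measurable_fst))
  have h1 : ∀ w, ENNReal.ofReal (A5 f k w) * (P * ∫⁻ y in ball w (2 * r), h y) =
      ∫⁻ y, K w y := by
    intro w
    have h2 : ∀ y, K w y = (ball w (2 * r)).indicator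
        (fun y => (P * ENNReal.ofReal (A5 f k w)) * h y) y := by
      intro y
      by_cases hy : y ∈ ball w (2 * r)
      · rw [indicator_of_mem hy]
        exact indicator_of_mem (show (w, y) ∈ S from hy) _
      · rw [indicator_of_notMem hy]
        exact indicator_of_notMem (show (w, y) ∉ S from hy) _
    simp_rw [h2]
    rw [lintegral_indicator measurableSet_ball,
      lintegral_const_mul' _ _ (ENNReal.mul_ne_top ENNReal.ofReal_ne_top ENNReal.ofReal_ne_top)]
    ring
  simp_rw [h1]
  rw [lintegral_lintegral_swap hKm.aemeasurable,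
    ← lintegral_const_mul' _ _ ENNReal.ofReal_ne_top]
  refine lintegral_mono fun y => ?_
  have h3 : ∀ w, K w y ≤ (ball y (2 * r)).indicator
      (fun _ => (P * ENNReal.ofReal (AA f k y)) * h y) w := by
    intro w
    by_cases hw : w ∈ ball y (2 * r)
    · rw [indicator_of_mem hw]
      have hK : K w y = (P * ENNReal.ofReal (A5 f k w)) * h y :=
        indicator_of_mem (show (w, y) ∈ S by rw [hS, mem_ofPred_eq, dist_comm]; exact hw) _
      rw [hK]
      have hw' : dist w y < 2 * r := hw
      gcongr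
      unfold AA A5
      rw [h5r, h8r]
      refine navg_mono hf k fun z hz => ?_
      rw [mem_ball] at hz ⊢
      calc dist z y ≤ dist z w + dist w y := dist_triangle _ _ _
        _ < 8 * r := by linarith
    · rw [indicator_of_notMem hw]
      have hK : K w y = 0 := indicator_of_notMem (show (w, y) ∉ S from fun h => hw (by
        rw [hS, mem_ofPred_eq, dist_comm] at h; exact h)) _
      rw [hK]
  refine (lintegral_mono h3).trans ?_
  rw [lintegral_indicator measurableSet_ball, lintegral_const, Measure.restrict_apply_univ,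
    vol_ball y (2 * r) (by positivity)]
  have h4 : P * ENNReal.ofReal (vb n * (2 * r) ^ n) = ENNReal.ofReal (2 ^ n * vb n) := by
    rw [hP, ← ENNReal.ofReal_mul (by positivity)]
    congr 1
    rw [hr]
    field_simp
    rw [← mul_pow]
    congr 1
    field_simp
  have h5 : (P * ENNReal.ofReal (AA f k y)) * h y * ENNReal.ofReal (vb n * (2 * r) ^ n) =
      (P * ENNReal.ofReal (vb n * (2 * r) ^ n)) * (h y * ENNReal.ofReal (AA f k y)) := by
    ring
  rw [h5, h4]

end H60NH
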