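import Pool.Agent.H60.NH.NExp

/-!
# [H60 NH NHOL] Hölder's inequality with exponential weights

Let `θ₀, C₀` be those of `NN_exp`, `θ₁ = θ₀ / q`. Write
`g e^{t N} = (g e^{-κ N/p}) e^{(t + κ/p) N}` (`N = NN f K k`), Hölder
(`ENNReal.lintegral_mul_le_Lp_mul_Lq`):
`∫⁻ g e^{tN} <= (∫⁻ g^p e^{-κN})^(1/p) (∫⁻ e^{q (t + κ/p) N})^(1/q)`, where `q (t + κ/p) ε <= q (t + κ) ε <= θ₀`, so
the last factor is at most `(C₀ / p2 k ^ n)^(1/q)` (`NN_exp`, the lintegral of a nonnegative continuous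
function on a ball is the `ofReal` of the integral). Multiply by `p2 k ^ n = (p2 k ^ n)^(1/p) (p2 k ^ n)^(1/q)`.
-/

set_option autoImplicit false

namespace H60NH

open MeasureTheory Metric Set Filter Topology
open scoped ENNReal NNReal ContDiff

theorem hol_exp (n : ℕ) (hn : 1 ≤ n) (p q : ℝ) (hpq : p.HolderConjugate q) :
    ∃ θ₁ C₁ : ℝ, 0 < θ₁ ∧ 1 ≤ C₁ ∧ ∀ (f : E n → ℝ) (ε : ℝ), Mor f ε →
      ∀ t κ : ℝ, 0 ≤ t → 0 ≤ κ → (t + κ) * ε ≤ θ₁ → ∀ (K k : ℕ) (w : E n) (g : E n → ℝ≥0∞),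
      Measurable g →
      ENNReal.ofReal (p2 k ^ n) *
          ∫⁻ y in ball w (2 / p2 k), g y * ENNReal.ofReal (Real.exp (t * NN f K k y)) ≤
        ENNReal.ofReal C₁ * (ENNReal.ofReal (p2 k ^ n) *
          ∫⁻ y in ball w (2 / p2 k), g y ^ p *
            ENNReal.ofReal (Real.exp (-(κ * NN f K k y)))) ^ (1 / p) := by
  obtain ⟨θ₀, C₀, hθ₀, hC₀, hexp⟩ := NN_exp n hn
  have hp0 : 0 < p := hpq.pos
  have hq0 : 0 < q := hpq.symm.pos
  have hp1 : 1 ≤ p := hpq.lt.le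
  have hq1 : 1 ≤ q := hpq.symm.lt.le
  refine ⟨θ₀ / q, C₀, by positivity, hC₀, ?_⟩
  intro f ε hf t κ ht hκ htk K k w g hg
  have hcont := NN_cont hn hf.int K k
  have hp2 : 0 < p2 k ^ n := by unfold p2; positivity
  obtain ⟨P, hP⟩ : ∃ P, P = ENNReal.ofReal (p2 k ^ n) := ⟨_, rfl⟩
  have hP0 : P ≠ 0 := by rw [hP]; simpa using hp2
  have hPt : P ≠ ⊤ := by rw [hP]; exact ENNReal.ofReal_ne_top
  obtain ⟨F, hF⟩ : ∃ F : E n → ℝ≥0∞, ∀ y, F y =
    g y * ENNReal.ofReal (Real.exp (-(κ * NN f K k y) / p)) := ⟨_, fun _ => rfl⟩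
  obtain ⟨H, hH⟩ : ∃ H : E n → ℝ≥0∞, ∀ y, H y =
    ENNReal.ofReal (Real.exp ((t + κ / p) * NN f K k y)) := ⟨_, fun _ => rfl⟩
  have hFm : Measurable F := by
    have e : F = fun y => g y * ENNReal.ofReal (Real.exp (-(κ * NN f K k y) / p)) := funext hF
    rw [e]
    refine hg.mul (Continuous.measurable ?_)
    exact ENNReal.continuous_ofReal.comp
      (Real.continuous_exp.comp ((continuous_const.mul hcont).neg.div_const _))
  have hHm : Measurable H := by
    have e : H = fun y => ENNReal.ofReal (Real.exp ((t + κ / p) * NN f K k y)) := funext hH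
    rw [e]
    refine Continuous.measurable ?_
    exact ENNReal.continuous_ofReal.comp (Real.continuous_exp.comp (continuous_const.mul hcont))
  have hFH : ∀ y, g y * ENNReal.ofReal (Real.exp (t * NN f K k y)) = (F * H) y := by
    intro y
    rw [Pi.mul_apply, hF, hH, mul_assoc, ← ENNReal.ofReal_mul (Real.exp_pos _).le, ← Real.exp_add]
    congr 3
    field_simp
    ring
  have hFp : ∀ y, F y ^ p = g y ^ p * ENNReal.ofReal (Real.exp (-(κ * NN f K k y))) := by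
    intro y
    rw [hF, ENNReal.mul_rpow_of_nonneg _ _ hp0.le, ENNReal.ofReal_rpow_of_pos (Real.exp_pos _),
      ← Real.exp_mul]
    congr 3
    field_simp
  have hHq : ∀ y, H y ^ q = ENNReal.ofReal (Real.exp ((q * (t + κ / p)) * NN f K k y)) := by
    intro y
    rw [hH, ENNReal.ofReal_rpow_of_pos (Real.exp_pos _), ← Real.exp_mul]
    congr 2
    ring
  have hHold := ENNReal.lintegral_mul_le_Lp_mul_Lq (volume.restrict (ball w (2 / p2 k))) hpq
    hFm.aemeasurable hHm.aemeasurable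
  simp_rw [hFH]
  simp_rw [← hFp]
  simp_rw [hHq] at hHold
  rw [← hP]
  have hHint : ∫⁻ y in ball w (2 / p2 k),
      ENNReal.ofReal (Real.exp ((q * (t + κ / p)) * NN f K k y)) ≤
      ENNReal.ofReal (C₀ / p2 k ^ n) := by
    have hc2 : Continuous (fun y => Real.exp ((q * (t + κ / p)) * NN f K k y)) :=
      Real.continuous_exp.comp (continuous_const.mul hcont)
    rw [← ofReal_integral_eq_lintegral_ofReal (nint_cont hc2 w _)
      (Filter.Eventually.of_forall fun y => (Real.exp_pos _).le)]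
    refine ENNReal.ofReal_le_ofReal (hexp f ε hf _ (by positivity) ?_ K k w)
    have h1 : κ / p ≤ κ := div_le_self hκ hp1
    calc q * (t + κ / p) * ε ≤ q * (t + κ) * ε := by
          have := hf.eps
          gcongr
      _ = q * ((t + κ) * ε) := by ring
      _ ≤ q * (θ₀ / q) := mul_le_mul_of_nonneg_left htk hq0.le
      _ = θ₀ := by field_simp
  obtain ⟨A, hA⟩ : ∃ A, A = ∫⁻ y in ball w (2 / p2 k), F y ^ p := ⟨_, rfl⟩
  rw [← hA] at hHold ⊢
  have hPe : P = P ^ (1 / p) * P ^ (1 / q) := by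
    rw [← ENNReal.rpow_add _ _ hP0 hPt]
    have : 1 / p + 1 / q = 1 := by
      rw [one_div, one_div]; exact hpq.inv_add_inv_eq_one
    rw [this, ENNReal.rpow_one]
  have hC : P * ENNReal.ofReal (C₀ / p2 k ^ n) = ENNReal.ofReal C₀ := by
    rw [hP, ← ENNReal.ofReal_mul hp2.le]
    congr 1
    field_simp
  have h1p : 0 ≤ 1 / p := by positivity
  have h1q : 0 ≤ 1 / q := by positivity
  calc P * ∫⁻ y in ball w (2 / p2 k), (F * H) y
      ≤ P * (A ^ (1 / p) * (ENNReal.ofReal (C₀ / p2 k ^ n)) ^ (1 / q)) := by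
        refine mul_le_mul_right (hHold.trans ?_) _
        exact mul_le_mul_right (ENNReal.rpow_le_rpow hHint h1q) _
    _ = (P ^ (1 / p) * P ^ (1 / q)) * (A ^ (1 / p) * (ENNReal.ofReal (C₀ / p2 k ^ n)) ^ (1 / q)) := by
        rw [← hPe]
    _ = (P ^ (1 / q) * (ENNReal.ofReal (C₀ / p2 k ^ n)) ^ (1 / q)) * (P ^ (1 / p) * A ^ (1 / p)) := by
        ring
    _ = (ENNReal.ofReal C₀) ^ (1 / q) * (P * A) ^ (1 / p) := by
        rw [← ENNReal.mul_rpow_of_nonneg _ _ h1q, hC, ← ENNReal.mul_rpow_of_nonneg _ _ h1p]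
    _ ≤ ENNReal.ofReal C₀ * (P * A) ^ (1 / p) := by
        refine mul_le_mul_left ?_ _
        have h2 : (1 : ℝ≥0∞) ≤ ENNReal.ofReal C₀ := by
          rw [← ENNReal.ofReal_one]; exact ENNReal.ofReal_le_ofReal hC₀
        calc (ENNReal.ofReal C₀) ^ (1 / q) ≤ (ENNReal.ofReal C₀) ^ (1 : ℝ) :=
              ENNReal.rpow_le_rpow_of_exponent_le h2 (by rw [div_le_one hq0]; exact hq1)
          _ = ENNReal.ofReal C₀ := ENNReal.rpow_one _

end H60NH
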