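import Pool.Agent.H60.NH.NAvg
import Pool.Agent.H60.NH.NHol

/-!
# [H60 NH NBIL] The bilinear estimate

Let `θ₁', C₁'` work in `hol_exp` for `(p,q)` and for `(q,p)`; `θ₁ = θ₁'/2`, `κ = θ₁/ε` (`ε > 0`), so
`(t + κ) ε <= θ₁'`. With `J' = J e^{t N_k}`, `F' = F e^{t N_k}`: by `avg_in` and `hol_exp` (twice), for each `k`
`T_k <= C ∫⁻ A5_k(w) U_k(w)^(1/q) W_k(w)^(1/p) dw`,
`U_k(w) = p2^n ∫⁻_{ball w (2/p2 k)} J^q e^{-κ N_k}`, `W_k(w) = p2^n ∫⁻_{ball w (2/p2 k)} F^p e^{-κ N_k}`.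
Hölder in `w` for the measure `A5_k(w) dw` and then for the sum over `k`
(`ENNReal.lintegral_mul_le_Lp_mul_Lq`, `ENNReal.inner_le_Lp_mul_Lq`), or at once on the product:
`∑_k T_k <= C (∑_k ∫⁻ A5_k U_k)^(1/q) (∑_k ∫⁻ A5_k W_k)^(1/p)`. By `avg_out`
`∑_k ∫⁻ A5_k U_k <= C ∑_k ∫⁻ J^q e^{-κ N_k} AA_k = C ∫⁻ J^q ∑_k AA_k e^{-κ N_k} <= (C/κ) ∫⁻ J^q` by `tel_sum`
(with `a_j = AA f j y`; `ENNReal.ofReal` of a finite sum), similarly for `F`.
The product of `(C/κ)^(1/q)` and `(C/κ)^(1/p)` is `C/κ = C ε/θ₁`.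
-/

set_option autoImplicit false

namespace H60NH

open MeasureTheory Metric Set Filter Topology
open scoped ENNReal NNReal ContDiff

private theorem meas_ball {n : ℕ} (h : E n → ℝ≥0∞) (hh : Measurable h) (r : ℝ) :
    Measurable fun w : E n => ∫⁻ y in ball w r, h y := by
  set S : Set (E n × E n) := {p | dist p.2 p.1 < r} with hS
  have hSo : IsOpen S := isOpen_lt (continuous_snd.dist continuous_fst) continuous_const
  have hm : Measurable (S.indicator fun p : E n × E n => h p.2) :=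
    (hh.comp measurable_snd).indicator hSo.measurableSet
  have e : (fun w : E n => ∫⁻ y in ball w r, h y) =
      fun w => ∫⁻ y, S.indicator (fun p : E n × E n => h p.2) (w, y) := by
    funext w
    rw [← lintegral_indicator measurableSet_ball]
    refine lintegral_congr fun y => ?_
    by_cases hy : y ∈ ball w r
    · rw [indicator_of_mem hy, indicator_of_mem (show (w, y) ∈ S from hy)]
    · rw [indicator_of_notMem hy, indicator_of_notMem (show (w, y) ∉ S from hy)]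
  rw [e]
  exact hm.lintegral_prod_right'

private theorem hsum {K : ℕ} (X Y : ℕ → ℝ≥0∞) {p q : ℝ} (hpq : p.HolderConjugate q)
    (hp : 0 < p) (hq : 0 < q) :
    ∑ k ∈ Finset.range K, X k ^ (1 / q) * Y k ^ (1 / p) ≤
      (∑ k ∈ Finset.range K, X k) ^ (1 / q) * (∑ k ∈ Finset.range K, Y k) ^ (1 / p) := by
  have h := ENNReal.inner_le_Lp_mul_Lq (Finset.range K) (fun k => X k ^ (1 / q))
    (fun k => Y k ^ (1 / p)) hpq.symm
  have e1 : ∀ k, (X k ^ (1 / q)) ^ q = X k := fun k => by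
    rw [← ENNReal.rpow_mul, one_div, inv_mul_cancel₀ hq.ne', ENNReal.rpow_one]
  have e2 : ∀ k, (Y k ^ (1 / p)) ^ p = Y k := fun k => by
    rw [← ENNReal.rpow_mul, one_div, inv_mul_cancel₀ hp.ne', ENNReal.rpow_one]
  simp only [e1, e2] at h
  exact h

private theorem side {n : ℕ} (hn : 1 ≤ n) {f : E n → ℝ} {ε : ℝ} (hf : Mor f ε) (κ : ℝ)
    (hκ : 0 < κ) (K : ℕ) (h : E n → ℝ≥0∞) (hh : Measurable h) :
    ∑ k ∈ Finset.range K, ∫⁻ w, ENNReal.ofReal (A5 f k w) *
        (ENNReal.ofReal (p2 k ^ n) * ∫⁻ y in ball w (2 / p2 k),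
          h y * ENNReal.ofReal (Real.exp (-(κ * NN f K k y)))) ≤
      ENNReal.ofReal (2 ^ n * vb n) * ENNReal.ofReal (1 / κ) * ∫⁻ y, h y := by
  have hN : ∀ k, Measurable (NN f K k) := fun k => (NN_cont hn hf.int K k).measurable
  have hA : ∀ k, Measurable (AA f k) := fun k => (AA_cont hn hf.int k).1.measurable
  have h1 : ∀ k ∈ Finset.range K, ∫⁻ w, ENNReal.ofReal (A5 f k w) *
        (ENNReal.ofReal (p2 k ^ n) * ∫⁻ y in ball w (2 / p2 k),
          h y * ENNReal.ofReal (Real.exp (-(κ * NN f K k y)))) ≤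
      ENNReal.ofReal (2 ^ n * vb n) *
        ∫⁻ y, h y * ENNReal.ofReal (AA f k y * Real.exp (-(κ * NN f K k y))) := by
    intro k _
    have hm : Measurable fun y => h y * ENNReal.ofReal (Real.exp (-(κ * NN f K k y))) :=
      hh.mul (ENNReal.measurable_ofReal.comp
        (Real.measurable_exp.comp (((hN k).const_mul κ).neg)))
    refine (avg_out hn hf k _ hm).trans ?_
    refine mul_le_mul_right (lintegral_mono fun y => ?_) _
    rw [ENNReal.ofReal_mul (AA_nonneg hf k y).1, mul_assoc,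
      mul_comm (ENNReal.ofReal (Real.exp (-(κ * NN f K k y))))]
  refine (Finset.sum_le_sum h1).trans ?_
  rw [← Finset.mul_sum, ← lintegral_finsetSum, mul_assoc]
  · refine mul_le_mul_right ?_ _
    rw [← lintegral_const_mul' _ _ ENNReal.ofReal_ne_top]
    refine lintegral_mono fun y => ?_
    rw [← Finset.mul_sum, mul_comm]
    refine mul_le_mul_left ?_ _
    rw [← ENNReal.ofReal_sum_of_nonneg fun k _ =>
      mul_nonneg (AA_nonneg hf k y).1 (Real.exp_pos _).le]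
    exact ENNReal.ofReal_le_ofReal
      (tel_sum (fun j => AA f j y) (fun j => (AA_nonneg hf j y).1) κ hκ K)
  · intro k _
    exact hh.mul (ENNReal.measurable_ofReal.comp
      ((hA k).mul (Real.measurable_exp.comp (((hN k).const_mul κ).neg))))

theorem bilinear (n : ℕ) (hn : 1 ≤ n) (p q : ℝ) (hpq : p.HolderConjugate q) :
    ∃ θ₁ C₁ : ℝ, 0 < θ₁ ∧ 1 ≤ C₁ ∧ ∀ (f : E n → ℝ) (ε : ℝ), 0 < ε → Mor f ε →
      ∀ t : ℝ, 0 ≤ t → t * ε ≤ θ₁ → ∀ (K : ℕ) (J F : E n → ℝ≥0∞), Measurable J → Measurable F →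
      ∑ k ∈ Finset.range K, ∫⁻ x, (J x * ENNReal.ofReal (Real.exp (t * NN f K k x))) *
          ENNReal.ofReal (aa f k x) *
          (ENNReal.ofReal (p2 k ^ n) * ∫⁻ y in ball x (1 / p2 k),
            F y * ENNReal.ofReal (Real.exp (t * NN f K k y))) ≤
        ENNReal.ofReal (C₁ * ε) * (∫⁻ x, J x ^ q) ^ (1 / q) * (∫⁻ x, F x ^ p) ^ (1 / p) := by
  have hvb := vb_pos n
  have hp : 0 < p := zero_lt_one.trans hpq.lt
  have hq : 0 < q := zero_lt_one.trans hpq.symm.lt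
  have hip : 0 ≤ 1 / p := by positivity
  have hiq : 0 ≤ 1 / q := by positivity
  have hsum1 : 1 / q + 1 / p = 1 := by
    have := hpq.inv_add_inv_eq_one
    rw [one_div, one_div]
    linarith
  obtain ⟨θa, Ca, hθa, hCa, Ha⟩ := hol_exp n hn q p hpq.symm
  obtain ⟨θb, Cb, hθb, hCb, Hb⟩ := hol_exp n hn p q hpq
  set θ : ℝ := min θa θb / 2 with hθ
  have hθ0 : 0 < θ := by
    have : 0 < min θa θb := lt_min hθa hθb
    positivity
  refine ⟨θ, max 1 (Ca * Cb * 2 ^ n / θ), hθ0, le_max_left _ _, ?_⟩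
  intro f ε hε hf t ht htε K J F hJ hF
  set κ : ℝ := θ / ε with hκ
  have hκ0 : 0 < κ := by positivity
  have hκε : (t + κ) * ε ≤ min θa θb := by
    have : κ * ε = θ := by rw [hκ]; field_simp
    rw [add_mul, this]
    have : min θa θb = θ + θ := by rw [hθ]; ring
    linarith
  have hN : ∀ k, Measurable (NN f K k) := fun k => (NN_cont hn hf.int K k).measurable
  set U : ℕ → E n → ℝ≥0∞ := fun k w => ENNReal.ofReal (p2 k ^ n) * ∫⁻ y in ball w (2 / p2 k),
    J y ^ q * ENNReal.ofReal (Real.exp (-(κ * NN f K k y))) with hU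
  set W : ℕ → E n → ℝ≥0∞ := fun k w => ENNReal.ofReal (p2 k ^ n) * ∫⁻ y in ball w (2 / p2 k),
    F y ^ p * ENNReal.ofReal (Real.exp (-(κ * NN f K k y))) with hW
  have hexp : ∀ k, Measurable fun y => ENNReal.ofReal (Real.exp (-(κ * NN f K k y))) := fun k =>
    ENNReal.measurable_ofReal.comp (Real.measurable_exp.comp (((hN k).const_mul κ).neg))
  have hexp' : ∀ k, Measurable fun y => ENNReal.ofReal (Real.exp (t * NN f K k y)) := fun k =>
    ENNReal.measurable_ofReal.comp (Real.measurable_exp.comp ((hN k).const_mul t))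
  have hUm : ∀ k, Measurable (U k) := fun k =>
    (meas_ball _ ((hJ.pow_const q).mul (hexp k)) _).const_mul _
  have hWm : ∀ k, Measurable (W k) := fun k =>
    (meas_ball _ ((hF.pow_const p).mul (hexp k)) _).const_mul _
  have hA5 : ∀ k, Measurable fun w => ENNReal.ofReal (A5 f k w) := fun k =>
    ENNReal.measurable_ofReal.comp (A5_meas hn hf.int k)
  set c : ℝ≥0∞ := ENNReal.ofReal (1 / vb n) * (ENNReal.ofReal Ca * ENNReal.ofReal Cb) with hc
  -- one level
  have one : ∀ k ∈ Finset.range K, ∫⁻ x, (J x * ENNReal.ofReal (Real.exp (t * NN f K k x))) *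
          ENNReal.ofReal (aa f k x) *
          (ENNReal.ofReal (p2 k ^ n) * ∫⁻ y in ball x (1 / p2 k),
            F y * ENNReal.ofReal (Real.exp (t * NN f K k y))) ≤
      c * ((∫⁻ w, ENNReal.ofReal (A5 f k w) * U k w) ^ (1 / q) *
        (∫⁻ w, ENNReal.ofReal (A5 f k w) * W k w) ^ (1 / p)) := by
    intro k _
    refine (avg_in hn hf k _ _ (hJ.mul (hexp' k)) (hF.mul (hexp' k))).trans ?_
    have a1 : ∀ w, ENNReal.ofReal (A5 f k w) *
        ((ENNReal.ofReal (p2 k ^ n) * ∫⁻ x in ball w (2 / p2 k),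
            J x * ENNReal.ofReal (Real.exp (t * NN f K k x))) *
          (ENNReal.ofReal (p2 k ^ n) * ∫⁻ y in ball w (2 / p2 k),
            F y * ENNReal.ofReal (Real.exp (t * NN f K k y)))) ≤
        (ENNReal.ofReal Ca * ENNReal.ofReal Cb) *
          ((ENNReal.ofReal (A5 f k w) * U k w) ^ (1 / q) *
            (ENNReal.ofReal (A5 f k w) * W k w) ^ (1 / p)) := by
      intro w
      have b1 := Ha f ε hf t κ ht hκ0.le (hκε.trans (min_le_left _ _)) K k w J hJ
      have b2 := Hb f ε hf t κ ht hκ0.le (hκε.trans (min_le_right _ _)) K k w F hF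
      have b3 : ENNReal.ofReal (A5 f k w) = ENNReal.ofReal (A5 f k w) ^ (1 / q) *
          ENNReal.ofReal (A5 f k w) ^ (1 / p) := by
        rw [← ENNReal.rpow_add_of_nonneg _ _ hiq hip, hsum1, ENNReal.rpow_one]
      calc ENNReal.ofReal (A5 f k w) *
            ((ENNReal.ofReal (p2 k ^ n) * ∫⁻ x in ball w (2 / p2 k),
              J x * ENNReal.ofReal (Real.exp (t * NN f K k x))) *
            (ENNReal.ofReal (p2 k ^ n) * ∫⁻ y in ball w (2 / p2 k),
              F y * ENNReal.ofReal (Real.exp (t * NN f K k y)))) ≤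
            ENNReal.ofReal (A5 f k w) * ((ENNReal.ofReal Ca * U k w ^ (1 / q)) *
              (ENNReal.ofReal Cb * W k w ^ (1 / p))) := by
            gcongr
        _ = (ENNReal.ofReal Ca * ENNReal.ofReal Cb) *
            (ENNReal.ofReal (A5 f k w) * (U k w ^ (1 / q) * W k w ^ (1 / p))) := by ring
        _ = (ENNReal.ofReal Ca * ENNReal.ofReal Cb) *
            ((ENNReal.ofReal (A5 f k w) ^ (1 / q) * ENNReal.ofReal (A5 f k w) ^ (1 / p)) *
              (U k w ^ (1 / q) * W k w ^ (1 / p))) := by rw [← b3]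
        _ = _ := by
            rw [ENNReal.mul_rpow_of_nonneg (ENNReal.ofReal (A5 f k w)) (U k w) hiq,
              ENNReal.mul_rpow_of_nonneg (ENNReal.ofReal (A5 f k w)) (W k w) hip]
            ring
    have a2 : ∫⁻ w, ENNReal.ofReal (A5 f k w) *
        ((ENNReal.ofReal (p2 k ^ n) * ∫⁻ x in ball w (2 / p2 k),
            J x * ENNReal.ofReal (Real.exp (t * NN f K k x))) *
          (ENNReal.ofReal (p2 k ^ n) * ∫⁻ y in ball w (2 / p2 k),
            F y * ENNReal.ofReal (Real.exp (t * NN f K k y)))) ≤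
        (ENNReal.ofReal Ca * ENNReal.ofReal Cb) *
          ((∫⁻ w, ENNReal.ofReal (A5 f k w) * U k w) ^ (1 / q) *
            (∫⁻ w, ENNReal.ofReal (A5 f k w) * W k w) ^ (1 / p)) := by
      refine (lintegral_mono a1).trans ?_
      rw [lintegral_const_mul' _ _ (ENNReal.mul_ne_top ENNReal.ofReal_ne_top
        ENNReal.ofReal_ne_top)]
      refine mul_le_mul_right ?_ _
      exact ENNReal.lintegral_mul_norm_pow_le ((hA5 k).mul (hUm k)).aemeasurable
        ((hA5 k).mul (hWm k)).aemeasurable hiq hip hsum1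
    calc _ ≤ ENNReal.ofReal (1 / vb n) * ((ENNReal.ofReal Ca * ENNReal.ofReal Cb) *
          ((∫⁻ w, ENNReal.ofReal (A5 f k w) * U k w) ^ (1 / q) *
            (∫⁻ w, ENNReal.ofReal (A5 f k w) * W k w) ^ (1 / p))) := mul_le_mul_right a2 _
      _ = _ := by rw [hc]; ring
  refine (Finset.sum_le_sum one).trans ?_
  rw [← Finset.mul_sum]
  set B : ℝ≥0∞ := ENNReal.ofReal (2 ^ n * vb n) * ENNReal.ofReal (1 / κ) with hB
  have s1 := side hn hf κ hκ0 K (fun y => J y ^ q) (hJ.pow_const q)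
  have s2 := side hn hf κ hκ0 K (fun y => F y ^ p) (hF.pow_const p)
  have hBB : B ^ (1 / q) * B ^ (1 / p) = B := by
    rw [← ENNReal.rpow_add_of_nonneg _ _ hiq hip, hsum1, ENNReal.rpow_one]
  have hcB : c * B ≤ ENNReal.ofReal (max 1 (Ca * Cb * 2 ^ n / θ) * ε) := by
    rw [hc, hB, ← ENNReal.ofReal_mul (by linarith), ← ENNReal.ofReal_mul (by positivity),
      ← ENNReal.ofReal_mul (by positivity), ← ENNReal.ofReal_mul (by positivity)]
    refine ENNReal.ofReal_le_ofReal ?_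
    have e : 1 / vb n * (Ca * Cb) * (2 ^ n * vb n * (1 / κ)) = Ca * Cb * 2 ^ n / θ * ε := by
      rw [hκ]
      field_simp
    rw [e]
    exact mul_le_mul_of_nonneg_right (le_max_right _ _) hε.le
  calc c * ∑ k ∈ Finset.range K, (∫⁻ w, ENNReal.ofReal (A5 f k w) * U k w) ^ (1 / q) *
        (∫⁻ w, ENNReal.ofReal (A5 f k w) * W k w) ^ (1 / p) ≤
        c * ((∑ k ∈ Finset.range K, ∫⁻ w, ENNReal.ofReal (A5 f k w) * U k w) ^ (1 / q) *
          (∑ k ∈ Finset.range K, ∫⁻ w, ENNReal.ofReal (A5 f k w) * W k w) ^ (1 / p)) :=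
        mul_le_mul_right (hsum _ _ hpq hp hq) _
    _ ≤ c * ((B * ∫⁻ x, J x ^ q) ^ (1 / q) * (B * ∫⁻ x, F x ^ p) ^ (1 / p)) := by
        gcongr
    _ = c * B * ((∫⁻ x, J x ^ q) ^ (1 / q) * (∫⁻ x, F x ^ p) ^ (1 / p)) := by
        rw [ENNReal.mul_rpow_of_nonneg _ _ hiq, ENNReal.mul_rpow_of_nonneg _ _ hip]
        calc _ = c * (B ^ (1 / q) * B ^ (1 / p)) *
              ((∫⁻ x, J x ^ q) ^ (1 / q) * (∫⁻ x, F x ^ p) ^ (1 / p)) := by ring
          _ = _ := by rw [hBB]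
    _ ≤ ENNReal.ofReal (max 1 (Ca * Cb * 2 ^ n / θ) * ε) *
        ((∫⁻ x, J x ^ q) ^ (1 / q) * (∫⁻ x, F x ^ p) ^ (1 / p)) := mul_le_mul_left hcB _
    _ = _ := (mul_assoc _ _ _).symm

end H60NH
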