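import Pool.Agent.H60.NH.NBil

/-!
# [H60 NH NBILR] The bilinear estimate for real functions

`bilinear` with `p = n`, `q = n/(n-1)` applied to `ENNReal.ofReal ∘ J`, `ENNReal.ofReal ∘ F`. The
functions are nonnegative and measurable; for nonnegative measurable `g`,
`∫ g = (∫⁻ ofReal g).toReal` (`integral_eq_lintegral_of_nonneg_ae`), and `J^q`, `F^n` are integrable, so the
right side is finite and equals the `ofReal` of the real expression. For the inner integral:
`F e^{tN}` is integrable on balls (`F` integrable, `N` bounded by `NN_le`), and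
`ofReal (∫ ..) = ∫⁻ ofReal ..`. (`ofReal_rpow_of_nonneg` for the powers.)
-/

set_option autoImplicit false

namespace H60NH

open MeasureTheory Metric Set Filter Topology
open scoped ENNReal NNReal ContDiff

private theorem nbilr_ofReal {α : Type*} [MeasurableSpace α] {μ : Measure α} (g : α → ℝ)
    (hg : ∀ x, 0 ≤ g x) : ENNReal.ofReal (∫ x, g x ∂μ) ≤ ∫⁻ x, ENNReal.ofReal (g x) ∂μ := by
  by_cases h : Integrable g μ
  · rw [ofReal_integral_eq_lintegral_ofReal h (ae_of_all _ hg)]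
  · rw [integral_undef h, ENNReal.ofReal_zero]
    exact bot_le

theorem bilinear_real (n : ℕ) (hn : 2 ≤ n) :
    ∃ θ₁ C₁ : ℝ, 0 < θ₁ ∧ 1 ≤ C₁ ∧ ∀ (f : E n → ℝ) (ε : ℝ), 0 < ε → Mor f ε →
      ∀ t : ℝ, 0 ≤ t → t * ε ≤ θ₁ → ∀ (K : ℕ) (J F : E n → ℝ), Measurable J → Measurable F →
      (∀ x, 0 ≤ J x) → (∀ x, 0 ≤ F x) → Integrable F →
      Integrable (fun x => J x ^ ((n : ℝ) / (n - 1))) → Integrable (fun x => F x ^ n) →
      ∑ k ∈ Finset.range K, ∫ x, J x * (Real.exp (t * NN f K k x) * (aa f k x *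
          (p2 k ^ n * ∫ y in ball x (1 / p2 k), F y * Real.exp (t * NN f K k y)))) ≤
        C₁ * ε * (∫ x, J x ^ ((n : ℝ) / (n - 1))) ^ (((n : ℝ) - 1) / n) *
          (∫ x, F x ^ n) ^ (1 / (n : ℝ)) := by
  have hn1 : (1 : ℝ) < n := by exact_mod_cast (by omega : 1 < n)
  have hpq : (n : ℝ).HolderConjugate ((n : ℝ) / (n - 1)) := Real.HolderConjugate.conjExponent hn1
  obtain ⟨θ₁, C₁, hθ, hC, hb⟩ := bilinear n (by omega) n ((n : ℝ) / (n - 1)) hpq
  refine ⟨θ₁, C₁, hθ, hC, ?_⟩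
  intro f ε hε hf t ht htε K J F hJm hFm hJ hF hFi hJi hFn
  have h := hb f ε hε hf t ht htε K (fun x => ENNReal.ofReal (J x)) (fun x => ENNReal.ofReal (F x))
    hJm.ennreal_ofReal hFm.ennreal_ofReal
  have hq0 : (0 : ℝ) ≤ (n : ℝ) / (n - 1) := by
    apply div_nonneg <;> linarith
  have hJI : 0 ≤ ∫ x, J x ^ ((n : ℝ) / (n - 1)) :=
    integral_nonneg fun x => Real.rpow_nonneg (hJ x) _
  have hFI : 0 ≤ ∫ x, F x ^ n := integral_nonneg fun x => pow_nonneg (hF x) _
  -- right side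
  have e1 : ∫⁻ x, ENNReal.ofReal (J x) ^ ((n : ℝ) / (n - 1)) =
      ENNReal.ofReal (∫ x, J x ^ ((n : ℝ) / (n - 1))) := by
    rw [ofReal_integral_eq_lintegral_ofReal hJi (ae_of_all _ fun x => Real.rpow_nonneg (hJ x) _)]
    refine lintegral_congr fun x => ?_
    rw [ENNReal.ofReal_rpow_of_nonneg (hJ x) hq0]
  have e2 : ∫⁻ x, ENNReal.ofReal (F x) ^ (n : ℝ) = ENNReal.ofReal (∫ x, F x ^ n) := by
    rw [ofReal_integral_eq_lintegral_ofReal hFn (ae_of_all _ fun x => pow_nonneg (hF x) _)]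
    refine lintegral_congr fun x => ?_
    rw [ENNReal.ofReal_rpow_of_nonneg (hF x) (by linarith), Real.rpow_natCast]
  have e3 : 1 / ((n : ℝ) / (n - 1)) = ((n : ℝ) - 1) / n := by rw [one_div_div]
  rw [e1, e2, e3, ENNReal.ofReal_rpow_of_nonneg hJI (div_nonneg (by linarith) (by linarith)),
    ENNReal.ofReal_rpow_of_nonneg hFI (by positivity),
    ← ENNReal.ofReal_mul (mul_nonneg (by linarith) hε.le),
    ← ENNReal.ofReal_mul (mul_nonneg (mul_nonneg (by linarith) hε.le)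
      (Real.rpow_nonneg hJI _))] at h
  have hR : 0 ≤ C₁ * ε * (∫ x, J x ^ ((n : ℝ) / (n - 1))) ^ (((n : ℝ) - 1) / n) *
      (∫ x, F x ^ n) ^ (1 / (n : ℝ)) :=
    mul_nonneg (mul_nonneg (mul_nonneg (by linarith) hε.le) (Real.rpow_nonneg hJI _))
      (Real.rpow_nonneg hFI _)
  rw [← ENNReal.ofReal_le_ofReal_iff hR]
  refine le_trans ?_ h
  -- left side
  have hp2 : ∀ k, 0 ≤ p2 k ^ n := fun k => by unfold p2; positivity
  have hin : ∀ (k : ℕ) (x : E n),
      0 ≤ ∫ y in ball x (1 / p2 k), F y * Real.exp (t * NN f K k y) := fun k x =>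
    integral_nonneg fun y => mul_nonneg (hF y) (Real.exp_nonneg _)
  have haa : ∀ (k : ℕ) (x : E n), 0 ≤ aa f k x := fun k x => (AA_nonneg hf k x).2.1
  have hg : ∀ (k : ℕ) (x : E n), 0 ≤ J x * (Real.exp (t * NN f K k x) * (aa f k x *
          (p2 k ^ n * ∫ y in ball x (1 / p2 k), F y * Real.exp (t * NN f K k y)))) := fun k x =>
    mul_nonneg (hJ x) (mul_nonneg (Real.exp_nonneg _) (mul_nonneg (haa k x)
      (mul_nonneg (hp2 k) (hin k x))))
  rw [ENNReal.ofReal_sum_of_nonneg fun k _ => integral_nonneg (hg k)]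
  refine Finset.sum_le_sum fun k _ => ?_
  refine (nbilr_ofReal _ (hg k)).trans ?_
  refine lintegral_mono fun x => ?_
  rw [ENNReal.ofReal_mul (hJ x), ENNReal.ofReal_mul (Real.exp_nonneg _),
    ENNReal.ofReal_mul (haa k x), ENNReal.ofReal_mul (hp2 k)]
  have h1 : ENNReal.ofReal (∫ y in ball x (1 / p2 k), F y * Real.exp (t * NN f K k y)) ≤
      ∫⁻ y in ball x (1 / p2 k), ENNReal.ofReal (F y) *
        ENNReal.ofReal (Real.exp (t * NN f K k y)) := by
    refine (nbilr_ofReal _ fun y => mul_nonneg (hF y) (Real.exp_nonneg _)).trans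
      (le_of_eq ?_)
    refine lintegral_congr fun y => ?_
    rw [ENNReal.ofReal_mul (hF y)]
  calc ENNReal.ofReal (J x) * (ENNReal.ofReal (Real.exp (t * NN f K k x)) *
        (ENNReal.ofReal (aa f k x) * (ENNReal.ofReal (p2 k ^ n) *
          ENNReal.ofReal (∫ y in ball x (1 / p2 k), F y * Real.exp (t * NN f K k y)))))
      = (ENNReal.ofReal (J x) * ENNReal.ofReal (Real.exp (t * NN f K k x))) *
        ENNReal.ofReal (aa f k x) * (ENNReal.ofReal (p2 k ^ n) *
          ENNReal.ofReal (∫ y in ball x (1 / p2 k), F y * Real.exp (t * NN f K k y))) := by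
        ring
    _ ≤ _ := by gcongr

end H60NH
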