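import Pool.Agent.H60.NH.NMom

/-!
# [H60 NH NEXP] Exponential moments of `N_k`

Let `C₁` be the constant of `NN_moment`, `θ₀ = 1/(2 C₁)`. For `t ε <= θ₀`:
`∫_{ball x (1/p2 k)} e^{t NN_k} = ∑_q t^q/q! ∫ NN_k^q <= ∑_q C₁ (C₁ t ε)^q / p2 k ^ n <= 2 C₁ / p2 k ^ n`
(`NN_k` is continuous and bounded on the ball: the series converges uniformly; or monotone
convergence). Radius `2/p2 k`: `ball_double` with `g = e^{t NN_k}` (continuous), `r = 1/p2 k`.
-/

set_option autoImplicit false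

namespace H60NH

open MeasureTheory Metric Set Filter Topology
open scoped ENNReal NNReal ContDiff

private theorem nexp_p2 (k : ℕ) : 0 < p2 k := by unfold p2; positivity

private theorem nexp_one {n : ℕ} (hn : 1 ≤ n) {f : E n → ℝ} {ε C₁ : ℝ} (hf : Mor f ε)
    (hC₁ : 1 ≤ C₁)
    (hmom : ∀ (q K k : ℕ) (x : E n), ∫ y in ball x (1 / p2 k), NN f K k y ^ q ≤
        C₁ * (q.factorial * (C₁ * ε) ^ q) / p2 k ^ n)
    {t : ℝ} (ht : 0 ≤ t) (htε : t * ε ≤ 1 / (2 * C₁)) (K k : ℕ) (x : E n) :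
    ∫ y in ball x (1 / p2 k), Real.exp (t * NN f K k y) ≤ 2 * C₁ / p2 k ^ n := by
  have hC0 : 0 < C₁ := by linarith
  have hp : 0 < p2 k ^ n := pow_pos (nexp_p2 k) n
  have hcont := NN_cont hn hf.int K k
  have hnn := NN_nonneg hf K k
  obtain ⟨M, hM⟩ : ∃ M, M = (K : ℝ) * (8 ^ (n - 1) * ε) := ⟨_, rfl⟩
  have hNM : ∀ y, NN f K k y ≤ M := fun y => by rw [hM]; exact NN_le hf K k y
  have hlim : ∀ y : E n, Tendsto (fun Q : ℕ => ∑ q ∈ Finset.range Q,
      (t * NN f K k y) ^ q / q.factorial) atTop (𝓝 (Real.exp (t * NN f K k y))) := by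
    intro y
    have h1 := NormedSpace.expSeries_div_hasSum_exp (𝔸 := ℝ) (t * NN f K k y)
    rw [← Real.exp_eq_exp_ℝ] at h1
    exact h1.tendsto_sum_nat
  have hmain : Tendsto (fun Q : ℕ => ∫ y in ball x (1 / p2 k), ∑ q ∈ Finset.range Q,
      (t * NN f K k y) ^ q / q.factorial) atTop
      (𝓝 (∫ y in ball x (1 / p2 k), Real.exp (t * NN f K k y))) := by
    refine tendsto_integral_of_dominated_convergence (fun _ => Real.exp (t * M)) ?_ ?_ ?_ ?_
    · intro Q
      refine Continuous.aestronglyMeasurable ?_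
      exact continuous_finsetSum _ fun q _ => ((continuous_const.mul hcont).pow q).div_const _
    · exact integrableOn_const measure_ball_lt_top.ne
    · intro Q
      refine ae_of_all _ fun y => ?_
      have h0 : 0 ≤ t * NN f K k y := mul_nonneg ht (hnn y)
      rw [Real.norm_of_nonneg (Finset.sum_nonneg fun q _ => by positivity)]
      refine (Real.sum_le_exp_of_nonneg h0 Q).trans ?_
      exact Real.exp_le_exp.2 (mul_le_mul_of_nonneg_left (hNM y) ht)
    · exact ae_of_all _ fun y => hlim y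
  refine le_of_tendsto hmain (Filter.Eventually.of_forall fun Q => ?_)
  have hint : ∀ q : ℕ, IntegrableOn (fun y => (t * NN f K k y) ^ q / q.factorial)
      (ball x (1 / p2 k)) := fun q =>
    nint_cont (((continuous_const.mul hcont).pow q).div_const _) x _
  rw [integral_finsetSum _ fun q _ => hint q]
  have hterm : ∀ q ∈ Finset.range Q, ∫ y in ball x (1 / p2 k), (t * NN f K k y) ^ q / q.factorial ≤
      C₁ / p2 k ^ n * (1 / 2) ^ q := by
    intro q _
    have hqf : (0 : ℝ) < q.factorial := by exact_mod_cast q.factorial_pos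
    have e1 : ∫ y in ball x (1 / p2 k), (t * NN f K k y) ^ q / q.factorial =
        t ^ q / q.factorial * ∫ y in ball x (1 / p2 k), NN f K k y ^ q := by
      rw [← integral_const_mul]
      congr 1
      funext y
      rw [mul_pow]; ring
    rw [e1]
    calc t ^ q / q.factorial * ∫ y in ball x (1 / p2 k), NN f K k y ^ q
        ≤ t ^ q / q.factorial * (C₁ * (q.factorial * (C₁ * ε) ^ q) / p2 k ^ n) :=
          mul_le_mul_of_nonneg_left (hmom q K k x) (by positivity)
      _ = C₁ / p2 k ^ n * (C₁ * (t * ε)) ^ q := by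
          rw [mul_pow, mul_pow, mul_pow]; field_simp
      _ ≤ C₁ / p2 k ^ n * (1 / 2) ^ q := by
          have h0 : 0 ≤ C₁ * (t * ε) := mul_nonneg hC0.le (mul_nonneg ht hf.eps)
          have h2 : C₁ * (t * ε) ≤ 1 / 2 := by
            calc C₁ * (t * ε) ≤ C₁ * (1 / (2 * C₁)) := mul_le_mul_of_nonneg_left htε hC0.le
              _ = 1 / 2 := by field_simp
          gcongr
  refine (Finset.sum_le_sum hterm).trans ?_
  rw [← Finset.mul_sum]
  have hgeo : ∑ q ∈ Finset.range Q, ((1 : ℝ) / 2) ^ q ≤ 2 := by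
    have h3 := (summable_geometric_of_lt_one (r := (1 : ℝ) / 2) (by norm_num) (by norm_num))
    have h4 := h3.sum_le_tsum (Finset.range Q) (fun q _ => by positivity)
    rw [tsum_geometric_of_lt_one (by norm_num) (by norm_num)] at h4
    linarith
  calc C₁ / p2 k ^ n * ∑ q ∈ Finset.range Q, ((1 : ℝ) / 2) ^ q ≤ C₁ / p2 k ^ n * 2 :=
        mul_le_mul_of_nonneg_left hgeo (by positivity)
    _ = 2 * C₁ / p2 k ^ n := by ring

theorem NN_exp (n : ℕ) (hn : 1 ≤ n) : ∃ θ₀ C₀ : ℝ, 0 < θ₀ ∧ 1 ≤ C₀ ∧ ∀ (f : E n → ℝ) (ε : ℝ),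
    Mor f ε → ∀ t : ℝ, 0 ≤ t → t * ε ≤ θ₀ → ∀ (K k : ℕ) (x : E n),
      ∫ y in ball x (2 / p2 k), Real.exp (t * NN f K k y) ≤ C₀ / p2 k ^ n := by
  obtain ⟨C₁, hC₁, hmom⟩ := NN_moment n hn
  have hC0 : 0 < C₁ := by linarith
  refine ⟨1 / (2 * C₁), 3 ^ n * (2 * C₁), by positivity, ?_, ?_⟩
  · have : (1 : ℝ) ≤ 3 ^ n := one_le_pow₀ (by norm_num)
    nlinarith
  · intro f ε hf t ht htε K k x
    have hp := nexp_p2 k
    have h1 := ball_double (fun y => Real.exp (t * NN f K k y))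
      (Real.continuous_exp.comp (continuous_const.mul (NN_cont hn hf.int K k)))
      (fun y => (Real.exp_pos _).le) (1 / p2 k) (2 * C₁ / p2 k ^ n) (by positivity)
      (fun w => nexp_one hn hf hC₁ (hmom f ε hf) ht htε K k w) x
    have e1 : 2 * (1 / p2 k) = 2 / p2 k := by ring
    rw [e1] at h1
    calc _ ≤ 3 ^ n * (2 * C₁ / p2 k ^ n) := h1
      _ = 3 ^ n * (2 * C₁) / p2 k ^ n := by ring

end H60NH
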