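import Pool.Agent.H60.NH.NInt
import Pool.Agent.H60.NH.NR1a

/-!
# [H60 NH NHOLD] Hölder's inequality on one ball, integrability of `f^s`

`s = n - 1/2 = sn n`. `1 <= s <= n`, so `f^s <= f + f^n` is integrable. Hölder on `ball x (8/p2 k)` with
`s` and `s/(s-1)`: `∫ f <= (vb n (8/p2 k)^n)^(1-1/s) (∫ f^s)^(1/s)`; to the power `s`:
`AA^s <= p2^((n-1)s) (vb n 8^n)^(s-1) p2^(-n(s-1)) ∫ f^s`, and `(n-1)s - n(s-1) = n - s = 1/2`.
`As f ^ (4n-2) = (∫ f^s)^4` as `4n - 2 = 4s`.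
-/

set_option autoImplicit false

namespace H60NH

open MeasureTheory Metric Set Filter Topology
open scoped ENNReal NNReal ContDiff

theorem sn_bd {n : ℕ} (hn : 2 ≤ n) : 1 < sn n ∧ sn n ≤ n := by
  have : (2 : ℝ) ≤ n := by exact_mod_cast hn
  unfold sn
  constructor <;> linarith

theorem fs_int {n : ℕ} (hn : 2 ≤ n) {f : E n → ℝ} {ε : ℝ} (hf : Mor f ε) :
    Integrable (fun x => f x ^ sn n) := by
  obtain ⟨hs1, hsn⟩ := sn_bd hn
  refine (hf.int.add hf.intn).mono (hf.meas.pow_const _).aestronglyMeasurable ?_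
  refine Filter.Eventually.of_forall fun x => ?_
  have h0 := hf.nonneg x
  have h1 : 0 ≤ f x ^ n := pow_nonneg h0 n
  rw [Pi.add_apply, Real.norm_of_nonneg (Real.rpow_nonneg h0 _), Real.norm_of_nonneg (by positivity)]
  rcases le_total (f x) 1 with h | h
  · have h2 : f x ^ sn n ≤ f x ^ (1 : ℝ) := by
      rcases h0.eq_or_lt with h3 | h3
      · rw [← h3, Real.zero_rpow (by linarith), Real.zero_rpow one_ne_zero]
      · exact Real.rpow_le_rpow_of_exponent_ge h3 h hs1.le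
    rw [Real.rpow_one] at h2
    linarith
  · have h2 : f x ^ sn n ≤ f x ^ (n : ℝ) := Real.rpow_le_rpow_of_exponent_le h hsn
    rw [Real.rpow_natCast] at h2
    linarith

theorem AA_hold (n : ℕ) (hn : 2 ≤ n) : ∃ C₀ : ℝ, 1 ≤ C₀ ∧ ∀ (f : E n → ℝ) (ε : ℝ), Mor f ε →
    ∀ (k : ℕ) (x : E n),
      AA f k x ^ sn n ≤ C₀ * (Real.sqrt (p2 k) * ∫ y in ball x (8 / p2 k), f y ^ sn n) := by
  obtain ⟨hs1, hsn⟩ := sn_bd hn
  have hs0 : 0 < sn n := by linarith
  refine ⟨max 1 ((vb n * 8 ^ n) ^ (sn n - 1)), le_max_left _ _, ?_⟩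
  intro f ε hf k x
  have hp : 0 < p2 k := by unfold p2; positivity
  have hvb := vb_pos n
  have hr : 0 < 8 / p2 k := by positivity
  have hvol : volume (ball x (8 / p2 k)) = ENNReal.ofReal (vb n * (8 / p2 k) ^ n) := vol_ball x _ hr
  have hfin : volume (ball x (8 / p2 k)) ≠ ⊤ := by rw [hvol]; exact ENNReal.ofReal_ne_top
  haveI : IsFiniteMeasure (volume.restrict (ball x (8 / p2 k))) :=
    ⟨by rw [Measure.restrict_apply_univ]; exact lt_top_iff_ne_top.2 hfin⟩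
  set I : ℝ := ∫ y in ball x (8 / p2 k), f y with hI
  set J : ℝ := ∫ y in ball x (8 / p2 k), f y ^ sn n with hJ
  have hI0 : 0 ≤ I := integral_nonneg hf.nonneg
  have hJ0 : 0 ≤ J := integral_nonneg fun y => Real.rpow_nonneg (hf.nonneg y) _
  have hV0 : 0 ≤ vb n * (8 / p2 k) ^ n := by positivity
  -- Hölder
  have hhol : I ≤ J ^ (1 / sn n) * (vb n * (8 / p2 k) ^ n) ^ (1 - 1 / sn n) := by
    have h1 := hold_w (ν := volume.restrict (ball x (8 / p2 k))) (a := fun y => f y ^ sn n)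
      (b := fun _ => (1 : ℝ)) (fs_int hn hf).integrableOn (integrable_const _)
      (fun y => Real.rpow_nonneg (hf.nonneg y) _) (fun _ => zero_le_one) (t := 1 - 1 / sn n)
      (by rw [sub_pos, div_lt_one hs0]; exact hs1) (by
        have : 0 < 1 / sn n := by positivity
        linarith)
    have h2 : ∀ y, (f y ^ sn n) ^ (1 - (1 - 1 / sn n)) * (1 : ℝ) ^ (1 - 1 / sn n) = f y := by
      intro y
      rw [Real.one_rpow, mul_one, sub_sub_cancel, ← Real.rpow_mul (hf.nonneg y), mul_one_div_cancel hs0.ne',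
        Real.rpow_one]
    simp_rw [h2] at h1
    rw [sub_sub_cancel, setIntegral_const, smul_eq_mul, mul_one] at h1
    rw [Measure.real, hvol, ENNReal.toReal_ofReal hV0] at h1
    exact h1
  have hpow : I ^ sn n ≤ J * (vb n * (8 / p2 k) ^ n) ^ (sn n - 1) := by
    refine (Real.rpow_le_rpow hI0 hhol hs0.le).trans (le_of_eq ?_)
    rw [Real.mul_rpow (Real.rpow_nonneg hJ0 _) (Real.rpow_nonneg hV0 _), ← Real.rpow_mul hJ0,
      ← Real.rpow_mul hV0, one_div_mul_cancel hs0.ne', Real.rpow_one]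
    congr 2
    field_simp
  have hAA : AA f k x = p2 k ^ (n - 1) * I := rfl
  rw [hAA, Real.mul_rpow (by positivity) hI0]
  have hkey : (p2 k ^ (n - 1)) ^ sn n * (vb n * (8 / p2 k) ^ n) ^ (sn n - 1) =
      (vb n * 8 ^ n) ^ (sn n - 1) * Real.sqrt (p2 k) := by
    have e1 : vb n * (8 / p2 k) ^ n = (vb n * 8 ^ n) * (p2 k ^ n)⁻¹ := by
      rw [div_pow]
      field_simp
    rw [e1, Real.mul_rpow (by positivity) (by positivity), Real.inv_rpow (by positivity), Real.sqrt_eq_rpow,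
      ← Real.rpow_natCast (p2 k) (n - 1), ← Real.rpow_mul hp.le, ← Real.rpow_natCast (p2 k) n,
      ← Real.rpow_mul hp.le]
    have e2 : p2 k ^ (((n - 1 : ℕ) : ℝ) * sn n) = p2 k ^ ((n : ℝ) * (sn n - 1)) * p2 k ^ ((1 : ℝ) / 2) := by
      rw [← Real.rpow_add hp]
      congr 1
      rw [Nat.cast_sub (by omega)]
      unfold sn
      push_cast
      ring
    rw [e2]
    have : p2 k ^ ((n : ℝ) * (sn n - 1)) ≠ 0 := (Real.rpow_pos_of_pos hp _).ne'
    field_simp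
  calc (p2 k ^ (n - 1)) ^ sn n * I ^ sn n
      ≤ (p2 k ^ (n - 1)) ^ sn n * (J * (vb n * (8 / p2 k) ^ n) ^ (sn n - 1)) :=
        mul_le_mul_of_nonneg_left hpow (by positivity)
    _ = ((p2 k ^ (n - 1)) ^ sn n * (vb n * (8 / p2 k) ^ n) ^ (sn n - 1)) * J := by ring
    _ = (vb n * 8 ^ n) ^ (sn n - 1) * (Real.sqrt (p2 k) * J) := by rw [hkey]; ring
    _ ≤ max 1 ((vb n * 8 ^ n) ^ (sn n - 1)) * (Real.sqrt (p2 k) * J) :=
        mul_le_mul_of_nonneg_right (le_max_right _ _) (by positivity)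

theorem As_pow {n : ℕ} (hn : 2 ≤ n) {f : E n → ℝ} {ε : ℝ} (hf : Mor f ε) :
    0 ≤ As f ∧ As f ^ (4 * n - 2) = (∫ x, f x ^ sn n) ^ 4 ∧ As f ^ sn n = ∫ x, f x ^ sn n := by
  obtain ⟨hs1, hsn⟩ := sn_bd hn
  have hs0 : 0 < sn n := by linarith
  have hF : 0 ≤ ∫ x, f x ^ sn n := integral_nonneg fun y => Real.rpow_nonneg (hf.nonneg y) _
  have h2 : As f ^ sn n = ∫ x, f x ^ sn n := by
    unfold As
    rw [← Real.rpow_mul hF, one_div_mul_cancel hs0.ne', Real.rpow_one]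
  have h0 : 0 ≤ As f := Real.rpow_nonneg hF _
  refine ⟨h0, ?_, h2⟩
  rw [← h2, ← Real.rpow_natCast (As f ^ sn n) 4, ← Real.rpow_mul h0, ← Real.rpow_natCast (As f) (4 * n - 2)]
  congr 1
  rw [Nat.cast_sub (by omega)]
  unfold sn
  push_cast
  ring

end H60NH
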