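import Pool.Agent.H60.NH.NLr
import Pool.Agent.H60.NH.NExp

/-!
# [H60 NH NKS] The mixed integrals

`s = n - 1/2`, `2s = 2n - 1`, `4s = 4n - 2`, `A = As f`, `N = NN f K 0`, `B = ball 0 1`.
Hölder with the exponents `s/(n-1)` and `2s` (`(n-1)/s + 1/(2s) = 1`): for `g >= 0`
`∫_B f^(n-1) g <= (∫ f^s)^((n-1)/s) (∫_B g^{2s})^(1/(2s)) = A^(n-1) (∫_B g^(2n-1))^(1/(2n-1))`.
`K1`: `g = N`: `∫_B N^{2s} <= (vb n)^(1/2) (∫ N^{4s})^(1/2)`, so `(∫_B N^{2s})^(1/2s) <= C (∫ N^{4s})^(1/(4s)) <= C A`.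
`K2`: `g = N²`: `(∫ N^{4s})^(1/(2s)) <= C A²`.
`K3`: `g = N e^{cN}`: `∫_B N^{2s} e^{2s c N} <= (∫ N^{4s})^(1/2) (∫_B e^{4s c N})^(1/2)`, and the last integral is
at most `C₀` by `NN_exp` (`k = 0`, `p2 0 = 1`, `B ⊆ ball 0 2`), if `4 s c ε <= θ₀`.
`K4`: `∫_B N^n <= C (∫ N^{4s})^(n/(4s)) <= C A^n` (Hölder, `n < 4s`).
-/

set_option autoImplicit false

namespace H60NH

open MeasureTheory Metric Set Filter Topology
open scoped ENNReal NNReal ContDiff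

theorem cont_on_ball {n : ℕ} {g : E n → ℝ} (hg : Continuous g) (r : ℝ) :
    IntegrableOn g (ball (0 : E n) r) :=
  (hg.continuousOn.integrableOn_compact (isCompact_closedBall (0 : E n) r)).mono_set
    ball_subset_closedBall

theorem Kg_hold {n : ℕ} (hn : 3 ≤ n) {f : E n → ℝ} {ε : ℝ} (hf : Mor f ε) {g : E n → ℝ}
    (hg : Continuous g) (hg0 : ∀ x, 0 ≤ g x) :
    ∫ x in ball (0 : E n) 1, f x ^ (n - 1) * g x ≤
      As f ^ (n - 1) * (∫ x in ball (0 : E n) 1, g x ^ (2 * n - 1)) ^ (((2 * n - 1 : ℕ) : ℝ)⁻¹) := by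
  have hnR : (3 : ℝ) ≤ n := by exact_mod_cast hn
  obtain ⟨hs1, -⟩ := sn_bd (n := n) (by omega)
  have hs0 : 0 < sn n := by linarith
  have hc : ((2 * n - 1 : ℕ) : ℝ) = 2 * sn n := by
    rw [Nat.cast_sub (by omega)]
    unfold sn
    push_cast
    ring
  have hfs := fs_int (n := n) (by omega) hf
  obtain ⟨hA0, -, hAs⟩ := As_pow (n := n) (by omega) hf
  have h1 := hold_w (ν := volume.restrict (ball (0 : E n) 1)) (a := fun x => f x ^ sn n)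
    (b := fun x => g x ^ (2 * n - 1)) hfs.integrableOn (cont_on_ball (hg.pow _) 1)
    (fun y => Real.rpow_nonneg (hf.nonneg y) _) (fun x => pow_nonneg (hg0 x) _)
    (t := (((2 * n - 1 : ℕ) : ℝ)⁻¹)) (by rw [hc]; positivity)
    (by
      rw [hc]
      apply inv_lt_one_of_one_lt₀
      linarith)
  have h2 : ∀ x, (f x ^ sn n) ^ (1 - ((2 * n - 1 : ℕ) : ℝ)⁻¹) * (g x ^ (2 * n - 1)) ^ (((2 * n - 1 : ℕ) : ℝ)⁻¹) =
      f x ^ (n - 1) * g x := by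
    intro x
    rw [Real.pow_rpow_inv_natCast (hg0 x) (by omega), ← Real.rpow_mul (hf.nonneg x), ← Real.rpow_natCast (f x) (n - 1)]
    congr 2
    rw [hc, Nat.cast_sub (by omega)]
    field_simp
    unfold sn
    push_cast
    ring
  simp_rw [h2] at h1
  refine h1.trans ?_
  have h3 : 0 ≤ ∫ x in ball (0 : E n) 1, g x ^ (2 * n - 1) := integral_nonneg fun x => pow_nonneg (hg0 x) _
  refine mul_le_mul_of_nonneg_right ?_ (Real.rpow_nonneg h3 _)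
  have h4 : ∫ x in ball (0 : E n) 1, f x ^ sn n ≤ As f ^ sn n := by
    rw [hAs]
    exact setIntegral_le_integral hfs (Filter.Eventually.of_forall fun y => Real.rpow_nonneg (hf.nonneg y) _)
  have h5 : 0 ≤ ∫ x in ball (0 : E n) 1, f x ^ sn n :=
    integral_nonneg fun y => Real.rpow_nonneg (hf.nonneg y) _
  have h6 : 0 ≤ 1 - ((2 * n - 1 : ℕ) : ℝ)⁻¹ := by
    rw [sub_nonneg]
    apply inv_le_one_of_one_le₀
    rw [hc]
    linarith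
  refine (Real.rpow_le_rpow h5 h4 h6).trans (le_of_eq ?_)
  rw [← Real.rpow_mul hA0, ← Real.rpow_natCast (As f) (n - 1)]
  congr 1
  rw [hc, Nat.cast_sub (by omega)]
  field_simp
  unfold sn
  push_cast
  ring

theorem Kg (n : ℕ) (hn : 3 ≤ n) : ∃ C : ℝ, 1 ≤ C ∧ ∀ (f : E n → ℝ) (ε : ℝ), Mor f ε → ∀ (K : ℕ)
    (h : E n → ℝ), Continuous h → (∀ x, 0 ≤ h x) → ∀ M : ℝ, ∫ x in ball (0 : E n) 1, h x ^ (4 * n - 2) ≤ M →
    ∫ x in ball (0 : E n) 1, f x ^ (n - 1) * (NN f K 0 x * h x) ≤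
      C * As f ^ n * M ^ (((4 * n - 2 : ℕ) : ℝ)⁻¹) := by
  obtain ⟨C₀, hC₀, hN⟩ := NN_Lr n hn
  refine ⟨C₀ ^ (((4 * n - 2 : ℕ) : ℝ)⁻¹), Real.one_le_rpow hC₀ (by positivity), ?_⟩
  intro f ε hf K h hh hh0 M hM
  have hnR : (3 : ℝ) ≤ n := by exact_mod_cast hn
  obtain ⟨hA0, -, -⟩ := As_pow (n := n) (by omega) hf
  have hNc : Continuous (NN f K 0) := NN_cont (by omega) hf.int K 0
  have hN0 := NN_nonneg hf K 0
  obtain ⟨hNi, hNb⟩ := hN f ε hf K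
  have h0M : 0 ≤ ∫ x in ball (0 : E n) 1, h x ^ (4 * n - 2) := integral_nonneg fun x => pow_nonneg (hh0 x) _
  have hM0 : 0 ≤ M := h0M.trans hM
  have h1 := Kg_hold hn hf (g := fun x => NN f K 0 x * h x) (hNc.mul hh) (fun x => mul_nonneg (hN0 x) (hh0 x))
  refine h1.trans ?_
  -- Cauchy-Schwarz
  have h2 := hold_w (ν := volume.restrict (ball (0 : E n) 1)) (a := fun x => NN f K 0 x ^ (4 * n - 2))
    (b := fun x => h x ^ (4 * n - 2)) hNi.integrableOn (cont_on_ball (hh.pow _) 1)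
    (fun x => pow_nonneg (hN0 x) _) (fun x => pow_nonneg (hh0 x) _) (t := 1 / 2) (by norm_num) (by norm_num)
  have h3 : ∀ x, (NN f K 0 x ^ (4 * n - 2)) ^ (1 - (1 : ℝ) / 2) * (h x ^ (4 * n - 2)) ^ ((1 : ℝ) / 2) =
      (NN f K 0 x * h x) ^ (2 * n - 1) := by
    intro x
    rw [show (1 : ℝ) - 1 / 2 = 1 / 2 by norm_num, ← Real.mul_rpow (pow_nonneg (hN0 x) _) (pow_nonneg (hh0 x) _),
      ← mul_pow, show 4 * n - 2 = (2 * n - 1) * 2 by omega, pow_mul, ← Real.sqrt_eq_rpow,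
      Real.sqrt_sq (pow_nonneg (mul_nonneg (hN0 x) (hh0 x)) _)]
  simp_rw [h3] at h2
  rw [show (1 : ℝ) - 1 / 2 = 1 / 2 by norm_num] at h2
  have h4 : ∫ x in ball (0 : E n) 1, NN f K 0 x ^ (4 * n - 2) ≤ C₀ * As f ^ (4 * n - 2) :=
    (setIntegral_le_integral hNi (Filter.Eventually.of_forall fun x => pow_nonneg (hN0 x) _)).trans hNb
  have h5 : 0 ≤ ∫ x in ball (0 : E n) 1, NN f K 0 x ^ (4 * n - 2) :=
    integral_nonneg fun x => pow_nonneg (hN0 x) _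
  have h6 : ∫ x in ball (0 : E n) 1, (NN f K 0 x * h x) ^ (2 * n - 1) ≤
      (C₀ * As f ^ (4 * n - 2)) ^ ((1 : ℝ) / 2) * M ^ ((1 : ℝ) / 2) :=
    h2.trans (mul_le_mul (Real.rpow_le_rpow h5 h4 (by norm_num)) (Real.rpow_le_rpow h0M hM (by norm_num))
      (Real.rpow_nonneg h0M _) (by positivity))
  have h7 : 0 ≤ ∫ x in ball (0 : E n) 1, (NN f K 0 x * h x) ^ (2 * n - 1) :=
    integral_nonneg fun x => pow_nonneg (mul_nonneg (hN0 x) (hh0 x)) _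
  have hc : ((4 * n - 2 : ℕ) : ℝ) = 2 * ((2 * n - 1 : ℕ) : ℝ) := by
    rw [show 4 * n - 2 = 2 * (2 * n - 1) by omega]
    push_cast
    ring
  have hpos : (0 : ℝ) < ((2 * n - 1 : ℕ) : ℝ) := by exact_mod_cast (by omega : 0 < 2 * n - 1)
  have h8 := Real.rpow_le_rpow h7 h6 (z := ((2 * n - 1 : ℕ) : ℝ)⁻¹) (by positivity)
  rw [Real.mul_rpow (by positivity) (by positivity), ← Real.rpow_mul (by positivity), ← Real.rpow_mul hM0] at h8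
  have h9 : (1 : ℝ) / 2 * ((2 * n - 1 : ℕ) : ℝ)⁻¹ = ((4 * n - 2 : ℕ) : ℝ)⁻¹ := by
    rw [hc, mul_inv]
    ring
  rw [h9, Real.mul_rpow (by positivity) (by positivity), Real.pow_rpow_inv_natCast hA0 (by omega)] at h8
  calc As f ^ (n - 1) * (∫ x in ball (0 : E n) 1, (NN f K 0 x * h x) ^ (2 * n - 1)) ^ (((2 * n - 1 : ℕ) : ℝ)⁻¹)
      ≤ As f ^ (n - 1) * (C₀ ^ (((4 * n - 2 : ℕ) : ℝ)⁻¹) * As f * M ^ (((4 * n - 2 : ℕ) : ℝ)⁻¹)) :=
        mul_le_mul_of_nonneg_left h8 (by positivity)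
    _ = C₀ ^ (((4 * n - 2 : ℕ) : ℝ)⁻¹) * (As f ^ (n - 1) * As f) * M ^ (((4 * n - 2 : ℕ) : ℝ)⁻¹) := by ring
    _ = C₀ ^ (((4 * n - 2 : ℕ) : ℝ)⁻¹) * As f ^ n * M ^ (((4 * n - 2 : ℕ) : ℝ)⁻¹) := by
        rw [← pow_succ, Nat.sub_add_cancel (by omega)]

theorem vol_one (n : ℕ) : ∫ _x in ball (0 : E n) 1, (1 : ℝ) = vb n := by
  rw [setIntegral_const, smul_eq_mul, mul_one]
  rfl

theorem K1 (n : ℕ) (hn : 3 ≤ n) : ∃ C₀ : ℝ, 1 ≤ C₀ ∧ ∀ (f : E n → ℝ) (ε : ℝ), Mor f ε → ∀ K : ℕ,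
    ∫ x in ball (0 : E n) 1, f x ^ (n - 1) * NN f K 0 x ≤ C₀ * As f ^ n := by
  obtain ⟨C, hC, h⟩ := Kg n hn
  refine ⟨max 1 (C * vb n ^ (((4 * n - 2 : ℕ) : ℝ)⁻¹)), le_max_left _ _, ?_⟩
  intro f ε hf K
  obtain ⟨hA0, -, -⟩ := As_pow (n := n) (by omega) hf
  have h1 := h f ε hf K (fun _ => 1) continuous_const (fun _ => zero_le_one) (vb n)
    (by simp_rw [one_pow]; exact (vol_one n).le)
  simp_rw [mul_one] at h1
  refine h1.trans ?_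
  calc C * As f ^ n * vb n ^ (((4 * n - 2 : ℕ) : ℝ)⁻¹) = (C * vb n ^ (((4 * n - 2 : ℕ) : ℝ)⁻¹)) * As f ^ n := by ring
    _ ≤ max 1 (C * vb n ^ (((4 * n - 2 : ℕ) : ℝ)⁻¹)) * As f ^ n :=
        mul_le_mul_of_nonneg_right (le_max_right _ _) (by positivity)

theorem K2 (n : ℕ) (hn : 3 ≤ n) : ∃ C₀ : ℝ, 1 ≤ C₀ ∧ ∀ (f : E n → ℝ) (ε : ℝ), Mor f ε → ∀ K : ℕ,
    ∫ x in ball (0 : E n) 1, f x ^ (n - 1) * NN f K 0 x ^ 2 ≤ C₀ * As f ^ (n + 1) := by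
  obtain ⟨C, hC, h⟩ := Kg n hn
  obtain ⟨C₁, hC₁, hN⟩ := NN_Lr n hn
  refine ⟨max 1 (C * C₁ ^ (((4 * n - 2 : ℕ) : ℝ)⁻¹)), le_max_left _ _, ?_⟩
  intro f ε hf K
  obtain ⟨hA0, -, -⟩ := As_pow (n := n) (by omega) hf
  obtain ⟨hNi, hNb⟩ := hN f ε hf K
  have hN0 := NN_nonneg hf K 0
  have h4 : ∫ x in ball (0 : E n) 1, NN f K 0 x ^ (4 * n - 2) ≤ C₁ * As f ^ (4 * n - 2) :=
    (setIntegral_le_integral hNi (Filter.Eventually.of_forall fun x => pow_nonneg (hN0 x) _)).trans hNb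
  have h1 := h f ε hf K (NN f K 0) (NN_cont (by omega) hf.int K 0) hN0 _ h4
  simp_rw [← sq] at h1
  refine h1.trans ?_
  rw [Real.mul_rpow (by positivity) (by positivity), Real.pow_rpow_inv_natCast hA0 (by omega)]
  calc C * As f ^ n * (C₁ ^ (((4 * n - 2 : ℕ) : ℝ)⁻¹) * As f)
      = (C * C₁ ^ (((4 * n - 2 : ℕ) : ℝ)⁻¹)) * As f ^ (n + 1) := by ring
    _ ≤ max 1 (C * C₁ ^ (((4 * n - 2 : ℕ) : ℝ)⁻¹)) * As f ^ (n + 1) :=
        mul_le_mul_of_nonneg_right (le_max_right _ _) (by positivity)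

theorem K3 (n : ℕ) (hn : 3 ≤ n) (c : ℝ) (hc : 0 ≤ c) : ∃ ε₁ C₀ : ℝ, 0 < ε₁ ∧ 1 ≤ C₀ ∧
    ∀ (f : E n → ℝ) (ε : ℝ), ε ≤ ε₁ → Mor f ε → ∀ K : ℕ,
    ∫ x in ball (0 : E n) 1, f x ^ (n - 1) * (NN f K 0 x * Real.exp (c * NN f K 0 x)) ≤
      C₀ * As f ^ n := by
  obtain ⟨C, hC, h⟩ := Kg n hn
  obtain ⟨θ, C₁, hθ, hC₁, hexp⟩ := NN_exp n (by omega)
  have hr0 : (0 : ℝ) ≤ ((4 * n - 2 : ℕ) : ℝ) := Nat.cast_nonneg _
  have hden : 0 < ((4 * n - 2 : ℕ) : ℝ) * c + 1 := by positivity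
  refine ⟨θ / (((4 * n - 2 : ℕ) : ℝ) * c + 1), max 1 (C * C₁ ^ (((4 * n - 2 : ℕ) : ℝ)⁻¹)), by positivity,
    le_max_left _ _, ?_⟩
  intro f ε hε hf K
  obtain ⟨hA0, -, -⟩ := As_pow (n := n) (by omega) hf
  have hNc : Continuous (NN f K 0) := NN_cont (by omega) hf.int K 0
  have ht0 : 0 ≤ ((4 * n - 2 : ℕ) : ℝ) * c := by positivity
  have hte : ((4 * n - 2 : ℕ) : ℝ) * c * ε ≤ θ := by
    rw [le_div_iff₀ hden] at hε
    have := hf.eps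
    nlinarith
  have h2 := hexp f ε hf (((4 * n - 2 : ℕ) : ℝ) * c) ht0 hte K 0 0
  have hp0 : p2 0 = 1 := by unfold p2; norm_num
  rw [hp0, one_pow, div_one, div_one] at h2
  have hcont : Continuous fun x => Real.exp (((4 * n - 2 : ℕ) : ℝ) * c * NN f K 0 x) :=
    Real.continuous_exp.comp (continuous_const.mul hNc)
  have h3 : ∫ x in ball (0 : E n) 1, Real.exp (c * NN f K 0 x) ^ (4 * n - 2) ≤ C₁ := by
    have h5 : ∀ x, Real.exp (c * NN f K 0 x) ^ (4 * n - 2) = Real.exp (((4 * n - 2 : ℕ) : ℝ) * c * NN f K 0 x) := by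
      intro x
      rw [← Real.exp_nat_mul]
      congr 1
      ring
    simp_rw [h5]
    refine (setIntegral_mono_set (cont_on_ball hcont 2) (Filter.Eventually.of_forall fun x => (Real.exp_pos _).le)
      (ball_subset_ball (by norm_num)).eventuallyLE).trans h2
  have h1 := h f ε hf K (fun x => Real.exp (c * NN f K 0 x))
    (Real.continuous_exp.comp (continuous_const.mul hNc)) (fun x => (Real.exp_pos _).le) _ h3
  refine h1.trans ?_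
  calc C * As f ^ n * C₁ ^ (((4 * n - 2 : ℕ) : ℝ)⁻¹) = (C * C₁ ^ (((4 * n - 2 : ℕ) : ℝ)⁻¹)) * As f ^ n := by ring
    _ ≤ max 1 (C * C₁ ^ (((4 * n - 2 : ℕ) : ℝ)⁻¹)) * As f ^ n :=
        mul_le_mul_of_nonneg_right (le_max_right _ _) (by positivity)

theorem K4 (n : ℕ) (hn : 3 ≤ n) : ∃ C₀ : ℝ, 1 ≤ C₀ ∧ ∀ (f : E n → ℝ) (ε : ℝ), Mor f ε → ∀ K : ℕ,
    ∫ x in ball (0 : E n) 1, NN f K 0 x ^ n ≤ C₀ * As f ^ n := by
  obtain ⟨C₁, hC₁, hN⟩ := NN_Lr n hn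
  obtain ⟨t, ht⟩ : ∃ t : ℝ, t = (n : ℝ) / ((4 * n - 2 : ℕ) : ℝ) := ⟨_, rfl⟩
  have hnR : (3 : ℝ) ≤ n := by exact_mod_cast hn
  have hc : ((4 * n - 2 : ℕ) : ℝ) = 4 * n - 2 := by
    rw [Nat.cast_sub (by omega)]
    push_cast
    ring
  have hc0 : (0 : ℝ) < ((4 * n - 2 : ℕ) : ℝ) := by rw [hc]; linarith
  have ht0 : 0 < t := by rw [ht]; positivity
  have ht1 : t < 1 := by
    rw [ht, div_lt_one hc0, hc]
    linarith
  refine ⟨max 1 (vb n ^ (1 - t) * C₁ ^ t), le_max_left _ _, ?_⟩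
  intro f ε hf K
  obtain ⟨hA0, -, -⟩ := As_pow (n := n) (by omega) hf
  obtain ⟨hNi, hNb⟩ := hN f ε hf K
  have hN0 := NN_nonneg hf K 0
  have h4 : ∫ x in ball (0 : E n) 1, NN f K 0 x ^ (4 * n - 2) ≤ C₁ * As f ^ (4 * n - 2) :=
    (setIntegral_le_integral hNi (Filter.Eventually.of_forall fun x => pow_nonneg (hN0 x) _)).trans hNb
  have h5 : 0 ≤ ∫ x in ball (0 : E n) 1, NN f K 0 x ^ (4 * n - 2) :=
    integral_nonneg fun x => pow_nonneg (hN0 x) _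
  have h2 := hold_w (ν := volume.restrict (ball (0 : E n) 1)) (a := fun _ => (1 : ℝ))
    (b := fun x => NN f K 0 x ^ (4 * n - 2)) (cont_on_ball continuous_const 1) hNi.integrableOn
    (fun _ => zero_le_one) (fun x => pow_nonneg (hN0 x) _) ht0 ht1
  have h3 : ∀ x, (1 : ℝ) ^ (1 - t) * (NN f K 0 x ^ (4 * n - 2)) ^ t = NN f K 0 x ^ n := by
    intro x
    rw [Real.one_rpow, one_mul, ← Real.rpow_natCast (NN f K 0 x) (4 * n - 2), ← Real.rpow_mul (hN0 x),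
      ← Real.rpow_natCast (NN f K 0 x) n]
    congr 1
    rw [ht]
    field_simp
  simp_rw [h3] at h2
  rw [vol_one] at h2
  refine h2.trans ?_
  have hvb := vb_pos n
  calc vb n ^ (1 - t) * (∫ x in ball (0 : E n) 1, NN f K 0 x ^ (4 * n - 2)) ^ t
      ≤ vb n ^ (1 - t) * (C₁ * As f ^ (4 * n - 2)) ^ t :=
        mul_le_mul_of_nonneg_left (Real.rpow_le_rpow h5 h4 ht0.le) (by positivity)
    _ = (vb n ^ (1 - t) * C₁ ^ t) * As f ^ n := by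
        rw [Real.mul_rpow (by positivity) (by positivity), ← Real.rpow_natCast (As f) (4 * n - 2), ← Real.rpow_mul hA0,
          show ((4 * n - 2 : ℕ) : ℝ) * t = (n : ℝ) by rw [ht]; field_simp, Real.rpow_natCast]
        ring
    _ ≤ max 1 (vb n ^ (1 - t) * C₁ ^ t) * As f ^ n :=
        mul_le_mul_of_nonneg_right (le_max_right _ _) (by positivity)

end H60NH
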