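import Pool.Agent.H60.NH.NHold

/-!
# [H60 NH NLR] The `L^{4n-2}` norm of `N`

`r = 4n - 2 = 4s`, `F = ∫ f^s`, `I_k(x) = ∫_{ball x (8/p2 k)} f^s <= F`.
1. `AA_k^r = (AA_k^s)^4 <= C₀^4 p2 k ^ 2 I_k^4 <= C₀^4 p2 k ^2 F^3 I_k`, and by Tonelli
`∫ I_k(x) dx = vb n (8/p2 k)^n F` (as in `int_ball_ball`), so `∫ AA_k^r <= C (p2 k)^(-(n-2)) F^4 <= C (p2 k)⁻¹ F^4`
(`n >= 3`).
2. With `w = 2^(-1/(2r))`: `NN_K = ∑_{k<K} w^k (w^{-k} AA_k)`, Jensen (convexity of `t^r`, weights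
`w^k / W`, `W = ∑_{k<K} w^k <= 1/(1-w)`): `NN^r <= W^(r-1) ∑ w^k w^(-kr) AA_k^r`
`<= W^(r-1) ∑ 2^(k/2) AA_k^r` (`w^(k(1-r)) = 2^(k(r-1)/(2r)) <= 2^(k/2)`), whose integral is at most
`C ∑ 2^(k/2) 2^(-k) F^4 <= C F^4`.
`AA_k` is continuous and vanishes for `‖x‖ >= 72` (`AA_supp`): everything is integrable.
-/

set_option autoImplicit false

namespace H60NH

open MeasureTheory Metric Set Filter Topology
open scoped ENNReal NNReal ContDiff

theorem AA_compact {n : ℕ} {f : E n → ℝ} {ε : ℝ} (hf : Mor f ε) (k : ℕ) :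
    HasCompactSupport (AA f k) := by
  refine HasCompactSupport.intro (isCompact_closedBall (0 : E n) 72) ?_
  intro x hx
  rw [mem_closedBall, dist_zero_right, not_le] at hx
  exact AA_supp hf k x hx.le

theorem AA_Lr (n : ℕ) (hn : 3 ≤ n) : ∃ C₁ : ℝ, 1 ≤ C₁ ∧ ∀ (f : E n → ℝ) (ε : ℝ), Mor f ε →
    ∀ k : ℕ, ∫ x, AA f k x ^ (4 * n - 2) ≤ C₁ * (p2 k)⁻¹ * (∫ x, f x ^ sn n) ^ 4 := by
  obtain ⟨C₀, hC₀, hAA⟩ := AA_hold n (by omega)
  refine ⟨max 1 (C₀ ^ 4 * (vb n * 8 ^ n)), le_max_left _ _, ?_⟩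
  intro f ε hf k
  have hp : 0 < p2 k := by unfold p2; positivity
  have hp1 : 1 ≤ p2 k := by unfold p2; exact one_le_pow₀ (by norm_num)
  have hvb := vb_pos n
  have hr : 0 < 8 / p2 k := by positivity
  have hfs := fs_int (n := n) (by omega) hf
  have hfs0 : ∀ y, 0 ≤ f y ^ sn n := fun y => Real.rpow_nonneg (hf.nonneg y) _
  set F : ℝ := ∫ x, f x ^ sn n with hF
  have hF0 : 0 ≤ F := integral_nonneg hfs0
  have hs0 : 0 < sn n := by
    have := (sn_bd (n := n) (by omega)).1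
    linarith
  have hI0 : ∀ x : E n, 0 ≤ ∫ y in ball x (8 / p2 k), f y ^ sn n := fun x => integral_nonneg hfs0
  have hIF : ∀ x : E n, ∫ y in ball x (8 / p2 k), f y ^ sn n ≤ F := fun x =>
    setIntegral_le_integral hfs (Filter.Eventually.of_forall hfs0)
  -- pointwise bound
  have hpt : ∀ x : E n, AA f k x ^ (4 * n - 2) ≤
      C₀ ^ 4 * p2 k ^ 2 * F ^ 3 * ∫ y in ball x (8 / p2 k), f y ^ sn n := by
    intro x
    have h0 := (AA_nonneg hf k x).1
    have h1 : AA f k x ^ (4 * n - 2) = (AA f k x ^ sn n) ^ 4 := by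
      rw [← Real.rpow_natCast (AA f k x ^ sn n) 4, ← Real.rpow_mul h0, ← Real.rpow_natCast (AA f k x) (4 * n - 2)]
      congr 1
      rw [Nat.cast_sub (by omega)]
      unfold sn
      push_cast
      ring
    have h2 := hAA f ε hf k x
    have h3 : (AA f k x ^ sn n) ^ 4 ≤
        (C₀ * (Real.sqrt (p2 k) * ∫ y in ball x (8 / p2 k), f y ^ sn n)) ^ 4 :=
      pow_le_pow_left₀ (Real.rpow_nonneg h0 _) h2 4
    have h4 : Real.sqrt (p2 k) ^ 4 = p2 k ^ 2 := by
      rw [show (4 : ℕ) = 2 * 2 by norm_num, pow_mul, Real.sq_sqrt hp.le]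
    rw [h1]
    refine h3.trans ?_
    rw [mul_pow, mul_pow, h4]
    have h5 : (∫ y in ball x (8 / p2 k), f y ^ sn n) ^ 4 ≤ F ^ 3 * ∫ y in ball x (8 / p2 k), f y ^ sn n := by
      rw [pow_succ]
      exact mul_le_mul_of_nonneg_right (pow_le_pow_left₀ (hI0 x) (hIF x) 3) (hI0 x)
    calc C₀ ^ 4 * (p2 k ^ 2 * (∫ y in ball x (8 / p2 k), f y ^ sn n) ^ 4)
        ≤ C₀ ^ 4 * (p2 k ^ 2 * (F ^ 3 * ∫ y in ball x (8 / p2 k), f y ^ sn n)) := by gcongr
      _ = C₀ ^ 4 * p2 k ^ 2 * F ^ 3 * ∫ y in ball x (8 / p2 k), f y ^ sn n := by ring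
  have hcont : Continuous fun x : E n => ∫ y in ball x (8 / p2 k), f y ^ sn n := by
    have h1 := (AA_cont (n := n) (by omega) hfs k).1
    have h2 : (fun x : E n => ∫ y in ball x (8 / p2 k), f y ^ sn n) =
        fun x => (p2 k ^ (n - 1))⁻¹ * AA (fun y => f y ^ sn n) k x := by
      funext x
      unfold AA
      rw [← mul_assoc, inv_mul_cancel₀ (by positivity), one_mul]
    rw [h2]
    exact continuous_const.mul h1
  have hon : ∀ {g : E n → ℝ}, Continuous g → IntegrableOn g (ball (0 : E n) 73) := by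
    intro g hg
    exact (hg.continuousOn.integrableOn_compact (isCompact_closedBall (0 : E n) 73)).mono_set
      ball_subset_closedBall
  have hAAc : Continuous (AA f k) := (AA_cont (n := n) (by omega) hf.int k).1
  have hset : ∫ x, AA f k x ^ (4 * n - 2) = ∫ x in ball (0 : E n) 73, AA f k x ^ (4 * n - 2) := by
    symm
    apply setIntegral_eq_integral_of_forall_compl_eq_zero
    intro x hx
    rw [mem_ball, dist_zero_right, not_lt] at hx
    rw [AA_supp hf k x (by linarith), zero_pow (by omega)]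
  rw [hset]
  calc ∫ x in ball (0 : E n) 73, AA f k x ^ (4 * n - 2)
      ≤ ∫ x in ball (0 : E n) 73, C₀ ^ 4 * p2 k ^ 2 * F ^ 3 * ∫ y in ball x (8 / p2 k), f y ^ sn n :=
        setIntegral_mono (hon (hAAc.pow _)) (hon (continuous_const.mul hcont)) hpt
    _ = C₀ ^ 4 * p2 k ^ 2 * F ^ 3 * ∫ x in ball (0 : E n) 73, ∫ y in ball x (8 / p2 k), f y ^ sn n :=
        integral_const_mul _ _
    _ ≤ C₀ ^ 4 * p2 k ^ 2 * F ^ 3 * (vb n * (8 / p2 k) ^ n * F) := by
        refine mul_le_mul_of_nonneg_left ?_ (by positivity)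
        refine (int_ball_ball (fun y => f y ^ sn n) hfs hfs0 0 73 (8 / p2 k) (by norm_num) hr).trans ?_
        refine mul_le_mul_of_nonneg_left ?_ (by positivity)
        exact setIntegral_le_integral hfs (Filter.Eventually.of_forall hfs0)
    _ = C₀ ^ 4 * (vb n * 8 ^ n) * (p2 k ^ 2 / p2 k ^ n) * F ^ 4 := by
        rw [div_pow]
        ring
    _ ≤ max 1 (C₀ ^ 4 * (vb n * 8 ^ n)) * (p2 k)⁻¹ * F ^ 4 := by
        refine mul_le_mul_of_nonneg_right ?_ (by positivity)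
        refine mul_le_mul (le_max_right _ _) ?_ (by positivity) (by positivity)
        rw [div_le_iff₀ (by positivity), inv_mul_eq_div, le_div_iff₀ hp, ← pow_succ]
        exact pow_le_pow_right₀ hp1 hn

theorem NN_Lr (n : ℕ) (hn : 3 ≤ n) : ∃ C₀ : ℝ, 1 ≤ C₀ ∧ ∀ (f : E n → ℝ) (ε : ℝ), Mor f ε →
    ∀ K : ℕ, Integrable (fun x => NN f K 0 x ^ (4 * n - 2)) ∧
      ∫ x, NN f K 0 x ^ (4 * n - 2) ≤ C₀ * As f ^ (4 * n - 2) := by
  obtain ⟨C₁, hC₁, hAL⟩ := AA_Lr n hn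
  obtain ⟨r, hr⟩ : ∃ r : ℕ, r = 4 * n - 2 := ⟨_, rfl⟩
  have hr10 : 10 ≤ r := by omega
  have hrR : (0 : ℝ) < r := by exact_mod_cast (by omega : 0 < r)
  obtain ⟨w, hw⟩ : ∃ w : ℝ, w = (2 : ℝ)⁻¹ ^ ((r : ℝ)⁻¹) := ⟨_, rfl⟩
  have hw0 : 0 < w := by rw [hw]; positivity
  have hw1 : w < 1 := by
    rw [hw]
    exact Real.rpow_lt_one (by norm_num) (by norm_num) (by positivity)
  have h1w : 0 < 1 - w := by linarith
  refine ⟨max 1 ((1 - w)⁻¹ ^ r * C₁), le_max_left _ _, ?_⟩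
  intro f ε hf K
  rw [← hr]
  have hNNc : Continuous (NN f K 0) := NN_cont (by omega) hf.int K 0
  have hNNeq : NN f K 0 = ∑ j ∈ Finset.Ico 0 K, AA f j := by
    funext x
    rw [Finset.sum_apply]
    rfl
  have hNNs : HasCompactSupport (NN f K 0) := by
    refine HasCompactSupport.intro (isCompact_closedBall (0 : E n) 72) ?_
    intro x hx
    rw [mem_closedBall, dist_zero_right, not_le] at hx
    exact Finset.sum_eq_zero fun j _ => AA_supp hf j x hx.le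
  have hint : Integrable (fun x => NN f K 0 x ^ r) := by
    refine (hNNc.pow r).integrable_of_hasCompactSupport ?_
    refine HasCompactSupport.intro (isCompact_closedBall (0 : E n) 72) ?_
    intro x hx
    rw [mem_closedBall, dist_zero_right, not_le] at hx
    have h1 : NN f K 0 x = 0 := Finset.sum_eq_zero fun j _ => AA_supp hf j x hx.le
    change NN f K 0 x ^ r = 0
    rw [h1, zero_pow (by omega)]
  refine ⟨hint, ?_⟩
  obtain ⟨hA0, hA4, -⟩ := As_pow (n := n) (by omega) hf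
  rw [← hr] at hA4
  have hF0 : 0 ≤ ∫ x, f x ^ sn n := integral_nonneg fun y => Real.rpow_nonneg (hf.nonneg y) _
  have hr0' : (r : ℝ≥0∞) ≠ 0 := by
    simp only [ne_eq, Nat.cast_eq_zero]
    omega
  have hrt : (r : ℝ≥0∞) ≠ ⊤ := ENNReal.natCast_ne_top r
  have hr1' : (1 : ℝ≥0∞) ≤ (r : ℝ≥0∞) := by exact_mod_cast (by omega : 1 ≤ r)
  have hmemA : ∀ j, MemLp (AA f j) (r : ℝ≥0∞) := fun j =>
    ((AA_cont (n := n) (by omega) hf.int j).1).memLp_of_hasCompactSupport (AA_compact hf j)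
  have hmemN : MemLp (NN f K 0) (r : ℝ≥0∞) := hNNc.memLp_of_hasCompactSupport hNNs
  -- norms of the pieces
  have hAj : ∀ j, eLpNorm (AA f j) (r : ℝ≥0∞) volume ≤ ENNReal.ofReal (C₁ ^ ((r : ℝ)⁻¹) * As f * w ^ j) := by
    intro j
    rw [(hmemA j).eLpNorm_eq_integral_rpow_norm hr0' hrt, ENNReal.toReal_natCast]
    apply ENNReal.ofReal_le_ofReal
    have h1 : ∫ x, ‖AA f j x‖ ^ (r : ℝ) = ∫ x, AA f j x ^ r := by
      congr 1
      funext x
      rw [Real.norm_of_nonneg (AA_nonneg hf j x).1, Real.rpow_natCast]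
    have h2 := hAL f ε hf j
    rw [← hr, ← hA4] at h2
    rw [h1]
    have h3 : 0 ≤ ∫ x, AA f j x ^ r := integral_nonneg fun x => pow_nonneg (AA_nonneg hf j x).1 _
    refine (Real.rpow_le_rpow h3 h2 (by positivity)).trans (le_of_eq ?_)
    have hp : 0 < p2 j := by unfold p2; positivity
    rw [Real.mul_rpow (by positivity) (by positivity), Real.mul_rpow (by positivity) (by positivity),
      Real.pow_rpow_inv_natCast hA0 (by omega)]
    have h4 : (p2 j)⁻¹ ^ ((r : ℝ)⁻¹) = w ^ j := by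
      rw [hw, ← Real.rpow_natCast ((2 : ℝ)⁻¹ ^ ((r : ℝ)⁻¹)) j, ← Real.rpow_mul (by norm_num), mul_comm,
        Real.rpow_mul (by norm_num), Real.rpow_natCast, inv_pow]
      rfl
    rw [h4]
    ring
  have hsum : eLpNorm (NN f K 0) (r : ℝ≥0∞) volume ≤
      ENNReal.ofReal ((1 - w)⁻¹ * (C₁ ^ ((r : ℝ)⁻¹) * As f)) := by
    rw [hNNeq]
    refine (eLpNorm_sum_le (fun j _ => (hmemA j).1) hr1').trans ?_
    refine (Finset.sum_le_sum fun j _ => hAj j).trans ?_
    rw [← ENNReal.ofReal_sum_of_nonneg (fun j _ => by positivity)]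
    apply ENNReal.ofReal_le_ofReal
    rw [← Finset.mul_sum, mul_comm]
    refine mul_le_mul_of_nonneg_right ?_ (by positivity)
    rw [Nat.Ico_zero_eq_range]
    have h1 := geom_sum_mul_neg w K
    have h2 : (∑ i ∈ Finset.range K, w ^ i) * (1 - w) ≤ 1 := by
      rw [h1]
      have : 0 ≤ w ^ K := by positivity
      linarith
    rw [inv_eq_one_div, le_div_iff₀ h1w]
    exact h2
  rw [hmemN.eLpNorm_eq_integral_rpow_norm hr0' hrt, ENNReal.toReal_natCast,
    ENNReal.ofReal_le_ofReal_iff (by positivity)] at hsum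
  have h1 : ∫ x, ‖NN f K 0 x‖ ^ (r : ℝ) = ∫ x, NN f K 0 x ^ r := by
    congr 1
    funext x
    rw [Real.norm_of_nonneg (NN_nonneg hf K 0 x), Real.rpow_natCast]
  rw [h1] at hsum
  have h2 : 0 ≤ ∫ x, NN f K 0 x ^ r := integral_nonneg fun x => pow_nonneg (NN_nonneg hf K 0 x) _
  have h3 := pow_le_pow_left₀ (Real.rpow_nonneg h2 _) hsum r
  rw [Real.rpow_inv_natCast_pow h2 (by omega), mul_pow, mul_pow, Real.rpow_inv_natCast_pow (by linarith) (by omega)] at h3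
  refine h3.trans ?_
  rw [← mul_assoc]
  exact mul_le_mul_of_nonneg_right (le_max_right _ _) (by positivity)

end H60NH
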