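import Pool.Agent.H60.NH.NInt

/-!
# [H60 NH NVIT] A covering estimate

For `x ∈ T` choose `k(x) > k₀` as in `h`. The closed balls `closedBall x (8/p2 k(x))`, `x ∈ T`, have radii at most
`8` and positive. Vitali (`Vitali.exists_disjoint_subfamily_covering_enlargement_closedBall` with
factor `5`): a subfamily `u ⊆ T` with pairwise disjoint balls whose `5` times enlargements cover
`T`. `u` is countable (disjoint sets with nonempty interior: `Set.PairwiseDisjoint.countable_of_isOpen` for the open
balls). So `volume T <= ∑_{x ∈ u} volume (closedBall x (40/p2 k(x))) <= ∑ vb n (40/p2 k)^n <= ∑ b w(k(x))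
<= b ∑ ∫_{closedBall x (8/p2 k(x))} g <= b ∫ g` (disjointness, `g >= 0`; use `∫⁻ ofReal g`,
`lintegral_iUnion` or `hasSum_integral_iUnion`).
-/

set_option autoImplicit false

namespace H60NH

open MeasureTheory Metric Set Filter Topology
open scoped ENNReal NNReal ContDiff

theorem vitali_bd {n : ℕ} (hn : 1 ≤ n) (T : Set (E n)) (g : E n → ℝ) (hg : Integrable g)
    (h0 : ∀ x, 0 ≤ g x) (w : ℕ → ℝ) (hw : ∀ k, 0 < w k) (k₀ : ℕ) (b : ℝ) (hb : 0 ≤ b)
    (h : ∀ x ∈ T, ∃ k, k₀ < k ∧ w k ≤ ∫ y in closedBall x (8 / p2 k), g y)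
    (hv : ∀ k, k₀ < k → vb n * (40 / p2 k) ^ n ≤ b * w k) :
    volume T ≤ ENNReal.ofReal (b * ∫ x, g x) := by
  classical
  have hp2 : ∀ k, 0 < p2 k := fun k => by unfold p2; positivity
  have hp21 : ∀ k, 1 ≤ p2 k := fun k => by
    unfold p2; exact one_le_pow₀ (by norm_num)
  choose! kk hk1 hk2 using h
  obtain ⟨u, huT, hud, huc⟩ := Vitali.exists_disjoint_subfamily_covering_enlargement_closedBall
    T (fun x : E n => x) (fun x => 8 / p2 (kk x)) 8
    (fun a _ => div_le_self (by norm_num) (hp21 _)) 5 (by norm_num)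
  have hucount : u.Countable := by
    apply Set.PairwiseDisjoint.countable_of_nonempty_interior hud
    intro i _
    refine ⟨i, ?_⟩
    have : ball i (8 / p2 (kk i)) ⊆ interior (closedBall i (8 / p2 (kk i))) :=
      ball_subset_interior_closedBall
    exact this (mem_ball_self (div_pos (by norm_num) (hp2 _)))
  have hvol : ∀ (x : E n) (r : ℝ), 0 ≤ r →
      volume (closedBall x r) = ENNReal.ofReal (vb n * r ^ n) := by
    intro x r hr
    rw [Measure.addHaar_closedBall _ _ hr, finrank_euclideanSpace, Fintype.card_fin, mul_comm (vb n),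
      ENNReal.ofReal_mul (by positivity)]
    congr 1
    unfold vb
    rw [ENNReal.ofReal_toReal]
    exact measure_ball_lt_top.ne
  have hcover : T ⊆ ⋃ x ∈ u, closedBall x (5 * (8 / p2 (kk x))) := by
    intro x hx
    obtain ⟨y, hy, hxy⟩ := huc x hx
    rw [mem_iUnion₂]
    exact ⟨y, hy, hxy (mem_closedBall_self (div_pos (by norm_num) (hp2 _)).le)⟩
  calc volume T ≤ volume (⋃ x ∈ u, closedBall x (5 * (8 / p2 (kk x)))) := measure_mono hcover
    _ ≤ ∑' x : u, volume (closedBall (x : E n) (5 * (8 / p2 (kk x)))) :=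
        measure_biUnion_le _ hucount _
    _ ≤ ∑' x : u, ENNReal.ofReal b *
          ∫⁻ y in closedBall (x : E n) (8 / p2 (kk x)), ENNReal.ofReal (g y) := by
        apply ENNReal.tsum_le_tsum
        rintro ⟨x, hx⟩
        have hxT := huT hx
        have h1 := hv (kk x) (hk1 x hxT)
        have h2 := hk2 x hxT
        rw [hvol _ _ (by have := hp2 (kk x); positivity)]
        have h3 : vb n * (5 * (8 / p2 (kk x))) ^ n ≤
            b * ∫ y in closedBall x (8 / p2 (kk x)), g y := by
          have h4 : (5 * (8 / p2 (kk x))) = 40 / p2 (kk x) := by ring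
          rw [h4]
          exact h1.trans (mul_le_mul_of_nonneg_left h2 hb)
        rw [← ofReal_integral_eq_lintegral_ofReal hg.integrableOn
          (Filter.Eventually.of_forall h0), ← ENNReal.ofReal_mul hb]
        exact ENNReal.ofReal_le_ofReal h3
    _ = ENNReal.ofReal b *
          ∫⁻ y in ⋃ x ∈ u, closedBall (x : E n) (8 / p2 (kk x)), ENNReal.ofReal (g y) := by
        rw [ENNReal.tsum_mul_left, lintegral_biUnion hucount
          (fun i _ => measurableSet_closedBall) hud]
    _ ≤ ENNReal.ofReal b * ∫⁻ y, ENNReal.ofReal (g y) :=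
        mul_le_mul_right (setLIntegral_le_lintegral _ _) _
    _ = ENNReal.ofReal (b * ∫ x, g x) := by
        rw [← ofReal_integral_eq_lintegral_ofReal hg (Filter.Eventually.of_forall h0),
          ← ENNReal.ofReal_mul hb]

end H60NH
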