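import Pool.Agent.H60.NH.NHold
import Pool.Agent.H60.NH.NVit

/-!
# [H60 NH NMEAS] The measure of `{N > c}` (endpoint estimate)

`F = ∫ f^s`, `I_k(x) = ∫_{ball x (8/p2 k)} f^s`, `AA_k(x)^s <= C₀ 2^(k/2) I_k(x)` (`AA_hold`).
Let `c₁ > 0` be small (depending on `n, c`). If `F >= c₁` the claim is trivial (`volume <= vb n`). Let
`F < c₁` and let `k₀ >= 0` be the largest integer with `2^(k₀/2) F <= c₁`, so `2^(-k₀/2) <= √2 F/c₁` (if `F = 0`
then `f = 0` a.e., `N = 0` and the set is empty).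
* `∑_{k <= k₀} AA_k <= ∑ (C₀ 2^(k/2) F)^(1/s) <= C (2^(k₀/2) F)^(1/s) <= C c₁^(1/s) <= c/2` for `c₁` small.
* If `N(x) > c` then `∑_{k > k₀} AA_k(x) > c/2`, so for some `k > k₀`: `AA_k(x) > c₂ 2^(-(k-k₀)/s)` with
`c₂ = (c/2)(2^(1/s) - 1)` (the sum of `c₂ 2^(-(k-k₀)/s)` over `k > k₀` is `c/2`), hence
`I_k(x) > w k := c₃ 2^(-k/2) 2^(-(k-k₀))`, `c₃ = c₂^s / C₀`.
* `vitali_bd` with `g = f^s` (`fs_int`), `w k` (for `k <= k₀` any positive number), and
`b = C 2^(-k₀(n-1/2))`: `(p2 k)^(-n) = 2^(-k/2 - (k - k₀)) · 2^(-k (n - 1/2) + (k - k₀))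
<= 2^(-k/2-(k-k₀)) · 2^(-k₀ (n-1/2))` for `k > k₀` (`n - 1/2 >= 1`). So
`volume <= C F 2^(-k₀(n-1/2)) = C F (2^(-k₀/2))^(2n-1) <= C F^(2n)`.
-/

set_option autoImplicit false

namespace H60NH

open MeasureTheory Metric Set Filter Topology
open scoped ENNReal NNReal ContDiff

theorem sqrt_p2 (k : ℕ) : Real.sqrt (p2 k) = Real.sqrt 2 ^ k := by
  unfold p2
  rw [Real.sqrt_eq_iff_mul_self_eq_of_pos (by positivity), ← mul_pow, Real.mul_self_sqrt (by norm_num)]

/-- The geometric sum over the coarse scales. -/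
theorem coarse_sum {a q c : ℝ} (hq : 1 < q) (ha : 0 ≤ a) (k₀ : ℕ) (h : a * q ^ k₀ * (q / (q - 1)) ≤ c) :
    ∑ k ∈ Finset.range (k₀ + 1), a * q ^ k ≤ c := by
  have hq1 : 0 < q - 1 := by linarith
  rw [← Finset.mul_sum, geom_sum_eq hq.ne']
  refine le_trans ?_ h
  rw [mul_assoc]
  refine mul_le_mul_of_nonneg_left ?_ ha
  rw [mul_div_assoc', div_le_div_iff_of_pos_right hq1, pow_succ]
  linarith

/-- The geometric sum over the fine scales. -/
theorem fine_sum {ρ c₂ c : ℝ} (hρ0 : 0 < ρ) (hρ1 : ρ < 1) (hc₂ : c₂ = c * (1 - ρ) / ρ) (hc : 0 < c) (m : ℕ) :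
    ∑ j ∈ Finset.range m, c₂ * ρ ^ (j + 1) ≤ c := by
  have h1 : 0 < 1 - ρ := by linarith
  have h2 : ∀ j, c₂ * ρ ^ (j + 1) = c * (1 - ρ) * ρ ^ j := by
    intro j
    rw [hc₂, pow_succ]
    field_simp
  simp_rw [h2]
  rw [← Finset.mul_sum]
  have h3 := geom_sum_mul_neg ρ m
  have h4 : c * (1 - ρ) * ∑ i ∈ Finset.range m, ρ ^ i = c * ((∑ i ∈ Finset.range m, ρ ^ i) * (1 - ρ)) := by ring
  rw [h4, h3]
  have h5 : 0 ≤ ρ ^ m := by positivity
  nlinarith

theorem Ninf_vol (n : ℕ) (hn : 2 ≤ n) (c : ℝ) (hc : 0 < c) : ∃ C₀ : ℝ, 1 ≤ C₀ ∧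
    ∀ (f : E n → ℝ) (ε : ℝ), Mor f ε →
      volume {x ∈ ball (0 : E n) 1 | ENNReal.ofReal c < Ninf f x} ≤
        ENNReal.ofReal (C₀ * (∫ x, f x ^ sn n) ^ (2 * n)) := by
  obtain ⟨CA, hCA, hAA⟩ := AA_hold n hn
  obtain ⟨hs1, -⟩ := sn_bd hn
  have hs0 : 0 < sn n := by linarith
  have hvb := vb_pos n
  have hCA0 : 0 < CA := by linarith
  have h20 : (0 : ℝ) < Real.sqrt 2 := by positivity
  have h21 : (1 : ℝ) < Real.sqrt 2 := by
    rw [Real.lt_sqrt (by norm_num)]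
    norm_num
  obtain ⟨q, hq⟩ : ∃ q : ℝ, q = Real.sqrt 2 ^ (1 / sn n) := ⟨_, rfl⟩
  have hq1 : 1 < q := by
    rw [hq]
    exact Real.one_lt_rpow h21 (by positivity)
  have hq0 : 0 < q := by linarith
  have hq1' : 0 < q - 1 := by linarith
  obtain ⟨ρ, hρ⟩ : ∃ ρ : ℝ, ρ = (2 : ℝ)⁻¹ ^ (1 / sn n) := ⟨_, rfl⟩
  have hρ0 : 0 < ρ := by rw [hρ]; positivity
  have hρ1 : ρ < 1 := by
    rw [hρ]
    exact Real.rpow_lt_one (by norm_num) (by norm_num) (by positivity)
  have h1ρ : 0 < 1 - ρ := by linarith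
  obtain ⟨c₁, hc₁⟩ : ∃ c₁ : ℝ, c₁ = ((c / 2) * ((q - 1) / q)) ^ sn n / CA := ⟨_, rfl⟩
  have hc₁0 : 0 < c₁ := by rw [hc₁]; positivity
  obtain ⟨c₂, hc₂⟩ : ∃ c₂ : ℝ, c₂ = (c / 2) * (1 - ρ) / ρ := ⟨_, rfl⟩
  have hc₂0 : 0 < c₂ := by rw [hc₂]; positivity
  obtain ⟨c₃, hc₃⟩ : ∃ c₃ : ℝ, c₃ = c₂ ^ sn n / CA := ⟨_, rfl⟩
  have hc₃0 : 0 < c₃ := by rw [hc₃]; positivity
  refine ⟨max 1 (max (vb n / c₁ ^ (2 * n)) (vb n * 40 ^ n / c₃ * (Real.sqrt 2 / c₁) ^ (2 * n - 1))),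
    le_max_left _ _, ?_⟩
  intro f ε hf
  have hfs := fs_int hn hf
  have hfs0 : ∀ y, 0 ≤ f y ^ sn n := fun y => Real.rpow_nonneg (hf.nonneg y) _
  obtain ⟨F, hF⟩ : ∃ F : ℝ, F = ∫ x, f x ^ sn n := ⟨_, rfl⟩
  have hF0 : 0 ≤ F := by rw [hF]; exact integral_nonneg hfs0
  rw [← hF]
  have hp : ∀ k, 0 < p2 k := fun k => by unfold p2; positivity
  have hI0 : ∀ (k : ℕ) (x : E n), 0 ≤ ∫ y in ball x (8 / p2 k), f y ^ sn n := fun k x => integral_nonneg hfs0
  have hIF : ∀ (k : ℕ) (x : E n), ∫ y in ball x (8 / p2 k), f y ^ sn n ≤ F := fun k x => by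
    rw [hF]
    exact setIntegral_le_integral hfs (Filter.Eventually.of_forall hfs0)
  have hA0 : ∀ (k : ℕ) (x : E n), 0 ≤ AA f k x := fun k x => (AA_nonneg hf k x).1
  -- the bound of `AA_k` by `F`
  have hAF : ∀ (k : ℕ) (x : E n), AA f k x ≤ (CA * F) ^ (1 / sn n) * q ^ k := by
    intro k x
    have h1 : AA f k x ^ sn n ≤ CA * (Real.sqrt (p2 k) * F) :=
      (hAA f ε hf k x).trans (mul_le_mul_of_nonneg_left (mul_le_mul_of_nonneg_left (hIF k x)
        (Real.sqrt_nonneg _)) hCA0.le)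
    have h2 := Real.rpow_le_rpow (Real.rpow_nonneg (hA0 k x) _) h1 (z := 1 / sn n) (by positivity)
    rw [← Real.rpow_mul (hA0 k x), mul_one_div_cancel hs0.ne', Real.rpow_one] at h2
    refine h2.trans (le_of_eq ?_)
    rw [sqrt_p2, show CA * (Real.sqrt 2 ^ k * F) = (CA * F) * Real.sqrt 2 ^ k by ring,
      Real.mul_rpow (x := CA * F) (y := Real.sqrt 2 ^ k) (by positivity) (by positivity), hq,
      Real.rpow_pow_comm h20.le]
  -- the three cases
  rcases hF0.eq_or_lt with hFz | hFp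
  · -- `F = 0`
    have hempty : {x ∈ ball (0 : E n) 1 | ENNReal.ofReal c < Ninf f x} = ∅ := by
      rw [Set.eq_empty_iff_forall_notMem]
      rintro x ⟨-, hx⟩
      obtain ⟨K, hK⟩ := (NN_eventually hf c hc.le x hx).exists
      have h1 : NN f K 0 x ≤ 0 := by
        apply Finset.sum_nonpos
        intro j _
        have := hAF j x
        rw [← hFz, mul_zero, Real.zero_rpow (by positivity), zero_mul] at this
        exact this
      linarith
    rw [hempty, measure_empty]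
    exact zero_le
  rcases le_or_gt c₁ F with hFc | hFc
  · -- `F` large
    have h1 : volume {x ∈ ball (0 : E n) 1 | ENNReal.ofReal c < Ninf f x} ≤ ENNReal.ofReal (vb n) := by
      refine (measure_mono (Set.sep_subset _ _)).trans ?_
      rw [vol_ball (0 : E n) 1 one_pos, one_pow, mul_one]
    refine h1.trans (ENNReal.ofReal_le_ofReal ?_)
    have h2 : c₁ ^ (2 * n) ≤ F ^ (2 * n) := pow_le_pow_left₀ hc₁0.le hFc _
    calc vb n = vb n / c₁ ^ (2 * n) * c₁ ^ (2 * n) := by field_simp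
      _ ≤ vb n / c₁ ^ (2 * n) * F ^ (2 * n) := by gcongr
      _ ≤ _ := mul_le_mul_of_nonneg_right ((le_max_left _ _).trans (le_max_right _ _)) (by positivity)
  · -- the main case
    obtain ⟨k₀, hk1, hk2⟩ := exists_nat_pow_near (x := c₁ / F) (y := Real.sqrt 2)
      (by rw [one_le_div hFp]; exact hFc.le) h21
    rw [le_div_iff₀ hFp] at hk1
    have hcoarse : ∀ x : E n, ∑ k ∈ Finset.range (k₀ + 1), AA f k x ≤ c / 2 := by
      intro x
      refine (Finset.sum_le_sum fun k _ => hAF k x).trans ?_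
      apply coarse_sum hq1 (by positivity)
      have h1 : (CA * F) ^ (1 / sn n) * q ^ k₀ = (CA * (Real.sqrt 2 ^ k₀ * F)) ^ (1 / sn n) := by
        rw [show CA * (Real.sqrt 2 ^ k₀ * F) = (CA * F) * Real.sqrt 2 ^ k₀ by ring,
          Real.mul_rpow (x := CA * F) (y := Real.sqrt 2 ^ k₀) (by positivity) (by positivity), hq,
          Real.rpow_pow_comm h20.le]
      have h2 : (CA * (Real.sqrt 2 ^ k₀ * F)) ^ (1 / sn n) ≤ (c / 2) * ((q - 1) / q) := by
        have h3 : CA * (Real.sqrt 2 ^ k₀ * F) ≤ ((c / 2) * ((q - 1) / q)) ^ sn n := by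
          calc CA * (Real.sqrt 2 ^ k₀ * F) ≤ CA * c₁ := mul_le_mul_of_nonneg_left hk1 hCA0.le
            _ = ((c / 2) * ((q - 1) / q)) ^ sn n := by rw [hc₁]; field_simp
        refine (Real.rpow_le_rpow (by positivity) h3 (by positivity)).trans (le_of_eq ?_)
        rw [← Real.rpow_mul (by positivity), mul_one_div_cancel hs0.ne', Real.rpow_one]
      rw [h1]
      calc (CA * (Real.sqrt 2 ^ k₀ * F)) ^ (1 / sn n) * (q / (q - 1))
          ≤ (c / 2) * ((q - 1) / q) * (q / (q - 1)) := mul_le_mul_of_nonneg_right h2 (by positivity)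
        _ = c / 2 := by field_simp
    -- a large fine scale
    have hfine : ∀ x : E n, ENNReal.ofReal c < Ninf f x → ∃ k, k₀ < k ∧
        c₃ / (Real.sqrt (p2 k) * p2 (k - k₀)) ≤ ∫ y in ball x (8 / p2 k), f y ^ sn n := by
      intro x hx
      by_contra hcon
      push Not at hcon
      have hsmall : ∀ k, k₀ < k → AA f k x ≤ c₂ * ρ ^ (k - k₀) := by
        intro k hk
        have h1 := hAA f ε hf k x
        have h2 := hcon k hk
        have hsq : 0 < Real.sqrt (p2 k) := Real.sqrt_pos.2 (hp k)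
        have h3 : AA f k x ^ sn n ≤ (c₂ * ρ ^ (k - k₀)) ^ sn n := by
          refine h1.trans ?_
          have h4 : CA * (Real.sqrt (p2 k) * (c₃ / (Real.sqrt (p2 k) * p2 (k - k₀)))) =
              (c₂ * ρ ^ (k - k₀)) ^ sn n := by
            have h5 : (ρ ^ (k - k₀)) ^ sn n = (p2 (k - k₀))⁻¹ := by
              rw [hρ, Real.rpow_pow_comm (by norm_num), ← Real.rpow_mul (by positivity), one_div_mul_cancel hs0.ne',
                Real.rpow_one, inv_pow]
              rfl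
            have h6 := hp (k - k₀)
            rw [Real.mul_rpow hc₂0.le (by positivity), h5, hc₃]
            field_simp
          rw [← h4]
          exact mul_le_mul_of_nonneg_left (mul_le_mul_of_nonneg_left h2.le hsq.le) hCA0.le
        exact (Real.rpow_le_rpow_iff (hA0 k x) (by positivity) hs0).1 h3
      obtain ⟨K, hK, hKk⟩ := ((NN_eventually hf c hc.le x hx).and (Filter.eventually_ge_atTop (k₀ + 1))).exists
      have hsplit : NN f K 0 x = ∑ k ∈ Finset.range (k₀ + 1), AA f k x + ∑ j ∈ Finset.range (K - (k₀ + 1)), AA f (k₀ + 1 + j) x := by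
        unfold NN
        rw [Nat.Ico_zero_eq_range, ← Finset.sum_range_add_sum_Ico _ hKk, Finset.sum_Ico_eq_sum_range]
      have h7 : ∑ j ∈ Finset.range (K - (k₀ + 1)), AA f (k₀ + 1 + j) x ≤ c / 2 := by
        refine le_trans (Finset.sum_le_sum fun j _ => ?_) (fine_sum hρ0 hρ1 hc₂ (by positivity) (K - (k₀ + 1)))
        have h8 := hsmall (k₀ + 1 + j) (by omega)
        rw [show k₀ + 1 + j - k₀ = j + 1 by omega] at h8
        exact h8
      have h8 := hcoarse x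
      linarith
    -- Vitali
    obtain ⟨b, hb⟩ : ∃ b : ℝ, b = vb n * 40 ^ n / c₃ * (Real.sqrt (p2 k₀) / p2 k₀ ^ n) := ⟨_, rfl⟩
    have hsk : 0 < Real.sqrt (p2 k₀) := Real.sqrt_pos.2 (hp k₀)
    have hpk := hp k₀
    have hb0 : 0 ≤ b := by rw [hb]; positivity
    have hvit := vitali_bd (n := n) (by omega) {x ∈ ball (0 : E n) 1 | ENNReal.ofReal c < Ninf f x}
      (fun y => f y ^ sn n) hfs hfs0 (fun k => c₃ / (Real.sqrt (p2 k) * p2 (k - k₀)))
      (fun k => by have := hp k; have := hp (k - k₀); positivity) k₀ b hb0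
      (by
        rintro x ⟨-, hx⟩
        obtain ⟨k, hk, hk'⟩ := hfine x hx
        refine ⟨k, hk, hk'.trans ?_⟩
        exact setIntegral_mono_set hfs.integrableOn (Filter.Eventually.of_forall hfs0)
          ball_subset_closedBall.eventuallyLE)
      (by
        intro k hk
        obtain ⟨m, rfl⟩ : ∃ m, k = k₀ + m := ⟨k - k₀, by omega⟩
        have hm := hp m
        have hm1 : 1 ≤ p2 m := by unfold p2; exact one_le_pow₀ (by norm_num)
        have hpm : p2 (k₀ + m) = p2 k₀ * p2 m := by unfold p2; rw [pow_add]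
        rw [show k₀ + m - k₀ = m by omega, hpm, Real.sqrt_mul hpk.le, hb, div_pow, mul_pow]
        have hsm : 0 < Real.sqrt (p2 m) := Real.sqrt_pos.2 hm
        have hsm1 : Real.sqrt (p2 m) ≤ p2 m := by
          rw [Real.sqrt_le_left hm.le]
          nlinarith
        have h9 : vb n * 40 ^ n / c₃ * (Real.sqrt (p2 k₀) / p2 k₀ ^ n) *
            (c₃ / (Real.sqrt (p2 k₀) * Real.sqrt (p2 m) * p2 m)) =
            vb n * (40 ^ n / (p2 k₀ ^ n * (Real.sqrt (p2 m) * p2 m))) := by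
          field_simp
        rw [h9]
        refine mul_le_mul_of_nonneg_left ?_ hvb.le
        refine div_le_div_of_nonneg_left (by positivity) (by positivity) ?_
        refine mul_le_mul_of_nonneg_left ?_ (by positivity)
        calc Real.sqrt (p2 m) * p2 m ≤ p2 m * p2 m := mul_le_mul_of_nonneg_right hsm1 hm.le
          _ = p2 m ^ 2 := (sq _).symm
          _ ≤ p2 m ^ n := pow_le_pow_right₀ hm1 hn)
    rw [← hF] at hvit
    refine hvit.trans (ENNReal.ofReal_le_ofReal ?_)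
    obtain ⟨y, hy⟩ : ∃ y : ℝ, y = Real.sqrt 2 ^ k₀ := ⟨_, rfl⟩
    have hy0 : 0 < y := by rw [hy]; positivity
    have hy1 : 1 / y ≤ Real.sqrt 2 / c₁ * F := by
      rw [pow_succ, ← hy, div_lt_iff₀ hFp] at hk2
      rw [div_le_iff₀ hy0, div_mul_eq_mul_div, div_mul_eq_mul_div, le_div_iff₀ hc₁0]
      linarith
    have hpy : p2 k₀ = y ^ 2 := by
      rw [hy, ← sqrt_p2, Real.sq_sqrt hpk.le]
    have h10 : Real.sqrt (p2 k₀) / p2 k₀ ^ n = (1 / y) ^ (2 * n - 1) := by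
      rw [sqrt_p2, ← hy, hpy, ← pow_mul, one_div, inv_pow]
      have h11 : y ^ (2 * n) = y * y ^ (2 * n - 1) := by
        rw [← pow_succ']
        congr 1
        omega
      rw [h11]
      field_simp
    calc b * F = vb n * 40 ^ n / c₃ * (1 / y) ^ (2 * n - 1) * F := by rw [hb, h10]
      _ ≤ vb n * 40 ^ n / c₃ * (Real.sqrt 2 / c₁ * F) ^ (2 * n - 1) * F := by gcongr
      _ = vb n * 40 ^ n / c₃ * (Real.sqrt 2 / c₁) ^ (2 * n - 1) * F ^ (2 * n) := by
          rw [mul_pow]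
          have h12 : F ^ (2 * n) = F ^ (2 * n - 1) * F := by
            rw [← pow_succ]
            congr 1
            omega
          rw [h12]
          ring
      _ ≤ _ := mul_le_mul_of_nonneg_right ((le_max_right _ _).trans (le_max_right _ _)) (by positivity)

end H60NH
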