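import Pool.Agent.H60.NH.NKs

/-!
# [H60 NH NOUT] The part where `N` is large

Let `T = {x ∈ ball 0 1 | ofReal c < Ninf f x}` (measurable, `Ninf_meas`). For `x ∈ T`, `c < NN f K 0 x` for
all large `K` (`NN_eventually`). So `∫_T f^(n-1) = lim_K ∫_T f^(n-1) 1_{NN_K > c}` (dominated convergence,
`f^(n-1) <= f + f^n` integrable) and `f^(n-1) 1_{NN_K > c} <= c^(-2) f^(n-1) NN_K^2`, whose integral over the
ball is at most `C₀ A^(n+1)` (`K2`).
-/

set_option autoImplicit false

namespace H60NH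

open MeasureTheory Metric Set Filter Topology
open scoped ENNReal NNReal ContDiff

theorem fn1_int {n : ℕ} (hn : 3 ≤ n) {f : E n → ℝ} {ε : ℝ} (hf : Mor f ε) :
    Integrable (fun x => f x ^ (n - 1)) := by
  refine (hf.int.add hf.intn).mono (hf.meas.pow_const _).aestronglyMeasurable ?_
  refine Filter.Eventually.of_forall fun x => ?_
  have h0 := hf.nonneg x
  have h1 : 0 ≤ f x ^ n := pow_nonneg h0 n
  rw [Pi.add_apply, Real.norm_of_nonneg (pow_nonneg h0 _), Real.norm_of_nonneg (by positivity)]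
  rcases le_total (f x) 1 with h | h
  · have h2 : f x ^ (n - 1) ≤ f x ^ 1 := pow_le_pow_of_le_one h0 h (by omega)
    rw [pow_one] at h2
    linarith
  · have h2 : f x ^ (n - 1) ≤ f x ^ n := pow_le_pow_right₀ h (by omega)
    linarith

theorem out_bd (n : ℕ) (hn : 3 ≤ n) (c : ℝ) (hc : 0 < c) : ∃ C₀ : ℝ, 1 ≤ C₀ ∧
    ∀ (f : E n → ℝ) (ε : ℝ), Mor f ε →
      ∫ x in {x ∈ ball (0 : E n) 1 | ENNReal.ofReal c < Ninf f x}, f x ^ (n - 1) ≤
        C₀ * As f ^ (n + 1) := by
  obtain ⟨C₂, hC₂, hK2⟩ := K2 n hn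
  refine ⟨max 1 (C₂ / c ^ 2), le_max_left _ _, ?_⟩
  intro f ε hf
  obtain ⟨hA0, -, -⟩ := As_pow (n := n) (by omega) hf
  have hfn := fn1_int hn hf
  have hT : MeasurableSet {x ∈ ball (0 : E n) 1 | ENNReal.ofReal c < Ninf f x} :=
    measurableSet_ball.inter (measurableSet_lt measurable_const (Ninf_meas (by omega) hf.int))
  have hNc : ∀ K, Continuous (NN f K 0) := fun K => NN_cont (by omega) hf.int K 0
  have hN0 := NN_nonneg hf
  -- dominated convergence
  have hlim : Tendsto (fun K : ℕ => ∫ x in {x ∈ ball (0 : E n) 1 | ENNReal.ofReal c < Ninf f x},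
      {x | c < NN f K 0 x}.indicator (fun x => f x ^ (n - 1)) x) atTop
      (𝓝 (∫ x in {x ∈ ball (0 : E n) 1 | ENNReal.ofReal c < Ninf f x}, f x ^ (n - 1))) := by
    apply tendsto_integral_of_dominated_convergence (fun x => f x ^ (n - 1))
    · intro K
      exact ((hf.meas.pow_const (n - 1)).indicator
        (measurableSet_lt measurable_const (hNc K).measurable)).aestronglyMeasurable
    · exact hfn.integrableOn
    · intro K
      refine Filter.Eventually.of_forall fun x => ?_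
      have h0 := pow_nonneg (hf.nonneg x) (n - 1)
      refine (norm_indicator_le_norm_self _ _).trans (le_of_eq ?_)
      exact Real.norm_of_nonneg h0
    · filter_upwards [ae_restrict_mem hT] with x hx
      refine tendsto_const_nhds.congr' ?_
      filter_upwards [NN_eventually hf c hc.le x hx.2] with K hK
      rw [Set.indicator_of_mem (show x ∈ {x | c < NN f K 0 x} from hK)]
  refine le_of_tendsto hlim (Filter.Eventually.of_forall fun K => ?_)
  have hint2 : IntegrableOn (fun x => f x ^ (n - 1) * NN f K 0 x ^ 2) (ball (0 : E n) 1) := by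
    obtain ⟨M, hM⟩ : ∃ M : ℝ, ∀ x, NN f K 0 x ^ 2 ≤ M := by
      refine ⟨(K * (8 ^ (n - 1) * ε)) ^ 2, fun x => ?_⟩
      exact pow_le_pow_left₀ (hN0 K 0 x) (NN_le hf K 0 x) 2
    have hM0 : 0 ≤ M := (sq_nonneg _).trans (hM 0)
    refine ((hfn.const_mul M).mono ((hf.meas.pow_const _).mul ((hNc K).pow 2).measurable).aestronglyMeasurable
      ?_).integrableOn
    refine Filter.Eventually.of_forall fun x => ?_
    have h0 := pow_nonneg (hf.nonneg x) (n - 1)
    change ‖f x ^ (n - 1) * NN f K 0 x ^ 2‖ ≤ _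
    rw [Real.norm_of_nonneg (mul_nonneg h0 (sq_nonneg _)), Real.norm_of_nonneg (mul_nonneg hM0 h0), mul_comm]
    exact mul_le_mul_of_nonneg_right (hM x) h0
  have hcs : ∀ x, {x | c < NN f K 0 x}.indicator (fun x => f x ^ (n - 1)) x ≤
      (c ^ 2)⁻¹ * (f x ^ (n - 1) * NN f K 0 x ^ 2) := by
    intro x
    have h0 := pow_nonneg (hf.nonneg x) (n - 1)
    by_cases hx : c < NN f K 0 x
    · rw [Set.indicator_of_mem (show x ∈ {x | c < NN f K 0 x} from hx), inv_mul_eq_div, le_div_iff₀ (by positivity)]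
      refine mul_le_mul_of_nonneg_left ?_ h0
      exact pow_le_pow_left₀ hc.le hx.le 2
    · rw [Set.indicator_of_notMem (show x ∉ {x | c < NN f K 0 x} from hx)]
      positivity
  have hnn : ∀ x, 0 ≤ (c ^ 2)⁻¹ * (f x ^ (n - 1) * NN f K 0 x ^ 2) := fun x => by
    have h0 := pow_nonneg (hf.nonneg x) (n - 1)
    positivity
  calc ∫ x in {x ∈ ball (0 : E n) 1 | ENNReal.ofReal c < Ninf f x},
        {x | c < NN f K 0 x}.indicator (fun x => f x ^ (n - 1)) x
      ≤ ∫ x in {x ∈ ball (0 : E n) 1 | ENNReal.ofReal c < Ninf f x}, (c ^ 2)⁻¹ * (f x ^ (n - 1) * NN f K 0 x ^ 2) := by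
        refine setIntegral_mono ?_ ((hint2.mono_set (Set.sep_subset _ _)).const_mul _) hcs
        exact (hfn.indicator (measurableSet_lt measurable_const (hNc K).measurable)).integrableOn
    _ ≤ ∫ x in ball (0 : E n) 1, (c ^ 2)⁻¹ * (f x ^ (n - 1) * NN f K 0 x ^ 2) :=
        setIntegral_mono_set (hint2.const_mul _) (Filter.Eventually.of_forall hnn)
          (Set.sep_subset _ _).eventuallyLE
    _ = (c ^ 2)⁻¹ * ∫ x in ball (0 : E n) 1, f x ^ (n - 1) * NN f K 0 x ^ 2 := integral_const_mul _ _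
    _ ≤ (c ^ 2)⁻¹ * (C₂ * As f ^ (n + 1)) := mul_le_mul_of_nonneg_left (hK2 f ε hf K) (by positivity)
    _ = (C₂ / c ^ 2) * As f ^ (n + 1) := by ring
    _ ≤ _ := mul_le_mul_of_nonneg_right (le_max_right _ _) (by positivity)

end H60NH
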