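import Pool.Agent.H60.NH.Def3

/-!
# [H60 NH NR1B] Young's inequalities (numerical)

`n = 3` or `n = 4`, `0 < ε <= 1`, `X, D >= 0`.
1. `A ε X^(1/2 + 1/n) D^(1/2 - 1/n) <= η X + C ε^n D`: Young with the exponents `2n/(n+2)` and `2n/(n-2)`:
the second term is `C (A ε)^(2n/(n-2)) D`, and `2n/(n-2) = 6` (`n = 3`), `= 4` (`n = 4`) is at least `n`,
`ε <= 1`. For `n = 3`: `X^(5/6) (A^6 ε^6 D)^(1/6)`, for `n = 4`: `X^(3/4) (A^4 ε^4 D)^(1/4)`; weighted AM-GM.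
2. `A ε^2 X^(1/2) D^(1/2) <= η X + A^2/(4η) ε^4 D`, `ε^4 <= ε^n`.
-/

set_option autoImplicit false

namespace H60NH

open MeasureTheory Metric Set Filter Topology
open scoped ENNReal NNReal ContDiff

theorem young_aux (q : ℕ) (hq : 1 < q) (A η : ℝ) (hA : 0 ≤ A) (hη : 0 < η) :
    ∃ C : ℝ, 0 ≤ C ∧ ∀ ε X D : ℝ, 0 < ε → 0 ≤ X → 0 ≤ D →
      A * ε * (X ^ (1 - (q : ℝ)⁻¹) * D ^ ((q : ℝ)⁻¹)) ≤ η * X + C * ε ^ q * D := by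
  have hq0 : (0 : ℝ) < q := by exact_mod_cast (by omega : 0 < q)
  have hq1 : (1 : ℝ) < q := by exact_mod_cast hq
  have ht0 : 0 < (q : ℝ)⁻¹ := inv_pos.2 hq0
  have ht1 : (q : ℝ)⁻¹ < 1 := inv_lt_one_of_one_lt₀ hq1
  have hη' : 0 < η ^ (1 - (q : ℝ)⁻¹) := Real.rpow_pos_of_pos hη _
  refine ⟨(A / η ^ (1 - (q : ℝ)⁻¹)) ^ q, by positivity, ?_⟩
  intro ε X D hε hX hD
  set K : ℝ := A / η ^ (1 - (q : ℝ)⁻¹) with hK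
  have hK0 : 0 ≤ K := by positivity
  have h1 := Real.geom_mean_le_arith_mean2_weighted (w₁ := 1 - (q : ℝ)⁻¹) (w₂ := (q : ℝ)⁻¹)
    (p₁ := η * X) (p₂ := (K * ε) ^ q * D) (by linarith) ht0.le (by positivity) (by positivity) (by ring)
  have h2 : (η * X) ^ (1 - (q : ℝ)⁻¹) * ((K * ε) ^ q * D) ^ ((q : ℝ)⁻¹) =
      A * ε * (X ^ (1 - (q : ℝ)⁻¹) * D ^ ((q : ℝ)⁻¹)) := by
    rw [Real.mul_rpow hη.le hX, Real.mul_rpow (by positivity) hD,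
      Real.pow_rpow_inv_natCast (by positivity) (by omega)]
    rw [hK]
    field_simp
  rw [h2] at h1
  have h3 : (1 - (q : ℝ)⁻¹) * (η * X) ≤ η * X := by
    have : 0 ≤ η * X := by positivity
    nlinarith
  have h4 : (q : ℝ)⁻¹ * ((K * ε) ^ q * D) ≤ K ^ q * ε ^ q * D := by
    rw [mul_pow]
    have : 0 ≤ K ^ q * ε ^ q * D := by positivity
    nlinarith
  linarith

theorem young1 (n : ℕ) (hn : n = 3 ∨ n = 4) (A η : ℝ) (hA : 0 ≤ A) (hη : 0 < η) :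
    ∃ C : ℝ, 0 ≤ C ∧ ∀ ε X D : ℝ, 0 < ε → ε ≤ 1 → 0 ≤ X → 0 ≤ D →
      A * ε * (X ^ ((1 : ℝ) / 2) * D ^ ((1 : ℝ) / 2 - 1 / n)) * X ^ (1 / (n : ℝ)) ≤
        η * X + C * ε ^ n * D := by
  rcases hn with rfl | rfl
  · obtain ⟨C, hC, h⟩ := young_aux 6 (by norm_num) A η hA hη
    refine ⟨C, hC, ?_⟩
    intro ε X D hε hε1 hX hD
    have h1 := h ε X D hε hX hD
    have h2 : X ^ ((1 : ℝ) / 2) * X ^ (1 / ((3 : ℕ) : ℝ)) = X ^ (1 - ((6 : ℕ) : ℝ)⁻¹) := by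
      rw [← Real.rpow_add_of_nonneg hX (by norm_num) (by norm_num)]
      norm_num
    have h3 : (1 : ℝ) / 2 - 1 / ((3 : ℕ) : ℝ) = ((6 : ℕ) : ℝ)⁻¹ := by norm_num
    have h4 : ε ^ 6 ≤ ε ^ 3 := pow_le_pow_of_le_one hε.le hε1 (by norm_num)
    rw [h3]
    calc A * ε * (X ^ ((1 : ℝ) / 2) * D ^ (((6 : ℕ) : ℝ)⁻¹)) * X ^ (1 / ((3 : ℕ) : ℝ))
        = A * ε * ((X ^ ((1 : ℝ) / 2) * X ^ (1 / ((3 : ℕ) : ℝ))) * D ^ (((6 : ℕ) : ℝ)⁻¹)) := by ring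
      _ = A * ε * (X ^ (1 - ((6 : ℕ) : ℝ)⁻¹) * D ^ (((6 : ℕ) : ℝ)⁻¹)) := by rw [h2]
      _ ≤ η * X + C * ε ^ 6 * D := h1
      _ ≤ η * X + C * ε ^ 3 * D := by
          have : C * ε ^ 6 * D ≤ C * ε ^ 3 * D :=
            mul_le_mul_of_nonneg_right (mul_le_mul_of_nonneg_left h4 hC) hD
          linarith
  · obtain ⟨C, hC, h⟩ := young_aux 4 (by norm_num) A η hA hη
    refine ⟨C, hC, ?_⟩
    intro ε X D hε hε1 hX hD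
    have h1 := h ε X D hε hX hD
    have h2 : X ^ ((1 : ℝ) / 2) * X ^ (1 / ((4 : ℕ) : ℝ)) = X ^ (1 - ((4 : ℕ) : ℝ)⁻¹) := by
      rw [← Real.rpow_add_of_nonneg hX (by norm_num) (by norm_num)]
      norm_num
    have h3 : (1 : ℝ) / 2 - 1 / ((4 : ℕ) : ℝ) = ((4 : ℕ) : ℝ)⁻¹ := by norm_num
    rw [h3]
    calc A * ε * (X ^ ((1 : ℝ) / 2) * D ^ (((4 : ℕ) : ℝ)⁻¹)) * X ^ (1 / ((4 : ℕ) : ℝ))
        = A * ε * ((X ^ ((1 : ℝ) / 2) * X ^ (1 / ((4 : ℕ) : ℝ))) * D ^ (((4 : ℕ) : ℝ)⁻¹)) := by ring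
      _ = A * ε * (X ^ (1 - ((4 : ℕ) : ℝ)⁻¹) * D ^ (((4 : ℕ) : ℝ)⁻¹)) := by rw [h2]
      _ ≤ η * X + C * ε ^ 4 * D := h1

theorem young2 (n : ℕ) (hn : n = 3 ∨ n = 4) (A η : ℝ) (hA : 0 ≤ A) (hη : 0 < η) :
    ∃ C : ℝ, 0 ≤ C ∧ ∀ ε X D : ℝ, 0 < ε → ε ≤ 1 → 0 ≤ X → 0 ≤ D →
      A * ε ^ 2 * (X ^ ((1 : ℝ) / 2) * D ^ ((1 : ℝ) / 2 - 1 / n)) * D ^ (1 / (n : ℝ)) ≤
        η * X + C * ε ^ n * D := by
  refine ⟨A ^ 2 / (4 * η), by positivity, ?_⟩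
  intro ε X D hε hε1 hX hD
  have hn2 : 0 ≤ (1 : ℝ) / 2 - 1 / n ∧ 0 ≤ 1 / (n : ℝ) ∧ ε ^ 4 ≤ ε ^ n := by
    rcases hn with rfl | rfl
    · exact ⟨by norm_num, by norm_num, pow_le_pow_of_le_one hε.le hε1 (by norm_num)⟩
    · exact ⟨by norm_num, by norm_num, le_refl _⟩
  obtain ⟨hn2, hn3, hn4⟩ := hn2
  have h1 : D ^ ((1 : ℝ) / 2 - 1 / n) * D ^ (1 / (n : ℝ)) = D ^ ((1 : ℝ) / 2) := by
    rw [← Real.rpow_add_of_nonneg hD hn2 hn3]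
    congr 1
    ring
  have h2 : A * ε ^ 2 * (X ^ ((1 : ℝ) / 2) * D ^ ((1 : ℝ) / 2 - 1 / n)) * D ^ (1 / (n : ℝ)) =
      A * ε ^ 2 * (X ^ ((1 : ℝ) / 2) * D ^ ((1 : ℝ) / 2)) := by
    rw [← h1]
    ring
  rw [h2, ← Real.sqrt_eq_rpow, ← Real.sqrt_eq_rpow]
  obtain ⟨a, ha⟩ : ∃ a, a = √X := ⟨_, rfl⟩
  obtain ⟨b, hb⟩ : ∃ b, b = √D := ⟨_, rfl⟩
  have ha2 : X = a ^ 2 := by rw [ha, Real.sq_sqrt hX]
  have hb2 : D = b ^ 2 := by rw [hb, Real.sq_sqrt hD]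
  rw [← ha, ← hb]
  have h3 : A ^ 2 / (4 * η) * ε ^ 4 * D ≤ A ^ 2 / (4 * η) * ε ^ n * D :=
    mul_le_mul_of_nonneg_right (mul_le_mul_of_nonneg_left hn4 (by positivity)) hD
  refine le_trans ?_ (add_le_add_right h3 (η * X))
  rw [ha2, hb2]
  have h4 : η * a ^ 2 + A ^ 2 / (4 * η) * ε ^ 4 * b ^ 2 - A * ε ^ 2 * (a * b) =
      (2 * η * a - A * ε ^ 2 * b) ^ 2 / (4 * η) := by
    field_simp
    ring
  have h5 : 0 ≤ (2 * η * a - A * ε ^ 2 * b) ^ 2 / (4 * η) := by positivity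
  linarith

end H60NH
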