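import Pool.Agent.H60.NH.NCont

/-!
# [H60 NH NR1C] Splitting the integral with `TT`

`N_k = NN f K k`, `a_k = aa f k <= A_k = AA f k`, `g = χ^n f^(n-2) pg`. Insert the definition of `TT`; `χ` vanishes
outside `ball 0 1`, `pg <= f`. The integral of `g TT` is the sum of
(A) `ε ∫ g AA_0 e^{c N_0} <= ε ∫_{ball 0 1} f^(n-1) N_0 e^{c N_0}` (`AA_0 <= N_0` as `K >= 1`);
(B) `∑_k ∫ g e^{cN_k} a_k p2^n ∫_{ball x (1/p2 k)} pg(y)`; for `|x-y| < 1/p2 k`,
`χ(x) <= χ(y) + L/p2 k`, so `χ(x)^n pg(y) <= χ(x)^(n-1) (χ(y) pg(y) + L (p2 k)⁻¹ f(y))`: the first part is the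
second term of the statement, the second part is at most
`L ∑_k ∫_{ball 0 1} f^(n-1) e^{c N_k} a_k A_k <= L 8^(n-1) ε ∫_{ball 0 1} f^(n-1) N_0 e^{c N_0}`
(`p2^(n-1) ∫_{ball x (1/p2 k)} f <= A_k`, `a_k <= 8^(n-1) ε`, `N_k <= N_0`, `∑_{k<K} A_k = N_0`);
(C) the last term of the statement (`χ^n <= χ^(n-1)`).
Integrability: `f^(n-1)` (dominated by `f + f^n`) times bounded functions (`N_k`, `a_k`, and
`∫_{ball} pg <= ∫ f` are bounded); `x ↦ ∫_{ball x r} h` is continuous for integrable `h`.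
`absorb_int`: the same boundedness.
-/

set_option autoImplicit false

namespace H60NH

open MeasureTheory Metric Set Filter Topology
open scoped ENNReal NNReal ContDiff

/-- measurable and bounded -/
private def BM {n : ℕ} (h : E n → ℝ) : Prop := Measurable h ∧ ∃ C : ℝ, ∀ x, |h x| ≤ C

private lemma BM.mul {n : ℕ} {g h : E n → ℝ} (hg : BM g) (hh : BM h) :
    BM (fun x => g x * h x) := by
  obtain ⟨hg1, C, hC⟩ := hg
  obtain ⟨hh1, C', hC'⟩ := hh
  refine ⟨hg1.mul hh1, C * C', fun x => ?_⟩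
  rw [abs_mul]
  exact mul_le_mul (hC x) (hC' x) (abs_nonneg _) ((abs_nonneg _).trans (hC x))

private lemma BM.add {n : ℕ} {g h : E n → ℝ} (hg : BM g) (hh : BM h) :
    BM (fun x => g x + h x) := by
  obtain ⟨hg1, C, hC⟩ := hg
  obtain ⟨hh1, C', hC'⟩ := hh
  refine ⟨hg1.add hh1, C + C', fun x => ?_⟩
  exact (abs_add_le _ _).trans (add_le_add (hC x) (hC' x))

private lemma BM.const {n : ℕ} (a : ℝ) : BM (fun _ : E n => a) :=
  ⟨measurable_const, |a|, fun _ => le_rfl⟩

private lemma BM.sum {n : ℕ} (s : Finset ℕ) {g : ℕ → E n → ℝ} (hg : ∀ k, BM (g k)) :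
    BM (fun x => ∑ k ∈ s, g k x) := by
  classical
  induction s using Finset.induction_on with
  | empty => simpa using BM.const (n := n) 0
  | insert a s ha ih =>
    simp_rw [Finset.sum_insert ha]
    exact (hg a).add ih

private lemma BM.exp {n : ℕ} {g : E n → ℝ} (hg : BM g) : BM (fun x => Real.exp (g x)) := by
  obtain ⟨hg1, C, hC⟩ := hg
  refine ⟨Real.measurable_exp.comp hg1, Real.exp C, fun x => ?_⟩
  rw [Real.abs_exp]
  exact Real.exp_le_exp.2 ((le_abs_self _).trans (hC x))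

private lemma p2_pos (k : ℕ) : 0 < p2 k := by unfold p2; positivity

private lemma BM.aux {n : ℕ} (hn : 1 ≤ n) {f : E n → ℝ} {ε : ℝ} (hf : Mor f ε) (K k : ℕ) :
    BM (AA f k) ∧ BM (aa f k) ∧ BM (NN f K k) := by
  have h := AA_cont hn hf.int k
  refine ⟨⟨h.1.measurable, 8 ^ (n - 1) * ε, fun x => ?_⟩,
    ⟨h.2.measurable, 8 ^ (n - 1) * ε, fun x => ?_⟩,
    ⟨(NN_cont hn hf.int K k).measurable, K * (8 ^ (n - 1) * ε), fun x => ?_⟩⟩
  · obtain ⟨h1, h2, h3, h4⟩ := AA_nonneg hf k x
    rw [abs_of_nonneg h1]; exact h4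
  · obtain ⟨h1, h2, h3, h4⟩ := AA_nonneg hf k x
    rw [abs_of_nonneg h2]; exact h3.trans h4
  · rw [abs_of_nonneg (NN_nonneg hf K k x)]
    exact NN_le hf K k x

private lemma BM.ball {n : ℕ} (hn : 1 ≤ n) {h : E n → ℝ} (hh : Integrable h) (k : ℕ) :
    BM (fun x => ∫ y in ball x (1 / p2 k), h y) := by
  have h1 := (AA_cont hn hh (k + 3)).1
  have h8 : (8 : ℝ) / p2 (k + 3) = 1 / p2 k := by
    have := (p2_pos k).ne'
    unfold p2 at *
    rw [pow_add]
    field_simp
    norm_num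
  have h2 : (fun x => ∫ y in Metric.ball x (1 / p2 k), h y) =
      fun x => (p2 (k + 3) ^ (n - 1))⁻¹ * AA h (k + 3) x := by
    funext x
    unfold AA
    rw [h8, ← mul_assoc, inv_mul_cancel₀ (pow_pos (p2_pos _) _).ne', one_mul]
  refine ⟨?_, ∫ y, ‖h y‖, fun x => ?_⟩
  · rw [h2]
    exact (continuous_const.mul h1).measurable
  · rw [← Real.norm_eq_abs]
    refine (norm_integral_le_integral_norm _).trans ?_
    exact setIntegral_le_integral hh.norm (Eventually.of_forall fun _ => norm_nonneg _)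

private lemma int_fn1 (n : ℕ) (hn : 2 ≤ n) {f : E n → ℝ} {ε : ℝ} (hf : Mor f ε) :
    Integrable (fun x => f x ^ (n - 1)) := by
  refine Integrable.mono' (hf.int.add hf.intn) (hf.meas.pow_const _).aestronglyMeasurable
    (Eventually.of_forall fun x => ?_)
  have h0 := hf.nonneg x
  rw [Real.norm_eq_abs, abs_of_nonneg (pow_nonneg h0 _)]
  simp only [Pi.add_apply]
  rcases le_total (f x) 1 with h | h
  · have h1 : f x ^ (n - 1) ≤ f x ^ 1 := pow_le_pow_of_le_one h0 h (by omega)
    have h2 := pow_nonneg h0 n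
    rw [pow_one] at h1
    linarith
  · have h1 : f x ^ (n - 1) ≤ f x ^ n := pow_le_pow_right₀ h (by omega)
    linarith

private lemma int_mul (n : ℕ) (hn : 2 ≤ n) {f : E n → ℝ} {ε : ℝ} (hf : Mor f ε) (g h : E n → ℝ)
    (hg : Measurable g) (hgf : ∀ x, |g x| ≤ f x ^ (n - 1)) (hh : BM h) :
    Integrable (fun x => g x * h x) := by
  obtain ⟨hh1, C, hC⟩ := hh
  refine Integrable.mono' ((int_fn1 n hn hf).mul_const C) (hg.mul hh1).aestronglyMeasurable
    (Eventually.of_forall fun x => ?_)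
  rw [Real.norm_eq_abs, abs_mul]
  exact mul_le_mul (hgf x) (hC x) (abs_nonneg _) ((abs_nonneg _).trans (hgf x))

private lemma TT_BM (n : ℕ) (hn : 2 ≤ n) (c : ℝ) {f : E n → ℝ} {ε : ℝ} (hf : Mor f ε)
    (pg : E n → ℝ) (hpm : Measurable pg) (hp0 : ∀ x, 0 ≤ pg x) (hpf : ∀ x, pg x ≤ f x) (K : ℕ) :
    BM (TT f pg ε c K) ∧ (∀ k, Integrable (fun y => f y * (ε + NN f K k y))) ∧ Integrable pg := by
  have hpi : Integrable pg := Integrable.mono' hf.int hpm.aestronglyMeasurable
    (Eventually.of_forall fun x => by rw [Real.norm_eq_abs, abs_of_nonneg (hp0 x)]; exact hpf x)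
  have hb := fun k => BM.aux (n := n) (by omega) hf K k
  have hfi : ∀ k, Integrable (fun y => f y * (ε + NN f K k y)) := by
    intro k
    obtain ⟨h1, C, hC⟩ := (BM.const (n := n) ε).add (hb k).2.2
    refine Integrable.mono' (hf.int.mul_const C) (hf.meas.mul h1).aestronglyMeasurable
      (Eventually.of_forall fun x => ?_)
    rw [Real.norm_eq_abs, abs_mul, abs_of_nonneg (hf.nonneg x)]
    exact mul_le_mul_of_nonneg_left (hC x) (hf.nonneg x)
  refine ⟨?_, hfi, hpi⟩
  have h1 : BM (fun x => ε * AA f 0 x * Real.exp (c * NN f K 0 x)) :=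
    ((BM.const ε).mul (hb 0).1).mul ((BM.const c).mul (hb 0).2.2).exp
  have h2 : BM (fun x => ∑ k ∈ Finset.range K, Real.exp (c * NN f K k x) * aa f k x *
      (p2 k ^ n * ∫ y in Metric.ball x (1 / p2 k), (pg y + f y * (ε + NN f K k y)))) := by
    refine BM.sum _ fun k => ?_
    exact (((BM.const c).mul (hb k).2.2).exp.mul (hb k).2.1).mul
      ((BM.const (p2 k ^ n)).mul (BM.ball (by omega) (hpi.add (hfi k)) k))
  exact h1.add h2

theorem absorb_int (n : ℕ) (hn : 2 ≤ n) (c : ℝ) {f : E n → ℝ} {ε : ℝ} (hf : Mor f ε)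
    (χ pg : E n → ℝ) (hχm : Measurable χ) (hχ0 : ∀ x, 0 ≤ χ x) (hχ1 : ∀ x, χ x ≤ 1)
    (hpm : Measurable pg) (hp0 : ∀ x, 0 ≤ pg x) (hpf : ∀ x, pg x ≤ f x) (K : ℕ) :
    Integrable (fun x => χ x ^ n * f x ^ (n - 2) * pg x * TT f pg ε c K x) ∧
    Integrable (fun x => χ x ^ n * f x ^ (n - 2) * pg x ^ 2) := by
  constructor
  · refine int_mul n hn hf (fun x => χ x ^ n * f x ^ (n - 2) * pg x) _ ?_ ?_
      (TT_BM n hn c hf pg hpm hp0 hpf K).1
    · exact ((hχm.pow_const _).mul (hf.meas.pow_const _)).mul hpm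
    · intro x
      have h0 := hf.nonneg x
      rw [abs_of_nonneg (mul_nonneg (mul_nonneg (pow_nonneg (hχ0 x) _) (pow_nonneg h0 _)) (hp0 x))]
      have h1 : χ x ^ n ≤ 1 := pow_le_one₀ (hχ0 x) (hχ1 x)
      have h2 : f x ^ (n - 1) = f x ^ (n - 2) * f x := by
        rw [← pow_succ]
        congr 1
        omega
      rw [h2]
      refine mul_le_mul ?_ (hpf x) (hp0 x) (pow_nonneg h0 _)
      calc χ x ^ n * f x ^ (n - 2) ≤ 1 * f x ^ (n - 2) :=
            mul_le_mul_of_nonneg_right h1 (pow_nonneg h0 _)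
        _ = f x ^ (n - 2) := one_mul _
  · refine Integrable.mono' hf.intn
      (((hχm.pow_const _).mul (hf.meas.pow_const _)).mul (hpm.pow_const _)).aestronglyMeasurable
      (Eventually.of_forall fun x => ?_)
    have h0 := hf.nonneg x
    rw [Real.norm_eq_abs, abs_of_nonneg (mul_nonneg (mul_nonneg (pow_nonneg (hχ0 x) _)
      (pow_nonneg h0 _)) (pow_nonneg (hp0 x) _))]
    have h1 : χ x ^ n ≤ 1 := pow_le_one₀ (hχ0 x) (hχ1 x)
    have h2 : f x ^ n = f x ^ (n - 2) * f x ^ 2 := by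
      rw [← pow_add]
      congr 1
      omega
    rw [h2]
    refine mul_le_mul ?_ (pow_le_pow_left₀ (hp0 x) (hpf x) 2) (pow_nonneg (hp0 x) _)
      (pow_nonneg h0 _)
    calc χ x ^ n * f x ^ (n - 2) ≤ 1 * f x ^ (n - 2) :=
          mul_le_mul_of_nonneg_right h1 (pow_nonneg h0 _)
      _ = f x ^ (n - 2) := one_mul _

theorem TT_split (n : ℕ) (hn : 2 ≤ n) (c L : ℝ) (hc : 0 ≤ c) (hL : 0 ≤ L) {f : E n → ℝ} {ε : ℝ}
    (hf : Mor f ε) (χ pg : E n → ℝ) (hχm : Measurable χ) (hχ0 : ∀ x, 0 ≤ χ x)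
    (hχ1 : ∀ x, χ x ≤ 1) (hχs : ∀ x, x ∉ ball (0 : E n) 1 → χ x = 0)
    (hχl : ∀ x y, |χ x - χ y| ≤ L * ‖x - y‖)
    (hpm : Measurable pg) (hp0 : ∀ x, 0 ≤ pg x) (hpf : ∀ x, pg x ≤ f x) (K : ℕ) (hK : 1 ≤ K) :
    ∫ x, χ x ^ n * f x ^ (n - 2) * pg x * TT f pg ε c K x ≤
      (1 + L * 8 ^ (n - 1)) * ε * (∫ x in ball (0 : E n) 1,
            f x ^ (n - 1) * (NN f K 0 x * Real.exp (c * NN f K 0 x)))
      + (∑ k ∈ Finset.range K, ∫ x, (χ x ^ (n - 1) * f x ^ (n - 2) * pg x) *
          (Real.exp (c * NN f K k x) * (aa f k x *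
            (p2 k ^ n * ∫ y in ball x (1 / p2 k), χ y * pg y))))
      + (∑ k ∈ Finset.range K, ∫ x, (χ x ^ (n - 1) * f x ^ (n - 2) * pg x) *
          (Real.exp (c * NN f K k x) * (aa f k x *
            (p2 k ^ n * ∫ y in ball x (1 / p2 k), f y * (ε + NN f K k y))))) := by
  obtain ⟨hTT, hfi, hpi⟩ := TT_BM n hn c hf pg hpm hp0 hpf K
  have hb := fun k => BM.aux (n := n) (by omega) hf K k
  have hχpi : Integrable (fun y => χ y * pg y) :=
    Integrable.mono' hpi (hχm.mul hpm).aestronglyMeasurable (Eventually.of_forall fun y => by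
      rw [Real.norm_eq_abs, abs_of_nonneg (mul_nonneg (hχ0 y) (hp0 y))]
      calc χ y * pg y ≤ 1 * pg y := mul_le_mul_of_nonneg_right (hχ1 y) (hp0 y)
        _ = pg y := one_mul _)
  have hWm : Measurable (fun x => χ x ^ (n - 1) * f x ^ (n - 2) * pg x) :=
    ((hχm.pow_const _).mul (hf.meas.pow_const _)).mul hpm
  have hwle : ∀ x, f x ^ (n - 2) * pg x ≤ f x ^ (n - 1) := by
    intro x
    have h2 : f x ^ (n - 1) = f x ^ (n - 2) * f x := by
      rw [← pow_succ]
      congr 1
      omega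
    rw [h2]
    exact mul_le_mul_of_nonneg_left (hpf x) (pow_nonneg (hf.nonneg x) _)
  have hw0 : ∀ x, 0 ≤ f x ^ (n - 2) * pg x := fun x =>
    mul_nonneg (pow_nonneg (hf.nonneg x) _) (hp0 x)
  have hWle : ∀ x, |χ x ^ (n - 1) * f x ^ (n - 2) * pg x| ≤ f x ^ (n - 1) := by
    intro x
    rw [mul_assoc, abs_of_nonneg (mul_nonneg (pow_nonneg (hχ0 x) _) (hw0 x))]
    calc χ x ^ (n - 1) * (f x ^ (n - 2) * pg x) ≤ 1 * (f x ^ (n - 2) * pg x) :=
          mul_le_mul_of_nonneg_right (pow_le_one₀ (hχ0 x) (hχ1 x)) (hw0 x)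
      _ ≤ f x ^ (n - 1) := by rw [one_mul]; exact hwle x
  -- integrability of the three pieces
  have hI1 : Integrable (fun x => (ball (0 : E n) 1).indicator
      (fun x => f x ^ (n - 1) * (NN f K 0 x * Real.exp (c * NN f K 0 x))) x) := by
    refine Integrable.indicator ?_ measurableSet_ball
    exact int_mul n hn hf (fun x => f x ^ (n - 1)) _ (hf.meas.pow_const _)
      (fun x => by rw [abs_of_nonneg (pow_nonneg (hf.nonneg x) _)])
      ((hb 0).2.2.mul ((BM.const c).mul (hb 0).2.2).exp)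
  have hI2 : ∀ k, Integrable (fun x => (χ x ^ (n - 1) * f x ^ (n - 2) * pg x) *
      (Real.exp (c * NN f K k x) * (aa f k x *
        (p2 k ^ n * ∫ y in ball x (1 / p2 k), χ y * pg y)))) := fun k =>
    int_mul n hn hf _ _ hWm hWle (((BM.const c).mul (hb k).2.2).exp.mul ((hb k).2.1.mul
      ((BM.const (p2 k ^ n)).mul (BM.ball (by omega) hχpi k))))
  have hI3 : ∀ k, Integrable (fun x => (χ x ^ (n - 1) * f x ^ (n - 2) * pg x) *
      (Real.exp (c * NN f K k x) * (aa f k x *
        (p2 k ^ n * ∫ y in ball x (1 / p2 k), f y * (ε + NN f K k y))))) := fun k =>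
    int_mul n hn hf _ _ hWm hWle (((BM.const c).mul (hb k).2.2).exp.mul ((hb k).2.1.mul
      ((BM.const (p2 k ^ n)).mul (BM.ball (by omega) (hfi k) k))))
  have hF := (absorb_int n hn c hf χ pg hχm hχ0 hχ1 hpm hp0 hpf K).1
  -- the pointwise inequality
  have hpt : ∀ x, χ x ^ n * f x ^ (n - 2) * pg x * TT f pg ε c K x ≤
      (1 + L * 8 ^ (n - 1)) * ε * (ball (0 : E n) 1).indicator
        (fun x => f x ^ (n - 1) * (NN f K 0 x * Real.exp (c * NN f K 0 x))) x
      + (∑ k ∈ Finset.range K, (χ x ^ (n - 1) * f x ^ (n - 2) * pg x) *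
          (Real.exp (c * NN f K k x) * (aa f k x *
            (p2 k ^ n * ∫ y in ball x (1 / p2 k), χ y * pg y))))
      + (∑ k ∈ Finset.range K, (χ x ^ (n - 1) * f x ^ (n - 2) * pg x) *
          (Real.exp (c * NN f K k x) * (aa f k x *
            (p2 k ^ n * ∫ y in ball x (1 / p2 k), f y * (ε + NN f K k y))))) := by
    intro x
    by_cases hx : x ∈ ball (0 : E n) 1
    swap
    · have h0 := hχs x hx
      have hz1 : (0 : ℝ) ^ n = 0 := zero_pow (by omega)
      have hz2 : (0 : ℝ) ^ (n - 1) = 0 := zero_pow (by omega)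
      rw [indicator_of_notMem hx, h0, hz1, hz2]
      simp
    rw [indicator_of_mem hx]
    have hfx := hf.nonneg x
    have hN0 := NN_nonneg hf K 0 x
    have hε := hf.eps
    have hχn : χ x ^ n = χ x ^ (n - 1) * χ x := by
      rw [← pow_succ]
      congr 1
      omega
    have hχp : 0 ≤ χ x ^ (n - 1) := pow_nonneg (hχ0 x) _
    have hχp1 : χ x ^ (n - 1) ≤ 1 := pow_le_one₀ (hχ0 x) (hχ1 x)
    have hfn : 0 ≤ f x ^ (n - 1) := pow_nonneg hfx _
    have hexp : ∀ k, Real.exp (c * NN f K k x) ≤ Real.exp (c * NN f K 0 x) := fun k =>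
      Real.exp_le_exp.2 (mul_le_mul_of_nonneg_left (NN_mono hf le_rfl (Nat.zero_le k) x) hc)
    have hsumA : ∑ k ∈ Finset.range K, AA f k x = NN f K 0 x := by
      unfold NN
      rw [Finset.range_eq_Ico]
    have hA0 : AA f 0 x ≤ NN f K 0 x := by
      rw [← hsumA]
      exact Finset.single_le_sum (f := fun k => AA f k x) (fun k _ => (AA_nonneg hf k x).1)
        (Finset.mem_range.2 (by omega))
    -- the balls
    have hball : ∀ k, χ x * ∫ y in ball x (1 / p2 k), pg y ≤
        (∫ y in ball x (1 / p2 k), χ y * pg y) + L / p2 k * ∫ y in ball x (1 / p2 k), f y := by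
      intro k
      rw [← integral_const_mul, ← integral_const_mul, ← integral_add hχpi.integrableOn
        (hf.int.const_mul _).integrableOn]
      refine setIntegral_mono_on (hpi.const_mul _).integrableOn
        (hχpi.add (hf.int.const_mul _)).integrableOn measurableSet_ball fun y hy => ?_
      have hd : ‖x - y‖ ≤ 1 / p2 k := by
        rw [mem_ball, dist_comm, dist_eq_norm] at hy
        exact hy.le
      have h1 : χ x ≤ χ y + L / p2 k := by
        have h2 := (le_abs_self _).trans (hχl x y)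
        have h3 : L * ‖x - y‖ ≤ L * (1 / p2 k) := mul_le_mul_of_nonneg_left hd hL
        have h4 : L * (1 / p2 k) = L / p2 k := by ring
        linarith
      have hLp : 0 ≤ L / p2 k := div_nonneg hL (p2_pos k).le
      calc χ x * pg y ≤ (χ y + L / p2 k) * pg y := mul_le_mul_of_nonneg_right h1 (hp0 y)
        _ = χ y * pg y + L / p2 k * pg y := by ring
        _ ≤ χ y * pg y + L / p2 k * f y := by
            have := mul_le_mul_of_nonneg_left (hpf y) hLp
            linarith
    have hballA : ∀ k, p2 k ^ n * (L / p2 k * ∫ y in ball x (1 / p2 k), f y) ≤ L * AA f k x := by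
      intro k
      have hp := p2_pos k
      have h1 : ∫ y in ball x (1 / p2 k), f y ≤ ∫ y in ball x (8 / p2 k), f y :=
        setIntegral_mono_set hf.int.integrableOn (Eventually.of_forall fun y => hf.nonneg y)
          (LE.le.eventuallyLE (ball_subset_ball
            (div_le_div_of_nonneg_right (by norm_num) hp.le)))
      have h2 : p2 k ^ n = p2 k ^ (n - 1) * p2 k := by
        rw [← pow_succ]
        congr 1
        omega
      have h3 : p2 k ^ n * (L / p2 k * ∫ y in ball x (1 / p2 k), f y) =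
          L * (p2 k ^ (n - 1) * ∫ y in ball x (1 / p2 k), f y) := by
        rw [h2]
        field_simp
      rw [h3]
      unfold AA
      exact mul_le_mul_of_nonneg_left (mul_le_mul_of_nonneg_left h1 (pow_nonneg hp.le _)) hL
    have hR0 : ∀ k, 0 ≤ ∫ y in ball x (1 / p2 k), f y * (ε + NN f K k y) := fun k =>
      setIntegral_nonneg measurableSet_ball fun y _ =>
        mul_nonneg (hf.nonneg y) (add_nonneg hε (NN_nonneg hf K k y))
    have hTT' : TT f pg ε c K x = ε * AA f 0 x * Real.exp (c * NN f K 0 x) +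
        ∑ k ∈ Finset.range K, (Real.exp (c * NN f K k x) * aa f k x *
          (p2 k ^ n * ∫ y in ball x (1 / p2 k), pg y) + Real.exp (c * NN f K k x) * aa f k x *
          (p2 k ^ n * ∫ y in ball x (1 / p2 k), f y * (ε + NN f K k y))) := by
      unfold TT
      congr 1
      refine Finset.sum_congr rfl fun k _ => ?_
      rw [integral_add hpi.integrableOn (hfi k).integrableOn]
      ring
    set w := f x ^ (n - 2) * pg x with hw
    have hw0' : 0 ≤ w := hw0 x
    have hwl : w ≤ f x ^ (n - 1) := hwle x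
    have hW2 : χ x ^ (n - 1) * f x ^ (n - 2) * pg x = χ x ^ (n - 1) * w := by rw [hw]; ring
    have hW1 : χ x ^ n * f x ^ (n - 2) * pg x = χ x ^ (n - 1) * χ x * w := by rw [hχn, hw]; ring
    have hpw : 0 ≤ χ x ^ (n - 1) * w := mul_nonneg hχp hw0'
    have hpw1 : χ x ^ (n - 1) * w ≤ f x ^ (n - 1) := by
      calc χ x ^ (n - 1) * w ≤ 1 * w := mul_le_mul_of_nonneg_right hχp1 hw0'
        _ ≤ f x ^ (n - 1) := by rw [one_mul]; exact hwl
    rw [hTT', hW1, hW2]
    set Wx := χ x ^ (n - 1) * w with hWx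
    -- term A
    have hAt : Wx * χ x * (ε * AA f 0 x * Real.exp (c * NN f K 0 x)) ≤
        ε * (f x ^ (n - 1) * (NN f K 0 x * Real.exp (c * NN f K 0 x))) := by
      have e0 := (Real.exp_pos (c * NN f K 0 x)).le
      have h1 : Wx * χ x ≤ f x ^ (n - 1) :=
        (mul_le_of_le_one_right hpw (hχ1 x)).trans hpw1
      have h2 : ε * AA f 0 x * Real.exp (c * NN f K 0 x) ≤
          ε * NN f K 0 x * Real.exp (c * NN f K 0 x) :=
        mul_le_mul_of_nonneg_right (mul_le_mul_of_nonneg_left hA0 hε) e0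
      calc Wx * χ x * (ε * AA f 0 x * Real.exp (c * NN f K 0 x)) ≤
          f x ^ (n - 1) * (ε * NN f K 0 x * Real.exp (c * NN f K 0 x)) :=
            mul_le_mul h1 h2 (mul_nonneg (mul_nonneg hε (AA_nonneg hf 0 x).1) e0) hfn
        _ = _ := by ring
    -- terms B and C
    have hk : ∀ k ∈ Finset.range K, Wx * χ x * (Real.exp (c * NN f K k x) * aa f k x *
          (p2 k ^ n * ∫ y in ball x (1 / p2 k), pg y) + Real.exp (c * NN f K k x) * aa f k x *
          (p2 k ^ n * ∫ y in ball x (1 / p2 k), f y * (ε + NN f K k y))) ≤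
        (Wx * (Real.exp (c * NN f K k x) * (aa f k x *
          (p2 k ^ n * ∫ y in ball x (1 / p2 k), χ y * pg y))) +
        Wx * (Real.exp (c * NN f K k x) * (aa f k x *
          (p2 k ^ n * ∫ y in ball x (1 / p2 k), f y * (ε + NN f K k y))))) +
        (f x ^ (n - 1) * Real.exp (c * NN f K 0 x) * (8 ^ (n - 1) * ε) * L) * AA f k x := by
      intro k _
      obtain ⟨a1, a2, a3, a4⟩ := AA_nonneg hf k x
      have e0 := (Real.exp_pos (c * NN f K k x)).le
      have hpn : 0 ≤ p2 k ^ n := pow_nonneg (p2_pos k).le _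
      have hea : 0 ≤ Real.exp (c * NN f K k x) * aa f k x := mul_nonneg e0 a2
      have hB : p2 k ^ n * (χ x * ∫ y in ball x (1 / p2 k), pg y) ≤
          p2 k ^ n * (∫ y in ball x (1 / p2 k), χ y * pg y) + L * AA f k x := by
        have h1 := mul_le_mul_of_nonneg_left (hball k) hpn
        rw [mul_add] at h1
        linarith [hballA k]
      have hB2 : Wx * (Real.exp (c * NN f K k x) * aa f k x) *
          (p2 k ^ n * (χ x * ∫ y in ball x (1 / p2 k), pg y)) ≤
          Wx * (Real.exp (c * NN f K k x) * aa f k x) *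
          (p2 k ^ n * (∫ y in ball x (1 / p2 k), χ y * pg y) + L * AA f k x) :=
        mul_le_mul_of_nonneg_left hB (mul_nonneg hpw hea)
      have hB3 : Wx * (Real.exp (c * NN f K k x) * aa f k x) * (L * AA f k x) ≤
          (f x ^ (n - 1) * Real.exp (c * NN f K 0 x) * (8 ^ (n - 1) * ε) * L) * AA f k x := by
        have h1 : Real.exp (c * NN f K k x) * aa f k x ≤
            Real.exp (c * NN f K 0 x) * (8 ^ (n - 1) * ε) :=
          mul_le_mul (hexp k) (a3.trans a4) a2 (Real.exp_pos _).le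
        have h2 : Wx * (Real.exp (c * NN f K k x) * aa f k x) ≤
            f x ^ (n - 1) * (Real.exp (c * NN f K 0 x) * (8 ^ (n - 1) * ε)) :=
          mul_le_mul hpw1 h1 hea hfn
        have h3 := mul_le_mul_of_nonneg_right h2 (mul_nonneg hL a1)
        calc _ ≤ _ := h3
          _ = _ := by ring
      have hC : Wx * χ x * (Real.exp (c * NN f K k x) * aa f k x *
          (p2 k ^ n * ∫ y in ball x (1 / p2 k), f y * (ε + NN f K k y))) ≤
          Wx * (Real.exp (c * NN f K k x) * (aa f k x *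
          (p2 k ^ n * ∫ y in ball x (1 / p2 k), f y * (ε + NN f K k y)))) := by
        have h1 : Wx * χ x ≤ Wx := mul_le_of_le_one_right hpw (hχ1 x)
        have h2 := mul_le_mul_of_nonneg_right h1 (mul_nonneg hea (mul_nonneg hpn (hR0 k)))
        calc _ ≤ _ := h2
          _ = _ := by ring
      rw [mul_add]
      have e1 : Wx * χ x * (Real.exp (c * NN f K k x) * aa f k x *
          (p2 k ^ n * ∫ y in ball x (1 / p2 k), pg y)) =
          Wx * (Real.exp (c * NN f K k x) * aa f k x) *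
          (p2 k ^ n * (χ x * ∫ y in ball x (1 / p2 k), pg y)) := by ring
      have e2 : Wx * (Real.exp (c * NN f K k x) * aa f k x) *
          (p2 k ^ n * (∫ y in ball x (1 / p2 k), χ y * pg y) + L * AA f k x) =
          Wx * (Real.exp (c * NN f K k x) * (aa f k x *
          (p2 k ^ n * ∫ y in ball x (1 / p2 k), χ y * pg y))) +
          Wx * (Real.exp (c * NN f K k x) * aa f k x) * (L * AA f k x) := by ring
      rw [e1]
      rw [e2] at hB2
      linarith
    have hsum := Finset.sum_le_sum hk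
    have hs3 : ∑ k ∈ Finset.range K,
        (f x ^ (n - 1) * Real.exp (c * NN f K 0 x) * (8 ^ (n - 1) * ε) * L) * AA f k x =
        (f x ^ (n - 1) * Real.exp (c * NN f K 0 x) * (8 ^ (n - 1) * ε) * L) * NN f K 0 x := by
      rw [← Finset.mul_sum, hsumA]
    rw [Finset.sum_add_distrib, Finset.sum_add_distrib, hs3, ← Finset.mul_sum] at hsum
    rw [mul_add, ← sub_nonneg]
    have hgoal : (1 + L * 8 ^ (n - 1)) * ε *
        (f x ^ (n - 1) * (NN f K 0 x * Real.exp (c * NN f K 0 x))) =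
        ε * (f x ^ (n - 1) * (NN f K 0 x * Real.exp (c * NN f K 0 x))) +
        f x ^ (n - 1) * Real.exp (c * NN f K 0 x) * (8 ^ (n - 1) * ε) * L * NN f K 0 x := by ring
    rw [hgoal]
    linarith
  -- integrate
  have hRint : Integrable (fun x => (1 + L * 8 ^ (n - 1)) * ε * (ball (0 : E n) 1).indicator
        (fun x => f x ^ (n - 1) * (NN f K 0 x * Real.exp (c * NN f K 0 x))) x) :=
    hI1.const_mul _
  have hS2 : Integrable (fun x => ∑ k ∈ Finset.range K, (χ x ^ (n - 1) * f x ^ (n - 2) * pg x) *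
          (Real.exp (c * NN f K k x) * (aa f k x *
            (p2 k ^ n * ∫ y in ball x (1 / p2 k), χ y * pg y)))) :=
    integrable_finsetSum _ fun k _ => hI2 k
  have hS3 : Integrable (fun x => ∑ k ∈ Finset.range K, (χ x ^ (n - 1) * f x ^ (n - 2) * pg x) *
          (Real.exp (c * NN f K k x) * (aa f k x *
            (p2 k ^ n * ∫ y in ball x (1 / p2 k), f y * (ε + NN f K k y))))) :=
    integrable_finsetSum _ fun k _ => hI3 k
  refine (integral_mono hF ((hRint.add hS2).add hS3) hpt).trans_eq ?_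
  rw [integral_add' (hRint.add hS2) hS3, integral_add' hRint hS2, integral_const_mul,
    integral_indicator measurableSet_ball, integral_finsetSum _ fun k _ => hI2 k,
    integral_finsetSum _ fun k _ => hI3 k]

end H60NH
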