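import Pool.Agent.H60.NH.NBilR
import Pool.Agent.H60.NH.NR1a
import Pool.Agent.H60.NH.NR1b
import Pool.Agent.H60.NH.NR1c

/-!
# [H60 NH NR1] The absorption

`J = χ^(n-1) f^(n-2) pg`, `N_k = NN f K k`, `θ₁, C₁` of `bilinear_real` (`θ₁ <= 1` without loss), `t = θ₁/ε`, and `ε₁` so
small that `c <= θ₁/ε` and `ε <= 1`. By `TT_split` there are three terms. The second is at most
`∑_k ∫ J e^{t N_k} a_k p2^n ∫ (χ pg) e^{t N_k} <= C₁ ε ‖J‖_{n'} ‖χ pg‖_n <= C₁ ε X^(1/2) D^(1/2-1/n) X^(1/n)`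
(`bilinear_real`, `J_norm`, `F_norm`; monotonicity of the integrals: the larger integrand is integrable
because `J` is integrable (`J <= f^(n-1)`) and the other factors are bounded: `N_k`, `a_k`, `∫ χ pg <= ∫ f`).
The third: `ε + N_k <= (1 + 1/θ₁) ε e^{t N_k}` (`1 + s <= (1 + 1/θ₁) e^{θ₁ s}`), so it is at most
`(1 + 1/θ₁) ε C₁ ε ‖J‖_{n'} ‖f‖_n`. Young (`young1`, `young2` with `η = 1/8`). The first term is as stated.
-/

set_option autoImplicit false

namespace H60NH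

open MeasureTheory Metric Set Filter Topology
open scoped ENNReal NNReal ContDiff

/-- measurable and bounded -/
private def BM {n : ℕ} (h : E n → ℝ) : Prop := Measurable h ∧ ∃ C : ℝ, ∀ x, |h x| ≤ C

private lemma BM.mul {n : ℕ} {g h : E n → ℝ} (hg : BM g) (hh : BM h) :
    BM (fun x => g x * h x) := by
  obtain ⟨hg1, C, hC⟩ := hg
  obtain ⟨hh1, C', hC'⟩ := hh
  refine ⟨hg1.mul hh1, C * C', fun x => ?_⟩
  rw [abs_mul]
  exact mul_le_mul (hC x) (hC' x) (abs_nonneg _) ((abs_nonneg _).trans (hC x))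

private lemma BM.add {n : ℕ} {g h : E n → ℝ} (hg : BM g) (hh : BM h) :
    BM (fun x => g x + h x) := by
  obtain ⟨hg1, C, hC⟩ := hg
  obtain ⟨hh1, C', hC'⟩ := hh
  refine ⟨hg1.add hh1, C + C', fun x => ?_⟩
  exact (abs_add_le _ _).trans (add_le_add (hC x) (hC' x))

private lemma BM.const {n : ℕ} (a : ℝ) : BM (fun _ : E n => a) :=
  ⟨measurable_const, |a|, fun _ => le_rfl⟩

private lemma BM.sum {n : ℕ} (s : Finset ℕ) {g : ℕ → E n → ℝ} (hg : ∀ k, BM (g k)) :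
    BM (fun x => ∑ k ∈ s, g k x) := by
  classical
  induction s using Finset.induction_on with
  | empty => simpa using BM.const (n := n) 0
  | insert a s ha ih =>
    simp_rw [Finset.sum_insert ha]
    exact (hg a).add ih

private lemma BM.exp {n : ℕ} {g : E n → ℝ} (hg : BM g) : BM (fun x => Real.exp (g x)) := by
  obtain ⟨hg1, C, hC⟩ := hg
  refine ⟨Real.measurable_exp.comp hg1, Real.exp C, fun x => ?_⟩
  rw [Real.abs_exp]
  exact Real.exp_le_exp.2 ((le_abs_self _).trans (hC x))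

private lemma p2_pos (k : ℕ) : 0 < p2 k := by unfold p2; positivity

private lemma BM.aux {n : ℕ} (hn : 1 ≤ n) {f : E n → ℝ} {ε : ℝ} (hf : Mor f ε) (K k : ℕ) :
    BM (AA f k) ∧ BM (aa f k) ∧ BM (NN f K k) := by
  have h := AA_cont hn hf.int k
  refine ⟨⟨h.1.measurable, 8 ^ (n - 1) * ε, fun x => ?_⟩,
    ⟨h.2.measurable, 8 ^ (n - 1) * ε, fun x => ?_⟩,
    ⟨(NN_cont hn hf.int K k).measurable, K * (8 ^ (n - 1) * ε), fun x => ?_⟩⟩
  · obtain ⟨h1, h2, h3, h4⟩ := AA_nonneg hf k x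
    rw [abs_of_nonneg h1]; exact h4
  · obtain ⟨h1, h2, h3, h4⟩ := AA_nonneg hf k x
    rw [abs_of_nonneg h2]; exact h3.trans h4
  · rw [abs_of_nonneg (NN_nonneg hf K k x)]
    exact NN_le hf K k x

private lemma BM.ball {n : ℕ} (hn : 1 ≤ n) {h : E n → ℝ} (hh : Integrable h) (k : ℕ) :
    BM (fun x => ∫ y in ball x (1 / p2 k), h y) := by
  have h1 := (AA_cont hn hh (k + 3)).1
  have h8 : (8 : ℝ) / p2 (k + 3) = 1 / p2 k := by
    have := (p2_pos k).ne'
    unfold p2 at *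
    rw [pow_add]
    field_simp
    norm_num
  have h2 : (fun x => ∫ y in Metric.ball x (1 / p2 k), h y) =
      fun x => (p2 (k + 3) ^ (n - 1))⁻¹ * AA h (k + 3) x := by
    funext x
    unfold AA
    rw [h8, ← mul_assoc, inv_mul_cancel₀ (pow_pos (p2_pos _) _).ne', one_mul]
  refine ⟨?_, ∫ y, ‖h y‖, fun x => ?_⟩
  · rw [h2]
    exact (continuous_const.mul h1).measurable
  · rw [← Real.norm_eq_abs]
    refine (norm_integral_le_integral_norm _).trans ?_
    exact setIntegral_le_integral hh.norm (Eventually.of_forall fun _ => norm_nonneg _)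

private lemma int_fn1 (n : ℕ) (hn : 2 ≤ n) {f : E n → ℝ} {ε : ℝ} (hf : Mor f ε) :
    Integrable (fun x => f x ^ (n - 1)) := by
  refine Integrable.mono' (hf.int.add hf.intn) (hf.meas.pow_const _).aestronglyMeasurable
    (Eventually.of_forall fun x => ?_)
  have h0 := hf.nonneg x
  rw [Real.norm_eq_abs, abs_of_nonneg (pow_nonneg h0 _)]
  simp only [Pi.add_apply]
  rcases le_total (f x) 1 with h | h
  · have h1 : f x ^ (n - 1) ≤ f x ^ 1 := pow_le_pow_of_le_one h0 h (by omega)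
    have h2 := pow_nonneg h0 n
    rw [pow_one] at h1
    linarith
  · have h1 : f x ^ (n - 1) ≤ f x ^ n := pow_le_pow_right₀ h (by omega)
    linarith

private lemma int_mul (n : ℕ) (hn : 2 ≤ n) {f : E n → ℝ} {ε : ℝ} (hf : Mor f ε) (g h : E n → ℝ)
    (hg : Measurable g) (hgf : ∀ x, |g x| ≤ f x ^ (n - 1)) (hh : BM h) :
    Integrable (fun x => g x * h x) := by
  obtain ⟨hh1, C, hC⟩ := hh
  refine Integrable.mono' ((int_fn1 n hn hf).mul_const C) (hg.mul hh1).aestronglyMeasurable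
    (Eventually.of_forall fun x => ?_)
  rw [Real.norm_eq_abs, abs_mul]
  exact mul_le_mul (hgf x) (hC x) (abs_nonneg _) ((abs_nonneg _).trans (hgf x))

/-- one summand: replace `c` by `t` and the inner function by a larger one times the weight -/
private lemma step_mono (n : ℕ) (hn : 2 ≤ n) {f : E n → ℝ} {ε : ℝ} (hf : Mor f ε) (K k : ℕ)
    (c t b : ℝ) (hct : c ≤ t) (hb : 0 ≤ b) (J g F : E n → ℝ) (hJ : Measurable J)
    (hJ0 : ∀ x, 0 ≤ J x)
    (hJf : ∀ x, J x ≤ f x ^ (n - 1)) (hg : Integrable g) (hg0 : ∀ x, 0 ≤ g x)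
    (hF : Integrable F) (hF0 : ∀ x, 0 ≤ F x)
    (hgF : ∀ x, g x ≤ b * (F x * Real.exp (t * NN f K k x))) :
    ∫ x, J x * (Real.exp (c * NN f K k x) * (aa f k x *
          (p2 k ^ n * ∫ y in ball x (1 / p2 k), g y))) ≤
      b * ∫ x, J x * (Real.exp (t * NN f K k x) * (aa f k x *
          (p2 k ^ n * ∫ y in ball x (1 / p2 k), F y * Real.exp (t * NN f K k y)))) := by
  have hb' := BM.aux (n := n) (by omega) hf K k
  have hFe : Integrable (fun y => F y * Real.exp (t * NN f K k y)) := by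
    obtain ⟨h1, C, hC⟩ := ((BM.const (n := n) t).mul hb'.2.2).exp
    refine Integrable.mono' (hF.norm.mul_const C)
      (hF.aestronglyMeasurable.mul h1.aestronglyMeasurable) (Eventually.of_forall fun x => ?_)
    rw [norm_mul, Real.norm_eq_abs (Real.exp _)]
    exact mul_le_mul_of_nonneg_left (hC x) (norm_nonneg _)
  have hJa : ∀ x, |J x| ≤ f x ^ (n - 1) := fun x => by
    rw [abs_of_nonneg (hJ0 x)]; exact hJf x
  have hI1 : Integrable (fun x => J x * (Real.exp (c * NN f K k x) * (aa f k x *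
          (p2 k ^ n * ∫ y in ball x (1 / p2 k), g y)))) :=
    int_mul n hn hf J _ hJ hJa (((BM.const c).mul hb'.2.2).exp.mul (hb'.2.1.mul
      ((BM.const (p2 k ^ n)).mul (BM.ball (by omega) hg k))))
  have hI2 : Integrable (fun x => J x * (Real.exp (t * NN f K k x) * (aa f k x *
          (p2 k ^ n * ∫ y in ball x (1 / p2 k), F y * Real.exp (t * NN f K k y))))) :=
    int_mul n hn hf J _ hJ hJa (((BM.const t).mul hb'.2.2).exp.mul (hb'.2.1.mul
      ((BM.const (p2 k ^ n)).mul (BM.ball (by omega) hFe k))))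
  rw [← integral_const_mul]
  refine integral_mono hI1 (hI2.const_mul b) fun x => ?_
  have hN := NN_nonneg hf K k x
  obtain ⟨a1, a2, a3, a4⟩ := AA_nonneg hf k x
  have e1 : Real.exp (c * NN f K k x) ≤ Real.exp (t * NN f K k x) :=
    Real.exp_le_exp.2 (mul_le_mul_of_nonneg_right hct hN)
  have hpn : 0 ≤ p2 k ^ n := pow_nonneg (p2_pos k).le _
  have e2 : ∫ y in ball x (1 / p2 k), g y ≤
      b * ∫ y in ball x (1 / p2 k), F y * Real.exp (t * NN f K k y) := by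
    rw [← integral_const_mul]
    exact setIntegral_mono hg.integrableOn (hFe.const_mul b).integrableOn hgF
  have e3 : 0 ≤ ∫ y in ball x (1 / p2 k), g y :=
    setIntegral_nonneg measurableSet_ball fun y _ => hg0 y
  have e4 : aa f k x * (p2 k ^ n * ∫ y in ball x (1 / p2 k), g y) ≤
      aa f k x * (p2 k ^ n * (b * ∫ y in ball x (1 / p2 k), F y * Real.exp (t * NN f K k y))) :=
    mul_le_mul_of_nonneg_left (mul_le_mul_of_nonneg_left e2 hpn) a2
  have e5 := mul_le_mul e1 e4 (mul_nonneg a2 (mul_nonneg hpn e3)) (Real.exp_pos _).le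
  have e6 := mul_le_mul_of_nonneg_left e5 (hJ0 x)
  calc _ ≤ _ := e6
    _ = _ := by ring

theorem absorb (n : ℕ) (hn : n = 3 ∨ n = 4) (A c L : ℝ) (hA : 0 ≤ A) (hc : 0 ≤ c) (hL : 0 ≤ L) :
    ∃ ε₁ C₁ : ℝ, 0 < ε₁ ∧ 1 ≤ C₁ ∧ ∀ (f : E n → ℝ) (ε : ℝ), 0 < ε → ε ≤ ε₁ → Mor f ε →
      ∀ χ pg : E n → ℝ, Measurable χ → (∀ x, 0 ≤ χ x) → (∀ x, χ x ≤ 1) →
        (∀ x, x ∉ ball (0 : E n) 1 → χ x = 0) → (∀ x y, |χ x - χ y| ≤ L * ‖x - y‖) →
        Measurable pg → (∀ x, 0 ≤ pg x) → (∀ x, pg x ≤ f x) → ∀ K : ℕ, 1 ≤ K →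
      A * ∫ x, χ x ^ n * f x ^ (n - 2) * pg x * TT f pg ε c K x ≤
        1 / 4 * (∫ x, χ x ^ n * f x ^ (n - 2) * pg x ^ 2) + C₁ * ε ^ n * (∫ x, f x ^ n)
        + C₁ * ε * ∫ x in ball (0 : E n) 1,
            f x ^ (n - 1) * (NN f K 0 x * Real.exp (c * NN f K 0 x)) := by
  have hn2 : 2 ≤ n := by omega
  obtain ⟨θ₁, C₀, hθ₁, hC₀, hbil⟩ := bilinear_real n hn2
  set θ : ℝ := min θ₁ 1 with hθ
  have hθ0 : 0 < θ := lt_min hθ₁ one_pos
  have hθ1 : θ ≤ θ₁ := min_le_left _ _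
  have hθinv : 0 < 1 / θ := by positivity
  obtain ⟨Ca, hCa0, hya⟩ := young1 n hn (A * C₀) (1 / 8) (by positivity) (by norm_num)
  obtain ⟨Cb, hCb0, hyb⟩ := young2 n hn (A * ((1 + 1 / θ) * C₀)) (1 / 8) (by positivity)
    (by norm_num)
  have hc1 : 0 < c + 1 := by linarith
  refine ⟨min (θ / (c + 1)) 1, Ca + Cb + A * (1 + L * 8 ^ (n - 1)) + 1,
    lt_min (by positivity) one_pos, ?_, ?_⟩
  · have : 0 ≤ A * (1 + L * 8 ^ (n - 1)) := by positivity
    linarith
  intro f ε hε hε1 hf χ pg hχm hχ0 hχ1 hχs hχl hpm hp0 hpf K hK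
  have hεa : ε ≤ θ / (c + 1) := hε1.trans (min_le_left _ _)
  have hεb : ε ≤ 1 := hε1.trans (min_le_right _ _)
  set t : ℝ := θ / ε with ht
  have htε : t * ε = θ := by rw [ht]; field_simp
  have ht0 : 0 ≤ t := by positivity
  have hct : c ≤ t := by
    rw [ht, le_div_iff₀ hε]
    rw [le_div_iff₀ hc1] at hεa
    nlinarith
  have hpi : Integrable pg := Integrable.mono' hf.int hpm.aestronglyMeasurable
    (Eventually.of_forall fun x => by rw [Real.norm_eq_abs, abs_of_nonneg (hp0 x)]; exact hpf x)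
  have hsplit := TT_split n hn2 c L hc hL hf χ pg hχm hχ0 hχ1 hχs hχl hpm hp0 hpf K hK
  obtain ⟨hJi, hJn⟩ := J_norm hn2 hf χ pg hχm hχ0 hχ1 hpm hp0 hpf
  obtain ⟨hFi, hFn, hFX⟩ := F_norm hn2 hf χ pg hχm hχ0 hχ1 hpm hp0 hpf
  set J : E n → ℝ := fun x => χ x ^ (n - 1) * f x ^ (n - 2) * pg x with hJd
  have hJm : Measurable J := ((hχm.pow_const _).mul (hf.meas.pow_const _)).mul hpm
  have hJ0 : ∀ x, 0 ≤ J x := fun x =>
    mul_nonneg (mul_nonneg (pow_nonneg (hχ0 x) _) (pow_nonneg (hf.nonneg x) _)) (hp0 x)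
  have hJf : ∀ x, J x ≤ f x ^ (n - 1) := by
    intro x
    have h0 := hf.nonneg x
    have h2 : f x ^ (n - 1) = f x ^ (n - 2) * f x := by
      rw [← pow_succ]
      congr 1
      omega
    rw [h2]
    refine mul_le_mul ?_ (hpf x) (hp0 x) (pow_nonneg h0 _)
    calc χ x ^ (n - 1) * f x ^ (n - 2) ≤ 1 * f x ^ (n - 2) :=
          mul_le_mul_of_nonneg_right (pow_le_one₀ (hχ0 x) (hχ1 x)) (pow_nonneg h0 _)
      _ = f x ^ (n - 2) := one_mul _
  have hχp0 : ∀ x, 0 ≤ χ x * pg x := fun x => mul_nonneg (hχ0 x) (hp0 x)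
  set X : ℝ := ∫ x, χ x ^ n * f x ^ (n - 2) * pg x ^ 2 with hX
  set DD : ℝ := ∫ x, f x ^ n with hDD
  have hX0 : 0 ≤ X := integral_nonneg fun x =>
    mul_nonneg (mul_nonneg (pow_nonneg (hχ0 x) _) (pow_nonneg (hf.nonneg x) _)) (sq_nonneg _)
  have hD0 : 0 ≤ DD := integral_nonneg fun x => pow_nonneg (hf.nonneg x) _
  set T1 : ℝ := ∫ x in ball (0 : E n) 1,
            f x ^ (n - 1) * (NN f K 0 x * Real.exp (c * NN f K 0 x)) with hT1
  have hT10 : 0 ≤ T1 := setIntegral_nonneg measurableSet_ball fun x _ =>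
    mul_nonneg (pow_nonneg (hf.nonneg x) _) (mul_nonneg (NN_nonneg hf K 0 x) (Real.exp_pos _).le)
  set Jn : ℝ := (∫ x, J x ^ ((n : ℝ) / (n - 1))) ^ (((n : ℝ) - 1) / n) with hJnd
  have hJn0 : 0 ≤ Jn := Real.rpow_nonneg (integral_nonneg fun x => Real.rpow_nonneg (hJ0 x) _) _
  have hXD0 : 0 ≤ X ^ ((1 : ℝ) / 2) * DD ^ ((1 : ℝ) / 2 - 1 / n) :=
    mul_nonneg (Real.rpow_nonneg hX0 _) (Real.rpow_nonneg hD0 _)
  -- second term
  have hS2 : ∑ k ∈ Finset.range K, ∫ x, J x *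
          (Real.exp (c * NN f K k x) * (aa f k x *
            (p2 k ^ n * ∫ y in ball x (1 / p2 k), χ y * pg y))) ≤
      C₀ * ε * (X ^ ((1 : ℝ) / 2) * DD ^ ((1 : ℝ) / 2 - 1 / n)) * X ^ (1 / (n : ℝ)) := by
    have h1 : ∑ k ∈ Finset.range K, ∫ x, J x *
          (Real.exp (c * NN f K k x) * (aa f k x *
            (p2 k ^ n * ∫ y in ball x (1 / p2 k), χ y * pg y))) ≤
        ∑ k ∈ Finset.range K, ∫ x, J x * (Real.exp (t * NN f K k x) * (aa f k x *
          (p2 k ^ n * ∫ y in ball x (1 / p2 k), χ y * pg y * Real.exp (t * NN f K k y)))) := by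
      refine Finset.sum_le_sum fun k _ => ?_
      have h2 := step_mono n hn2 hf K k c t 1 hct zero_le_one J (fun y => χ y * pg y)
        (fun y => χ y * pg y) hJm hJ0 hJf hFi hχp0 hFi hχp0 (fun x => by
          rw [one_mul]
          exact le_mul_of_one_le_right (hχp0 x)
            (Real.one_le_exp (mul_nonneg ht0 (NN_nonneg hf K k x))))
      rwa [one_mul] at h2
    have h2 := hbil f ε hε hf t ht0 (by rw [htε]; exact hθ1) K J (fun y => χ y * pg y) hJm
      (hχm.mul hpm) hJ0 hχp0 hFi hJi hFn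
    have h3 : (∫ x, (χ x * pg x) ^ n) ^ (1 / (n : ℝ)) ≤ X ^ (1 / (n : ℝ)) :=
      Real.rpow_le_rpow (integral_nonneg fun x => pow_nonneg (hχp0 x) _) hFX (by positivity)
    refine (h1.trans h2).trans ?_
    refine mul_le_mul (mul_le_mul_of_nonneg_left hJn (by positivity)) h3
      (Real.rpow_nonneg (integral_nonneg fun x => pow_nonneg (hχp0 x) _) _) (by positivity)
  -- third term
  have hfN : ∀ k, Integrable (fun y => f y * (ε + NN f K k y)) := by
    intro k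
    obtain ⟨h1, C, hC⟩ := (BM.const (n := n) ε).add (BM.aux (n := n) (by omega) hf K k).2.2
    refine Integrable.mono' (hf.int.mul_const C) (hf.meas.mul h1).aestronglyMeasurable
      (Eventually.of_forall fun x => ?_)
    rw [Real.norm_eq_abs, abs_mul, abs_of_nonneg (hf.nonneg x)]
    exact mul_le_mul_of_nonneg_left (hC x) (hf.nonneg x)
  have hS3 : ∑ k ∈ Finset.range K, ∫ x, J x *
          (Real.exp (c * NN f K k x) * (aa f k x *
            (p2 k ^ n * ∫ y in ball x (1 / p2 k), f y * (ε + NN f K k y)))) ≤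
      (1 + 1 / θ) * C₀ * ε ^ 2 * (X ^ ((1 : ℝ) / 2) * DD ^ ((1 : ℝ) / 2 - 1 / n)) *
        DD ^ (1 / (n : ℝ)) := by
    have h1 : ∑ k ∈ Finset.range K, ∫ x, J x *
          (Real.exp (c * NN f K k x) * (aa f k x *
            (p2 k ^ n * ∫ y in ball x (1 / p2 k), f y * (ε + NN f K k y)))) ≤
        ((1 + 1 / θ) * ε) * ∑ k ∈ Finset.range K, ∫ x, J x * (Real.exp (t * NN f K k x) *
          (aa f k x *
          (p2 k ^ n * ∫ y in ball x (1 / p2 k), f y * Real.exp (t * NN f K k y)))) := by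
      rw [Finset.mul_sum]
      refine Finset.sum_le_sum fun k _ => ?_
      refine step_mono n hn2 hf K k c t ((1 + 1 / θ) * ε) hct (by positivity) J
        (fun y => f y * (ε + NN f K k y)) f hJm hJ0 hJf (hfN k)
        (fun x => mul_nonneg (hf.nonneg x) (add_nonneg hε.le (NN_nonneg hf K k x))) hf.int
        hf.nonneg (fun x => ?_)
      have hN := NN_nonneg hf K k x
      have h3 : ε + NN f K k x ≤ (1 + 1 / θ) * ε * Real.exp (t * NN f K k x) := by
        have h4 : t * NN f K k x + 1 ≤ Real.exp (t * NN f K k x) := Real.add_one_le_exp _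
        have h5 : (1 + 1 / θ) * ε * (t * NN f K k x + 1) ≤
            (1 + 1 / θ) * ε * Real.exp (t * NN f K k x) :=
          mul_le_mul_of_nonneg_left h4 (by positivity)
        have h6 : (1 + 1 / θ) * ε * (t * NN f K k x + 1) =
            (1 + 1 / θ) * (t * ε) * NN f K k x + (1 + 1 / θ) * ε := by ring
        have h7 : (1 + 1 / θ) * θ = θ + 1 := by field_simp
        rw [h6, htε, h7] at h5
        have h8 : 0 ≤ θ * NN f K k x := by positivity
        have h9 : 0 ≤ 1 / θ * ε := by positivity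
        linarith
      have h10 := mul_le_mul_of_nonneg_left h3 (hf.nonneg x)
      calc _ ≤ _ := h10
        _ = _ := by ring
    have h2 := hbil f ε hε hf t ht0 (by rw [htε]; exact hθ1) K J f hJm
      hf.meas hJ0 hf.nonneg hf.int hJi hf.intn
    have h3 := mul_le_mul_of_nonneg_left h2 (show 0 ≤ (1 + 1 / θ) * ε by positivity)
    refine (h1.trans h3).trans ?_
    have h4 : C₀ * ε * Jn * DD ^ (1 / (n : ℝ)) ≤
        C₀ * ε * (X ^ ((1 : ℝ) / 2) * DD ^ ((1 : ℝ) / 2 - 1 / n)) * DD ^ (1 / (n : ℝ)) :=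
      mul_le_mul_of_nonneg_right (mul_le_mul_of_nonneg_left hJn (by positivity))
        (Real.rpow_nonneg hD0 _)
    have h5 := mul_le_mul_of_nonneg_left h4 (show 0 ≤ (1 + 1 / θ) * ε by positivity)
    calc _ ≤ _ := h5
      _ = _ := by ring
  have hyA := hya ε X DD hε hεb hX0 hD0
  have hyB := hyb ε X DD hε hεb hX0 hD0
  have g2 := mul_le_mul_of_nonneg_left hS2 hA
  have g3 := mul_le_mul_of_nonneg_left hS3 hA
  have g0 := mul_le_mul_of_nonneg_left hsplit hA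
  have k2 : A * (C₀ * ε * (X ^ ((1 : ℝ) / 2) * DD ^ ((1 : ℝ) / 2 - 1 / n)) * X ^ (1 / (n : ℝ))) =
      A * C₀ * ε * (X ^ ((1 : ℝ) / 2) * DD ^ ((1 : ℝ) / 2 - 1 / n)) * X ^ (1 / (n : ℝ)) := by ring
  have k3 : A * ((1 + 1 / θ) * C₀ * ε ^ 2 *
      (X ^ ((1 : ℝ) / 2) * DD ^ ((1 : ℝ) / 2 - 1 / n)) * DD ^ (1 / (n : ℝ))) =
      A * ((1 + 1 / θ) * C₀) * ε ^ 2 *
      (X ^ ((1 : ℝ) / 2) * DD ^ ((1 : ℝ) / 2 - 1 / n)) * DD ^ (1 / (n : ℝ)) := by ring
  rw [k2] at g2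
  rw [k3] at g3
  have k4 : 0 ≤ ε ^ n * DD := mul_nonneg (pow_nonneg hε.le _) hD0
  have k5 : 0 ≤ ε * T1 := mul_nonneg hε.le hT10
  have k6 : (Ca + Cb + A * (1 + L * 8 ^ (n - 1)) + 1) * ε ^ n * DD =
      Ca * ε ^ n * DD + Cb * ε ^ n * DD + (A * (1 + L * 8 ^ (n - 1)) + 1) * (ε ^ n * DD) := by ring
  have k7 : (Ca + Cb + A * (1 + L * 8 ^ (n - 1)) + 1) * ε * T1 =
      A * ((1 + L * 8 ^ (n - 1)) * ε * T1) + (Ca + Cb + 1) * (ε * T1) := by ring
  have k8 : 0 ≤ (A * (1 + L * 8 ^ (n - 1)) + 1) * (ε ^ n * DD) := by positivity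
  have k9 : 0 ≤ (Ca + Cb + 1) * (ε * T1) := by positivity
  rw [k6, k7]
  rw [mul_add, mul_add] at g0
  linarith

end H60NH
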