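import Pool.Agent.H60.NH.Def2

/-!
# [H60 NH OALG] The equation of the error (algebra of one step, in one variable)

Put `E = DB - μ p - SP B`, `e = Dμ - <p, B>`. Product rules (`SP(t) (B(t))`: `HasDerivWithinAt.clm_apply`):
`E' = Dμ z + μ zh + SZ DB + RR B - <z,B> p - μ zh - RR B - SP (μ z + SZ B)
    = Dμ z + SZ DB - <z,B> p - μ SP z - SP SZ B`;
substitute `Dμ = e + <p,B>`, `DB = E + μ p + SP B` and use `SZ p = SP z`:
`E' = e z + SZ E + <p,B> z - <z,B> p + SZ SP B - SP SZ B`.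
`e' = <zh,B> + <z,DB> - <zh,B> - <p, μ z + SZ B> = <z, E + μ p + SP B> - μ <p,z> - <p, SZ B>
    = <z,E> + <SP z, B> - <SZ p, B> = <z, E>` by the symmetry of `SP`, `SZ`.
-/

set_option autoImplicit false

namespace H60NH

open MeasureTheory Metric Set Filter Topology
open scoped ENNReal NNReal ContDiff

theorem step_algebra {m : ℕ} (z p zh B DB : ℝ → E m) (μ Dμ : ℝ → ℝ)
    (SZ SP RR : ℝ → E m →L[ℝ] E m)
    (hB : ∀ s ∈ Icc (0:ℝ) 1, HasDerivWithinAt B (μ s • z s + SZ s (B s)) (Icc 0 1) s)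
    (hμ : ∀ s ∈ Icc (0:ℝ) 1, HasDerivWithinAt μ (inner ℝ (z s) (B s)) (Icc 0 1) s)
    (hDB : ∀ s ∈ Icc (0:ℝ) 1, HasDerivWithinAt DB
      (Dμ s • z s + μ s • zh s + SZ s (DB s) + RR s (B s)) (Icc 0 1) s)
    (hDμ : ∀ s ∈ Icc (0:ℝ) 1, HasDerivWithinAt Dμ
      (inner ℝ (zh s) (B s) + inner ℝ (z s) (DB s)) (Icc 0 1) s)
    (hp : ∀ s ∈ Icc (0:ℝ) 1, HasDerivWithinAt p (zh s) (Icc 0 1) s)
    (hSP : ∀ s ∈ Icc (0:ℝ) 1, HasDerivWithinAt SP (RR s) (Icc 0 1) s)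
    (sz : ∀ s ∈ Icc (0:ℝ) 1, ∀ a b, inner ℝ (SZ s a) b = inner ℝ a (SZ s b))
    (sp : ∀ s ∈ Icc (0:ℝ) 1, ∀ a b, inner ℝ (SP s a) b = inner ℝ a (SP s b))
    (hzp : ∀ s ∈ Icc (0:ℝ) 1, SZ s (p s) = SP s (z s)) :
    ∀ s ∈ Icc (0:ℝ) 1,
      HasDerivWithinAt (fun t => DB t - μ t • p t - SP t (B t))
        ((Dμ s - inner ℝ (p s) (B s)) • z s + SZ s (DB s - μ s • p s - SP s (B s)) +
          ((inner ℝ (p s) (B s)) • z s - (inner ℝ (z s) (B s)) • p s + SZ s (SP s (B s))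
            - SP s (SZ s (B s)))) (Icc 0 1) s ∧
      HasDerivWithinAt (fun t => Dμ t - inner ℝ (p t) (B t))
        (inner ℝ (z s) (DB s - μ s • p s - SP s (B s))) (Icc 0 1) s := by
  intro s hs
  constructor
  · have h1 := hDB s hs
    have h2 := (hμ s hs).smul (hp s hs)
    have h3 := (hSP s hs).clm_apply (hB s hs)
    refine ((h1.sub h2).sub h3).congr_deriv ?_
    rw [map_add, map_smul, map_sub, map_sub, map_smul, hzp s hs]
    module
  · have h1 := (hDμ s hs).sub ((hp s hs).inner ℝ (hB s hs))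
    refine h1.congr_deriv ?_
    rw [inner_add_right, inner_sub_right, inner_sub_right, real_inner_smul_right,
      real_inner_smul_right]
    have h2 : inner ℝ (p s) (SZ s (B s)) = inner ℝ (z s) (SP s (B s)) := by
      rw [← sz s hs, hzp s hs, sp s hs]
    have h3 : inner ℝ (p s) (z s) = inner ℝ (z s) (p s) := real_inner_comm _ _
    rw [h2, h3]
    ring

end H60NH
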