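import Pool.Agent.H60.NH.OGron

/-!
# [H60 NH OCONT] Continuity of the solution of a linear ODE in the parameter

`Y(x,·)' = A(x,s) Y(x,s) + g(x,s)` with `A`, `g` continuous on `Ω × [0,1]`, and `Y(·,0)` continuous
on `Ω`; then `Y(·,s)` is continuous on `Ω` for every `s ∈ [0,1]`.
Proof. Fix `x`, `K = closedBall x r ⊆ Ω`, `L` a bound for `‖A‖, ‖g‖` on the compact `K × [0,1]`.
`D = Y(y,s) - Y(x,s)` satisfies `D' = A(y,s) D + (A(y,s) - A(x,s)) Y(x,s) + g(y,s) - g(x,s)`; the last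
two terms tend to `0` uniformly in `s` as `y → x` (uniform continuity on `K × [0,1]`; `Y(x,·)` is
bounded by `gronwall01`), and `D(0) → 0`; `gronwall01`.
-/

set_option autoImplicit false

namespace H60NH

open MeasureTheory Metric Set Filter Topology
open scoped ENNReal NNReal ContDiff

/-- uniform closeness over `[0,1]` -/
lemma unif_close {X G : Type*} [TopologicalSpace X] [NormedAddCommGroup G]
    (Ω : Set X) (f : X → ℝ → G)
    (hf : ContinuousOn (fun q : X × ℝ => f q.1 q.2) (Ω ×ˢ Icc 0 1)) (x : X) (hx : x ∈ Ω)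
    (η : ℝ) (hη : 0 < η) :
    ∃ v ∈ 𝓝[Ω] x, ∀ y ∈ v, ∀ s ∈ Icc (0:ℝ) 1, ‖f y s - f x s‖ < η := by
  obtain ⟨v, hv, h⟩ := (isCompact_Icc (a := (0:ℝ)) (b := 1)).mem_uniformity_of_prod (f := f)
    (s := Ω) (q := x) (u := {p : G × G | dist p.1 p.2 < η}) hf hx (Metric.dist_mem_uniformity hη)
  refine ⟨v, hv, fun y hy s hs => ?_⟩
  have := h y hy s hs
  have h2 : dist (f y s) (f x s) < η := this
  rwa [dist_eq_norm] at h2

lemma section_cont {X G : Type*} [TopologicalSpace X] [NormedAddCommGroup G]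
    (Ω : Set X) (f : X → ℝ → G)
    (hf : ContinuousOn (fun q : X × ℝ => f q.1 q.2) (Ω ×ˢ Icc 0 1)) (x : X) (hx : x ∈ Ω) :
    ContinuousOn (f x) (Icc 0 1) := by
  have h : ContinuousOn (fun s : ℝ => (x, s)) (Icc 0 1) := by fun_prop
  exact hf.comp h (fun s hs => ⟨hx, hs⟩)

theorem continuousOn_param {n : ℕ} {F : Type*} [NormedAddCommGroup F] [NormedSpace ℝ F]
    (Ω : Set (E n)) (hΩ : IsOpen Ω)
    (A : E n → ℝ → F →L[ℝ] F) (g : E n → ℝ → F)
    (hA : ContinuousOn (fun q : E n × ℝ => A q.1 q.2) (Ω ×ˢ Icc 0 1))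
    (hg : ContinuousOn (fun q : E n × ℝ => g q.1 q.2) (Ω ×ˢ Icc 0 1))
    (Y : E n → ℝ → F) (hY0 : ContinuousOn (fun x => Y x 0) Ω)
    (hYs : ∀ x ∈ Ω, ∀ s ∈ Icc (0:ℝ) 1,
      HasDerivWithinAt (Y x) (A x s (Y x s) + g x s) (Icc 0 1) s) :
    ContinuousOn (fun q : E n × ℝ => Y q.1 q.2) (Ω ×ˢ Icc 0 1) := by
  rintro ⟨x, s₀⟩ ⟨hx, hs₀⟩
  have hx' : x ∈ Ω := hx
  have hs₀' : s₀ ∈ Icc (0:ℝ) 1 := hs₀
  obtain ⟨L, hL⟩ := isCompact_Icc.exists_bound_of_continuousOn (section_cont Ω A hA x hx')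
  have hYc : ContinuousOn (Y x) (Icc 0 1) := fun s hs => (hYs x hx' s hs).continuousWithinAt
  obtain ⟨C, hC⟩ := isCompact_Icc.exists_bound_of_continuousOn hYc
  have hL0 : 0 ≤ L := (norm_nonneg _).trans (hL 0 (by simp))
  have hC0 : 0 ≤ C := (norm_nonneg _).trans (hC 0 (by simp))
  -- the uniform estimate
  have key : ∀ ε : ℝ, 0 < ε → ∃ v ∈ 𝓝[Ω] x, ∀ y ∈ v, y ∈ Ω → ∀ s ∈ Icc (0:ℝ) 1,
      ‖Y y s - Y x s‖ < ε := by
    intro ε hε
    set η : ℝ := min 1 (ε / (2 * (Real.exp (L + 1) * (C + 2)))) with hη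
    have hη0 : 0 < η := by
      rw [hη]
      positivity
    have hη1 : η ≤ 1 := min_le_left _ _
    have hη2 : η * (Real.exp (L + 1) * (C + 2)) < ε := by
      have h1 : η ≤ ε / (2 * (Real.exp (L + 1) * (C + 2))) := min_le_right _ _
      have h2 : 0 < Real.exp (L + 1) * (C + 2) := by positivity
      calc η * (Real.exp (L + 1) * (C + 2))
          ≤ ε / (2 * (Real.exp (L + 1) * (C + 2))) * (Real.exp (L + 1) * (C + 2)) := by gcongr
        _ = ε / 2 := by field_simp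
        _ < ε := by linarith
    obtain ⟨v1, hv1, h1⟩ := unif_close Ω A hA x hx' η hη0
    obtain ⟨v2, hv2, h2⟩ := unif_close Ω g hg x hx' η hη0
    have h3 : {y | ‖Y y 0 - Y x 0‖ < η} ∈ 𝓝[Ω] x := by
      have := (hY0 x hx').eventually (Metric.ball_mem_nhds (Y x 0) hη0)
      filter_upwards [this] with y hy
      rw [← dist_eq_norm]
      exact hy
    refine ⟨v1 ∩ (v2 ∩ {y | ‖Y y 0 - Y x 0‖ < η}), inter_mem hv1 (inter_mem hv2 h3), ?_⟩
    rintro y ⟨hy1, hy2, hy3⟩ hyΩ s hs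
    have hgr := gronwall01 (fun s => Y y s - Y x s)
      (fun s => (A y s (Y y s) + g y s) - (A x s (Y x s) + g x s)) (L + 1) (η * C + η)
      (by positivity) (by positivity)
      (fun s hs => (hYs y hyΩ s hs).sub (hYs x hx' s hs)) (by
        intro s hs
        have e : (A y s (Y y s) + g y s) - (A x s (Y x s) + g x s) =
            A y s (Y y s - Y x s) + ((A y s - A x s) (Y x s) + (g y s - g x s)) := by
          rw [map_sub, _root_.sub_apply]
          abel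
        have hb1 : ‖A y s‖ ≤ L + 1 := by
          have h4 := h1 y hy1 s hs
          have h5 := hL s hs
          calc ‖A y s‖ = ‖(A y s - A x s) + A x s‖ := by rw [sub_add_cancel]
            _ ≤ ‖A y s - A x s‖ + ‖A x s‖ := norm_add_le _ _
            _ ≤ L + 1 := by linarith
        simp only [e]
        calc ‖A y s (Y y s - Y x s) + ((A y s - A x s) (Y x s) + (g y s - g x s))‖
            ≤ ‖A y s (Y y s - Y x s)‖ + (‖(A y s - A x s) (Y x s)‖ + ‖g y s - g x s‖) :=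
              (norm_add_le _ _).trans (by gcongr; exact norm_add_le _ _)
          _ ≤ ‖A y s‖ * ‖Y y s - Y x s‖ + (‖A y s - A x s‖ * ‖Y x s‖ + ‖g y s - g x s‖) := by
              gcongr
              · exact (A y s).le_opNorm _
              · exact (A y s - A x s).le_opNorm _
          _ ≤ (L + 1) * ‖Y y s - Y x s‖ + (η * C + η) := by
              gcongr
              · exact (h1 y hy1 s hs).le
              · exact hC s hs
              · exact (h2 y hy2 s hs).le)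
    have h4 := hgr s hs
    refine lt_of_le_of_lt h4 (lt_of_le_of_lt ?_ hη2)
    have h5 : (L + 1) * s ≤ L + 1 := mul_le_of_le_one_right (by positivity) hs.2
    have h6 : (η * C + η) * s ≤ η * C + η := mul_le_of_le_one_right (by positivity) hs.2
    have h7 : 0 ≤ (η * C + η) * s := mul_nonneg (by positivity) hs.1
    have h8 : ‖Y y 0 - Y x 0‖ < η := hy3
    calc Real.exp ((L + 1) * s) * (‖Y y 0 - Y x 0‖ + (η * C + η) * s)
        ≤ Real.exp (L + 1) * (η + (η * C + η)) := by gcongr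
      _ = η * (Real.exp (L + 1) * (C + 2)) := by ring
  rw [ContinuousWithinAt, Metric.tendsto_nhds]
  intro ε hε
  obtain ⟨v, hv, h⟩ := key (ε / 2) (by positivity)
  have hc : ∀ᶠ s in 𝓝[Icc (0:ℝ) 1] s₀, dist (Y x s) (Y x s₀) < ε / 2 :=
    (hYc s₀ hs₀').eventually (Metric.ball_mem_nhds (Y x s₀) (half_pos hε))
  rw [nhdsWithin_prod_eq]
  have hv' : ∀ᶠ y in 𝓝[Ω] x, y ∈ v ∧ y ∈ Ω := (Filter.Eventually.and hv self_mem_nhdsWithin)
  have hc' : ∀ᶠ s in 𝓝[Icc (0:ℝ) 1] s₀, dist (Y x s) (Y x s₀) < ε / 2 ∧ s ∈ Icc (0:ℝ) 1 :=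
    hc.and self_mem_nhdsWithin
  filter_upwards [hv'.prod_mk hc'] with q hq
  have h9 := h q.1 hq.1.1 hq.1.2 q.2 hq.2.2
  calc dist (Y q.1 q.2) (Y x s₀) ≤ dist (Y q.1 q.2) (Y x q.2) + dist (Y x q.2) (Y x s₀) :=
        dist_triangle _ _ _
    _ < ε / 2 + ε / 2 := by
        rw [dist_eq_norm (Y q.1 q.2)]
        exact add_lt_add h9 hq.2.1
    _ = ε := by ring

end H60NH
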