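import Pool.Agent.H60.NH.OCont

/-!
# [H60 NH OPAR] Differentiable dependence on the parameter of a linear ODE

`X(y, ·)' = M(y,s) X(y,s)`, `Y(x,·)' = M(x,s) ∘ Y(x,s) + (h ↦ (M'(x,s) h) X(x,s))`,
`Y(x,0) = X0'(x)`. Claim: `Y(x,s)` is the derivative of `X(·,s)` at `x`.
Proof. Fix `x` and a closed ball `K = closedBall x r ⊆ Ω`; `K × [0,1]` is compact, let `L` bound
`‖M‖, ‖M'‖` there. By `gronwall01`, `‖X(y,s)‖ <= e^L ‖X0 y‖ <= C` for `y ∈ K`; the difference
`D = X(y,s) - X(x,s)` satisfies `D' = M(y,s) D + (M(y,s) - M(x,s)) X(x,s)`, `‖M(y,s) - M(x,s)‖ <=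
L|y - x|` (mean value inequality on the ball), so `‖D‖ <= C|y - x|` for `y` near `x` (`X0` is
differentiable at `x`). Then `R = X(y,s) - X(x,s) - Y(x,s)(y-x)` satisfies
`R' = M(x,s) R + (M(y,s) - M(x,s) - M'(x,s)(y-x)) X(x,s) + (M(y,s) - M(x,s)) D`,
where `‖M(y,s) - M(x,s) - M'(x,s)(y-x)‖ <= ω(|y-x|) |y-x|` uniformly in `s` with `ω → 0` (mean value
inequality for `y ↦ M(y,s) - M'(x,s) y` and uniform continuity of `M'` on `K × [0,1]`), and
`R(0) = o(|y-x|)`. By `gronwall01` `R(s) = o(|y-x|)`.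
-/

set_option autoImplicit false

namespace H60NH

open MeasureTheory Metric Set Filter Topology
open scoped ENNReal NNReal ContDiff

lemma bound_of_cont {G : Type*} [NormedAddCommGroup G] (f : ℝ → G)
    (hf : ContinuousOn f (Icc 0 1)) : ∃ L : ℝ, 0 ≤ L ∧ ∀ s ∈ Icc (0:ℝ) 1, ‖f s‖ ≤ L := by
  obtain ⟨L, hL⟩ := isCompact_Icc.exists_bound_of_continuousOn hf
  exact ⟨L, (norm_nonneg _).trans (hL 0 (by simp)), hL⟩

theorem hasFDerivAt_param {n : ℕ} {F : Type*} [NormedAddCommGroup F] [NormedSpace ℝ F]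
    (Ω : Set (E n)) (hΩ : IsOpen Ω)
    (M : E n → ℝ → F →L[ℝ] F) (M' : E n → ℝ → E n →L[ℝ] F →L[ℝ] F)
    (hM : ContinuousOn (fun q : E n × ℝ => M q.1 q.2) (Ω ×ˢ Icc 0 1))
    (hM' : ContinuousOn (fun q : E n × ℝ => M' q.1 q.2) (Ω ×ˢ Icc 0 1))
    (hd : ∀ x ∈ Ω, ∀ s ∈ Icc (0:ℝ) 1, HasFDerivAt (fun y => M y s) (M' x s) x)
    (X0 : E n → F) (X0' : E n → E n →L[ℝ] F) (hX0 : ∀ x ∈ Ω, HasFDerivAt X0 (X0' x) x)
    (X : E n → ℝ → F) (Y : E n → ℝ → E n →L[ℝ] F)
    (hX : ∀ x ∈ Ω, X x 0 = X0 x) (hY : ∀ x ∈ Ω, Y x 0 = X0' x)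
    (hXs : ∀ x ∈ Ω, ∀ s ∈ Icc (0:ℝ) 1, HasDerivWithinAt (X x) (M x s (X x s)) (Icc 0 1) s)
    (hYs : ∀ x ∈ Ω, ∀ s ∈ Icc (0:ℝ) 1,
      HasDerivWithinAt (Y x) ((M x s).comp (Y x s) + (M' x s).flip (X x s)) (Icc 0 1) s) :
    ∀ x ∈ Ω, ∀ s ∈ Icc (0:ℝ) 1, HasFDerivAt (fun y => X y s) (Y x s) x := by
  intro x hx s₁ hs₁
  -- bounds along the solution through `x`
  obtain ⟨L, hL⟩ := isCompact_Icc.exists_bound_of_continuousOn (section_cont Ω M hM x hx)
  obtain ⟨L', hL'0, hL'⟩ := bound_of_cont (M' x) (section_cont Ω M' hM' x hx)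
  have hXc : ContinuousOn (X x) (Icc 0 1) := fun s hs => (hXs x hx s hs).continuousWithinAt
  obtain ⟨C, hC⟩ := isCompact_Icc.exists_bound_of_continuousOn hXc
  have hL0 : 0 ≤ L := (norm_nonneg _).trans (hL 0 (by simp))
  have hC0 : 0 ≤ C := (norm_nonneg _).trans (hC 0 (by simp))
  set K : ℝ := Real.exp (L + 1) * (‖X0' x‖ + 1 + (L' + 1) * C) with hK
  have hK0 : 0 ≤ K := by positivity
  rw [hasFDerivAt_iff_isLittleO, Asymptotics.isLittleO_iff]
  intro c hc
  set η : ℝ := min 1 (c / (2 * (Real.exp L * (1 + C)))) with hη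
  have hη0 : 0 < η := by
    rw [hη]
    positivity
  have hη1 : η ≤ 1 := min_le_left _ _
  have hη2 : Real.exp L * (η + η * C) ≤ c / 2 := by
    have h1 : η ≤ c / (2 * (Real.exp L * (1 + C))) := min_le_right _ _
    have h2 : 0 < Real.exp L * (1 + C) := by positivity
    calc Real.exp L * (η + η * C) = η * (Real.exp L * (1 + C)) := by ring
      _ ≤ c / (2 * (Real.exp L * (1 + C))) * (Real.exp L * (1 + C)) := by gcongr
      _ = c / 2 := by field_simp
  set δ₀ : ℝ := c / (2 * (Real.exp L * ((L' + 1) * K) + 1)) with hδ₀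
  have hδ₀0 : 0 < δ₀ := by positivity
  have hδ₀2 : Real.exp L * ((L' + 1) * K * δ₀) ≤ c / 2 := by
    have h2 : 0 ≤ Real.exp L * ((L' + 1) * K) := by positivity
    have h3 : Real.exp L * ((L' + 1) * K * δ₀) =
        (Real.exp L * ((L' + 1) * K)) * (c / (2 * (Real.exp L * ((L' + 1) * K) + 1))) := by
      rw [hδ₀]; ring
    rw [h3, mul_div_assoc', div_le_div_iff₀ (by positivity) (by norm_num)]
    nlinarith
  -- closeness of `M'` on a ball
  have hnhds : 𝓝[Ω] x = 𝓝 x := hΩ.nhdsWithin_eq hx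
  obtain ⟨v1, hv1, h1⟩ := unif_close Ω M' hM' x hx η hη0
  obtain ⟨v2, hv2, h2⟩ := unif_close Ω M hM x hx 1 one_pos
  rw [hnhds] at hv1 hv2
  obtain ⟨r, hr0, hr⟩ := Metric.mem_nhds_iff.1 (inter_mem hv1 (hΩ.mem_nhds hx))
  have h4 : ∀ᶠ y in 𝓝 x, ‖X0 y - X0 x - X0' x (y - x)‖ ≤ η * ‖y - x‖ :=
    (Asymptotics.isLittleO_iff.1 (hasFDerivAt_iff_isLittleO.1 (hX0 x hx))) hη0
  filter_upwards [Metric.ball_mem_nhds x hr0, hv2, h4, Metric.ball_mem_nhds x hδ₀0]
    with y hy1 hy2 hy4 hy5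
  have hyΩ : y ∈ Ω := (hr hy1).2
  have hyδ : ‖y - x‖ ≤ δ₀ := by
    rw [← dist_eq_norm]
    exact (mem_ball.1 hy5).le
  -- estimates for the coefficients
  have hM1 : ∀ s ∈ Icc (0:ℝ) 1, ‖M y s - M x s - M' x s (y - x)‖ ≤ η * ‖y - x‖ := by
    intro s hs
    refine Convex.norm_image_sub_le_of_norm_hasFDerivWithin_le' (f := fun z => M z s)
      (f' := fun z => M' z s) (s := ball x r) (fun z hz => ?_) (fun z hz => ?_) (convex_ball x r)
      (mem_ball_self hr0) hy1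
    · exact (hd z (hr hz).2 s hs).hasFDerivWithinAt
    · exact (h1 z (hr hz).1 s hs).le
  have hM2 : ∀ s ∈ Icc (0:ℝ) 1, ‖M y s - M x s‖ ≤ (L' + 1) * ‖y - x‖ := by
    intro s hs
    have e : M y s - M x s = (M y s - M x s - M' x s (y - x)) + M' x s (y - x) := by abel
    rw [e]
    calc ‖(M y s - M x s - M' x s (y - x)) + M' x s (y - x)‖
        ≤ ‖M y s - M x s - M' x s (y - x)‖ + ‖M' x s (y - x)‖ := norm_add_le _ _
      _ ≤ η * ‖y - x‖ + ‖M' x s‖ * ‖y - x‖ := by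
          gcongr
          · exact hM1 s hs
          · exact (M' x s).le_opNorm _
      _ ≤ 1 * ‖y - x‖ + L' * ‖y - x‖ := by
          gcongr
          exact hL' s hs
      _ = (L' + 1) * ‖y - x‖ := by ring
  have hM3 : ∀ s ∈ Icc (0:ℝ) 1, ‖M y s‖ ≤ L + 1 := by
    intro s hs
    have h5 := h2 y hy2 s hs
    have h6 := hL s hs
    calc ‖M y s‖ = ‖(M y s - M x s) + M x s‖ := by rw [sub_add_cancel]
      _ ≤ ‖M y s - M x s‖ + ‖M x s‖ := norm_add_le _ _
      _ ≤ L + 1 := by linarith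
  -- the difference
  have hD : ∀ s ∈ Icc (0:ℝ) 1, ‖X y s - X x s‖ ≤ K * ‖y - x‖ := by
    intro s hs
    have hgr := gronwall01 (fun s => X y s - X x s)
      (fun s => M y s (X y s) - M x s (X x s)) (L + 1) ((L' + 1) * ‖y - x‖ * C)
      (by positivity) (by positivity)
      (fun s hs => (hXs y hyΩ s hs).sub (hXs x hx s hs)) (by
        intro s hs
        have e : M y s (X y s) - M x s (X x s) =
            M y s (X y s - X x s) + (M y s - M x s) (X x s) := by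
          rw [map_sub, _root_.sub_apply]
          abel
        simp only [e]
        calc ‖M y s (X y s - X x s) + (M y s - M x s) (X x s)‖
            ≤ ‖M y s (X y s - X x s)‖ + ‖(M y s - M x s) (X x s)‖ := norm_add_le _ _
          _ ≤ ‖M y s‖ * ‖X y s - X x s‖ + ‖M y s - M x s‖ * ‖X x s‖ := by
              gcongr
              · exact (M y s).le_opNorm _
              · exact (M y s - M x s).le_opNorm _
          _ ≤ (L + 1) * ‖X y s - X x s‖ + (L' + 1) * ‖y - x‖ * C := by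
              gcongr
              · exact hM3 s hs
              · exact hM2 s hs
              · exact hC s hs) s hs
    refine hgr.trans ?_
    have h5 : (L + 1) * s ≤ L + 1 := mul_le_of_le_one_right (by positivity) hs.2
    have h6 : (L' + 1) * ‖y - x‖ * C * s ≤ (L' + 1) * ‖y - x‖ * C :=
      mul_le_of_le_one_right (by positivity) hs.2
    have h7 : 0 ≤ (L' + 1) * ‖y - x‖ * C * s := mul_nonneg (by positivity) hs.1
    have h8 : ‖X y 0 - X x 0‖ ≤ (‖X0' x‖ + 1) * ‖y - x‖ := by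
      rw [hX y hyΩ, hX x hx]
      have e : X0 y - X0 x = (X0 y - X0 x - X0' x (y - x)) + X0' x (y - x) := by abel
      rw [e]
      calc ‖(X0 y - X0 x - X0' x (y - x)) + X0' x (y - x)‖
          ≤ ‖X0 y - X0 x - X0' x (y - x)‖ + ‖X0' x (y - x)‖ := norm_add_le _ _
        _ ≤ η * ‖y - x‖ + ‖X0' x‖ * ‖y - x‖ := by
            gcongr
            exact (X0' x).le_opNorm _
        _ ≤ 1 * ‖y - x‖ + ‖X0' x‖ * ‖y - x‖ := by gcongr
        _ = (‖X0' x‖ + 1) * ‖y - x‖ := by ring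
    calc Real.exp ((L + 1) * s) * (‖X y 0 - X x 0‖ + (L' + 1) * ‖y - x‖ * C * s)
        ≤ Real.exp (L + 1) * ((‖X0' x‖ + 1) * ‖y - x‖ + (L' + 1) * ‖y - x‖ * C) := by gcongr
      _ = K * ‖y - x‖ := by rw [hK]; ring
  -- the remainder
  have hYv : ∀ s ∈ Icc (0:ℝ) 1, HasDerivWithinAt (fun s => Y x s (y - x))
      (((M x s).comp (Y x s) + (M' x s).flip (X x s)) (y - x)) (Icc 0 1) s := by
    intro s hs
    have h5 := (hYs x hx s hs).clm_apply (hasDerivWithinAt_const s (Icc (0:ℝ) 1) (y - x))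
    simpa using h5
  have hgr := gronwall01 (fun s => X y s - X x s - Y x s (y - x))
    (fun s => M y s (X y s) - M x s (X x s) -
      (((M x s).comp (Y x s) + (M' x s).flip (X x s)) (y - x))) L
    ((L' + 1) * ‖y - x‖ * (K * ‖y - x‖) + η * ‖y - x‖ * C) hL0 (by positivity)
    (fun s hs => ((hXs y hyΩ s hs).sub (hXs x hx s hs)).sub (hYv s hs)) (by
      intro s hs
      have e : M y s (X y s) - M x s (X x s) -
          (((M x s).comp (Y x s) + (M' x s).flip (X x s)) (y - x)) =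
          M x s (X y s - X x s - Y x s (y - x)) + ((M y s - M x s) (X y s - X x s) +
            (M y s - M x s - M' x s (y - x)) (X x s)) := by
        simp only [map_sub, _root_.sub_apply, _root_.add_apply, ContinuousLinearMap.comp_apply,
          ContinuousLinearMap.flip_apply]
        abel
      simp only [e]
      calc ‖M x s (X y s - X x s - Y x s (y - x)) + ((M y s - M x s) (X y s - X x s) +
            (M y s - M x s - M' x s (y - x)) (X x s))‖
          ≤ ‖M x s (X y s - X x s - Y x s (y - x))‖ + (‖(M y s - M x s) (X y s - X x s)‖ +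
            ‖(M y s - M x s - M' x s (y - x)) (X x s)‖) :=
            (norm_add_le _ _).trans (by gcongr; exact norm_add_le _ _)
        _ ≤ ‖M x s‖ * ‖X y s - X x s - Y x s (y - x)‖ + (‖M y s - M x s‖ * ‖X y s - X x s‖ +
            ‖M y s - M x s - M' x s (y - x)‖ * ‖X x s‖) := by
            gcongr
            · exact (M x s).le_opNorm _
            · exact (M y s - M x s).le_opNorm _
            · exact (M y s - M x s - M' x s (y - x)).le_opNorm _
        _ ≤ L * ‖X y s - X x s - Y x s (y - x)‖ + ((L' + 1) * ‖y - x‖ * (K * ‖y - x‖) +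
            η * ‖y - x‖ * C) := by
            gcongr
            · exact hL s hs
            · exact hM2 s hs
            · exact hD s hs
            · exact hM1 s hs
            · exact hC s hs) s₁ hs₁
  refine hgr.trans ?_
  set κ : ℝ := (L' + 1) * ‖y - x‖ * (K * ‖y - x‖) + η * ‖y - x‖ * C with hκ
  have hκ0 : 0 ≤ κ := by positivity
  have h5 : L * s₁ ≤ L := mul_le_of_le_one_right hL0 hs₁.2
  have h6 : κ * s₁ ≤ κ := mul_le_of_le_one_right hκ0 hs₁.2
  have h7 : 0 ≤ κ * s₁ := mul_nonneg hκ0 hs₁.1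
  have h8 : ‖X y 0 - X x 0 - Y x 0 (y - x)‖ ≤ η * ‖y - x‖ := by
    rw [hX y hyΩ, hX x hx, hY x hx]
    exact hy4
  calc Real.exp (L * s₁) * (‖X y 0 - X x 0 - Y x 0 (y - x)‖ + κ * s₁)
      ≤ Real.exp L * (η * ‖y - x‖ + κ) := by gcongr
    _ = (Real.exp L * ((L' + 1) * K * ‖y - x‖) + Real.exp L * (η + η * C)) * ‖y - x‖ := by
        rw [hκ]; ring
    _ ≤ (Real.exp L * ((L' + 1) * K * δ₀) + Real.exp L * (η + η * C)) * ‖y - x‖ := by gcongr
    _ ≤ (c / 2 + c / 2) * ‖y - x‖ := by gcongr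
    _ = c * ‖y - x‖ := by ring

end H60NH
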