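import Pool.Agent.H60.NH.OLin
import Pool.Agent.H60.NH.OPar
import Pool.Agent.H60.NH.OCont

/-!
# [H60 NH OALL] Linear ODE with a parameter

For each `x ∈ Ω` take `X x` from `lin_ode` (`A = M x`, `g = 0`, initial value `X0 x`), then
`Y x` from `lin_ode` in the space `E n →L[ℝ] F` with `A s = (M x s).comp ·`
(`ContinuousLinearMap.compL ℝ (E n) F F (M x s)`), `g s = (M' x s).flip (X x s)` (continuous in `s`, as
`X x` is continuous), initial value `fderiv X0 x`. `hasFDerivAt_param` gives the derivative.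
Continuity of `X` on `Ω × [0,1]` (`continuousOn_param`), then that of
`(x,s) ↦ (M' x s).flip (X x s)`, then (`continuousOn_param` again, space `E n →L[ℝ] F`) continuity of
`Y` on `Ω × [0,1]`, so `Y(·,s)` is continuous on `Ω` and `X(·,s)` is `C^1` on `Ω` (`Ω` open,
`contDiffOn_one_iff_fderiv_of_isOpen` or similar).
-/

set_option autoImplicit false

namespace H60NH

open MeasureTheory Metric Set Filter Topology
open scoped ENNReal NNReal ContDiff

theorem lin_ode_param {n : ℕ} {F : Type*} [NormedAddCommGroup F] [NormedSpace ℝ F]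
    [CompleteSpace F] (Ω : Set (E n)) (hΩ : IsOpen Ω)
    (M : E n → ℝ → F →L[ℝ] F) (M' : E n → ℝ → E n →L[ℝ] F →L[ℝ] F)
    (hM : ContinuousOn (fun q : E n × ℝ => M q.1 q.2) (Ω ×ˢ Icc 0 1))
    (hM' : ContinuousOn (fun q : E n × ℝ => M' q.1 q.2) (Ω ×ˢ Icc 0 1))
    (hd : ∀ x ∈ Ω, ∀ s ∈ Icc (0:ℝ) 1, HasFDerivAt (fun y => M y s) (M' x s) x)
    (X0 : E n → F) (hX0 : ContDiffOn ℝ 1 X0 Ω) :
    ∃ (X : E n → ℝ → F) (Y : E n → ℝ → E n →L[ℝ] F),
      (∀ x ∈ Ω, X x 0 = X0 x) ∧ (∀ x ∈ Ω, Y x 0 = fderiv ℝ X0 x) ∧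
      (∀ x ∈ Ω, ∀ s ∈ Icc (0:ℝ) 1, HasDerivWithinAt (X x) (M x s (X x s)) (Icc 0 1) s) ∧
      (∀ x ∈ Ω, ∀ s ∈ Icc (0:ℝ) 1,
        HasDerivWithinAt (Y x) ((M x s).comp (Y x s) + (M' x s).flip (X x s)) (Icc 0 1) s) ∧
      (∀ s ∈ Icc (0:ℝ) 1, ∀ x ∈ Ω, HasFDerivAt (fun y => X y s) (Y x s) x) ∧
      (∀ s ∈ Icc (0:ℝ) 1, ContDiffOn ℝ 1 (fun y => X y s) Ω) := by
  classical
  have h1 : ∀ x : E n, ∃ X : ℝ → F, x ∈ Ω → (X 0 = X0 x ∧
      ∀ s ∈ Icc (0:ℝ) 1, HasDerivWithinAt X (M x s (X s)) (Icc 0 1) s) := by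
    intro x
    by_cases hx : x ∈ Ω
    · obtain ⟨X, hX, hX'⟩ := lin_ode (M x) (section_cont Ω M hM x hx) (fun _ => (0:F))
        continuousOn_const (X0 x)
      refine ⟨X, fun _ => ⟨hX, fun s hs => ?_⟩⟩
      have := hX' s hs
      rwa [add_zero] at this
    · exact ⟨fun _ => 0, fun h => absurd h hx⟩
  choose X hX using h1
  have hXc : ContinuousOn (fun q : E n × ℝ => X q.1 q.2) (Ω ×ˢ Icc 0 1) := by
    refine continuousOn_param Ω hΩ M (fun _ _ => (0:F)) hM continuousOn_const X ?_ ?_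
    · exact hX0.continuousOn.congr (fun x hx => (hX x hx).1)
    · intro x hx s hs
      rw [add_zero]
      exact (hX x hx).2 s hs
  set MA : E n → ℝ → (E n →L[ℝ] F) →L[ℝ] (E n →L[ℝ] F) :=
    fun x s => ContinuousLinearMap.compL ℝ (E n) F F (M x s) with hMA
  set gA : E n → ℝ → (E n →L[ℝ] F) := fun x s => (M' x s).flip (X x s) with hgA
  have hMAc : ContinuousOn (fun q : E n × ℝ => MA q.1 q.2) (Ω ×ˢ Icc 0 1) :=
    (ContinuousLinearMap.compL ℝ (E n) F F).continuous.comp_continuousOn hM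
  have hgAc : ContinuousOn (fun q : E n × ℝ => gA q.1 q.2) (Ω ×ˢ Icc 0 1) := by
    have h2 : ContinuousOn (fun q : E n × ℝ => (M' q.1 q.2).flip) (Ω ×ˢ Icc 0 1) :=
      (ContinuousLinearMap.flipₗᵢ ℝ (E n) F F).continuous.comp_continuousOn hM'
    exact h2.clm_apply hXc
  have h3 : ∀ x : E n, ∃ Y : ℝ → (E n →L[ℝ] F), x ∈ Ω → (Y 0 = fderiv ℝ X0 x ∧
      ∀ s ∈ Icc (0:ℝ) 1, HasDerivWithinAt Y (MA x s (Y s) + gA x s) (Icc 0 1) s) := by
    intro x
    by_cases hx : x ∈ Ω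
    · obtain ⟨Y, hY, hY'⟩ := lin_ode (MA x) (section_cont Ω MA hMAc x hx) (gA x)
        (section_cont Ω gA hgAc x hx) (fderiv ℝ X0 x)
      exact ⟨Y, fun _ => ⟨hY, hY'⟩⟩
    · exact ⟨fun _ => 0, fun h => absurd h hx⟩
  choose Y hY using h3
  have hfc : ContinuousOn (fderiv ℝ X0) Ω :=
    ((contDiffOn_succ_iff_fderiv_of_isOpen (n := 0) hΩ).1 (by simpa using hX0)).2.2.continuousOn
  have hYc : ContinuousOn (fun q : E n × ℝ => Y q.1 q.2) (Ω ×ˢ Icc 0 1) := by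
    refine continuousOn_param Ω hΩ MA gA hMAc hgAc Y ?_ (fun x hx => (hY x hx).2)
    exact hfc.congr (fun x hx => (hY x hx).1)
  have hYs : ∀ x ∈ Ω, ∀ s ∈ Icc (0:ℝ) 1,
      HasDerivWithinAt (Y x) ((M x s).comp (Y x s) + (M' x s).flip (X x s)) (Icc 0 1) s :=
    fun x hx s hs => (hY x hx).2 s hs
  have hdX0 : ∀ x ∈ Ω, HasFDerivAt X0 (fderiv ℝ X0 x) x := fun x hx =>
    ((hX0.differentiableOn (by norm_num) x hx).differentiableAt (hΩ.mem_nhds hx)).hasFDerivAt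
  have hder := hasFDerivAt_param Ω hΩ M M' hM hM' hd X0 (fderiv ℝ X0) hdX0 X Y
    (fun x hx => (hX x hx).1) (fun x hx => (hY x hx).1) (fun x hx => (hX x hx).2) hYs
  refine ⟨X, Y, fun x hx => (hX x hx).1, fun x hx => (hY x hx).1, fun x hx => (hX x hx).2, hYs,
    fun s hs x hx => hder x hx s hs, fun s hs => ?_⟩
  have h4 : ContDiffOn ℝ (0 + 1) (fun y => X y s) Ω := by
    rw [contDiffOn_succ_iff_fderiv_of_isOpen hΩ]
    refine ⟨fun x hx => (hder x hx s hs).differentiableAt.differentiableWithinAt, by simp, ?_⟩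
    rw [contDiffOn_zero]
    have h5 : ContinuousOn (fun x => Y x s) Ω := by
      have h6 : ContinuousOn (fun x : E n => (x, s)) Ω := by fun_prop
      exact hYc.comp h6 (fun x hx => ⟨hx, hs⟩)
    exact h5.congr (fun x hx => (hder x hx s hs).fderiv)
  simpa using h4

end H60NH
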