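import Pool.Agent.H60.NH.Def2

/-!
# [H60 NH OMIX] Mixed derivatives of the target data along the segment

`U, W` smooth on the open set `Ω`, `infDist (U x) N < δ`, `‖W x - U x‖ < δ`. For `s ∈ (-1, 2)`,
`gam U W x s` has `infDist < 3 δ < 4 δ`, so `Ψ(x,s) = π (gam x s)` and `Q(x,s) = fderiv π (Ψ(x,s))` are
smooth functions of `(x,s) ∈ Ω × (-1,2)` (`π (gam x s) ∈ N`, where `π` is smooth as well). By the
chain rule
`∂_s Ψ = zz π U W x s`, `∂_h Ψ = pp π U W x h s`,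
`∂_s Q = D2 π Ψ (zz)`, `∂_h Q = D2 π Ψ (pp h)`  (`D2 π = fderiv (fderiv π)`).
Put `zh x s := fderiv of y ↦ zz π U W y s` at `x` and `Rh x s := fderiv of y ↦ D2 π (Ψ(y,s)) (zz y s)`
at `x`; they are continuous on `Ω × [0,1]` (derivatives of smooth functions of `(x,s)`), and by the
symmetry of the second derivatives of `Ψ` and `Q` (directions `(h, 0)` and `(0, 1)`),
`∂_s (pp h) = ∂_h ∂_s Ψ = zh h` and `∂_s (D2 π Ψ (pp h)) = ∂_h ∂_s Q = Rh h`.
(Suggestion: work with `Φ : E n × ℝ → E m`, `Φ (x,s) = π (gam U W x s)`, `ContDiffOn ℝ ∞ Φ (Ω ×ˢ Ioo (-1) 2)`,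
and `fderiv ℝ Φ`, `fderiv ℝ (fderiv ℝ Φ)`.)
-/

set_option autoImplicit false

namespace H60NH

open MeasureTheory Metric Set Filter Topology
open scoped ENNReal NNReal ContDiff

section General

variable {X F : Type*} [NormedAddCommGroup X] [NormedSpace ℝ X] [NormedAddCommGroup F]
  [NormedSpace ℝ F]

/-- The mixed derivative of a function on `X × ℝ`. -/
private noncomputable def mixD (Φ : X × ℝ → F) (x : X) (s : ℝ) : X →L[ℝ] F :=
  ((fderiv ℝ (fderiv ℝ Φ) (x, s)).flip ((0 : X), (1 : ℝ))).comp (ContinuousLinearMap.inl ℝ X ℝ)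

private theorem mixD_apply (Φ : X × ℝ → F) (x : X) (s : ℝ) (v : X) :
    mixD Φ x s v = fderiv ℝ (fderiv ℝ Φ) (x, s) (v, 0) (0, 1) := rfl

private theorem diff2 {Φ : X × ℝ → F} {D : Set (X × ℝ)} (hD : IsOpen D) (hΦ : ContDiffOn ℝ ∞ Φ D) :
    ContDiffOn ℝ ∞ (fderiv ℝ Φ) D :=
  hΦ.fderiv_of_isOpen hD (by simp)

private theorem has2 {Φ : X × ℝ → F} {D : Set (X × ℝ)} (hD : IsOpen D) (hΦ : ContDiffOn ℝ ∞ Φ D)
    {q : X × ℝ} (hq : q ∈ D) :
    HasFDerivAt (fderiv ℝ Φ) (fderiv ℝ (fderiv ℝ Φ) q) q :=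
  (((diff2 hD hΦ).contDiffAt (hD.mem_nhds hq)).differentiableAt (by simp)).hasFDerivAt

private theorem gen_a {Φ : X × ℝ → F} {D : Set (X × ℝ)} (hD : IsOpen D) (hΦ : ContDiffOn ℝ ∞ Φ D)
    {x : X} {s : ℝ} (hq : (x, s) ∈ D) :
    HasFDerivAt (fun y => fderiv ℝ Φ (y, s) (0, 1)) (mixD Φ x s) x := by
  have h1 : HasFDerivAt (fun y : X => (y, s)) (ContinuousLinearMap.inl ℝ X ℝ) x :=
    hasFDerivAt_prodMk_left x s
  have h2 := (has2 hD hΦ hq).comp x h1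
  have h3 := h2.clm_apply (hasFDerivAt_const ((0 : X), (1 : ℝ)) x)
  refine h3.congr_fderiv ?_
  ext v
  simp [mixD_apply]

private theorem gen_b {Φ : X × ℝ → F} {D : Set (X × ℝ)} (hD : IsOpen D) (hΦ : ContDiffOn ℝ ∞ Φ D)
    {x : X} {s : ℝ} (hq : (x, s) ∈ D) (v : X) :
    HasDerivAt (fun t => fderiv ℝ Φ (x, t) (v, 0)) (mixD Φ x s v) s := by
  have h1 : HasDerivAt (fun t : ℝ => (x, t)) ((0 : X), (1 : ℝ)) s :=
    (hasDerivAt_const s x).prodMk (hasDerivAt_id s)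
  have h2 := (has2 hD hΦ hq).comp_hasDerivAt s h1
  have h3 := h2.clm_apply (hasDerivAt_const s ((v : X), (0 : ℝ)))
  have hsym : fderiv ℝ (fderiv ℝ Φ) (x, s) (v, 0) (0, 1) =
      fderiv ℝ (fderiv ℝ Φ) (x, s) (0, 1) (v, 0) := by
    have h4 : IsSymmSndFDerivAt ℝ Φ (x, s) :=
      (hΦ.contDiffAt (hD.mem_nhds hq)).isSymmSndFDerivAt
        (by rw [minSmoothness_of_isRCLikeNormedField]; exact WithTop.coe_le_coe.2 le_top)
    exact h4.eq _ _
  have e : mixD Φ x s v = fderiv ℝ (fderiv ℝ Φ) (x, s) (0, 1) (v, 0) +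
      ((fderiv ℝ Φ ∘ Prod.mk x) s) 0 := by
    rw [map_zero, add_zero, mixD_apply, hsym]
  rw [e]
  exact h3

private theorem gen_c {Φ : X × ℝ → F} {D : Set (X × ℝ)} (hD : IsOpen D) (hΦ : ContDiffOn ℝ ∞ Φ D) :
    ContinuousOn (fun q : X × ℝ => mixD Φ q.1 q.2) D := by
  have h1 : ContinuousOn (fderiv ℝ (fderiv ℝ Φ)) D :=
    (diff2 hD (diff2 hD hΦ)).continuousOn
  have h2 : Continuous (fun T : X × ℝ →L[ℝ] X × ℝ →L[ℝ] F => T.flip ((0 : X), (1 : ℝ))) :=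
    (ContinuousLinearMap.flipₗᵢ ℝ (X × ℝ) (X × ℝ) F).continuous.clm_apply continuous_const
  exact (h2.clm_comp continuous_const).comp_continuousOn h1

private theorem gen_d {Φ : X × ℝ → F} {D : Set (X × ℝ)} (hD : IsOpen D) (hΦ : ContDiffOn ℝ ∞ Φ D) :
    ContinuousOn (fun q : X × ℝ => fderiv ℝ Φ q (0, 1)) D :=
  (diff2 hD hΦ).continuousOn.clm_apply continuousOn_const

private theorem gen_e {Φ : X × ℝ → F} {D : Set (X × ℝ)} (hD : IsOpen D) (hΦ : ContDiffOn ℝ ∞ Φ D)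
    {x : X} {s : ℝ} (hq : (x, s) ∈ D) :
    HasDerivAt (fun t => Φ (x, t)) (fderiv ℝ Φ (x, s) (0, 1)) s := by
  have h1 : HasDerivAt (fun t : ℝ => (x, t)) ((0 : X), (1 : ℝ)) s :=
    (hasDerivAt_const s x).prodMk (hasDerivAt_id s)
  have h2 : HasFDerivAt Φ (fderiv ℝ Φ (x, s)) (x, s) :=
    ((hΦ.contDiffAt (hD.mem_nhds hq)).differentiableAt (by simp)).hasFDerivAt
  exact h2.comp_hasDerivAt s h1

end General

theorem mixed {n m : ℕ} {N : Set (E m)} {π : E m → E m} {δ C : ℝ} (hT : TC N π δ C)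
    (Ω : Set (E n)) (hΩ : IsOpen Ω) (U W : E n → E m) (hU : ContDiffOn ℝ ∞ U Ω)
    (hW : ContDiffOn ℝ ∞ W Ω) (h : ∀ x ∈ Ω, infDist (U x) N < δ ∧ ‖W x - U x‖ < δ) :
    ∃ (zh : E n → ℝ → E n →L[ℝ] E m) (Rh : E n → ℝ → E n →L[ℝ] E m →L[ℝ] E m),
      ContinuousOn (fun q : E n × ℝ => zh q.1 q.2) (Ω ×ˢ Icc 0 1) ∧
      ContinuousOn (fun q : E n × ℝ => Rh q.1 q.2) (Ω ×ˢ Icc 0 1) ∧
      ContinuousOn (fun q : E n × ℝ => zz π U W q.1 q.2) (Ω ×ˢ Icc 0 1) ∧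
      ContinuousOn (fun q : E n × ℝ => D2 π (π (gam U W q.1 q.2)) (zz π U W q.1 q.2))
        (Ω ×ˢ Icc 0 1) ∧
      ∀ x ∈ Ω, ∀ s ∈ Icc (0:ℝ) 1,
        HasFDerivAt (fun y => zz π U W y s) (zh x s) x ∧
        HasFDerivAt (fun y => D2 π (π (gam U W y s)) (zz π U W y s)) (Rh x s) x ∧
        HasDerivWithinAt (fun t => fderiv ℝ π (π (gam U W x t)))
          (D2 π (π (gam U W x s)) (zz π U W x s)) (Icc 0 1) s ∧
        ∀ v : E n, HasDerivWithinAt (fun t => pp π U W x v t) (zh x s v) (Icc 0 1) s ∧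
          HasDerivWithinAt (fun t => D2 π (π (gam U W x t)) (pp π U W x v t)) (Rh x s v)
            (Icc 0 1) s := by
  obtain ⟨A, hA⟩ : ∃ A, A = {y : E m | infDist y N < 4 * δ} := ⟨_, rfl⟩
  have hAo : IsOpen A := by
    rw [hA]
    exact isOpen_lt (continuous_infDist_pt N) continuous_const
  have hδ : 0 < δ := hT.pos
  obtain ⟨D, hDd⟩ : ∃ D : Set (E n × ℝ), D = Ω ×ˢ Ioo (-1 : ℝ) 2 := ⟨_, rfl⟩
  have hD : IsOpen D := by
    rw [hDd]
    exact hΩ.prod isOpen_Ioo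
  have hDm : ∀ x s, x ∈ Ω → -1 < s → s < 2 → (x, s) ∈ D := by
    intro x s hx h1 h2
    rw [hDd]
    exact ⟨hx, h1, h2⟩
  have hsub : Ω ×ˢ Icc (0 : ℝ) 1 ⊆ D := by
    rintro ⟨x, s⟩ ⟨hx, h1, h2⟩
    exact hDm x s hx (by linarith [show (0 : ℝ) ≤ s from h1]) (by linarith [show s ≤ 1 from h2])
  have hU1 : ContDiffOn ℝ ∞ (fun q : E n × ℝ => U q.1) D :=
    hU.comp contDiffOn_fst (fun q hq => by rw [hDd] at hq; exact hq.1)
  have hW1 : ContDiffOn ℝ ∞ (fun q : E n × ℝ => W q.1) D :=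
    hW.comp contDiffOn_fst (fun q hq => by rw [hDd] at hq; exact hq.1)
  have hg : ContDiffOn ℝ ∞ (fun q : E n × ℝ => gam U W q.1 q.2) D :=
    hU1.add (contDiffOn_snd.smul (hW1.sub hU1))
  have hgA : ∀ q ∈ D, gam U W q.1 q.2 ∈ A := by
    intro q hq
    rw [hDd] at hq
    obtain ⟨hq1, hq2, hq3⟩ := hq
    obtain ⟨h1, h2⟩ := h q.1 hq1
    rw [hA]
    have h3 : dist (gam U W q.1 q.2) (U q.1) ≤ 2 * δ := by
      rw [dist_eq_norm, gam, add_sub_cancel_left, norm_smul, Real.norm_eq_abs]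
      have h4 : |q.2| ≤ 2 := abs_le.2 ⟨by linarith, hq3.le⟩
      exact mul_le_mul h4 h2.le (norm_nonneg _) (by norm_num)
    have h5 : infDist (gam U W q.1 q.2) N ≤ infDist (U q.1) N +
        dist (gam U W q.1 q.2) (U q.1) := infDist_le_infDist_add_dist
    change infDist (gam U W q.1 q.2) N < 4 * δ
    linarith
  have hπA : ContDiffOn ℝ ∞ π A := by
    rw [hA]
    exact hT.smooth
  have hΨ : ContDiffOn ℝ ∞ (fun q : E n × ℝ => π (gam U W q.1 q.2)) D := hπA.comp hg hgA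
  have hΨA : ∀ q ∈ D, π (gam U W q.1 q.2) ∈ A := by
    intro q hq
    have h1 := hgA q hq
    rw [hA] at h1 ⊢
    change infDist _ N < _
    rw [infDist_zero_of_mem (hT.mem _ h1)]
    linarith
  have hπ' : ContDiffOn ℝ ∞ (fderiv ℝ π) A := hπA.fderiv_of_isOpen hAo (by simp)
  have hQ : ContDiffOn ℝ ∞ (fun q : E n × ℝ => fderiv ℝ π (π (gam U W q.1 q.2))) D :=
    hπ'.comp hΨ hΨA
  -- first derivatives
  have hg' : ∀ x s, (x, s) ∈ D → HasFDerivAt (fun q : E n × ℝ => gam U W q.1 q.2)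
      ((fderiv ℝ U x).comp (ContinuousLinearMap.fst ℝ (E n) ℝ) +
        (s • ((fderiv ℝ W x).comp (ContinuousLinearMap.fst ℝ (E n) ℝ) -
          (fderiv ℝ U x).comp (ContinuousLinearMap.fst ℝ (E n) ℝ)) +
          (ContinuousLinearMap.snd ℝ (E n) ℝ).smulRight (W x - U x))) (x, s) := by
    intro x s hx
    have hx' : x ∈ Ω := by
      rw [hDd] at hx
      exact hx.1
    have h1 : HasFDerivAt U (fderiv ℝ U x) x :=
      ((hU.contDiffAt (hΩ.mem_nhds hx')).differentiableAt (by simp)).hasFDerivAt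
    have h2 : HasFDerivAt W (fderiv ℝ W x) x :=
      ((hW.contDiffAt (hΩ.mem_nhds hx')).differentiableAt (by simp)).hasFDerivAt
    have h3 : HasFDerivAt (fun q : E n × ℝ => U q.1)
        ((fderiv ℝ U x).comp (ContinuousLinearMap.fst ℝ (E n) ℝ)) (x, s) :=
      HasFDerivAt.comp (x, s) (by exact h1) hasFDerivAt_fst
    have h4 : HasFDerivAt (fun q : E n × ℝ => W q.1)
        ((fderiv ℝ W x).comp (ContinuousLinearMap.fst ℝ (E n) ℝ)) (x, s) :=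
      HasFDerivAt.comp (x, s) (by exact h2) hasFDerivAt_fst
    exact h3.add (hasFDerivAt_snd.smul (h4.sub h3))
  have hΨ' : ∀ x s, (x, s) ∈ D → HasFDerivAt (fun q : E n × ℝ => π (gam U W q.1 q.2))
      ((fderiv ℝ π (gam U W x s)).comp ((fderiv ℝ U x).comp (ContinuousLinearMap.fst ℝ (E n) ℝ) +
        (s • ((fderiv ℝ W x).comp (ContinuousLinearMap.fst ℝ (E n) ℝ) -
          (fderiv ℝ U x).comp (ContinuousLinearMap.fst ℝ (E n) ℝ)) +
          (ContinuousLinearMap.snd ℝ (E n) ℝ).smulRight (W x - U x)))) (x, s) := by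
    intro x s hx
    have h1 : HasFDerivAt π (fderiv ℝ π (gam U W x s)) (gam U W x s) :=
      ((hπA.contDiffAt (hAo.mem_nhds (hgA _ hx))).differentiableAt (by simp)).hasFDerivAt
    exact HasFDerivAt.comp (x, s) (by exact h1) (hg' x s hx)
  have e1 : ∀ x s, (x, s) ∈ D →
      fderiv ℝ (fun q : E n × ℝ => π (gam U W q.1 q.2)) (x, s) (0, 1) = zz π U W x s := by
    intro x s hx
    rw [(hΨ' x s hx).fderiv, zz]
    simp
  have e2 : ∀ x s, (x, s) ∈ D → ∀ v : E n,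
      fderiv ℝ (fun q : E n × ℝ => π (gam U W q.1 q.2)) (x, s) (v, 0) = pp π U W x v s := by
    intro x s hx v
    rw [(hΨ' x s hx).fderiv, pp]
    simp
  have hQ' : ∀ x s, (x, s) ∈ D →
      HasFDerivAt (fun q : E n × ℝ => fderiv ℝ π (π (gam U W q.1 q.2)))
        ((D2 π (π (gam U W x s))).comp
          (fderiv ℝ (fun q : E n × ℝ => π (gam U W q.1 q.2)) (x, s))) (x, s) := by
    intro x s hx
    have h1 : HasFDerivAt (fderiv ℝ π) (D2 π (π (gam U W x s))) (π (gam U W x s)) :=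
      ((hπ'.contDiffAt (hAo.mem_nhds (hΨA _ hx))).differentiableAt (by simp)).hasFDerivAt
    exact HasFDerivAt.comp (x, s) (by exact h1) (hΨ' x s hx).differentiableAt.hasFDerivAt
  have e3 : ∀ x s, (x, s) ∈ D →
      fderiv ℝ (fun q : E n × ℝ => fderiv ℝ π (π (gam U W q.1 q.2))) (x, s) (0, 1) =
        D2 π (π (gam U W x s)) (zz π U W x s) := by
    intro x s hx
    rw [(hQ' x s hx).fderiv, ContinuousLinearMap.comp_apply, e1 x s hx]
  have e4 : ∀ x s, (x, s) ∈ D → ∀ v : E n,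
      fderiv ℝ (fun q : E n × ℝ => fderiv ℝ π (π (gam U W q.1 q.2))) (x, s) (v, 0) =
        D2 π (π (gam U W x s)) (pp π U W x v s) := by
    intro x s hx v
    rw [(hQ' x s hx).fderiv, ContinuousLinearMap.comp_apply, e2 x s hx v]
  refine ⟨mixD (fun q : E n × ℝ => π (gam U W q.1 q.2)),
    mixD (fun q : E n × ℝ => fderiv ℝ π (π (gam U W q.1 q.2))),
    (gen_c hD hΨ).mono hsub, (gen_c hD hQ).mono hsub,
    ((gen_d hD hΨ).mono hsub).congr (fun q hq => (e1 q.1 q.2 (hsub hq)).symm),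
    ((gen_d hD hQ).mono hsub).congr (fun q hq => (e3 q.1 q.2 (hsub hq)).symm), ?_⟩
  intro x hx s hs
  have hxs : (x, s) ∈ D := hsub ⟨hx, hs⟩
  have hs1 : -1 < s := by linarith [hs.1]
  have hs2 : s < 2 := by linarith [hs.2]
  have hΩn : ∀ᶠ y in 𝓝 x, y ∈ Ω := hΩ.mem_nhds hx
  have hIn : ∀ᶠ t in 𝓝 s, t ∈ Ioo (-1 : ℝ) 2 := isOpen_Ioo.mem_nhds ⟨hs1, hs2⟩
  refine ⟨?_, ?_, ?_, fun v => ⟨?_, ?_⟩⟩
  · exact (gen_a hD hΨ hxs).congr_of_eventuallyEq
      (hΩn.mono fun y hy => (e1 y s (hDm y s hy hs1 hs2)).symm)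
  · exact (gen_a hD hQ hxs).congr_of_eventuallyEq
      (hΩn.mono fun y hy => (e3 y s (hDm y s hy hs1 hs2)).symm)
  · have h1 := gen_e hD hQ hxs
    rw [e3 x s hxs] at h1
    exact h1.hasDerivWithinAt
  · exact ((gen_b hD hΨ hxs v).congr_of_eventuallyEq
      (hIn.mono fun t ht => (e2 x t (hDm x t hx ht.1 ht.2) v).symm)).hasDerivWithinAt
  · exact ((gen_b hD hQ hxs v).congr_of_eventuallyEq
      (hIn.mono fun t ht => (e4 x t (hDm x t hx ht.1 ht.2) v).symm)).hasDerivWithinAt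

end H60NH
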