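import Pool.Agent.H60.NH.OAll
import Pool.Agent.H60.NH.OMix

/-!
# [H60 NH OCURVE] The curves of one transport step

Let `P(x,s) = π (gam x s) ∈ N`, `z = zz π U W x s`. On `F = E m × ℝ` put
`M x s = MM π (P x s) (z x s)`, i.e. `(B, μ) ↦ (μ z + D2 π P z B, <z, B>)`. With `zh, Rh` from `mixed`,
`M` is differentiable in `x` with derivative
`M' x s h = ((B, μ) ↦ (μ (zh h) + (Rh h) B, <zh h, B>))` (`MM` depends linearly and continuously on the
pair `(D2 π P z, z)`: write it as a continuous linear map of the pair), both continuous on `Ω × [0,1]`.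
`lin_ode_param` with `X0 = (B₀, μ₀)` gives `X = (B, μ)` and `Y`; `DB x s = fst ∘ Y x s`, `Dμ x s = snd ∘ Y x s`.
Unpack: `Y' = M ∘ Y + (M'.flip X)` in the direction `v` gives the equations for `DB v`, `Dμ v`.
`fderiv (B₀, μ₀) = (fderiv B₀, fderiv μ₀)` on the open set `Ω` (`C^1`).
-/

set_option autoImplicit false

namespace H60NH

open MeasureTheory Metric Set Filter Topology
open scoped ENNReal NNReal ContDiff

/-- `MM` as a continuous linear map of the pair `(D2 π P z, z)`. -/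
private noncomputable def LLf {m : ℕ} :
    ((E m →L[ℝ] E m) × E m) →ₗ[ℝ] (E m × ℝ) →L[ℝ] (E m × ℝ) where
  toFun p := ((p.1.comp (ContinuousLinearMap.fst ℝ (E m) ℝ)) +
    (ContinuousLinearMap.snd ℝ (E m) ℝ).smulRight p.2).prod
    ((innerSL ℝ p.2).comp (ContinuousLinearMap.fst ℝ (E m) ℝ))
  map_add' p q := by
    refine ContinuousLinearMap.ext fun v => Prod.ext ?_ ?_
    · simp
      abel
    · simp
  map_smul' c p := by
    refine ContinuousLinearMap.ext fun v => Prod.ext ?_ ?_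
    · simp [smul_comm c]
    · simp

private noncomputable def LL {m : ℕ} :
    ((E m →L[ℝ] E m) × E m) →L[ℝ] (E m × ℝ) →L[ℝ] (E m × ℝ) :=
  LinearMap.toContinuousLinearMap LLf

private theorem LL_apply {m : ℕ} (T : E m →L[ℝ] E m) (z : E m) (B : E m) (c : ℝ) :
    LL (T, z) (B, c) = (T B + c • z, inner ℝ z B) := rfl

theorem step_curves {n m : ℕ} {N : Set (E m)} {π : E m → E m} {δ C : ℝ} (hT : TC N π δ C)
    (Ω : Set (E n)) (hΩ : IsOpen Ω) (U W : E n → E m) (hU : ContDiffOn ℝ ∞ U Ω)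
    (hW : ContDiffOn ℝ ∞ W Ω) (h : ∀ x ∈ Ω, infDist (U x) N < δ ∧ ‖W x - U x‖ < δ)
    (B₀ : E n → E m) (μ₀ : E n → ℝ) (hG : Gauge π Ω U B₀ μ₀) :
    ∃ (B : E n → ℝ → E m) (μ : E n → ℝ → ℝ) (DB : E n → ℝ → E n →L[ℝ] E m)
      (Dμ : E n → ℝ → E n →L[ℝ] ℝ) (zh : E n → ℝ → E n →L[ℝ] E m)
      (Rh : E n → ℝ → E n →L[ℝ] E m →L[ℝ] E m),
      ContDiffOn ℝ 1 (fun x => B x 1) Ω ∧ ContDiffOn ℝ 1 (fun x => μ x 1) Ω ∧
      ∀ x ∈ Ω, B x 0 = B₀ x ∧ μ x 0 = μ₀ x ∧ DB x 0 = fderiv ℝ B₀ x ∧ Dμ x 0 = fderiv ℝ μ₀ x ∧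
        HasFDerivAt (fun y => B y 1) (DB x 1) x ∧ HasFDerivAt (fun y => μ y 1) (Dμ x 1) x ∧
        ContinuousOn (fun s => D2 π (π (gam U W x s)) (zz π U W x s)) (Icc 0 1) ∧
        ∀ s ∈ Icc (0:ℝ) 1,
          HasDerivWithinAt (B x) (μ x s • zz π U W x s +
            D2 π (π (gam U W x s)) (zz π U W x s) (B x s)) (Icc 0 1) s ∧
          HasDerivWithinAt (μ x) (inner ℝ (zz π U W x s) (B x s)) (Icc 0 1) s ∧
          HasDerivWithinAt (fun t => fderiv ℝ π (π (gam U W x t)))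
            (D2 π (π (gam U W x s)) (zz π U W x s)) (Icc 0 1) s ∧
          ∀ v : E n,
            HasDerivWithinAt (fun t => DB x t v) (Dμ x s v • zz π U W x s + μ x s • zh x s v +
              D2 π (π (gam U W x s)) (zz π U W x s) (DB x s v) + Rh x s v (B x s)) (Icc 0 1) s ∧
            HasDerivWithinAt (fun t => Dμ x t v) (inner ℝ (zh x s v) (B x s) +
              inner ℝ (zz π U W x s) (DB x s v)) (Icc 0 1) s ∧
            HasDerivWithinAt (fun t => pp π U W x v t) (zh x s v) (Icc 0 1) s ∧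
            HasDerivWithinAt (fun t => D2 π (π (gam U W x t)) (pp π U W x v t)) (Rh x s v)
              (Icc 0 1) s := by
  obtain ⟨zh, Rh, hcz', hcR', hcz, hcR, hmix⟩ := mixed hT Ω hΩ U W hU hW h
  obtain ⟨X, Y, hX0, hY0, hXd, hYd, hXf, hXc⟩ := lin_ode_param (F := E m × ℝ) Ω hΩ
    (fun x s => LL (D2 π (π (gam U W x s)) (zz π U W x s), zz π U W x s))
    (fun x s => LL.comp ((Rh x s).prod (zh x s)))
    (LL.continuous.comp_continuousOn (hcR.prodMk hcz))
    (by
      have h1 : ContinuousOn (fun q : E n × ℝ => (Rh q.1 q.2).prod (zh q.1 q.2)) (Ω ×ˢ Icc 0 1) :=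
        (ContinuousLinearMap.prodₗᵢ (𝕜 := ℝ) (E := E n) (F := E m →L[ℝ] E m) (G := E m)
          ℝ).continuous.comp_continuousOn (hcR'.prodMk hcz')
      exact continuousOn_const.clm_comp h1)
    (by
      intro x hx s hs
      obtain ⟨h1, h2, _⟩ := hmix x hx s hs
      exact LL.hasFDerivAt.comp x (h2.prodMk h1))
    (fun x => (B₀ x, μ₀ x)) (hG.cB.prodMk hG.cμ)
  have h1m : (1 : ℝ) ∈ Icc (0 : ℝ) 1 := ⟨zero_le_one, le_rfl⟩
  refine ⟨fun x s => (X x s).1, fun x s => (X x s).2,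
    fun x s => (ContinuousLinearMap.fst ℝ (E m) ℝ).comp (Y x s),
    fun x s => (ContinuousLinearMap.snd ℝ (E m) ℝ).comp (Y x s), zh, Rh,
    (hXc 1 h1m).fst, (hXc 1 h1m).snd, ?_⟩
  intro x hx
  have hd0 : fderiv ℝ (fun x => (B₀ x, μ₀ x)) x = (fderiv ℝ B₀ x).prod (fderiv ℝ μ₀ x) := by
    have h1 : HasFDerivAt B₀ (fderiv ℝ B₀ x) x :=
      ((hG.cB.contDiffAt (hΩ.mem_nhds hx)).differentiableAt (by simp)).hasFDerivAt
    have h2 : HasFDerivAt μ₀ (fderiv ℝ μ₀ x) x :=
      ((hG.cμ.contDiffAt (hΩ.mem_nhds hx)).differentiableAt (by simp)).hasFDerivAt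
    exact (h1.prodMk h2).fderiv
  refine ⟨congrArg Prod.fst (hX0 x hx), congrArg Prod.snd (hX0 x hx), ?_, ?_, (hXf 1 h1m x hx).fst,
    (hXf 1 h1m x hx).snd, ?_, ?_⟩
  · beta_reduce
    rw [hY0 x hx, hd0]
    exact ContinuousLinearMap.fst_comp_prod _ _
  · beta_reduce
    rw [hY0 x hx, hd0]
    exact ContinuousLinearMap.snd_comp_prod _ _
  · exact hcR.comp (f := fun s : ℝ => (x, s)) (by fun_prop) (fun s hs => ⟨hx, hs⟩)
  · intro s hs
    obtain ⟨_, _, h3, h4⟩ := hmix x hx s hs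
    have hX := hXd x hx s hs
    have hY := hYd x hx s hs
    refine ⟨?_, ?_, h3, fun v => ⟨?_, ?_, (h4 v).1, (h4 v).2⟩⟩
    · have h5 := (ContinuousLinearMap.fst ℝ (E m) ℝ).hasFDerivAt.comp_hasDerivWithinAt s hX
      refine h5.congr_deriv ?_
      have h6 := LL_apply (D2 π (π (gam U W x s)) (zz π U W x s)) (zz π U W x s) (X x s).1 (X x s).2
      rw [Prod.mk.eta] at h6
      rw [h6, ContinuousLinearMap.coe_fst']
      exact add_comm _ _
    · have h5 := (ContinuousLinearMap.snd ℝ (E m) ℝ).hasFDerivAt.comp_hasDerivWithinAt s hX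
      refine h5.congr_deriv ?_
      have h6 := LL_apply (D2 π (π (gam U W x s)) (zz π U W x s)) (zz π U W x s) (X x s).1 (X x s).2
      rw [Prod.mk.eta] at h6
      rw [h6, ContinuousLinearMap.coe_snd']
    · have h5 := hY.clm_apply (hasDerivWithinAt_const s (Icc (0:ℝ) 1) v)
      have h7 := (ContinuousLinearMap.fst ℝ (E m) ℝ).hasFDerivAt.comp_hasDerivWithinAt s h5
      refine h7.congr_deriv ?_
      have h6 := LL_apply (D2 π (π (gam U W x s)) (zz π U W x s)) (zz π U W x s)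
        (Y x s v).1 (Y x s v).2
      have h8 := LL_apply (Rh x s v) (zh x s v) (X x s).1 (X x s).2
      rw [Prod.mk.eta] at h6 h8
      have h9 : (((LL (D2 π (π (gam U W x s)) (zz π U W x s), zz π U W x s)).comp (Y x s) +
          (LL.comp ((Rh x s).prod (zh x s))).flip (X x s)) v + (Y x s) 0) =
          LL (D2 π (π (gam U W x s)) (zz π U W x s), zz π U W x s) (Y x s v) +
            LL (Rh x s v, zh x s v) (X x s) := by
        rw [map_zero, add_zero]
        rfl
      rw [h9, h6, h8, ContinuousLinearMap.coe_fst']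
      simp only [ContinuousLinearMap.comp_apply, ContinuousLinearMap.coe_fst',
        ContinuousLinearMap.coe_snd', Prod.fst_add]
      abel
    · have h5 := hY.clm_apply (hasDerivWithinAt_const s (Icc (0:ℝ) 1) v)
      have h7 := (ContinuousLinearMap.snd ℝ (E m) ℝ).hasFDerivAt.comp_hasDerivWithinAt s h5
      refine h7.congr_deriv ?_
      have h6 := LL_apply (D2 π (π (gam U W x s)) (zz π U W x s)) (zz π U W x s)
        (Y x s v).1 (Y x s v).2
      have h8 := LL_apply (Rh x s v) (zh x s v) (X x s).1 (X x s).2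
      rw [Prod.mk.eta] at h6 h8
      have h9 : (((LL (D2 π (π (gam U W x s)) (zz π U W x s), zz π U W x s)).comp (Y x s) +
          (LL.comp ((Rh x s).prod (zh x s))).flip (X x s)) v + (Y x s) 0) =
          LL (D2 π (π (gam U W x s)) (zz π U W x s), zz π U W x s) (Y x s v) +
            LL (Rh x s v, zh x s v) (X x s) := by
        rw [map_zero, add_zero]
        rfl
      rw [h9, h6, h8, ContinuousLinearMap.coe_snd']
      simp only [ContinuousLinearMap.comp_apply, ContinuousLinearMap.coe_fst',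
        ContinuousLinearMap.coe_snd', Prod.snd_add]
      exact add_comm _ _

end H60NH
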