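import Pool.Agent.H60.NH.Def2

/-!
# [H60 NH OGRON] Gronwall on `[0,1]`

If `R' = r(s)` on `Icc 0 1` with `‖r(s)‖ <= L ‖R(s)‖ + κ` then `‖R(s)‖ <= (‖R 0‖ + κ) e^{L+1}`... we
use the form `‖R s‖ <= exp(L s) (‖R 0‖ + κ s)`.
Proof: `norm_le_gronwallBound_of_norm_deriv_right_le` (Mathlib, `Analysis/ODE/Gronwall`):
`gronwallBound δ K ε x = δ exp(Kx) + (ε/K)(exp(Kx) - 1)` for `K ≠ 0`, `δ + ε x` for `K = 0`, and
`(exp(Kx) - 1)/K <= x exp(Kx)` (`K > 0`).
-/

set_option autoImplicit false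

namespace H60NH

open MeasureTheory Metric Set Filter Topology
open scoped ENNReal NNReal ContDiff

theorem gronwall01 {F : Type*} [NormedAddCommGroup F] [NormedSpace ℝ F]
    (R r : ℝ → F) (L κ : ℝ) (hL : 0 ≤ L) (hκ : 0 ≤ κ)
    (hR : ∀ s ∈ Icc (0:ℝ) 1, HasDerivWithinAt R (r s) (Icc 0 1) s)
    (hr : ∀ s ∈ Icc (0:ℝ) 1, ‖r s‖ ≤ L * ‖R s‖ + κ) :
    ∀ s ∈ Icc (0:ℝ) 1, ‖R s‖ ≤ Real.exp (L * s) * (‖R 0‖ + κ * s) := by
  have h := norm_le_gronwallBound_of_norm_deriv_right_le (f := R) (f' := r) (δ := ‖R 0‖)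
    (K := L) (ε := κ) (a := 0) (b := 1) (fun s hs => (hR s hs).continuousWithinAt)
    (fun s hs => by
      refine (hR s (Ico_subset_Icc_self hs)).mono_of_mem_nhdsWithin ?_
      have : Icc s 1 ⊆ Icc (0:ℝ) 1 := Icc_subset_Icc_left hs.1
      exact mem_of_superset (Icc_mem_nhdsGE hs.2) this)
    le_rfl (fun s hs => hr s (Ico_subset_Icc_self hs))
  intro s hs
  refine (h s hs).trans ?_
  rw [sub_zero]
  by_cases hL0 : L = 0
  · subst hL0
    rw [gronwallBound_K0]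
    simp
  · have hL1 : 0 < L := lt_of_le_of_ne hL (Ne.symm hL0)
    rw [gronwallBound_of_K_ne_0 hL0]
    have h1 : Real.exp (L * s) - 1 ≤ L * s * Real.exp (L * s) := by
      have h2 := Real.add_one_le_exp (-(L * s))
      have h3 : Real.exp (L * s) * Real.exp (-(L * s)) = 1 := by
        rw [← Real.exp_add]; simp
      have h4 := Real.exp_pos (L * s)
      nlinarith
    have h5 : κ / L * (Real.exp (L * s) - 1) ≤ Real.exp (L * s) * (κ * s) := by
      calc κ / L * (Real.exp (L * s) - 1) ≤ κ / L * (L * s * Real.exp (L * s)) := by gcongr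
        _ = Real.exp (L * s) * (κ * s) := by field_simp
    calc ‖R 0‖ * Real.exp (L * s) + κ / L * (Real.exp (L * s) - 1)
        ≤ ‖R 0‖ * Real.exp (L * s) + Real.exp (L * s) * (κ * s) := by gcongr
      _ = Real.exp (L * s) * (‖R 0‖ + κ * s) := by ring

end H60NH
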