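import Pool.Agent.H60.NH.OGron

/-!
# [H60 NH OINV] Invariants of one step

`Q(s)` are symmetric idempotents with `Q' = SZ`, `Q z = z`, `B' = μ z + SZ B`, `μ' = <z,B>`.
1. Differentiate `Q Q = Q`: `SZ Q + Q SZ = SZ`.
2. `c = B - Q B`: `c' = μ z + SZ B - SZ B - Q(μ z + SZ B) = - Q SZ B = -(SZ - SZ Q) B = - SZ c`.
`SZ` is bounded on `[0,1]` (continuous), `c(0) = 0`, so `c = 0` by `gronwall01` (with `κ = 0`).
3. `<B, SZ B> = <Q B, SZ Q B> = <B, Q SZ Q B> = 0`, as `Q SZ Q = Q (SZ Q) = Q(SZ - Q SZ) = 0`.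
4. `(μ^2 - |B|^2)' = 2 μ <z,B> - 2 <B, μ z + SZ B> = 0`, so `μ^2 = 1 + |B|^2` for all `s`
(`is_const` via derivative zero on `Icc 0 1`).
5. `μ^2 >= 1`, `μ` continuous, `μ 0 > 0`, so `μ > 0` (intermediate values).
-/

set_option autoImplicit false

namespace H60NH

open MeasureTheory Metric Set Filter Topology
open scoped ENNReal NNReal ContDiff

theorem step_invariants {m : ℕ} (z B : ℝ → E m) (μ : ℝ → ℝ) (Q SZ : ℝ → E m →L[ℝ] E m)
    (hB : ∀ s ∈ Icc (0:ℝ) 1, HasDerivWithinAt B (μ s • z s + SZ s (B s)) (Icc 0 1) s)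
    (hμ : ∀ s ∈ Icc (0:ℝ) 1, HasDerivWithinAt μ (inner ℝ (z s) (B s)) (Icc 0 1) s)
    (hQ : ∀ s ∈ Icc (0:ℝ) 1, HasDerivWithinAt Q (SZ s) (Icc 0 1) s)
    (hSZ : ContinuousOn SZ (Icc 0 1))
    (hQQ : ∀ s ∈ Icc (0:ℝ) 1, ∀ a, Q s (Q s a) = Q s a)
    (hQz : ∀ s ∈ Icc (0:ℝ) 1, Q s (z s) = z s)
    (hQs : ∀ s ∈ Icc (0:ℝ) 1, ∀ a b, inner ℝ (Q s a) b = inner ℝ a (Q s b))
    (h0 : Q 0 (B 0) = B 0) (hn : μ 0 ^ 2 = 1 + ‖B 0‖ ^ 2) (hp : 0 < μ 0) :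
    ∀ s ∈ Icc (0:ℝ) 1, Q s (B s) = B s ∧ μ s ^ 2 = 1 + ‖B s‖ ^ 2 ∧ 0 < μ s := by
  have hQa : ∀ s ∈ Icc (0:ℝ) 1, ∀ a, HasDerivWithinAt (fun t => Q t a) (SZ s a) (Icc 0 1) s := by
    intro s hs a
    have h1 := (hQ s hs).clm_apply (hasDerivWithinAt_const s (Icc (0:ℝ) 1) a)
    rw [map_zero, add_zero] at h1
    exact h1
  have hL1 : ∀ s ∈ Icc (0:ℝ) 1, ∀ a, SZ s (Q s a) + Q s (SZ s a) = SZ s a := by
    intro s hs a
    have h1 := (hQ s hs).clm_apply (hQa s hs a)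
    have h2 : HasDerivWithinAt (fun t => Q t (Q t a)) (SZ s a) (Icc 0 1) s :=
      (hQa s hs a).congr (fun t ht => hQQ t ht a) (hQQ s hs a)
    exact UniqueDiffWithinAt.eq_deriv (Icc (0:ℝ) 1) (uniqueDiffOn_Icc zero_lt_one s hs) h1 h2
  have hc : ∀ s ∈ Icc (0:ℝ) 1, HasDerivWithinAt (fun t => B t - Q t (B t))
      (-(SZ s (B s - Q s (B s)))) (Icc 0 1) s := by
    intro s hs
    refine ((hB s hs).sub ((hQ s hs).clm_apply (hB s hs))).congr_deriv ?_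
    have h1 := hL1 s hs (B s)
    have h2 : Q s (SZ s (B s)) = SZ s (B s) - SZ s (Q s (B s)) := eq_sub_of_add_eq' h1
    rw [map_add, map_smul, hQz s hs, map_sub, h2]
    abel
  obtain ⟨L, hL⟩ := isCompact_Icc.exists_bound_of_continuousOn hSZ
  have hc0 : ∀ s ∈ Icc (0:ℝ) 1, Q s (B s) = B s := by
    intro s hs
    have h1 := gronwall01 (fun t => B t - Q t (B t)) (fun s => -(SZ s (B s - Q s (B s))))
      (max L 0) 0 (le_max_right _ _) le_rfl hc (by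
        intro t ht
        rw [norm_neg, add_zero]
        refine ((SZ t).le_opNorm _).trans ?_
        exact mul_le_mul_of_nonneg_right ((hL t ht).trans (le_max_left _ _)) (norm_nonneg _))
      s hs
    have h2 : ‖B s - Q s (B s)‖ ≤ 0 := by
      refine h1.trans (le_of_eq ?_)
      rw [h0, sub_self, norm_zero, zero_mul, add_zero, mul_zero]
    exact (sub_eq_zero.1 (norm_le_zero_iff.1 h2)).symm
  have hBS : ∀ s ∈ Icc (0:ℝ) 1, inner ℝ (B s) (SZ s (B s)) = 0 := by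
    intro s hs
    have h1 := hL1 s hs (B s)
    rw [hc0 s hs] at h1
    have h2 : Q s (SZ s (B s)) = 0 := by
      have h3 : SZ s (B s) + Q s (SZ s (B s)) = SZ s (B s) + 0 := by rw [h1, add_zero]
      exact add_left_cancel h3
    calc inner ℝ (B s) (SZ s (B s)) = inner ℝ (Q s (B s)) (SZ s (B s)) := by rw [hc0 s hs]
      _ = inner ℝ (B s) (Q s (SZ s (B s))) := hQs s hs _ _
      _ = 0 := by rw [h2, inner_zero_right]
  have hf : ∀ s ∈ Icc (0:ℝ) 1, HasDerivWithinAt (fun t => μ t * μ t - ‖B t‖ ^ 2) ((0 : ℝ))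
      (Icc 0 1) s := by
    intro s hs
    refine (((hμ s hs).mul (hμ s hs)).sub (hB s hs).norm_sq).congr_deriv ?_
    rw [inner_add_right, real_inner_smul_right, hBS s hs, real_inner_comm (z s) (B s)]
    ring
  have hsq : ∀ s ∈ Icc (0:ℝ) 1, μ s ^ 2 = 1 + ‖B s‖ ^ 2 := by
    intro s hs
    have h1 := Convex.norm_image_sub_le_of_norm_hasDerivWithin_le (C := 0) hf
      (fun x _ => by rw [norm_zero]) (convex_Icc 0 1) (left_mem_Icc.2 zero_le_one) hs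
    rw [zero_mul] at h1
    have h2 := sub_eq_zero.1 (norm_le_zero_iff.1 h1)
    have h3 : μ s * μ s - ‖B s‖ ^ 2 = μ 0 * μ 0 - ‖B 0‖ ^ 2 := h2
    rw [pow_two]
    rw [pow_two] at hn
    linarith
  intro s hs
  refine ⟨hc0 s hs, hsq s hs, ?_⟩
  by_contra hneg
  rw [not_lt] at hneg
  have hcont : ContinuousOn μ (Icc 0 s) := by
    have h1 : ContinuousOn μ (Icc (0:ℝ) 1) := fun t ht => (hμ t ht).continuousWithinAt
    exact h1.mono (Icc_subset_Icc_right hs.2)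
  obtain ⟨t, ht, ht0⟩ := intermediate_value_Icc' hs.1 hcont ⟨hneg, hp.le⟩
  have h1 := hsq t ⟨ht.1, ht.2.trans hs.2⟩
  rw [ht0] at h1
  have h2 := sq_nonneg ‖B t‖
  linarith

end H60NH
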