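import Pool.Agent.H60.NH.OGron

/-!
# [H60 NH OLIN] Linear ODE on `[0,1]`: existence

`X' = A(s) X + g(s)` on `Icc 0 1` with `A`, `g` continuous on `Icc 0 1` has a solution with given
`X 0`. (Picard-Lindelöf. One way: let `L >= 1` bound `‖A‖` and `‖g‖`; on an interval of length
`h = 1/(4L)` starting at `t₀` with value `x₁` apply `IsPicardLindelof` with the ball of radius
`a = ‖x₁‖ + 1`: `‖A x + g‖ <= L (2‖x₁‖ + 2) <= 2 L a`, and `2 L a h <= a`; then glue finitely many
pieces. Other way: contraction `X ↦ x0 + ∫_0^s (A X + g)` on `C([0,1], F)`, some iterate of it is a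
contraction.)
-/

set_option autoImplicit false

namespace H60NH

open MeasureTheory Metric Set Filter Topology
open scoped ENNReal NNReal ContDiff

/-- radial truncation -/
private noncomputable def rho {F : Type*} [NormedAddCommGroup F] [NormedSpace ℝ F]
    (R : ℝ) (x : F) : F := (R / max R ‖x‖) • x

private lemma rho_norm {F : Type*} [NormedAddCommGroup F] [NormedSpace ℝ F]
    (R : ℝ) (hR : 0 < R) (x : F) : ‖rho R x‖ ≤ R ∧ ‖rho R x‖ ≤ ‖x‖ := by
  have hm : 0 < max R ‖x‖ := lt_of_lt_of_le hR (le_max_left _ _)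
  have h1 : ‖rho R x‖ = R / max R ‖x‖ * ‖x‖ := by
    rw [rho, norm_smul, Real.norm_of_nonneg (by positivity)]
  rw [h1]
  constructor
  · rw [div_mul_eq_mul_div, div_le_iff₀ hm]
    gcongr
    exact le_max_right _ _
  · have : R / max R ‖x‖ ≤ 1 := by
      rw [div_le_one hm]
      exact le_max_left _ _
    calc R / max R ‖x‖ * ‖x‖ ≤ 1 * ‖x‖ := by gcongr
      _ = ‖x‖ := one_mul _

private lemma rho_lip {F : Type*} [NormedAddCommGroup F] [NormedSpace ℝ F]
    (R : ℝ) (hR : 0 < R) (x y : F) : ‖rho R x - rho R y‖ ≤ 2 * ‖x - y‖ := by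
  have hx : 0 < max R ‖x‖ := lt_of_lt_of_le hR (le_max_left _ _)
  have hy : 0 < max R ‖y‖ := lt_of_lt_of_le hR (le_max_left _ _)
  have h0 : rho R x - rho R y = (R / max R ‖x‖) • (x - y) +
      (R / max R ‖x‖ - R / max R ‖y‖) • y := by
    rw [rho, rho, smul_sub, sub_smul]
    abel
  have h1 : R / max R ‖x‖ ≤ 1 := by
    rw [div_le_one hx]
    exact le_max_left _ _
  have h2 : |max R ‖y‖ - max R ‖x‖| ≤ ‖x - y‖ := by
    have h : |max R ‖y‖ - max R ‖x‖| ≤ |‖y‖ - ‖x‖| := by
      rw [max_comm R, max_comm R]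
      exact abs_max_sub_max_le_abs ‖y‖ ‖x‖ R
    refine h.trans ?_
    rw [norm_sub_rev]
    exact abs_norm_sub_norm_le y x
  have h3 : |R / max R ‖x‖ - R / max R ‖y‖| * ‖y‖ ≤ ‖x - y‖ := by
    have h4 : R / max R ‖x‖ - R / max R ‖y‖ =
        (R / max R ‖x‖) * ((max R ‖y‖ - max R ‖x‖) / max R ‖y‖) := by
      field_simp
    rw [h4, abs_mul, abs_of_pos (div_pos hR hx), abs_div, abs_of_pos hy]
    have h5 : ‖y‖ / max R ‖y‖ ≤ 1 := by
      rw [div_le_one hy]
      exact le_max_right _ _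
    calc R / max R ‖x‖ * (|max R ‖y‖ - max R ‖x‖| / max R ‖y‖) * ‖y‖
        = R / max R ‖x‖ * |max R ‖y‖ - max R ‖x‖| * (‖y‖ / max R ‖y‖) := by ring
      _ ≤ 1 * ‖x - y‖ * 1 := by gcongr
      _ = ‖x - y‖ := by ring
  rw [h0]
  refine (norm_add_le _ _).trans ?_
  rw [norm_smul, norm_smul, Real.norm_eq_abs, Real.norm_eq_abs, abs_of_pos (div_pos hR hx)]
  have h6 : R / max R ‖x‖ * ‖x - y‖ ≤ 1 * ‖x - y‖ := by gcongr
  linarith

theorem lin_ode {F : Type*} [NormedAddCommGroup F] [NormedSpace ℝ F] [CompleteSpace F]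
    (A : ℝ → F →L[ℝ] F) (hA : ContinuousOn A (Icc 0 1)) (g : ℝ → F)
    (hg : ContinuousOn g (Icc 0 1)) (x0 : F) :
    ∃ X : ℝ → F, X 0 = x0 ∧
      ∀ s ∈ Icc (0:ℝ) 1, HasDerivWithinAt X (A s (X s) + g s) (Icc 0 1) s := by
  obtain ⟨L, hL⟩ := isCompact_Icc.exists_bound_of_continuousOn hA
  obtain ⟨G, hG⟩ := isCompact_Icc.exists_bound_of_continuousOn hg
  have hL0 : 0 ≤ L := (norm_nonneg _).trans (hL 0 (by simp))
  have hG0 : 0 ≤ G := (norm_nonneg _).trans (hG 0 (by simp))
  set R : ℝ := Real.exp L * (‖x0‖ + G) + 1 with hR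
  have hR0 : 0 < R := by positivity
  have hmem : (0:ℝ) ∈ Icc (0:ℝ) 1 := by simp
  have hPL : IsPicardLindelof (fun s x => A s (rho R x) + g s) (tmin := 0) (tmax := 1)
      ⟨0, hmem⟩ x0 (Real.toNNReal (L * R + G)) 0 (Real.toNNReal (L * R + G))
      (Real.toNNReal (L * 2)) := by
    constructor
    · intro t ht
      apply LipschitzWith.lipschitzOnWith
      apply LipschitzWith.of_dist_le_mul
      intro x y
      rw [dist_eq_norm, dist_eq_norm, Real.coe_toNNReal _ (by positivity)]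
      have h1 : A t (rho R x) + g t - (A t (rho R y) + g t) = A t (rho R x - rho R y) := by
        rw [map_sub]; abel
      rw [h1]
      calc ‖A t (rho R x - rho R y)‖ ≤ ‖A t‖ * ‖rho R x - rho R y‖ := (A t).le_opNorm _
        _ ≤ L * (2 * ‖x - y‖) := by
          gcongr
          · exact hL t ht
          · exact rho_lip R hR0 x y
        _ = L * 2 * ‖x - y‖ := by ring
    · intro x _
      exact (hA.clm_apply continuousOn_const).add hg
    · intro t ht x _
      rw [Real.coe_toNNReal _ (by positivity)]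
      calc ‖A t (rho R x) + g t‖ ≤ ‖A t (rho R x)‖ + ‖g t‖ := norm_add_le _ _
        _ ≤ ‖A t‖ * ‖rho R x‖ + ‖g t‖ := by
          gcongr
          exact (A t).le_opNorm _
        _ ≤ L * R + G := by
          gcongr
          · exact hL t ht
          · exact (rho_norm R hR0 x).1
          · exact hG t ht
    · simp
  obtain ⟨X, hX0, hX⟩ := hPL.exists_eq_forall_mem_Icc_hasDerivWithinAt₀
  have hX0' : X 0 = x0 := hX0
  have hb := gronwall01 X (fun s => A s (rho R (X s)) + g s) L G hL0 hG0 hX (by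
    intro s hs
    calc ‖A s (rho R (X s)) + g s‖ ≤ ‖A s (rho R (X s))‖ + ‖g s‖ := norm_add_le _ _
      _ ≤ ‖A s‖ * ‖rho R (X s)‖ + ‖g s‖ := by
        gcongr
        exact (A s).le_opNorm _
      _ ≤ L * ‖X s‖ + G := by
        gcongr
        · exact hL s hs
        · exact (rho_norm R hR0 (X s)).2
        · exact hG s hs)
  refine ⟨X, hX0', fun s hs => ?_⟩
  have h1 : ‖X s‖ ≤ R := by
    refine (hb s hs).trans ?_
    rw [hX0']
    have h3 : L * s ≤ L := mul_le_of_le_one_right hL0 hs.2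
    have h4 : G * s ≤ G := mul_le_of_le_one_right hG0 hs.2
    have h5 : 0 ≤ G * s := mul_nonneg hG0 hs.1
    have h2 : Real.exp (L * s) * (‖x0‖ + G * s) ≤ Real.exp L * (‖x0‖ + G) := by
      gcongr
    linarith
  have h2 : rho R (X s) = X s := by
    rw [rho, max_eq_left h1, div_self hR0.ne', one_smul]
  have := hX s hs
  simp only [h2] at this
  exact this

end H60NH
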