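import Pool.Agent.H60.NH.OStep

/-!
# [H60 NH OSEQ] The gauge along a sequence of maps

Iterate `one_step` (dependent choice: recursion on pairs `(B, μ)` with `Gauge`), starting from
`B = 0`, `μ = 1`, which is a gauge over every map (`fderiv π _ 0 = 0`, `1 = 1 + 0`).
-/

set_option autoImplicit false

namespace H60NH

open MeasureTheory Metric Set Filter Topology
open scoped ENNReal NNReal ContDiff

theorem gauge_seq {m : ℕ} {N : Set (E m)} {π : E m → E m} {δ C : ℝ} (hT : TC N π δ C) (n : ℕ) :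
    ∃ C₁ : ℝ, 1 ≤ C₁ ∧ ∀ (Ω : Set (E n)), IsOpen Ω → ∀ V : ℕ → E n → E m,
      (∀ j, ContDiffOn ℝ ∞ (V j) Ω) →
      (∀ j, ∀ x ∈ Ω, infDist (V j x) N < δ ∧ ‖V (j + 1) x - V j x‖ < δ) →
      ∃ (B : ℕ → E n → E m) (μ : ℕ → E n → ℝ), (∀ j, Gauge π Ω (V j) (B j) (μ j)) ∧
        (∀ x, B 0 x = 0 ∧ μ 0 x = 1) ∧
        ∀ j, StepOK π C₁ Ω (V j) (V (j + 1)) (B j) (B (j + 1)) (μ j) (μ (j + 1)) := by
  obtain ⟨C₁, h1, hs⟩ := one_step hT n
  refine ⟨C₁, h1, fun Ω hΩ V hV hd => ?_⟩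
  have hn : ∀ (j : ℕ) (p : {p : (E n → E m) × (E n → ℝ) // Gauge π Ω (V j) p.1 p.2}),
      ∃ q : {q : (E n → E m) × (E n → ℝ) // Gauge π Ω (V (j + 1)) q.1 q.2},
        StepOK π C₁ Ω (V j) (V (j + 1)) p.1.1 q.1.1 p.1.2 q.1.2 := by
    intro j p
    obtain ⟨B₁, μ₁, hg, ho⟩ := hs Ω hΩ (V j) (V (j + 1)) (hV j) (hV (j + 1)) (hd j) p.1.1 p.1.2 p.2
    exact ⟨⟨(B₁, μ₁), hg⟩, ho⟩
  choose nx hnx using hn
  have hg0 : Gauge π Ω (V 0) (fun _ => (0 : E m)) (fun _ => (1 : ℝ)) := by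
    constructor
    · exact contDiffOn_const
    · exact contDiffOn_const
    · intro x _
      exact map_zero _
    · intro x _
      simp
    · intro x _
      exact one_pos
  let S : (j : ℕ) → {p : (E n → E m) × (E n → ℝ) // Gauge π Ω (V j) p.1 p.2} := fun j =>
    Nat.rec (motive := fun j => {p : (E n → E m) × (E n → ℝ) // Gauge π Ω (V j) p.1 p.2})
      ⟨(fun _ => (0 : E m), fun _ => (1 : ℝ)), hg0⟩ (fun j p => nx j p) j
  exact ⟨fun j => (S j).1.1, fun j => (S j).1.2, fun j => (S j).2, fun x => ⟨rfl, rfl⟩,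
    fun j => hnx j (S j)⟩

end H60NH
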