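import Pool.Agent.H60.NH.OCurve
import Pool.Agent.H60.NH.OAlg
import Pool.Agent.H60.NH.OInv
import Pool.Agent.H60.NH.LWedge

/-!
# [H60 NH OSTEP] One transport step

Take the curves of `step_curves`, `B₁ x = B x 1`, `μ₁ x = μ x 1`.
For fixed `x ∈ Ω`, `h`: the curves `z(s) = zz π U W x s, p(s) = pp π U W x h s, zh(s) = zh x s h, B, μ, DB h, Dμ h`,
`SZ = D2 π P z`, `SP = D2 π P p`, `RR = Rh x s h`, `Q = fderiv π P`, `P = π (gam x s) ∈ N`, satisfy the hypotheses of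
`step_algebra` and `step_invariants`: symmetry `symm3` (with `infDist P N = 0`), `SZ p = SP z` is `symm2`,
`Q Q = Q` on `N`: `idem` with `π P = P`; `Q z = z`: `idem` at `gam x s`
(`infDist (gam x s) N < 2 δ`); `Q 0 (B 0) = B 0` is `tan` at `x` (`gam x 0 = U x`).
So `Gauge π Ω W B₁ μ₁` (`gam x 1 = W x`), and `|B| <= μ`, `μ >= 1` for all `s`.

Bounds, `Δ = ‖W x - U x‖ < δ`: `‖z‖ <= C Δ`, `‖SZ‖ <= C ‖z‖ <= C^2 Δ`. `|μ'| <= ‖z‖ μ`, so
`exp(-CΔ) μ₀ <= μ(s) <= exp(CΔ) μ₀ <= exp(Cδ) μ₀` (gronwall, or monotonicity of `μ exp(∓ C Δ s)`);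
`‖B'‖, |μ'| <= (C + C^2) Δ exp(Cδ) μ₀`, which gives the first two estimates (mean value).
`R(s) = (E(s), e(s))` of `step_algebra` in `WithLp 1 (E m × ℝ)` (norm `‖E‖ + |e|`):
`‖R'‖ <= (‖z‖ + ‖SZ‖)(‖E‖ + |e|) + ‖Om π P z p B‖ <= (C + C^2) Δ ‖R‖ + 4 C^2 S exp(Cδ) μ₀`
by `om_bound`; `gronwall01` and `μ₁ >= exp(-CΔ) μ₀` give
`rr₁ = ‖R(1)‖/μ₁ <= exp((2C + C^2) Δ)(rr₀ + 4 C^2 exp(Cδ) S)`. (`R(0)`, `R(1)` are the pairs
`(calE, cale)` for `U, B₀, μ₀` and `W, B₁, μ₁`, since `pp` at `s = 0, 1` is `pU π U x h`, `pU π W x h` by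
the chain rule, and `fderiv B₁ x h = DB(x,1) h`.) `C₁ = 1 + 8 C^2 exp(Cδ)` works (`C >= 1`);
it depends on `C` and `δ` only.
-/

set_option autoImplicit false

namespace H60NH

open MeasureTheory Metric Set Filter Topology
open scoped ENNReal NNReal ContDiff

private theorem OSTEP_gam {n m : ℕ} {N : Set (E m)} {δ : ℝ} {U W : E n → E m} {x : E n}
    (h1 : infDist (U x) N < δ) (h2 : ‖W x - U x‖ < δ) {s : ℝ} (hs : s ∈ Icc (0:ℝ) 1) :
    infDist (gam U W x s) N < 2 * δ := by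
  have e1 : dist (gam U W x s) (U x) ≤ ‖W x - U x‖ := by
    rw [dist_eq_norm]
    unfold gam
    rw [add_sub_cancel_left, norm_smul, Real.norm_eq_abs, abs_of_nonneg hs.1]
    exact mul_le_of_le_one_left (norm_nonneg _) hs.2
  have e2 := Metric.infDist_le_infDist_add_dist (s := N) (x := gam U W x s) (y := U x)
  linarith

private theorem OSTEP_mu {m : ℕ} (z B : ℝ → E m) (μ : ℝ → ℝ) (a : ℝ) (ha : 0 ≤ a)
    (hμ : ∀ s ∈ Icc (0:ℝ) 1, HasDerivWithinAt μ (inner ℝ (z s) (B s)) (Icc 0 1) s)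
    (hz : ∀ s ∈ Icc (0:ℝ) 1, ‖z s‖ ≤ a)
    (hB : ∀ s ∈ Icc (0:ℝ) 1, ‖B s‖ ≤ μ s) (hp : ∀ s ∈ Icc (0:ℝ) 1, 0 < μ s) :
    (∀ s ∈ Icc (0:ℝ) 1, μ s ≤ Real.exp a * μ 0) ∧ (μ 1)⁻¹ ≤ Real.exp a * (μ 0)⁻¹ := by
  have h0 : (0:ℝ) ∈ Icc (0:ℝ) 1 := ⟨le_refl _, zero_le_one⟩
  have h1 : (1:ℝ) ∈ Icc (0:ℝ) 1 := ⟨zero_le_one, le_refl _⟩
  have hin : ∀ s ∈ Icc (0:ℝ) 1, |inner ℝ (z s) (B s)| ≤ a * μ s := by
    intro s hs
    refine (abs_real_inner_le_norm _ _).trans ?_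
    exact mul_le_mul (hz s hs) (hB s hs) (norm_nonneg _) ha
  constructor
  · intro s hs
    have h := gronwall01 μ (fun s => inner ℝ (z s) (B s)) a 0 ha (le_refl _) hμ (fun s hs => by
      rw [Real.norm_eq_abs, Real.norm_eq_abs, abs_of_pos (hp s hs), add_zero]
      exact hin s hs) s hs
    rw [Real.norm_eq_abs, Real.norm_eq_abs, abs_of_pos (hp s hs), abs_of_pos (hp 0 h0), zero_mul,
      add_zero] at h
    refine h.trans (mul_le_mul_of_nonneg_right (Real.exp_le_exp.2 ?_) (hp 0 h0).le)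
    exact mul_le_of_le_one_right ha hs.2
  · have h := gronwall01 (fun s => (μ s)⁻¹) (fun s => -inner ℝ (z s) (B s) / μ s ^ 2) a 0 ha
      (le_refl _) (fun s hs => (hμ s hs).fun_inv (hp s hs).ne') (fun s hs => by
      have hps := hp s hs
      rw [Real.norm_eq_abs, Real.norm_eq_abs, abs_of_pos (inv_pos.2 hps), add_zero, abs_div,
        abs_neg, abs_of_pos (pow_pos hps 2), div_le_iff₀ (pow_pos hps 2)]
      calc |inner ℝ (z s) (B s)| ≤ a * μ s := hin s hs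
        _ = a * (μ s)⁻¹ * μ s ^ 2 := by field_simp) 1 h1
    rw [Real.norm_eq_abs, Real.norm_eq_abs, abs_of_pos (inv_pos.2 (hp 1 h1)),
      abs_of_pos (inv_pos.2 (hp 0 h0)), zero_mul, add_zero, mul_one] at h
    exact h

private theorem OSTEP_err {m : ℕ} (z E0 O : ℝ → E m) (e0 : ℝ → ℝ) (SZ : ℝ → E m →L[ℝ] E m)
    (a κ : ℝ) (ha : 0 ≤ a) (hκ : 0 ≤ κ)
    (hE : ∀ s ∈ Icc (0:ℝ) 1, HasDerivWithinAt E0 (e0 s • z s + SZ s (E0 s) + O s) (Icc 0 1) s)
    (he : ∀ s ∈ Icc (0:ℝ) 1, HasDerivWithinAt e0 (inner ℝ (z s) (E0 s)) (Icc 0 1) s)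
    (hz : ∀ s ∈ Icc (0:ℝ) 1, ‖z s‖ + ‖SZ s‖ ≤ a) (hO : ∀ s ∈ Icc (0:ℝ) 1, ‖O s‖ ≤ κ) :
    ‖E0 1‖ + |e0 1| ≤ Real.exp a * (‖E0 0‖ + |e0 0| + κ) := by
  have h1 : (1:ℝ) ∈ Icc (0:ℝ) 1 := ⟨zero_le_one, le_refl _⟩
  have hn : ∀ (u : E m) (v : ℝ), ‖WithLp.toLp 1 (u, v)‖ = ‖u‖ + |v| := by
    intro u v
    rw [WithLp.prod_norm_eq_of_L1]
    rfl
  have h := gronwall01 (fun s => WithLp.toLp 1 (E0 s, e0 s))
    (fun s => WithLp.toLp 1 (e0 s • z s + SZ s (E0 s) + O s, inner ℝ (z s) (E0 s))) a κ ha hκ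
    (fun s hs => by
      have h2 := (hE s hs).prodMk (he s hs)
      exact ((WithLp.prodContinuousLinearEquiv 1 ℝ (E m) ℝ).symm.toContinuousLinearMap.hasFDerivAt.comp_hasDerivWithinAt
        s h2))
    (fun s hs => by
      rw [hn, hn]
      have k1 := hz s hs
      have k2 := hO s hs
      have k3 : ‖e0 s • z s + SZ s (E0 s) + O s‖ ≤ |e0 s| * ‖z s‖ + ‖SZ s‖ * ‖E0 s‖ + κ := by
        refine (norm_add₃_le).trans ?_
        have k4 : ‖e0 s • z s‖ = |e0 s| * ‖z s‖ := by rw [norm_smul, Real.norm_eq_abs]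
        have k5 := (SZ s).le_opNorm (E0 s)
        linarith
      have k4 : |inner ℝ (z s) (E0 s)| ≤ ‖z s‖ * ‖E0 s‖ := abs_real_inner_le_norm _ _
      have k5 : 0 ≤ |e0 s| := abs_nonneg _
      have k6 : 0 ≤ ‖E0 s‖ := norm_nonneg _
      have k7 : 0 ≤ ‖SZ s‖ := norm_nonneg _
      have k8 : (‖z s‖ + ‖SZ s‖) * (‖E0 s‖ + |e0 s|) ≤ a * (‖E0 s‖ + |e0 s|) :=
        mul_le_mul_of_nonneg_right k1 (by linarith)
      nlinarith [mul_nonneg k7 k5]) 1 h1
  rw [hn, hn, mul_one, mul_one] at h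
  exact h

theorem one_step {m : ℕ} {N : Set (E m)} {π : E m → E m} {δ C : ℝ} (hT : TC N π δ C) (n : ℕ) :
    ∃ C₁ : ℝ, 1 ≤ C₁ ∧ ∀ (Ω : Set (E n)), IsOpen Ω → ∀ U W : E n → E m,
      ContDiffOn ℝ ∞ U Ω → ContDiffOn ℝ ∞ W Ω →
      (∀ x ∈ Ω, infDist (U x) N < δ ∧ ‖W x - U x‖ < δ) →
      ∀ (B₀ : E n → E m) (μ₀ : E n → ℝ), Gauge π Ω U B₀ μ₀ →
        ∃ (B₁ : E n → E m) (μ₁ : E n → ℝ), Gauge π Ω W B₁ μ₁ ∧
          StepOK π C₁ Ω U W B₀ B₁ μ₀ μ₁ := by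
  obtain ⟨hC1, hδ⟩ : 1 ≤ C ∧ 0 < δ := ⟨hT.one_le, hT.pos⟩
  have hC0 : 0 ≤ C := by linarith
  have hexp1 : 1 ≤ Real.exp (C * δ) := Real.one_le_exp (by positivity)
  have hCC : C ≤ C ^ 2 := by nlinarith
  refine ⟨1 + 8 * C ^ 2 * Real.exp (C * δ), by nlinarith [sq_nonneg C], ?_⟩
  intro Ω hΩ U W hU hW hUW B₀ μ₀ hG
  obtain ⟨B, μ, DB, Dμ, zh, Rh, cB, cμ, hx⟩ := step_curves hT Ω hΩ U W hU hW hUW B₀ μ₀ hG
  have i0 : (0:ℝ) ∈ Icc (0:ℝ) 1 := ⟨le_refl _, zero_le_one⟩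
  have i1 : (1:ℝ) ∈ Icc (0:ℝ) 1 := ⟨zero_le_one, le_refl _⟩
  have g0 : ∀ x, gam U W x 0 = U x := fun x => by
    unfold gam
    rw [zero_smul, add_zero]
  have g1 : ∀ x, gam U W x 1 = W x := fun x => by
    unfold gam
    rw [one_smul, add_sub_cancel]
  have hopen : IsOpen {y : E m | infDist y N < 4 * δ} :=
    isOpen_lt (Metric.continuous_infDist_pt N) continuous_const
  -- geometry
  have geo : ∀ x ∈ Ω, ∀ s ∈ Icc (0:ℝ) 1, infDist (gam U W x s) N < 4 * δ := by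
    intro x hx s hs
    have := OSTEP_gam (hUW x hx).1 (hUW x hx).2 hs
    linarith
  have hPN : ∀ x ∈ Ω, ∀ s ∈ Icc (0:ℝ) 1, π (gam U W x s) ∈ N := fun x hx s hs =>
    hT.mem _ (geo x hx s hs)
  have hP0 : ∀ x ∈ Ω, ∀ s ∈ Icc (0:ℝ) 1, infDist (π (gam U W x s)) N < 4 * δ := by
    intro x hx s hs
    rw [Metric.infDist_zero_of_mem (hPN x hx s hs)]
    linarith
  have hzb : ∀ x ∈ Ω, ∀ s ∈ Icc (0:ℝ) 1, ‖zz π U W x s‖ ≤ C * ‖W x - U x‖ := by
    intro x hx s hs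
    exact (ContinuousLinearMap.le_opNorm _ _).trans
      (mul_le_mul_of_nonneg_right (hT.bd1 _ (geo x hx s hs)) (norm_nonneg _))
  have hSb : ∀ x ∈ Ω, ∀ s ∈ Icc (0:ℝ) 1,
      ‖D2 π (π (gam U W x s)) (zz π U W x s)‖ ≤ C ^ 2 * ‖W x - U x‖ := by
    intro x hx s hs
    calc ‖D2 π (π (gam U W x s)) (zz π U W x s)‖ ≤
          ‖D2 π (π (gam U W x s))‖ * ‖zz π U W x s‖ := ContinuousLinearMap.le_opNorm _ _
      _ ≤ C * (C * ‖W x - U x‖) := mul_le_mul (hT.bd2 _ (hP0 x hx s hs)) (hzb x hx s hs)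
          (norm_nonneg _) hC0
      _ = C ^ 2 * ‖W x - U x‖ := by ring
  -- invariants
  have inv : ∀ x ∈ Ω, ∀ s ∈ Icc (0:ℝ) 1, fderiv ℝ π (π (gam U W x s)) (B x s) = B x s ∧
      μ x s ^ 2 = 1 + ‖B x s‖ ^ 2 ∧ 0 < μ x s := by
    intro x hxΩ
    obtain ⟨q1, q2, q3, q4, q5, q6, q7, q8⟩ := hx x hxΩ
    refine step_invariants (fun s => zz π U W x s) (B x) (μ x)
      (fun s => fderiv ℝ π (π (gam U W x s)))
      (fun s => D2 π (π (gam U W x s)) (zz π U W x s)) (fun s hs => (q8 s hs).1)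
      (fun s hs => (q8 s hs).2.1) (fun s hs => (q8 s hs).2.2.1) q7 ?_ ?_ ?_ ?_ ?_ ?_
    · intro s hs a
      have h1 := hT.idem _ (hP0 x hxΩ s hs) a
      rw [hT.fixed _ (hPN x hxΩ s hs)] at h1
      exact h1
    · intro s hs
      exact hT.idem _ (geo x hxΩ s hs) _
    · intro s hs a b
      exact hT.symm1 _ (hP0 x hxΩ s hs) a b
    · show fderiv ℝ π (π (gam U W x 0)) (B x 0) = B x 0
      rw [g0, q1]
      exact hG.tan x hxΩ
    · show μ x 0 ^ 2 = 1 + ‖B x 0‖ ^ 2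
      rw [q1, q2]
      exact hG.norm x hxΩ
    · show 0 < μ x 0
      rw [q2]
      exact hG.pos x hxΩ
  have hBμ : ∀ x ∈ Ω, ∀ s ∈ Icc (0:ℝ) 1, ‖B x s‖ ≤ μ x s := by
    intro x hxΩ s hs
    obtain ⟨_, h1, h2⟩ := inv x hxΩ s hs
    exact abs_le_of_sq_le_sq' (by linarith) h2.le |>.2
  refine ⟨fun x => B x 1, fun x => μ x 1, ⟨cB, cμ, ?_, ?_, ?_⟩, ?_⟩
  · intro x hxΩ
    have h1 := (inv x hxΩ 1 i1).1
    rw [g1] at h1
    exact h1
  · intro x hxΩ
    exact (inv x hxΩ 1 i1).2.1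
  · intro x hxΩ
    exact (inv x hxΩ 1 i1).2.2
  -- the estimates
  intro x hxΩ
  obtain ⟨q1, q2, q3, q4, q5, q6, q7, q8⟩ := hx x hxΩ
  obtain ⟨hU1, hW1⟩ := hUW x hxΩ
  have hΔ0 : 0 ≤ ‖W x - U x‖ := norm_nonneg _
  have hμ0 : 0 < μ₀ x := hG.pos x hxΩ
  obtain ⟨m1, m2⟩ := OSTEP_mu (fun s => zz π U W x s) (B x) (μ x) (C * ‖W x - U x‖)
    (by positivity) (fun s hs => (q8 s hs).2.1) (hzb x hxΩ) (hBμ x hxΩ)
    (fun s hs => (inv x hxΩ s hs).2.2)
  rw [q2] at m1 m2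
  have hexp2 : Real.exp (C * ‖W x - U x‖) ≤ Real.exp (C * δ) :=
    Real.exp_le_exp.2 (mul_le_mul_of_nonneg_left hW1.le hC0)
  have m3 : ∀ s ∈ Icc (0:ℝ) 1, μ x s ≤ Real.exp (C * δ) * μ₀ x := fun s hs =>
    (m1 s hs).trans (mul_le_mul_of_nonneg_right hexp2 hμ0.le)
  have hbig : ∀ c : ℝ, 0 ≤ c → c ≤ 2 * C ^ 2 →
      c * ‖W x - U x‖ * (Real.exp (C * δ) * μ₀ x) ≤
        (1 + 8 * C ^ 2 * Real.exp (C * δ)) * ‖W x - U x‖ * μ₀ x := by
    intro c hc hc2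
    have k1 : c * Real.exp (C * δ) ≤ 1 + 8 * C ^ 2 * Real.exp (C * δ) := by
      have : c * Real.exp (C * δ) ≤ 2 * C ^ 2 * Real.exp (C * δ) :=
        mul_le_mul_of_nonneg_right hc2 (by positivity)
      have : 0 ≤ C ^ 2 * Real.exp (C * δ) := by positivity
      linarith
    calc c * ‖W x - U x‖ * (Real.exp (C * δ) * μ₀ x) =
          (c * Real.exp (C * δ)) * (‖W x - U x‖ * μ₀ x) := by ring
      _ ≤ (1 + 8 * C ^ 2 * Real.exp (C * δ)) * (‖W x - U x‖ * μ₀ x) :=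
          mul_le_mul_of_nonneg_right k1 (by positivity)
      _ = _ := by ring
  refine ⟨?_, ?_, ?_⟩
  · have h1 := (convex_Icc (0:ℝ) 1).norm_image_sub_le_of_norm_hasDerivWithin_le
      (f := B x) (C := (C + C ^ 2) * ‖W x - U x‖ * (Real.exp (C * δ) * μ₀ x))
      (fun s hs => (q8 s hs).1) (fun s hs => by
        have k1 := hBμ x hxΩ s hs
        have k2 := (inv x hxΩ s hs).2.2
        calc ‖μ x s • zz π U W x s + D2 π (π (gam U W x s)) (zz π U W x s) (B x s)‖ ≤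
              ‖μ x s • zz π U W x s‖ + ‖D2 π (π (gam U W x s)) (zz π U W x s) (B x s)‖ :=
              norm_add_le _ _
          _ ≤ μ x s * (C * ‖W x - U x‖) + (C ^ 2 * ‖W x - U x‖) * μ x s := by
              refine add_le_add ?_ ?_
              · rw [norm_smul, Real.norm_eq_abs, abs_of_pos k2]
                exact mul_le_mul_of_nonneg_left (hzb x hxΩ s hs) k2.le
              · exact (ContinuousLinearMap.le_opNorm _ _).trans
                  (mul_le_mul (hSb x hxΩ s hs) k1 (norm_nonneg _) (by positivity))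
          _ = (C + C ^ 2) * ‖W x - U x‖ * μ x s := by ring
          _ ≤ _ := mul_le_mul_of_nonneg_left (m3 s hs) (by positivity)) i0 i1
    rw [q1, sub_zero, norm_one, mul_one] at h1
    exact h1.trans (hbig _ (by positivity) (by linarith))
  · have h1 := (convex_Icc (0:ℝ) 1).norm_image_sub_le_of_norm_hasDerivWithin_le
      (f := μ x) (C := C * ‖W x - U x‖ * (Real.exp (C * δ) * μ₀ x))
      (fun s hs => (q8 s hs).2.1) (fun s hs => by
        have k1 := hBμ x hxΩ s hs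
        calc ‖inner ℝ (zz π U W x s) (B x s)‖ ≤ ‖zz π U W x s‖ * ‖B x s‖ :=
              norm_inner_le_norm _ _
          _ ≤ (C * ‖W x - U x‖) * μ x s :=
              mul_le_mul (hzb x hxΩ s hs) k1 (norm_nonneg _) (by positivity)
          _ ≤ _ := mul_le_mul_of_nonneg_left (m3 s hs) (by positivity)) i0 i1
    rw [q2, sub_zero, norm_one, mul_one, Real.norm_eq_abs] at h1
    exact h1.trans (hbig _ (by positivity) (by nlinarith))
  · intro h S hS
    have hS0 : 0 ≤ S := (Real.sqrt_nonneg _).trans (hS 0 i0)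
    have alg := step_algebra (fun s => zz π U W x s) (fun s => pp π U W x h s)
      (fun s => zh x s h) (B x) (fun s => DB x s h) (μ x) (fun s => Dμ x s h)
      (fun s => D2 π (π (gam U W x s)) (zz π U W x s))
      (fun s => D2 π (π (gam U W x s)) (pp π U W x h s)) (fun s => Rh x s h)
      (fun s hs => (q8 s hs).1) (fun s hs => (q8 s hs).2.1)
      (fun s hs => ((q8 s hs).2.2.2 h).1) (fun s hs => ((q8 s hs).2.2.2 h).2.1)
      (fun s hs => ((q8 s hs).2.2.2 h).2.2.1) (fun s hs => ((q8 s hs).2.2.2 h).2.2.2)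
      (fun s hs a b => by
        rw [hT.symm3 _ (hP0 x hxΩ s hs), ])
      (fun s hs a b => by
        rw [hT.symm3 _ (hP0 x hxΩ s hs), ])
      (fun s hs => hT.symm2 _ (hP0 x hxΩ s hs) _ _)
    have err := OSTEP_err (fun s => zz π U W x s)
      (fun s => DB x s h - μ x s • pp π U W x h s -
        D2 π (π (gam U W x s)) (pp π U W x h s) (B x s))
      (fun s => Om π (π (gam U W x s)) (zz π U W x s) (pp π U W x h s) (B x s))
      (fun s => Dμ x s h - inner ℝ (pp π U W x h s) (B x s))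
      (fun s => D2 π (π (gam U W x s)) (zz π U W x s))
      ((C + C ^ 2) * ‖W x - U x‖) (4 * C ^ 2 * S * (Real.exp (C * δ) * μ₀ x))
      (by positivity) (by positivity) (fun s hs => (alg s hs).1) (fun s hs => (alg s hs).2)
      (fun s hs => by
        have k1 := hzb x hxΩ s hs
        have k2 := hSb x hxΩ s hs
        linarith)
      (fun s hs => by
        refine (om_bound hT _ (hP0 x hxΩ s hs) _ _ _).trans ?_
        have k1 := hS s hs
        have k2 := (hBμ x hxΩ s hs).trans (m3 s hs)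
        have k3 : 0 ≤ wedge (zz π U W x s) (pp π U W x h s) := Real.sqrt_nonneg _
        gcongr)
    -- the values at the ends
    have hchain : ∀ V : E n → E m, ContDiffOn ℝ ∞ V Ω → infDist (V x) N < 4 * δ →
        pU π V x h = fderiv ℝ π (V x) (fderiv ℝ V x h) := by
      intro V hV hVx
      have d1 : DifferentiableAt ℝ V x :=
        (hV.contDiffAt (hΩ.mem_nhds hxΩ)).differentiableAt (by simp)
      have d2 : DifferentiableAt ℝ π (V x) :=
        (hT.smooth.contDiffAt (hopen.mem_nhds hVx)).differentiableAt (by simp)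
      unfold pU
      have e := fderiv_comp x d2 d1
      have e' : fderiv ℝ (fun y => π (V y)) x = (fderiv ℝ π (V x)).comp (fderiv ℝ V x) := e
      rw [e']
      rfl
    have hUx : infDist (U x) N < 4 * δ := by linarith
    have hWx : infDist (W x) N < 4 * δ := by
      have := geo x hxΩ 1 i1
      rw [g1] at this
      exact this
    have pp0 : pp π U W x h 0 = pU π U x h := by
      rw [hchain U hU hUx]
      unfold pp
      rw [g0, zero_smul, add_zero]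
    have pp1 : pp π U W x h 1 = pU π W x h := by
      rw [hchain W hW hWx]
      unfold pp
      rw [g1, one_smul, add_sub_cancel]
    have a0 : DB x 0 h - μ x 0 • pp π U W x h 0 -
        D2 π (π (gam U W x 0)) (pp π U W x h 0) (B x 0) = calE π U B₀ μ₀ x h := by
      rw [pp0, g0, q1, q2, q3]
      rfl
    have a1 : DB x 1 h - μ x 1 • pp π U W x h 1 -
        D2 π (π (gam U W x 1)) (pp π U W x h 1) (B x 1) =
          calE π W (fun x => B x 1) (fun x => μ x 1) x h := by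
      rw [pp1, g1]
      unfold calE
      rw [q5.fderiv]
    have b0 : Dμ x 0 h - inner ℝ (pp π U W x h 0) (B x 0) = cale π U B₀ μ₀ x h := by
      rw [pp0, q1, q4]
      rfl
    have b1 : Dμ x 1 h - inner ℝ (pp π U W x h 1) (B x 1) =
        cale π W (fun x => B x 1) (fun x => μ x 1) x h := by
      rw [pp1]
      unfold cale
      rw [q6.fderiv]
    simp only [a0, a1, b0, b1] at err
    have hr0 : 0 ≤ ‖calE π U B₀ μ₀ x h‖ + |cale π U B₀ μ₀ x h| := by positivity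
    have hrr0 : 0 ≤ rr π U B₀ μ₀ x h := by
      unfold rr
      positivity
    unfold rr
    rw [div_eq_mul_inv]
    calc (‖calE π W (fun x => B x 1) (fun x => μ x 1) x h‖ +
            |cale π W (fun x => B x 1) (fun x => μ x 1) x h|) * (μ x 1)⁻¹ ≤
          (Real.exp ((C + C ^ 2) * ‖W x - U x‖) *
            (‖calE π U B₀ μ₀ x h‖ + |cale π U B₀ μ₀ x h| +
              4 * C ^ 2 * S * (Real.exp (C * δ) * μ₀ x))) *
            (Real.exp (C * ‖W x - U x‖) * (μ₀ x)⁻¹) := by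
          refine mul_le_mul err m2 (inv_nonneg.2 (inv x hxΩ 1 i1).2.2.le) (by positivity)
      _ = Real.exp ((2 * C + C ^ 2) * ‖W x - U x‖) *
            ((‖calE π U B₀ μ₀ x h‖ + |cale π U B₀ μ₀ x h|) / μ₀ x +
              4 * C ^ 2 * Real.exp (C * δ) * S) := by
          have k1 : Real.exp ((2 * C + C ^ 2) * ‖W x - U x‖) =
              Real.exp ((C + C ^ 2) * ‖W x - U x‖) * Real.exp (C * ‖W x - U x‖) := by
            rw [← Real.exp_add]
            ring_nf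
          rw [k1]
          field_simp
      _ ≤ Real.exp ((1 + 8 * C ^ 2 * Real.exp (C * δ)) * ‖W x - U x‖) *
            ((‖calE π U B₀ μ₀ x h‖ + |cale π U B₀ μ₀ x h|) / μ₀ x +
              (1 + 8 * C ^ 2 * Real.exp (C * δ)) * S) := by
          have k1 : C ^ 2 ≤ C ^ 2 * Real.exp (C * δ) :=
            le_mul_of_one_le_right (by positivity) hexp1
          have k2 : 0 ≤ C ^ 2 * Real.exp (C * δ) := by positivity
          refine mul_le_mul (Real.exp_le_exp.2 (mul_le_mul_of_nonneg_right (by linarith) hΔ0))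
            (add_le_add (le_refl _) (mul_le_mul_of_nonneg_right (by linarith) hS0)) ?_
            (Real.exp_pos _).le
          exact add_nonneg hrr0 (by positivity)

end H60NH
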