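import Pool.Agent.H60.NH.PLip
import Pool.Agent.H60.NH.LChange
import Pool.Agent.H60.NH.LPerp
import Pool.Agent.H60.NH.MDer
import Pool.Agent.H60.NH.MBd
import Pool.Agent.H60.NH.PMeas

/-!
# [H60 NH PAVG] `perp` of averages of gradients

Setting: `x ∈ ball 0 2`, `k <= K`, `γ` a point with `infDist γ N < 2 δ`, `‖γ - ubar k x‖ <= C₂ a_k(x)`
(a point of the segment), `b = nb (B k) (μ k) x`, and a kernel `κ` with `|κ y| <= M' p2 k ^ n` and
`κ y = 0` for `y ∉ ball x (1/p2 k)`. Claim: for every `i`,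
`perp (Dπ(γ) (∫ κ(y) G_i(y) dy)) b <= C₃ p2 k ^ n ∫_{ball x (1/p2 k)} (PG y + f y (ε + NN f K k y)) dy`.
Proof. `Dπ(γ)` is continuous linear: `Dπ(γ) ∫ κ G_i = ∫ κ(y) • Dπ(γ) G_i(y) dy`; `perp_integral`,
`perp_smul`: `perp (...) b <= ∫ |κ y| perp (Dπ(γ) (G y i)) b dy <= M' p2 k ^ n ∫_{ball x (1/p2 k)} perp ...`.
For `y ∈ ball x (1/p2 k) ⊆ ball 0 3` apply `perp_change'` with `b' = nb (B K) (μ K) y`,
`β' = (μ K y)⁻¹`, `P' = π (ubar K y) ∈ N` (`nb_unit` for the tangency of `b'` and the unit vectors):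
`perp (Dπ(γ) (G y i)) b <= (4C + C/δ)(perp (G y i) b' + ‖G y i‖ (‖b - b'‖ + |β - β'| + ‖γ - P'‖))`, where
`perp (G y i) b' <= PG y` (`y ∈ ball 0 4`), `‖G y i‖ <= f y`,
`‖b - b'‖ + |β - β'| <= C ε + 8 C₂² NN f K k y` (`V_lip` from `x` to `y` at the level `k`, `V_chain` at `y`), and
`‖γ - P'‖ <= ‖γ - ubar k x‖ + ‖ubar k x - ubar k y‖ + ‖ubar k y - ubar K y‖ + infDist (ubar K y) N
<= C ε + C ε + C₂ NN f K k y + C₂ a_K(y)`, `a_K <= 8^(n-1) ε` (`dist_eq`, `tube`).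
-/

set_option autoImplicit false

namespace H60NH

open MeasureTheory Metric Set Filter Topology
open scoped ENNReal NNReal ContDiff

private theorem pavg_PG {n m : ℕ} (G : E n → Fin n → E m) (b : E n → E m) (y : E n)
    (hy : y ∈ ball (0 : E n) 4) (i : Fin n) : perp (G y i) (b y) ≤ PG G b y := by
  unfold PG
  rw [indicator_of_mem hy]
  apply Real.le_sqrt_of_sq_le
  exact Finset.single_le_sum (f := fun i => perp (G y i) (b y) ^ 2) (fun j _ => by positivity)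
    (Finset.mem_univ i)

private theorem pavg_gn {n m : ℕ} (a : Fin n → E m) : 0 ≤ gn a ∧ (∀ i, ‖a i‖ ≤ gn a) := by
  refine ⟨Real.sqrt_nonneg _, fun i => ?_⟩
  unfold gn
  apply Real.le_sqrt_of_sq_le
  exact Finset.single_le_sum (f := fun i => ‖a i‖ ^ 2) (fun j _ => by positivity)
    (Finset.mem_univ i)

theorem perp_avg {n m : ℕ} (hn : 2 ≤ n) {φ : E n → ℝ} {N : Set (E m)} {π : E m → E m} {δ C : ℝ}
    (hT : TC N π δ C) (C₂ M' : ℝ) :
    ∃ ε₁ C₃ : ℝ, 0 < ε₁ ∧ 1 ≤ C₃ ∧ ∀ (u : E n → E m) (G : E n → Fin n → E m) (ε : ℝ)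
      (B : ℕ → E n → E m) (μ : ℕ → E n → ℝ), ε ≤ ε₁ → Mor (fun x => gn (G x)) ε →
      (∀ i, Measurable (fun x => G x i)) →
      GD N π δ φ u (fun x => gn (G x)) ε C₂ B μ → ∀ k K : ℕ, k ≤ K → ∀ x ∈ ball (0 : E n) 2, ∀ i,
      ∀ γ : E m, infDist γ N < 2 * δ →
        ‖γ - ubar φ u k x‖ ≤ C₂ * aa (fun y => gn (G y)) k x →
      ∀ κ : E n → ℝ, Measurable κ → (∀ y, |κ y| ≤ M' * p2 k ^ n) →
        (∀ y, y ∉ ball x (1 / p2 k) → κ y = 0) →
      perp (fderiv ℝ π γ (∫ y, κ y • G y i)) (nb (B k) (μ k) x) ≤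
        C₃ * (p2 k ^ n * ∫ y in ball x (1 / p2 k), (PG G (nb (B K) (μ K)) y +
          gn (G y) * (ε + NN (fun z => gn (G z)) K k y))) := by
  obtain ⟨ε₁, D, hε₁, hD1, hD⟩ := V_lip (φ := φ) hn hT C₂
  have hC1 := hT.one_le
  have hδ := hT.pos
  have h8 : (1 : ℝ) ≤ 8 ^ (n - 1) := one_le_pow₀ (by norm_num)
  have hC0 : 0 ≤ C := by linarith
  have hD0 : 0 ≤ D := by linarith
  refine ⟨ε₁, 1 + |M'| * ((4 * C + C / δ) * (2 * D + 2 * |C₂| * 8 ^ (n - 1) + 8 * C₂ ^ 2 + |C₂|)),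
    hε₁, ?_, ?_⟩
  · have : 0 ≤ |M'| * ((4 * C + C / δ) * (2 * D + 2 * |C₂| * 8 ^ (n - 1) + 8 * C₂ ^ 2 + |C₂|)) := by
      positivity
    linarith
  intro u G ε B μ hε hf hGm hG k K hkK x hx i γ hγ hγx κ hκm hκb hκ0
  have hC₂ := hG.one_le
  have hC₂0 : 0 ≤ C₂ := by linarith
  rw [abs_of_nonneg hC₂0]
  have hε0 := hf.eps
  have hp : 0 < p2 k := by unfold p2; positivity
  have hp1 : 1 ≤ p2 k := by unfold p2; exact one_le_pow₀ (by norm_num)
  have hM0 : 0 ≤ M' := by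
    have h1 := (abs_nonneg _).trans (hκb 0)
    exact nonneg_of_mul_nonneg_left h1 (by positivity)
  rw [abs_of_nonneg hM0]
  obtain ⟨Z, hZ⟩ : ∃ Z, Z = 2 * D + 2 * C₂ * 8 ^ (n - 1) + 8 * C₂ ^ 2 + C₂ := ⟨_, rfl⟩
  obtain ⟨Q, hQ⟩ : ∃ Q, Q = 4 * C + C / δ := ⟨_, rfl⟩
  rw [← hZ, ← hQ]
  have hQ0 : 0 ≤ Q := by rw [hQ]; positivity
  have hZ1 : 1 ≤ Z := by
    rw [hZ]
    have h1 : 0 ≤ 2 * C₂ * 8 ^ (n - 1) := by positivity
    have h2 : 0 ≤ 8 * C₂ ^ 2 := by positivity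
    linarith
  have haa : ∀ k x, aa (fun y => gn (G y)) k x ≤ 8 ^ (n - 1) * ε := fun k x =>
    (AA_nonneg hf k x).2.2.1.trans (AA_nonneg hf k x).2.2.2
  have hx4 : x ∈ ball (0 : E n) 4 := ball_subset_ball (by norm_num) hx
  have hball : ball x (1 / p2 k) ⊆ ball (0 : E n) 4 := by
    intro y hy
    rw [mem_ball] at hx hy ⊢
    have h1 : (1 : ℝ) / p2 k ≤ 1 := by
      rw [div_le_one hp]
      exact hp1
    have h2 := dist_triangle y x 0
    linarith
  set b : E m := nb (B k) (μ k) x with hb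
  obtain ⟨hbu, hb1, _⟩ := nb_unit (hG.gauge k) x hx4
  have hγ4 : infDist γ N < 4 * δ := by linarith
  set T : E m →L[ℝ] E m := fderiv ℝ π γ with hT'
  -- pointwise bound
  have hpt : ∀ y ∈ ball x (1 / p2 k), perp (T (G y i)) b ≤
      Q * Z * (PG G (nb (B K) (μ K)) y + gn (G y) * (ε + NN (fun z => gn (G z)) K k y)) := by
    intro y hy
    have hy4 := hball hy
    have hxy : dist x y < 1 / p2 k := by
      rw [dist_comm]
      exact hy
    obtain ⟨h1, h2⟩ := hD u G ε B μ hε hf hG k x hx y hxy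
    obtain ⟨h3, h4⟩ := V_chain hf hG k K hkK y hy4
    obtain ⟨hu1, hu2, hu3⟩ := nb_unit (hG.gauge K) y hy4
    have hNN := NN_nonneg hf K k y
    have htK := hG.tube' K y hy4
    have htK4 : infDist (ubar φ u K y) N < 4 * δ := by linarith
    have h5 := perp_change' hT γ (π (ubar φ u K y)) (G y i) b (nb (B K) (μ K) y)
      ((μ k x)⁻¹) ((μ K y)⁻¹) (hT.mem _ htK4) hγ4 hbu hu1 hu3
    have hg := pavg_gn (G y)
    have h6 := pavg_PG G (nb (B K) (μ K)) y hy4 i
    have h7 : ‖b - nb (B K) (μ K) y‖ + |(μ k x)⁻¹ - (μ K y)⁻¹| ≤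
        D * ε + 8 * C₂ ^ 2 * NN (fun x => gn (G x)) K k y := by
      have e1 : ‖b - nb (B K) (μ K) y‖ ≤ ‖b - nb (B k) (μ k) y‖ +
          ‖nb (B k) (μ k) y - nb (B K) (μ K) y‖ := norm_sub_le_norm_sub_add_norm_sub _ _ _
      have e2 : |(μ k x)⁻¹ - (μ K y)⁻¹| ≤ |(μ k x)⁻¹ - (μ k y)⁻¹| +
          |(μ k y)⁻¹ - (μ K y)⁻¹| := abs_sub_le _ _ _
      linarith
    have h8' : ‖γ - π (ubar φ u K y)‖ ≤ 2 * (C₂ * (8 ^ (n - 1) * ε)) + D * ε +
        C₂ * NN (fun x => gn (G x)) K k y := by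
      have e1 : ‖γ - π (ubar φ u K y)‖ ≤ ‖γ - ubar φ u k x‖ + ‖ubar φ u k x - ubar φ u k y‖ +
          ‖ubar φ u k y - ubar φ u K y‖ + ‖ubar φ u K y - π (ubar φ u K y)‖ := by
        have e2 : γ - π (ubar φ u K y) = (γ - ubar φ u k x) + (ubar φ u k x - ubar φ u k y) +
          (ubar φ u k y - ubar φ u K y) + (ubar φ u K y - π (ubar φ u K y)) := by abel
        rw [e2]
        exact norm_add₄_le
      have e3 : ‖γ - ubar φ u k x‖ ≤ C₂ * (8 ^ (n - 1) * ε) :=
        hγx.trans (mul_le_mul_of_nonneg_left (haa k x) hC₂0)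
      have e4 : ‖ubar φ u k y - ubar φ u K y‖ ≤ C₂ * NN (fun x => gn (G x)) K k y := by
        rw [norm_sub_rev]
        exact h4
      have e5 : ‖ubar φ u K y - π (ubar φ u K y)‖ ≤ C₂ * (8 ^ (n - 1) * ε) := by
        rw [hT.dist_eq _ htK4]
        exact (hG.tube K y hy4).trans (mul_le_mul_of_nonneg_left (haa K y) hC₂0)
      linarith
    have h9 : ‖b - nb (B K) (μ K) y‖ + |(μ k x)⁻¹ - (μ K y)⁻¹| + ‖γ - π (ubar φ u K y)‖ ≤
        Z * (ε + NN (fun x => gn (G x)) K k y) := by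
      have e1 : Z * (ε + NN (fun x => gn (G x)) K k y) =
          (D * ε + 8 * C₂ ^ 2 * NN (fun x => gn (G x)) K k y) +
          (2 * (C₂ * (8 ^ (n - 1) * ε)) + D * ε + C₂ * NN (fun x => gn (G x)) K k y) +
          ((8 * C₂ ^ 2 + C₂) * ε + (2 * D + 2 * C₂ * 8 ^ (n - 1)) *
            NN (fun x => gn (G x)) K k y) := by
        rw [hZ]
        ring
      have e2 : 0 ≤ (8 * C₂ ^ 2 + C₂) * ε + (2 * D + 2 * C₂ * 8 ^ (n - 1)) *
            NN (fun x => gn (G x)) K k y := by positivity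
      rw [e1]
      linarith
    rw [← hQ] at h5
    refine h5.trans ?_
    rw [mul_assoc]
    apply mul_le_mul_of_nonneg_left _ hQ0
    have hP0 : 0 ≤ PG G (nb (B K) (μ K)) y := (Real.sqrt_nonneg _).trans h6
    calc perp (G y i) (nb (B K) (μ K) y) + ‖G y i‖ * (‖b - nb (B K) (μ K) y‖ +
          |(μ k x)⁻¹ - (μ K y)⁻¹| + ‖γ - π (ubar φ u K y)‖)
        ≤ PG G (nb (B K) (μ K)) y + gn (G y) * (Z * (ε + NN (fun x => gn (G x)) K k y)) := by
          apply add_le_add h6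
          exact mul_le_mul (hg.2 i) h9 (by positivity) hg.1
      _ ≤ Z * (PG G (nb (B K) (μ K)) y + gn (G y) * (ε + NN (fun z => gn (G z)) K k y)) := by
          have e1 : PG G (nb (B K) (μ K)) y ≤ Z * PG G (nb (B K) (μ K)) y :=
            le_mul_of_one_le_left hP0 hZ1
          have e2 : gn (G y) * (Z * (ε + NN (fun x => gn (G x)) K k y)) =
              Z * (gn (G y) * (ε + NN (fun x => gn (G x)) K k y)) := by ring
          rw [e2, mul_add Z]
          linarith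
  -- integrability
  have hGi : Integrable (fun y => G y i) := by
    refine hf.int.mono' (hGm i).aestronglyMeasurable (ae_of_all _ fun y => ?_)
    exact (pavg_gn (G y)).2 i
  have hκG : Integrable (fun y => κ y • G y i) := by
    refine (hGi.norm.const_mul (M' * p2 k ^ n)).mono'
      (hκm.aestronglyMeasurable.smul hGi.aestronglyMeasurable) (ae_of_all _ fun y => ?_)
    rw [norm_smul, Real.norm_eq_abs]
    exact mul_le_mul_of_nonneg_right (hκb y) (norm_nonneg _)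
  have hcomm : T (∫ y, κ y • G y i) = ∫ y, κ y • T (G y i) := by
    rw [← T.integral_comp_comm hκG]
    refine integral_congr_ae (ae_of_all _ fun y => ?_)
    exact map_smul _ _ _
  have hbc : ContinuousOn (nb (B K) (μ K)) (ball (0 : E n) 4) :=
    (nb_smooth (hG.gauge K)).1.continuousOn
  have hPGi : Integrable (PG G (nb (B K) (μ K))) := by
    refine hf.int.mono' (PG_meas hGm _ hbc).aestronglyMeasurable (ae_of_all _ fun y => ?_)
    obtain ⟨e1, e2⟩ := PG_bd G (nb (B K) (μ K)) y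
    rw [Real.norm_eq_abs, abs_of_nonneg e1]
    exact e2
  have hNNi : Integrable (fun y => gn (G y) * (ε + NN (fun z => gn (G z)) K k y)) := by
    have hc : Continuous (NN (fun z => gn (G z)) K k) := NN_cont (by omega) hf.int K k
    refine (hf.int.const_mul (ε + K * (8 ^ (n - 1) * ε))).mono'
      (hf.meas.aestronglyMeasurable.mul (continuous_const.add hc).aestronglyMeasurable)
      (ae_of_all _ fun y => ?_)
    have e1 := NN_nonneg hf K k y
    have e2 := NN_le hf K k y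
    have e3 := hf.nonneg y
    rw [norm_mul, Real.norm_eq_abs, Real.norm_eq_abs, abs_of_nonneg e3,
      abs_of_nonneg (by linarith), mul_comm]
    exact mul_le_mul_of_nonneg_right (by linarith) e3
  set H : E n → ℝ := fun y => PG G (nb (B K) (μ K)) y +
    gn (G y) * (ε + NN (fun z => gn (G z)) K k y) with hH
  have hHi : Integrable H := hPGi.add hNNi
  have hH0 : ∀ y, 0 ≤ H y := by
    intro y
    have e1 := NN_nonneg hf K k y
    have e2 := (PG_bd G (nb (B K) (μ K)) y).1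
    have e3 := hf.nonneg y
    have e4 : 0 ≤ gn (G y) * (ε + NN (fun z => gn (G z)) K k y) :=
      mul_nonneg e3 (by linarith)
    exact add_nonneg e2 e4
  have hstep1 : perp (T (∫ y, κ y • G y i)) b ≤ ∫ y, |κ y| * perp (T (G y i)) b := by
    rw [hcomm]
    refine (perp_integral volume _ b hb1).trans (le_of_eq ?_)
    refine integral_congr_ae (ae_of_all _ fun y => ?_)
    exact perp_smul _ _ _
  have hstep2 : ∫ y, |κ y| * perp (T (G y i)) b =
      ∫ y in ball x (1 / p2 k), |κ y| * perp (T (G y i)) b := by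
    rw [setIntegral_eq_integral_of_forall_compl_eq_zero]
    intro y hy
    rw [hκ0 y hy, abs_zero, zero_mul]
  have hstep3 : ∫ y in ball x (1 / p2 k), |κ y| * perp (T (G y i)) b ≤
      ∫ y in ball x (1 / p2 k), (M' * p2 k ^ n * (Q * Z)) * H y := by
    apply integral_mono_of_nonneg
    · exact ae_of_all _ fun y => mul_nonneg (abs_nonneg _) (perp_nonneg _ _)
    · exact (hHi.const_mul _).restrict
    · filter_upwards [ae_restrict_mem measurableSet_ball] with y hy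
      have e1 := mul_le_mul (hκb y) (hpt y hy) (perp_nonneg _ _) (by positivity)
      refine e1.trans (le_of_eq ?_)
      simp only [hH]
      ring
  rw [integral_const_mul] at hstep3
  have hI0 : 0 ≤ ∫ y in ball x (1 / p2 k), H y := integral_nonneg hH0
  calc perp (T (∫ y, κ y • G y i)) b ≤ (M' * p2 k ^ n * (Q * Z)) *
        ∫ y in ball x (1 / p2 k), H y := by
        rw [hstep2] at hstep1
        exact hstep1.trans hstep3
    _ = M' * (Q * Z) * (p2 k ^ n * ∫ y in ball x (1 / p2 k), H y) := by ring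
    _ ≤ (1 + M' * (Q * Z)) * (p2 k ^ n * ∫ y in ball x (1 / p2 k), H y) := by
        apply mul_le_mul_of_nonneg_right (by linarith) (by positivity)

end H60NH
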