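import Pool.Agent.H60.NH.MDist
import Pool.Agent.H60.NH.MSol

/-!
# [H60 NH PBD] All bounds for the mollified maps

`f = gn ∘ G`, `x ∈ ball 0 4`; `∫_{ball x (1/p2 k)} f <= ∫_{ball x (4/p2 k)} f`, `p2 k ^ n = p2 k * p2 k ^ (n-1)`: the bounds
follow from `ubar_dist`, `ubar_diff_bd`, `ubar_der_bd` (`n M <= 3 n M`, `M <= 3 n M`).
`p₀ = π (ubar 0 0)`; if `infDist (ubar 0 0) N < 4 δ` then `p₀ ∈ N` and `‖ubar 0 0 - p₀‖ = infDist (ubar 0 0) N`. (If `ε` is not
small this may fail, hence the hypothesis `3 n M 4^(n-1) ε < δ`: `aa f 0 0 <= 4^(n-1) ε`.)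
For `x ∈ ball 0 4`: `‖ubar 0 x - ubar 0 0‖ <= 4 n M sup_z ∫_{ball z 1} f <= 4 n M ε` (mean value inequality on the
convex `ball 0 4`; `‖fderiv z‖ <= ∑ ‖fderiv z (ev i)‖`, `Mor.bound` with `r = 1`), and
`‖ubar 0 0 - p₀‖ <= 3 n M 4^(n-1) ε`. The sum is at most `4^(n+1) n M ε`.
For `x ∈ ball 0 2` and `z ∈ [0, x]`: `ball z 1 ⊆ ball x 8`, `ball 0 4 ⊆ ball x 8`, so
`‖ubar 0 x - p₀‖ <= 2 n M ∫_{ball x 8} f + 3 n M ∫_{ball x 8} f = 5 n M AA f 0 x` (`p2 0 = 1`).
-/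

set_option autoImplicit false

namespace H60NH

open MeasureTheory Metric Set Filter Topology
open scoped ENNReal NNReal ContDiff

private theorem pbd_op {n : ℕ} {F : Type*} [NormedAddCommGroup F] [NormedSpace ℝ F]
    (L : E n →L[ℝ] F) (c : ℝ) (hc : ∀ i, ‖L (ev i)‖ ≤ c) : ‖L‖ ≤ n * c := by
  rcases Nat.eq_zero_or_pos n with h0 | h0
  · subst h0
    have h1 : L = 0 := by
      ext x
      rw [Subsingleton.elim x 0, map_zero, map_zero]
    rw [h1, norm_zero]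
    simp
  have hc0 : 0 ≤ c := (norm_nonneg _).trans (hc ⟨0, h0⟩)
  refine L.opNorm_le_bound (by positivity) (fun x => ?_)
  have h1 : x = ∑ i, x i • (ev i : E n) := by
    ext j
    rw [WithLp.ofLp_sum, Finset.sum_apply]
    simp [ev, Pi.single_apply]
  have h2 : L x = ∑ i, x i • L (ev i) := by
    conv_lhs => rw [h1]
    rw [map_sum]
    exact Finset.sum_congr rfl (fun i _ => map_smul _ _ _)
  rw [h2]
  refine (norm_sum_le _ _).trans ?_
  have h3 : ∀ i ∈ Finset.univ, ‖x i • L (ev i)‖ ≤ c * ‖x‖ := by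
    intro i _
    rw [norm_smul, mul_comm]
    exact mul_le_mul (hc i) (PiLp.norm_apply_le x i) (norm_nonneg _) hc0
  refine (Finset.sum_le_sum h3).trans ?_
  rw [Finset.sum_const, Finset.card_univ, Fintype.card_fin, nsmul_eq_mul, mul_assoc]

private theorem pbd_p2 (k : ℕ) : 1 ≤ p2 k := one_le_pow₀ (by norm_num)

private theorem pbd_mono {n : ℕ} {F : E n → ℝ} (hF : Integrable F) (h0 : ∀ x, 0 ≤ F x)
    {s t : Set (E n)} (hst : s ⊆ t) : ∫ y in s, F y ≤ ∫ y in t, F y :=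
  setIntegral_mono_set hF.integrableOn (Eventually.of_forall h0) (Eventually.of_forall hst)

theorem ubar_all {n m : ℕ} (hn : 2 ≤ n) {φ : E n → ℝ} {Θ : Fin n → E n → ℝ} {M : ℝ}
    (hφ : Moll φ Θ M) {N : Set (E m)} {π : E m → E m} {δ C ε : ℝ} (hT : TC N π δ C)
    {u : E n → E m} {G : E n → Fin n → E m} (hS : Sol N π 64 u G)
    (hf : Mor (fun x => gn (G x)) ε) (k : ℕ) (x : E n) (hx : x ∈ ball (0 : E n) 4) :
    infDist (ubar φ u k x) N ≤ 3 * n * M * aa (fun y => gn (G y)) k x ∧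
    ‖ubar φ u (k + 1) x - ubar φ u k x‖ ≤ 3 * n * M * aa (fun y => gn (G y)) k x ∧
    ∀ i, ‖fderiv ℝ (ubar φ u k) x (ev i)‖ ≤ 3 * n * M * p2 k * aa (fun y => gn (G y)) k x := by
  have hM := hφ.one_le
  have hn1 : (1 : ℝ) ≤ n := by exact_mod_cast (by omega : 1 ≤ n)
  have hp := pbd_p2 k
  have hp0 : 0 < p2 k := by linarith
  have hp1 : 1 / p2 k ≤ 1 := by rw [div_le_one hp0]; exact hp
  have hx' : ‖x‖ < 4 := by rw [mem_ball_zero_iff] at hx; exact hx
  obtain ⟨hu, _, _, _, hI, _⟩ := sol_int (by omega) hS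
  have hg0 : ∀ y, 0 ≤ gn (G y) := fun y => Real.sqrt_nonneg _
  have hxk : ‖x‖ + 1 / p2 k < 64 := by linarith
  have hmono : ∫ y in ball x (1 / p2 k), gn (G y) ≤ ∫ y in ball x (4 / p2 k), gn (G y) :=
    pbd_mono hI hg0 (ball_subset_ball (by
      rw [div_le_div_iff_of_pos_right hp0]
      norm_num))
  have hI0 : 0 ≤ ∫ y in ball x (1 / p2 k), gn (G y) := integral_nonneg hg0
  have haa : aa (fun y => gn (G y)) k x =
      p2 k ^ (n - 1) * ∫ y in ball x (4 / p2 k), gn (G y) := rfl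
  have hpp : 0 < p2 k ^ (n - 1) := pow_pos hp0 _
  have h1 : p2 k ^ (n - 1) * ∫ y in ball x (1 / p2 k), gn (G y) ≤
      aa (fun y => gn (G y)) k x := by
    rw [haa]
    exact mul_le_mul_of_nonneg_left hmono hpp.le
  have h10 : 0 ≤ p2 k ^ (n - 1) * ∫ y in ball x (1 / p2 k), gn (G y) :=
    mul_nonneg hpp.le hI0
  have haa0 : 0 ≤ aa (fun y => gn (G y)) k x := h10.trans h1
  refine ⟨?_, ?_, ?_⟩
  · exact ubar_dist (by omega) hφ hS hu hI k x (ball_subset_ball (by norm_num) hx)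
  · refine (ubar_diff_bd (by omega) hφ hS.wg hu hS.out_u hS.out_G hI k x hxk).trans ?_
    calc (n : ℝ) * M * (p2 k ^ (n - 1) * ∫ y in ball x (1 / p2 k), gn (G y))
        ≤ (n : ℝ) * M * aa (fun y => gn (G y)) k x :=
          mul_le_mul_of_nonneg_left h1 (by positivity)
      _ ≤ 3 * n * M * aa (fun y => gn (G y)) k x := by
          apply mul_le_mul_of_nonneg_right _ haa0
          nlinarith [mul_nonneg (zero_le_one.trans hn1) (zero_le_one.trans hM)]
  · intro i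
    refine (ubar_der_bd hφ hS.wg hu hS.out_u hS.out_G hI k x hxk i).trans ?_
    have h2 : p2 k ^ n = p2 k * p2 k ^ (n - 1) := by
      rw [← pow_succ']
      congr 1
      omega
    rw [h2]
    calc M * (p2 k * p2 k ^ (n - 1) * ∫ y in ball x (1 / p2 k), gn (G y))
        = M * p2 k * (p2 k ^ (n - 1) * ∫ y in ball x (1 / p2 k), gn (G y)) := by ring
      _ ≤ M * p2 k * aa (fun y => gn (G y)) k x :=
          mul_le_mul_of_nonneg_left h1 (by positivity)
      _ ≤ 3 * n * M * p2 k * aa (fun y => gn (G y)) k x := by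
          apply mul_le_mul_of_nonneg_right _ haa0
          apply mul_le_mul_of_nonneg_right _ hp0.le
          nlinarith [mul_nonneg (zero_le_one.trans hn1) (zero_le_one.trans hM)]

private theorem pbd_mv {n m : ℕ} {v : E n → E m} (hv : ContDiff ℝ ∞ v) {r c : ℝ}
    (hc : ∀ z ∈ ball (0 : E n) r, ∀ i, ‖fderiv ℝ v z (ev i)‖ ≤ c) (x : E n)
    (hx : x ∈ ball (0 : E n) r) : ‖v x - v 0‖ ≤ n * c * r := by
  have hr : 0 < r := pos_of_mem_ball hx
  have h0 : (0 : E n) ∈ ball (0 : E n) r := mem_ball_self hr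
  have h1 := Convex.norm_image_sub_le_of_norm_fderiv_le (𝕜 := ℝ) (f := v) (C := n * c)
    (s := ball (0 : E n) r) (fun z _ => (hv.differentiable (by simp)) z)
    (fun z hz => pbd_op _ c (hc z hz)) (convex_ball 0 r) h0 hx
  refine h1.trans ?_
  have h2 : 0 ≤ n * c := (norm_nonneg _).trans (pbd_op _ c (hc x hx))
  apply mul_le_mul_of_nonneg_left _ h2
  rw [sub_zero]
  rw [mem_ball_zero_iff] at hx
  exact hx.le

theorem ubar_zero {n m : ℕ} (hn : 2 ≤ n) {φ : E n → ℝ} {Θ : Fin n → E n → ℝ} {M : ℝ}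
    (hφ : Moll φ Θ M) {N : Set (E m)} {π : E m → E m} {δ C ε : ℝ} (hT : TC N π δ C)
    {u : E n → E m} {G : E n → Fin n → E m} (hS : Sol N π 64 u G)
    (hf : Mor (fun x => gn (G x)) ε) (hε : 3 * n * M * 4 ^ (n - 1) * ε < δ) :
    π (ubar φ u 0 0) ∈ N ∧
    (∀ x ∈ ball (0 : E n) 4, ‖ubar φ u 0 x - π (ubar φ u 0 0)‖ ≤ 4 ^ (n + 1) * n * M * ε) ∧
    ∀ x ∈ ball (0 : E n) 2,
      ‖ubar φ u 0 x - π (ubar φ u 0 0)‖ ≤ 5 * n * M * AA (fun y => gn (G y)) 0 x := by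
  have hM := hφ.one_le
  have hn1 : (1 : ℝ) ≤ n := by exact_mod_cast (by omega : 1 ≤ n)
  have hnM : 0 ≤ (n : ℝ) * M := mul_nonneg (zero_le_one.trans hn1) (zero_le_one.trans hM)
  have hε0 : 0 ≤ ε := hf.eps
  have hδ := hT.pos
  obtain ⟨hu, _, _, _, hI, _⟩ := sol_int (by omega) hS
  have hg0 : ∀ y, 0 ≤ gn (G y) := fun y => Real.sqrt_nonneg _
  have hp0 : p2 0 = 1 := pow_zero _
  have hz : (0 : E n) ∈ ball (0 : E n) 4 := mem_ball_self (by norm_num)
  have haa : aa (fun y => gn (G y)) 0 (0 : E n) = ∫ y in ball (0 : E n) 4, gn (G y) := by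
    unfold aa
    rw [hp0, one_pow, one_mul, div_one]
  have hmor : ∫ y in ball (0 : E n) 4, gn (G y) ≤ ε * 4 ^ (n - 1) :=
    hf.bound 0 4 (by norm_num)
  have hI4 : 0 ≤ ∫ y in ball (0 : E n) 4, gn (G y) := integral_nonneg hg0
  have h1 := (ubar_all hn hφ hT hS hf 0 0 hz).1
  rw [haa] at h1
  have h2 : infDist (ubar φ u 0 0) N ≤ 3 * n * M * (ε * 4 ^ (n - 1)) :=
    h1.trans (mul_le_mul_of_nonneg_left hmor (by linarith))
  have h3 : infDist (ubar φ u 0 0) N < 4 * δ := by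
    have h4 : 3 * n * M * (ε * 4 ^ (n - 1)) = 3 * n * M * 4 ^ (n - 1) * ε := by ring
    rw [h4] at h2
    linarith
  have hpN := hT.mem _ h3
  have hpd := hT.dist_eq _ h3
  have hsm : ContDiff ℝ ∞ (ubar φ u 0) := ubar_smooth hφ u hu 0
  have hder : ∀ z ∈ ball (0 : E n) 4, ∀ i, ‖fderiv ℝ (ubar φ u 0) z (ev i)‖ ≤
      M * ∫ y in ball z 1, gn (G y) := by
    intro z hz i
    have hz' : ‖z‖ < 4 := by rw [mem_ball_zero_iff] at hz; exact hz
    have h5 := ubar_der_bd hφ hS.wg hu hS.out_u hS.out_G hI 0 z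
      (by rw [hp0]; linarith) i
    rw [hp0, one_pow, one_mul, div_one] at h5
    exact h5
  refine ⟨hpN, ?_, ?_⟩
  · intro x hx
    have h6 : ‖ubar φ u 0 x - ubar φ u 0 0‖ ≤ n * (M * ε) * 4 := by
      apply pbd_mv hsm _ x hx
      intro z hz i
      refine (hder z hz i).trans ?_
      apply mul_le_mul_of_nonneg_left _ (zero_le_one.trans hM)
      have h7 := hf.bound z 1 one_pos
      rw [one_pow, mul_one] at h7
      exact h7
    have h8 : ‖ubar φ u 0 0 - π (ubar φ u 0 0)‖ ≤ 3 * n * M * (ε * 4 ^ (n - 1)) := by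
      rw [hpd]
      exact h2
    have h9 : ‖ubar φ u 0 x - π (ubar φ u 0 0)‖ ≤
        n * (M * ε) * 4 + 3 * n * M * (ε * 4 ^ (n - 1)) := by
      calc ‖ubar φ u 0 x - π (ubar φ u 0 0)‖
          = ‖(ubar φ u 0 x - ubar φ u 0 0) + (ubar φ u 0 0 - π (ubar φ u 0 0))‖ := by
            rw [sub_add_sub_cancel]
        _ ≤ _ := (norm_add_le _ _).trans (add_le_add h6 h8)
    refine h9.trans ?_
    obtain ⟨j, rfl⟩ : ∃ j, n = j + 2 := ⟨n - 2, by omega⟩
    have h10 : (1 : ℝ) ≤ 4 ^ j := one_le_pow₀ (by norm_num)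
    have h11 : (j + 2 : ℕ) - 1 = j + 1 := by omega
    rw [h11]
    have h12 : (4 : ℝ) ^ (j + 1) = 4 * 4 ^ j := by ring
    have h13 : (4 : ℝ) ^ (j + 2 + 1) = 64 * 4 ^ j := by ring
    rw [h12, h13]
    have h14 : 0 ≤ ((j + 2 : ℕ) : ℝ) * M * ε := mul_nonneg hnM hε0
    nlinarith [mul_le_mul_of_nonneg_left h10 h14]
  · intro x hx
    have hx2 : ‖x‖ < 2 := by rw [mem_ball_zero_iff] at hx; exact hx
    have hAA : AA (fun y => gn (G y)) 0 x = ∫ y in ball x 8, gn (G y) := by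
      unfold AA
      rw [hp0, one_pow, one_mul, div_one]
    rw [hAA]
    have h6 : ‖ubar φ u 0 x - ubar φ u 0 0‖ ≤ n * (M * ∫ y in ball x 8, gn (G y)) * 2 := by
      apply pbd_mv hsm _ x hx
      intro z hz i
      refine (hder z (ball_subset_ball (by norm_num) hz) i).trans ?_
      apply mul_le_mul_of_nonneg_left _ (zero_le_one.trans hM)
      apply pbd_mono hI hg0
      have hz2 : ‖z‖ < 2 := by rw [mem_ball_zero_iff] at hz; exact hz
      apply ball_subset_ball'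
      have h7 : dist z x ≤ ‖z‖ + ‖x‖ := by
        rw [dist_eq_norm]
        exact norm_sub_le _ _
      linarith
    have h7 : ∫ y in ball (0 : E n) 4, gn (G y) ≤ ∫ y in ball x 8, gn (G y) := by
      apply pbd_mono hI hg0
      apply ball_subset_ball'
      rw [dist_comm, dist_zero_right]
      linarith
    have h8 : ‖ubar φ u 0 0 - π (ubar φ u 0 0)‖ ≤ 3 * n * M * ∫ y in ball x 8, gn (G y) := by
      rw [hpd]
      exact h1.trans (mul_le_mul_of_nonneg_left h7 (by linarith))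
    calc ‖ubar φ u 0 x - π (ubar φ u 0 0)‖
        = ‖(ubar φ u 0 x - ubar φ u 0 0) + (ubar φ u 0 0 - π (ubar φ u 0 0))‖ := by
          rw [sub_add_sub_cancel]
      _ ≤ _ := (norm_add_le _ _).trans (add_le_add h6 h8)
      _ = 5 * n * M * ∫ y in ball x 8, gn (G y) := by ring

end H60NH
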