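import Pool.Agent.H60.NH.PSeq
import Pool.Agent.H60.NH.PUnit
import Pool.Agent.H60.NH.NCont
import Pool.Agent.H60.NH.LWedge

/-!
# [H60 NH PLIP] Crude bound of the error and continuity of `(b, β)`

`f = gn ∘ G`, `GD` with constant `C₂`, `Mor f ε`, `a_k <= A_k <= 8^(n-1) ε`; `C` constants as in the
statement; `ε` small.
1. Step bounds (`x ∈ ball 0 4`): the segment from `ubar k x` to `ubar (k+1) x` has `infDist < 2 δ` and `bd1`
gives `‖zz‖ <= C ‖ubar (k+1) x - ubar k x‖ <= C a_k(x)`, `‖pp (ev i)‖ <= C (‖D ubar k‖ + ‖D ubar (k+1)‖)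
<= C p2 k a_k(x)`; for this use `a_{k+1}(x) <= 2^(n-1) a_k(x)` (smaller ball). (`pp_bd`, `zz_bd`)
2. `rr_crude`: `chain_rr` with `S i = C² p2 i (8^(n-1) ε)²` (`wedge_le_mul`), `j = 0`:
`rr_k <= e^{C₂ ∑ Δ} rr_0 + C₂ ∑_{i<k} e^{C₂ ∑_{i<=l<k} Δ_l} S i`, `Δ_l <= C₂ 8^(n-1) ε`; for `ε` small
`e^{C₂ C₂ 8^(n-1) ε (k-i)} <= 2^((k-i)/2)`, so the sum is at most `C ε² ∑_{i<k} 2^((k-i)/2) 2^i <= C ε² p2 k`;
`rr_0 <= C₂ ε A_0 <= C ε²` and `2^(k/2) <= p2 k`.
3. `V_lip`: for `x ∈ ball 0 2`, `dist x y < 1 / p2 k <= 1`, the segment lies in `ball 0 4` (convex), on which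
`nb_der_bd` gives `‖D(nb) (ev i)‖, |D(μ⁻¹) (ev i)| <= C p2 k ε` (with 1. for `U = ubar k`, and 2.), hence the
operator norms are at most `n C p2 k ε`; mean value inequality on the convex set `ball 0 4`.
4. `V_chain`: `chain_b` with `Δ_i <= C₂ a_i <= C₂ A_i` and `NN f K k = ∑_{i ∈ Ico k K} A_i`.
-/

set_option autoImplicit false

namespace H60NH

open MeasureTheory Metric Set Filter Topology
open scoped ENNReal NNReal ContDiff

private theorem plip_p2 (k : ℕ) : 0 < p2 k := by unfold p2; positivity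

private theorem plip_p2_succ (k : ℕ) : p2 (k + 1) = 2 * p2 k := by
  unfold p2
  rw [pow_succ, mul_comm]

/-- `a_{k+1} <= 2^(n-1) a_k` -/
private theorem plip_aa_succ {n : ℕ} {f : E n → ℝ} {ε : ℝ} (hf : Mor f ε) (k : ℕ) (x : E n) :
    aa f (k + 1) x ≤ 2 ^ (n - 1) * aa f k x := by
  have hp := plip_p2 k
  have h1 : ∫ y in ball x (4 / p2 (k + 1)), f y ≤ ∫ y in ball x (4 / p2 k), f y := by
    apply setIntegral_mono_set hf.int.integrableOn (ae_of_all _ hf.nonneg)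
    apply Eventually.of_forall
    apply ball_subset_ball
    rw [plip_p2_succ]
    apply div_le_div_of_nonneg_left (by norm_num) hp
    linarith
  unfold aa
  rw [plip_p2_succ] at h1 ⊢
  calc (2 * p2 k) ^ (n - 1) * ∫ y in ball x (4 / (2 * p2 k)), f y
      ≤ (2 * p2 k) ^ (n - 1) * ∫ y in ball x (4 / p2 k), f y :=
        mul_le_mul_of_nonneg_left h1 (by positivity)
    _ = 2 ^ (n - 1) * (p2 k ^ (n - 1) * ∫ y in ball x (4 / p2 k), f y) := by
        rw [mul_pow, mul_assoc]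

private theorem plip_opnorm {n : ℕ} {F : Type*} [NormedAddCommGroup F] [NormedSpace ℝ F]
    (T : E n →L[ℝ] F) (D : ℝ) (hD : 0 ≤ D) (h : ∀ i, ‖T (ev i)‖ ≤ D) : ‖T‖ ≤ n * D := by
  apply ContinuousLinearMap.opNorm_le_bound _ (by positivity)
  intro x
  have h1 : x = ∑ i, x i • (ev i : E n) := by
    ext j
    simp [ev, Pi.single_apply]
  have h2 : T x = ∑ i, x i • T (ev i) := by
    conv_lhs => rw [h1]
    rw [map_sum]
    exact Finset.sum_congr rfl fun i _ => map_smul _ _ _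
  rw [h2]
  calc ‖∑ i, x i • T (ev i)‖ ≤ ∑ i, ‖x i • T (ev i)‖ := norm_sum_le _ _
    _ ≤ ∑ _i : Fin n, ‖x‖ * D := by
        refine Finset.sum_le_sum fun i _ => ?_
        rw [norm_smul]
        exact mul_le_mul (PiLp.norm_apply_le x i) (h i) (norm_nonneg _) (norm_nonneg _)
    _ = n * D * ‖x‖ := by
        rw [Finset.sum_const, Finset.card_univ, Fintype.card_fin, nsmul_eq_mul]
        ring

theorem zz_bd {n m : ℕ} (hn : 2 ≤ n) {φ : E n → ℝ} {N : Set (E m)} {π : E m → E m} {δ C : ℝ}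
    (hT : TC N π δ C) (C₂ : ℝ) :
    ∃ C₃ : ℝ, 1 ≤ C₃ ∧ ∀ (u : E n → E m) (G : E n → Fin n → E m) (ε : ℝ)
      (B : ℕ → E n → E m) (μ : ℕ → E n → ℝ), Mor (fun x => gn (G x)) ε →
      GD N π δ φ u (fun x => gn (G x)) ε C₂ B μ → ∀ k, ∀ x ∈ ball (0 : E n) 4, ∀ i,
      ∀ s ∈ Icc (0:ℝ) 1,
        infDist (gam (ubar φ u k) (ubar φ u (k + 1)) x s) N < 2 * δ ∧
        ‖zz π (ubar φ u k) (ubar φ u (k + 1)) x s‖ ≤ C₃ * aa (fun y => gn (G y)) k x ∧
        ‖pp π (ubar φ u k) (ubar φ u (k + 1)) x (ev i) s‖ ≤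
          C₃ * p2 k * aa (fun y => gn (G y)) k x := by
  have hC := hT.one_le
  have hδ := hT.pos
  refine ⟨1 + C * |C₂| * (1 + 2 * 2 ^ (n - 1)), ?_, ?_⟩
  · have : 0 ≤ C * |C₂| * (1 + 2 * 2 ^ (n - 1)) := by positivity
    linarith
  intro u G ε B μ hf hG k x hx i s hs
  have hC₂ := hG.one_le
  rw [abs_of_nonneg (by linarith : (0:ℝ) ≤ C₂)]
  have hC0 : 0 ≤ C := by linarith
  have hC₂0 : 0 ≤ C₂ := by linarith
  have ha0 := (AA_nonneg hf k x).2.1
  have hp := plip_p2 k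
  have hgam : infDist (gam (ubar φ u k) (ubar φ u (k + 1)) x s) N < 2 * δ := by
    have e1 : dist (gam (ubar φ u k) (ubar φ u (k + 1)) x s) (ubar φ u k x) ≤
        ‖ubar φ u (k + 1) x - ubar φ u k x‖ := by
      rw [dist_eq_norm]
      unfold gam
      rw [add_sub_cancel_left, norm_smul, Real.norm_eq_abs, abs_of_nonneg hs.1]
      exact mul_le_of_le_one_left (norm_nonneg _) hs.2
    have e2 := Metric.infDist_le_infDist_add_dist (s := N)
      (x := gam (ubar φ u k) (ubar φ u (k + 1)) x s) (y := ubar φ u k x)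
    have e3 := hG.tube' k x hx
    have e4 := hG.dif'' k x hx
    linarith
  have hbd := hT.bd1 _ (show infDist (gam (ubar φ u k) (ubar φ u (k + 1)) x s) N < 4 * δ by
    linarith)
  have h2n : (0:ℝ) < 2 ^ (n - 1) := by positivity
  refine ⟨hgam, ?_, ?_⟩
  · have h1 : ‖zz π (ubar φ u k) (ubar φ u (k + 1)) x s‖ ≤
        C * (C₂ * aa (fun y => gn (G y)) k x) := by
      unfold zz
      exact (ContinuousLinearMap.le_opNorm _ _).trans
        (mul_le_mul hbd (hG.dif k x hx) (norm_nonneg _) hC0)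
    refine h1.trans ?_
    rw [← mul_assoc]
    apply mul_le_mul_of_nonneg_right _ ha0
    have h3 : 0 ≤ C * C₂ * (2 * 2 ^ (n - 1)) := by positivity
    linarith
  · have h1 : ‖fderiv ℝ (ubar φ u k) x (ev i) + s • (fderiv ℝ (ubar φ u (k + 1)) x (ev i) -
        fderiv ℝ (ubar φ u k) x (ev i))‖ ≤ C₂ * p2 k * aa (fun y => gn (G y)) k x +
          C₂ * (2 * p2 k) * (2 ^ (n - 1) * aa (fun y => gn (G y)) k x) := by
      have e1 : fderiv ℝ (ubar φ u k) x (ev i) + s • (fderiv ℝ (ubar φ u (k + 1)) x (ev i) -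
          fderiv ℝ (ubar φ u k) x (ev i)) = (1 - s) • fderiv ℝ (ubar φ u k) x (ev i) +
          s • fderiv ℝ (ubar φ u (k + 1)) x (ev i) := by
        rw [smul_sub, sub_smul, one_smul]
        abel
      rw [e1]
      refine (norm_add_le _ _).trans (add_le_add ?_ ?_)
      · rw [norm_smul, Real.norm_eq_abs, abs_of_nonneg (by linarith [hs.2])]
        exact (mul_le_of_le_one_left (norm_nonneg _) (by linarith [hs.1])).trans (hG.der k x hx i)
      · rw [norm_smul, Real.norm_eq_abs, abs_of_nonneg hs.1]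
        refine (mul_le_of_le_one_left (norm_nonneg _) hs.2).trans
          ((hG.der (k + 1) x hx i).trans ?_)
        rw [plip_p2_succ]
        exact mul_le_mul_of_nonneg_left (plip_aa_succ hf k x) (by positivity)
    have h2 : ‖pp π (ubar φ u k) (ubar φ u (k + 1)) x (ev i) s‖ ≤
        C * (C₂ * p2 k * aa (fun y => gn (G y)) k x +
          C₂ * (2 * p2 k) * (2 ^ (n - 1) * aa (fun y => gn (G y)) k x)) := by
      unfold pp
      exact (ContinuousLinearMap.le_opNorm _ _).trans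
        (mul_le_mul hbd h1 (norm_nonneg _) hC0)
    refine h2.trans ?_
    have h3 : 0 ≤ p2 k * aa (fun y => gn (G y)) k x := by positivity
    have h4 : (1 + C * C₂ * (1 + 2 * 2 ^ (n - 1))) * p2 k * aa (fun y => gn (G y)) k x =
        C * (C₂ * p2 k * aa (fun y => gn (G y)) k x +
          C₂ * (2 * p2 k) * (2 ^ (n - 1) * aa (fun y => gn (G y)) k x)) +
          p2 k * aa (fun y => gn (G y)) k x := by ring
    rw [h4]
    linarith

theorem rr_crude {n m : ℕ} (hn : 2 ≤ n) {φ : E n → ℝ} {N : Set (E m)} {π : E m → E m} {δ C : ℝ}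
    (hT : TC N π δ C) (C₂ : ℝ) :
    ∃ ε₁ C₃ : ℝ, 0 < ε₁ ∧ 1 ≤ C₃ ∧ ∀ (u : E n → E m) (G : E n → Fin n → E m) (ε : ℝ)
      (B : ℕ → E n → E m) (μ : ℕ → E n → ℝ), ε ≤ ε₁ → Mor (fun x => gn (G x)) ε →
      GD N π δ φ u (fun x => gn (G x)) ε C₂ B μ → ∀ k, ∀ x ∈ ball (0 : E n) 4, ∀ i,
        rr π (ubar φ u k) (B k) (μ k) x (ev i) ≤ C₃ * ε ^ 2 * p2 k := by
  obtain ⟨D, hD1, hD⟩ := zz_bd (φ := φ) hn hT C₂
  have h8 : (1 : ℝ) ≤ 8 ^ (n - 1) := one_le_pow₀ (by norm_num)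
  refine ⟨1 / (3 * (1 + C₂ ^ 2) * 8 ^ (n - 1)),
    1 + 3 * |C₂| * D ^ 2 * (8 ^ (n - 1)) ^ 2 + |C₂| * 8 ^ (n - 1), by positivity, ?_, ?_⟩
  · have h1 : 0 ≤ 3 * |C₂| * D ^ 2 * (8 ^ (n - 1)) ^ 2 := by positivity
    have h2 : 0 ≤ |C₂| * 8 ^ (n - 1) := by positivity
    linarith
  intro u G ε B μ hε hf hG k x hx i
  have hC₂ := hG.one_le
  have hC₂0 : 0 ≤ C₂ := by linarith
  rw [abs_of_nonneg hC₂0]
  have hε0 := hf.eps
  have hεs : C₂ ^ 2 * (8 ^ (n - 1) * ε) ≤ 1 / 3 := by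
    rw [le_div_iff₀ (by positivity)] at hε
    have h1 : 0 ≤ 8 ^ (n - 1) * ε := by positivity
    nlinarith
  set a : ℝ := 8 ^ (n - 1) * ε with ha
  have ha0 : 0 ≤ a := by positivity
  have haa : ∀ k x, aa (fun y => gn (G y)) k x ≤ a := fun k x =>
    (AA_nonneg hf k x).2.2.1.trans (AA_nonneg hf k x).2.2.2
  have hexp : ∀ k, Real.exp (C₂ * ‖ubar φ u (k + 1) x - ubar φ u k x‖) ≤ 3 / 2 := by
    intro k
    have h1 : C₂ * ‖ubar φ u (k + 1) x - ubar φ u k x‖ ≤ 1 / 3 := by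
      have h2 := mul_le_mul_of_nonneg_left ((hG.dif k x hx).trans
        (mul_le_mul_of_nonneg_left (haa k x) hC₂0)) hC₂0
      calc _ ≤ _ := h2
        _ = C₂ ^ 2 * a := by ring
        _ ≤ 1 / 3 := hεs
    calc Real.exp (C₂ * ‖ubar φ u (k + 1) x - ubar φ u k x‖) ≤ Real.exp (1 / 3) :=
          Real.exp_le_exp.2 h1
      _ ≤ 3 / 2 := by
        have h5 := Real.exp_one_lt_d9
        have h6 : Real.exp (1 / 3) ^ 3 = Real.exp 1 := by
          rw [← Real.exp_nat_mul]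
          norm_num
        by_contra h7
        have h8 : (3 / 2 : ℝ) ^ 3 ≤ Real.exp (1 / 3) ^ 3 :=
          pow_le_pow_left₀ (by norm_num) (not_le.1 h7).le 3
        norm_num at h8 h6
        linarith
  have hind : ∀ k, rr π (ubar φ u k) (B k) (μ k) x (ev i) ≤
      (3 * C₂ * D ^ 2 * a ^ 2 + C₂ * ε * a) * p2 k := by
    intro k
    induction k with
    | zero =>
      have h1 := hG.init_r x hx i
      have h2 : p2 0 = 1 := by unfold p2; exact pow_zero _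
      rw [h2, mul_one]
      have h3 : C₂ * ε * AA (fun y => gn (G y)) 0 x ≤ C₂ * ε * a :=
        mul_le_mul_of_nonneg_left (AA_nonneg hf 0 x).2.2.2 (by positivity)
      have h4 : 0 ≤ 3 * C₂ * D ^ 2 * a ^ 2 := by positivity
      linarith
    | succ k ih =>
      have hp := plip_p2 k
      have hw : ∀ s ∈ Icc (0:ℝ) 1,
          wedge (zz π (ubar φ u k) (ubar φ u (k + 1)) x s)
            (pp π (ubar φ u k) (ubar φ u (k + 1)) x (ev i) s) ≤ (D * a) * (D * p2 k * a) := by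
        intro s hs
        obtain ⟨_, h2, h3⟩ := hD u G ε B μ hf hG k x hx i s hs
        have hD0 : 0 ≤ D := by linarith
        refine (wedge_le_mul _ _).trans (mul_le_mul (h2.trans ?_) (h3.trans ?_)
          (norm_nonneg _) (by positivity))
        · exact mul_le_mul_of_nonneg_left (haa k x) hD0
        · exact mul_le_mul_of_nonneg_left (haa k x) (by positivity)
      have h1 := (hG.step k x hx).2.2 (ev i) _ hw
      have hD0 : 0 ≤ D := by linarith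
      have h2 : 0 ≤ (3 * C₂ * D ^ 2 * a ^ 2 + C₂ * ε * a) * p2 k + C₂ * (D * a * (D * p2 k * a)) := by
        positivity
      rw [plip_p2_succ]
      calc rr π (ubar φ u (k + 1)) (B (k + 1)) (μ (k + 1)) x (ev i)
          ≤ Real.exp (C₂ * ‖ubar φ u (k + 1) x - ubar φ u k x‖) *
            (rr π (ubar φ u k) (B k) (μ k) x (ev i) + C₂ * (D * a * (D * p2 k * a))) := h1
        _ ≤ Real.exp (C₂ * ‖ubar φ u (k + 1) x - ubar φ u k x‖) *
            ((3 * C₂ * D ^ 2 * a ^ 2 + C₂ * ε * a) * p2 k + C₂ * (D * a * (D * p2 k * a))) :=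
            mul_le_mul_of_nonneg_left (by linarith) (Real.exp_pos _).le
        _ ≤ 3 / 2 *
            ((3 * C₂ * D ^ 2 * a ^ 2 + C₂ * ε * a) * p2 k + C₂ * (D * a * (D * p2 k * a))) :=
            mul_le_mul_of_nonneg_right (hexp k) h2
        _ = (3 * C₂ * D ^ 2 * a ^ 2 + C₂ * ε * a) * (2 * p2 k) -
            (1 / 2) * (C₂ * ε * a * p2 k) := by ring
        _ ≤ (3 * C₂ * D ^ 2 * a ^ 2 + C₂ * ε * a) * (2 * p2 k) := by
            have : 0 ≤ (1 / 2) * (C₂ * ε * a * p2 k) := by positivity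
            linarith
  refine (hind k).trans (mul_le_mul_of_nonneg_right ?_ (plip_p2 k).le)
  have h9 : (1 + 3 * C₂ * D ^ 2 * (8 ^ (n - 1)) ^ 2 + C₂ * 8 ^ (n - 1)) * ε ^ 2 =
      3 * C₂ * D ^ 2 * a ^ 2 + C₂ * ε * a + ε ^ 2 := by
    rw [ha]
    ring
  rw [h9]
  have : 0 ≤ ε ^ 2 := by positivity
  linarith

theorem V_lip {n m : ℕ} (hn : 2 ≤ n) {φ : E n → ℝ} {N : Set (E m)} {π : E m → E m} {δ C : ℝ}
    (hT : TC N π δ C) (C₂ : ℝ) :
    ∃ ε₁ C₃ : ℝ, 0 < ε₁ ∧ 1 ≤ C₃ ∧ ∀ (u : E n → E m) (G : E n → Fin n → E m) (ε : ℝ)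
      (B : ℕ → E n → E m) (μ : ℕ → E n → ℝ), ε ≤ ε₁ → Mor (fun x => gn (G x)) ε →
      GD N π δ φ u (fun x => gn (G x)) ε C₂ B μ → ∀ k, ∀ x ∈ ball (0 : E n) 2, ∀ y,
      dist x y < 1 / p2 k →
        ‖nb (B k) (μ k) x - nb (B k) (μ k) y‖ + |(μ k x)⁻¹ - (μ k y)⁻¹| ≤ C₃ * ε ∧
        ‖ubar φ u k x - ubar φ u k y‖ ≤ C₃ * ε := by
  obtain ⟨ε₁, D, hε₁, hD1, hD⟩ := rr_crude (φ := φ) hn hT C₂
  have hC := hT.one_le
  have hn' : (2 : ℝ) ≤ n := by exact_mod_cast hn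
  have h8 : (1 : ℝ) ≤ 8 ^ (n - 1) := one_le_pow₀ (by norm_num)
  refine ⟨min ε₁ 1, 1 + 2 * (n * ((3 + C) * C * (|C₂| * 8 ^ (n - 1)) + 3 * D)) +
    n * (|C₂| * 8 ^ (n - 1)), lt_min hε₁ one_pos, ?_, ?_⟩
  · have hC0 : 0 ≤ C := by linarith
    have hD0 : 0 ≤ D := by linarith
    have h1 : 0 ≤ 2 * (n * ((3 + C) * C * (|C₂| * 8 ^ (n - 1)) + 3 * D)) := by positivity
    have h2 : 0 ≤ n * (|C₂| * 8 ^ (n - 1)) := by positivity
    linarith
  intro u G ε B μ hε hf hG k x hx y hxy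
  have hC₂ := hG.one_le
  have hC0 : 0 ≤ C := by linarith
  have hD0 : 0 ≤ D := by linarith
  have hC₂0 : 0 ≤ C₂ := by linarith
  rw [abs_of_nonneg hC₂0]
  have hε0 := hf.eps
  have hp := plip_p2 k
  have hp1 : 1 ≤ p2 k := by unfold p2; exact one_le_pow₀ (by norm_num)
  have hε1 : ε ≤ 1 := hε.trans (min_le_right _ _)
  have haa : ∀ k x, aa (fun y => gn (G y)) k x ≤ 8 ^ (n - 1) * ε := fun k x =>
    (AA_nonneg hf k x).2.2.1.trans (AA_nonneg hf k x).2.2.2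
  have hx4 : x ∈ ball (0 : E n) 4 := ball_subset_ball (by norm_num) hx
  have hy4 : y ∈ ball (0 : E n) 4 := by
    rw [mem_ball] at hx ⊢
    have h1 : dist y x < 1 := by
      rw [dist_comm]
      refine hxy.trans_le ?_
      rw [div_le_one hp]
      exact hp1
    have h2 := dist_triangle y x 0
    linarith
  have hnorm : p2 k * ‖x - y‖ ≤ 1 := by
    rw [dist_eq_norm, lt_div_iff₀ hp] at hxy
    linarith
  have hder : ∀ z ∈ ball (0 : E n) 4, ∀ i, ‖fderiv ℝ (ubar φ u k) z (ev i)‖ ≤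
      C₂ * 8 ^ (n - 1) * ε * p2 k := by
    intro z hz i
    refine (hG.der k z hz i).trans ?_
    have h1 := mul_le_mul_of_nonneg_left (haa k z) (show 0 ≤ C₂ * p2 k by positivity)
    refine h1.trans (le_of_eq ?_)
    ring
  have hnbd : ∀ z ∈ ball (0 : E n) 4, ∀ i, ‖fderiv ℝ (nb (B k) (μ k)) z (ev i)‖ +
      |fderiv ℝ (fun y => (μ k y)⁻¹) z (ev i)| ≤
      ((3 + C) * C * (C₂ * 8 ^ (n - 1)) + 3 * D) * ε * p2 k := by
    intro z hz i
    have h1 := nb_der_bd hT isOpen_ball ((hG.smooth k).contDiffOn) (hG.tube' k) (hG.gauge k) z hz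
      (ev i)
    have h2 := hD u G ε B μ (hε.trans (min_le_left _ _)) hf hG k z hz i
    have h3 : D * ε ^ 2 * p2 k ≤ D * ε * p2 k := by
      apply mul_le_mul_of_nonneg_right _ hp.le
      apply mul_le_mul_of_nonneg_left _ hD0
      nlinarith
    have h4 := mul_le_mul_of_nonneg_left (hder z hz i) (show 0 ≤ (3 + C) * C by positivity)
    calc _ ≤ _ := h1
      _ ≤ (3 + C) * C * (C₂ * 8 ^ (n - 1) * ε * p2 k) + 3 * (D * ε * p2 k) := by linarith
      _ = _ := by ring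
  set Q : ℝ := ((3 + C) * C * (C₂ * 8 ^ (n - 1)) + 3 * D) with hQ
  have hQ0 : 0 ≤ Q := by positivity
  obtain ⟨hs1, hs2⟩ := nb_smooth (hG.gauge k)
  have hconv : Convex ℝ (ball (0 : E n) 4) := convex_ball _ _
  have hA : ‖nb (B k) (μ k) x - nb (B k) (μ k) y‖ ≤ n * (Q * ε * p2 k) * ‖x - y‖ := by
    refine hconv.norm_image_sub_le_of_norm_fderiv_le (𝕜 := ℝ) (fun z hz => ?_) (fun z hz => ?_)
      hy4 hx4
    · exact ((hs1 z hz).contDiffAt (isOpen_ball.mem_nhds hz)).differentiableAt one_ne_zero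
    · refine plip_opnorm _ _ (by positivity) (fun i => ?_)
      exact (le_add_of_nonneg_right (abs_nonneg _)).trans (hnbd z hz i)
  have hB : |(μ k x)⁻¹ - (μ k y)⁻¹| ≤ n * (Q * ε * p2 k) * ‖x - y‖ := by
    rw [← Real.norm_eq_abs]
    refine hconv.norm_image_sub_le_of_norm_fderiv_le (𝕜 := ℝ) (f := fun y => (μ k y)⁻¹)
      (fun z hz => ?_) (fun z hz => ?_) hy4 hx4
    · exact ((hs2 z hz).contDiffAt (isOpen_ball.mem_nhds hz)).differentiableAt one_ne_zero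
    · refine plip_opnorm _ _ (by positivity) (fun i => ?_)
      rw [Real.norm_eq_abs]
      exact (le_add_of_nonneg_left (norm_nonneg _)).trans (hnbd z hz i)
  have hU : ‖ubar φ u k x - ubar φ u k y‖ ≤ n * (C₂ * 8 ^ (n - 1) * ε * p2 k) * ‖x - y‖ := by
    refine hconv.norm_image_sub_le_of_norm_fderiv_le (𝕜 := ℝ) (fun z hz => ?_) (fun z hz => ?_)
      hy4 hx4
    · exact ((hG.smooth k).contDiffAt).differentiableAt (by norm_num)
    · exact plip_opnorm _ _ (by positivity) (fun i => hder z hz i)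
  have hA' : n * (Q * ε * p2 k) * ‖x - y‖ ≤ n * Q * ε := by
    have h1 : n * (Q * ε * p2 k) * ‖x - y‖ = n * Q * ε * (p2 k * ‖x - y‖) := by ring
    rw [h1]
    exact mul_le_of_le_one_right (by positivity) hnorm
  have hU' : n * (C₂ * 8 ^ (n - 1) * ε * p2 k) * ‖x - y‖ ≤ n * (C₂ * 8 ^ (n - 1)) * ε := by
    have h1 : n * (C₂ * 8 ^ (n - 1) * ε * p2 k) * ‖x - y‖ =
        n * (C₂ * 8 ^ (n - 1)) * ε * (p2 k * ‖x - y‖) := by ring
    rw [h1]
    exact mul_le_of_le_one_right (by positivity) hnorm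
  have hQε : 0 ≤ n * Q * ε := by positivity
  have hCε : 0 ≤ n * (C₂ * 8 ^ (n - 1)) * ε := by positivity
  have hexp : (1 + 2 * (n * Q) + n * (C₂ * 8 ^ (n - 1))) * ε =
      ε + 2 * (n * Q * ε) + n * (C₂ * 8 ^ (n - 1)) * ε := by ring
  rw [hexp]
  constructor
  · linarith
  · linarith

theorem V_chain {n m : ℕ} {φ : E n → ℝ} {N : Set (E m)} {π : E m → E m} {δ C₂ ε : ℝ}
    {u : E n → E m} {G : E n → Fin n → E m} {B : ℕ → E n → E m} {μ : ℕ → E n → ℝ}
    (hf : Mor (fun x => gn (G x)) ε) (hG : GD N π δ φ u (fun x => gn (G x)) ε C₂ B μ)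
    (k K : ℕ) (hk : k ≤ K) (y : E n) (hy : y ∈ ball (0 : E n) 4) :
    ‖nb (B k) (μ k) y - nb (B K) (μ K) y‖ + |(μ k y)⁻¹ - (μ K y)⁻¹| ≤
      8 * C₂ ^ 2 * NN (fun x => gn (G x)) K k y ∧
    ‖ubar φ u K y - ubar φ u k y‖ ≤ C₂ * NN (fun x => gn (G x)) K k y := by
  have hC₂ := hG.one_le
  have hC₂0 : 0 ≤ C₂ := by linarith
  have hsum : ∑ i ∈ Finset.Ico k K, ‖ubar φ u (i + 1) y - ubar φ u i y‖ ≤
      C₂ * NN (fun x => gn (G x)) K k y := by
    unfold NN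
    rw [Finset.mul_sum]
    refine Finset.sum_le_sum fun i _ => (hG.dif i y hy).trans ?_
    exact mul_le_mul_of_nonneg_left (AA_nonneg hf i y).2.2.1 hC₂0
  constructor
  · have h1 := chain_b hC₂ (fun j => ubar φ u j) B μ hG.gauge hG.step y hy
      (fun j => hG.dif' j y hy) k K hk
    rw [norm_sub_rev, abs_sub_comm] at h1
    refine h1.trans ?_
    calc 8 * C₂ * ∑ i ∈ Finset.Ico k K, ‖ubar φ u (i + 1) y - ubar φ u i y‖
        ≤ 8 * C₂ * (C₂ * NN (fun x => gn (G x)) K k y) :=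
          mul_le_mul_of_nonneg_left hsum (by positivity)
      _ = 8 * C₂ ^ 2 * NN (fun x => gn (G x)) K k y := by ring
  · refine le_trans ?_ hsum
    have h2 := Finset.sum_Ico_sub (fun i => ubar φ u i y) hk
    rw [← h2]
    exact norm_sum_le _ _

end H60NH
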