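import Pool.Agent.H60.NH.Def2

/-!
# [H60 NH PMONO] `StepOK` is monotone in the constant

`C₁ <= C₁'`, and all the quantities that are multiplied by `C₁` are nonnegative: `μ₀ x > 0`,
`rr >= 0` (as `μ₀ x > 0`), and `S >= wedge _ _ >= 0` (take `s = 0` in the hypothesis on `S`;
`wedge` is a square root).
-/

set_option autoImplicit false

namespace H60NH

open MeasureTheory Metric Set Filter Topology
open scoped ENNReal NNReal ContDiff

theorem StepOK.mono {n m : ℕ} {π : E m → E m} {C₁ C₁' : ℝ} (h0 : 0 ≤ C₁) (h : C₁ ≤ C₁')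
    {Ω : Set (E n)} {U W B₀ B₁ : E n → E m} {μ₀ μ₁ : E n → ℝ} (hG : Gauge π Ω U B₀ μ₀)
    (hS : StepOK π C₁ Ω U W B₀ B₁ μ₀ μ₁) : StepOK π C₁' Ω U W B₀ B₁ μ₀ μ₁ := by
  intro x hx
  obtain ⟨h1, h2, h3⟩ := hS x hx
  have hμ := hG.pos x hx
  have hd : 0 ≤ ‖W x - U x‖ := norm_nonneg _
  have hle : C₁ * ‖W x - U x‖ * μ₀ x ≤ C₁' * ‖W x - U x‖ * μ₀ x :=
    mul_le_mul_of_nonneg_right (mul_le_mul_of_nonneg_right h hd) hμ.le
  refine ⟨h1.trans hle, h2.trans hle, ?_⟩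
  intro v S hSw
  have h4 := h3 v S hSw
  have hS0 : 0 ≤ S := (Real.sqrt_nonneg _).trans (hSw 0 (left_mem_Icc.2 zero_le_one))
  have hrr : 0 ≤ rr π U B₀ μ₀ x v :=
    div_nonneg (add_nonneg (norm_nonneg _) (abs_nonneg _)) hμ.le
  refine h4.trans ?_
  refine mul_le_mul (Real.exp_le_exp.2 (mul_le_mul_of_nonneg_right h hd)) ?_ ?_
    (Real.exp_pos _).le
  · have h5 := mul_le_mul_of_nonneg_right h hS0
    linarith
  · exact add_nonneg hrr (mul_nonneg h0 hS0)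

end H60NH
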