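import Pool.Agent.H60.NH.PWedge

/-!
# [H60 NH PRR] The error is bounded by `TT`; the size of `b_K`

`rr_TT`: `chain_rr` with `j = 0`, `k = K` for the sequence `ubar`, `B`, `μ`, and with
`S k = C₃ a_k(x) J_k` from `wedge_step` for `k < K` (for `k >= K`, `S k = ‖zz‖‖pp‖` bound, e.g.
`C² p2 k a_k(x)²` from `zz_bd`, `wedge_le_mul`; these do not enter the sum). The exponentials:
`C₂ ∑_{i ∈ Ico k K} ‖ubar (i+1) x - ubar i x‖ <= C₂² ∑ a_i <= C₂² NN f K k x`. `rr_0 <= C₂ ε AA f 0 x`.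
So `rr_K <= C (ε AA f 0 x e^{c NN f K 0 x} + ∑_{k<K} e^{c NN f K k x} a_k(x) J_k) = C TT`, `c = C₂²`.
`b_bd`: `‖nb (B K) (μ K) x‖ <= ‖nb (B 0) (μ 0) x‖ + 8 C₂² NN f K 0 x` (`V_chain` with `k = 0`, `init_b`).
-/

set_option autoImplicit false

namespace H60NH

open MeasureTheory Metric Set Filter Topology
open scoped ENNReal NNReal ContDiff

theorem rr_TT {n m : ℕ} (hn : 2 ≤ n) {φ : E n → ℝ} {Θ : Fin n → E n → ℝ} {M : ℝ}
    (hφ : Moll φ Θ M) {N : Set (E m)} {π : E m → E m} {δ C : ℝ}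
    (hT : TC N π δ C) (C₂ : ℝ) :
    ∃ ε₁ C₃ : ℝ, 0 < ε₁ ∧ 1 ≤ C₃ ∧ ∀ (u : E n → E m) (G : E n → Fin n → E m) (ε : ℝ)
      (B : ℕ → E n → E m) (μ : ℕ → E n → ℝ), Sol N π 64 u G → ε ≤ ε₁ →
      Mor (fun x => gn (G x)) ε →
      GD N π δ φ u (fun x => gn (G x)) ε C₂ B μ → ∀ K : ℕ, ∀ x ∈ ball (0 : E n) 2, ∀ i,
      rr π (ubar φ u K) (B K) (μ K) x (ev i) ≤
        C₃ * TT (fun y => gn (G y)) (PG G (nb (B K) (μ K))) ε (C₂ ^ 2) K x := by
  obtain ⟨ε₁, Cw, hε₁, hCw, hwedge⟩ := wedge_step hn hφ hT C₂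
  obtain ⟨Cz, hCz, hzz⟩ := zz_bd (φ := φ) hn hT C₂
  refine ⟨ε₁, |C₂| * Cw + 1, hε₁, ?_, ?_⟩
  · have : 0 ≤ |C₂| * Cw := mul_nonneg (abs_nonneg _) (by linarith)
    linarith
  intro u G ε B μ hsol hε hf hG K x hx i
  have hx4 : x ∈ ball (0 : E n) 4 := ball_subset_ball (by norm_num) hx
  have hC2 : 1 ≤ C₂ := hG.one_le
  have hC20 : 0 ≤ C₂ := by linarith
  have hε0 := hf.eps
  set f : E n → ℝ := fun y => gn (G y) with hfd
  set pg : E n → ℝ := PG G (nb (B K) (μ K)) with hpg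
  have hpg0 : ∀ y, 0 ≤ pg y := by
    intro y
    rw [hpg]
    unfold PG
    exact Set.indicator_nonneg (fun _ _ => Real.sqrt_nonneg _) _
  have hp2 : ∀ k, 0 < p2 k := fun k => by unfold p2; positivity
  have hI0 : ∀ k, 0 ≤ p2 k ^ n * ∫ y in ball x (1 / p2 k), (pg y + f y * (ε + NN f K k y)) := by
    intro k
    refine mul_nonneg (pow_nonneg (hp2 k).le _) (setIntegral_nonneg measurableSet_ball
      fun y _ => ?_)
    exact add_nonneg (hpg0 y) (mul_nonneg (hf.nonneg y) (add_nonneg hε0 (NN_nonneg hf K k y)))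
  set S : ℕ → ℝ := fun k => if k < K then
      Cw * (aa f k x * (p2 k ^ n * ∫ y in ball x (1 / p2 k), (pg y + f y * (ε + NN f K k y))))
    else (Cz * aa f k x) * (Cz * p2 k * aa f k x) with hS
  have hS0 : ∀ k, 0 ≤ S k := by
    intro k
    have ha := (AA_nonneg hf k x).2.1
    rw [hS]
    dsimp only
    split_ifs
    · exact mul_nonneg (by linarith) (mul_nonneg ha (hI0 k))
    · have := (hp2 k).le
      positivity
  have hw : ∀ k, ∀ s ∈ Icc (0:ℝ) 1,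
      wedge (zz π (ubar φ u k) (ubar φ u (k + 1)) x s)
        (pp π (ubar φ u k) (ubar φ u (k + 1)) x (ev i) s) ≤ S k := by
    intro k s hs
    rw [hS]
    dsimp only
    split_ifs with hk
    · exact hwedge u G ε B μ hsol hε hf hG k K hk x hx i s hs
    · obtain ⟨h1, h2, h3⟩ := hzz u G ε B μ hf hG k x hx4 i s hs
      refine (wedge_le_mul _ _).trans ?_
      exact mul_le_mul h2 h3 (norm_nonneg _)
        (mul_nonneg (by linarith) (AA_nonneg hf k x).2.1)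
  have hch := chain_rr hC2 (ubar φ u) B μ hG.step x hx4 (ev i) S hS0 hw 0 K (Nat.zero_le K)
  have hexp : ∀ k, Real.exp (C₂ * ∑ l ∈ Finset.Ico k K, ‖ubar φ u (l + 1) x - ubar φ u l x‖) ≤
      Real.exp (C₂ ^ 2 * NN f K k x) := by
    intro k
    apply Real.exp_le_exp.2
    have h1 : ∑ l ∈ Finset.Ico k K, ‖ubar φ u (l + 1) x - ubar φ u l x‖ ≤
        ∑ l ∈ Finset.Ico k K, C₂ * AA f l x := by
      refine Finset.sum_le_sum fun l _ => ?_
      exact (hG.dif l x hx4).trans (mul_le_mul_of_nonneg_left (AA_nonneg hf l x).2.2.1 hC20)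
    rw [← Finset.mul_sum] at h1
    have h2 := mul_le_mul_of_nonneg_left h1 hC20
    calc _ ≤ _ := h2
      _ = C₂ ^ 2 * NN f K k x := by unfold NN; ring
  have hr0 : rr π (ubar φ u 0) (B 0) (μ 0) x (ev i) ≤ C₂ * ε * AA f 0 x := hG.init_r x hx4 i
  have hA0 := (AA_nonneg hf 0 x).1
  have t1 : Real.exp (C₂ * ∑ l ∈ Finset.Ico 0 K, ‖ubar φ u (l + 1) x - ubar φ u l x‖) *
      rr π (ubar φ u 0) (B 0) (μ 0) x (ev i) ≤
      C₂ * (ε * AA f 0 x * Real.exp (C₂ ^ 2 * NN f K 0 x)) := by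
    have h1 : Real.exp (C₂ * ∑ l ∈ Finset.Ico 0 K, ‖ubar φ u (l + 1) x - ubar φ u l x‖) *
        rr π (ubar φ u 0) (B 0) (μ 0) x (ev i) ≤
        Real.exp (C₂ * ∑ l ∈ Finset.Ico 0 K, ‖ubar φ u (l + 1) x - ubar φ u l x‖) *
        (C₂ * ε * AA f 0 x) := mul_le_mul_of_nonneg_left hr0 (Real.exp_pos _).le
    have h2 := mul_le_mul_of_nonneg_right (hexp 0)
      (show 0 ≤ C₂ * ε * AA f 0 x from mul_nonneg (mul_nonneg hC20 hε0) hA0)
    calc _ ≤ _ := h1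
      _ ≤ _ := h2
      _ = _ := by ring
  have t2 : ∑ k ∈ Finset.Ico 0 K,
      Real.exp (C₂ * ∑ l ∈ Finset.Ico k K, ‖ubar φ u (l + 1) x - ubar φ u l x‖) * S k ≤
      Cw * ∑ k ∈ Finset.range K, Real.exp (C₂ ^ 2 * NN f K k x) * aa f k x *
      (p2 k ^ n * ∫ y in ball x (1 / p2 k), (pg y + f y * (ε + NN f K k y))) := by
    rw [Finset.range_eq_Ico, Finset.mul_sum]
    refine Finset.sum_le_sum fun k hk => ?_
    have hk' : k < K := (Finset.mem_Ico.1 hk).2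
    have h1 := mul_le_mul_of_nonneg_right (hexp k) (hS0 k)
    refine h1.trans_eq ?_
    rw [hS]
    dsimp only
    rw [if_pos hk']
    ring
  have hTT : TT f pg ε (C₂ ^ 2) K x = ε * AA f 0 x * Real.exp (C₂ ^ 2 * NN f K 0 x) +
      ∑ k ∈ Finset.range K, Real.exp (C₂ ^ 2 * NN f K k x) * aa f k x *
      (p2 k ^ n * ∫ y in ball x (1 / p2 k), (pg y + f y * (ε + NN f K k y))) := rfl
  have q1 : 0 ≤ ε * AA f 0 x * Real.exp (C₂ ^ 2 * NN f K 0 x) :=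
    mul_nonneg (mul_nonneg hε0 hA0) (Real.exp_pos _).le
  have q2 : 0 ≤ ∑ k ∈ Finset.range K, Real.exp (C₂ ^ 2 * NN f K k x) * aa f k x *
      (p2 k ^ n * ∫ y in ball x (1 / p2 k), (pg y + f y * (ε + NN f K k y))) :=
    Finset.sum_nonneg fun k _ => mul_nonneg (mul_nonneg (Real.exp_pos _).le
      (AA_nonneg hf k x).2.1) (hI0 k)
  rw [hTT, abs_of_nonneg hC20]
  have t2' := mul_le_mul_of_nonneg_left t2 hC20
  generalize ∑ k ∈ Finset.range K, Real.exp (C₂ ^ 2 * NN f K k x) * aa f k x *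
      (p2 k ^ n * ∫ y in ball x (1 / p2 k), (pg y + f y * (ε + NN f K k y))) = Z at *
  generalize ε * AA f 0 x * Real.exp (C₂ ^ 2 * NN f K 0 x) = Y at *
  have q3 : C₂ * Y ≤ C₂ * Cw * Y := by
    have : C₂ ≤ C₂ * Cw := le_mul_of_one_le_right hC20 hCw
    exact mul_le_mul_of_nonneg_right this q1
  have q4 : (C₂ * Cw + 1) * (Y + Z) = C₂ * Cw * Y + C₂ * (Cw * Z) + (Y + Z) := by ring
  rw [q4]
  linarith

theorem b_bd {n m : ℕ} {φ : E n → ℝ} {N : Set (E m)} {π : E m → E m} {δ C₂ ε : ℝ}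
    {u : E n → E m} {G : E n → Fin n → E m} {B : ℕ → E n → E m} {μ : ℕ → E n → ℝ}
    (hf : Mor (fun x => gn (G x)) ε) (hG : GD N π δ φ u (fun x => gn (G x)) ε C₂ B μ)
    (K : ℕ) (hK : 1 ≤ K) (x : E n) (hx : x ∈ ball (0 : E n) 2) :
    ‖nb (B K) (μ K) x‖ ≤ 9 * C₂ ^ 2 * NN (fun y => gn (G y)) K 0 x := by
  have hx4 : x ∈ ball (0 : E n) 4 := ball_subset_ball (by norm_num) hx
  have hC2 : 1 ≤ C₂ := hG.one_le
  have h1 := (V_chain hf hG 0 K (Nat.zero_le K) x hx4).1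
  have h2 := hG.init_b x hx
  set f : E n → ℝ := fun y => gn (G y) with hfd
  have h3 : AA f 0 x ≤ NN f K 0 x := by
    unfold NN
    exact Finset.single_le_sum (f := fun k => AA f k x) (fun k _ => (AA_nonneg hf k x).1)
      (Finset.mem_Ico.2 ⟨le_rfl, by omega⟩)
  have hN := NN_nonneg hf K 0 x
  have h4 : ‖nb (B K) (μ K) x‖ ≤ ‖nb (B 0) (μ 0) x - nb (B K) (μ K) x‖ + ‖nb (B 0) (μ 0) x‖ := by
    have h5 := norm_sub_le (nb (B 0) (μ 0) x) (nb (B 0) (μ 0) x - nb (B K) (μ K) x)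
    rw [sub_sub_cancel] at h5
    linarith
  have h5 := abs_nonneg ((μ 0 x)⁻¹ - (μ K x)⁻¹)
  have h6 : C₂ * AA f 0 x ≤ C₂ ^ 2 * NN f K 0 x := by
    have h7 : C₂ ≤ C₂ ^ 2 := by nlinarith
    exact mul_le_mul h7 h3 (AA_nonneg hf 0 x).1 (by positivity)
  linarith

end H60NH
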