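import Pool.Agent.H60.NH.OSeq
import Pool.Agent.H60.NH.GCons
import Pool.Agent.H60.NH.PBd
import Pool.Agent.H60.NH.PMono
import Pool.Agent.H60.NH.NCont
import Pool.Agent.H60.NH.MSmooth
import Pool.Agent.H60.NH.LWedge

/-!
# [H60 NH PSEQ] Existence of the gauge data over the mollified maps

`f = gn ∘ G`, `A_k = AA f k`, `a_k = aa f k <= A_k <= 8^(n-1) ε` (`AA_nonneg`), `C₃ = 3 n M`. For `x ∈ ball 0 4`, all
`k`: the bounds of `ubar_all`; all of them are small for small `ε`. Put `p₀ = π (ubar 0 0) ∈ N`,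
`V 0 = const p₀`, `V (k+1) = ubar k`; by `ubar_all`, `ubar_zero`, for small `ε` the hypotheses of `gauge_seq`
(`Ω = ball 0 4`, which gives `C₁`) hold for `V`: `infDist < δ`, `‖V (j+1) x - V j x‖ < δ`.
Let `B'`, `μ'` be the gauges, `B k = B' (k+1)`, `μ k = μ' (k+1)`. `step` with `C₂ >= C₁` by `StepOK.mono`.
`init_b`: for `x ∈ ball 0 2`, by `chain_b` (`j = 0, k = 1`; `B' 0 = 0`) `‖nb‖ <= 8 C₁ ‖ubar 0 x - p₀‖ <= C AA f 0 x`
(`ubar_zero`). (`C₁ ‖V (j+1) x - V j x‖ <= 1/2` for small `ε`.)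
`init_r`: the step from `V 0` to `V 1`: `rr π (V 0) (B' 0) (μ' 0) x h = 0` (`V 0` constant, `B' 0 = 0`, `μ' 0 = 1`, so
`pU = 0`, `calE = 0`, `cale = 0`), so `StepOK` gives `rr <= exp(C₁ δ) C₁ S` for every `S` that bounds
`wedge (zz ..) (pp ..) <= ‖zz‖ ‖pp‖ <= C ‖ubar 0 x - p₀‖ · C ‖fderiv (ubar 0) x (ev i)‖ <= C ε a_0(x)`
(`wedge_le_mul`, `bd1`; the segment stays in `{infDist < 2 δ}`; `ubar_zero`, `ubar_all`), `a_0 <= A_0`.
All constants depend on `n, N, π, δ, C, M` only.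
-/

set_option autoImplicit false

namespace H60NH

open MeasureTheory Metric Set Filter Topology
open scoped ENNReal NNReal ContDiff

private theorem pseq_rr0 {n m : ℕ} (π : E m → E m) (p₀ : E m) (B : E n → E m) (μ : E n → ℝ)
    (hB : ∀ x, B x = 0) (hμ : ∀ x, μ x = 1) (x h : E n) :
    rr π (fun _ => p₀) B μ x h = 0 := by
  have hB' : B = fun _ => 0 := funext hB
  have hμ' : μ = fun _ => 1 := funext hμ
  have h1 : pU π (fun _ : E n => p₀) x h = 0 := by
    unfold pU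
    rw [fderiv_const_apply]
    rfl
  unfold rr calE cale
  rw [h1, hB', hμ', fderiv_const_apply, fderiv_const_apply]
  simp

private theorem pseq_wedge {n m : ℕ} {N : Set (E m)} {π : E m → E m} {δ C : ℝ}
    (hT : TC N π δ C) (p₀ : E m) (hp : p₀ ∈ N) (W : E n → E m) (x h : E n) (a b : ℝ)
    (ha : ‖W x - p₀‖ ≤ a) (hδ : a < δ) (hb : ‖fderiv ℝ W x h‖ ≤ b) (s : ℝ)
    (hs : s ∈ Icc (0:ℝ) 1) :
    wedge (zz π (fun _ => p₀) W x s) (pp π (fun _ => p₀) W x h s) ≤ (C * a) * (C * b) := by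
  have hC : 0 ≤ C := zero_le_one.trans hT.one_le
  have h1 : infDist (gam (fun _ : E n => p₀) W x s) N < 4 * δ := by
    have h2 : infDist (gam (fun _ : E n => p₀) W x s) N ≤ dist (gam (fun _ : E n => p₀) W x s) p₀ :=
      infDist_le_dist_of_mem hp
    have h3 : dist (gam (fun _ : E n => p₀) W x s) p₀ ≤ ‖W x - p₀‖ := by
      rw [dist_eq_norm]
      unfold gam
      rw [add_sub_cancel_left, norm_smul, Real.norm_eq_abs, abs_of_nonneg hs.1]
      exact mul_le_of_le_one_left (norm_nonneg _) hs.2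
    have := hT.pos
    linarith
  have h4 := hT.bd1 _ h1
  have h5 : ‖zz π (fun _ => p₀) W x s‖ ≤ C * a := by
    unfold zz
    exact (ContinuousLinearMap.le_opNorm _ _).trans
      (mul_le_mul h4 ha (norm_nonneg _) hC)
  have h6 : ‖pp π (fun _ => p₀) W x h s‖ ≤ C * b := by
    unfold pp
    refine (ContinuousLinearMap.le_opNorm _ _).trans (mul_le_mul h4 ?_ (norm_nonneg _) hC)
    rw [fderiv_const_apply]
    simp only [_root_.zero_apply, zero_add, sub_zero]
    rw [norm_smul, Real.norm_eq_abs, abs_of_nonneg hs.1]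
    exact (mul_le_of_le_one_left (norm_nonneg _) hs.2).trans hb
  exact (wedge_le_mul _ _).trans
    (mul_le_mul h5 h6 (norm_nonneg _) ((norm_nonneg _).trans h5))

theorem exists_GD {n m : ℕ} (hn : 2 ≤ n) {φ : E n → ℝ} {Θ : Fin n → E n → ℝ} {M : ℝ}
    (hφ : Moll φ Θ M) {N : Set (E m)} {π : E m → E m} {δ C : ℝ} (hT : TC N π δ C) :
    ∃ ε₁ C₂ : ℝ, 0 < ε₁ ∧ 1 ≤ C₂ ∧ ∀ (u : E n → E m) (G : E n → Fin n → E m),
      Sol N π 64 u G → ∀ ε : ℝ, ε ≤ ε₁ → Mor (fun x => gn (G x)) ε →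
      ∃ (B : ℕ → E n → E m) (μ : ℕ → E n → ℝ),
        GD N π δ φ u (fun x => gn (G x)) ε C₂ B μ := by
  obtain ⟨C₁, hC₁, hseq⟩ := gauge_seq hT n
  have hM := hφ.one_le
  have hC := hT.one_le
  have hδ := hT.pos
  have hn' : (2 : ℝ) ≤ n := by exact_mod_cast hn
  have hnM : 1 ≤ (n : ℝ) * M := by nlinarith
  have h8 : (1 : ℝ) ≤ 8 ^ (n - 1) := one_le_pow₀ (by norm_num)
  have h4 : (1 : ℝ) ≤ 4 ^ (n + 1) := one_le_pow₀ (by norm_num)
  have h48 : (4 : ℝ) ^ (n - 1) ≤ 8 ^ (n - 1) := pow_le_pow_left₀ (by norm_num) (by norm_num) _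
  set L : ℝ := 4 ^ (n + 1) * n * M + 3 * n * M * 8 ^ (n - 1) with hL
  set C₂ : ℝ := C₁ * (40 * (n * M)) + 2 * C₁ * (C * C) * (4 ^ (n + 1) * n * M) * (3 * n * M)
    + 3 * n * M with hC₂
  have hLa : 0 < 4 ^ (n + 1) * (n : ℝ) * M := by positivity
  have hLb : 0 < 3 * (n : ℝ) * M * 8 ^ (n - 1) := by positivity
  have hLpos : 0 < L := by rw [hL]; linarith
  have hC₁pos : 0 < C₁ := by linarith
  have ht2 : 0 ≤ 2 * C₁ * (C * C) * (4 ^ (n + 1) * n * M) * (3 * n * M) := by positivity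
  have ht3 : 0 ≤ 3 * (n : ℝ) * M := by positivity
  have hC₂₁ : C₁ ≤ C₂ := by
    have : C₁ * 1 ≤ C₁ * (40 * (n * M)) := mul_le_mul_of_nonneg_left (by linarith) hC₁pos.le
    linarith
  have hC₂₃ : 3 * n * M ≤ C₂ := by
    have : 0 ≤ C₁ * (40 * (n * M)) := by positivity
    linarith
  have hC₂b : C₁ * (40 * (n * M)) ≤ C₂ := by linarith
  have hC₂r : 2 * C₁ * (C * C) * (4 ^ (n + 1) * n * M) * (3 * n * M) ≤ C₂ := by
    have : 0 ≤ C₁ * (40 * (n * M)) := by positivity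
    linarith
  have hC₂1 : 1 ≤ C₂ := hC₁.trans hC₂₁
  have hC₂pos : 0 < C₂ := by linarith
  refine ⟨min δ 1 / (4 * C₂ * L), C₂, by positivity, hC₂1, ?_⟩
  intro u G hS ε hε hf
  have hε0 := hf.eps
  have hk1 : C₂ * (L * ε) ≤ min δ 1 / 4 := by
    have h1 : ε * (4 * C₂ * L) ≤ min δ 1 := by
      rwa [le_div_iff₀ (by positivity)] at hε
    linarith
  have hLε0 : 0 ≤ L * ε := by positivity
  have hk2 : L * ε ≤ C₂ * (L * ε) := le_mul_of_one_le_left hLε0 hC₂1
  have hk3 : L * ε < δ := by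
    have := min_le_left δ 1
    linarith
  have hk4 : C₂ * (L * ε) ≤ 1 / 2 := by
    have := min_le_right δ 1
    linarith
  have hLε1 : 4 ^ (n + 1) * n * M * ε ≤ L * ε := mul_le_mul_of_nonneg_right (by linarith) hε0
  have hLε2 : 3 * n * M * (8 ^ (n - 1) * ε) ≤ L * ε := by
    rw [← mul_assoc]
    exact mul_le_mul_of_nonneg_right (by linarith) hε0
  have hz := ubar_zero hn hφ hT hS hf (by
    refine lt_of_le_of_lt ?_ hk3
    refine le_trans ?_ hLε2
    rw [mul_assoc]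
    exact mul_le_mul_of_nonneg_left (mul_le_mul_of_nonneg_right h48 hε0) ht3)
  have hall := fun k x hx => ubar_all hn hφ hT hS hf k x hx
  obtain ⟨hp0, hz1, hz2⟩ := hz
  set p₀ := π (ubar φ u 0 0) with hp₀
  have hAA := fun k x => AA_nonneg hf k x
  have haa : ∀ k x, aa (fun y => gn (G y)) k x ≤ 8 ^ (n - 1) * ε := fun k x =>
    (hAA k x).2.2.1.trans (hAA k x).2.2.2
  have hsm : ∀ k, ContDiff ℝ ∞ (ubar φ u k) := fun k =>
    ubar_smooth hφ u (sol_int (by omega) hS).1 k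
  have htube : ∀ k, ∀ x ∈ ball (0 : E n) 4, infDist (ubar φ u k x) N < δ := by
    intro k x hx
    have h1 := (hall k x hx).1
    have h2 := mul_le_mul_of_nonneg_left (haa k x) ht3
    linarith
  have hdifL : ∀ k, ∀ x ∈ ball (0 : E n) 4,
      ‖ubar φ u (k + 1) x - ubar φ u k x‖ ≤ L * ε := by
    intro k x hx
    have h1 := (hall k x hx).2.1
    have h2 := mul_le_mul_of_nonneg_left (haa k x) ht3
    linarith
  -- the sequence of maps
  let V : ℕ → E n → E m := fun j => Nat.casesOn j (fun _ => p₀) (fun k => ubar φ u k)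
  have hV0 : V 0 = fun _ => p₀ := rfl
  have hVs : ∀ k, V (k + 1) = ubar φ u k := fun k => rfl
  have hVd : ∀ j, ∀ x ∈ ball (0 : E n) 4, ‖V (j + 1) x - V j x‖ ≤ L * ε := by
    intro j x hx
    rcases j with _ | k
    · exact (hz1 x hx).trans hLε1
    · exact hdifL k x hx
  obtain ⟨B', μ', hG, hinit, hstep⟩ := hseq (ball 0 4) isOpen_ball V
    (by
      intro j
      rcases j with _ | k
      · exact contDiffOn_const
      · exact (hsm k).contDiffOn)
    (by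
      intro j x hx
      refine ⟨?_, lt_of_le_of_lt (hVd j x hx) hk3⟩
      rcases j with _ | k
      · have : infDist p₀ N = 0 := infDist_zero_of_mem hp0
        change infDist p₀ N < δ
        rw [this]
        exact hδ
      · exact htube k x hx)
  have hC₁d : ∀ x ∈ ball (0 : E n) 4, ∀ j, C₁ * ‖V (j + 1) x - V j x‖ ≤ 1 / 2 := by
    intro x hx j
    have h1 := hVd j x hx
    have h2 : C₁ * ‖V (j + 1) x - V j x‖ ≤ C₂ * (L * ε) :=
      mul_le_mul hC₂₁ h1 (norm_nonneg _) hC₂pos.le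
    linarith
  refine ⟨fun k => B' (k + 1), fun k => μ' (k + 1), ?_⟩
  refine
    { one_le := hC₂1
      gauge := fun k => hG (k + 1)
      step := fun k => StepOK.mono hC₁pos.le hC₂₁ (hG (k + 1)) (hstep (k + 1))
      smooth := hsm
      tube := fun k x hx => (hall k x hx).1.trans
        (mul_le_mul_of_nonneg_right hC₂₃ (hAA k x).2.1)
      tube' := htube
      dif := fun k x hx => (hall k x hx).2.1.trans
        (mul_le_mul_of_nonneg_right hC₂₃ (hAA k x).2.1)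
      dif' := fun k x hx => (mul_le_mul_of_nonneg_left (hdifL k x hx) hC₂pos.le).trans hk4
      dif'' := fun k x hx => lt_of_le_of_lt (hdifL k x hx) hk3
      der := fun k x hx i => ((hall k x hx).2.2 i).trans (by
        have h1 : 0 ≤ p2 k := by unfold p2; positivity
        exact mul_le_mul_of_nonneg_right (mul_le_mul_of_nonneg_right hC₂₃ h1) (hAA k x).2.1)
      init_b := ?_
      init_r := ?_ }
  · intro x hx
    have hx4 : x ∈ ball (0 : E n) 4 := ball_subset_ball (by norm_num) hx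
    have h1 := chain_b hC₁ V B' μ' hG hstep x hx4 (hC₁d x hx4) 0 1 zero_le_one
    rw [Nat.Ico_zero_eq_range, Finset.sum_range_one, (hinit x).1, smul_zero, sub_zero] at h1
    have h2 : ‖V (0 + 1) x - V 0 x‖ ≤ 5 * n * M * AA (fun y => gn (G y)) 0 x := hz2 x hx
    have h3 : ‖nb (B' (0 + 1)) (μ' (0 + 1)) x‖ ≤ 8 * C₁ * ‖V (0 + 1) x - V 0 x‖ :=
      le_trans (le_add_of_nonneg_right (abs_nonneg _)) h1
    calc ‖nb (B' (0 + 1)) (μ' (0 + 1)) x‖ ≤ 8 * C₁ * ‖V (0 + 1) x - V 0 x‖ := h3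
      _ ≤ 8 * C₁ * (5 * n * M * AA (fun y => gn (G y)) 0 x) :=
          mul_le_mul_of_nonneg_left h2 (by positivity)
      _ = C₁ * (40 * (n * M)) * AA (fun y => gn (G y)) 0 x := by ring
      _ ≤ C₂ * AA (fun y => gn (G y)) 0 x := mul_le_mul_of_nonneg_right hC₂b (hAA 0 x).1
  · intro x hx i
    have hA0 := (hAA 0 x).1
    have hp20 : p2 0 = 1 := by unfold p2; exact pow_zero _
    have hder : ‖fderiv ℝ (ubar φ u 0) x (ev i)‖ ≤ 3 * n * M * AA (fun y => gn (G y)) 0 x := by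
      refine ((hall 0 x hx).2.2 i).trans ?_
      rw [hp20, mul_one]
      exact mul_le_mul_of_nonneg_left (hAA 0 x).2.2.1 ht3
    have hw := fun s hs => pseq_wedge hT p₀ hp0 (ubar φ u 0) x (ev i) (4 ^ (n + 1) * n * M * ε)
      (3 * n * M * AA (fun y => gn (G y)) 0 x) (hz1 x hx) (lt_of_le_of_lt hLε1 hk3) hder s hs
    have h1 := (hstep 0 x hx).2.2 (ev i) _ hw
    have h2 : rr π (V 0) (B' 0) (μ' 0) x (ev i) = 0 :=
      pseq_rr0 π p₀ (B' 0) (μ' 0) (fun x => (hinit x).1) (fun x => (hinit x).2) x (ev i)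
    rw [h2, zero_add (C₁ * (C * (4 ^ (n + 1) * n * M * ε) *
      (C * (3 * n * M * AA (fun y => gn (G y)) 0 x))))] at h1
    have h3 : Real.exp (C₁ * ‖V (0 + 1) x - V 0 x‖) ≤ 2 := by
      have h4 := hC₁d x hx 0
      calc Real.exp (C₁ * ‖V (0 + 1) x - V 0 x‖) ≤ Real.exp (1 / 2) := Real.exp_le_exp.2 h4
        _ ≤ 2 := by
          have h5 := Real.exp_one_lt_d9
          have h6 : Real.exp (1 / 2) * Real.exp (1 / 2) = Real.exp 1 := by
            rw [← Real.exp_add]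
            norm_num
          nlinarith [Real.exp_pos (1 / 2)]
    have hS0 : 0 ≤ C₁ * (C * (4 ^ (n + 1) * n * M * ε) *
        (C * (3 * n * M * AA (fun y => gn (G y)) 0 x))) := by positivity
    calc rr π (ubar φ u 0) (B' (0 + 1)) (μ' (0 + 1)) x (ev i)
        ≤ Real.exp (C₁ * ‖V (0 + 1) x - V 0 x‖) * (C₁ * (C * (4 ^ (n + 1) * n * M * ε) *
          (C * (3 * n * M * AA (fun y => gn (G y)) 0 x)))) := h1
      _ ≤ 2 * (C₁ * (C * (4 ^ (n + 1) * n * M * ε) *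
          (C * (3 * n * M * AA (fun y => gn (G y)) 0 x)))) :=
          mul_le_mul_of_nonneg_right h3 hS0
      _ = 2 * C₁ * (C * C) * (4 ^ (n + 1) * n * M) * (3 * n * M) *
          (ε * AA (fun y => gn (G y)) 0 x) := by ring
      _ ≤ C₂ * (ε * AA (fun y => gn (G y)) 0 x) :=
          mul_le_mul_of_nonneg_right hC₂r (mul_nonneg hε0 hA0)
      _ = C₂ * ε * AA (fun y => gn (G y)) 0 x := by ring

end H60NH
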