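import Pool.Agent.H60.NH.PAvg
import Pool.Agent.H60.NH.LWedge

/-!
# [H60 NH PWEDGE] The area of the parallelogram at the step `k`

`x ∈ ball 0 2`, `k < K`, `γ = gam (ubar k) (ubar (k+1)) x s`, `z = zz .. x s = Dπ(γ)(ubar (k+1) x - ubar k x)`,
`p = pp .. x (ev i) s = Dπ(γ)((1-s) D ubar k x (ev i) + s D ubar (k+1) x (ev i))`, `b = nb (B k) (μ k) x`,
`J = p2 k ^ n ∫_{ball x (1/p2 k)} (PG + f (ε + NN f K k))`.
`wedge_le` (with `|b| <= 1`): `wedge z p <= 2 (perp z b ‖p‖ + ‖z‖ perp p b)`;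
`‖z‖ <= C a_k(x)`, `‖p‖ <= C p2 k a_k(x)` (`zz_bd`).
`ubar_diff`: `z = (p2 k)⁻¹ • ∑_j Dπ(γ) ∫ κ_j G_j`, `κ_j(y) = p2 k ^ n Θ_j(p2 k (x - y))`, so
`perp z b <= (p2 k)⁻¹ n C J` (`perp_avg`, `perp_add`, `perp_smul`).
`ubar_der`: `D ubar k x (ev i) = ∫ κ G_i` with `κ(y) = p2 k ^ n φ(p2 k (x-y))`, and
`D ubar (k+1) x (ev i) = ∫ κ' G_i` with `κ'(y) = p2 (k+1) ^ n φ(p2 (k+1) (x-y))`, bounded by
`2^n M p2 k ^ n`, zero outside `ball x (1/p2 k)`: both `perp (Dπ(γ) ∫ ..) b <= C J`, so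
`perp p b <= C J`. Together `wedge z p <= C a_k(x) J`.
(`M' = 2^n M` in `perp_avg`; `u` and `gn ∘ G` are integrable, `u, G` vanish outside `ball 0 64`: `Sol`.)
-/

set_option autoImplicit false

namespace H60NH

open MeasureTheory Metric Set Filter Topology
open scoped ENNReal NNReal ContDiff

private lemma p2_pos' (k : ℕ) : 0 < p2 k := by unfold p2; positivity

private lemma p2_one_le (k : ℕ) : 1 ≤ p2 k := by
  unfold p2
  exact one_le_pow₀ (by norm_num)

private lemma perp_zero {m : ℕ} (b : E m) : perp (0 : E m) b = 0 := by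
  have h := perp_smul 0 (0 : E m) b
  rwa [smul_zero, abs_zero, zero_mul] at h

private lemma perp_sum {m : ℕ} {ι : Type*} (s : Finset ι) (a : ι → E m) (b : E m)
    (hb : ‖b‖ ≤ 1) : perp (∑ j ∈ s, a j) b ≤ ∑ j ∈ s, perp (a j) b := by
  classical
  induction s using Finset.induction_on with
  | empty => rw [Finset.sum_empty, Finset.sum_empty, perp_zero]
  | insert j s hj ih =>
    rw [Finset.sum_insert hj, Finset.sum_insert hj]
    exact (perp_add _ _ b hb).trans (add_le_add le_rfl ih)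

theorem wedge_step {n m : ℕ} (hn : 2 ≤ n) {φ : E n → ℝ} {Θ : Fin n → E n → ℝ} {M : ℝ}
    (hφ : Moll φ Θ M) {N : Set (E m)} {π : E m → E m} {δ C : ℝ}
    (hT : TC N π δ C) (C₂ : ℝ) :
    ∃ ε₁ C₃ : ℝ, 0 < ε₁ ∧ 1 ≤ C₃ ∧ ∀ (u : E n → E m) (G : E n → Fin n → E m) (ε : ℝ)
      (B : ℕ → E n → E m) (μ : ℕ → E n → ℝ), Sol N π 64 u G → ε ≤ ε₁ →
      Mor (fun x => gn (G x)) ε →
      GD N π δ φ u (fun x => gn (G x)) ε C₂ B μ → ∀ k K : ℕ, k < K → ∀ x ∈ ball (0 : E n) 2, ∀ i,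
      ∀ s ∈ Icc (0:ℝ) 1,
      wedge (zz π (ubar φ u k) (ubar φ u (k + 1)) x s)
          (pp π (ubar φ u k) (ubar φ u (k + 1)) x (ev i) s) ≤
        C₃ * (aa (fun y => gn (G y)) k x * (p2 k ^ n *
          ∫ y in ball x (1 / p2 k), (PG G (nb (B K) (μ K)) y +
            gn (G y) * (ε + NN (fun z => gn (G z)) K k y)))) := by
  obtain ⟨εp, Cp, hεp, hCp, havg⟩ := perp_avg (φ := φ) hn hT C₂ (2 ^ n * M)
  obtain ⟨Cz, hCz, hzz⟩ := zz_bd (φ := φ) hn hT C₂
  refine ⟨εp, 2 * (n + 1) * (Cp * Cz), hεp, ?_, ?_⟩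
  · have h1 : 1 ≤ Cp * Cz := one_le_mul_of_one_le_of_one_le hCp hCz
    have h2 : (0 : ℝ) ≤ n := Nat.cast_nonneg n
    nlinarith
  intro u G ε B μ hsol hε hf hG k K hkK x hx i s hs
  have hx4 : x ∈ ball (0 : E n) 4 := ball_subset_ball (by norm_num) hx
  obtain ⟨hγ, hz, hp⟩ := hzz u G ε B μ hf hG k x hx4 i s hs
  have hM := hφ.one_le
  have hp2 := p2_pos' k
  have hxn : ‖x‖ < 2 := by rwa [mem_ball_zero_iff] at hx
  have hrad : ∀ j, ‖x‖ + 1 / p2 j < 64 := by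
    intro j
    have : 1 / p2 j ≤ 1 := by
      rw [div_le_one (p2_pos' j)]
      exact p2_one_le j
    linarith
  have hb := (nb_unit (hG.gauge k) x hx4).2.1
  set f : E n → ℝ := fun y => gn (G y) with hfd
  set J : ℝ := p2 k ^ n * ∫ y in ball x (1 / p2 k), (PG G (nb (B K) (μ K)) y +
            f y * (ε + NN f K k y)) with hJ
  have hJ0 : 0 ≤ J := by
    refine mul_nonneg (pow_nonneg hp2.le _) (setIntegral_nonneg measurableSet_ball
      fun y _ => ?_)
    refine add_nonneg ?_ (mul_nonneg (hf.nonneg y) (add_nonneg hf.eps (NN_nonneg hf K k y)))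
    unfold PG
    exact Set.indicator_nonneg (fun _ _ => Real.sqrt_nonneg _) _
  set γ : E m := gam (ubar φ u k) (ubar φ u (k + 1)) x s with hγd
  have ha := (AA_nonneg hf k x).2.1
  have hγ' : ‖γ - ubar φ u k x‖ ≤ C₂ * aa f k x := by
    rw [hγd]
    unfold gam
    rw [add_sub_cancel_left, norm_smul, Real.norm_eq_abs, abs_of_nonneg hs.1]
    refine (mul_le_of_le_one_left (norm_nonneg _) hs.2).trans (hG.dif k x hx4)
  have hker : ∀ κ : E n → ℝ, Measurable κ → (∀ y, |κ y| ≤ 2 ^ n * M * p2 k ^ n) →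
      (∀ y, y ∉ ball x (1 / p2 k) → κ y = 0) → ∀ j,
      perp (fderiv ℝ π γ (∫ y, κ y • G y j)) (nb (B k) (μ k) x) ≤ Cp * J := by
    intro κ h1 h2 h3 j
    exact havg u G ε B μ hε hf hsol.meas_G hG k K hkK.le x hx j γ hγ hγ' κ h1 h2 h3
  have hu : Integrable u := (sol_int (by omega) hsol).1
  have hM2 : M ≤ 2 ^ n * M := le_mul_of_one_le_left (by linarith) (one_le_pow₀ (by norm_num))
  have hout : ∀ y, y ∉ ball x (1 / p2 k) → 1 ≤ ‖p2 k • (x - y)‖ := by
    intro y hy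
    rw [mem_ball, not_lt, dist_comm, dist_eq_norm, div_le_iff₀ hp2] at hy
    rw [norm_smul, Real.norm_eq_abs, abs_of_pos hp2]
    linarith
  have hcont : ∀ (ψ : E n → ℝ) (c d : ℝ), Continuous ψ →
      Measurable (fun y => c * ψ (d • (x - y))) := fun ψ c d hψ => by
    have h1 : Continuous (fun y : E n => d • (x - y)) := by fun_prop
    exact (continuous_const.mul (hψ.comp h1)).measurable
  -- the velocity
  have hzp : perp (zz π (ubar φ u k) (ubar φ u (k + 1)) x s) (nb (B k) (μ k) x) ≤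
      (p2 k)⁻¹ * (n * (Cp * J)) := by
    have h1 := ubar_diff (by omega) hφ hsol.wg hu hsol.out_u hsol.out_G k x (hrad k)
    have h2 : zz π (ubar φ u k) (ubar φ u (k + 1)) x s =
        (p2 k)⁻¹ • ∑ j, fderiv ℝ π γ (∫ y, (p2 k ^ n * Θ j (p2 k • (x - y))) • G y j) := by
      unfold zz
      rw [h1, map_smul, map_sum]
    rw [h2, perp_smul, abs_of_pos (inv_pos.2 hp2)]
    refine mul_le_mul_of_nonneg_left ?_ (inv_nonneg.2 hp2.le)
    refine (perp_sum _ _ _ hb).trans ?_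
    have h3 : ∀ j ∈ (Finset.univ : Finset (Fin n)),
        perp (fderiv ℝ π γ (∫ y, (p2 k ^ n * Θ j (p2 k • (x - y))) • G y j))
          (nb (B k) (μ k) x) ≤ Cp * J := by
      intro j _
      refine hker (fun y => p2 k ^ n * Θ j (p2 k • (x - y))) (hcont _ _ _ (hφ.smoothT j).continuous)
        (fun y => ?_) (fun y hy => ?_) j
      · rw [abs_mul, abs_of_nonneg (pow_nonneg hp2.le n), mul_comm]
        exact mul_le_mul_of_nonneg_right ((hφ.bdT j _).trans hM2) (pow_nonneg hp2.le n)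
      · have := hout y hy
        rw [hφ.suppT j _ (by linarith), mul_zero]
    refine (Finset.sum_le_sum h3).trans_eq ?_
    rw [Finset.sum_const, Finset.card_univ, Fintype.card_fin, nsmul_eq_mul]
  -- the derivative
  have hd0 : perp (fderiv ℝ π γ (fderiv ℝ (ubar φ u k) x (ev i))) (nb (B k) (μ k) x) ≤
      Cp * J := by
    rw [ubar_der hφ hsol.wg hu hsol.out_u hsol.out_G k x (hrad k) i]
    refine hker (fun y => p2 k ^ n * φ (p2 k • (x - y))) (hcont _ _ _ hφ.smooth.continuous)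
        (fun y => ?_) (fun y hy => ?_) i
    · rw [abs_mul, abs_of_nonneg (pow_nonneg hp2.le n), mul_comm]
      exact mul_le_mul_of_nonneg_right ((hφ.bd _).trans hM2) (pow_nonneg hp2.le n)
    · have := hout y hy
      rw [hφ.supp _ (by linarith), mul_zero]
  have hp2s : p2 (k + 1) = 2 * p2 k := by unfold p2; rw [pow_succ]; ring
  have hd1 : perp (fderiv ℝ π γ (fderiv ℝ (ubar φ u (k + 1)) x (ev i))) (nb (B k) (μ k) x) ≤
      Cp * J := by
    rw [ubar_der hφ hsol.wg hu hsol.out_u hsol.out_G (k + 1) x (hrad (k + 1)) i]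
    refine hker (fun y => p2 (k + 1) ^ n * φ (p2 (k + 1) • (x - y)))
        (hcont _ _ _ hφ.smooth.continuous) (fun y => ?_) (fun y hy => ?_) i
    · rw [abs_mul, abs_of_nonneg (pow_nonneg (p2_pos' _).le n), hp2s, mul_pow]
      have h1 := mul_le_mul_of_nonneg_left (hφ.bd ((2 * p2 k) • (x - y)))
        (show 0 ≤ 2 ^ n * p2 k ^ n by positivity)
      calc _ ≤ _ := h1
        _ = _ := by ring
    · have h1 := hout y hy
      rw [hp2s, mul_smul, hφ.supp _ ?_, mul_zero]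
      rw [norm_smul (2 : ℝ) (p2 k • (x - y)), Real.norm_eq_abs, abs_of_pos (by norm_num : (0 : ℝ) < 2)]
      linarith
  have hpp : perp (pp π (ubar φ u k) (ubar φ u (k + 1)) x (ev i) s) (nb (B k) (μ k) x) ≤
      Cp * J := by
    have h1 : pp π (ubar φ u k) (ubar φ u (k + 1)) x (ev i) s =
        (1 - s) • fderiv ℝ π γ (fderiv ℝ (ubar φ u k) x (ev i)) +
        s • fderiv ℝ π γ (fderiv ℝ (ubar φ u (k + 1)) x (ev i)) := by
      unfold pp
      rw [map_add, map_smul, map_sub]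
      module
    rw [h1]
    refine (perp_add _ _ _ hb).trans ?_
    rw [perp_smul, perp_smul, abs_of_nonneg hs.1, abs_of_nonneg (sub_nonneg.2 hs.2)]
    have h2 := mul_le_mul_of_nonneg_left hd0 (sub_nonneg.2 hs.2)
    have h3 := mul_le_mul_of_nonneg_left hd1 hs.1
    calc _ ≤ (1 - s) * (Cp * J) + s * (Cp * J) := add_le_add h2 h3
      _ = Cp * J := by ring
  refine (wedge_le _ _ (nb (B k) (μ k) x) hb).trans ?_
  have hCJ : 0 ≤ Cp * J := mul_nonneg (by linarith) hJ0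
  have k1 : perp (zz π (ubar φ u k) (ubar φ u (k + 1)) x s) (nb (B k) (μ k) x) *
      ‖pp π (ubar φ u k) (ubar φ u (k + 1)) x (ev i) s‖ ≤
      (p2 k)⁻¹ * (n * (Cp * J)) * (Cz * p2 k * aa f k x) :=
    mul_le_mul hzp hp (norm_nonneg _) (mul_nonneg (inv_nonneg.2 hp2.le)
      (mul_nonneg (Nat.cast_nonneg _) hCJ))
  have k2 : ‖zz π (ubar φ u k) (ubar φ u (k + 1)) x s‖ *
      perp (pp π (ubar φ u k) (ubar φ u (k + 1)) x (ev i) s) (nb (B k) (μ k) x) ≤
      Cz * aa f k x * (Cp * J) :=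
    mul_le_mul hz hpp (perp_nonneg _ _) (mul_nonneg (by linarith) ha)
  have k3 : (p2 k)⁻¹ * (n * (Cp * J)) * (Cz * p2 k * aa f k x) =
      n * (Cp * Cz) * (aa f k x * J) := by
    field_simp
  rw [k3] at k1
  have k4 : 2 * ((n : ℝ) + 1) * (Cp * Cz) * (aa f k x * J) =
      2 * (n * (Cp * Cz) * (aa f k x * J) + Cz * aa f k x * (Cp * J)) := by ring
  rw [k4]
  linarith

end H60NH
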