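import Pool.Agent.H60.NH.NMeas

/-!
# [H60 NH RA] The `L^s` norm is controlled by the good set

`B = ball 0 1 = (B ∩ S) ∪ (B \ S)`, `B \ S ⊆ {x ∈ B | ofReal c < Ninf f x}`, `s < n`, `1 - s/n = 1/(2n)`. Hölder:
`∫_{B ∩ S} f^s <= (∫_{B∩S} f^n)^(s/n) (vb n)^(1/(2n))`,
`∫_{B \ S} f^s <= (∫ f^n)^(s/n) |B \ S|^(1/(2n)) <= (∫ f^n)^(s/n) (C₀ F^(2n))^(1/(2n))`, `F = ∫ f^s` (`Ninf_vol`).
-/

set_option autoImplicit false

namespace H60NH

open MeasureTheory Metric Set Filter Topology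
open scoped ENNReal NNReal ContDiff

theorem RA_hold {n : ℕ} (hn : 2 ≤ n) {f : E n → ℝ} {ε : ℝ} (hf : Mor f ε) (A : Set (E n)) (V : ℝ) (hV : 0 ≤ V)
    (hA : volume A ≤ ENNReal.ofReal V) :
    ∫ x in A, f x ^ sn n ≤ (∫ x in A, f x ^ n) ^ (sn n / n) * V ^ (1 / (2 * n : ℝ)) := by
  obtain ⟨hs1, -⟩ := sn_bd hn
  have hs0 : 0 < sn n := by linarith
  have hnR : (2 : ℝ) ≤ n := by exact_mod_cast hn
  have hn0 : (0 : ℝ) < n := by linarith
  have hfin : volume A < ⊤ := lt_of_le_of_lt hA ENNReal.ofReal_lt_top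
  have : IsFiniteMeasure (volume.restrict A) := ⟨by rw [Measure.restrict_apply_univ]; exact hfin⟩
  obtain ⟨t, ht⟩ : ∃ t : ℝ, t = 1 / (2 * n : ℝ) := ⟨_, rfl⟩
  have ht0 : 0 < t := by rw [ht]; positivity
  have ht1 : t < 1 := by
    rw [ht, div_lt_one (by positivity)]
    linarith
  have h1t : 1 - t = sn n / n := by
    rw [ht]
    unfold sn
    field_simp
  have h1 := hold_w (ν := volume.restrict A) (a := fun x => f x ^ n) (b := fun _ => (1 : ℝ))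
    hf.intn.integrableOn (integrable_const _) (fun x => pow_nonneg (hf.nonneg x) _) (fun _ => zero_le_one) ht0 ht1
  have h2 : ∀ x, (f x ^ n) ^ (1 - t) * (1 : ℝ) ^ t = f x ^ sn n := by
    intro x
    rw [Real.one_rpow, mul_one, ← Real.rpow_natCast (f x) n, ← Real.rpow_mul (hf.nonneg x), h1t]
    congr 1
    field_simp
  simp_rw [h2] at h1
  rw [setIntegral_const, smul_eq_mul, mul_one, h1t] at h1
  rw [← ht]
  refine h1.trans ?_
  have h3 : 0 ≤ ∫ x in A, f x ^ n := integral_nonneg fun x => pow_nonneg (hf.nonneg x) _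
  refine mul_le_mul_of_nonneg_left ?_ (Real.rpow_nonneg h3 _)
  refine Real.rpow_le_rpow measureReal_nonneg ?_ ht0.le
  rw [Measure.real]
  exact ENNReal.toReal_le_of_le_ofReal hV hA

theorem RA_ineq (n : ℕ) (hn : 2 ≤ n) (c : ℝ) (hc : 0 < c) : ∃ C₀ : ℝ, 1 ≤ C₀ ∧
    ∀ (f : E n → ℝ) (ε : ℝ), Mor f ε → ∀ S : Set (E n), MeasurableSet S →
      (∀ x ∈ ball (0 : E n) 1, Ninf f x ≤ ENNReal.ofReal c → x ∈ S) →
      ∫ x in ball (0 : E n) 1, f x ^ sn n ≤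
        C₀ * (∫ x in ball (0 : E n) 1 ∩ S, f x ^ n) ^ (sn n / n)
        + C₀ * (∫ x, f x ^ n) ^ (sn n / n) * ∫ x, f x ^ sn n := by
  obtain ⟨C₁, hC₁, hvol⟩ := Ninf_vol n hn c hc
  have hvb := vb_pos n
  obtain ⟨hs1, -⟩ := sn_bd hn
  have hs0 : 0 < sn n := by linarith
  have hnR : (2 : ℝ) ≤ n := by exact_mod_cast hn
  have hn0 : (0 : ℝ) < n := by linarith
  refine ⟨max 1 (max (vb n ^ (1 / (2 * n : ℝ))) (C₁ ^ (1 / (2 * n : ℝ)))), le_max_left _ _, ?_⟩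
  intro f ε hf S hS hsub
  have hfs := fs_int hn hf
  have hfs0 : ∀ y, 0 ≤ f y ^ sn n := fun y => Real.rpow_nonneg (hf.nonneg y) _
  obtain ⟨F, hF⟩ : ∃ F : ℝ, F = ∫ x, f x ^ sn n := ⟨_, rfl⟩
  have hF0 : 0 ≤ F := by rw [hF]; exact integral_nonneg hfs0
  have hv := hvol f ε hf
  rw [← hF] at hv ⊢
  have h0 : ∀ A : Set (E n), 0 ≤ ∫ x in A, f x ^ n := fun A =>
    integral_nonneg fun x => pow_nonneg (hf.nonneg x) _
  have h0' : 0 ≤ ∫ x, f x ^ n := integral_nonneg fun x => pow_nonneg (hf.nonneg x) _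
  -- the good part
  have h1 : ∫ x in ball (0 : E n) 1 ∩ S, f x ^ sn n ≤
      (∫ x in ball (0 : E n) 1 ∩ S, f x ^ n) ^ (sn n / n) * vb n ^ (1 / (2 * n : ℝ)) := by
    apply RA_hold hn hf _ _ hvb.le
    refine (measure_mono Set.inter_subset_left).trans (le_of_eq ?_)
    rw [vol_ball (0 : E n) 1 one_pos, one_pow, mul_one]
  -- the bad part
  have h2 : ∫ x in ball (0 : E n) 1 \ S, f x ^ sn n ≤
      (∫ x in ball (0 : E n) 1 \ S, f x ^ n) ^ (sn n / n) * (C₁ * F ^ (2 * n)) ^ (1 / (2 * n : ℝ)) := by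
    apply RA_hold hn hf _ _ (by positivity)
    refine le_trans (measure_mono ?_) hv
    rintro x ⟨hx1, hx2⟩
    refine ⟨hx1, ?_⟩
    by_contra h
    exact hx2 (hsub x hx1 (not_lt.1 h))
  have h3 : (C₁ * F ^ (2 * n)) ^ (1 / (2 * n : ℝ)) = C₁ ^ (1 / (2 * n : ℝ)) * F := by
    rw [Real.mul_rpow (by positivity) (by positivity)]
    congr 1
    have h4 : (1 / (2 * n : ℝ)) = (((2 * n : ℕ) : ℝ))⁻¹ := by
      push_cast
      rw [one_div]
    rw [h4, Real.pow_rpow_inv_natCast hF0 (by omega)]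
  rw [h3] at h2
  rw [← integral_inter_add_sdiff hS hfs.integrableOn]
  refine add_le_add ?_ ?_
  · refine h1.trans ?_
    rw [mul_comm]
    exact mul_le_mul_of_nonneg_right ((le_max_left _ _).trans (le_max_right _ _)) (Real.rpow_nonneg (h0 _) _)
  · refine h2.trans ?_
    have h5 : (∫ x in ball (0 : E n) 1 \ S, f x ^ n) ^ (sn n / n) ≤ (∫ x, f x ^ n) ^ (sn n / n) :=
      Real.rpow_le_rpow (h0 _) (setIntegral_le_integral hf.intn
        (Filter.Eventually.of_forall fun x => pow_nonneg (hf.nonneg x) _)) (by positivity)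
    calc (∫ x in ball (0 : E n) 1 \ S, f x ^ n) ^ (sn n / n) * (C₁ ^ (1 / (2 * n : ℝ)) * F)
        ≤ (∫ x, f x ^ n) ^ (sn n / n) * (C₁ ^ (1 / (2 * n : ℝ)) * F) :=
          mul_le_mul_of_nonneg_right h5 (by positivity)
      _ = C₁ ^ (1 / (2 * n : ℝ)) * (∫ x, f x ^ n) ^ (sn n / n) * F := by ring
      _ ≤ _ := by
          refine mul_le_mul_of_nonneg_right (mul_le_mul_of_nonneg_right
            ((le_max_right _ _).trans (le_max_right _ _)) (Real.rpow_nonneg h0' _)) hF0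

end H60NH
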