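import Pool.Agent.H60.NH.RZero
import Pool.Agent.H60.NH.NOut

/-!
# [H60 NH RPRH] The two inequalities for the good set

From `main_ineq` (constants `ε₁, c₀, C₁`); shrink `ε₁` so that `K3` holds with `c = C₁`. `f = gn ∘ G`,
`A = As f`, `D = ∫ f^n`; in the limit `K → ∞` the error `e K` disappears. The third term is at most
`C₁ ε C A^n` (`K3`), where `ε <= ε₁ <= 1`.
`RP`: the first term is at most `C₁² ∫_{ball 0 1} f^(n-1) N_K <= C A^n` (`K1`), for the set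
`S = {Ninf f <= c₀}` (measurable).
`RH`: split the ring `R = ball 0 1 \ ball 0 (1/2)` into `R ∩ S` and `R \ S ⊆ {ofReal (c₀/2) < Ninf f}`. On `R \ S` use
`min 1 _ <= 1` and `out_bd` (`c = c₀/2`): `C A^(n+1)`. On `R ∩ S`: `f^(n-1) (C₁ N_K) <= C_τ f^n + τ N_K^n` (Young, `a^(n-1) b <= τ b^n + C_τ a^n`), and
`∫_{ball 0 1} N_K^n <= C A^n` (`K4`); `τ C₁² C <= η/2`-ish. So the sum of the `A`-terms is at most
`(η + C_η (ε + A)) A^n`.
The constants `c₀, C₀` (in `RP` and in front of `ε^n D` — one may take `C₁` there as well) are fixed,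
`Cη` depends on `η`.
-/

set_option autoImplicit false

namespace H60NH

open MeasureTheory Metric Set Filter Topology
open scoped ENNReal NNReal ContDiff

private lemma int_mul' (n : ℕ) (hn : 2 ≤ n) {f : E n → ℝ} {ε : ℝ} (hf : Mor f ε) (h : E n → ℝ)
    (hh : Measurable h) (C : ℝ) (hC : ∀ x, |h x| ≤ C) :
    Integrable (fun x => f x ^ (n - 1) * h x) := by
  have h1 : Integrable (fun x => f x ^ (n - 1)) := by
    refine Integrable.mono' (hf.int.add hf.intn) (hf.meas.pow_const _).aestronglyMeasurable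
      (Eventually.of_forall fun x => ?_)
    have h0 := hf.nonneg x
    rw [Real.norm_eq_abs, abs_of_nonneg (pow_nonneg h0 _)]
    simp only [Pi.add_apply]
    rcases le_total (f x) 1 with h | h
    · have h1 : f x ^ (n - 1) ≤ f x ^ 1 := pow_le_pow_of_le_one h0 h (by omega)
      have h2 := pow_nonneg h0 n
      rw [pow_one] at h1
      linarith
    · have h1 : f x ^ (n - 1) ≤ f x ^ n := pow_le_pow_right₀ h (by omega)
      linarith
  refine Integrable.mono' (h1.mul_const C) ((hf.meas.pow_const _).mul hh).aestronglyMeasurable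
    (Eventually.of_forall fun x => ?_)
  rw [Real.norm_eq_abs, abs_mul, abs_of_nonneg (pow_nonneg (hf.nonneg x) _)]
  exact mul_le_mul_of_nonneg_left (hC x) (pow_nonneg (hf.nonneg x) _)

private lemma NNm (n : ℕ) (hn : 2 ≤ n) {f : E n → ℝ} {ε : ℝ} (hf : Mor f ε) (K : ℕ) :
    Measurable (NN f K 0) ∧ ∀ x, |NN f K 0 x| ≤ K * (8 ^ (n - 1) * ε) := by
  refine ⟨(NN_cont (by omega) hf.int K 0).measurable, fun x => ?_⟩
  rw [abs_of_nonneg (NN_nonneg hf K 0 x)]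
  exact NN_le hf K 0 x

private lemma minm (n : ℕ) (hn : 2 ≤ n) {f : E n → ℝ} {ε : ℝ} (hf : Mor f ε) (K : ℕ) (C₁ : ℝ)
    (hC₁ : 0 ≤ C₁) :
    Measurable (fun x => min 1 (C₁ * NN f K 0 x)) ∧ ∀ x, |min 1 (C₁ * NN f K 0 x)| ≤ 1 := by
  refine ⟨measurable_const.min ((NNm n hn hf K).1.const_mul _), fun x => ?_⟩
  rw [abs_of_nonneg (le_min zero_le_one (mul_nonneg hC₁ (NN_nonneg hf K 0 x)))]
  exact min_le_left _ _

private lemma T1_P (n : ℕ) (hn : 2 ≤ n) {f : E n → ℝ} {ε : ℝ} (hf : Mor f ε) (K : ℕ) (C₁ : ℝ)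
    (hC₁ : 0 ≤ C₁) :
    ∫ x in ball (0 : E n) 1 \ ball (0 : E n) (1 / 2), f x ^ (n - 1) * min 1 (C₁ * NN f K 0 x) ≤
      C₁ * ∫ x in ball (0 : E n) 1, f x ^ (n - 1) * NN f K 0 x := by
  have hI1 := int_mul' n hn hf _ (minm n hn hf K C₁ hC₁).1 1 (minm n hn hf K C₁ hC₁).2
  have hI2 := int_mul' n hn hf _ (NNm n hn hf K).1 _ (NNm n hn hf K).2
  have hfn : ∀ x, 0 ≤ f x ^ (n - 1) := fun x => pow_nonneg (hf.nonneg x) _
  rw [← integral_const_mul]
  refine (setIntegral_mono_on hI1.integrableOn (hI2.const_mul C₁).integrableOn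
    (measurableSet_ball.diff measurableSet_ball) fun x _ => ?_).trans
    (setIntegral_mono_set (hI2.const_mul C₁).integrableOn (Eventually.of_forall fun x => ?_)
      (LE.le.eventuallyLE diff_subset))
  · calc f x ^ (n - 1) * min 1 (C₁ * NN f K 0 x) ≤ f x ^ (n - 1) * (C₁ * NN f K 0 x) :=
          mul_le_mul_of_nonneg_left (min_le_right _ _) (hfn x)
      _ = C₁ * (f x ^ (n - 1) * NN f K 0 x) := by ring
  · exact mul_nonneg hC₁ (mul_nonneg (hfn x) (NN_nonneg hf K 0 x))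

private lemma young (n : ℕ) (hn : 2 ≤ n) (a b l : ℝ) (ha : 0 ≤ a) (hb : 0 ≤ b) (hl : 0 < l) :
    a ^ (n - 1) * b ≤ l * a ^ n + (l⁻¹) ^ (n - 1) * b ^ n := by
  have e1 : a ^ n = a ^ (n - 1) * a := by
    rw [← pow_succ]; congr 1; omega
  have e2 : b ^ n = b ^ (n - 1) * b := by
    rw [← pow_succ]; congr 1; omega
  have p1 : 0 ≤ a ^ (n - 1) := pow_nonneg ha _
  have p2 : 0 ≤ b ^ (n - 1) := pow_nonneg hb _
  have p3 : 0 ≤ l⁻¹ ^ (n - 1) := pow_nonneg (inv_nonneg.2 hl.le) _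
  rcases le_total b (l * a) with h | h
  · have h1 : a ^ (n - 1) * b ≤ a ^ (n - 1) * (l * a) := mul_le_mul_of_nonneg_left h p1
    have h2 : 0 ≤ l⁻¹ ^ (n - 1) * b ^ n := mul_nonneg p3 (pow_nonneg hb _)
    rw [e1]
    nlinarith
  · have h1 : a ≤ l⁻¹ * b := by
      rw [inv_mul_eq_div, le_div_iff₀ hl]
      linarith
    have h2 : a ^ (n - 1) ≤ (l⁻¹ * b) ^ (n - 1) := pow_le_pow_left₀ ha h1 _
    rw [mul_pow] at h2
    have h3 : a ^ (n - 1) * b ≤ l⁻¹ ^ (n - 1) * b ^ (n - 1) * b := mul_le_mul_of_nonneg_right h2 hb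
    have h4 : 0 ≤ l * a ^ n := mul_nonneg hl.le (pow_nonneg ha _)
    rw [e2]
    nlinarith

private lemma T1_H (n : ℕ) (hn : 2 ≤ n) {f : E n → ℝ} {ε : ℝ} (hf : Mor f ε) (K : ℕ) (C₁ l c : ℝ)
    (hC₁ : 0 ≤ C₁) (hl : 0 < l) (S : Set (E n)) (hS : MeasurableSet S)
    (hSc : ∀ x ∈ ball (0 : E n) 1, Ninf f x ≤ ENNReal.ofReal c → x ∈ S) :
    ∫ x in ball (0 : E n) 1 \ ball (0 : E n) (1 / 2), f x ^ (n - 1) * min 1 (C₁ * NN f K 0 x) ≤
      C₁ * l * (∫ x in (ball (0 : E n) 1 \ ball (0 : E n) (1 / 2)) ∩ S, f x ^ n) +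
      C₁ * (l⁻¹) ^ (n - 1) * (∫ x in ball (0 : E n) 1, NN f K 0 x ^ n) +
      ∫ x in {x ∈ ball (0 : E n) 1 | ENNReal.ofReal c < Ninf f x}, f x ^ (n - 1) := by
  have hI1 := int_mul' n hn hf _ (minm n hn hf K C₁ hC₁).1 1 (minm n hn hf K C₁ hC₁).2
  have hI0 : Integrable (fun x => f x ^ (n - 1)) := by
    have := int_mul' n hn hf (fun _ => (1 : ℝ)) measurable_const 1 (fun x => by simp)
    simpa using this
  have hfn : ∀ x, 0 ≤ f x ^ (n - 1) := fun x => pow_nonneg (hf.nonneg x) _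
  have hR : MeasurableSet (ball (0 : E n) 1 \ ball (0 : E n) (1 / 2)) :=
    measurableSet_ball.diff measurableSet_ball
  have hNn : IntegrableOn (fun x => NN f K 0 x ^ n) (ball (0 : E n) 1) := by
    have hfin : volume (ball (0 : E n) 1) ≠ ⊤ := measure_ball_lt_top.ne
    refine Measure.integrableOn_of_bounded hfin
      ((NNm n hn hf K).1.pow_const n).aestronglyMeasurable
      (M := (K * (8 ^ (n - 1) * ε)) ^ n) (Eventually.of_forall fun x => ?_)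
    rw [norm_pow, Real.norm_eq_abs]
    exact pow_le_pow_left₀ (abs_nonneg _) ((NNm n hn hf K).2 x) n
  have hNn0 : ∀ x, 0 ≤ NN f K 0 x ^ n := fun x => pow_nonneg (NN_nonneg hf K 0 x) n
  rw [← integral_inter_add_diff hS hI1.integrableOn]
  have hA : ∫ x in (ball (0 : E n) 1 \ ball (0 : E n) (1 / 2)) ∩ S,
      f x ^ (n - 1) * min 1 (C₁ * NN f K 0 x) ≤
      C₁ * l * (∫ x in (ball (0 : E n) 1 \ ball (0 : E n) (1 / 2)) ∩ S, f x ^ n) +
      C₁ * (l⁻¹) ^ (n - 1) * (∫ x in ball (0 : E n) 1, NN f K 0 x ^ n) := by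
    have hsub : (ball (0 : E n) 1 \ ball (0 : E n) (1 / 2)) ∩ S ⊆ ball (0 : E n) 1 :=
      inter_subset_left.trans diff_subset
    have h1 : ∫ x in (ball (0 : E n) 1 \ ball (0 : E n) (1 / 2)) ∩ S,
        f x ^ (n - 1) * min 1 (C₁ * NN f K 0 x) ≤
        ∫ x in (ball (0 : E n) 1 \ ball (0 : E n) (1 / 2)) ∩ S,
          (C₁ * l * f x ^ n + C₁ * (l⁻¹) ^ (n - 1) * NN f K 0 x ^ n) := by
      refine setIntegral_mono_on hI1.integrableOn
        ((hf.intn.const_mul _).integrableOn.add ((hNn.mono_set hsub).const_mul _))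
        (hR.inter hS) fun x _ => ?_
      have hy := young n hn (f x) (NN f K 0 x) l (hf.nonneg x) (NN_nonneg hf K 0 x) hl
      calc f x ^ (n - 1) * min 1 (C₁ * NN f K 0 x) ≤ f x ^ (n - 1) * (C₁ * NN f K 0 x) :=
            mul_le_mul_of_nonneg_left (min_le_right _ _) (hfn x)
        _ = C₁ * (f x ^ (n - 1) * NN f K 0 x) := by ring
        _ ≤ C₁ * (l * f x ^ n + l⁻¹ ^ (n - 1) * NN f K 0 x ^ n) :=
            mul_le_mul_of_nonneg_left hy hC₁
        _ = _ := by ring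
    rw [integral_add (hf.intn.const_mul _).integrableOn ((hNn.mono_set hsub).const_mul _),
      integral_const_mul, integral_const_mul] at h1
    have h2 : ∫ x in (ball (0 : E n) 1 \ ball (0 : E n) (1 / 2)) ∩ S, NN f K 0 x ^ n ≤
        ∫ x in ball (0 : E n) 1, NN f K 0 x ^ n :=
      setIntegral_mono_set hNn (Eventually.of_forall fun x => hNn0 x) (LE.le.eventuallyLE hsub)
    have h3 := mul_le_mul_of_nonneg_left h2
      (mul_nonneg hC₁ (pow_nonneg (inv_nonneg.2 hl.le) (n - 1)))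
    linarith
  have hB : ∫ x in (ball (0 : E n) 1 \ ball (0 : E n) (1 / 2)) \ S,
      f x ^ (n - 1) * min 1 (C₁ * NN f K 0 x) ≤
      ∫ x in {x ∈ ball (0 : E n) 1 | ENNReal.ofReal c < Ninf f x}, f x ^ (n - 1) := by
    have hsub : (ball (0 : E n) 1 \ ball (0 : E n) (1 / 2)) \ S ⊆
        {x ∈ ball (0 : E n) 1 | ENNReal.ofReal c < Ninf f x} := by
      intro x hx
      refine ⟨hx.1.1, ?_⟩
      by_contra hcon
      exact hx.2 (hSc x hx.1.1 (not_lt.1 hcon))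
    refine (setIntegral_mono_on hI1.integrableOn hI0.integrableOn (hR.diff hS) fun x _ => ?_).trans
      (setIntegral_mono_set hI0.integrableOn (Eventually.of_forall fun x => hfn x)
        (LE.le.eventuallyLE hsub))
    calc f x ^ (n - 1) * min 1 (C₁ * NN f K 0 x) ≤ f x ^ (n - 1) * 1 :=
          mul_le_mul_of_nonneg_left (min_le_left _ _) (hfn x)
      _ = f x ^ (n - 1) := mul_one _
  linarith

private lemma lim_e {e : ℕ → ℝ} (he : Tendsto e atTop (𝓝 0)) {I X : ℝ}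
    (h : ∀ K, 1 ≤ K → I ≤ X + e K) : I ≤ X := by
  have h1 : Tendsto (fun K => X + e K) atTop (𝓝 (X + 0)) := tendsto_const_nhds.add he
  rw [add_zero] at h1
  exact ge_of_tendsto h1 (eventually_atTop.2 ⟨1, h⟩)

theorem RP_RH {n m : ℕ} (hn : n = 3 ∨ n = 4) {N : Set (E m)} {π : E m → E m} {δ C : ℝ}
    (hT : TC N π δ C) :
    ∃ ε₁ c₀ C₀ : ℝ, 0 < ε₁ ∧ 0 < c₀ ∧ 1 ≤ C₀ ∧
      (∀ (u : E n → E m) (G : E n → Fin n → E m) (ε : ℝ),
        Sol N π 64 u G → 0 < ε → ε ≤ ε₁ → Mor (fun x => gn (G x)) ε →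
        ∀ S : Set (E n), MeasurableSet S →
        (∀ x ∈ S ∩ ball (0 : E n) 1, Ninf (fun x => gn (G x)) x ≤ ENNReal.ofReal c₀) →
        ∫ x in ball (0 : E n) (1 / 2) ∩ S, gn (G x) ^ n ≤
          C₀ * As (fun x => gn (G x)) ^ n + C₀ * ε ^ n * ∫ x, gn (G x) ^ n) ∧
      ∀ η : ℝ, 0 < η → ∃ Cη : ℝ, 1 ≤ Cη ∧
        ∀ (u : E n → E m) (G : E n → Fin n → E m) (ε : ℝ),
        Sol N π 64 u G → 0 < ε → ε ≤ ε₁ → Mor (fun x => gn (G x)) ε →
        ∀ S : Set (E n), MeasurableSet S →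
        (∀ x ∈ S ∩ ball (0 : E n) 1, Ninf (fun x => gn (G x)) x ≤ ENNReal.ofReal c₀) →
        (∀ x ∈ ball (0 : E n) 1, Ninf (fun x => gn (G x)) x ≤ ENNReal.ofReal (c₀ / 2) → x ∈ S) →
        ∫ x in ball (0 : E n) (1 / 2) ∩ S, gn (G x) ^ n ≤
          Cη * (∫ x in (ball (0 : E n) 1 \ ball (0 : E n) (1 / 2)) ∩ S, gn (G x) ^ n)
          + (η + Cη * (ε + As (fun x => gn (G x)))) * As (fun x => gn (G x)) ^ n
          + Cη * ε ^ n * ∫ x, gn (G x) ^ n := by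
  have hn3 : 3 ≤ n := by omega
  have hn2 : 2 ≤ n := by omega
  obtain ⟨ε₀, c₀, C₁, hε₀, hc₀, hC₁, hmain⟩ := main_ineq hn hT
  have hC₁0 : 0 ≤ C₁ := by linarith
  obtain ⟨ε₃, C₃, hε₃, hC₃, hK3⟩ := K3 n hn3 C₁ hC₁0
  obtain ⟨Ca, hCa, hK1⟩ := K1 n hn3
  obtain ⟨Cd, hCd, hK4⟩ := K4 n hn3
  obtain ⟨Co, hCo, hout⟩ := out_bd n hn3 (c₀ / 2) (by linarith)
  refine ⟨min (min ε₀ ε₃) 1, c₀, C₁ ^ 2 * Ca + C₁ * C₃ + C₁, lt_min (lt_min hε₀ hε₃) one_pos, hc₀,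
    ?_, ?_, ?_⟩
  · have h1 : 0 ≤ C₁ ^ 2 * Ca := by positivity
    have h2 : 0 ≤ C₁ * C₃ := by positivity
    linarith
  · intro u G ε hsol hε hε1 hf S hS hSc
    have hεa : ε ≤ ε₀ := hε1.trans ((min_le_left _ _).trans (min_le_left _ _))
    have hεb : ε ≤ ε₃ := hε1.trans ((min_le_left _ _).trans (min_le_right _ _))
    have hεc : ε ≤ 1 := hε1.trans (min_le_right _ _)
    obtain ⟨e, he, hK⟩ := hmain u G ε hsol hε hεa hf S hS hSc
    set f : E n → ℝ := fun x => gn (G x) with hfd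
    have hA0 : 0 ≤ As f := Real.rpow_nonneg (integral_nonneg fun x =>
      Real.rpow_nonneg (hf.nonneg x) _) _
    have hAn : 0 ≤ As f ^ n := pow_nonneg hA0 n
    have hD0 : 0 ≤ ∫ x, f x ^ n := integral_nonneg fun x => pow_nonneg (hf.nonneg x) n
    refine lim_e he fun K hK1' => ?_
    refine (hK K hK1').trans ?_
    have h1 := T1_P n hn2 hf K C₁ hC₁0
    have h2 := hK1 f ε hf K
    have h3 := hK3 f ε hεb hf K
    have h4 : C₁ * (∫ x in ball (0 : E n) 1 \ ball (0 : E n) (1 / 2),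
        f x ^ (n - 1) * min 1 (C₁ * NN f K 0 x)) ≤ C₁ ^ 2 * Ca * As f ^ n := by
      have h5 : C₁ * (∫ x in ball (0 : E n) 1, f x ^ (n - 1) * NN f K 0 x) ≤
          C₁ * (Ca * As f ^ n) := mul_le_mul_of_nonneg_left h2 hC₁0
      have h6 := mul_le_mul_of_nonneg_left (h1.trans h5) hC₁0
      calc _ ≤ _ := h6
        _ = _ := by ring
    have h5 : C₁ * ε * (∫ x in ball (0 : E n) 1, f x ^ (n - 1) *
        (NN f K 0 x * Real.exp (C₁ * NN f K 0 x))) ≤ C₁ * C₃ * As f ^ n := by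
      have h6 := mul_le_mul_of_nonneg_left h3 (mul_nonneg hC₁0 hε.le)
      have h7 : C₁ * ε * (C₃ * As f ^ n) ≤ C₁ * 1 * (C₃ * As f ^ n) :=
        mul_le_mul_of_nonneg_right (mul_le_mul_of_nonneg_left hεc hC₁0)
          (mul_nonneg (by linarith) hAn)
      calc _ ≤ _ := h6
        _ ≤ _ := h7
        _ = _ := by ring
    have h6 : C₁ * ε ^ n * (∫ x, f x ^ n) ≤
        (C₁ ^ 2 * Ca + C₁ * C₃ + C₁) * ε ^ n * ∫ x, f x ^ n := by
      have h7 : 0 ≤ (C₁ ^ 2 * Ca + C₁ * C₃) * ε ^ n * ∫ x, f x ^ n := by positivity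
      have h8 : (C₁ ^ 2 * Ca + C₁ * C₃ + C₁) * ε ^ n * ∫ x, f x ^ n =
        (C₁ ^ 2 * Ca + C₁ * C₃) * ε ^ n * (∫ x, f x ^ n) + C₁ * ε ^ n * ∫ x, f x ^ n := by ring
      rw [h8]
      linarith
    have h7 : 0 ≤ C₁ * As f ^ n := mul_nonneg hC₁0 hAn
    have h8 : (C₁ ^ 2 * Ca + C₁ * C₃ + C₁) * As f ^ n =
      C₁ ^ 2 * Ca * As f ^ n + C₁ * C₃ * As f ^ n + C₁ * As f ^ n := by ring
    rw [h8]
    linarith
  · intro η hη
    have hden : 0 < C₁ ^ 2 * Cd := by positivity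
    set l : ℝ := max 1 (C₁ ^ 2 * Cd / η) with hl
    have hl1 : 1 ≤ l := le_max_left _ _
    have hl0 : 0 < l := by linarith
    have hlτ : C₁ ^ 2 * (l⁻¹) ^ (n - 1) * Cd ≤ η := by
      have h1 : l ≤ l ^ (n - 1) := le_self_pow₀ hl1 (by omega)
      have h2 : C₁ ^ 2 * Cd / η ≤ l ^ (n - 1) := (le_max_right _ _).trans h1
      rw [div_le_iff₀ hη] at h2
      rw [inv_pow]
      have h3 : 0 < l ^ (n - 1) := pow_pos hl0 _
      have h4 : C₁ ^ 2 * (l ^ (n - 1))⁻¹ * Cd = (C₁ ^ 2 * Cd) / l ^ (n - 1) := by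
        field_simp
      rw [h4, div_le_iff₀ h3]
      linarith
    refine ⟨C₁ ^ 2 * l + C₁ * Co + C₁ + C₁ * C₃, ?_, ?_⟩
    · have h1 : 0 ≤ C₁ ^ 2 * l := by positivity
      have h2 : 0 ≤ C₁ * C₃ := by positivity
      have h3 : 0 ≤ C₁ * Co := by positivity
      linarith
    intro u G ε hsol hε hε1 hf S hS hSc hSc2
    have hεa : ε ≤ ε₀ := hε1.trans ((min_le_left _ _).trans (min_le_left _ _))
    have hεb : ε ≤ ε₃ := hε1.trans ((min_le_left _ _).trans (min_le_right _ _))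
    obtain ⟨e, he, hK⟩ := hmain u G ε hsol hε hεa hf S hS hSc
    set f : E n → ℝ := fun x => gn (G x) with hfd
    have hA0 : 0 ≤ As f := Real.rpow_nonneg (integral_nonneg fun x =>
      Real.rpow_nonneg (hf.nonneg x) _) _
    have hAn : 0 ≤ As f ^ n := pow_nonneg hA0 n
    have hD0 : 0 ≤ ∫ x, f x ^ n := integral_nonneg fun x => pow_nonneg (hf.nonneg x) n
    have hJ0 : 0 ≤ ∫ x in (ball (0 : E n) 1 \ ball (0 : E n) (1 / 2)) ∩ S, f x ^ n :=
      integral_nonneg fun x => pow_nonneg (hf.nonneg x) n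
    refine lim_e he fun K hK1' => ?_
    refine (hK K hK1').trans ?_
    have h1 := T1_H n hn2 hf K C₁ l (c₀ / 2) hC₁0 hl0 S hS hSc2
    have h2 := hK4 f ε hf K
    have h3 := hK3 f ε hεb hf K
    have h4 := hout f ε hf
    change ∫ x in {x ∈ ball (0 : E n) 1 | ENNReal.ofReal (c₀ / 2) < Ninf f x}, f x ^ (n - 1) ≤
      Co * As f ^ (n + 1) at h4
    generalize hJ : ∫ x in (ball (0 : E n) 1 \ ball (0 : E n) (1 / 2)) ∩ S, f x ^ n = J at *
    generalize hDD : ∫ x, f x ^ n = DD at *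
    generalize ∫ x in ball (0 : E n) 1 \ ball (0 : E n) (1 / 2),
      f x ^ (n - 1) * min 1 (C₁ * NN f K 0 x) = T1 at *
    generalize ∫ x in {x ∈ ball (0 : E n) 1 | ENNReal.ofReal (c₀ / 2) < Ninf f x},
      f x ^ (n - 1) = To at *
    generalize ∫ x in ball (0 : E n) 1, f x ^ (n - 1) *
        (NN f K 0 x * Real.exp (C₁ * NN f K 0 x)) = T3 at *
    generalize ∫ x in ball (0 : E n) 1, NN f K 0 x ^ n = T4 at *
    have hli : 0 ≤ l⁻¹ ^ (n - 1) := pow_nonneg (inv_nonneg.2 hl0.le) _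
    have g1 : C₁ * T1 ≤ C₁ ^ 2 * l * J + η * As f ^ n + C₁ * Co * (As f * As f ^ n) := by
      have k1 : C₁ * l⁻¹ ^ (n - 1) * T4 ≤ C₁ * l⁻¹ ^ (n - 1) * (Cd * As f ^ n) :=
        mul_le_mul_of_nonneg_left h2 (mul_nonneg hC₁0 hli)
      have k2 : T1 ≤ C₁ * l * J + C₁ * l⁻¹ ^ (n - 1) * (Cd * As f ^ n) + Co * As f ^ (n + 1) := by
        linarith
      have k3 := mul_le_mul_of_nonneg_left k2 hC₁0
      have k4 : C₁ ^ 2 * (l⁻¹) ^ (n - 1) * Cd * As f ^ n ≤ η * As f ^ n :=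
        mul_le_mul_of_nonneg_right hlτ hAn
      have k5 : C₁ * (C₁ * l * J + C₁ * l⁻¹ ^ (n - 1) * (Cd * As f ^ n) + Co * As f ^ (n + 1)) =
          C₁ ^ 2 * l * J + C₁ ^ 2 * (l⁻¹) ^ (n - 1) * Cd * As f ^ n +
            C₁ * Co * (As f * As f ^ n) := by
        rw [pow_succ (As f) n]
        ring
      rw [k5] at k3
      linarith
    have g2 : C₁ * ε * T3 ≤ C₁ * C₃ * (ε * As f ^ n) := by
      have k1 := mul_le_mul_of_nonneg_left h3 (mul_nonneg hC₁0 hε.le)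
      calc _ ≤ _ := k1
        _ = _ := by ring
    have hεA : 0 ≤ ε * As f ^ n := mul_nonneg hε.le hAn
    have hAA : 0 ≤ As f * As f ^ n := mul_nonneg hA0 hAn
    have hεD : 0 ≤ ε ^ n * DD := mul_nonneg (pow_nonneg hε.le _) hD0
    have q1 : 0 ≤ C₁ ^ 2 * l := by positivity
    have q2 : 0 ≤ C₁ * C₃ := by positivity
    have q3 : 0 ≤ C₁ * Co := by positivity
    have r1 : 0 ≤ (C₁ * Co + C₁ + C₁ * C₃) * J := by positivity
    have r2 : 0 ≤ (C₁ ^ 2 * l + C₁ * Co + C₁) * (ε * As f ^ n) := by positivity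
    have r3 : 0 ≤ (C₁ ^ 2 * l + C₁ + C₁ * C₃) * (As f * As f ^ n) := by positivity
    have r4 : 0 ≤ (C₁ ^ 2 * l + C₁ * Co + C₁ * C₃) * (ε ^ n * DD) := by positivity
    have hgoal : (C₁ ^ 2 * l + C₁ * Co + C₁ + C₁ * C₃) * J
        + (η + (C₁ ^ 2 * l + C₁ * Co + C₁ + C₁ * C₃) * (ε + As f)) * As f ^ n
        + (C₁ ^ 2 * l + C₁ * Co + C₁ + C₁ * C₃) * ε ^ n * DD =
        (C₁ ^ 2 * l * J + η * As f ^ n + C₁ * Co * (As f * As f ^ n)) +
        C₁ * ε ^ n * DD + C₁ * C₃ * (ε * As f ^ n) +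
        (C₁ * Co + C₁ + C₁ * C₃) * J +
        (C₁ ^ 2 * l + C₁ * Co + C₁) * (ε * As f ^ n) +
        (C₁ ^ 2 * l + C₁ + C₁ * C₃) * (As f * As f ^ n) +
        (C₁ ^ 2 * l + C₁ * Co + C₁ * C₃) * (ε ^ n * DD) := by ring
    rw [hgoal]
    linarith

end H60NH
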