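import Pool.Agent.H60.NH.FTest
import Pool.Agent.H60.NH.MExist
import Pool.Agent.H60.NH.PRr
import Pool.Agent.H60.NH.NR1
import Pool.Agent.H60.NH.CutEx
import Pool.Agent.H60.NH.PMeas

/-!
# [H60 NH RZERO] The main inequality

Constants: `exists_moll`, `exists_cut`, `exists_GD` (`C₂`), `rr_TT` (`C₃`, `c = C₂²`), `absorb` with
`A = 2 n C₃`, `c = C₂²`, `L`. Let `f = gn ∘ G`, `b_K = nb (B K) (μ K)`, `pg = PG G b_K` (measurable by
`PG_meas`, `nb_smooth`; `0 <= pg <= f`), `N_K = NN f K 0`, `X = ∫ χ^n f^(n-2) pg^2`, `K >= 1`.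
`test_ineq`; in the second term `∑_i rr_i <= n C₃ TT` on `ball 0 1` (`rr_TT`; `χ = 0` elsewhere), and `absorb`
bounds it by `X/4 + C ε^n ∫ f^n + C ε ∫_{ball 0 1} f^(n-1) N_K e^{c N_K}`. Absorb `X/4`. The first term:
`‖b_K‖ <= 1` (`nb_unit`) and `‖b_K‖ <= 9 C₂² N_K` (`b_bd`), so `‖b_K‖ <= min 1 (9 C₂² N_K)`. The last term of
`test_ineq` tends to zero (`err_lim`; tube': `infDist < δ`): it is `e K`.
If `x ∈ S ∩ ball 0 1`, then `N_K(x) <= c₀ := 1/(18 C₂²)` (`NN_le_Ninf`), so `‖b_K x‖ <= 1/2`, and `PG_low`: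
`f^n <= (4/3) f^(n-2) pg^2 = (4/3) χ^n f^(n-2) pg^2` on `ball 0 (1/2) ∩ S`; hence
`∫_{ball 0 (1/2) ∩ S} f^n <= (4/3) X`.
-/

set_option autoImplicit false

namespace H60NH

open MeasureTheory Metric Set Filter Topology
open scoped ENNReal NNReal ContDiff

private theorem RZERO_int {n : ℕ} (hn : 2 ≤ n) {f : E n → ℝ} {ε : ℝ} (hf : Mor f ε)
    (g : E n → ℝ) (hg : Measurable g) (Cg : ℝ) (hb : ∀ x, |g x| ≤ Cg) :
    Integrable (fun x => f x ^ (n - 1) * g x) := by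
  have hCg : 0 ≤ Cg := (abs_nonneg _).trans (hb 0)
  refine Integrable.mono' ((hf.int.add hf.intn).const_mul Cg)
    ((hf.meas.pow_const _).mul hg).aestronglyMeasurable (Eventually.of_forall fun x => ?_)
  have h0 := hf.nonneg x
  have h1 : f x ^ (n - 1) ≤ f x + f x ^ n := by
    rcases le_total (f x) 1 with h | h
    · have h2 : f x ^ (n - 1) ≤ f x := pow_le_of_le_one h0 h (by omega)
      have h3 : 0 ≤ f x ^ n := pow_nonneg h0 _
      linarith
    · have h2 : f x ^ (n - 1) ≤ f x ^ n := pow_le_pow_right₀ h (by omega)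
      linarith
  rw [Real.norm_eq_abs, abs_mul, abs_of_nonneg (pow_nonneg h0 _)]
  calc f x ^ (n - 1) * |g x| ≤ (f x + f x ^ n) * Cg :=
        mul_le_mul h1 (hb x) (abs_nonneg _) (add_nonneg h0 (pow_nonneg h0 _))
    _ = Cg * (f x + f x ^ n) := mul_comm _ _

theorem main_ineq {n m : ℕ} (hn : n = 3 ∨ n = 4) {N : Set (E m)} {π : E m → E m} {δ C : ℝ}
    (hT : TC N π δ C) :
    ∃ ε₁ c₀ C₁ : ℝ, 0 < ε₁ ∧ 0 < c₀ ∧ 1 ≤ C₁ ∧ ∀ (u : E n → E m) (G : E n → Fin n → E m) (ε : ℝ),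
      Sol N π 64 u G → 0 < ε → ε ≤ ε₁ → Mor (fun x => gn (G x)) ε →
      ∀ S : Set (E n), MeasurableSet S →
      (∀ x ∈ S ∩ ball (0 : E n) 1, Ninf (fun x => gn (G x)) x ≤ ENNReal.ofReal c₀) →
      ∃ e : ℕ → ℝ, Tendsto e atTop (𝓝 0) ∧ ∀ K : ℕ, 1 ≤ K →
        ∫ x in ball (0 : E n) (1 / 2) ∩ S, gn (G x) ^ n ≤
          C₁ * (∫ x in ball (0 : E n) 1 \ ball (0 : E n) (1 / 2),
            gn (G x) ^ (n - 1) * min 1 (C₁ * NN (fun x => gn (G x)) K 0 x))
          + C₁ * ε ^ n * (∫ x, gn (G x) ^ n)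
          + C₁ * ε * (∫ x in ball (0 : E n) 1, gn (G x) ^ (n - 1) *
            (NN (fun x => gn (G x)) K 0 x * Real.exp (C₁ * NN (fun x => gn (G x)) K 0 x)))
          + e K := by
  have hn2 : 2 ≤ n := by rcases hn with rfl | rfl <;> norm_num
  obtain ⟨φ, Θ, M, hφ⟩ := exists_moll n
  obtain ⟨χ, L, hχ⟩ := exists_cut n
  obtain ⟨εa, C₂, hεa, hC2, hGD⟩ := exists_GD hn2 hφ hT
  obtain ⟨εb, C₃, hεb, hC3, hrr⟩ := rr_TT hn2 hφ hT C₂
  have hL0 : 0 ≤ L := by linarith [hχ.one_le]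
  have hC30 : 0 ≤ C₃ := by linarith
  obtain ⟨εc, Cc, hεc, hCc, habs⟩ := absorb n hn (2 * n * C₃) (C₂ ^ 2) L (by positivity)
    (by positivity) hL0
  have hC0 : 0 ≤ C := by linarith [hT.one_le]
  have hδ := hT.pos
  have hC2p : 0 < C₂ := by linarith
  obtain ⟨Ce, hCe⟩ : ∃ Ce, Ce = 2 + C + (1 + 2 * C) * (C + C / δ) := ⟨_, rfl⟩
  have hCe0 : 0 ≤ Ce := by
    rw [hCe]
    positivity
  obtain ⟨C₁, hC₁⟩ : ∃ C₁, C₁ = 1 + 2 * n ^ 2 * L + 2 * Cc + 9 * C₂ ^ 2 := ⟨_, rfl⟩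
  have hnL : 0 ≤ (n : ℝ) ^ 2 * L := by positivity
  have hCc0 : 0 ≤ Cc := by linarith
  have hC22 : 0 ≤ C₂ ^ 2 := by positivity
  refine ⟨min (min εa εb) εc, 1 / (18 * C₂ ^ 2), C₁, lt_min (lt_min hεa hεb) hεc, by positivity,
    by linarith, ?_⟩
  intro u G ε hS hε hε1 hf S hSm hSc
  have hεa' : ε ≤ εa := hε1.trans ((min_le_left _ _).trans (min_le_left _ _))
  have hεb' : ε ≤ εb := hε1.trans ((min_le_left _ _).trans (min_le_right _ _))
  have hεc' : ε ≤ εc := hε1.trans (min_le_right _ _)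
  obtain ⟨B, μ, hG⟩ := hGD u G hS ε hεa' hf
  obtain ⟨lim1, lim2⟩ := err_lim hn2 hφ hT hS hG.tube'
  refine ⟨fun K => 16 / 9 * (Ce * ((∫ x in ball (0 : E n) 1,
            gn (G x) ^ (n - 1) * ∑ i, ‖pU π (ubar φ u K) x (ev i) - G x i‖)
          + ∫ x in ball (0 : E n) 1, gn (G x) ^ n * ‖π (ubar φ u K x) - u x‖)), ?_, ?_⟩
  · have h1 := ((lim2.add lim1).const_mul Ce).const_mul (16 / 9)
    simpa using h1
  intro K hK
  have hbc : ContinuousOn (nb (B K) (μ K)) (ball (0 : E n) 4) :=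
    (nb_smooth (hG.gauge K)).1.continuousOn
  have hpm : Measurable (PG G (nb (B K) (μ K))) := PG_meas hS.meas_G _ hbc
  have hp0 : ∀ x, 0 ≤ PG G (nb (B K) (μ K)) x := fun x => (PG_bd G _ x).1
  have hpf : ∀ x, PG G (nb (B K) (μ K)) x ≤ gn (G x) := fun x => (PG_bd G _ x).2
  have hχm : Measurable χ := hχ.smooth.continuous.measurable
  have hχs : ∀ x, x ∉ ball (0 : E n) 1 → χ x = 0 := fun x hx =>
    image_eq_zero_of_notMem_tsupport fun h => hx (hχ.supp h)
  have b14 : ball (0 : E n) 1 ⊆ ball (0 : E n) 4 := ball_subset_ball (by norm_num)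
  have b12 : ball (0 : E n) 1 ⊆ ball (0 : E n) 2 := ball_subset_ball (by norm_num)
  have bh1 : ball (0 : E n) (1 / 2) ⊆ ball (0 : E n) 1 := ball_subset_ball (by norm_num)
  have hg0 : ∀ x, 0 ≤ gn (G x) := hf.nonneg
  have hNc : Continuous (NN (fun x => gn (G x)) K 0) := NN_cont (by omega) hf.int K 0
  have hN0 : ∀ x, 0 ≤ NN (fun x => gn (G x)) K 0 x := NN_nonneg hf K 0
  have hN1 : ∀ x, NN (fun x => gn (G x)) K 0 x ≤ K * (8 ^ (n - 1) * ε) := NN_le hf K 0
  have hC10 : 0 ≤ C₁ := by linarith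
  -- the test inequality and the absorption
  have t1 := test_ineq hn2 hφ hT hχ u G ε C₂ B μ hS hf hG K
  have t2 := habs (fun x => gn (G x)) ε hε hεc' hf χ (PG G (nb (B K) (μ K))) hχm hχ.nonneg
    hχ.le_one hχs hχ.lip hpm hp0 hpf K hK
  obtain ⟨ii1, ii2⟩ := absorb_int n hn2 (C₂ ^ 2) hf χ (PG G (nb (B K) (μ K))) hχm hχ.nonneg
    hχ.le_one hpm hp0 hpf K
  have t3 : ∫ x, χ x ^ n * gn (G x) ^ (n - 2) * PG G (nb (B K) (μ K)) x *
      ∑ i, rr π (ubar φ u K) (B K) (μ K) x (ev i) ≤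
      (n * C₃) * ∫ x, χ x ^ n * gn (G x) ^ (n - 2) * PG G (nb (B K) (μ K)) x *
        TT (fun x => gn (G x)) (PG G (nb (B K) (μ K))) ε (C₂ ^ 2) K x := by
    rw [← integral_const_mul]
    refine integral_mono_of_nonneg (Eventually.of_forall fun x => ?_) (ii1.const_mul _)
      (Eventually.of_forall fun x => ?_)
    · by_cases hx : x ∈ ball (0 : E n) 1
      · have hμ := (hG.gauge K).pos x (b14 hx)
        have h1 : 0 ≤ ∑ i, rr π (ubar φ u K) (B K) (μ K) x (ev i) := by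
          refine Finset.sum_nonneg fun i _ => ?_
          unfold rr
          positivity
        have h2 := hχ.nonneg x
        have h3 := hg0 x
        have h4 := hp0 x
        show 0 ≤ χ x ^ n * gn (G x) ^ (n - 2) * PG G (nb (B K) (μ K)) x *
          ∑ i, rr π (ubar φ u K) (B K) (μ K) x (ev i)
        positivity
      · show 0 ≤ χ x ^ n * gn (G x) ^ (n - 2) * PG G (nb (B K) (μ K)) x *
          ∑ i, rr π (ubar φ u K) (B K) (μ K) x (ev i)
        rw [hχs x hx, zero_pow (by omega), zero_mul, zero_mul, zero_mul]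
    · show χ x ^ n * gn (G x) ^ (n - 2) * PG G (nb (B K) (μ K)) x *
          ∑ i, rr π (ubar φ u K) (B K) (μ K) x (ev i) ≤
          (n * C₃) * (χ x ^ n * gn (G x) ^ (n - 2) * PG G (nb (B K) (μ K)) x *
        TT (fun x => gn (G x)) (PG G (nb (B K) (μ K))) ε (C₂ ^ 2) K x)
      by_cases hx : x ∈ ball (0 : E n) 1
      · have h1 : ∑ i, rr π (ubar φ u K) (B K) (μ K) x (ev i) ≤
            n * (C₃ * TT (fun x => gn (G x)) (PG G (nb (B K) (μ K))) ε (C₂ ^ 2) K x) := by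
          calc ∑ i : Fin n, rr π (ubar φ u K) (B K) (μ K) x (ev i) ≤
              ∑ _i : Fin n, C₃ * TT (fun x => gn (G x)) (PG G (nb (B K) (μ K))) ε (C₂ ^ 2) K x :=
                Finset.sum_le_sum fun i _ => hrr u G ε B μ hS hεb' hf hG K x (b12 hx) i
            _ = _ := by
                rw [Finset.sum_const, Finset.card_univ, Fintype.card_fin, nsmul_eq_mul]
        have h2 : 0 ≤ χ x ^ n * gn (G x) ^ (n - 2) * PG G (nb (B K) (μ K)) x := by
          have h2 := hχ.nonneg x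
          have h3 := hg0 x
          have h4 := hp0 x
          positivity
        calc _ ≤ χ x ^ n * gn (G x) ^ (n - 2) * PG G (nb (B K) (μ K)) x *
              (n * (C₃ * TT (fun x => gn (G x)) (PG G (nb (B K) (μ K))) ε (C₂ ^ 2) K x)) :=
              mul_le_mul_of_nonneg_left h1 h2
          _ = _ := by ring
      · rw [hχs x hx, zero_pow (by omega), zero_mul, zero_mul, zero_mul, zero_mul, mul_zero]
  have t4 : ∫ x in ball (0 : E n) 1 \ ball (0 : E n) (1 / 2),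
        gn (G x) ^ (n - 1) * ‖nb (B K) (μ K) x‖ ≤
      ∫ x in ball (0 : E n) 1 \ ball (0 : E n) (1 / 2),
        gn (G x) ^ (n - 1) * min 1 (C₁ * NN (fun x => gn (G x)) K 0 x) := by
    refine integral_mono_of_nonneg (Eventually.of_forall fun x => ?_) ?_ ?_
    · exact mul_nonneg (pow_nonneg (hg0 x) _) (norm_nonneg _)
    · refine (RZERO_int hn2 hf _ ((measurable_const.min (hNc.measurable.const_mul C₁))) 1
        fun x => ?_).integrableOn
      rw [abs_of_nonneg (le_min zero_le_one (mul_nonneg hC10 (hN0 x)))]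
      exact min_le_left _ _
    · refine ae_restrict_of_forall_mem (measurableSet_ball.diff measurableSet_ball) fun x hx => ?_
      refine mul_le_mul_of_nonneg_left (le_min ?_ ?_) (pow_nonneg (hg0 x) _)
      · exact (nb_unit (hG.gauge K) x (b14 hx.1)).2.1
      · refine (b_bd hf hG K hK x (b12 hx.1)).trans ?_
        exact mul_le_mul_of_nonneg_right (by linarith) (hN0 x)
  have t5 : ∫ x in ball (0 : E n) 1, gn (G x) ^ (n - 1) *
        (NN (fun x => gn (G x)) K 0 x * Real.exp (C₂ ^ 2 * NN (fun x => gn (G x)) K 0 x)) ≤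
      ∫ x in ball (0 : E n) 1, gn (G x) ^ (n - 1) *
        (NN (fun x => gn (G x)) K 0 x * Real.exp (C₁ * NN (fun x => gn (G x)) K 0 x)) := by
    refine integral_mono_of_nonneg (Eventually.of_forall fun x => ?_) ?_
      (Eventually.of_forall fun x => ?_)
    · exact mul_nonneg (pow_nonneg (hg0 x) _) (mul_nonneg (hN0 x) (Real.exp_pos _).le)
    · refine (RZERO_int hn2 hf _ (hNc.measurable.mul
        (Real.measurable_exp.comp (hNc.measurable.const_mul C₁)))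
        ((K * (8 ^ (n - 1) * ε)) * Real.exp (C₁ * (K * (8 ^ (n - 1) * ε))))
        fun x => ?_).integrableOn
      show |NN (fun x => gn (G x)) K 0 x * Real.exp (C₁ * NN (fun x => gn (G x)) K 0 x)| ≤ _
      rw [abs_of_nonneg (mul_nonneg (hN0 x) (Real.exp_pos _).le)]
      exact mul_le_mul (hN1 x) (Real.exp_le_exp.2 (mul_le_mul_of_nonneg_left (hN1 x) hC10))
        (Real.exp_pos _).le ((hN0 x).trans (hN1 x))
    · refine mul_le_mul_of_nonneg_left (mul_le_mul_of_nonneg_left (Real.exp_le_exp.2 ?_) (hN0 x))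
        (pow_nonneg (hg0 x) _)
      exact mul_le_mul_of_nonneg_right (by linarith) (hN0 x)
  have t6 : ∫ x in ball (0 : E n) (1 / 2) ∩ S, gn (G x) ^ n ≤
      4 / 3 * ∫ x, χ x ^ n * gn (G x) ^ (n - 2) * PG G (nb (B K) (μ K)) x ^ 2 := by
    rw [← integral_const_mul]
    have hnn : ∀ x, 0 ≤ 4 / 3 * (χ x ^ n * gn (G x) ^ (n - 2) *
        PG G (nb (B K) (μ K)) x ^ 2) := by
      intro x
      have h2 := hχ.nonneg x
      have h3 := hg0 x
      positivity
    refine le_trans ?_ (setIntegral_le_integral (s := ball (0 : E n) (1 / 2) ∩ S)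
      (ii2.const_mul (4 / 3)) (Eventually.of_forall hnn))
    refine integral_mono_of_nonneg (Eventually.of_forall fun x => pow_nonneg (hg0 x) _)
      (ii2.const_mul _).integrableOn ?_
    refine ae_restrict_of_forall_mem (measurableSet_ball.inter hSm) fun x hx => ?_
    show gn (G x) ^ n ≤ 4 / 3 * (χ x ^ n * gn (G x) ^ (n - 2) * PG G (nb (B K) (μ K)) x ^ 2)
    have hx1 := bh1 hx.1
    have h1 : NN (fun x => gn (G x)) K 0 x ≤ 1 / (18 * C₂ ^ 2) := by
      have h2 := (NN_le_Ninf hf K x).trans (hSc x ⟨hx.2, hx1⟩)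
      exact (ENNReal.ofReal_le_ofReal_iff (by positivity)).1 h2
    have h2 : ‖nb (B K) (μ K) x‖ ≤ 1 / 2 := by
      refine (b_bd hf hG K hK x (b12 hx1)).trans ?_
      calc 9 * C₂ ^ 2 * NN (fun y => gn (G y)) K 0 x ≤ 9 * C₂ ^ 2 * (1 / (18 * C₂ ^ 2)) :=
            mul_le_mul_of_nonneg_left h1 (by positivity)
        _ = 1 / 2 := by
            field_simp
            norm_num
    have h3 := PG_low G (nb (B K) (μ K)) x (b14 hx1) h2
    rw [hχ.one x hx.1, one_pow, one_mul]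
    have h4 : gn (G x) ^ n = gn (G x) ^ (n - 2) * gn (G x) ^ 2 := by
      rw [← pow_add]
      congr 1
      omega
    rw [h4]
    have h5 : 0 ≤ gn (G x) ^ (n - 2) := pow_nonneg (hg0 x) _
    nlinarith [mul_le_mul_of_nonneg_left h3 h5]
  -- conclusion
  have n1 : 0 ≤ ∫ x in ball (0 : E n) 1 \ ball (0 : E n) (1 / 2),
        gn (G x) ^ (n - 1) * min 1 (C₁ * NN (fun x => gn (G x)) K 0 x) :=
    integral_nonneg fun x => mul_nonneg (pow_nonneg (hg0 x) _)
      (le_min zero_le_one (mul_nonneg hC10 (hN0 x)))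
  have n2 : 0 ≤ ∫ x, gn (G x) ^ n := integral_nonneg fun x => pow_nonneg (hg0 x) _
  have n3 : 0 ≤ ∫ x in ball (0 : E n) 1, gn (G x) ^ (n - 1) *
        (NN (fun x => gn (G x)) K 0 x * Real.exp (C₁ * NN (fun x => gn (G x)) K 0 x)) :=
    integral_nonneg fun x => mul_nonneg (pow_nonneg (hg0 x) _)
      (mul_nonneg (hN0 x) (Real.exp_pos _).le)
  rw [← hCe] at t1
  dsimp only at t2 t1 ⊢
  have u1 := mul_le_mul_of_nonneg_left t4 hnL
  have u2 := mul_le_mul_of_nonneg_left t5 (mul_nonneg hCc0 hε.le)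
  have v1 := mul_le_mul_of_nonneg_right (show 16 / 9 * ((n : ℝ) ^ 2 * L) ≤ C₁ by linarith) n1
  have v2 := mul_le_mul_of_nonneg_right (show 16 / 9 * Cc ≤ C₁ by linarith)
    (mul_nonneg (pow_nonneg hε.le n) n2)
  have v3 := mul_le_mul_of_nonneg_right (show 16 / 9 * Cc ≤ C₁ by linarith)
    (mul_nonneg hε.le n3)
  generalize (∫ x in ball (0 : E n) (1 / 2) ∩ S, gn (G x) ^ n) = Z at t6 ⊢
  generalize (∫ x, χ x ^ n * gn (G x) ^ (n - 2) * PG G (nb (B K) (μ K)) x ^ 2) = X at t1 t2 t6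
  generalize (∫ x, χ x ^ n * gn (G x) ^ (n - 2) * PG G (nb (B K) (μ K)) x *
      ∑ i, rr π (ubar φ u K) (B K) (μ K) x (ev i)) = I2 at t1 t3
  generalize (∫ x, χ x ^ n * gn (G x) ^ (n - 2) * PG G (nb (B K) (μ K)) x *
        TT (fun x => gn (G x)) (PG G (nb (B K) (μ K))) ε (C₂ ^ 2) K x) = IT at t2 t3
  linarith

end H60NH
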