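import Pool.Agent.H60.NH.Def

/-!
# [H60 NH REC] The numerical recursion

For `12 <= k < L`: `Y (k-6) <= C₀ D (k-6) + C₀ e Λ` (h1), so by (h2)
`(1 + C₁) D (k+1) <= C₁ D k + (1/4) D (k-6) + (C₁ + 1/4) e Λ <= (C₁ + 1/4)(D (k-6) + e Λ)` (`D` is decreasing).
With `τ = (C₁ + 1/4)/(C₁ + 1) < 1`: `D (j+7) <= τ (D j + e Λ)` for `j >= 6`, `j + 7 <= L`. So
`D (6 + 7 i) <= τ^i C₀ Λ + τ/(1-τ) e Λ` while `6 + 7 i <= L` (`D 6 <= D 1 <= C₀ Λ`). Put `θ = τ^(1/7)`. For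
`12 <= k <= L` choose `i` with `6 + 7 i <= k < 13 + 7 i`: `D k <= D (6+7i)`, `τ^i = θ^(7i) <= θ^(k-12)` (`7 i >= k - 12`),
and `Y k <= C₀ D k + C₀ e Λ`. For `k < 12`: `Y k <= Λ <= θ^(-12) θ^k Λ`.
-/

set_option autoImplicit false

namespace H60NH

open MeasureTheory Metric Set Filter Topology
open scoped ENNReal NNReal ContDiff

theorem rec_lemma (C₀ C₁ : ℝ) (hC₀ : 1 ≤ C₀) (hC₁ : 1 ≤ C₁) :
    ∃ θ C₂ : ℝ, 0 < θ ∧ θ < 1 ∧ 1 ≤ C₂ ∧ ∀ (Λ e : ℝ) (Y D : ℕ → ℝ) (L : ℕ), 0 ≤ Λ → 0 ≤ e →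
      (∀ k, 0 ≤ Y k) → (∀ k, Y k ≤ Λ) → (∀ k, 0 ≤ D k) → (∀ k, D (k + 1) ≤ D k) →
      D 1 ≤ C₀ * Λ →
      (∀ k, k ≤ L → Y k ≤ C₀ * D k + C₀ * e * Λ) →
      (∀ k, 6 ≤ k → k < L →
        D (k + 1) ≤ C₁ * (D k - D (k + 1)) + 1 / (4 * C₀) * Y (k - 6) + C₁ * e * Λ) →
      ∀ k, k ≤ L → Y k ≤ C₂ * (θ ^ k + e) * Λ := by
  obtain ⟨τ, hτ⟩ : ∃ τ, τ = (C₁ + 1 / 4) / (C₁ + 1) := ⟨_, rfl⟩
  have hC₀0 : 0 < C₀ := by linarith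
  have hC₁0 : 0 < C₁ + 1 := by linarith
  have hτ0 : 0 < τ := by rw [hτ]; positivity
  have hτ1 : τ < 1 := by rw [hτ, div_lt_one hC₁0]; linarith
  have hτe : τ * (C₁ + 1) = C₁ + 1 / 4 := by rw [hτ, div_mul_cancel₀ _ hC₁0.ne']
  obtain ⟨θ, hθ⟩ : ∃ θ : ℝ, θ = τ ^ ((1 : ℝ) / 7) := ⟨_, rfl⟩
  have hθ0 : 0 < θ := by rw [hθ]; positivity
  have hθ1 : θ < 1 := by rw [hθ]; exact Real.rpow_lt_one hτ0.le hτ1 (by norm_num)
  have hθ7 : θ ^ 7 = τ := by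
    rw [hθ, ← Real.rpow_natCast, ← Real.rpow_mul hτ0.le]
    norm_num
  obtain ⟨σ, hσ⟩ : ∃ σ, σ = τ / (1 - τ) := ⟨_, rfl⟩
  have h1τ : 0 < 1 - τ := by linarith
  have hσ0 : 0 ≤ σ := by rw [hσ]; positivity
  have hσe : τ * (σ + 1) = σ := by
    rw [hσ]; field_simp; ring
  have hτi : 0 < τ⁻¹ := inv_pos.2 hτ0
  have hC2a : 0 ≤ C₀ ^ 2 * τ⁻¹ := by positivity
  have hC2b : 1 ≤ C₀ * (σ + 1) := by nlinarith
  refine ⟨θ, C₀ ^ 2 * τ⁻¹ + C₀ * (σ + 1), hθ0, hθ1, by linarith, ?_⟩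
  intro Λ e Y D L hΛ he hY hYΛ hD hDm hD1 h1 h2
  have hDanti : Antitone D := antitone_nat_of_succ_le hDm
  -- one step
  have hstep : ∀ j, j + 7 ≤ L → D (j + 7) ≤ τ * (D j + e * Λ) := by
    intro j hj
    have a1 := h2 (j + 6) (by omega) (by omega)
    have e1 : j + 6 + 1 = j + 7 := rfl
    have e2 : j + 6 - 6 = j := by omega
    rw [e1, e2] at a1
    have a2 := h1 j (by omega)
    have a3 : D (j + 6) ≤ D j := hDanti (by omega)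
    have a4 : 1 / (4 * C₀) * Y j ≤ 1 / 4 * (D j + e * Λ) := by
      calc 1 / (4 * C₀) * Y j ≤ 1 / (4 * C₀) * (C₀ * D j + C₀ * e * Λ) :=
            mul_le_mul_of_nonneg_left a2 (by positivity)
        _ = 1 / 4 * (D j + e * Λ) := by field_simp
    have a5 : (C₁ + 1) * D (j + 7) ≤ (C₁ + 1) * (τ * (D j + e * Λ)) := by
      have : (C₁ + 1) * (τ * (D j + e * Λ)) = (C₁ + 1 / 4) * (D j + e * Λ) := by
        rw [← hτe]; ring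
      rw [this]
      nlinarith
    exact le_of_mul_le_mul_left a5 hC₁0
  have hit : ∀ i, 1 + 7 * i ≤ L → D (1 + 7 * i) ≤ τ ^ i * (C₀ * Λ) + σ * (e * Λ) := by
    intro i
    induction i with
    | zero =>
      intro _
      have : 0 ≤ σ * (e * Λ) := by positivity
      simp only [Nat.mul_zero, Nat.add_zero, pow_zero, one_mul]
      linarith
    | succ i ih =>
      intro hi
      have b1 := ih (by omega)
      have b2 := hstep (1 + 7 * i) (by omega)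
      have e1 : 1 + 7 * (i + 1) = 1 + 7 * i + 7 := by ring
      rw [e1]
      calc D (1 + 7 * i + 7) ≤ τ * (D (1 + 7 * i) + e * Λ) := b2
        _ ≤ τ * ((τ ^ i * (C₀ * Λ) + σ * (e * Λ)) + e * Λ) := by gcongr
        _ = τ ^ (i + 1) * (C₀ * Λ) + (τ * (σ + 1)) * (e * Λ) := by ring
        _ = τ ^ (i + 1) * (C₀ * Λ) + σ * (e * Λ) := by rw [hσe]
  intro k hk
  rcases Nat.eq_zero_or_pos k with h0 | hpos
  · subst h0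
    have c1 := hYΛ 0
    have c2 : (1 : ℝ) ≤ C₀ ^ 2 * τ⁻¹ + C₀ * (σ + 1) := by linarith
    rw [pow_zero]
    have c3 : 1 ≤ (C₀ ^ 2 * τ⁻¹ + C₀ * (σ + 1)) * (1 + e) := by nlinarith
    calc Y 0 ≤ 1 * Λ := by linarith
      _ ≤ (C₀ ^ 2 * τ⁻¹ + C₀ * (σ + 1)) * (1 + e) * Λ := mul_le_mul_of_nonneg_right c3 hΛ
  · obtain ⟨i, hi⟩ : ∃ i, i = (k - 1) / 7 := ⟨_, rfl⟩
    have i1 : 1 + 7 * i ≤ k := by omega
    have i2 : k ≤ 7 * i + 7 := by omega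
    have d1 : D k ≤ D (1 + 7 * i) := hDanti i1
    have d2 := hit i (by omega)
    have d3 : τ ^ i ≤ τ⁻¹ * θ ^ k := by
      have f1 : τ ^ (i + 1) ≤ θ ^ k := by
        rw [← hθ7, ← pow_mul]
        exact pow_le_pow_of_le_one hθ0.le hθ1.le (by omega)
      calc τ ^ i = τ⁻¹ * τ ^ (i + 1) := by rw [pow_succ]; field_simp
        _ ≤ τ⁻¹ * θ ^ k := mul_le_mul_of_nonneg_left f1 hτi.le
    have d4 := h1 k hk
    have hCΛ : 0 ≤ C₀ * Λ := by positivity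
    have d5 : τ ^ i * (C₀ * Λ) ≤ (τ⁻¹ * θ ^ k) * (C₀ * Λ) := mul_le_mul_of_nonneg_right d3 hCΛ
    have hθk : 0 ≤ θ ^ k := by positivity
    have heΛ : 0 ≤ e * Λ := by positivity
    calc Y k ≤ C₀ * D k + C₀ * e * Λ := d4
      _ ≤ C₀ * ((τ⁻¹ * θ ^ k) * (C₀ * Λ) + σ * (e * Λ)) + C₀ * e * Λ := by
          have : D k ≤ (τ⁻¹ * θ ^ k) * (C₀ * Λ) + σ * (e * Λ) := by linarith
          have := mul_le_mul_of_nonneg_left this hC₀0.le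
          linarith
      _ = (C₀ ^ 2 * τ⁻¹) * (θ ^ k * Λ) + (C₀ * (σ + 1)) * (e * Λ) := by ring
      _ ≤ (C₀ ^ 2 * τ⁻¹ + C₀ * (σ + 1)) * (θ ^ k * Λ) +
            (C₀ ^ 2 * τ⁻¹ + C₀ * (σ + 1)) * (e * Λ) := by
          have g1 : 0 ≤ θ ^ k * Λ := by positivity
          have g2 : 0 ≤ C₀ * (σ + 1) := by linarith
          nlinarith [mul_nonneg g2 g1, mul_nonneg hC2a heΛ]
      _ = (C₀ ^ 2 * τ⁻¹ + C₀ * (σ + 1)) * (θ ^ k + e) * Λ := by ring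

end H60NH
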