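import Pool.Agent.H60.NH.Def4

/-!
# [H60 NH SCINT] Integrals of the rescaled functions

Change of variables `z = x₀ + ρ x`, `dz = ρ^n dx`; `ρ^s ρ^(-n) = ρ^(-1/2)` (`s = sn n = n - 1/2`).
For `R <= 64` the indicator of `ball 0 64` is `1` on `ball 0 R`. `sc_s_full`: `√(64 ρ) = 8 √ρ`.
`base_s_int`: `f^s <= f + f^n`.
-/

set_option autoImplicit false

namespace H60NH

open MeasureTheory Metric Set Filter Topology
open scoped ENNReal NNReal ContDiff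

theorem sn_bd' {n : ℕ} (hn : 2 ≤ n) : 1 < sn n ∧ sn n ≤ n := by
  have : (2 : ℝ) ≤ n := by exact_mod_cast hn
  unfold sn
  constructor <;> linarith

theorem base_s_int {n : ℕ} (hn : 2 ≤ n) {f : E n → ℝ} (hf : Base f) :
    Integrable (fun x => f x ^ sn n) := by
  obtain ⟨hs1, hsn⟩ := sn_bd' hn
  refine (hf.int.add hf.intn).mono (hf.meas.pow_const _).aestronglyMeasurable ?_
  refine Filter.Eventually.of_forall fun x => ?_
  have h0 := hf.nonneg x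
  have h1 : 0 ≤ f x ^ n := pow_nonneg h0 n
  rw [Pi.add_apply, Real.norm_of_nonneg (Real.rpow_nonneg h0 _), Real.norm_of_nonneg (by positivity)]
  rcases le_total (f x) 1 with h | h
  · have h2 : f x ^ sn n ≤ f x ^ (1 : ℝ) := by
      rcases h0.eq_or_lt with h3 | h3
      · rw [← h3, Real.zero_rpow (by linarith), Real.zero_rpow one_ne_zero]
      · exact Real.rpow_le_rpow_of_exponent_ge h3 h hs1.le
    rw [Real.rpow_one] at h2
    linarith
  · have h2 : f x ^ sn n ≤ f x ^ (n : ℝ) := Real.rpow_le_rpow_of_exponent_le h hsn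
    rw [Real.rpow_natCast] at h2
    linarith

theorem sc_mem {n : ℕ} (x₀ x : E n) (ρ R : ℝ) (hρ : 0 < ρ) :
    x₀ + ρ • x ∈ ball x₀ (R * ρ) ↔ x ∈ ball (0 : E n) R := by
  rw [mem_ball, mem_ball, dist_zero_right, dist_eq_norm, add_sub_cancel_left, norm_smul,
    Real.norm_of_nonneg hρ.le, mul_comm R, mul_lt_mul_iff_right₀ hρ]

theorem sc_gen {n : ℕ} (F : E n → ℝ) (x₀ : E n) (ρ R : ℝ) (hρ : 0 < ρ) (T : Set (E n)) (hT : MeasurableSet T) :
    ∫ x in ball (0 : E n) R ∩ {x | x₀ + ρ • x ∈ T}, F (x₀ + ρ • x) =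
      (ρ ^ n)⁻¹ * ∫ z in ball x₀ (R * ρ) ∩ T, F z := by
  have hT' : MeasurableSet {x : E n | x₀ + ρ • x ∈ T} :=
    ((measurable_const_smul ρ).const_add x₀) hT
  rw [← integral_indicator (measurableSet_ball.inter hT'), ← integral_indicator (measurableSet_ball.inter hT)]
  have h1 : ∀ x : E n, (ball (0 : E n) R ∩ {x | x₀ + ρ • x ∈ T}).indicator (fun x => F (x₀ + ρ • x)) x =
      (fun y => (ball x₀ (R * ρ) ∩ T).indicator F (x₀ + y)) (ρ • x) := by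
    intro x
    dsimp only
    by_cases hx : x ∈ ball (0 : E n) R ∩ {x | x₀ + ρ • x ∈ T}
    · rw [Set.indicator_of_mem hx, Set.indicator_of_mem]
      exact ⟨(sc_mem x₀ x ρ R hρ).2 hx.1, hx.2⟩
    · rw [Set.indicator_of_notMem hx, Set.indicator_of_notMem]
      intro h
      exact hx ⟨(sc_mem x₀ x ρ R hρ).1 h.1, h.2⟩
  simp_rw [h1]
  rw [Measure.integral_comp_smul (volume : Measure (E n)) (fun y => (ball x₀ (R * ρ) ∩ T).indicator F (x₀ + y)) ρ,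
    integral_add_left_eq_self (fun y => (ball x₀ (R * ρ) ∩ T).indicator F y) x₀, finrank_euclideanSpace_fin,
    abs_of_pos (by positivity), smul_eq_mul]

theorem scF_in {n : ℕ} (f : E n → ℝ) (x₀ : E n) (ρ : ℝ) {R : ℝ} (hR' : R ≤ 64) {x : E n}
    (hx : x ∈ ball (0 : E n) R) : scF f x₀ ρ x = ρ * f (x₀ + ρ • x) := by
  unfold scF
  rw [Set.indicator_of_mem (ball_subset_ball hR' hx)]

theorem scF_out {n : ℕ} (f : E n → ℝ) (x₀ : E n) (ρ : ℝ) {x : E n} (hx : x ∉ ball (0 : E n) 64) :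
    scF f x₀ ρ x = 0 := by
  unfold scF
  rw [Set.indicator_of_notMem hx]

theorem sc_n {n : ℕ} (hn : 2 ≤ n) {f : E n → ℝ} (hf : Base f) (x₀ : E n) (ρ R : ℝ) (hρ : 0 < ρ)
    (hR : 0 < R) (hR' : R ≤ 64) (T : Set (E n)) (hT : MeasurableSet T) :
    ∫ x in ball (0 : E n) R ∩ {x | x₀ + ρ • x ∈ T}, scF f x₀ ρ x ^ n =
      ∫ z in ball x₀ (R * ρ) ∩ T, f z ^ n := by
  have hT' : MeasurableSet {x : E n | x₀ + ρ • x ∈ T} :=
    ((measurable_const_smul ρ).const_add x₀) hT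
  have h1 : ∫ x in ball (0 : E n) R ∩ {x | x₀ + ρ • x ∈ T}, scF f x₀ ρ x ^ n =
      ∫ x in ball (0 : E n) R ∩ {x | x₀ + ρ • x ∈ T}, ρ ^ n * (fun z => f z ^ n) (x₀ + ρ • x) := by
    apply setIntegral_congr_fun (measurableSet_ball.inter hT')
    intro x hx
    dsimp only
    rw [scF_in f x₀ ρ hR' hx.1, mul_pow]
  rw [h1, integral_const_mul, sc_gen (fun z => f z ^ n) x₀ ρ R hρ T hT, ← mul_assoc,
    mul_inv_cancel₀ (by positivity), one_mul]

theorem sc_n_full {n : ℕ} (hn : 2 ≤ n) {f : E n → ℝ} (hf : Base f) (x₀ : E n) (ρ : ℝ)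
    (hρ : 0 < ρ) : ∫ x, scF f x₀ ρ x ^ n = ∫ z in ball x₀ (64 * ρ), f z ^ n := by
  have h1 := sc_n hn hf x₀ ρ 64 hρ (by norm_num) le_rfl Set.univ MeasurableSet.univ
  rw [Set.inter_univ] at h1
  rw [← h1]
  symm
  apply setIntegral_eq_integral_of_forall_compl_eq_zero
  intro x hx
  rw [scF_out f x₀ ρ (fun h => hx ⟨h, Set.mem_univ _⟩), zero_pow (by omega)]

theorem sc_s {n : ℕ} (hn : 2 ≤ n) {f : E n → ℝ} (hf : Base f) (x₀ : E n) (ρ R : ℝ) (hρ : 0 < ρ)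
    (hR : 0 < R) (hR' : R ≤ 64) :
    ∫ x in ball (0 : E n) R, scF f x₀ ρ x ^ sn n = Real.sqrt R * xs f x₀ (R * ρ) := by
  have h0 := sc_gen (fun z => f z ^ sn n) x₀ ρ R hρ Set.univ MeasurableSet.univ
  have huniv : {x : E n | x₀ + ρ • x ∈ (Set.univ : Set (E n))} = Set.univ := by simp
  rw [huniv, Set.inter_univ, Set.inter_univ] at h0
  have h1 : ∫ x in ball (0 : E n) R, scF f x₀ ρ x ^ sn n =
      ∫ x in ball (0 : E n) R, ρ ^ sn n * (fun z => f z ^ sn n) (x₀ + ρ • x) := by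
    apply setIntegral_congr_fun measurableSet_ball
    intro x hx
    dsimp only
    rw [scF_in f x₀ ρ hR' hx, Real.mul_rpow hρ.le (hf.nonneg _)]
  rw [h1, integral_const_mul, h0]
  unfold xs
  have h2 : ρ ^ sn n = ρ ^ n / Real.sqrt ρ := by
    rw [Real.sqrt_eq_rpow, ← Real.rpow_natCast ρ n, ← Real.rpow_sub hρ]
    rfl
  have h3 : 0 < Real.sqrt ρ := Real.sqrt_pos.2 hρ
  have h4 : 0 < Real.sqrt R := Real.sqrt_pos.2 hR
  rw [h2, Real.sqrt_mul hR.le]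
  field_simp

theorem sc_s_full {n : ℕ} (hn : 2 ≤ n) {f : E n → ℝ} (hf : Base f) (x₀ : E n) (ρ : ℝ)
    (hρ : 0 < ρ) : ∫ x, scF f x₀ ρ x ^ sn n = 8 * xs f x₀ (64 * ρ) := by
  obtain ⟨hs1, -⟩ := sn_bd' hn
  have h1 := sc_s hn hf x₀ ρ 64 hρ (by norm_num) le_rfl
  have h8 : Real.sqrt 64 = 8 := by
    rw [show (64 : ℝ) = 8 ^ 2 by norm_num, Real.sqrt_sq (by norm_num)]
  rw [h8] at h1
  rw [← h1]
  symm
  apply setIntegral_eq_integral_of_forall_compl_eq_zero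
  intro x hx
  rw [scF_out f x₀ ρ hx, Real.zero_rpow (by linarith)]

end H60NH
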