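import Pool.Agent.H60.NH.Def4

/-!
# [H60 NH SCSOL] Rescaled solutions are solutions

`gn (scG G x₀ ρ x) = scF (gn ∘ G) x₀ ρ x` for `ρ >= 0`.
`Sol`: measurability; weak gradient: for a test function `ψ` on `ball 0 64` put
`ψ'(z) = ψ(ρ⁻¹ (z - x₀))`, with support in `ball x₀ (64ρ) ⊆ ball 0 1`; change of variables `z = x₀ + ρ x`
(`dz = ρ^n dx`, `Measure.addHaar` scaling, `integral_comp_smul`, translation invariance), `∂_i ψ' = ρ⁻¹ (∂_i ψ)`.
`memN`, `tan`: images of null sets under `x ↦ x₀ + ρ x`; `Dπ` is linear. `el`: for `Y` on `ball 0 64` put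
`Y'(z) = Y(ρ⁻¹(z - x₀))`: the integrand for `(u, G, Y')` at `z = x₀ + ρ x` equals `ρ^(-(n-2)) ρ^(-2)` times the
integrand for `(scU, scG, Y)` at `x` (and `Y' = 0`, `DY' = 0` outside), so the integral is that multiple of
`ρ^n` times the other.
-/

set_option autoImplicit false

namespace H60NH

open MeasureTheory Metric Set Filter Topology
open scoped ENNReal NNReal ContDiff

theorem gn_scG {n m : ℕ} (G : E n → Fin n → E m) (x₀ : E n) (ρ : ℝ) (hρ : 0 ≤ ρ) (x : E n) :
    gn (scG G x₀ ρ x) = scF (fun y => gn (G y)) x₀ ρ x := by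
  unfold scF gn
  by_cases hx : x ∈ ball (0 : E n) 64
  · rw [indicator_of_mem hx]
    have h1 : ∑ i, ‖scG G x₀ ρ x i‖ ^ 2 = ρ ^ 2 * ∑ i, ‖G (x₀ + ρ • x) i‖ ^ 2 := by
      rw [Finset.mul_sum]
      refine Finset.sum_congr rfl fun i _ => ?_
      unfold scG
      rw [indicator_of_mem hx, norm_smul, mul_pow, Real.norm_eq_abs, sq_abs]
    rw [h1, Real.sqrt_mul (sq_nonneg ρ), Real.sqrt_sq hρ]
  · rw [indicator_of_notMem hx]
    have h1 : ∑ i, ‖scG G x₀ ρ x i‖ ^ 2 = 0 := by
      refine Finset.sum_eq_zero fun i _ => ?_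
      unfold scG
      rw [indicator_of_notMem hx, norm_zero]
      norm_num
    rw [h1, Real.sqrt_zero]

private theorem scsol_map {n : ℕ} (x₀ : E n) (ρ : ℝ) (hρ : 0 < ρ) :
    ∃ c : ℝ≥0∞, c ≠ ⊤ ∧ Measure.map (fun x : E n => x₀ + ρ • x) volume = c • volume := by
  refine ⟨ENNReal.ofReal |(ρ ^ Module.finrank ℝ (E n))⁻¹|, ENNReal.ofReal_ne_top, ?_⟩
  have h1 : (fun x : E n => x₀ + ρ • x) = (fun y => x₀ + y) ∘ fun x => ρ • x := rfl
  rw [h1, ← Measure.map_map (measurable_const_add x₀) (measurable_const_smul ρ),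
    Measure.map_addHaar_smul volume hρ.ne', Measure.map_smul]
  congr 1
  exact map_add_left_eq_self volume x₀

private theorem scsol_qmp {n : ℕ} (x₀ : E n) (ρ : ℝ) (hρ : 0 < ρ) :
    Measure.QuasiMeasurePreserving (fun x : E n => x₀ + ρ • x) volume volume := by
  obtain ⟨c, _, hc⟩ := scsol_map x₀ ρ hρ
  refine ⟨(measurable_const_smul ρ).const_add x₀, ?_⟩
  rw [hc]
  exact Measure.smul_absolutelyContinuous

private theorem scsol_int {n : ℕ} {V : Type} [NormedAddCommGroup V] [NormedSpace ℝ V]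
    (x₀ : E n) (ρ : ℝ) (hρ : 0 < ρ) (F : E n → V) :
    ∫ x, F (x₀ + ρ • x) = (ρ ^ n)⁻¹ • ∫ z, F z := by
  have h1 := Measure.integral_comp_smul (volume : Measure (E n)) (fun y => F (x₀ + y)) ρ
  rw [h1, integral_add_left_eq_self F x₀, finrank_euclideanSpace_fin,
    abs_of_pos (by positivity)]

private theorem scsol_memLp {n : ℕ} {V : Type} [NormedAddCommGroup V] [NormedSpace ℝ V]
    (x₀ : E n) (ρ : ℝ) (hρ : 0 < ρ) {F : E n → V} {p : ℝ≥0∞} (hF : MemLp F p volume) :
    MemLp (fun x => F (x₀ + ρ • x)) p volume := by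
  obtain ⟨c, hc, hc'⟩ := scsol_map x₀ ρ hρ
  have h1 : MemLp F p (Measure.map (fun x : E n => x₀ + ρ • x) volume) := by
    rw [hc']
    exact hF.smul_measure hc
  exact (memLp_map_measure_iff h1.1
    ((measurable_const_smul ρ).const_add x₀).aemeasurable).1 h1

/-- transported test functions -/
private theorem scsol_test {n : ℕ} {V : Type} [NormedAddCommGroup V] [NormedSpace ℝ V]
    (x₀ : E n) (ρ : ℝ) (hρ : 0 < ρ) (hb : ball x₀ (64 * ρ) ⊆ ball (0 : E n) 1)
    {k : WithTop ℕ∞} (hk : 1 ≤ k) {F : E n → V} (hF : ContDiff ℝ k F)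
    (hc : HasCompactSupport F) (hs : tsupport F ⊆ ball 0 64) :
    ∃ F' : E n → V, ContDiff ℝ k F' ∧ HasCompactSupport F' ∧ tsupport F' ⊆ ball 0 1 ∧
      (∀ x, F' (x₀ + ρ • x) = F x) ∧
      ∀ x v, fderiv ℝ F x v = ρ • fderiv ℝ F' (x₀ + ρ • x) v := by
  have hinv : ∀ x : E n, ρ⁻¹ • ((x₀ + ρ • x) - x₀) = x := by
    intro x
    rw [add_sub_cancel_left, smul_smul, inv_mul_cancel₀ hρ.ne', one_smul]
  have hinv' : ∀ z : E n, x₀ + ρ • (ρ⁻¹ • (z - x₀)) = z := by
    intro z
    rw [smul_smul, mul_inv_cancel₀ hρ.ne', one_smul, add_sub_cancel]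
  have hin : ContDiff ℝ k (fun z : E n => ρ⁻¹ • (z - x₀)) :=
    (contDiff_id.sub contDiff_const).const_smul ρ⁻¹
  have hF' : ContDiff ℝ k (fun z => F (ρ⁻¹ • (z - x₀))) := hF.comp hin
  have hK : IsCompact ((fun x : E n => x₀ + ρ • x) '' tsupport F) :=
    hc.isCompact.image (by fun_prop)
  have hsup : Function.support (fun z => F (ρ⁻¹ • (z - x₀))) ⊆
      (fun x : E n => x₀ + ρ • x) '' tsupport F := by
    intro z hz
    exact ⟨ρ⁻¹ • (z - x₀), subset_tsupport F hz, hinv' z⟩
  refine ⟨fun z => F (ρ⁻¹ • (z - x₀)), hF', HasCompactSupport.of_support_subset_isCompact hK hsup,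
    ?_, fun x => by show F _ = F x; rw [hinv x], ?_⟩
  · refine (closure_minimal hsup hK.isClosed).trans ?_
    rintro _ ⟨x, hx, rfl⟩
    apply hb
    have h1 := hs hx
    rw [mem_ball, dist_zero_right] at h1
    rw [mem_ball, dist_eq_norm, add_sub_cancel_left, norm_smul, Real.norm_eq_abs,
      abs_of_pos hρ]
    nlinarith
  · intro x v
    have hT : HasFDerivAt (fun x : E n => x₀ + ρ • x) (ρ • ContinuousLinearMap.id ℝ (E n)) x :=
      ((hasFDerivAt_id x).const_smul ρ).const_add x₀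
    have hd : DifferentiableAt ℝ (fun z => F (ρ⁻¹ • (z - x₀))) (x₀ + ρ • x) :=
      (hF'.differentiable (by
        intro h0
        rw [h0] at hk
        exact absurd hk (by norm_num))) _
    have h1 := (hd.hasFDerivAt.comp x hT).fderiv
    have h2 : ((fun z => F (ρ⁻¹ • (z - x₀))) ∘ fun x : E n => x₀ + ρ • x) = F := by
      funext x
      show F _ = F x
      rw [hinv x]
    rw [h2] at h1
    rw [h1]
    simp

private theorem scsol_fd {n : ℕ} {V : Type} [NormedAddCommGroup V] [NormedSpace ℝ V]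
    {F : E n → V} {R : ℝ} (hs : tsupport F ⊆ ball 0 R) {x : E n} (hx : x ∉ ball (0 : E n) R) :
    F x = 0 ∧ fderiv ℝ F x = 0 := by
  refine ⟨image_eq_zero_of_notMem_tsupport fun h => hx (hs h), ?_⟩
  have h1 : x ∉ tsupport (fderiv ℝ F) := fun h => hx (hs (tsupport_fderiv_subset ℝ h))
  exact image_eq_zero_of_notMem_tsupport h1

theorem sc_sol {n m : ℕ} (hn : 2 ≤ n) {N : Set (E m)} {π : E m → E m} {u : E n → E m}
    {G : E n → Fin n → E m} (hS : Sol N π 1 u G) (x₀ : E n) (ρ : ℝ) (hρ : 0 < ρ)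
    (hb : ball x₀ (64 * ρ) ⊆ ball (0 : E n) 1) : Sol N π 64 (scU u x₀ ρ) (scG G x₀ ρ) := by
  have hTm : Measurable fun x : E n => x₀ + ρ • x := (measurable_const_smul ρ).const_add x₀
  have hTb : ∀ x ∈ ball (0 : E n) 64, x₀ + ρ • x ∈ ball (0 : E n) 1 := by
    intro x hx
    apply hb
    rw [mem_ball, dist_zero_right] at hx
    rw [mem_ball, dist_eq_norm, add_sub_cancel_left, norm_smul, Real.norm_eq_abs,
      abs_of_pos hρ]
    nlinarith
  have hui : (ball (0 : E n) 1).indicator u = u := by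
    funext x
    by_cases hx : x ∈ ball (0 : E n) 1
    · rw [indicator_of_mem hx]
    · rw [indicator_of_notMem hx, hS.out_u x hx]
  have hGi : ∀ i, (ball (0 : E n) 1).indicator (fun x => G x i) = fun x => G x i := by
    intro i
    funext x
    by_cases hx : x ∈ ball (0 : E n) 1
    · rw [indicator_of_mem hx]
    · rw [indicator_of_notMem hx, hS.out_G x hx]
  have hu : MemLp u n volume := by
    rw [← hui]
    exact (memLp_indicator_iff_restrict measurableSet_ball).2 hS.wg.mem_v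
  have hG : ∀ i, MemLp (fun x => G x i) n volume := by
    intro i
    rw [← hGi i]
    exact (memLp_indicator_iff_restrict measurableSet_ball).2 (hS.wg.mem_G i)
  have hae : ∀ {p : E n → Prop}, (∀ᵐ z ∂(volume.restrict (ball (0 : E n) 1)), p z) →
      ∀ᵐ x ∂(volume.restrict (ball (0 : E n) 64)), p (x₀ + ρ • x) := by
    intro p hp
    have h1 := (ae_restrict_iff' measurableSet_ball).1 hp
    have h2 := (scsol_qmp x₀ ρ hρ).ae h1
    rw [ae_restrict_iff' measurableSet_ball]
    filter_upwards [h2] with x hx hx'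
    exact hx (hTb x hx')
  refine ⟨?_, ?_, ⟨?_, ?_, ?_⟩, ?_, ?_, ?_, ?_, ?_⟩
  · exact (hS.meas_u.comp hTm).indicator measurableSet_ball
  · exact fun i => (((hS.meas_G i).comp hTm).const_smul ρ).indicator measurableSet_ball
  · exact ((scsol_memLp x₀ ρ hρ hu).indicator measurableSet_ball).restrict _
  · exact fun i => (((scsol_memLp x₀ ρ hρ (hG i)).const_smul ρ).indicator
      measurableSet_ball).restrict _
  · intro ψ hψ hψc hψs i
    obtain ⟨ψ', h1, h2, h3, h4, h5⟩ := scsol_test x₀ ρ hρ hb (k := (∞ : WithTop ℕ∞))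
      (by exact_mod_cast le_top) hψ hψc hψs
    have h6 := hS.wg.eq ψ' h1 h2 h3 i
    have e1 : ∫ x in ball (0 : E n) 64, (fderiv ℝ ψ x (ev i)) • scU u x₀ ρ x =
        ρ • ((ρ ^ n)⁻¹ • ∫ z, (fderiv ℝ ψ' z (ev i)) • u z) := by
      rw [← scsol_int x₀ ρ hρ, ← integral_smul, ← integral_indicator measurableSet_ball]
      refine integral_congr_ae (Filter.Eventually.of_forall fun x => ?_)
      show (ball (0 : E n) 64).indicator (fun x => (fderiv ℝ ψ x (ev i)) • scU u x₀ ρ x) x =
        ρ • (fderiv ℝ ψ' (x₀ + ρ • x) (ev i) • u (x₀ + ρ • x))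
      by_cases hx : x ∈ ball (0 : E n) 64
      · rw [indicator_of_mem hx, h5 x]
        unfold scU
        rw [indicator_of_mem hx, smul_assoc]
      · rw [indicator_of_notMem hx]
        have h7 := h5 x (ev i)
        rw [(scsol_fd hψs hx).2] at h7
        have h8 : fderiv ℝ ψ' (x₀ + ρ • x) (ev i) = 0 := by
          rcases smul_eq_zero.1 h7.symm with h | h
          · exact absurd h hρ.ne'
          · exact h
        rw [h8, zero_smul, smul_zero]
    have e2 : ∫ x in ball (0 : E n) 64, ψ x • scG G x₀ ρ x i =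
        ρ • ((ρ ^ n)⁻¹ • ∫ z, ψ' z • G z i) := by
      rw [← scsol_int x₀ ρ hρ, ← integral_smul, ← integral_indicator measurableSet_ball]
      refine integral_congr_ae (Filter.Eventually.of_forall fun x => ?_)
      show (ball (0 : E n) 64).indicator (fun x => ψ x • scG G x₀ ρ x i) x =
        ρ • (ψ' (x₀ + ρ • x) • G (x₀ + ρ • x) i)
      rw [h4 x]
      by_cases hx : x ∈ ball (0 : E n) 64
      · rw [indicator_of_mem hx]
        unfold scG
        rw [indicator_of_mem hx, smul_comm]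
      · rw [indicator_of_notMem hx, (scsol_fd hψs hx).1, zero_smul, smul_zero]
    have e3 : ∫ z, (fderiv ℝ ψ' z (ev i)) • u z =
        ∫ z in ball (0 : E n) 1, (fderiv ℝ ψ' z (ev i)) • u z := by
      symm
      apply setIntegral_eq_integral_of_forall_compl_eq_zero
      intro x hx
      rw [(scsol_fd h3 hx).2]
      simp
    have e4 : ∫ z, ψ' z • G z i = ∫ z in ball (0 : E n) 1, ψ' z • G z i := by
      symm
      apply setIntegral_eq_integral_of_forall_compl_eq_zero
      intro x hx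
      rw [(scsol_fd h3 hx).1, zero_smul]
    rw [e1, e2, e3, e4, h6, smul_neg, smul_neg]
  · filter_upwards [hae hS.memN, ae_restrict_mem measurableSet_ball] with x hx hx'
    unfold scU
    rw [indicator_of_mem hx']
    exact hx
  · filter_upwards [hae hS.tan, ae_restrict_mem measurableSet_ball] with x hx hx' i
    unfold scU scG
    rw [indicator_of_mem hx', indicator_of_mem hx', map_smul, hx i]
  · intro x hx
    unfold scU
    exact indicator_of_notMem hx _
  · intro x hx i
    unfold scG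
    exact indicator_of_notMem hx _
  · intro Y hY hYc hYs
    obtain ⟨Y', h1, h2, h3, h4, h5⟩ := scsol_test x₀ ρ hρ hb (k := 1) le_rfl hY hYc hYs
    have h6 := hS.el Y' h1 h2 h3
    have e1 : ∀ x, gn (scG G x₀ ρ x) ^ (n - 2) *
        (∑ i, (inner ℝ (scG G x₀ ρ x i) (fderiv ℝ Y x (ev i))
          + inner ℝ (D2 π (scU u x₀ ρ x) (scG G x₀ ρ x i) (scG G x₀ ρ x i)) (Y x))) =
        ρ ^ n * (gn (G (x₀ + ρ • x)) ^ (n - 2) *
          (∑ i, (inner ℝ (G (x₀ + ρ • x) i) (fderiv ℝ Y' (x₀ + ρ • x) (ev i))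
          + inner ℝ (D2 π (u (x₀ + ρ • x)) (G (x₀ + ρ • x) i) (G (x₀ + ρ • x) i))
            (Y' (x₀ + ρ • x))))) := by
      intro x
      rw [h4 x]
      by_cases hx : x ∈ ball (0 : E n) 64
      · have e2 : gn (scG G x₀ ρ x) = ρ * gn (G (x₀ + ρ • x)) := by
          rw [gn_scG G x₀ ρ hρ.le x]
          unfold scF
          rw [indicator_of_mem hx]
        have e3 : ∑ i, (inner ℝ (scG G x₀ ρ x i) (fderiv ℝ Y x (ev i))
            + inner ℝ (D2 π (scU u x₀ ρ x) (scG G x₀ ρ x i) (scG G x₀ ρ x i)) (Y x)) =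
            ρ ^ 2 * ∑ i, (inner ℝ (G (x₀ + ρ • x) i) (fderiv ℝ Y' (x₀ + ρ • x) (ev i))
              + inner ℝ (D2 π (u (x₀ + ρ • x)) (G (x₀ + ρ • x) i) (G (x₀ + ρ • x) i))
                (Y x)) := by
          rw [Finset.mul_sum]
          refine Finset.sum_congr rfl fun i _ => ?_
          unfold scG scU
          rw [indicator_of_mem hx, indicator_of_mem hx, h5 x]
          simp only [map_smul, _root_.smul_apply, real_inner_smul_left,
            real_inner_smul_right]
          ring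
        rw [e2, e3, mul_pow]
        obtain ⟨l, rfl⟩ : ∃ l, n = l + 2 := ⟨n - 2, by omega⟩
        simp only [Nat.add_sub_cancel]
        ring
      · have e3 : ∑ i, (inner ℝ (scG G x₀ ρ x i) (fderiv ℝ Y x (ev i))
            + inner ℝ (D2 π (scU u x₀ ρ x) (scG G x₀ ρ x i) (scG G x₀ ρ x i)) (Y x)) =
            0 := by
          refine Finset.sum_eq_zero fun i _ => ?_
          rw [(scsol_fd hYs hx).1, (scsol_fd hYs hx).2]
          simp
        have e4 : ∀ i, fderiv ℝ Y' (x₀ + ρ • x) (ev i) = 0 := by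
          intro i
          have h7 := h5 x (ev i)
          rw [(scsol_fd hYs hx).2] at h7
          rcases smul_eq_zero.1 h7.symm with h | h
          · exact absurd h hρ.ne'
          · exact h
        have e5 : ∑ i, (inner ℝ (G (x₀ + ρ • x) i) (fderiv ℝ Y' (x₀ + ρ • x) (ev i))
              + inner ℝ (D2 π (u (x₀ + ρ • x)) (G (x₀ + ρ • x) i) (G (x₀ + ρ • x) i))
                (Y x)) = 0 := by
          refine Finset.sum_eq_zero fun i _ => ?_
          rw [(scsol_fd hYs hx).1, e4 i]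
          simp
        rw [e3, e5, mul_zero, mul_zero, mul_zero]
    rw [integral_congr_ae (Filter.Eventually.of_forall e1), integral_const_mul,
      scsol_int x₀ ρ hρ (fun z => gn (G z) ^ (n - 2) *
          (∑ i, (inner ℝ (G z i) (fderiv ℝ Y' z (ev i))
          + inner ℝ (D2 π (u z) (G z i) (G z i)) (Y' z)))), h6, smul_zero, mul_zero]

end H60NH
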