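import Pool.Agent.H60.NH.Def4
import Pool.Agent.H60.NH.MSol

/-!
# [H60 NH SOLBASE] The gradient of a solution on the unit ball

`f = gn ∘ G` is measurable, nonnegative, integrable with integrable `n`-th power (`sol_int`), and vanishes
outside the unit ball (`out_G`).
-/

set_option autoImplicit false

namespace H60NH

open MeasureTheory Metric Set Filter Topology
open scoped ENNReal NNReal ContDiff

theorem sol_base {n m : ℕ} (hn : 2 ≤ n) {N : Set (E m)} {π : E m → E m} {u : E n → E m}
    {G : E n → Fin n → E m} (hS : Sol N π 1 u G) : Base (fun x => gn (G x)) := by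
  obtain ⟨-, -, -, h4, h5, h6⟩ := sol_int (by omega) hS
  refine ⟨h4, fun x => Real.sqrt_nonneg _, h5, h6, fun x hx => ?_⟩
  have h0 : ∑ i, ‖G x i‖ ^ 2 = 0 :=
    Finset.sum_eq_zero fun i _ => by rw [hS.out_G x hx i, norm_zero]; norm_num
  show Real.sqrt (∑ i, ‖G x i‖ ^ 2) = 0
  rw [h0, Real.sqrt_zero]

end H60NH
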