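import Pool.Agent.H60.NH.Def

/-!
# [H60 NH TSYM] The differential of the nearest point projection is symmetric

Let `T = {y | infDist y N < δ}` (open) and `q(y) = (1/2)|y - π y|^2`.
Claim 1: `q` is differentiable at every `y ∈ T` with gradient `y - π y`.
Proof: for small `h` (so that `y + h ∈ T`), since `π y ∈ N` and `|y + h - π(y+h)| = infDist (y+h) N`
is the distance to `N`,
`q(y+h) <= (1/2)|y + h - π y|^2 = q(y) + <h, y - π y> + (1/2)|h|^2`, and, exchanging the roles,
`q(y) <= (1/2)|y - π(y+h)|^2 = q(y+h) - <h, y + h - π(y+h)> + (1/2)|h|^2`, so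
`<h, y + h - π(y+h)> - (1/2)|h|^2 <= q(y+h) - q(y) <= <h, y - π y> + (1/2)|h|^2`; `π` is continuous
at `y`, so both sides are `<h, y - π y> + o(|h|)`.
Claim 2: so `fderiv q z = innerSL (z - π z)` for `z ∈ T`, which is differentiable at `y` (as `π` is
smooth), with second derivative `(a, b) ↦ <a - Dπ(y) a, b>`; `q` is `C^2` on `T`, and second
derivatives are symmetric (`second_derivative_symmetric_of_eventually`), so
`<a - Dπ(y) a, b> = <b - Dπ(y) b, a>`, i.e. `<Dπ(y) a, b> = <a, Dπ(y) b>`.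
-/

set_option autoImplicit false

namespace H60NH

open MeasureTheory Metric Set Filter Topology
open scoped ENNReal NNReal ContDiff

theorem dpi_symm {m : ℕ} {N : Set (E m)} {δ : ℝ} {π : E m → E m} (hN : IsTarget N δ π)
    (y : E m) (hy : infDist y N < δ) (a b : E m) :
    inner ℝ (fderiv ℝ π y a) b = inner ℝ a (fderiv ℝ π y b) := by
  have hT : IsOpen {y | infDist y N < δ} := isOpen_lt (continuous_infDist_pt N) continuous_const
  have hcd : ∀ z, infDist z N < δ → ContDiffAt ℝ ∞ π z := fun z hz =>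
    hN.smooth.contDiffAt (hT.mem_nhds hz)
  have hd : ∀ z, infDist z N < δ → HasFDerivAt π (fderiv ℝ π z) z := fun z hz =>
    ((hcd z hz).differentiableAt (by simp)).hasFDerivAt
  have hline : ∀ z h : E m, HasDerivAt (fun t : ℝ => z + t • h) h 0 := by
    intro z h
    have h1 := ((hasDerivAt_id (0 : ℝ)).smul_const h).const_add z
    rw [one_smul] at h1
    exact h1
  have hev : ∀ z h : E m, infDist z N < δ →
      ∀ᶠ t in 𝓝 (0 : ℝ), infDist (z + t • h) N < δ := by
    intro z h hz
    have h1 : {y | infDist y N < δ} ∈ 𝓝 (z + (0 : ℝ) • h) := by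
      rw [zero_smul, add_zero]
      exact hT.mem_nhds hz
    exact (hline z h).continuousAt.preimage_mem_nhds h1
  have hπl : ∀ z h : E m, infDist z N < δ →
      HasDerivAt (fun t : ℝ => π (z + t • h)) (fderiv ℝ π z h) 0 := by
    intro z h hz
    have h1 : HasFDerivAt π (fderiv ℝ π z) (z + (0 : ℝ) • h) := by
      rw [zero_smul, add_zero]
      exact hd z hz
    exact h1.comp_hasDerivAt 0 (hline z h)
  have horth : ∀ z, infDist z N < δ → ∀ h, inner ℝ (z - π z) (fderiv ℝ π z h) = 0 := by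
    intro z hz h
    have hg : HasDerivAt (fun t : ℝ => ‖z - π (z + t • h)‖ ^ 2)
        (2 * inner ℝ (z - π (z + (0 : ℝ) • h)) (-fderiv ℝ π z h)) 0 :=
      ((hπl z h hz).const_sub z).norm_sq
    have hmin : IsLocalMin (fun t : ℝ => ‖z - π (z + t • h)‖ ^ 2) 0 := by
      filter_upwards [hev z h hz] with t ht
      have h1 : infDist z N ≤ dist z (π (z + t • h)) := infDist_le_dist_of_mem (hN.mem _ ht)
      have h2 : dist z (π z) = infDist z N := hN.dist_eq z hz
      rw [zero_smul, add_zero, ← dist_eq_norm, ← dist_eq_norm, h2]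
      exact pow_le_pow_left₀ infDist_nonneg h1 2
    have h0 := hmin.hasDerivAt_eq_zero hg
    rw [inner_neg_right, zero_smul, add_zero] at h0
    linarith
  have hB : HasFDerivAt (fderiv ℝ π) (fderiv ℝ (fderiv ℝ π) y) y :=
    (((hcd y hy).fderiv_right (m := 1) (by norm_cast)).differentiableAt
      (by norm_num)).hasFDerivAt
  have key : ∀ h k, inner ℝ (k - fderiv ℝ π y k) (fderiv ℝ π y h) +
      inner ℝ (y - π y) (fderiv ℝ (fderiv ℝ π) y k h) = 0 := by
    intro h k
    have h2 : HasDerivAt (fun t : ℝ => fderiv ℝ π (y + t • k))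
        (fderiv ℝ (fderiv ℝ π) y k) 0 := by
      have h1 : HasFDerivAt (fderiv ℝ π) (fderiv ℝ (fderiv ℝ π) y) (y + (0 : ℝ) • k) := by
        rw [zero_smul, add_zero]
        exact hB
      exact h1.comp_hasDerivAt 0 (hline y k)
    have h3 : HasDerivAt (fun t : ℝ => fderiv ℝ π (y + t • k) h)
        (fderiv ℝ (fderiv ℝ π) y k h) 0 :=
      (ContinuousLinearMap.apply ℝ (E m) h).hasFDerivAt.comp_hasDerivAt 0 h2
    have h4 : HasDerivAt (fun t : ℝ => y + t • k - π (y + t • k)) (k - fderiv ℝ π y k) 0 :=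
      (hline y k).sub (hπl y k hy)
    have h5 := h4.inner ℝ h3
    have h6 : (fun t : ℝ => inner ℝ (y + t • k - π (y + t • k)) (fderiv ℝ π (y + t • k) h))
        =ᶠ[𝓝 0] fun _ => (0 : ℝ) := by
      filter_upwards [hev y k hy] with t ht
      exact horth _ ht h
    have h7 := ((hasDerivAt_const (0 : ℝ) (0 : ℝ)).congr_of_eventuallyEq h6).unique h5
    rw [zero_smul, add_zero] at h7
    rw [add_comm]
    exact h7.symm
  have hsymm : fderiv ℝ (fderiv ℝ π) y a b = fderiv ℝ (fderiv ℝ π) y b a :=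
    ((hcd y hy).isSymmSndFDerivAt (by
      rw [minSmoothness_of_isRCLikeNormedField]
      exact WithTop.coe_le_coe.2 (le_top : (2 : ℕ∞) ≤ ⊤))).eq a b
  have k1 := key b a
  have k2 := key a b
  rw [hsymm] at k1
  rw [inner_sub_left] at k1 k2
  have k3 := real_inner_comm (fderiv ℝ π y a) (fderiv ℝ π y b)
  have k4 := real_inner_comm b (fderiv ℝ π y a)
  linarith

end H60NH
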