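import Pool.Agent.H60.NH.WinRel
import Pool.Agent.H60.NH.ScMor
import Pool.Agent.H60.NH.NCont

/-!
# [H60 NH WINA] Scaled quantities in one window

`As_sc`: definition of `As` and `sc_s_full`.
`good_set`: `F_k = scF f x₀ (r/p2 k)`, `F_0 = scF f x₀ r`. Measurability: `Ninf_meas` composed with a continuous map.
`x₀ + (r/p2 k) • x ∈ goodS` iff `Ninf F_0 ((p2 k)⁻¹ • x) <= ofReal c₀` (`r⁻¹ • ((r/p2 k) • x) = (p2 k)⁻¹ • x`). By
`win_rel`, for `x ∈ ball 0 1`: `Ninf F_0 ((p2 k)⁻¹ x) = ∑_{j<k} ofReal (AA F_0 j ..) + Ninf F_k x`, so it is `>= Ninf F_k x`, and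
`<= ofReal (k 8^(n-1) ε) + Ninf F_k x` (`AA_nonneg` for `F_0`) `<= ofReal (c₀/2) + Ninf F_k x` for `k <= L`.
-/

set_option autoImplicit false

namespace H60NH

open MeasureTheory Metric Set Filter Topology
open scoped ENNReal NNReal ContDiff

theorem As_sc {n : ℕ} (hn : 2 ≤ n) {f : E n → ℝ} (hf : Base f) (x₀ : E n) (ρ : ℝ) (hρ : 0 < ρ) :
    As (scF f x₀ ρ) ^ n = (8 * xs f x₀ (64 * ρ)) ^ ((n : ℝ) / sn n) ∧
    As (scF f x₀ ρ) = (8 * xs f x₀ (64 * ρ)) ^ (1 / sn n) := by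
  have hx : 0 ≤ 8 * xs f x₀ (64 * ρ) := by
    rw [← sc_s_full hn hf x₀ ρ hρ]
    refine integral_nonneg fun x => Real.rpow_nonneg ?_ _
    unfold scF
    refine Set.indicator_nonneg (fun y _ => mul_nonneg hρ.le (hf.nonneg _)) x
  have h1 : As (scF f x₀ ρ) = (8 * xs f x₀ (64 * ρ)) ^ (1 / sn n) := by
    unfold As
    rw [sc_s_full hn hf x₀ ρ hρ]
  refine ⟨?_, h1⟩
  rw [h1, ← Real.rpow_natCast, ← Real.rpow_mul hx]
  congr 1
  ring

theorem good_set {n : ℕ} (hn : 2 ≤ n) {f : E n → ℝ} (hf : Base f) (x₀ : E n) (r ε c₀ : ℝ)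
    (hr : 0 < r) (hc : 0 < c₀) (hF : Mor (scF f x₀ r) ε) (L : ℕ)
    (hL : L * (8 ^ (n - 1) * ε) ≤ c₀ / 2) :
    MeasurableSet (goodS f x₀ r c₀) ∧ ∀ k : ℕ, k ≤ L → ∀ x ∈ ball (0 : E n) 1,
      (x₀ + (r / p2 k) • x ∈ goodS f x₀ r c₀ →
        Ninf (scF f x₀ (r / p2 k)) x ≤ ENNReal.ofReal c₀) ∧
      (Ninf (scF f x₀ (r / p2 k)) x ≤ ENNReal.ofReal (c₀ / 2) →
        x₀ + (r / p2 k) • x ∈ goodS f x₀ r c₀) := by
  have hmeas : Measurable (Ninf (scF f x₀ r)) := Ninf_meas (by omega) hF.int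
  refine ⟨?_, fun k hk x hx => ?_⟩
  · refine measurableSet_le (hmeas.comp ?_) measurable_const
    exact (measurable_id.sub_const x₀).const_smul r⁻¹
  · have hp : 0 < p2 k := by
      unfold p2
      positivity
    have h1 : r⁻¹ • (x₀ + (r / p2 k) • x - x₀) = (p2 k)⁻¹ • x := by
      rw [add_sub_cancel_left, smul_smul]
      congr 1
      field_simp
    have h2 : x₀ + (r / p2 k) • x ∈ goodS f x₀ r c₀ ↔
        Ninf (scF f x₀ r) ((p2 k)⁻¹ • x) ≤ ENNReal.ofReal c₀ := by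
      show Ninf (scF f x₀ r) (r⁻¹ • (x₀ + (r / p2 k) • x - x₀)) ≤ ENNReal.ofReal c₀ ↔ _
      rw [h1]
    rw [h2, win_rel hn hf x₀ r hr k x hx]
    refine ⟨fun h => le_trans le_add_self h, fun h => ?_⟩
    have h3 : ∑ j ∈ Finset.range k, ENNReal.ofReal (AA (scF f x₀ r) j ((p2 k)⁻¹ • x)) ≤
        ENNReal.ofReal (c₀ / 2) := by
      rw [← ENNReal.ofReal_sum_of_nonneg fun j _ => (AA_nonneg hF j _).1]
      refine ENNReal.ofReal_le_ofReal ?_
      have h4 : ∑ j ∈ Finset.range k, AA (scF f x₀ r) j ((p2 k)⁻¹ • x) ≤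
          ∑ _j ∈ Finset.range k, 8 ^ (n - 1) * ε :=
        Finset.sum_le_sum fun j _ => (AA_nonneg hF j _).2.2.2
      rw [Finset.sum_const, Finset.card_range, nsmul_eq_mul] at h4
      have h5 : (k : ℝ) * (8 ^ (n - 1) * ε) ≤ L * (8 ^ (n - 1) * ε) :=
        mul_le_mul_of_nonneg_right (by exact_mod_cast hk)
          (mul_nonneg (by positivity) hF.eps)
      exact h4.trans (h5.trans hL)
    calc _ ≤ ENNReal.ofReal (c₀ / 2) + ENNReal.ofReal (c₀ / 2) := add_le_add h3 h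
      _ = ENNReal.ofReal c₀ := by
        rw [← ENNReal.ofReal_add (by positivity) (by positivity), add_halves]

end H60NH
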