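import Pool.Agent.H60.NH.ScInt
import Pool.Agent.H60.NH.NCont

/-!
# [H60 NH WINREL] The function `Ninf` at different scales

`F = scF f x₀ r`, `F_k = scF f x₀ (r / p2 k)`. For `z ∈ ball 0 64`: `F (z/p2 k) = p2 k * F_k z` (both indicators
are `1`). For `x ∈ ball 0 1` and `j >= 0`, `ball x (8/p2 j) ⊆ ball 0 9`, and with `y = z/p2 k`:
`AA F (j+k) (x/p2 k) = p2 (j+k)^(n-1) ∫_{ball (x/p2 k) (8/p2 (j+k))} F = p2 (j+k)^(n-1) (p2 k)^(-n) ∫_{z ∈ ball x (8/p2 j)} F(z/p2 k)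
= p2 (j+k)^(n-1) (p2 k)^(1-n) ∫_{ball x (8/p2 j)} F_k = AA F_k j x`.
Split the series of `Ninf F (x/p2 k)` into `j < k` and `j >= k` (`ENNReal.tsum_eq_..`, `sum_add_tsum_nat_add'`).
-/

set_option autoImplicit false

namespace H60NH

open MeasureTheory Metric Set Filter Topology
open scoped ENNReal NNReal ContDiff

private theorem winrel_p2 (k : ℕ) : 0 < p2 k := by
  unfold p2
  positivity

open scoped Pointwise in
private theorem winrel_int {n : ℕ} (F : E n → ℝ) (x : E n) (ρ : ℝ) {c : ℝ} (hc : 0 < c) :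
    ∫ z in ball x ρ, F (c • z) = (c ^ n)⁻¹ * ∫ z in ball (c • x) (c * ρ), F z := by
  have hball : c • ball x ρ = ball (c • x) (c * ρ) := by
    rw [_root_.smul_ball hc.ne', Real.norm_of_nonneg hc.le]
  have h1 := Measure.setIntegral_comp_smul_of_pos (volume : Measure (E n)) F (ball x ρ) hc
  rw [hball, finrank_euclideanSpace_fin, smul_eq_mul] at h1
  exact h1

theorem AA_rescale {n : ℕ} (hn : 2 ≤ n) {f : E n → ℝ} (hf : Base f) (x₀ : E n) (r : ℝ)
    (hr : 0 < r) (k j : ℕ) (x : E n) (hx : x ∈ ball (0 : E n) 1) :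
    AA (scF f x₀ r) (j + k) ((p2 k)⁻¹ • x) = AA (scF f x₀ (r / p2 k)) j x := by
  have hk := winrel_p2 k
  have hj := winrel_p2 j
  have hjk : p2 (j + k) = p2 j * p2 k := by
    unfold p2
    rw [pow_add]
  have hc : 0 < (p2 k)⁻¹ := inv_pos.2 hk
  have h1 := winrel_int (scF f x₀ r) x (8 / p2 j) hc
  have hball : (p2 k)⁻¹ * (8 / p2 j) = 8 / p2 (j + k) := by
    rw [hjk]
    field_simp
  rw [hball] at h1
  have h2 : ∫ z in ball x (8 / p2 j), scF f x₀ r ((p2 k)⁻¹ • z) =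
      p2 k * ∫ z in ball x (8 / p2 j), scF f x₀ (r / p2 k) z := by
    rw [← integral_const_mul]
    apply setIntegral_congr_fun measurableSet_ball
    intro z hz
    have hx1 : ‖x‖ < 1 := mem_ball_zero_iff.1 hx
    have hz1 : ‖z - x‖ < 8 / p2 j := mem_ball_iff_norm.1 hz
    have hj1 : 1 ≤ p2 j := by
      unfold p2
      exact one_le_pow₀ (by norm_num)
    have hk1 : 1 ≤ p2 k := by
      unfold p2
      exact one_le_pow₀ (by norm_num)
    have h8 : 8 / p2 j ≤ 8 := div_le_self (by norm_num) hj1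
    have hz2 : ‖z‖ < 64 := by
      have h3 : ‖z‖ ≤ ‖z - x‖ + ‖x‖ := by
        have h4 := norm_add_le (z - x) x
        rwa [sub_add_cancel] at h4
      linarith
    have hz3 : ‖(p2 k)⁻¹ • z‖ < 64 := by
      rw [norm_smul, Real.norm_of_nonneg hc.le]
      have h4 : (p2 k)⁻¹ ≤ 1 := inv_le_one_of_one_le₀ hk1
      nlinarith [norm_nonneg z]
    show scF f x₀ r ((p2 k)⁻¹ • z) = p2 k * scF f x₀ (r / p2 k) z
    rw [scF_in f x₀ r (le_refl 64) (mem_ball_zero_iff.2 hz3),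
      scF_in f x₀ (r / p2 k) (le_refl 64) (mem_ball_zero_iff.2 hz2), smul_smul, ← div_eq_mul_inv]
    field_simp
  rw [h2] at h1
  have h3 : ∫ z in ball ((p2 k)⁻¹ • x) (8 / p2 (j + k)), scF f x₀ r z =
      (p2 k)⁻¹ ^ n * (p2 k * ∫ z in ball x (8 / p2 j), scF f x₀ (r / p2 k) z) := by
    rw [h1, ← mul_assoc, mul_inv_cancel₀ (pow_ne_zero n hc.ne'), one_mul]
  unfold AA
  rw [h3, hjk, mul_pow]
  obtain ⟨l, rfl⟩ : ∃ l, n = l + 1 := ⟨n - 1, by omega⟩
  rw [Nat.add_sub_cancel, inv_pow, pow_succ (p2 k) l]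
  field_simp

theorem win_rel {n : ℕ} (hn : 2 ≤ n) {f : E n → ℝ} (hf : Base f) (x₀ : E n) (r : ℝ)
    (hr : 0 < r) (k : ℕ) (x : E n) (hx : x ∈ ball (0 : E n) 1) :
    Ninf (scF f x₀ r) ((p2 k)⁻¹ • x) =
      ∑ j ∈ Finset.range k, ENNReal.ofReal (AA (scF f x₀ r) j ((p2 k)⁻¹ • x))
        + Ninf (scF f x₀ (r / p2 k)) x := by
  unfold Ninf
  have h1 := ENNReal.summable.sum_add_tsum_nat_add' (k := k)
    (f := fun j => ENNReal.ofReal (AA (scF f x₀ r) j ((p2 k)⁻¹ • x)))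
  rw [← h1]
  congr 1
  refine tsum_congr fun j => ?_
  rw [AA_rescale hn hf x₀ r hr k j x hx]

end H60NH
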